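import Pool.Agent.Lib.MP_ed661f_ag.V.LinK
import Pool.Agent.Lib.MP_ed661f_ag.H.Krull

/-!
Generic points of a surface avoid the curves which are defined over a countable field.
-/

set_option autoImplicit false

open MvPolynomial

namespace Pool.Agent.Lib.MP_ed661f_ag.V

open Pool.Agent.Lib.MP_ed661f_ag.H

private theorem avoid_homog {N k : ℕ} {J : Ideal (Poly N)} (hJ : Homog J) {Δ : Poly N}
    (hΔ : Δ.IsHomogeneous k) : Homog (J ⊔ Ideal.span {Δ}) := by
  intro a ha j
  obtain ⟨b, hb, c, hc, rfl⟩ := Submodule.mem_sup.1 ha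
  obtain ⟨d, rfl⟩ := Ideal.mem_span_singleton'.1 hc
  rw [map_add]
  refine Submodule.add_mem_sup (hJ b hb j) ?_
  have h1 : d * Δ = ∑ i ∈ Finset.range (d.totalDegree + 1), homogeneousComponent i d * Δ := by
    rw [← Finset.sum_mul, sum_homogeneousComponent]
  rw [h1, map_sum]
  refine Ideal.sum_mem _ fun i _ => ?_
  rw [homogeneousComponent_of_mem ((homogeneousComponent_isHomogeneous i d).mul hΔ)]
  split_ifs
  · exact Ideal.mul_mem_left _ _ (Ideal.mem_span_singleton_self Δ)
  · exact Ideal.zero_mem _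

/-- **a nonzero form in the three linear forms in the ideal of a curve section**.

Proof. `Poly N ⧸ J` is a domain of dimension `3`, and `proj J L` is injective, so `Poly N ⧸ J` is
algebraic over the polynomials in the `L j` (transcendence degree `3`: Noether normalisation
`H.exists_noether`, so the transcendence degree of the fraction field is `3`, and three
algebraically independent elements are a transcendence basis). So the nonzero ideal generated by the
class of `Δ` meets the polynomials in the `L j` in a nonzero element: there is `R ≠ 0` with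
`aeval L R ∈ J ⊔ (Δ)`. As `J` and `Δ` are homogeneous, a homogeneous component of `R` will do. -/
theorem exists_rel {N k : ℕ} {J : Ideal (Poly N)} (hJ : IsSurface J) {L : Fin 3 → Poly N}
    (hL : ∀ j, (L j).IsHomogeneous 1) (hinj : Function.Injective (proj J L)) {Δ : Poly N}
    (hΔh : Δ.IsHomogeneous k) (hΔ : Δ ∉ J) :
    ∃ (j : ℕ) (R : MvPolynomial (Fin 3) ℂ), R.IsHomogeneous j ∧ R ≠ 0 ∧
      (aeval L R : Poly N) ∈ J ⊔ Ideal.span {Δ} := by
  have hprime := hJ.prime
  have hdom : IsDomain (Poly N ⧸ J) := Ideal.Quotient.isDomain J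
  obtain ⟨y, hy1, hyinj, hyfin⟩ := exists_noether (r := 3) hprime.ne_top hJ.homogeneous hJ.dim
  have halg : Algebra.IsAlgebraic
      (Algebra.adjoin ℂ (Set.range fun i => Ideal.Quotient.mk J (y i))) (Poly N ⧸ J) := by
    have hrange : Algebra.adjoin ℂ (Set.range fun i => Ideal.Quotient.mk J (y i)) =
        (proj J y).range := Algebra.adjoin_range_eq_range_aeval ℂ _
    rw [hrange]
    refine ⟨fun a => ?_⟩
    obtain ⟨p, hp, hpa⟩ := hyfin.to_isIntegral a
    refine ⟨p.map (proj J y).rangeRestrict.toRingHom, (hp.map _).ne_zero, ?_⟩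
    rw [Polynomial.aeval_def, Polynomial.eval₂_map]
    exact hpa
  have htr : Algebra.trdeg ℂ (Poly N ⧸ J) ≤ Cardinal.mk (Fin 3) :=
    (Algebra.IsAlgebraic.trdeg_le_cardinalMk ℂ
      (Set.range fun i => Ideal.Quotient.mk J (y i))).trans Cardinal.mk_range_le
  have hind : AlgebraicIndependent ℂ (fun j => Ideal.Quotient.mk J (L j)) := hinj
  have hbas := hind.isTranscendenceBasis_of_trdeg_le_of_finite htr
  have halg2 := hbas.isAlgebraic
  have hδ : Ideal.Quotient.mk J Δ ≠ 0 := by rwa [Ne, Ideal.Quotient.eq_zero_iff_mem]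
  obtain ⟨r, hr0, c, hc⟩ := (halg2.1 (Ideal.Quotient.mk J Δ)).exists_nonzero_dvd
    (mem_nonZeroDivisors_of_ne_zero hδ)
  have hr' : (r : Poly N ⧸ J) ∈ (proj J L).range := by
    have h1 : Algebra.adjoin ℂ (Set.range fun i => Ideal.Quotient.mk J (L i)) =
        (proj J L).range := Algebra.adjoin_range_eq_range_aeval ℂ _
    rw [← h1]
    exact r.2
  obtain ⟨R, hR⟩ := hr'
  have hR' : proj J L R = (r : Poly N ⧸ J) := hR
  have hR0 : R ≠ 0 := by
    rintro rfl
    rw [map_zero] at hR'
    exact hr0 (Subtype.ext hR'.symm)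
  have hmem : (aeval L R : Poly N) ∈ J ⊔ Ideal.span {Δ} := by
    obtain ⟨c', rfl⟩ := Ideal.Quotient.mk_surjective c
    have h1 : Ideal.Quotient.mk J (aeval L R) = Ideal.Quotient.mk J (Δ * c') := by
      rw [← proj_apply, hR', map_mul]
      exact hc
    rw [Ideal.Quotient.eq] at h1
    have h2 : (aeval L R : Poly N) = (aeval L R - Δ * c') + Δ * c' := by ring
    rw [h2]
    exact Submodule.add_mem_sup h1
      (Ideal.mul_mem_right _ _ (Ideal.mem_span_singleton_self Δ))
  obtain ⟨j, hj⟩ : ∃ j, homogeneousComponent j R ≠ 0 := by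
    by_contra hcon
    push Not at hcon
    apply hR0
    rw [← sum_homogeneousComponent R]
    exact Finset.sum_eq_zero fun i _ => hcon i
  refine ⟨j, homogeneousComponent j R, homogeneousComponent_isHomogeneous j R, hj, ?_⟩
  rw [← homogeneousComponent_aeval_linear hL]
  exact avoid_homog hJ.homogeneous hΔh _ hmem j

private theorem avoid_over {σ : Type} {K : Subfield ℂ} {F : MvPolynomial σ ℂ}
    (hF : ∀ α, coeff α F ∈ K) : ∃ F' : MvPolynomial σ K, map K.subtype F' = F := by
  refine ⟨∑ α ∈ F.support, monomial α ⟨coeff α F, hF α⟩, ?_⟩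
  rw [map_sum]
  simp only [map_monomial]
  exact F.support_sum_monomial_coeff

private theorem avoid_smul {F : MvPolynomial (Fin 3) ℂ} {j : ℕ} (hF : F.IsHomogeneous j) (c : ℂ)
    (u : Fin 3 → ℂ) : eval (c • u) F = c ^ j * eval u F := by
  rw [eval_eq', eval_eq', Finset.mul_sum]
  refine Finset.sum_congr rfl fun β hβ => ?_
  have h1 : ∑ i, β i = j := by
    have h2 : Finsupp.weight 1 β = j := hF (mem_support_iff.1 hβ)
    have h4 : β.degree = Finsupp.weight 1 β := DFunLike.congr_fun Finsupp.degree_eq_weight_one β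
    rw [← h2, ← h4]
    exact (Finsupp.degree_eq_sum β).symm
  have h3 : ∏ i, (c • u) i ^ β i = c ^ j * ∏ i, u i ^ β i := by
    rw [← h1, ← Finset.prod_pow_eq_pow_sum, ← Finset.prod_mul_distrib]
    refine Finset.prod_congr rfl fun i _ => ?_
    rw [Pi.smul_apply, smul_eq_mul, mul_pow]
  rw [h3]
  ring

/-- **avoidance**.

Proof. Let `R` be given by `exists_rel`. Choose a `K'`-linear functional `lam : ℂ → K'` which is
not zero at some coefficient of `R`, and let `R'` be the form with the coefficients `lam` of the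
coefficients of `R`, so `R' ≠ 0`. The ideal `J ⊔ (Δ)` is defined over `K'`, so `aeval L R'` is in it,
by `descend` (as the `L j` have coefficients in `K'`, the coefficients of `aeval L R'` are `lam` of
those of `aeval L R`). If `eval v Δ = 0`, then all elements of `J ⊔ (Δ)` vanish at `v`, so
`R'(1, eval v (L 1), eval v (L 2)) = 0`, a relation over `K'`; `R'` is homogeneous and not zero, so
`R'(1, S, T) ≠ 0`, contrary to `hind`. -/
theorem avoid {N k : ℕ} {J : Ideal (Poly N)} (hJ : IsSurface J) {K' : Subfield ℂ}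
    (hK : DefinedOver K' J) {L : Fin 3 → Poly N} (hL : ∀ j, (L j).IsHomogeneous 1)
    (hLK : ∀ j α, coeff α (L j) ∈ K') (hinj : Function.Injective (proj J L)) {Δ : Poly N}
    (hΔh : Δ.IsHomogeneous k) (hΔK : ∀ α, coeff α Δ ∈ K') (hΔ : Δ ∉ J) {v : Fin (N + 1) → ℂ}
    (hv : ∀ F ∈ J, eval v F = 0) (hv0 : eval v (L 0) = 1)
    (hind : AlgebraicIndependent K' ![eval v (L 1), eval v (L 2)]) : eval v Δ ≠ 0 := by
  classical
  intro hvΔ
  obtain ⟨j, R, hRh, hR0, hRmem⟩ := exists_rel hJ hL hinj hΔh hΔ
  obtain ⟨α₀, hα₀⟩ := exists_coeff_ne_zero hR0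
  obtain ⟨lam, hlam⟩ := Module.Projective.exists_dual_ne_zero K' hα₀
  -- the form with coefficients in `K'`
  set RK : MvPolynomial (Fin 3) K' := ∑ β ∈ R.support, monomial β (lam (coeff β R)) with hRK
  have hRKc : ∀ β, coeff β RK = lam (coeff β R) := by
    intro β
    rw [hRK, coeff_sum]
    simp only [coeff_monomial]
    rw [Finset.sum_ite_eq']
    split_ifs with h
    · rfl
    · rw [notMem_support_iff.1 h, map_zero]
  have hRKh : RK.IsHomogeneous j := by
    intro β hβ
    rw [hRKc] at hβ
    refine hRh (fun h => hβ ?_)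
    rw [h, map_zero]
  have hRK0 : RK ≠ 0 := by
    intro h
    apply hlam
    rw [← hRKc, h, coeff_zero]
  -- the ideal is defined over `K'`
  have hdef : DefinedOver K' (J ⊔ Ideal.span {Δ}) := by
    refine le_antisymm ?_ ?_
    · refine sup_le ?_ ?_
      · have h1 : J = Ideal.span {F | F ∈ J ∧ ∀ α, coeff α F ∈ K'} := hK
        conv_lhs => rw [h1]
        exact Ideal.span_mono fun F hF => ⟨Ideal.mem_sup_left hF.1, hF.2⟩
      · rw [Ideal.span_singleton_le_iff_mem]
        exact Ideal.subset_span
          ⟨Ideal.mem_sup_right (Ideal.mem_span_singleton_self Δ), hΔK⟩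
    · rw [Ideal.span_le]
      exact fun F hF => hF.1
  -- the forms `L j` over `K'`
  choose L' hL' using fun j => avoid_over (hLK j)
  have hmon : ∀ (β : Fin 3 →₀ ℕ) (c : ℂ), (aeval L (monomial β c) : Poly N) =
      C c * map K'.subtype (∏ i, L' i ^ β i) := by
    intro β c
    rw [aeval_monomial, map_prod, Finsupp.prod_fintype _ _ (fun i => pow_zero _)]
    simp only [map_pow, hL']
    rfl
  have hmem' : (aeval L (map K'.subtype RK) : Poly N) ∈ J ⊔ Ideal.span {Δ} := by
    refine descend hdef lam hRmem fun α => ?_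
    have h1 : (aeval L R : Poly N) =
        ∑ β ∈ R.support, C (coeff β R) * map K'.subtype (∏ i, L' i ^ β i) := by
      conv_lhs => rw [← R.support_sum_monomial_coeff, map_sum]
      exact Finset.sum_congr rfl fun β _ => hmon β _
    have h2 : (aeval L (map K'.subtype RK) : Poly N) =
        ∑ β ∈ R.support, C ((lam (coeff β R) : K') : ℂ) *
          map K'.subtype (∏ i, L' i ^ β i) := by
      rw [hRK, map_sum, map_sum]
      refine Finset.sum_congr rfl fun β _ => ?_
      rw [map_monomial, hmon]
      rfl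
    rw [h1, h2, coeff_sum, coeff_sum]
    have h3 : ∀ β, coeff α (C (coeff β R) * map K'.subtype (∏ i, L' i ^ β i)) =
        (coeff α (∏ i, L' i ^ β i)) • coeff β R := by
      intro β
      rw [coeff_C_mul, coeff_map, mul_comm]
      rfl
    rw [Finset.sum_congr rfl fun β _ => h3 β, map_sum]
    simp only [map_smul]
    have h4 : ((∑ β ∈ R.support, (coeff α (∏ i, L' i ^ β i)) • lam (coeff β R) : K') : ℂ) =
        ∑ β ∈ R.support, ((coeff α (∏ i, L' i ^ β i) : K') : ℂ) * ((lam (coeff β R) : K') : ℂ) := by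
      rw [← K'.coe_subtype, map_sum]
      refine Finset.sum_congr rfl fun β _ => ?_
      rw [smul_eq_mul, map_mul]
    rw [h4]
    refine Finset.sum_congr rfl fun β _ => ?_
    rw [coeff_C_mul, coeff_map, mul_comm]
    rfl
  -- all elements of the ideal vanish at `v`
  have hvan : ∀ F ∈ J ⊔ Ideal.span {Δ}, eval v F = 0 := by
    intro F hF
    obtain ⟨b, hb, c, hc, rfl⟩ := Submodule.mem_sup.1 hF
    obtain ⟨d, rfl⟩ := Ideal.mem_span_singleton'.1 hc
    rw [map_add, hv b hb, map_mul, hvΔ, mul_zero, add_zero]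
  have h0 := hvan _ hmem'
  have hcomp : ∀ G : MvPolynomial (Fin 3) ℂ, eval v (aeval L G) =
      eval (fun i => eval v (L i)) G := by
    intro G
    have h1 : (eval v).comp (aeval L : MvPolynomial (Fin 3) ℂ →ₐ[ℂ] Poly N).toRingHom =
        eval (fun i => eval v (L i)) := by
      refine MvPolynomial.ringHom_ext (fun c => ?_) (fun i => ?_)
      · simp
      · simp
    exact RingHom.congr_fun h1 G
  rw [hcomp] at h0
  -- dehomogenisation
  set Q : MvPolynomial (Fin 2) K' :=
    aeval (![1, X 0, X 1] : Fin 3 → MvPolynomial (Fin 2) K') RK with hQ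
  have hval : ∀ t : Fin 2 → ℂ, aeval t Q = eval ![1, t 0, t 1] (map K'.subtype RK) := by
    intro t
    have h1 : (aeval t : MvPolynomial (Fin 2) K' →ₐ[K'] ℂ).comp
        (aeval (![1, X 0, X 1] : Fin 3 → MvPolynomial (Fin 2) K')) =
        aeval (![1, t 0, t 1] : Fin 3 → ℂ) := by
      apply MvPolynomial.algHom_ext
      intro i
      fin_cases i <;> simp
    have h2 := congrArg (fun φ => φ RK) h1
    refine h2.trans ?_
    rw [eval_map]
    rfl
  have hQ1 : aeval (![eval v (L 1), eval v (L 2)] : Fin 2 → ℂ) Q = 0 := by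
    rw [hval, ← h0]
    congr 2
    funext i
    fin_cases i
    · exact hv0.symm
    · rfl
    · rfl
  have hQ0 : Q = 0 := (algebraicIndependent_iff.1 hind) _ hQ1
  have hR' : (map K'.subtype RK).IsHomogeneous j := hRKh.map _
  have hz : map K'.subtype RK * X 0 = 0 := by
    apply MvPolynomial.funext
    intro u
    rw [map_mul, eval_X, map_zero]
    by_cases hu : u 0 = 0
    · rw [hu, mul_zero]
    · have h4 := hval ![u 1 / u 0, u 2 / u 0]
      rw [hQ0, map_zero] at h4
      have h5 : u = u 0 • (![1, u 1 / u 0, u 2 / u 0] : Fin 3 → ℂ) := by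
        funext i
        fin_cases i
        · simp
        · simp [mul_div_cancel₀ _ hu]
        · simp [mul_div_cancel₀ _ hu]
      have h6 : eval u (map K'.subtype RK) =
          u 0 ^ j * eval ![1, u 1 / u 0, u 2 / u 0] (map K'.subtype RK) := by
        conv_lhs => rw [h5]
        exact avoid_smul hR' _ _
      rw [h6]
      have h7 : eval ![1, u 1 / u 0, u 2 / u 0] (map K'.subtype RK) = 0 := h4.symm
      rw [h7, mul_zero, zero_mul]
  have hz2 : map K'.subtype RK = 0 := by
    rcases mul_eq_zero.1 hz with h | h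
    · exact h
    · exact absurd h (X_ne_zero 0)
  apply hRK0
  exact map_injective K'.subtype K'.subtype_injective (by rw [hz2, map_zero])

end Pool.Agent.Lib.MP_ed661f_ag.V
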