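import Pool.Agent.Lib.MP_ed661f_ag.V.ThetaLin

/-!
Linear independence over the complex numbers of the monomials on the branch.
-/

set_option autoImplicit false

open MvPolynomial

namespace Pool.Agent.Lib.MP_ed661f_ag.V

/-- linear independence over a domain gives linear independence over an extension field -/
private theorem thetaCx_ext {A L ι : Type*} [CommRing A] [IsDomain A] [Field L] (φ : A →+* L)
    (hφ : Function.Injective φ) (s : Finset ι) (v : ι → ℕ → A)
    (h : ∀ r : ι → A, (∀ n, ∑ i ∈ s, r i * v i n = 0) → ∀ i ∈ s, r i = 0)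
    (r : ι → L) (hr : ∀ n, ∑ i ∈ s, r i * φ (v i n) = 0) : ∀ i ∈ s, r i = 0 := by
  letI : Algebra (FractionRing A) L := (IsFractionRing.lift hφ).toAlgebra
  have hal : ∀ a : A, algebraMap (FractionRing A) L (algebraMap A (FractionRing A) a) = φ a :=
    fun a => IsFractionRing.lift_algebraMap hφ a
  intro i hi
  rw [← Module.forall_dual_apply_eq_zero_iff (FractionRing A)]
  intro f
  obtain ⟨d, hd⟩ := IsLocalization.exist_integer_multiples (nonZeroDivisors A) s fun i => f (r i)
  choose g hg using hd
  have hg' : ∃ g' : ι → A, ∀ i ∈ s, algebraMap A (FractionRing A) (g' i) =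
      algebraMap A (FractionRing A) d * f (r i) := by
    classical
    refine ⟨fun i => if hi : i ∈ s then g i hi else 0, fun i hi => ?_⟩
    show algebraMap A (FractionRing A) (if hi : i ∈ s then g i hi else 0) = _
    rw [dif_pos hi, hg i hi, Algebra.smul_def]
  obtain ⟨g', hg'⟩ := hg'
  have hinj : Function.Injective (algebraMap A (FractionRing A)) :=
    IsFractionRing.injective A (FractionRing A)
  have hz : g' i = 0 := by
    refine h g' (fun n => hinj ?_) i hi
    rw [map_sum, map_zero]
    have h1 : ∑ i ∈ s, algebraMap A (FractionRing A) (v i n) * f (r i) = 0 := by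
      have h2 := congrArg f (hr n)
      rw [map_sum, map_zero] at h2
      rw [← h2]
      refine Finset.sum_congr rfl fun i _ => ?_
      have h6 : r i * φ (v i n) = algebraMap A (FractionRing A) (v i n) • r i := by
        rw [Algebra.smul_def, hal, mul_comm]
      rw [h6, map_smul, smul_eq_mul]
    have h3 : ∑ i ∈ s, algebraMap A (FractionRing A) (g' i * v i n) =
        algebraMap A (FractionRing A) d *
          ∑ i ∈ s, algebraMap A (FractionRing A) (v i n) * f (r i) := by
      rw [Finset.mul_sum]
      refine Finset.sum_congr rfl fun i hi => ?_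
      rw [map_mul, hg' i hi]
      ring
    rw [h3, h1, mul_zero]
  have h4 := hg' i hi
  rw [hz, map_zero] at h4
  rcases mul_eq_zero.1 h4.symm with h5 | h5
  · exact absurd (hinj (h5.trans (map_zero _).symm)) (nonZeroDivisors.ne_zero d.2)
  · exact h5

/-- **linear independence over `ℂ`** after the embedding of `K[α, β]` in `ℂ`.

Proof. Let `F ⊆ ℂ` be the field of fractions of the image of `K[α, β]` (the subfield `K(t 0, t 1)`).
The power series `Z ^ b θ ^ c` are linearly independent over `K[α, β]` (`linIndep_theta`), so over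
`F` (clear denominators), and then over `ℂ`: write the coefficients of a relation in a basis of `ℂ`
over `F`. -/
theorem linIndep_complex {K : Subfield ℂ} {e : ℕ} {P : MvPolynomial (Fin 5) K}
    (hP : P.IsHomogeneous e) (hc : coeff (Finsupp.single 4 e) P = 1) (hirr : Irreducible P)
    {θ : PowerSeries (MvPolynomial (Fin 2) K)} (hθ : Phi K θ P = 0) {t : Fin 2 → ℂ}
    (ht : AlgebraicIndependent K t) (k : ℕ) (r : ℕ → ℕ → ℂ)
    (h : ∑ b ∈ Finset.range (k + 1), ∑ c ∈ Finset.range e,
      PowerSeries.C (r b c) * (PowerSeries.X ^ b *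
        PowerSeries.map (aeval t : MvPolynomial (Fin 2) K →ₐ[K] ℂ).toRingHom θ ^ c) = 0) :
    ∀ b ≤ k, ∀ c < e, r b c = 0 := by
  have key := thetaCx_ext (aeval t : MvPolynomial (Fin 2) K →ₐ[K] ℂ).toRingHom ht
    (Finset.range (k + 1) ×ˢ Finset.range e)
    (fun i n => PowerSeries.coeff n (PowerSeries.X ^ i.1 * θ ^ i.2)) (fun g hg => ?_)
    (fun i => r i.1 i.2) (fun n => ?_)
  · intro b hb c hce
    exact key (b, c) (Finset.mem_product.2
      ⟨Finset.mem_range.2 (Nat.lt_succ_of_le hb), Finset.mem_range.2 hce⟩)
  · have h1 := linIndep_theta hP hc hirr hθ k (fun b c => g (b, c)) (by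
      ext1 n
      rw [map_zero, map_sum]
      have h2 := hg n
      rw [Finset.sum_product] at h2
      rw [← h2]
      refine Finset.sum_congr rfl fun b _ => ?_
      rw [map_sum]
      refine Finset.sum_congr rfl fun c _ => ?_
      rw [PowerSeries.coeff_C_mul])
    intro i hi
    rw [Finset.mem_product, Finset.mem_range, Finset.mem_range] at hi
    exact h1 i.1 (Nat.le_of_lt_succ hi.1) i.2 hi.2
  · have h2 := congrArg (PowerSeries.coeff n) h
    rw [map_zero, map_sum] at h2
    rw [Finset.sum_product, ← h2]
    refine Finset.sum_congr rfl fun b _ => ?_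
    rw [map_sum]
    refine Finset.sum_congr rfl fun c _ => ?_
    rw [PowerSeries.coeff_C_mul, ← PowerSeries.coeff_map, map_mul, map_pow, map_pow,
      PowerSeries.map_X]

end Pool.Agent.Lib.MP_ed661f_ag.V
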