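import Pool.Agent.Lib.MP_ed661f_ag.V.Change
import Pool.Agent.Lib.MP_ed661f_ag.V.ThetaCx
import Pool.Agent.Lib.MP_ed661f_ag.S.Indep

/-!
Good directions: the curve section has a branch on which no form of small degree vanishes.
-/

set_option autoImplicit false

open MvPolynomial

namespace Pool.Agent.Lib.MP_ed661f_ag.V

open Pool.Agent.Lib.MP_ed661f_ag.H

private theorem bx_local (K : Subfield ℂ) :
    IsLocalHom (map K.subtype : MvPolynomial (Fin 5) K →+* MvPolynomial (Fin 5) ℂ) := by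
  refine ⟨fun A hA => ?_⟩
  rw [isUnit_iff_eq_C_of_isReduced] at hA ⊢
  obtain ⟨r, hr, h⟩ := hA
  have h1 : ∀ d, K.subtype (coeff d A) = coeff d (C r : MvPolynomial (Fin 5) ℂ) := fun d => by
    rw [← h, coeff_map]
  have h2 : A = C (coeff 0 A) := by
    ext d
    by_cases hd : 0 = d
    · subst hd
      rw [coeff_C, if_pos rfl]
    · rw [coeff_C, if_neg hd]
      have h3 := h1 d
      rw [coeff_C, if_neg hd] at h3
      exact congrArg Subtype.val ((map_eq_zero K.subtype).1 h3)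
  refine ⟨coeff 0 A, ?_, h2⟩
  rw [isUnit_iff_ne_zero]
  intro h3
  have h4 := h1 0
  rw [h3, map_zero, coeff_C, if_pos rfl] at h4
  rw [← h4] at hr
  exact not_isUnit_zero hr

/-- the exponent of `X 0 ^ (k - b - c) X 1 ^ b X 4 ^ c` -/
private noncomputable def bxg (k b c : ℕ) : Fin 5 →₀ ℕ :=
  Finsupp.equivFunOnFinite.symm ![k - b - c, b, 0, 0, c]

private theorem bxg_eq {e k : ℕ} {Q : Poly 4} (hQ : Q.IsHomogeneous k) (hS : InS e Q)
    {γ : Fin 5 →₀ ℕ} (hγ : γ ∈ Q.support) :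
    γ 1 + γ 4 ≤ k ∧ γ 4 < e ∧ bxg k (γ 1) (γ 4) = γ := by
  obtain ⟨h2, h3, h4⟩ := hS γ hγ
  have h5 : γ.degree = k := by
    have h6 := hQ (mem_support_iff.1 hγ)
    rw [← h6]
    simp [Finsupp.weight_apply, Finsupp.degree_apply, Finsupp.sum]
  have h6 : γ 0 + γ 1 + γ 2 + γ 3 + γ 4 = k := by
    rw [← h5, Finsupp.degree_eq_sum, Fin.sum_univ_five]
  refine ⟨by omega, h4, ?_⟩
  ext i
  fin_cases i
  · change k - γ 1 - γ 4 = γ 0
    omega
  · rfl
  · exact h2.symm
  · exact h3.symm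
  · rfl

private theorem bx_mon (θ : PowerSeries ℂ) {γ : Fin 5 →₀ ℕ} (h2 : γ 2 = 0) (h3 : γ 3 = 0)
    (a : ℂ) : br θ (monomial γ a) =
      PowerSeries.C a * (PowerSeries.X ^ γ 1 * θ ^ γ 4) := by
  unfold br
  rw [aeval_monomial, Finsupp.prod_fintype _ _ (fun i => pow_zero _), Fin.prod_univ_five, h2, h3]
  change PowerSeries.C a * (1 ^ γ 0 * PowerSeries.X ^ γ 1 * 0 ^ 0 * 0 ^ 0 * θ ^ γ 4) = _
  rw [one_pow, one_mul, pow_zero, mul_one, mul_one]

/-- the restriction of a form in `InS e` to the branch -/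
private theorem bx_sum {e k : ℕ} {Q : Poly 4} (hQ : Q.IsHomogeneous k) (hS : InS e Q)
    (θ : PowerSeries ℂ) :
    br θ Q = ∑ b ∈ Finset.range (k + 1), ∑ c ∈ Finset.range e,
      PowerSeries.C (if b + c ≤ k then coeff (bxg k b c) Q else 0) *
        (PowerSeries.X ^ b * θ ^ c) := by
  rw [← Finset.sum_product']
  have h0 : br θ Q = ∑ γ ∈ Q.support, br θ (monomial γ (coeff γ Q)) := by
    rw [← map_sum, Q.support_sum_monomial_coeff]
  rw [h0]
  refine Finset.sum_of_injOn (fun γ => (γ 1, γ 4)) ?_ ?_ ?_ ?_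
  · intro γ hγ γ' hγ' h
    obtain ⟨-, -, h1⟩ := bxg_eq hQ hS hγ
    obtain ⟨-, -, h2⟩ := bxg_eq hQ hS hγ'
    have h3 : γ 1 = γ' 1 := congrArg Prod.fst h
    have h4 : γ 4 = γ' 4 := congrArg Prod.snd h
    rw [← h1, ← h2, h3, h4]
  · intro γ hγ
    obtain ⟨h1, h2, -⟩ := bxg_eq hQ hS hγ
    rw [Finset.mem_coe, Finset.mem_product, Finset.mem_range, Finset.mem_range]
    exact ⟨by change γ 1 < k + 1; omega, h2⟩
  · rintro ⟨b, c⟩ hbc hn
    change PowerSeries.C (if b + c ≤ k then coeff (bxg k b c) Q else 0) * _ = 0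
    by_cases hk : b + c ≤ k
    · rw [if_pos hk]
      by_cases h1 : coeff (bxg k b c) Q = 0
      · rw [h1, map_zero, zero_mul]
      · exact (hn ⟨bxg k b c, mem_support_iff.2 h1, rfl⟩).elim
    · rw [if_neg hk, map_zero, zero_mul]
  · intro γ hγ
    obtain ⟨h1, -, h3⟩ := bxg_eq hQ hS hγ
    obtain ⟨h4, h5, -⟩ := hS γ hγ
    rw [bx_mon θ h4 h5]
    change _ = PowerSeries.C (if γ 1 + γ 4 ≤ k then coeff (bxg k (γ 1) (γ 4)) Q else 0) * _
    rw [if_pos h1, h3]

private theorem bx_X0 (θ : PowerSeries ℂ) : br θ (X 0) = 1 := aeval_X _ _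

private theorem bx_X1 (θ : PowerSeries ℂ) : br θ (X 1) = PowerSeries.X := aeval_X _ _

private theorem bx_X2 (θ : PowerSeries ℂ) : br θ (X 2) = 0 := aeval_X _ _

private theorem bx_X3 (θ : PowerSeries ℂ) : br θ (X 3) = 0 := aeval_X _ _

private theorem bx_X4 (θ : PowerSeries ℂ) : br θ (X 4) = θ := aeval_X _ _

private theorem bx_C (θ : PowerSeries ℂ) (z : ℂ) : br θ (C z) = PowerSeries.C z := aeval_C _ _

private theorem bx_ch0 (α β : ℂ) : ch (fun _ => 0) α β 0 (X 0) = X 0 := aeval_X _ _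

private theorem bx_ch1 (α β : ℂ) : ch (fun _ => 0) α β 0 (X 1) = X 1 := by
  have h : ch (fun _ => 0) α β 0 (X 1) = X 1 + C 0 * X 0 := aeval_X _ _
  rw [h, map_zero, zero_mul, add_zero]

private theorem bx_ch2 (α β : ℂ) : ch (fun _ => 0) α β 0 (X 2) = X 2 + C α * X 1 := by
  have h : ch (fun _ => 0) α β 0 (X 2) = X 2 + C α * X 1 + C 0 * X 0 := aeval_X _ _
  rw [h, map_zero, zero_mul, add_zero]

private theorem bx_ch3 (α β : ℂ) : ch (fun _ => 0) α β 0 (X 3) = X 3 + C β * X 1 := by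
  have h : ch (fun _ => 0) α β 0 (X 3) = X 3 + C β * X 1 + C 0 * X 0 := aeval_X _ _
  rw [h, map_zero, zero_mul, add_zero]

private theorem bx_ch4 (α β : ℂ) : ch (fun _ => 0) α β 0 (X 4) = X 4 := by
  have h : ch (fun _ => 0) α β 0 (X 4) = X 4 + C 0 * X 0 := aeval_X _ _
  rw [h, map_zero, zero_mul, add_zero]

private theorem bx_chC (α β z : ℂ) : ch (fun _ => 0) α β 0 (C z) = C z := aeval_C _ _

section phi

variable {K : Subfield ℂ} (θ : PowerSeries (MvPolynomial (Fin 2) K))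

private theorem bx_phi0 : Phi K θ (X 0) = 1 := aeval_X _ _

private theorem bx_phi1 : Phi K θ (X 1) = PowerSeries.X := aeval_X _ _

private theorem bx_phi2 : Phi K θ (X 2) = PowerSeries.C (X 0) * PowerSeries.X := aeval_X _ _

private theorem bx_phi3 : Phi K θ (X 3) = PowerSeries.C (X 1) * PowerSeries.X := aeval_X _ _

private theorem bx_phi4 : Phi K θ (X 4) = θ := aeval_X _ _

private theorem bx_phiC (c : K) : Phi K θ (C c) = PowerSeries.C (C c) := by
  unfold Phi
  rw [aeval_C, PowerSeries.algebraMap_apply]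
  rfl

variable {R : Type} [CommRing R] (ψ : MvPolynomial (Fin 2) K →+* R)

private theorem bx_psi (i : Fin 2) :
    PowerSeries.map ψ (PowerSeries.C (X i) * PowerSeries.X) =
      PowerSeries.C (ψ (X i)) * PowerSeries.X := by
  rw [map_mul, PowerSeries.map_C, PowerSeries.map_X]

end phi

private theorem bx_phi {K : Subfield ℂ} (t : Fin 2 → ℂ)
    (θ : PowerSeries (MvPolynomial (Fin 2) K)) (P' : MvPolynomial (Fin 5) K) :
    br (PowerSeries.map (aeval t : MvPolynomial (Fin 2) K →ₐ[K] ℂ).toRingHom θ)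
      (ch (fun _ => 0) (t 0) (t 1) 0 (map K.subtype P')) =
      PowerSeries.map (aeval t : MvPolynomial (Fin 2) K →ₐ[K] ℂ).toRingHom (Phi K θ P') := by
  obtain ⟨ψ, hψ⟩ : ∃ ψ, ψ = (aeval t : MvPolynomial (Fin 2) K →ₐ[K] ℂ).toRingHom := ⟨_, rfl⟩
  have hψC : ∀ c : K, ψ (C c) = (c : ℂ) := fun c => by
    rw [hψ]
    exact aeval_C t c
  have hψX : ∀ i, ψ (X i) = t i := fun i => by
    rw [hψ]
    exact aeval_X t i
  rw [← hψ]
  induction P' using MvPolynomial.induction_on with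
  | C c =>
    rw [map_C, bx_chC, bx_C, bx_phiC, PowerSeries.map_C, hψC]
    rfl
  | add p q hp hq => rw [map_add, map_add, map_add, map_add, map_add, hp, hq]
  | mul_X p i hp =>
    rw [map_mul, map_mul, map_mul, map_mul, map_mul, hp, map_X]
    have h0 : br (PowerSeries.map ψ θ) (ch (fun _ => 0) (t 0) (t 1) 0 (X 0)) =
        PowerSeries.map ψ (Phi K θ (X 0)) := by
      rw [bx_ch0, bx_X0, bx_phi0, map_one]
    have h1 : br (PowerSeries.map ψ θ) (ch (fun _ => 0) (t 0) (t 1) 0 (X 1)) =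
        PowerSeries.map ψ (Phi K θ (X 1)) := by
      rw [bx_ch1, bx_X1, bx_phi1, PowerSeries.map_X]
    have h2 : br (PowerSeries.map ψ θ) (ch (fun _ => 0) (t 0) (t 1) 0 (X 2)) =
        PowerSeries.map ψ (Phi K θ (X 2)) := by
      rw [bx_ch2, map_add, map_mul, bx_X2, bx_X1, bx_C, bx_phi2, bx_psi, hψX, zero_add]
    have h3 : br (PowerSeries.map ψ θ) (ch (fun _ => 0) (t 0) (t 1) 0 (X 3)) =
        PowerSeries.map ψ (Phi K θ (X 3)) := by
      rw [bx_ch3, map_add, map_mul, bx_X3, bx_X1, bx_C, bx_phi3, bx_psi, hψX, zero_add]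
    have h4 : br (PowerSeries.map ψ θ) (ch (fun _ => 0) (t 0) (t 1) 0 (X 4)) =
        PowerSeries.map ψ (Phi K θ (X 4)) := by
      rw [bx_ch4, bx_X4, bx_phi4]
    have key : br (PowerSeries.map ψ θ) (ch (fun _ => 0) (t 0) (t 1) 0 (X i)) =
        PowerSeries.map ψ (Phi K θ (X i)) := by
      fin_cases i
      exacts [h0, h1, h2, h3, h4]
    rw [key]

/-- **good directions exist**.

Proof. Let `K` be the subfield of `ℂ` generated by the coefficients of `P` (countable,
`S.Hn.countable_closure`), `P'` over `K` with `map K.subtype P' = P` (`S.Hn.exists_over`). `P'` is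
irreducible (a factorisation of `P'` into non-units, which are homogeneous, gives one of `P`), its
values at `(1,0,0,0,0)` are those of `P`. Let `θ'` be given by `exists_theta`, and `α, β`
algebraically independent over `K` (`S.Hn.exists_indep`), `t = ![α, β]`, `θ` the image of `θ'` in
`ℂ[[Z]]`. Then `br θ (ch 0 α β 0 P)` is the image of `Phi K θ' P' = 0`. If `Q` is a form of degree
`k` in `InS e` with `br θ Q = 0`, then `Q = ∑ r_(b,c) X 0 ^ (k - b - c) X 1 ^ b X 4 ^ c` over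
`b ≤ k`, `c < e`, `b + c ≤ k` and `br θ Q = ∑ r_(b,c) Z ^ b θ ^ c`; use `linIndep_complex`. -/
theorem exists_branch {e : ℕ} {P : Poly 4} (hP : P.IsHomogeneous e)
    (hc : coeff (Finsupp.single 4 e) P = 1) (hirr : Irreducible P)
    (h0 : eval ![1, 0, 0, 0, 0] P = 0) (h1 : eval ![1, 0, 0, 0, 0] (pderiv 4 P) ≠ 0) :
    ∃ (α β : ℂ) (θ : PowerSeries ℂ), Branch e (ch (fun _ => 0) α β 0 P) θ := by
  obtain ⟨K, hKc, hK⟩ : ∃ K : Subfield ℂ, Countable K ∧ ∀ d, coeff d P ∈ K := by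
    refine ⟨Subfield.closure ((fun d => coeff d P) '' (P.support : Set (Fin 5 →₀ ℕ))),
      S.Hn.countable_closure _ ((P.support.countable_toSet).image _), fun d => ?_⟩
    by_cases hd : coeff d P = 0
    · rw [hd]
      exact zero_mem _
    · exact Subfield.subset_closure ⟨d, mem_support_iff.2 hd, rfl⟩
  obtain ⟨P', hP'⟩ := S.Hn.exists_over hK
  have hcoef : ∀ d, K.subtype (coeff d P') = coeff d P := fun d => by rw [← hP', coeff_map]
  have hP'h : P'.IsHomogeneous e := by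
    intro d hd
    refine hP (d := d) fun h => hd ?_
    rw [← hcoef d] at h
    exact (map_eq_zero K.subtype).1 h
  have hc' : coeff (Finsupp.single 4 e) P' = 1 := by
    have h2 := hcoef (Finsupp.single 4 e)
    rw [hc] at h2
    exact K.subtype.injective (h2.trans (map_one _).symm)
  have hirr' : Irreducible P' := by
    have := bx_local K
    refine Irreducible.of_map (f := (map K.subtype :
      MvPolynomial (Fin 5) K →+* MvPolynomial (Fin 5) ℂ)) ?_
    rw [hP']
    exact hirr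
  have hev : ∀ R : MvPolynomial (Fin 5) K, K.subtype (eval ![1, 0, 0, 0, 0] R) =
      eval ![1, 0, 0, 0, 0] (map K.subtype R) := by
    intro R
    rw [eval_map]
    have h2 := eval₂_comp_left K.subtype (RingHom.id K) ![1, 0, 0, 0, 0] R
    rw [RingHom.comp_id] at h2
    have h3 : (K.subtype ∘ ![1, 0, 0, 0, 0] : Fin 5 → ℂ) = ![1, 0, 0, 0, 0] := by
      funext i
      fin_cases i
      · exact map_one _
      · exact map_zero _
      · exact map_zero _
      · exact map_zero _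
      · exact map_zero _
    rw [h3] at h2
    exact h2
  have h0' : eval ![1, 0, 0, 0, 0] P' = 0 := by
    have h2 := hev P'
    rw [hP', h0] at h2
    exact (map_eq_zero K.subtype).1 h2
  have h1' : eval ![1, 0, 0, 0, 0] (pderiv 4 P') ≠ 0 := by
    intro h
    have h2 := hev (pderiv 4 P')
    rw [h, map_zero, ← pderiv_map, hP'] at h2
    exact h1 h2.symm
  obtain ⟨θ', hθ0, hθ⟩ := exists_theta h0' h1'
  obtain ⟨t, ht⟩ := S.Hn.exists_indep K (Fin 2)
  refine ⟨t 0, t 1, PowerSeries.map (aeval t : MvPolynomial (Fin 2) K →ₐ[K] ℂ).toRingHom θ',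
    ?_, ?_, ?_⟩
  · rw [← PowerSeries.coeff_zero_eq_constantCoeff_apply, PowerSeries.coeff_map,
      PowerSeries.coeff_zero_eq_constantCoeff_apply, hθ0, map_zero]
  · rw [← hP', bx_phi, hθ, map_zero]
  · intro k Q hQ hS hbr
    rw [bx_sum hQ hS] at hbr
    have h2 := linIndep_complex hP'h hc' hirr' hθ ht k _ hbr
    ext γ
    rw [coeff_zero]
    by_contra h3
    obtain ⟨h4, h5, h6⟩ := bxg_eq hQ hS (mem_support_iff.2 h3)
    have h7 := h2 (γ 1) (by omega) (γ 4) h5
    rw [if_pos h4, h6] at h7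
    exact h3 h7

end Pool.Agent.Lib.MP_ed661f_ag.V
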