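import Pool.Agent.Lib.MP_ed661f_ag.V.Defs

/-!
Changes of coordinates for the projections, and good points.
-/

set_option autoImplicit false

open MvPolynomial

namespace Pool.Agent.Lib.MP_ed661f_ag.V

open Pool.Agent.Lib.MP_ed661f_ag.H

/-- a change of coordinates in the space of dimension four -/
noncomputable def ch (a : Fin 3 → ℂ) (α β r : ℂ) : Poly 4 →ₐ[ℂ] Poly 4 :=
  aeval ![X 0, X 1 + C (a 0) * X 0, X 2 + C α * X 1 + C (a 1) * X 0,
    X 3 + C β * X 1 + C (a 2) * X 0, X 4 + C r * X 0]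

/-- its restriction to the first four variables -/
noncomputable def ch3 (a : Fin 3 → ℂ) (α β : ℂ) : Poly 3 →ₐ[ℂ] Poly 3 :=
  aeval ![X 0, X 1 + C (a 0) * X 0, X 2 + C α * X 1 + C (a 1) * X 0,
    X 3 + C β * X 1 + C (a 2) * X 0]

variable {N : ℕ} {I : Ideal (Poly N)} {e q : ℕ} {P : Poly 4} {L : Fin 5 → Poly N} {s : Poly 3}

/-- the inverse change of coordinates -/
private noncomputable def chi (a : Fin 3 → ℂ) (α β r : ℂ) : Poly 4 →ₐ[ℂ] Poly 4 :=
  aeval ![X 0, X 1 - C (a 0) * X 0, X 2 - C α * (X 1 - C (a 0) * X 0) - C (a 1) * X 0,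
    X 3 - C β * (X 1 - C (a 0) * X 0) - C (a 2) * X 0, X 4 - C r * X 0]

private noncomputable def chi3 (a : Fin 3 → ℂ) (α β : ℂ) : Poly 3 →ₐ[ℂ] Poly 3 :=
  aeval ![X 0, X 1 - C (a 0) * X 0, X 2 - C α * (X 1 - C (a 0) * X 0) - C (a 1) * X 0,
    X 3 - C β * (X 1 - C (a 0) * X 0) - C (a 2) * X 0]

private theorem ch_chi (a : Fin 3 → ℂ) (α β r : ℂ) (G : Poly 4) :
    ch a α β r (chi a α β r G) = G := by
  have h : (ch a α β r).comp (chi a α β r) = AlgHom.id ℂ _ := by
    refine MvPolynomial.algHom_ext fun i => ?_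
    fin_cases i <;> simp [ch, chi, algHom_C] <;> ring
  exact DFunLike.congr_fun h G

private theorem chi_ch (a : Fin 3 → ℂ) (α β r : ℂ) (G : Poly 4) :
    chi a α β r (ch a α β r G) = G := by
  have h : (chi a α β r).comp (ch a α β r) = AlgHom.id ℂ _ := by
    refine MvPolynomial.algHom_ext fun i => ?_
    fin_cases i <;> simp [ch, chi, algHom_C] <;> ring
  exact DFunLike.congr_fun h G

private theorem chi3_ch3 (a : Fin 3 → ℂ) (α β : ℂ) (G : Poly 3) :
    chi3 a α β (ch3 a α β G) = G := by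
  have h : (chi3 a α β).comp (ch3 a α β) = AlgHom.id ℂ _ := by
    refine MvPolynomial.algHom_ext fun i => ?_
    fin_cases i <;> simp [ch3, chi3, algHom_C] <;> ring
  exact DFunLike.congr_fun h G

private theorem ch_inc4 (a : Fin 3 → ℂ) (α β r : ℂ) (s : Poly 3) :
    ch a α β r (inc4 s) = inc4 (ch3 a α β s) := by
  have h : (ch a α β r).comp inc4 = inc4.comp (ch3 a α β) := by
    refine MvPolynomial.algHom_ext fun i => ?_
    fin_cases i <;> simp [ch, ch3, inc4, algHom_C]
  exact DFunLike.congr_fun h s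

private theorem ch_lin {n m : ℕ} (f : Fin (n + 1) → Poly m) (hf : ∀ i, (f i).IsHomogeneous 1)
    {k : ℕ} {G : Poly n} (hG : G.IsHomogeneous k) : (aeval f G).IsHomogeneous k := by
  have h := hG.aeval f hf
  rwa [one_mul] at h

private theorem ch_hom (a : Fin 3 → ℂ) (α β r : ℂ) {k : ℕ} {G : Poly 4}
    (hG : G.IsHomogeneous k) : (ch a α β r G).IsHomogeneous k := by
  have hc : ∀ (c : ℂ) (i : Fin 5), (C c * X i : Poly 4).IsHomogeneous 1 := fun c i => by
    have h := (isHomogeneous_C (Fin 5) c).mul (isHomogeneous_X ℂ i)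
    rwa [zero_add] at h
  refine ch_lin _ (fun i => ?_) hG
  fin_cases i
  · exact isHomogeneous_X _ _
  · exact (isHomogeneous_X _ _).add (hc _ _)
  · exact ((isHomogeneous_X _ _).add (hc _ _)).add (hc _ _)
  · exact ((isHomogeneous_X _ _).add (hc _ _)).add (hc _ _)
  · exact (isHomogeneous_X _ _).add (hc _ _)

private theorem ch3_hom (a : Fin 3 → ℂ) (α β : ℂ) {k : ℕ} {G : Poly 3}
    (hG : G.IsHomogeneous k) : (ch3 a α β G).IsHomogeneous k := by
  have hc : ∀ (c : ℂ) (i : Fin 4), (C c * X i : Poly 3).IsHomogeneous 1 := fun c i => by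
    have h := (isHomogeneous_C (Fin 4) c).mul (isHomogeneous_X ℂ i)
    rwa [zero_add] at h
  refine ch_lin _ (fun i => ?_) hG
  fin_cases i
  · exact isHomogeneous_X _ _
  · exact (isHomogeneous_X _ _).add (hc _ _)
  · exact ((isHomogeneous_X _ _).add (hc _ _)).add (hc _ _)
  · exact ((isHomogeneous_X _ _).add (hc _ _)).add (hc _ _)

private theorem ch_coeff {k : ℕ} {G : Poly 4} (hG : G.IsHomogeneous k) :
    coeff (Finsupp.single 4 k) G = eval ![0, 0, 0, 0, 1] G := by
  rw [eval_eq']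
  rw [Finset.sum_eq_single (Finsupp.single 4 k)]
  · have h1 : ∏ i : Fin 5, (![0, 0, 0, 0, 1] : Fin 5 → ℂ) i ^ (Finsupp.single (4 : Fin 5) k) i = 1 := by
      refine Finset.prod_eq_one fun i _ => ?_
      fin_cases i <;> simp
    rw [h1, mul_one]
  · intro b hb hne
    have h2 : b.degree = k := by
      have h3 := hG (mem_support_iff.1 hb)
      rw [Finsupp.degree_eq_weight_one]
      exact h3
    have h3 : ∃ i : Fin 5, i ≠ 4 ∧ b i ≠ 0 := by
      by_contra hcon
      push Not at hcon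
      refine hne (Finsupp.ext fun i => ?_)
      by_cases hi : i = 4
      · subst hi
        rw [Finsupp.single_eq_same]
        rw [← h2, Finsupp.degree_eq_sum]
        rw [Finset.sum_eq_single (4 : Fin 5) (fun j _ hj => hcon j hj)
          (fun h => absurd (Finset.mem_univ _) h)]
      · rw [hcon i hi, Finsupp.single_eq_of_ne hi]
    obtain ⟨i, hi, hbi⟩ := h3
    have h4 : ∏ i : Fin 5, (![0, 0, 0, 0, 1] : Fin 5 → ℂ) i ^ b i = 0 := by
      refine Finset.prod_eq_zero (Finset.mem_univ i) ?_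
      have h5 : (![0, 0, 0, 0, 1] : Fin 5 → ℂ) i = 0 := by
        fin_cases i
        · rfl
        · rfl
        · rfl
        · rfl
        · exact absurd rfl hi
      rw [h5, zero_pow hbi]
    rw [h4, mul_zero]
  · intro h
    rw [notMem_support_iff.1 h, zero_mul]

private theorem ch_eval {n m : ℕ} (f : Fin (n + 1) → Poly m) (v : Fin (m + 1) → ℂ) (G : Poly n) :
    eval v (aeval f G) = eval (fun i => eval v (f i)) G := by
  induction G using MvPolynomial.induction_on with
  | C c => simp [algHom_C]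
  | add p q hp hq => rw [map_add, map_add, map_add, hp, hq]
  | mul_X p i hp => rw [map_mul, map_mul, map_mul, hp, aeval_X, eval_X]

/-- **change of coordinates**.

Proof. Put `L' 0 = L 0`, `L' 1 = L 1 - a 0 L 0`, `L' 2 = L 2 - α L' 1 - a 1 L 0`,
`L' 3 = L 3 - β L' 1 - a 2 L 0`, `L' 4 = L 4 - r L 0`. Then `sub5 L' (ch a α β r G) = sub5 L G` for
all `G`, `ch a α β r (inc4 s) = inc4 (ch3 a α β s)`, and `ch a α β r`, `ch3 a α β` are
automorphisms (the inverse substitutions are linear too) which preserve the degrees. The coefficient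
of `X 4 ^ e` is the value at `(0,0,0,0,1)`, which is preserved. -/
theorem Proj5.change (h : Proj5 I e q P L s) (a : Fin 3 → ℂ) (α β r : ℂ) :
    ∃ L' : Fin 5 → Poly N, Proj5 I e q (ch a α β r P) L' (ch3 a α β s) := by
  obtain ⟨L', hL'⟩ : ∃ L' : Fin 5 → Poly N, L' = ![L 0, L 1 - C (a 0) * L 0,
    L 2 - C α * (L 1 - C (a 0) * L 0) - C (a 1) * L 0,
    L 3 - C β * (L 1 - C (a 0) * L 0) - C (a 2) * L 0, L 4 - C r * L 0] := ⟨_, rfl⟩
  have hsub : ∀ G, sub5 L' (ch a α β r G) = sub5 L G := by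
    intro G
    have h1 : (sub5 L').comp (ch a α β r) = sub5 L := by
      refine MvPolynomial.algHom_ext fun i => ?_
      rw [hL']
      fin_cases i <;> simp [ch, sub5, algHom_C] <;> ring
    exact DFunLike.congr_fun h1 G
  have hc : ∀ (c : ℂ) {F : Poly N}, F.IsHomogeneous 1 → (C c * F).IsHomogeneous 1 := fun c F hF => by
    have h := (isHomogeneous_C (Fin (N + 1)) c).mul hF
    rwa [zero_add] at h
  refine ⟨L', h.he, ch_hom a α β r h.hP, ?_, ?_, ?_, ch3_hom a α β h.hs, ?_, ?_, ?_⟩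
  · rw [ch_coeff (ch_hom a α β r h.hP), ch, ch_eval]
    have h2 := h.hcoeff
    rw [ch_coeff h.hP] at h2
    refine Eq.trans (congrArg (fun v => eval v P) (funext fun i => ?_)) h2
    fin_cases i <;> simp
  · intro i
    have hL := h.hL
    rw [hL']
    fin_cases i
    · exact hL 0
    · exact (hL 1).sub (hc _ (hL 0))
    · exact ((hL 2).sub (hc _ ((hL 1).sub (hc _ (hL 0))))).sub (hc _ (hL 0))
    · exact ((hL 3).sub (hc _ ((hL 1).sub (hc _ (hL 0))))).sub (hc _ (hL 0))
    · exact (hL 4).sub (hc _ (hL 0))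
  · intro G
    have h1 : sub5 L' G = sub5 L (chi a α β r G) := by
      rw [← hsub, ch_chi]
    rw [h1, h.hker]
    constructor
    · rintro ⟨H, hH⟩
      refine ⟨ch a α β r H, ?_⟩
      rw [← map_mul, ← hH, ch_chi]
    · rintro ⟨H, hH⟩
      refine ⟨chi a α β r H, ?_⟩
      rw [hH, map_mul, chi_ch]
  · intro h0
    refine h.hs0 ?_
    rw [← chi3_ch3 a α β s, h0, map_zero]
  · intro H
    obtain ⟨G, hG⟩ := h.cond H
    refine ⟨ch a α β r G, ?_⟩
    rw [← ch_inc4 a α β r, hsub, hsub]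
    exact hG
  · have h1 : ((Ideal.Quotient.mkₐ ℂ I).comp (sub5 L)).toRingHom =
        ((Ideal.Quotient.mkₐ ℂ I).comp (sub5 L')).toRingHom.comp (ch a α β r).toRingHom := by
      refine RingHom.ext fun G => ?_
      show Ideal.Quotient.mk I (sub5 L G) = Ideal.Quotient.mk I (sub5 L' (ch a α β r G))
      rw [hsub]
    have h2 := h.fin
    rw [h1] at h2
    exact RingHom.Finite.of_comp_finite h2

/-- Proof. Chain rule, by induction on `Q` or `MvPolynomial.ringHom_ext` for the evaluations. -/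
theorem eval_ch (a : Fin 3 → ℂ) (α β r : ℂ) (Q : Poly 4) :
    eval ![1, 0, 0, 0, 0] (ch a α β r Q) = eval ![1, a 0, a 1, a 2, r] Q ∧
      eval ![1, 0, 0, 0, 0] (pderiv 4 (ch a α β r Q)) =
        eval ![1, a 0, a 1, a 2, r] (pderiv 4 Q) := by
  have h1 : ∀ Q, eval ![1, 0, 0, 0, 0] (ch a α β r Q) = eval ![1, a 0, a 1, a 2, r] Q := by
    intro Q
    rw [ch, ch_eval]
    refine congrArg (fun v => eval v Q) (funext fun i => ?_)
    fin_cases i <;> simp
  refine ⟨h1 Q, ?_⟩
  have h2 : pderiv 4 (ch a α β r Q) = ch a α β r (pderiv 4 Q) := by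
    induction Q using MvPolynomial.induction_on with
    | C c => rw [algHom_C, MvPolynomial.algebraMap_eq, pderiv_C, map_zero]
    | add p q hp hq => rw [map_add, map_add, map_add, map_add, hp, hq]
    | mul_X p i hp =>
      rw [map_mul, Derivation.leibniz, Derivation.leibniz, hp, map_add, smul_eq_mul, smul_eq_mul,
        smul_eq_mul, smul_eq_mul, map_mul, map_mul]
      congr 1
      congr 1
      fin_cases i <;> simp [ch, pderiv_X]
  rw [h2]
  exact h1 _

/-- Proof. As `eval_ch`. -/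
theorem eval_ch3 (a : Fin 3 → ℂ) (α β : ℂ) (Q : Poly 3) :
    eval ![1, 0, 0, 0] (ch3 a α β Q) = eval ![1, a 0, a 1, a 2] Q := by
  rw [ch3, ch_eval]
  refine congrArg (fun v => eval v Q) (funext fun i => ?_)
  fin_cases i <;> simp

end Pool.Agent.Lib.MP_ed661f_ag.V
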