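import Pool.Agent.Lib.MP_ed661f_ag.V.Defs

/-!
Good points of the projection of a threefold.
-/

set_option autoImplicit false

open MvPolynomial

namespace Pool.Agent.Lib.MP_ed661f_ag.V

open Pool.Agent.Lib.MP_ed661f_ag.H

variable {N : ℕ} {I : Ideal (Poly N)} {e q : ℕ} {P : Poly 4} {L : Fin 5 → Poly N} {s : Poly 3}

private theorem changeB_ne (h : Proj5 I e q P L s) : P ≠ 0 := by
  intro h0
  have h1 := h.hcoeff
  rw [h0, coeff_zero] at h1
  exact zero_ne_one h1

private theorem changeB_prime (h : Proj5 I e q P L s) (hI : I.IsPrime) : Prime P := by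
  refine ⟨changeB_ne h, ?_, ?_⟩
  · intro hu
    apply hI.ne_top
    rw [Ideal.eq_top_iff_one]
    have h1 := (h.hker 1).2 hu.dvd
    rwa [map_one] at h1
  · intro a b hab
    have h1 := (h.hker (a * b)).2 hab
    rw [map_mul] at h1
    rcases hI.mem_or_mem h1 with h2 | h2
    · exact Or.inl ((h.hker a).1 h2)
    · exact Or.inr ((h.hker b).1 h2)

/-- Proof. `Ideal.span {P}` is the preimage of the prime ideal `I` under `sub5 L` (`hker`) and
`P ≠ 0` (`hcoeff`). -/
theorem Proj5.irreducible (h : Proj5 I e q P L s) (hI : I.IsPrime) : Irreducible P :=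
  (changeB_prime h hI).irreducible

private theorem changeB_deg (h : Proj5 I e q P L s) : e ≤ degreeOf 4 P := by
  have h1 : Finsupp.single (4 : Fin 5) e ∈ P.support := by
    rw [mem_support_iff, h.hcoeff]
    exact one_ne_zero
  have h2 := monomial_le_degreeOf (4 : Fin 5) h1
  rwa [Finsupp.single_eq_same] at h2

private theorem changeB_not_dvd (h : Proj5 I e q P L s) {f : Poly 4} (hf : f ≠ 0)
    (hd : degreeOf 4 f < e) : ¬ P ∣ f := by
  rintro ⟨g, rfl⟩
  have hg : g ≠ 0 := by
    rintro rfl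
    exact hf (mul_zero P)
  rw [degreeOf_mul_eq (changeB_ne h) hg] at hd
  have := changeB_deg h
  omega

private theorem changeB_inc4 (s : Poly 3) : degreeOf 4 (inc4 s) = 0 := by
  classical
  rw [degreeOf_eq_sup, ← Nat.le_zero, Finset.sup_le_iff]
  intro m hm
  by_contra hcon
  have h1 : (4 : Fin 5) ∈ (inc4 s).vars := by
    rw [mem_vars]
    exact ⟨m, hm, Finsupp.mem_support_iff.2 (by omega)⟩
  obtain ⟨i, -, hi⟩ := mem_vars_rename Fin.castSucc s h1
  exact (Fin.castSucc_lt_last i).ne hi

private theorem changeB_eval {F : Poly 4} {d : ℕ} (hF : F.IsHomogeneous d) (a : ℂ)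
    (x : Fin 5 → ℂ) : eval (fun i => a * x i) F = a ^ d * eval x F := by
  rw [eval_eq', eval_eq', Finset.mul_sum]
  refine Finset.sum_congr rfl fun e he => ?_
  have hdeg : e.degree = d := by
    by_contra h
    exact mem_support_iff.1 he (hF.coeff_eq_zero h)
  simp only [mul_pow, Finset.prod_mul_distrib]
  rw [Finset.prod_pow_eq_pow_sum]
  have h1 : ∑ i, e i = d := by
    rw [← hdeg, Finsupp.degree_eq_sum]
  rw [h1]
  ring

/-- **a good point** of `P = 0`.

Proof. `P` is irreducible, homogeneous of degree `e ≥ 1`, with coefficient `1` at `X 4 ^ e`. It does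
not divide `X 0` unless `e = 1` and `P = c X 0`, which is impossible; it does not divide
`pderiv 4 P`, which has degree `e - 1` and coefficient `e ≠ 0` at `X 4 ^ (e - 1)`; it does not divide
`inc4 s ≠ 0` (degree in `X 4`). As `(P)` is prime, `P` does not divide the product
`X 0 * pderiv 4 P * inc4 s`, and by the Nullstellensatz (`MvPolynomial.vanishingIdeal_zeroLocus_eq_radical`
or similar; see also `H/Nullst.lean`, `W/ProjMap.lean` for how it was used) there is a zero `v` of
`P` where the product is not zero. Divide `v` by `v 0` (all these polynomials are homogeneous). -/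
theorem Proj5.exists_point (h : Proj5 I e q P L s) (hI : I.IsPrime) :
    ∃ (a : Fin 3 → ℂ) (r : ℂ), eval ![1, a 0, a 1, a 2, r] P = 0 ∧
      eval ![1, a 0, a 1, a 2, r] (pderiv 4 P) ≠ 0 ∧ eval ![1, a 0, a 1, a 2] s ≠ 0 := by
  have he := h.he
  have hp := changeB_prime h hI
  -- the three factors
  have h1 : ¬ P ∣ (X 0 : Poly 4) := by
    apply changeB_not_dvd h (X_ne_zero 0)
    rw [degreeOf_X_of_ne (by decide)]
    omega
  have hPd : (pderiv 4 P).IsHomogeneous (e - 1) := h.hP.pderiv
  have h2 : ¬ P ∣ pderiv 4 P := by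
    have hne : pderiv 4 P ≠ 0 := by
      intro h0
      have h3 := coeff_pderiv (i := (4 : Fin 5)) P (Finsupp.single 4 (e - 1))
      rw [h0, coeff_zero, ← Finsupp.single_add, Nat.sub_add_cancel he, h.hcoeff, one_mul,
        Finsupp.single_eq_same] at h3
      exact Nat.cast_add_one_ne_zero (e - 1) h3.symm
    apply changeB_not_dvd h hne
    have h4 := degreeOf_le_totalDegree (pderiv 4 P) (4 : Fin 5)
    have h5 := hPd.totalDegree_le
    omega
  have h3 : ¬ P ∣ inc4 s := by
    apply changeB_not_dvd h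
    · intro h0
      apply h.hs0
      exact rename_injective _ (Fin.castSucc_injective 4) (by rw [map_zero]; exact h0)
    · rw [changeB_inc4]
      omega
  have h4 : ¬ P ∣ X 0 * pderiv 4 P * inc4 s := by
    intro h5
    rcases hp.dvd_or_dvd h5 with h6 | h6
    · rcases hp.dvd_or_dvd h6 with h7 | h7
      · exact h1 h7
      · exact h2 h7
    · exact h3 h6
  -- the Nullstellensatz
  obtain ⟨v, hv, hv2⟩ : ∃ v : Fin 5 → ℂ, eval v P = 0 ∧
      eval v (X 0 * pderiv 4 P * inc4 s) ≠ 0 := by
    by_contra hcon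
    push Not at hcon
    apply h4
    have hsp : (Ideal.span {P} : Ideal (Poly 4)).IsPrime :=
      (Ideal.span_singleton_prime (changeB_ne h)).2 hp
    rw [← Ideal.mem_span_singleton, ← IsPrime.vanishingIdeal_zeroLocus (K := ℂ) (Ideal.span {P}),
      mem_vanishingIdeal_iff]
    intro x hx
    rw [mem_zeroLocus_iff] at hx
    exact hcon x (hx P (Ideal.mem_span_singleton_self P))
  rw [map_mul, map_mul, eval_X] at hv2
  have hv0 : v 0 ≠ 0 := left_ne_zero_of_mul (left_ne_zero_of_mul hv2)
  have hvP : eval v (pderiv 4 P) ≠ 0 := right_ne_zero_of_mul (left_ne_zero_of_mul hv2)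
  have hvs : eval v (inc4 s) ≠ 0 := right_ne_zero_of_mul hv2
  obtain ⟨c, hc⟩ : ∃ c, c = (v 0)⁻¹ := ⟨_, rfl⟩
  have hc0 : c ≠ 0 := by
    rw [hc]
    exact inv_ne_zero hv0
  have hcv : c * v 0 = 1 := by
    rw [hc]
    exact inv_mul_cancel₀ hv0
  have hvec : (![1, c * v 1, c * v 2, c * v 3, c * v 4] : Fin 5 → ℂ) = fun i => c * v i := by
    funext i
    fin_cases i
    · exact hcv.symm
    · rfl
    · rfl
    · rfl
    · rfl
  have hvec2 : (![1, c * v 1, c * v 2, c * v 3] : Fin 4 → ℂ) =
      (fun i : Fin 5 => c * v i) ∘ Fin.castSucc := by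
    funext i
    fin_cases i
    · exact hcv.symm
    · rfl
    · rfl
    · rfl
  refine ⟨![c * v 1, c * v 2, c * v 3], c * v 4, ?_, ?_, ?_⟩
  · change eval ![1, c * v 1, c * v 2, c * v 3, c * v 4] P = 0
    rw [hvec, changeB_eval h.hP, hv, mul_zero]
  · change eval ![1, c * v 1, c * v 2, c * v 3, c * v 4] (pderiv 4 P) ≠ 0
    rw [hvec, changeB_eval hPd]
    exact mul_ne_zero (pow_ne_zero _ hc0) hvP
  · change eval ![1, c * v 1, c * v 2, c * v 3] s ≠ 0
    have hsh : (inc4 s).IsHomogeneous q := h.hs.rename_isHomogeneous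
    have h5 : eval ((fun i : Fin 5 => c * v i) ∘ Fin.castSucc) s =
        eval (fun i : Fin 5 => c * v i) (inc4 s) := (eval_rename _ _ _).symm
    rw [hvec2, h5, changeB_eval hsh]
    exact mul_ne_zero (pow_ne_zero _ hc0) hvs

end Pool.Agent.Lib.MP_ed661f_ag.V
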