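import Pool.Agent.Lib.MP_ed661f_ag.V.LinK

/-!
The transcendence degree of the points of a threefold.
-/

set_option autoImplicit false

open MvPolynomial

namespace Pool.Agent.Lib.MP_ed661f_ag.V

open Pool.Agent.Lib.MP_ed661f_ag.H

/-- the coefficientwise application of `lam` -/
private noncomputable def tanBT {σ : Type} {K : Subfield ℂ} (lam : ℂ →ₗ[K] K)
    (F : MvPolynomial σ ℂ) : MvPolynomial σ K :=
  ∑ α ∈ F.support, monomial α (lam (coeff α F))

private theorem tanBT_coeff {σ : Type} {K : Subfield ℂ} (lam : ℂ →ₗ[K] K)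
    (F : MvPolynomial σ ℂ) (β : σ →₀ ℕ) : coeff β (tanBT lam F) = lam (coeff β F) := by
  classical
  unfold tanBT
  rw [coeff_sum]
  simp only [coeff_monomial]
  rw [Finset.sum_ite_eq']
  split_ifs with h
  · rfl
  · rw [notMem_support_iff.1 h, map_zero]

private theorem tanBT_add {σ : Type} {K : Subfield ℂ} (lam : ℂ →ₗ[K] K)
    (F G : MvPolynomial σ ℂ) : tanBT lam (F + G) = tanBT lam F + tanBT lam G := by
  ext α
  rw [tanBT_coeff, coeff_add, coeff_add, map_add, tanBT_coeff, tanBT_coeff]

private theorem tanBT_monomial {σ : Type} {K : Subfield ℂ} (lam : ℂ →ₗ[K] K) (β : σ →₀ ℕ)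
    (c : ℂ) : tanBT lam (monomial β c) = monomial β (lam c) := by
  classical
  ext α
  rw [tanBT_coeff, coeff_monomial, coeff_monomial]
  split_ifs with h
  · rfl
  · rw [map_zero]

private theorem tanBT_rename {σ τ : Type} {K : Subfield ℂ} (lam : ℂ →ₗ[K] K) (i : σ → τ)
    (F : MvPolynomial σ ℂ) : tanBT lam (rename i F) = rename i (tanBT lam F) := by
  induction F using MvPolynomial.induction_on' with
  | monomial β c =>
    rw [rename_monomial, tanBT_monomial, tanBT_monomial, rename_monomial]
  | add F G hF hG =>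
    rw [map_add, tanBT_add, tanBT_add, map_add, hF, hG]

private theorem tanB_deg {P : MvPolynomial (Fin 5) ℂ} {k : ℕ} (hP : P.IsHomogeneous k)
    {γ : Fin 5 →₀ ℕ} (hγ : coeff γ P ≠ 0) : γ 0 + ∑ t : Fin 4, γ t.succ = k := by
  have h1 := hP hγ
  have h2 : γ.degree = k := by
    rw [Finsupp.degree_eq_weight_one]
    exact h1
  rw [Finsupp.degree_eq_sum, Fin.sum_univ_succ] at h2
  exact h2

/-- the dehomogenisation of a monomial -/
private theorem tanB_mono {K : Subfield ℂ} (γ : Fin 5 →₀ ℕ) (c : K) :
    aeval (Fin.cons 1 X : Fin 5 → MvPolynomial (Fin 4) K) (monomial γ c) =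
      monomial γ.tail c := by
  rw [aeval_monomial, monomial_eq (s := γ.tail), Finsupp.prod_fintype _ _ fun i => pow_zero _,
    Finsupp.prod_fintype _ _ fun i => pow_zero _, Fin.prod_univ_succ, Fin.cons_zero, one_pow,
    one_mul, algebraMap_eq]
  rfl

/-- **four coordinates of a point are algebraically dependent**, if one coordinate is `1` and there
is a form `R ≠ 0` in five variables in `I`.

Proof. Choose a `K`-linear functional `lam : ℂ → K` which is not zero at some coefficient of `R`,
and let `R'` be the form whose coefficients are `lam` of those of `R`; so `R' ≠ 0` is a form of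
degree `k`, and the coefficients of `rename i R'` are `lam` of those of `rename i R` (both sides
are `K`-linear in `R`, and for monomials it is clear), so `rename i R' ∈ I` by `descend`. So
`R'(1, v (i 1), ..., v (i 4)) = 0`: a relation over `K` for the `v (i t.succ)`, which is not
trivial, because `R'` is a form and not zero. -/
theorem not_indep_four {N k : ℕ} {I : Ideal (Poly N)} {K : Subfield ℂ} (hK : DefinedOver K I)
    {i : Fin 5 → Fin (N + 1)} {R : MvPolynomial (Fin 5) ℂ} (hR : R.IsHomogeneous k) (hR0 : R ≠ 0)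
    (hRI : rename i R ∈ I) {v : Fin (N + 1) → ℂ} (hv : ∀ F ∈ I, eval v F = 0)
    (h0 : v (i 0) = 1) : ¬ AlgebraicIndependent K (fun t : Fin 4 => v (i t.succ)) := by
  classical
  intro hind
  obtain ⟨δ, hδ⟩ := ne_zero_iff.1 hR0
  obtain ⟨lam, hlam⟩ : ∃ lam : ℂ →ₗ[K] K, lam (coeff δ R) ≠ 0 := by
    by_contra hcon
    push Not at hcon
    exact hδ ((Module.forall_dual_apply_eq_zero_iff K (coeff δ R)).1 hcon)
  -- the descended relation
  have h1 : rename i (map (algebraMap K ℂ) (tanBT lam R)) ∈ I := by
    refine descend hK lam hRI fun α => ?_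
    rw [← map_rename, ← tanBT_rename, coeff_map, tanBT_coeff]
    rfl
  have h2 := hv _ h1
  rw [eval_rename] at h2
  have h3 : aeval (v ∘ i) (tanBT lam R) = 0 := by
    rw [← h2, ← aeval_map_algebraMap ℂ (v ∘ i) (tanBT lam R)]
    rfl
  -- dehomogenise
  have h4 : aeval (fun t : Fin 4 => v (i t.succ))
      (aeval (Fin.cons 1 X : Fin 5 → MvPolynomial (Fin 4) K) (tanBT lam R)) = 0 := by
    rw [← h3, ← AlgHom.comp_apply]
    congr 1
    refine algHom_ext fun j => ?_
    rw [AlgHom.comp_apply, aeval_X, aeval_X]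
    refine Fin.cases ?_ (fun t => ?_) j
    · rw [Fin.cons_zero, map_one]
      exact h0.symm
    · rw [Fin.cons_succ, aeval_X]
      rfl
  have h5 : aeval (Fin.cons 1 X : Fin 5 → MvPolynomial (Fin 4) K) (tanBT lam R) = 0 :=
    hind (h4.trans (map_zero _).symm)
  have h6 := congrArg (coeff δ.tail) h5
  rw [(tanBT lam R).as_sum, map_sum, coeff_sum, coeff_zero, Finset.sum_eq_single δ] at h6
  · rw [tanB_mono, coeff_monomial, if_pos rfl, tanBT_coeff] at h6
    exact hlam h6
  · intro γ hγ hne
    rw [tanB_mono, coeff_monomial, if_neg]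
    intro h
    apply hne
    have hγR : coeff γ R ≠ 0 := by
      intro h7
      have h8 := mem_support_iff.1 hγ
      rw [tanBT_coeff, h7, map_zero] at h8
      exact h8 rfl
    have h9 : ∀ t : Fin 4, γ t.succ = δ t.succ := fun t => DFunLike.congr_fun h t
    have h10 := tanB_deg hR hγR
    have h11 := tanB_deg hR hδ
    rw [Finset.sum_congr rfl fun t _ => h9 t] at h10
    ext j
    refine Fin.cases ?_ (fun t => h9 t) j
    omega
  · intro h
    have h7 := notMem_support_iff.1 h
    rw [tanBT_coeff] at h7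
    exact absurd h7 hlam

end Pool.Agent.Lib.MP_ed661f_ag.V
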