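import Pool.Agent.Lib.MP_ed661f_ag.V.Defs
import Pool.Agent.Lib.MP_ed661f_ag.S.Indep
import Pool.Agent.Lib.MP_ed661f_ag.H.FormsDim

/-!
Fields of definition, algebraic independence, forms with prescribed coefficients.
-/

set_option autoImplicit false

open MvPolynomial

namespace Pool.Agent.Lib.MP_ed661f_ag.V

open Pool.Agent.Lib.MP_ed661f_ag.H Pool.Agent.Lib.MP_ed661f_ag.S

/-- algebraic independence over a smaller field -/
theorem indep_mono {ι : Type} {K K' : Subfield ℂ} (hK : K ≤ K') {t : ι → ℂ}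
    (h : AlgebraicIndependent K' t) : AlgebraicIndependent K t := by
  let _ : Algebra K K' := (Subfield.inclusion hK).toAlgebra
  have : IsScalarTower K K' ℂ := IsScalarTower.of_algebraMap_eq fun t => rfl
  exact h.restrictScalars (algebraMap K K').injective

/-- independence in two steps -/
theorem indep_sum {ι κ : Type} {K K' : Subfield ℂ} (hK : K ≤ K') {u : ι → ℂ}
    (hu : AlgebraicIndependent K u) (huK : ∀ i, u i ∈ K') {t : κ → ℂ}
    (ht : AlgebraicIndependent K' t) : AlgebraicIndependent K (Sum.elim t u) := by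
  let _ : Algebra K K' := (Subfield.inclusion hK).toAlgebra
  have : IsScalarTower K K' ℂ := IsScalarTower.of_algebraMap_eq fun t => rfl
  refine AlgebraicIndependent.sumElim_of_tower (S := K') hu ?_ ht
  rintro _ ⟨i, rfl⟩
  exact ⟨⟨_, huK i⟩, rfl⟩

theorem VeryGeneralOver.mono {N m : ℕ} {K K' : Subfield ℂ} (hK : K ≤ K') {G : Poly N}
    (h : VeryGeneralOver K' m G) : VeryGeneralOver K m G :=
  ⟨h.1, indep_mono hK h.2⟩

theorem coeff_aeval_mem {σ : Type} {N : ℕ} {K : Subfield ℂ} {L : σ → Poly N}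
    (hL : ∀ j α, coeff α (L j) ∈ K) {P : MvPolynomial σ ℂ} (hP : ∀ α, coeff α P ∈ K)
    (α : Fin (N + 1) →₀ ℕ) : coeff α (aeval L P : Poly N) ∈ K := by
  choose L' hL' using fun j => Hn.exists_over (hL j)
  obtain ⟨P', hP'⟩ := Hn.exists_over hP
  have h1 : (aeval L (map K.subtype P') : Poly N) = map K.subtype (aeval L' P') := by
    have h : (aeval L : MvPolynomial σ ℂ →ₐ[ℂ] Poly N).toRingHom.comp (map K.subtype) =
        (map K.subtype).comp (aeval L' : MvPolynomial σ K →ₐ[K] _).toRingHom := by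
      apply MvPolynomial.ringHom_ext
      · intro r
        simp
      · intro i
        simp [hL']
    exact congrArg (fun φ => φ P') h
  rw [← hP', h1, coeff_map]
  exact (coeff α (aeval L' P')).2

theorem coeff_inc4_mem {K : Subfield ℂ} {s : Poly 3} (hs : ∀ α, coeff α s ∈ K)
    (α : Fin 5 →₀ ℕ) : coeff α (inc4 s) ∈ K := by
  obtain ⟨s', hs'⟩ := Hn.exists_over hs
  have h1 : inc4 s = map K.subtype (rename Fin.castSucc s') := by
    rw [inc4, ← hs', ← map_rename]
  rw [h1, coeff_map]
  exact (coeff α (rename Fin.castSucc s')).2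

theorem coeff_pderiv_mem {σ : Type} {K : Subfield ℂ} {P : MvPolynomial σ ℂ}
    (hP : ∀ α, coeff α P ∈ K) (i : σ) (α : σ →₀ ℕ) : coeff α (pderiv i P) ∈ K := by
  obtain ⟨P', hP'⟩ := Hn.exists_over hP
  rw [← hP', pderiv_map, coeff_map]
  exact (coeff α (pderiv i P')).2

theorem eval_inc4 (v : Fin 5 → ℂ) (s : Poly 3) :
    eval v (inc4 s) = eval (fun j : Fin 4 => v j.castSucc) s := by
  rw [inc4, eval_rename]
  rfl

instance finite_expo (N d : ℕ) : Finite {e : Fin (N + 1) →₀ ℕ // e.degree = d} := by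
  classical
  have h : {e : Fin (N + 1) →₀ ℕ | e.degree = d} =
      ((Finset.univ : Finset (Fin (N + 1))).finsuppAntidiag d : Set (Fin (N + 1) →₀ ℕ)) := by
    ext e
    rw [Finset.mem_coe, mem_antidiag_univ]
    rfl
  have h1 : {e : Fin (N + 1) →₀ ℕ | e.degree = d}.Finite := by
    rw [h]
    exact Finset.finite_toSet _
  exact h1.to_subtype

/-- a form with prescribed coefficients -/
theorem exists_formN {R : Type*} [CommRing R] {N d : ℕ}
    (A : {e : Fin (N + 1) →₀ ℕ // e.degree = d} → R) :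
    ∃ F : MvPolynomial (Fin (N + 1)) R, F.IsHomogeneous d ∧ ∀ e, coeff e.1 F = A e := by
  classical
  have := Fintype.ofFinite {e : Fin (N + 1) →₀ ℕ // e.degree = d}
  refine ⟨∑ e : {e : Fin (N + 1) →₀ ℕ // e.degree = d}, monomial e.1 (A e), ?_, ?_⟩
  · exact IsHomogeneous.sum _ _ _ fun e _ => isHomogeneous_monomial _ e.2
  · intro e
    rw [coeff_sum, Finset.sum_eq_single e]
    · rw [coeff_monomial, if_pos rfl]
    · intro e' _ hne
      rw [coeff_monomial, if_neg]
      intro h
      exact hne (Subtype.ext h)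
    · intro h
      exact absurd (Finset.mem_univ e) h

theorem form_extN {R : Type*} [CommRing R] {N d : ℕ} {F G : MvPolynomial (Fin (N + 1)) R}
    (hF : F.IsHomogeneous d) (hG : G.IsHomogeneous d)
    (h : ∀ e : {e : Fin (N + 1) →₀ ℕ // e.degree = d}, coeff e.1 F = coeff e.1 G) : F = G := by
  ext e
  by_cases he : e.degree = d
  · exact h ⟨e, he⟩
  · rw [hF.coeff_eq_zero he, hG.coeff_eq_zero he]

end Pool.Agent.Lib.MP_ed661f_ag.V
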