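import Pool.Agent.Lib.MP_ed661f_ag.V.Tan
import Pool.Agent.Lib.MP_ed661f_ag.V.Fld

/-!
A basis of the tangent space over a field of definition.
-/

set_option autoImplicit false

open MvPolynomial

namespace Pool.Agent.Lib.MP_ed661f_ag.V

open Pool.Agent.Lib.MP_ed661f_ag.H Pool.Agent.Lib.MP_ed661f_ag.S

private theorem tanC_mem {N : ℕ} {I : Ideal (Poly N)} {K : Subfield ℂ}
    (hK : DefinedOver K I) {v : Fin (N + 1) → ℂ} (hv : ∀ F ∈ I, eval v F = 0)
    {u : Fin (N + 1) → ℂ} (hu : ∀ F ∈ I, (∀ α, coeff α F ∈ K) →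
      ∑ j, u j * eval v (pderiv j F) = 0) : u ∈ tang I v := by
  have key : ∀ F, F ∈ Ideal.span {F | F ∈ I ∧ ∀ α, coeff α F ∈ K} →
      (∑ j, u j * eval v (pderiv j F) = 0 ∧ eval v F = 0) := by
    intro F hF
    refine Submodule.span_induction ?_ ?_ ?_ ?_ hF
    · rintro F ⟨h1, h2⟩
      exact ⟨hu F h1 h2, hv F h1⟩
    · simp
    · rintro F G _ _ ⟨h1, h2⟩ ⟨h3, h4⟩
      constructor
      · simp only [map_add, mul_add, Finset.sum_add_distrib, h1, h3, add_zero]
      · rw [map_add, h2, h4, add_zero]
    · rintro a F _ ⟨h1, h2⟩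
      constructor
      · have h3 : ∀ j, u j * eval v (pderiv j (a • F)) =
            eval v a * (u j * eval v (pderiv j F)) := by
          intro j
          rw [smul_eq_mul, pderiv_mul, map_add, map_mul, map_mul, h2]
          ring
        simp only [h3]
        rw [← Finset.mul_sum, h1, mul_zero]
      · rw [smul_eq_mul, map_mul, h2, mul_zero]
  intro F hF
  refine (key F ?_).1
  have h : Ideal.span {F | F ∈ I ∧ ∀ α, coeff α F ∈ K} = I := hK.symm
  rw [h]
  exact hF

private theorem tanC_span {N : ℕ} {I : Ideal (Poly N)} {K K1 : Subfield ℂ} (hKK1 : K ≤ K1)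
    (hK : DefinedOver K I) {v : Fin (N + 1) → ℂ} (hvK : ∀ j, v j ∈ K1)
    (hv : ∀ F ∈ I, eval v F = 0) :
    Submodule.span ℂ {u | u ∈ tang I v ∧ ∀ j, u j ∈ K1} = tang I v := by
  classical
  refine le_antisymm (Submodule.span_le.2 fun u hu => hu.1) fun u hu => ?_
  obtain ⟨S, b⟩ : Σ S : Type, Module.Basis S K1 ℂ :=
    ⟨_, Module.Basis.ofVectorSpace K1 ℂ⟩
  have h1 : u = ∑ i ∈ Finset.univ.biUnion (fun j => (b.repr (u j)).support),
      b i • (fun j => ((b.repr (u j) i : K1) : ℂ)) := by
    funext j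
    rw [Finset.sum_apply]
    simp only [Pi.smul_apply, smul_eq_mul]
    conv_lhs => rw [← b.linearCombination_repr (u j)]
    rw [Finsupp.linearCombination_apply, Finsupp.sum_of_support_subset _
      (Finset.subset_biUnion_of_mem (fun j => (b.repr (u j)).support) (Finset.mem_univ j))]
    · exact Finset.sum_congr rfl fun i _ => mul_comm _ _
    · intro i _
      rw [zero_smul]
  rw [h1]
  refine Submodule.sum_mem _ fun i _ => Submodule.smul_mem _ _ (Submodule.subset_span ⟨?_, ?_⟩)
  · refine tanC_mem hK hv fun F hF hFK => ?_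
    have hc : ∀ j, eval v (pderiv j F) ∈ K1 := fun j =>
      Hn.eval_mem_field hvK fun e => hKK1 (coeff_pderiv_mem hFK j e)
    have h2 : ∑ j, (⟨eval v (pderiv j F), hc j⟩ : K1) • u j = 0 := by
      rw [← hu F hF]
      exact Finset.sum_congr rfl fun j _ => mul_comm _ _
    have h3 := congrArg (b.coord i) h2
    rw [map_sum, map_zero] at h3
    have h4 := congrArg (fun x : K1 => (x : ℂ)) h3
    simp only [map_smul, smul_eq_mul] at h4
    rw [← ZeroMemClass.coe_zero K1, ← h4]
    push_cast
    exact Finset.sum_congr rfl fun j _ => mul_comm _ _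
  · intro j
    exact (b.repr (u j) i).2

/-- **a basis of the tangent space over a field of definition**.

Proof. As `I` is generated by its elements `F` over `K`, and all elements of `I` vanish at `v`,
`tang I v` is the space of the solutions of the linear equations
`∑ u j * eval v (pderiv j F) = 0`, `F ∈ I` over `K`, whose coefficients are in `K1`. The solution
space of a system of linear equations over `K1` in finitely many unknowns has a basis of vectors
over `K1` (the solutions over `K1` span the solutions over `ℂ`: apply the coordinate functionals of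
a basis of `ℂ` over `K1` to a solution; choose a basis from the spanning set). -/
theorem exists_basis_tang {N : ℕ} {I : Ideal (Poly N)} {K K1 : Subfield ℂ} (hKK1 : K ≤ K1)
    (hK : DefinedOver K I) {v : Fin (N + 1) → ℂ} (hvK : ∀ j, v j ∈ K1)
    (hv : ∀ F ∈ I, eval v F = 0) :
    ∃ u : Fin (Module.finrank ℂ (tang I v)) → Fin (N + 1) → ℂ, LinearIndependent ℂ u ∧
      (∀ i, u i ∈ tang I v) ∧ ∀ i j, u i j ∈ K1 := by
  classical
  obtain ⟨t, ht, hspan, hli⟩ := exists_linearIndependent ℂ {u | u ∈ tang I v ∧ ∀ j, u j ∈ K1}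
  rw [tanC_span hKK1 hK hvK hv] at hspan
  have hfin : t.Finite := hli.setFinite
  have := hfin.fintype
  have hcard : Fintype.card t = Module.finrank ℂ (tang I v) := by
    rw [← hspan, finrank_span_set_eq_card hli, Set.toFinset_card]
  obtain ⟨e⟩ : Nonempty (Fin (Module.finrank ℂ (tang I v)) ≃ t) :=
    ⟨(Fintype.equivFinOfCardEq hcard).symm⟩
  exact ⟨fun i => (e i : Fin (N + 1) → ℂ), hli.comp e e.injective,
    fun i => (ht (e i).2).1, fun i => (ht (e i).2).2⟩

end Pool.Agent.Lib.MP_ed661f_ag.V
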