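import Pool.Agent.Lib.MP_ed661f_ag.V.TanD

/-!
Few coefficients of a form which is tangent to a threefold determine the others.
-/

set_option autoImplicit false

open MvPolynomial

namespace Pool.Agent.Lib.MP_ed661f_ag.V

open Pool.Agent.Lib.MP_ed661f_ag.H

private theorem tanE_solve (K1 : Subfield ℂ) : ∀ (r : ℕ) (ι : Type) [Fintype ι]
    (lam : Fin r → ι → ℂ) (x : ι → ℂ), (∀ i α, lam i α ∈ K1) →
    (∀ c : Fin r → ℂ, ∃ y : ι → ℂ, ∀ i, ∑ α, lam i α * y α = c i) →
    (∀ i, ∑ α, lam i α * x α = 0) →
    ∃ A : Set ι, Nat.card A + r = Nat.card ι ∧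
      ∀ α, x α ∈ Subfield.closure ((K1 : Set ℂ) ∪ x '' A) := by
  classical
  intro r
  induction r with
  | zero =>
    intro ι _ lam x _ _ _
    refine ⟨Set.univ, by simp, fun α => ?_⟩
    exact Subfield.subset_closure (Or.inr ⟨α, Set.mem_univ _, rfl⟩)
  | succ r ih =>
    intro ι _ lam x hK hs hx
    obtain ⟨α0, hα0⟩ : ∃ α, lam 0 α ≠ 0 := by
      by_contra hcon
      simp only [not_exists, not_not] at hcon
      obtain ⟨y, hy⟩ := hs fun _ => 1
      have h1 := hy 0
      simp only [hcon, zero_mul, Finset.sum_const_zero] at h1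
      exact zero_ne_one h1
    have hsplit : ∀ f : ι → ℂ, ∑ α, f α = f α0 + ∑ β : {α // α ≠ α0}, f β.1 := by
      intro f
      rw [← Finset.add_sum_erase Finset.univ f (Finset.mem_univ α0)]
      congr 1
      rw [Finset.sum_subtype (Finset.univ.erase α0) (p := fun α => α ≠ α0)]
      intro α
      simp
    obtain ⟨A, hA, hAx⟩ := ih {α // α ≠ α0}
      (fun i β => lam i.succ β.1 - lam i.succ α0 / lam 0 α0 * lam 0 β.1) (fun β => x β.1)
      (fun i β => K1.sub_mem (hK _ _) (K1.mul_mem (K1.div_mem (hK _ _) (hK _ _)) (hK _ _)))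
      (by
        intro c
        obtain ⟨y, hy⟩ := hs (Fin.cons 0 c)
        refine ⟨fun β => y β.1, fun i => ?_⟩
        have h1 := hy i.succ
        have h2 := hy 0
        rw [Fin.cons_succ] at h1
        rw [Fin.cons_zero] at h2
        have h3 := hsplit fun α => (lam i.succ α - lam i.succ α0 / lam 0 α0 * lam 0 α) * y α
        rw [div_mul_cancel₀ _ hα0, sub_self, zero_mul, zero_add] at h3
        rw [← h3]
        calc ∑ α, (lam i.succ α - lam i.succ α0 / lam 0 α0 * lam 0 α) * y α
            = ∑ α, lam i.succ α * y α - lam i.succ α0 / lam 0 α0 * ∑ α, lam 0 α * y α := by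
              rw [Finset.mul_sum, ← Finset.sum_sub_distrib]
              refine Finset.sum_congr rfl fun α _ => ?_
              ring
          _ = c i := by rw [h1, h2, mul_zero, sub_zero])
      (by
        intro i
        have h1 := hx i.succ
        have h2 := hx 0
        have h3 := hsplit fun α => (lam i.succ α - lam i.succ α0 / lam 0 α0 * lam 0 α) * x α
        rw [div_mul_cancel₀ _ hα0, sub_self, zero_mul, zero_add] at h3
        rw [← h3]
        calc ∑ α, (lam i.succ α - lam i.succ α0 / lam 0 α0 * lam 0 α) * x α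
            = ∑ α, lam i.succ α * x α - lam i.succ α0 / lam 0 α0 * ∑ α, lam 0 α * x α := by
              rw [Finset.mul_sum, ← Finset.sum_sub_distrib]
              refine Finset.sum_congr rfl fun α _ => ?_
              ring
          _ = 0 := by rw [h1, h2, mul_zero, sub_zero])
    have himg : x '' (Subtype.val '' A) = (fun β : {α // α ≠ α0} => x β.1) '' A := by
      rw [Set.image_image]
    have hne : ∀ α, α ≠ α0 → x α ∈ Subfield.closure ((K1 : Set ℂ) ∪ x '' (Subtype.val '' A)) := by
      intro α hα
      rw [himg]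
      exact hAx ⟨α, hα⟩
    refine ⟨Subtype.val '' A, ?_, ?_⟩
    · have h1 : Nat.card (Subtype.val '' A : Set ι) = Nat.card A :=
        Nat.card_image_of_injective Subtype.val_injective A
      have h2 : Nat.card {α // α ≠ α0} + 1 = Nat.card ι := by
        have h3 := hsplit fun _ => 1
        rw [Finset.sum_const, Finset.sum_const, Finset.card_univ, Finset.card_univ, nsmul_eq_mul,
          mul_one, nsmul_eq_mul, mul_one] at h3
        rw [Nat.card_eq_fintype_card, Nat.card_eq_fintype_card]
        have h4 : Fintype.card ι = 1 + Fintype.card {α // α ≠ α0} := by exact_mod_cast h3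
        omega
      omega
    · intro α
      by_cases hα : α = α0
      · subst hα
        have h1 := hx 0
        rw [hsplit] at h1
        have h2 : x α = -(∑ β : {β // β ≠ α}, lam 0 β.1 * x β.1) / lam 0 α := by
          rw [eq_div_iff hα0]
          linear_combination h1
        rw [h2]
        have hK' : ∀ c ∈ K1, c ∈ Subfield.closure ((K1 : Set ℂ) ∪ x '' (Subtype.val '' A)) :=
          fun c hc => Subfield.subset_closure (Or.inl hc)
        refine Subfield.div_mem _ (Subfield.neg_mem _ (Subfield.sum_mem _ fun β _ => ?_))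
          (hK' _ (hK _ _))
        exact Subfield.mul_mem _ (hK' _ (hK _ _)) (hne β.1 β.2)
      · exact hne α hα

/-- **linear algebra**: if the coordinates of `x` satisfy `r` independent linear equations with
coefficients in `K1`, then `r` of the coordinates are combinations of the others, with coefficients
in `K1`.

Proof. The matrix `lam` with `r` rows and entries in `K1` has linearly independent rows over `ℂ`
(by `hlam`: the map `y ↦ (∑ α, lam i α * y α)_i` is surjective), so over `K1`, so it has an
invertible `r × r` minor; let `A` be the complement of the set of its columns, and solve for the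
`x α`, `α ∉ A`, by Cramer's rule. (Or: induction on `r`, solving one equation for one unknown.) -/
theorem exists_solve {ι : Type} [Fintype ι] {r : ℕ} {K1 : Subfield ℂ} {lam : Fin r → ι → ℂ}
    (hK1 : ∀ i α, lam i α ∈ K1) (hlam : ∀ c : Fin r → ℂ, ∃ y : ι → ℂ, ∀ i,
      ∑ α, lam i α * y α = c i) {x : ι → ℂ} (hx : ∀ i, ∑ α, lam i α * x α = 0) :
    ∃ A : Set ι, Nat.card A + r = Nat.card ι ∧
      ∀ α, x α ∈ Subfield.closure ((K1 : Set ℂ) ∪ x '' A) :=
  tanE_solve K1 r ι lam x hK1 hlam hx

private theorem tanE_finite (N m : ℕ) : Finite {α : Fin (N + 1) →₀ ℕ // α.degree = m} := by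
  refine Set.Finite.subset (Finset.finite_toSet (Finset.finsuppAntidiag Finset.univ m))
    fun α hα => ?_
  rw [Finset.mem_coe, Finset.mem_finsuppAntidiag]
  refine ⟨?_, Finset.subset_univ _⟩
  have h1 : α.degree = m := hα
  rw [← h1, Finsupp.degree_eq_sum]

private theorem tanE_sum {N m : ℕ} [Fintype {α : Fin (N + 1) →₀ ℕ // α.degree = m}] {G : Poly N}
    (hG : G.IsHomogeneous m) :
    G = ∑ α : {α : Fin (N + 1) →₀ ℕ // α.degree = m}, C (coeff α.1 G) * monomial α.1 1 := by
  classical
  ext β
  rw [coeff_sum]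
  simp only [coeff_C_mul, coeff_monomial]
  by_cases hβ : β.degree = m
  · rw [Finset.sum_eq_single ⟨β, hβ⟩]
    · rw [if_pos rfl, mul_one]
    · intro α _ hα
      rw [if_neg fun h => hα (Subtype.ext h), mul_zero]
    · intro h
      exact absurd (Finset.mem_univ _) h
  · rw [hG.coeff_eq_zero hβ]
    symm
    refine Finset.sum_eq_zero fun α _ => ?_
    rw [if_neg fun h => hβ (by rw [← h]; exact α.2), mul_zero]

private theorem tanE_lin {N m r : ℕ} [Fintype {α : Fin (N + 1) →₀ ℕ // α.degree = m}]
    (v : Fin (N + 1) → ℂ) (u : Fin r → Fin (N + 1) → ℂ) {G : Poly N} (hG : G.IsHomogeneous m)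
    (i : Fin r) : ∑ α : {α : Fin (N + 1) →₀ ℕ // α.degree = m},
      (∑ j, u i j * eval v (pderiv j (monomial α.1 (1 : ℂ)))) * coeff α.1 G =
      ∑ j, u i j * eval v (pderiv j G) := by
  have h1 : ∀ j, eval v (pderiv j G) = ∑ α : {α : Fin (N + 1) →₀ ℕ // α.degree = m},
      coeff α.1 G * eval v (pderiv j (monomial α.1 (1 : ℂ))) := by
    intro j
    conv_lhs => rw [tanE_sum hG]
    rw [map_sum, map_sum]
    refine Finset.sum_congr rfl fun α _ => ?_
    rw [pderiv_C_mul, map_mul, eval_C]
  simp only [h1, Finset.mul_sum, Finset.sum_mul]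
  rw [Finset.sum_comm]
  refine Finset.sum_congr rfl fun j _ => Finset.sum_congr rfl fun α _ => ?_
  ring

/-- **few coefficients determine the others**.

Proof. The numbers `∑ j, u i j * eval v (pderiv j G)` are linear forms in the coefficients of
`G` (a form of degree `m`), with coefficients in `K1`, and they take arbitrary values by
`exists_grad`; use `exists_solve`. (The coefficient of the monomial `α` is the value for
`G = monomial α 1`.) -/
theorem exists_small {N m r : ℕ} {K1 : Subfield ℂ} (hm : 1 ≤ m) {v : Fin (N + 1) → ℂ}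
    (hvK : ∀ j, v j ∈ K1) {j0 : Fin (N + 1)} (h0 : v j0 = 1) {u : Fin r → Fin (N + 1) → ℂ}
    (hu : LinearIndependent ℂ u) (huK : ∀ i j, u i j ∈ K1) {G : Poly N} (hG : G.IsHomogeneous m)
    (hz : ∀ i, ∑ j, u i j * eval v (pderiv j G) = 0) :
    ∃ A : Set {α : Fin (N + 1) →₀ ℕ // α.degree = m},
      Nat.card A + r = Nat.card {α : Fin (N + 1) →₀ ℕ // α.degree = m} ∧
      ∀ α : {α : Fin (N + 1) →₀ ℕ // α.degree = m}, coeff α.1 G ∈
        Subfield.closure ((K1 : Set ℂ) ∪ (fun β : {α : Fin (N + 1) →₀ ℕ // α.degree = m} =>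
          coeff β.1 G) '' A) := by
  classical
  haveI := tanE_finite N m
  letI := Fintype.ofFinite {α : Fin (N + 1) →₀ ℕ // α.degree = m}
  refine exists_solve (K1 := K1)
    (lam := fun i (α : {α : Fin (N + 1) →₀ ℕ // α.degree = m}) =>
      ∑ j, u i j * eval v (pderiv j (monomial α.1 (1 : ℂ)))) ?_ ?_ ?_
  · intro i α
    refine K1.sum_mem fun j _ => K1.mul_mem (huK i j) ?_
    rw [pderiv_monomial, eval_monomial, one_mul]
    refine K1.mul_mem (natCast_mem K1 _) ?_
    exact K1.prod_mem fun k _ => K1.pow_mem (hvK k) _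
  · intro c
    obtain ⟨G', hG', hc⟩ := exists_grad hm h0 hu c
    refine ⟨fun α => coeff α.1 G', fun i => ?_⟩
    rw [tanE_lin v u hG' i, hc i]
  · intro i
    rw [tanE_lin v u hG i, hz i]

end Pool.Agent.Lib.MP_ed661f_ag.V
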