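import Mathlib

/-!
Transcendence degrees.
-/

set_option autoImplicit false

namespace Pool.Agent.Lib.MP_ed661f_ag.V

/-- elements of the field generated by a set are in the closure of the set -/
private theorem mem_closure_of_subfield {K : Subfield ℂ} {s t : Set ℂ}
    (ht : ∀ x ∈ t, x ∈ (AlgebraicIndependent.matroid K ℂ).closure s) {x : ℂ}
    (hx : x ∈ Subfield.closure t) : x ∈ (AlgebraicIndependent.matroid K ℂ).closure s := by
  simp only [AlgebraicIndependent.matroid_closure_eq, SetLike.mem_coe,
    Subalgebra.mem_algebraicClosure] at ht ⊢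
  refine Subfield.closure_induction (p := fun x _ => IsAlgebraic (Algebra.adjoin K s) x)
    (fun x hx => ht x hx) isAlgebraic_one (fun x y _ _ h1 h2 => h1.add h2)
    (fun x _ h => h.neg) (fun x _ h => h.inv) (fun x y _ _ h1 h2 => h1.mul h2) hx

private theorem mem_closure_of_mem {K : Subfield ℂ} {s : Set ℂ} {x : ℂ} (hx : x ∈ s) :
    x ∈ (AlgebraicIndependent.matroid K ℂ).closure s :=
  Matroid.mem_closure_of_mem' _ hx (by simp)

private theorem mem_closure_of_base {K : Subfield ℂ} {s : Set ℂ} {x : ℂ} (hx : x ∈ K) :
    x ∈ (AlgebraicIndependent.matroid K ℂ).closure s := by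
  simp only [AlgebraicIndependent.matroid_closure_eq, SetLike.mem_coe, Subalgebra.mem_algebraicClosure]
  exact isAlgebraic_algebraMap
    (⟨x, (Algebra.adjoin K s).algebraMap_mem ⟨x, hx⟩⟩ : Algebra.adjoin K s)

/-- **transcendence degrees**: if the independent numbers `g α`, `α ∈ ι`, lie in the field generated
by `K`, the numbers `v j` and the `g α`, `α ∈ A`, where `A` has `r` elements less than `ι`, then `r`
of the numbers `v j` are algebraically independent over `K`.

Proof. Let `s` be the set of the `v j` and the `g α`, `α ∈ A`. There is a maximal algebraically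
independent subset `B ⊆ s` over `K` (`exists_isTranscendenceBasis_subset` or similar); all elements
of `s` are algebraic over `K(B)`, so all `g α` are, and `#ι ≤ #B` (transcendence degree). `B`
contains at most `#A = #ι - r` elements outside the range of `v`, so at least `r` elements in the
range of `v`. -/
theorem exists_indep_of_closure {K : Subfield ℂ} {ι κ : Type} [Finite ι] [Finite κ] {g : ι → ℂ}
    (hg : AlgebraicIndependent K g) {v : κ → ℂ} {A : Set ι} {r : ℕ}
    (hA : Nat.card A + r = Nat.card ι)
    (h : ∀ α, g α ∈ Subfield.closure (((Subfield.closure ((K : Set ℂ) ∪ Set.range v) :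
      Subfield ℂ) : Set ℂ) ∪ g '' A)) :
    ∃ i : Fin r → κ, AlgebraicIndependent K (fun t => v (i t)) := by
  classical
  obtain ⟨s, hs⟩ : ∃ s : Set ℂ, s = Set.range v ∪ g '' A := ⟨_, rfl⟩
  have hgi : Function.Injective g := hg.injective
  have hsub : Set.range g ⊆ (AlgebraicIndependent.matroid K ℂ).closure s := by
    rintro _ ⟨α, rfl⟩
    refine mem_closure_of_subfield ?_ (h α)
    rintro x (hx | hx)
    · refine mem_closure_of_subfield ?_ hx
      rintro y (hy | hy)
      · exact mem_closure_of_base hy
      · exact mem_closure_of_mem (by rw [hs]; exact Or.inl hy)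
    · exact mem_closure_of_mem (by rw [hs]; exact Or.inr hx)
  obtain ⟨B, hB⟩ := (AlgebraicIndependent.matroid K ℂ).exists_isBasis s (by simp)
  have hind : (AlgebraicIndependent.matroid K ℂ).Indep (Set.range g) :=
    AlgebraicIndependent.matroid_indep_iff.2 hg.to_subtype_range
  have h1 : (Set.range g).encard ≤ B.encard := by
    rw [← hind.eRk_eq_encard, ← hB.eRk_eq_encard,
      ← (AlgebraicIndependent.matroid K ℂ).eRk_closure_eq s]
    exact (AlgebraicIndependent.matroid K ℂ).eRk_mono hsub
  have hBs : B ⊆ Set.range v ∪ g '' A := by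
    rw [← hs]
    exact hB.subset
  have hfin : (Set.range v ∪ g '' A).Finite := (Set.finite_range v).union (Set.toFinite _)
  have hBf : B.Finite := hfin.subset hBs
  have h2 : Nat.card ι ≤ B.ncard := by
    have h3 : (Set.range g).ncard = Nat.card ι := by
      rw [← Nat.card_coe_set_eq, Nat.card_range_of_injective hgi]
    rw [← h3]
    have h4 := h1
    rw [← (Set.finite_range g).cast_ncard_eq, ← hBf.cast_ncard_eq] at h4
    exact_mod_cast h4
  have h3 : B.ncard ≤ (B ∩ Set.range v).ncard + Nat.card A := by
    have h4 : B ⊆ (B ∩ Set.range v) ∪ g '' A := by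
      intro x hx
      rcases hBs hx with h5 | h5
      · exact Or.inl ⟨hx, h5⟩
      · exact Or.inr h5
    refine (Set.ncard_le_ncard h4 ((hBf.subset Set.inter_subset_left).union
      (Set.toFinite _))).trans ((Set.ncard_union_le _ _).trans ?_)
    refine Nat.add_le_add_left ?_ _
    rw [Nat.card_coe_set_eq]
    exact Set.ncard_image_le (Set.toFinite A)
  have h4 : r ≤ (B ∩ Set.range v).ncard := by omega
  obtain ⟨C, hC⟩ : ∃ C, C = B ∩ Set.range v := ⟨_, rfl⟩
  rw [← hC] at h4
  have hCf : C.Finite := by
    rw [hC]
    exact hBf.subset Set.inter_subset_left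
  have : Fintype C := hCf.fintype
  have h5 : Fintype.card (Fin r) ≤ Fintype.card C := by
    rw [Fintype.card_fin, ← Nat.card_eq_fintype_card, Nat.card_coe_set_eq]
    exact h4
  obtain ⟨e⟩ := Function.Embedding.nonempty_of_card_le h5
  have h6 : ∀ t : Fin r, ∃ j, v j = (e t : ℂ) := by
    intro t
    have h7 : ∀ x ∈ C, x ∈ Set.range v := by
      rw [hC]
      exact fun x hx => hx.2
    exact h7 _ (e t).2
  choose i hi using h6
  refine ⟨i, ?_⟩
  have h7 : AlgebraicIndepOn K id C := by
    have h8 : (AlgebraicIndependent.matroid K ℂ).Indep C := by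
      rw [hC]
      exact hB.indep.subset Set.inter_subset_left
    exact AlgebraicIndependent.matroid_indep_iff.1 h8
  have h9 := AlgebraicIndependent.comp h7 e e.injective
  have h10 : (fun t => v (i t)) = (fun x : C => id (x : ℂ)) ∘ e := by
    funext t
    exact hi t
  rw [h10]
  exact h9

end Pool.Agent.Lib.MP_ed661f_ag.V
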