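import Pool.Agent.Lib.MP_ed661f_ag.V.TanA
import Pool.Agent.Lib.MP_ed661f_ag.V.TanB
import Pool.Agent.Lib.MP_ed661f_ag.V.TanC
import Pool.Agent.Lib.MP_ed661f_ag.V.TanE
import Pool.Agent.Lib.MP_ed661f_ag.V.TanF

/-!
Bertini's theorem: very general sections of smooth threefolds are smooth.
-/

set_option autoImplicit false

open MvPolynomial

namespace Pool.Agent.Lib.MP_ed661f_ag.V

open Pool.Agent.Lib.MP_ed661f_ag.H

/-- the exponents of degree `m` are finitely many -/
private theorem tg_finite (N m : ℕ) : Finite {α : Fin (N + 1) →₀ ℕ // α.degree = m} := by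
  refine Finite.of_injective (fun α : {α : Fin (N + 1) →₀ ℕ // α.degree = m} =>
    fun j : Fin (N + 1) => (⟨α.1 j, by
      have h := Finsupp.le_degree j α.1
      rw [α.2] at h
      omega⟩ : Fin (m + 1))) ?_
  intro α β h
  apply Subtype.ext
  ext j
  have h1 := congrFun h j
  exact (Fin.mk.injEq _ _ _ _).mp h1

/-- the zeros of a homogeneous ideal are closed under multiples -/
private theorem tg_zero {N : ℕ} {I : Ideal (Poly N)}
    (hh : ∀ F ∈ I, ∀ k, homogeneousComponent k F ∈ I) (c : ℂ) {v : Fin (N + 1) → ℂ}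
    (hv : ∀ F ∈ I, eval v F = 0) : ∀ F ∈ I, eval (c • v) F = 0 := by
  intro F hF
  rw [← sum_homogeneousComponent F, map_sum]
  refine Finset.sum_eq_zero fun k _ => ?_
  have h1 : (homogeneousComponent k F).IsHomogeneous k := homogeneousComponent_isHomogeneous k F
  have h2 : eval (c • v) (homogeneousComponent k F) = c ^ k * eval v (homogeneousComponent k F) := by
    rw [eval_eq, eval_eq, Finset.mul_sum]
    refine Finset.sum_congr rfl fun d hd => ?_
    have h3 : d.degree = k := by
      have h6 := h1 (mem_support_iff.1 hd)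
      have h7 : d.degree = Finsupp.weight (fun _ : Fin (N + 1) => 1) d :=
        congrFun (congrArg DFunLike.coe (Finsupp.degree_eq_weight_one (R := ℕ))) d
      rw [h7]
      exact h6
    have h4 : ∏ i ∈ d.support, (c • v) i ^ d i = c ^ k * ∏ i ∈ d.support, v i ^ d i := by
      have h5 : ∀ i ∈ d.support, (c • v) i ^ d i = c ^ d i * v i ^ d i := fun i _ => by
        rw [Pi.smul_apply, smul_eq_mul, mul_pow]
      rw [Finset.prod_congr rfl h5, Finset.prod_mul_distrib, Finset.prod_pow_eq_pow_sum]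
      rw [← h3]
      rfl
    rw [h4]
    ring
  rw [h2, hv _ (hh F hF k), mul_zero]

/-- **Bertini's theorem**.

Proof. Let `v ≠ 0` be a zero of `J = (I ⊔ (G)).radical`; suppose that `tang J v` has dimension at
least `4`. `tang J v ≤ tang I v`, of dimension at most `4`, so they are equal, and the derivatives
of `G` at `v` in the directions of `tang I v` vanish (`G ∈ J`). Dividing `v` by one of its
coordinates we may assume `v j0 = 1` (`tang_smul`, `grad_smul`; the zeros of `I` are closed under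
multiples). Let `K1 = Subfield.closure (K ∪ range v)`, and `u` a basis of `tang I v` over `K1`
(`exists_basis_tang`). `exists_small` and `exists_indep_of_closure` (for the coefficients of `G`,
`r = 4`) give four coordinates of `v` which are algebraically independent over `K`, contrary to
`not_indep_four` and `exists_form_five` (for the indices `Fin.cons j0 i`). -/
theorem smooth_section {N m : ℕ} (hm : 1 ≤ m) {I : Ideal (Poly N)} (hI : IsThreefold I)
    {K : Subfield ℂ} (hK : DefinedOver K I) (hs : IsSmooth 3 I) {G : Poly N}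
    (hG : VeryGeneralOver K m G) : IsSmooth 2 (I ⊔ Ideal.span {G}).radical := by
  intro v hv0 hvJ
  by_contra hcon
  have hIJ : I ≤ (I ⊔ Ideal.span {G}).radical := le_sup_left.trans Ideal.le_radical
  have hGJ : G ∈ (I ⊔ Ideal.span {G}).radical :=
    Ideal.le_radical (Ideal.mem_sup_right (Ideal.mem_span_singleton_self G))
  have hvI : ∀ F ∈ I, eval v F = 0 := fun F hF => hvJ F (hIJ hF)
  have h1 := hs v hv0 hvI
  have hle := tang_anti hIJ v
  have h2 : Module.finrank ℂ (tang I v) ≤
      Module.finrank ℂ (tang (I ⊔ Ideal.span {G}).radical v) := by omega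
  have heq := Submodule.eq_of_le_of_finrank_le hle h2
  have h3 : Module.finrank ℂ (tang I v) = 4 := by
    rw [heq] at hcon
    omega
  obtain ⟨j0, hj0⟩ : ∃ j0, v j0 ≠ 0 := by
    by_contra h
    push Not at h
    exact hv0 (funext h)
  obtain ⟨c, hc⟩ : ∃ c : ℂ, c = (v j0)⁻¹ := ⟨_, rfl⟩
  have hc0 : c ≠ 0 := by
    rw [hc]
    exact inv_ne_zero hj0
  obtain ⟨w, hw⟩ : ∃ w : Fin (N + 1) → ℂ, w = c • v := ⟨_, rfl⟩
  have hw0 : w j0 = 1 := by
    rw [hw, Pi.smul_apply, smul_eq_mul, hc, inv_mul_cancel₀ hj0]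
  have hwI : ∀ F ∈ I, eval w F = 0 := by
    rw [hw]
    exact tg_zero hI.homogeneous c hvI
  have htw : tang I w = tang I v := by
    rw [hw]
    exact tang_smul hI.homogeneous hc0 v
  have hgrad : ∀ u ∈ tang I w, ∑ j, u j * eval w (pderiv j G) = 0 := by
    intro u hu
    rw [htw, ← heq] at hu
    rw [hw, grad_smul hG.1, mem_tang.1 hu G hGJ, mul_zero]
  have h4 : Module.finrank ℂ (tang I w) = 4 := by rw [htw, h3]
  obtain ⟨K1, hK1⟩ : ∃ K1 : Subfield ℂ, K1 = Subfield.closure ((K : Set ℂ) ∪ Set.range w) :=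
    ⟨_, rfl⟩
  have hKK1 : K ≤ K1 := by
    rw [hK1]
    intro x hx
    exact Subfield.subset_closure (Or.inl hx)
  have hwK : ∀ j, w j ∈ K1 := by
    rw [hK1]
    intro j
    exact Subfield.subset_closure (Or.inr ⟨j, rfl⟩)
  obtain ⟨u, hu1, hu2, hu3⟩ := exists_basis_tang hKK1 hK hwK hwI
  obtain ⟨A, hA1, hA2⟩ := exists_small hm hwK hw0 hu1 hu3 hG.1 fun i => hgrad (u i) (hu2 i)
  have hfin := tg_finite N m
  rw [hK1] at hA2
  rw [h4] at hA1
  obtain ⟨i, hi⟩ := exists_indep_of_closure hG.2 hA1 hA2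
  obtain ⟨k, R, hR, hR0, hRI⟩ := exists_form_five hI (Fin.cons j0 i)
  exact not_indep_four hK hR hR0 hRI hwI hw0 hi

end Pool.Agent.Lib.MP_ed661f_ag.V
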