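import Pool.Agent.Lib.MP_ed661f_ag.V.Final
import Pool.Agent.Lib.MP_ed661f_ag.V.TanG

/-!
The complete statement for the very general surfaces in arbitrary threefolds.
-/

set_option autoImplicit false

open MvPolynomial
open scoped ENNReal

namespace Pool.Agent.Lib.MP_ed661f_ag.V

open Pool.Agent.Lib.MP_ed661f_ag.H Pool.Agent.Lib.MP_ed661f_ag.S

/-- the form `G` of degree `m` is very general for the threefold with ideal `W`: its coefficients
are algebraically independent over a countable field over which the threefold is defined -/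
def VeryGeneralOn {N : ℕ} (W : Ideal (Poly N)) (m : ℕ) (G : Poly N) : Prop :=
  ∃ K : Subfield ℂ, (K : Set ℂ).Countable ∧ DefinedOver K W ∧ VeryGeneralOver K m G

/-- the homogeneous ideal of the surface which is cut out by the form `G` -/
noncomputable def cutBy {N : ℕ} (W : Ideal (Poly N)) (G : Poly N) : Ideal (Poly N) :=
  (W ⊔ Ideal.span {G}).radical

theorem concl {N : ℕ} (W : Ideal (Poly N)) (hW : IsThreefold W) :
    ∃ e : ℕ, 1 ≤ e ∧ threeDeg W = e ∧ ∀ μ : ℕ, 6 ≤ μ →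
      (∃ G : Poly N, VeryGeneralOn W (e * μ) G) ∧
      ∀ G : Poly N, VeryGeneralOn W (e * μ) G →
        IsSurface (cutBy W G) ∧
        (IsSmooth 3 W → IsSmooth 2 (cutBy W G)) ∧
        surfDeg (cutBy W G) = ((e * (e * μ) : ℕ) : ℝ≥0∞) ∧
        ∀ n : ℕ, 1 ≤ n → eps (cutBy W G) n =
          ENNReal.ofReal (Real.sqrt (((e * (e * μ) : ℕ) : ℝ) / n)) := by
  obtain ⟨e, he, hdeg⟩ := exists_threeDeg hW
  refine ⟨e, he, hdeg, fun μ hμ => ⟨?_, ?_⟩⟩
  · obtain ⟨K, hKc, hK, G, hG⟩ := nonvacuous W (e * μ)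
    exact ⟨G, K, hKc, hK, hG⟩
  · rintro G ⟨K, hKc, hK, hG⟩
    obtain ⟨h1, h2, h3⟩ := main hW hdeg hKc hK hμ hG
    exact ⟨h1, fun hs => smooth_section (Nat.mul_pos he (by omega)) hW hK hs hG, h2, h3⟩

end Pool.Agent.Lib.MP_ed661f_ag.V
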