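import Pool.Agent.Lib.MP_ed661f_ag.V.Van

/-!
From the order of vanishing on a parametrised germ to membership in an ideal.
-/

set_option autoImplicit false

open MvPolynomial

namespace Pool.Agent.Lib.MP_ed661f_ag.V

open Pool.Agent.Lib.MP_ed661f_ag.H

private theorem conv_mul {R : Type} [CommRing R] {𝔞 𝔪 : Ideal R} {i j k : ℕ} (hk : k = i + j)
    {p q : R} (hp : p ∈ 𝔞 ⊔ 𝔪 ^ i) (hq : q ∈ 𝔪 ^ j) : p * q ∈ 𝔞 ⊔ 𝔪 ^ k := by
  obtain ⟨a, ha, b, hb, rfl⟩ := Submodule.mem_sup.1 hp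
  rw [add_mul, hk, pow_add]
  exact Submodule.add_mem_sup (𝔞.mul_mem_right q ha) (Ideal.mul_mem_mul hb hq)

private theorem conv_lin {R : Type} [CommRing R] [Algebra ℂ R] {𝔞 𝔪 : Ideal R} {x y : R}
    (hx : x ∈ 𝔪) (hy : y ∈ 𝔪) (hm : 𝔪 ≤ Ideal.span {x, y} ⊔ 𝔪 ^ 2 ⊔ 𝔞)
    (hres : ∀ r : R, ∃ c : ℂ, r - algebraMap ℂ R c ∈ 𝔪) {v : R} (hv : v ∈ 𝔪) :
    ∃ a b : ℂ, v - (algebraMap ℂ R a * x + algebraMap ℂ R b * y) ∈ 𝔞 ⊔ 𝔪 ^ 2 := by
  obtain ⟨p, hp, a, ha, rfl⟩ := Submodule.mem_sup.1 (hm hv)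
  obtain ⟨q, hq, s, hs, rfl⟩ := Submodule.mem_sup.1 hp
  obtain ⟨α, β, rfl⟩ := Ideal.mem_span_pair.1 hq
  obtain ⟨c, hc⟩ := hres α
  obtain ⟨e, he⟩ := hres β
  refine ⟨c, e, ?_⟩
  have h1 : (α - algebraMap ℂ R c) * x ∈ 𝔪 ^ 2 := by
    rw [pow_two]; exact Ideal.mul_mem_mul hc hx
  have h2 : (β - algebraMap ℂ R e) * y ∈ 𝔪 ^ 2 := by
    rw [pow_two]; exact Ideal.mul_mem_mul he hy
  have h3 := Submodule.add_mem_sup ha (add_mem (add_mem h1 h2) hs)
  have h4 : α * x + β * y + s + a - (algebraMap ℂ R c * x + algebraMap ℂ R e * y) =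
      a + ((α - algebraMap ℂ R c) * x + (β - algebraMap ℂ R e) * y + s) := by ring
  rw [h4]
  exact h3

private theorem conv_hom {R : Type} [CommRing R] [Algebra ℂ R] {𝔞 𝔪 : Ideal R} {x y : R}
    (hx : x ∈ 𝔪) (hy : y ∈ 𝔪) (hm : 𝔪 ≤ Ideal.span {x, y} ⊔ 𝔪 ^ 2 ⊔ 𝔞)
    (hres : ∀ r : R, ∃ c : ℂ, r - algebraMap ℂ R c ∈ 𝔪) (w : ℕ) : ∀ u ∈ 𝔪 ^ w,
    ∃ g : MvPolynomial (Fin 2) ℂ, g.IsHomogeneous w ∧ u - aeval ![x, y] g ∈ 𝔞 ⊔ 𝔪 ^ (w + 1) := by
  induction w with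
  | zero =>
    intro u _
    obtain ⟨c, hc⟩ := hres u
    refine ⟨C c, isHomogeneous_C _ _, ?_⟩
    rw [aeval_C, zero_add, pow_one]
    exact Submodule.mem_sup_right hc
  | succ w ih =>
    intro u hu
    rw [pow_succ] at hu
    refine Submodule.mul_induction_on hu ?_ ?_
    · intro u hu v hv
      obtain ⟨g, hg, hg1⟩ := ih u hu
      obtain ⟨a, b, hab⟩ := conv_lin hx hy hm hres hv
      refine ⟨g * (C a * X 0 + C b * X 1), hg.mul ?_, ?_⟩
      · refine IsHomogeneous.add ?_ ?_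
        · exact (isHomogeneous_X ℂ (0 : Fin 2)).C_mul a
        · exact (isHomogeneous_X ℂ (1 : Fin 2)).C_mul b
      · have hl : algebraMap ℂ R a * x + algebraMap ℂ R b * y ∈ 𝔪 ^ 1 := by
          rw [pow_one]
          exact add_mem (𝔪.mul_mem_left _ hx) (𝔪.mul_mem_left _ hy)
        have h1 := conv_mul (k := w + 1 + 1) (by ring) hab hu
        have h2 := conv_mul (k := w + 1 + 1) (by ring) hg1 hl
        have h3 := add_mem h1 h2
        have h4 : aeval ![x, y] (g * (C a * X 0 + C b * X 1)) =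
            aeval ![x, y] g * (algebraMap ℂ R a * x + algebraMap ℂ R b * y) := by
          simp
        rw [h4]
        have h5 : u * v - aeval ![x, y] g * (algebraMap ℂ R a * x + algebraMap ℂ R b * y) =
            (v - (algebraMap ℂ R a * x + algebraMap ℂ R b * y)) * u +
            (u - aeval ![x, y] g) * (algebraMap ℂ R a * x + algebraMap ℂ R b * y) := by ring
        rw [h5]
        exact h3
    · rintro u v ⟨g, hg, hg1⟩ ⟨g', hg', hg1'⟩
      refine ⟨g + g', hg.add hg', ?_⟩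
      have h5 : u + v - aeval ![x, y] (g + g') =
          (u - aeval ![x, y] g) + (v - aeval ![x, y] g') := by
        rw [map_add]; ring
      rw [h5]
      exact add_mem hg1 hg1'

private theorem conv_poly {R : Type} [CommRing R] [Algebra ℂ R] {𝔞 𝔪 : Ideal R} {x y : R}
    (hx : x ∈ 𝔪) (hy : y ∈ 𝔪) (hm : 𝔪 ≤ Ideal.span {x, y} ⊔ 𝔪 ^ 2 ⊔ 𝔞)
    (hres : ∀ r : R, ∃ c : ℂ, r - algebraMap ℂ R c ∈ 𝔪) (r : R) (w : ℕ) :
    ∃ h : MvPolynomial (Fin 2) ℂ, (∀ d, w ≤ d.degree → coeff d h = 0) ∧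
      r - aeval ![x, y] h ∈ 𝔞 ⊔ 𝔪 ^ w := by
  induction w with
  | zero =>
    refine ⟨0, fun d _ => coeff_zero d, ?_⟩
    rw [pow_zero, Ideal.one_eq_top, sup_top_eq]
    trivial
  | succ w ih =>
    obtain ⟨h, hh, hr⟩ := ih
    obtain ⟨a, ha, b, hb, hab⟩ := Submodule.mem_sup.1 hr
    obtain ⟨g, hg, hg1⟩ := conv_hom hx hy hm hres w b hb
    refine ⟨h + g, fun d hd => ?_, ?_⟩
    · rw [coeff_add, hh d (by omega), zero_add]
      by_contra hne
      have h1 := hg hne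
      have h2 : d.degree = w := by
        rw [← h1, Finsupp.degree_eq_weight_one]
        rfl
      omega
    · have h1 := add_mem (Submodule.mem_sup_left ha : a ∈ 𝔞 ⊔ 𝔪 ^ (w + 1)) hg1
      have h2 : r - aeval ![x, y] (h + g) = a + (b - aeval ![x, y] g) := by
        rw [map_add, ← sub_sub, ← hab]
        ring
      rw [h2]
      exact h1

/-- **the order on a germ and the powers of the maximal ideal**.

Proof. Claim: for all `w` and `r` there is a polynomial `h` in two variables over `ℂ`, all of whose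
exponents have degree smaller than `w`, with `r - h(x, y) ∈ 𝔞 ⊔ 𝔪 ^ w`. Induction on `w`: for
`w = 0` take `h = 0`. Step: from `hm` one gets `𝔪 ^ w ≤ (x, y) ^ w ⊔ 𝔪 ^ (w + 1) ⊔ 𝔞` (the ideal
`𝔪 = (x, y) + 𝔪 ^ 2 + 𝔞` modulo `𝔞`, multiply out), so `r - h(x, y)` is congruent, modulo
`𝔞 ⊔ 𝔪 ^ (w + 1)`, to `∑ r_d x ^ (d 0) y ^ (d 1)` over the `d` with `d.degree = w`; replace `r_d` by
a constant `c_d` with `r_d - c_d ∈ 𝔪` (`hres`). Now apply `φ`: `φ h(x, y) = h(S, T)`, `φ r` and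
`φ (r - h(x, y))` have no coefficients of degree smaller than `w` (`φ 𝔞 = 0`, and `φ (𝔪 ^ w)` is
contained in the ideal `vanIdeal ℂ w`, by `hφm` and `vanIdeal_pow_le`), so `h = 0`. -/
theorem conv {R : Type} [CommRing R] [Algebra ℂ R] {𝔞 𝔪 : Ideal R} {x y : R} (hx : x ∈ 𝔪)
    (hy : y ∈ 𝔪) (hm : 𝔪 ≤ Ideal.span {x, y} ⊔ 𝔪 ^ 2 ⊔ 𝔞)
    (hres : ∀ r : R, ∃ c : ℂ, r - algebraMap ℂ R c ∈ 𝔪)
    {φ : R →ₐ[ℂ] MvPowerSeries (Fin 2) ℂ} (ha : ∀ r ∈ 𝔞, φ r = 0)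
    (hφm : ∀ r ∈ 𝔪, MvPowerSeries.constantCoeff (φ r) = 0) (hφx : φ x = MvPowerSeries.X 0)
    (hφy : φ y = MvPowerSeries.X 1) {w : ℕ} {r : R} (hr : Van w (φ r)) : r ∈ 𝔞 ⊔ 𝔪 ^ w := by
  obtain ⟨h, hh, hrh⟩ := conv_poly hx hy hm hres r w
  have key : 𝔞 ⊔ 𝔪 ^ w ≤
      (vanIdeal ℂ w).comap (φ : R →+* MvPowerSeries (Fin 2) ℂ) := by
    refine sup_le ?_ ?_
    · intro F hF
      rw [Ideal.mem_comap]
      change Van w (φ F)
      rw [ha F hF]
      exact van_zero w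
    · rw [← Ideal.map_le_iff_le_comap, Ideal.map_pow]
      refine le_trans (Ideal.pow_right_mono ?_ w) (vanIdeal_pow_le ℂ w)
      rw [Ideal.map_le_iff_le_comap]
      intro F hF
      rw [Ideal.mem_comap]
      change Van 1 (φ F)
      rw [van_one_iff]
      exact hφm F hF
  have h1 : Van w (φ (r - aeval ![x, y] h)) := key hrh
  have h2 : Van w (φ (aeval ![x, y] h)) := by
    have h3 := hr.sub h1
    rw [← map_sub, sub_sub_cancel] at h3
    exact h3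
  have h4 : φ (aeval ![x, y] h) = (h : MvPowerSeries (Fin 2) ℂ) := by
    have h5 : φ.comp (aeval ![x, y]) = MvPolynomial.coeToMvPowerSeries.algHom ℂ := by
      refine MvPolynomial.algHom_ext fun i => ?_
      rw [AlgHom.comp_apply, aeval_X, MvPolynomial.coeToMvPowerSeries.algHom_apply]
      fin_cases i
      · simpa using hφx
      · simpa using hφy
    have h6 := DFunLike.congr_fun h5 h
    rw [AlgHom.comp_apply, MvPolynomial.coeToMvPowerSeries.algHom_apply] at h6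
    simpa using h6
  have h7 : h = 0 := by
    ext d
    rw [coeff_zero]
    rcases lt_or_ge d.degree w with hd | hd
    · have h8 := h2 d hd
      rw [h4, MvPolynomial.coeff_coe] at h8
      exact h8
    · exact hh d hd
  rw [h7, map_zero, sub_zero] at hrh
  exact hrh

end Pool.Agent.Lib.MP_ed661f_ag.V
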