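import Pool.Agent.Lib.MP_ed661f_ag.V.Conv

/-!
From the order of vanishing on a parametrised germ to membership in an ideal: surfaces in the
spaces of dimension three and four.
-/

set_option autoImplicit false

open MvPolynomial

namespace Pool.Agent.Lib.MP_ed661f_ag.V

open Pool.Agent.Lib.MP_ed661f_ag.H

private theorem convP_mem {N : ℕ} (v : Fin (N + 1) → ℂ) (F : Poly N) :
    F - C (eval v F) ∈ vecIdeal v := by
  change eval v (F - C (eval v F)) = 0
  rw [map_sub, eval_C, sub_self]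

private theorem convP_X {N : ℕ} (v : Fin (N + 1) → ℂ) (j : Fin (N + 1)) :
    (X j - C (v j) : Poly N) ∈ vecIdeal v := by
  have h := convP_mem v (X j)
  rwa [eval_X] at h

/-- Taylor's formula -/
private theorem convP_taylor {N : ℕ} (v : Fin (N + 1) → ℂ) (F : Poly N) :
    F - C (eval v F) - ∑ j, C (eval v (pderiv j F)) * (X j - C (v j)) ∈ vecIdeal v ^ 2 := by
  classical
  induction F using MvPolynomial.induction_on with
  | C c =>
    simp only [eval_C, pderiv_C, map_zero, zero_mul, Finset.sum_const_zero, sub_self]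
    exact Ideal.zero_mem _
  | add F G hF hG =>
    have h := Ideal.add_mem _ hF hG
    refine (congrArg (· ∈ vecIdeal v ^ 2) ?_).mp h
    simp only [map_add, add_mul, Finset.sum_add_distrib]
    ring
  | mul_X F i hF =>
    have h1 : (F - C (eval v F)) * (X i - C (v i)) ∈ vecIdeal v ^ 2 := by
      rw [pow_two]
      exact Ideal.mul_mem_mul (convP_mem v F) (convP_X v i)
    have h2 := Ideal.add_mem _ (Ideal.mul_mem_left _ (C (v i)) hF) h1
    refine (congrArg (· ∈ vecIdeal v ^ 2) ?_).mp h2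
    have h3 : ∀ j, C (eval v (pderiv j (F * X i))) * (X j - C (v j)) =
        C (v i) * (C (eval v (pderiv j F)) * (X j - C (v j))) +
          (if j = i then C (eval v F) * (X i - C (v i)) else 0 : Poly N) := by
      intro j
      rw [Derivation.leibniz, pderiv_X, smul_eq_mul, smul_eq_mul, map_add, map_mul, map_mul, eval_X]
      by_cases hji : j = i
      · subst hji
        rw [Pi.single_eq_same, if_pos rfl, map_one, mul_one]
        simp only [map_add, map_mul]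
        ring
      · rw [Pi.single_eq_of_ne (Ne.symm hji), if_neg hji, map_zero, mul_zero]
        simp only [map_add, map_mul, map_zero]
        ring
    rw [Finset.sum_congr rfl fun j _ => h3 j, Finset.sum_add_distrib, ← Finset.mul_sum,
      Finset.sum_ite_eq' Finset.univ i, if_pos (Finset.mem_univ _), map_mul, eval_X, map_mul]
    ring

private theorem convP_last {N : ℕ} {v : Fin (N + 1) → ℂ} {J : Ideal (Poly N)}
    (hJ : vecIdeal v ^ 2 ≤ J) {H : Poly N} (hH : H ∈ J) (hv : eval v H = 0) {k : Fin (N + 1)}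
    (hk : eval v (pderiv k H) ≠ 0)
    (h : ∀ j, j ≠ k → C (eval v (pderiv j H)) * (X j - C (v j)) ∈ J) :
    (X k - C (v k) : Poly N) ∈ J := by
  classical
  have h1 := hJ (convP_taylor v H)
  rw [hv, map_zero, sub_zero] at h1
  have h2 : ∑ j, C (eval v (pderiv j H)) * (X j - C (v j)) ∈ J := by
    have := Ideal.sub_mem _ hH h1
    rwa [sub_sub_cancel] at this
  rw [← Finset.add_sum_erase _ _ (Finset.mem_univ k)] at h2
  have h3 : ∑ j ∈ Finset.univ.erase k, C (eval v (pderiv j H)) * (X j - C (v j)) ∈ J :=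
    Ideal.sum_mem _ fun j hj => h j (Finset.ne_of_mem_erase hj)
  have h4 := (Ideal.add_mem_iff_left J h3).1 h2
  have h5 := Ideal.mul_mem_left J (C (eval v (pderiv k H))⁻¹) h4
  rwa [← mul_assoc, ← map_mul, inv_mul_cancel₀ hk, map_one, one_mul] at h5

private theorem convP_hm {N : ℕ} {v : Fin (N + 1) → ℂ} {J : Ideal (Poly N)}
    (hJ : vecIdeal v ^ 2 ≤ J) (h : ∀ j, (X j - C (v j) : Poly N) ∈ J) : vecIdeal v ≤ J := by
  intro r hr
  have hr' : eval v r = 0 := hr
  have h1 := hJ (convP_taylor v r)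
  rw [hr', map_zero, sub_zero] at h1
  have h2 : ∑ j, C (eval v (pderiv j r)) * (X j - C (v j)) ∈ J :=
    Ideal.sum_mem _ fun j _ => Ideal.mul_mem_left _ _ (h j)
  have := Ideal.add_mem _ h1 h2
  rwa [sub_add_cancel] at this

private theorem convP_phi {N : ℕ} (φ : Poly N →ₐ[ℂ] MvPowerSeries (Fin 2) ℂ) (c : ℂ) :
    φ (C c) = MvPowerSeries.C c := φ.commutes c

/-- the surface `F = 0` in the space of dimension three, near a point where `∂F/∂x₃ ≠ 0`.

Proof. `conv` with `𝔪 = vecIdeal v`, `𝔞 = Ideal.span {F} ⊔ Ideal.span {X 0 - 1}`,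
`x = X 1 - C (v 1)`, `y = X 2 - C (v 2)`. The hypothesis `hm`: `𝔪` is generated by the
`X j - C (v j)`; for `j = 0` this is in `𝔞` (`v 0 = 1`), and Taylor's formula
`F = ∑ F_j(v) (X j - C (v j))` modulo `𝔪 ^ 2` (as `eval v F = 0`) with `F_3(v) ≠ 0` gives
`X 3 - C (v 3) ∈ (x, y) ⊔ 𝔪 ^ 2 ⊔ 𝔞`. -/
theorem conv_P3 {F : Poly 3} {v : Fin 4 → ℂ} (h0 : v 0 = 1) (hF : eval v F = 0)
    (h3 : eval v (pderiv 3 F) ≠ 0) {φ : Poly 3 →ₐ[ℂ] MvPowerSeries (Fin 2) ℂ} (φF : φ F = 0)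
    (φc : ∀ Q, MvPowerSeries.constantCoeff (φ Q) = eval v Q) (φ0 : φ (X 0) = 1)
    (φ1 : φ (X 1) = MvPowerSeries.C (v 1) + MvPowerSeries.X 0)
    (φ2 : φ (X 2) = MvPowerSeries.C (v 2) + MvPowerSeries.X 1) {w : ℕ} {Q : Poly 3}
    (hQ : Van w (φ Q)) :
    Q ∈ Ideal.span {F} ⊔ vecIdeal v ^ w ⊔ Ideal.span {X 0 - 1} := by
  set 𝔞 : Ideal (Poly 3) := Ideal.span {F} ⊔ Ideal.span {X 0 - 1} with h𝔞
  set J : Ideal (Poly 3) := Ideal.span {X 1 - C (v 1), X 2 - C (v 2)} ⊔ vecIdeal v ^ 2 ⊔ 𝔞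
    with hJ
  have hJ2 : vecIdeal v ^ 2 ≤ J := le_sup_of_le_left le_sup_right
  have hJa : 𝔞 ≤ J := le_sup_right
  have hFa : F ∈ 𝔞 := Ideal.mem_sup_left (Ideal.subset_span rfl)
  have h0a : (X 0 - 1 : Poly 3) ∈ 𝔞 := Ideal.mem_sup_right (Ideal.subset_span rfl)
  have e0 : (X 0 - C (v 0) : Poly 3) ∈ J := by
    rw [h0, map_one]
    exact hJa h0a
  have e1 : (X 1 - C (v 1) : Poly 3) ∈ J :=
    Ideal.mem_sup_left (Ideal.mem_sup_left (Ideal.subset_span (Or.inl rfl)))
  have e2 : (X 2 - C (v 2) : Poly 3) ∈ J :=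
    Ideal.mem_sup_left (Ideal.mem_sup_left (Ideal.subset_span (Or.inr rfl)))
  have e3 : (X 3 - C (v 3) : Poly 3) ∈ J := by
    refine convP_last hJ2 (hJa hFa) hF h3 fun j hj => Ideal.mul_mem_left _ _ ?_
    fin_cases j
    · exact e0
    · exact e1
    · exact e2
    · exact absurd rfl hj
  have hm : vecIdeal v ≤ J := convP_hm hJ2 fun j => by
    fin_cases j
    · exact e0
    · exact e1
    · exact e2
    · exact e3
  have key := conv (𝔞 := 𝔞) (𝔪 := vecIdeal v) (x := X 1 - C (v 1)) (y := X 2 - C (v 2))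
    (convP_X v 1) (convP_X v 2) hm (fun r => ⟨eval v r, convP_mem v r⟩) (φ := φ)
    (fun r hr => by
      have : 𝔞 ≤ RingHom.ker φ := by
        refine sup_le ?_ ?_
        · rw [Ideal.span_singleton_le_iff_mem]
          exact φF
        · rw [Ideal.span_singleton_le_iff_mem, RingHom.mem_ker, map_sub, map_one, φ0, sub_self]
      exact this hr)
    (fun r hr => (φc r).trans hr)
    (by rw [map_sub, φ1, convP_phi, add_sub_cancel_left])
    (by rw [map_sub, φ2, convP_phi, add_sub_cancel_left]) hQ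
  have h : 𝔞 ⊔ vecIdeal v ^ w = Ideal.span {F} ⊔ vecIdeal v ^ w ⊔ Ideal.span {X 0 - 1} := by
    rw [h𝔞, sup_assoc, sup_comm (Ideal.span {X 0 - 1}), ← sup_assoc]
  rwa [h] at key

/-- the surface `P = G = 0` in the space of dimension four, where `G` does not depend on the last
variable, near a point where `∂P/∂x₄ ≠ 0` and `∂G/∂x₂ ≠ 0`.

Proof. `conv` with `𝔪 = vecIdeal v`, `𝔞 = Ideal.span {P, G} ⊔ Ideal.span {X 0 - 1}`,
`x = X 1 - C (v 1)`, `y = X 3 - C (v 3)`. Taylor's formula for `G` gives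
`X 2 - C (v 2) ∈ (x, y) ⊔ 𝔪 ^ 2 ⊔ 𝔞`, then Taylor's formula for `P` gives the same for
`X 4 - C (v 4)`. -/
theorem conv_P4 {P G : Poly 4} {v : Fin 5 → ℂ} (h0 : v 0 = 1) (hP : eval v P = 0)
    (hG : eval v G = 0) (hG4 : pderiv 4 G = 0) (h4 : eval v (pderiv 4 P) ≠ 0)
    (h2 : eval v (pderiv 2 G) ≠ 0) {φ : Poly 4 →ₐ[ℂ] MvPowerSeries (Fin 2) ℂ} (φP : φ P = 0)
    (φG : φ G = 0) (φc : ∀ Q, MvPowerSeries.constantCoeff (φ Q) = eval v Q) (φ0 : φ (X 0) = 1)
    (φ1 : φ (X 1) = MvPowerSeries.C (v 1) + MvPowerSeries.X 0)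
    (φ3 : φ (X 3) = MvPowerSeries.C (v 3) + MvPowerSeries.X 1) {w : ℕ} {Q : Poly 4}
    (hQ : Van w (φ Q)) :
    Q ∈ Ideal.span {P, G} ⊔ vecIdeal v ^ w ⊔ Ideal.span {X 0 - 1} := by
  set 𝔞 : Ideal (Poly 4) := Ideal.span {P, G} ⊔ Ideal.span {X 0 - 1} with h𝔞
  set J : Ideal (Poly 4) := Ideal.span {X 1 - C (v 1), X 3 - C (v 3)} ⊔ vecIdeal v ^ 2 ⊔ 𝔞
    with hJ
  have hJ2 : vecIdeal v ^ 2 ≤ J := le_sup_of_le_left le_sup_right
  have hJa : 𝔞 ≤ J := le_sup_right
  have hPa : P ∈ 𝔞 := Ideal.mem_sup_left (Ideal.subset_span (Or.inl rfl))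
  have hGa : G ∈ 𝔞 := Ideal.mem_sup_left (Ideal.subset_span (Or.inr rfl))
  have h0a : (X 0 - 1 : Poly 4) ∈ 𝔞 := Ideal.mem_sup_right (Ideal.subset_span rfl)
  have e0 : (X 0 - C (v 0) : Poly 4) ∈ J := by
    rw [h0, map_one]
    exact hJa h0a
  have e1 : (X 1 - C (v 1) : Poly 4) ∈ J :=
    Ideal.mem_sup_left (Ideal.mem_sup_left (Ideal.subset_span (Or.inl rfl)))
  have e3 : (X 3 - C (v 3) : Poly 4) ∈ J :=
    Ideal.mem_sup_left (Ideal.mem_sup_left (Ideal.subset_span (Or.inr rfl)))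
  have e2 : (X 2 - C (v 2) : Poly 4) ∈ J := by
    refine convP_last hJ2 (hJa hGa) hG h2 fun j hj => ?_
    fin_cases j
    · exact Ideal.mul_mem_left _ _ e0
    · exact Ideal.mul_mem_left _ _ e1
    · exact absurd rfl hj
    · exact Ideal.mul_mem_left _ _ e3
    · change C (eval v (pderiv 4 G)) * _ ∈ J
      rw [hG4, map_zero, map_zero, zero_mul]
      exact Ideal.zero_mem _
  have e4 : (X 4 - C (v 4) : Poly 4) ∈ J := by
    refine convP_last hJ2 (hJa hPa) hP h4 fun j hj => Ideal.mul_mem_left _ _ ?_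
    fin_cases j
    · exact e0
    · exact e1
    · exact e2
    · exact e3
    · exact absurd rfl hj
  have hm : vecIdeal v ≤ J := convP_hm hJ2 fun j => by
    fin_cases j
    · exact e0
    · exact e1
    · exact e2
    · exact e3
    · exact e4
  have key := conv (𝔞 := 𝔞) (𝔪 := vecIdeal v) (x := X 1 - C (v 1)) (y := X 3 - C (v 3))
    (convP_X v 1) (convP_X v 3) hm (fun r => ⟨eval v r, convP_mem v r⟩) (φ := φ)
    (fun r hr => by
      have : 𝔞 ≤ RingHom.ker φ := by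
        refine sup_le ?_ ?_
        · rw [Ideal.span_le]
          rintro _ (rfl | rfl)
          · exact φP
          · exact φG
        · rw [Ideal.span_singleton_le_iff_mem, RingHom.mem_ker, map_sub, map_one, φ0, sub_self]
      exact this hr)
    (fun r hr => (φc r).trans hr)
    (by rw [map_sub, φ1, convP_phi, add_sub_cancel_left])
    (by rw [map_sub, φ3, convP_phi, add_sub_cancel_left]) hQ
  have h : 𝔞 ⊔ vecIdeal v ^ w = Ideal.span {P, G} ⊔ vecIdeal v ^ w ⊔ Ideal.span {X 0 - 1} := by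
    rw [h𝔞, sup_assoc, sup_comm (Ideal.span {X 0 - 1}), ← sup_assoc]
  rwa [h] at key

end Pool.Agent.Lib.MP_ed661f_ag.V
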