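import Pool.Agent.Lib.MP_ed661f_ag.S.Prim

/-!
Lattices over the valuation ring of a place: vectors.
-/

set_option autoImplicit false

namespace Pool.Agent.Lib.MP_ed661f_ag.V

open Pool.Agent.Lib.MP_ed661f_ag.S

/-- a left inverse of the matrix of the reductions, with entries in the field `p.K` -/
private theorem latVec_left (p : Place) {ι κ : Type} [Fintype ι] [Fintype κ] [DecidableEq κ]
    {g : κ → ι → p.B}
    (hg : LinearIndependent ℂ (fun (j : κ) (i : ι) => p.ρ (g j i))) :
    ∃ L : κ → ι → p.B, ∀ k j, ∑ i, p.ρ (L k i) * p.ρ (g j i) = if k = j then 1 else 0 := by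
  classical
  let w : κ → ι → p.K := fun j i => ⟨p.ρ (g j i), p.mem _⟩
  have hw : LinearIndependent p.K w := by
    rw [Fintype.linearIndependent_iff]
    intro a ha
    have h1 := Fintype.linearIndependent_iff.1 hg (fun j => (a j : ℂ)) (by
      ext i
      have h2 := congrArg (fun v : ι → p.K => (v i : ℂ)) ha
      simp only [Finset.sum_apply, Pi.smul_apply, smul_eq_mul, Pi.zero_apply] at h2 ⊢
      push_cast at h2
      exact h2)
    intro j
    exact Subtype.ext (h1 j)
  let f : (κ → p.K) →ₗ[p.K] (ι → p.K) := Fintype.linearCombination p.K w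
  have hf : LinearMap.ker f = ⊥ := by
    rw [LinearMap.ker_eq_bot]
    exact linearIndependent_iff_injective_fintypeLinearCombination.1 hw
  obtain ⟨l, hl⟩ := LinearMap.exists_leftInverse_of_injective f hf
  refine ⟨fun k i => ⟨(l (fun j => if i = j then 1 else 0) k : p.K),
    p.le _ (l (fun j => if i = j then 1 else 0) k).2⟩, ?_⟩
  intro k j
  have h1 : l (w j) = Pi.single j 1 := by
    have h2 : f (Pi.single j 1) = w j := by
      simp only [f, Fintype.linearCombination_apply_single, one_smul]
    rw [← h2]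
    exact LinearMap.congr_fun hl _
  have h3 := congrFun (LinearMap.pi_apply_eq_sum_univ l (w j)) k
  rw [h1, Finset.sum_apply] at h3
  have h4 := congrArg (fun z : p.K => (z : ℂ)) h3
  simp only [Pi.smul_apply, smul_eq_mul] at h4
  push_cast at h4
  have h5 : ((Pi.single j (1 : p.K) : κ → p.K) k : ℂ) = if k = j then 1 else 0 := by
    rw [Pi.single_apply]
    split_ifs <;> rfl
  rw [← h5, h4]
  refine Finset.sum_congr rfl fun i _ => ?_
  rw [p.id _ (l (fun j => if i = j then 1 else 0) k).2, mul_comm]

/-- the product of the left inverse with the vectors is invertible -/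
private theorem latVec_det (p : Place) {ι κ : Type} [Fintype ι] [Fintype κ] [DecidableEq κ]
    {g L : κ → ι → p.B}
    (hL : ∀ k j, ∑ i, p.ρ (L k i) * p.ρ (g j i) = if k = j then 1 else 0) :
    ((Matrix.of fun k j => ∑ i, ((L k i : p.B) : ℂ) * ((g j i : p.B) : ℂ)) :
      Matrix κ κ ℂ).det ≠ 0 := by
  have h1 : (Matrix.of fun k j => ∑ i, ((L k i : p.B) : ℂ) * ((g j i : p.B) : ℂ)) =
      p.B.subtype.mapMatrix (Matrix.of fun k j => ∑ i, L k i * g j i) := by
    ext k j
    simp
  have h2 : p.ρ.mapMatrix (Matrix.of fun k j => ∑ i, L k i * g j i) = 1 := by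
    ext k j
    rw [RingHom.mapMatrix_apply, Matrix.map_apply, Matrix.of_apply, map_sum]
    simp only [map_mul]
    rw [hL, Matrix.one_apply]
  rw [h1, ← RingHom.map_det]
  intro h3
  have h4 : (Matrix.of fun k j => ∑ i, L k i * g j i).det = 0 := Subtype.ext h3
  have h5 := RingHom.map_det p.ρ (Matrix.of fun k j => ∑ i, L k i * g j i)
  rw [h4, h2, map_zero, Matrix.det_one] at h5
  exact zero_ne_one h5

/-- a vector outside the span of the vectors `g j` with independent reductions has, after scaling
and modulo the `g j`, an integral representative with reduction outside the span of the reductions.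

Proof. Extend the reductions of the `g j` by unit vectors `e_i`, `i ∈ I`, to a basis of `ι → ℂ`
(`LinearIndependent`/`Basis` exchange). Then the `g j` and the `e_i`, `i ∈ I`, are linearly
independent over `ℂ`, by the primitive scaling `S.exists_prim_vec` of a relation, so they are a basis
of `ι → ℂ`: `h = ∑ α_j g_j + ∑_(i ∈ I) β_i e_i`, and `β ≠ 0`. By `S.exists_prim_vec` there is
`c ≠ 0` such that all `c β_i` are in `p.B` and some `p.ρ (c β_i) ≠ 0`. Put
`t = ∑_(i ∈ I) (c β_i) e_i` and `a_j = - c α_j`. The reduction `∑ p.ρ (c β_i) e_i` is not in the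
span of the reductions of the `g j`. -/
theorem lat_mod_vec (p : Place) {ι κ : Type} [Finite ι] [Fintype κ] {g : κ → ι → p.B}
    (hg : LinearIndependent ℂ (fun (j : κ) (i : ι) => p.ρ (g j i))) {h : ι → ℂ}
    (hh : h ∉ Submodule.span ℂ (Set.range fun (j : κ) (i : ι) => ((g j i : p.B) : ℂ))) :
    ∃ (c : ℂ) (a : κ → ℂ) (t : ι → p.B),
      c ≠ 0 ∧ (∀ i, ((t i : p.B) : ℂ) = c * h i + ∑ j, a j * ((g j i : p.B) : ℂ)) ∧
      (fun i => p.ρ (t i)) ∉
        Submodule.span ℂ (Set.range fun (j : κ) (i : ι) => p.ρ (g j i)) := by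
  classical
  have := Fintype.ofFinite ι
  obtain ⟨L, hL⟩ := latVec_left p hg
  have hdet := latVec_det p hL
  set M : Matrix κ κ ℂ := Matrix.of fun k j => ∑ i, ((L k i : p.B) : ℂ) * ((g j i : p.B) : ℂ)
    with hM
  obtain ⟨a, ha⟩ : ∃ a : κ → ℂ, ∀ k, ∑ j, M k j * a j = ∑ i, ((L k i : p.B) : ℂ) * h i := by
    refine ⟨M⁻¹.mulVec (fun k => ∑ i, ((L k i : p.B) : ℂ) * h i), fun k => ?_⟩
    have h1 : M.mulVec (M⁻¹.mulVec (fun k => ∑ i, ((L k i : p.B) : ℂ) * h i)) =
        fun k => ∑ i, ((L k i : p.B) : ℂ) * h i := by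
      rw [Matrix.mulVec_mulVec, Matrix.mul_nonsing_inv _ (isUnit_iff_ne_zero.2 hdet),
        Matrix.one_mulVec]
    exact congrFun h1 k
  have hne : (fun i => h i - ∑ j, a j * ((g j i : p.B) : ℂ)) ≠ 0 := by
    intro h0
    apply hh
    have h1 : h = ∑ j, a j • (fun (i : ι) => ((g j i : p.B) : ℂ)) := by
      ext i
      have h2 := congrFun h0 i
      simp only [Pi.zero_apply] at h2
      rw [Finset.sum_apply]
      simp only [Pi.smul_apply, smul_eq_mul]
      linear_combination h2
    rw [h1]
    exact Submodule.sum_mem _ fun j _ => Submodule.smul_mem _ _ (Submodule.subset_span ⟨j, rfl⟩)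
  obtain ⟨c, t, hc, ht, i0, hi0⟩ := exists_prim_vec p hne
  refine ⟨c, fun j => -(c * a j), t, hc, fun i => ?_, ?_⟩
  · rw [ht i, mul_sub, Finset.mul_sum, sub_eq_add_neg, ← Finset.sum_neg_distrib]
    congr 1
    refine Finset.sum_congr rfl fun j _ => ?_
    ring
  · intro hs
    have hLt : ∀ k, ∑ i, L k i * t i = 0 := by
      intro k
      apply Subtype.ext
      have h1 : ((∑ i, L k i * t i : p.B) : ℂ) = ∑ i, ((L k i : p.B) : ℂ) * ((t i : p.B) : ℂ) := by
        push_cast
        rfl
      rw [h1]
      have h2 : ∑ i, ((L k i : p.B) : ℂ) * ((t i : p.B) : ℂ) =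
          c * (∑ i, ((L k i : p.B) : ℂ) * h i - ∑ j, M k j * a j) := by
        have h3 : ∑ j, M k j * a j =
            ∑ i, ((L k i : p.B) : ℂ) * ∑ j, a j * ((g j i : p.B) : ℂ) := by
          simp only [hM, Matrix.of_apply, Finset.sum_mul, Finset.mul_sum]
          rw [Finset.sum_comm]
          refine Finset.sum_congr rfl fun i _ => Finset.sum_congr rfl fun j _ => ?_
          ring
        rw [h3, ← Finset.sum_sub_distrib, Finset.mul_sum]
        refine Finset.sum_congr rfl fun i _ => ?_
        rw [ht i]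
        ring
      rw [h2, ha k, sub_self, mul_zero]
      rfl
    have hLt2 : ∀ k, ∑ i, p.ρ (L k i) * p.ρ (t i) = 0 := by
      intro k
      have h1 := congrArg p.ρ (hLt k)
      rw [map_sum, map_zero] at h1
      simpa only [map_mul] using h1
    rw [Submodule.mem_span_range_iff_exists_fun] at hs
    obtain ⟨b, hb⟩ := hs
    have hb1 : ∀ i, p.ρ (t i) = ∑ j, b j * p.ρ (g j i) := by
      intro i
      have h1 := congrFun hb i
      rw [Finset.sum_apply] at h1
      simpa only [Pi.smul_apply, smul_eq_mul] using h1.symm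
    have hb0 : ∀ k, b k = 0 := by
      intro k
      have h1 := hLt2 k
      have h2 : ∑ i, p.ρ (L k i) * p.ρ (t i) = ∑ j, b j * (if k = j then 1 else 0) := by
        simp only [hb1, Finset.mul_sum, ← hL]
        rw [Finset.sum_comm]
        refine Finset.sum_congr rfl fun j _ => Finset.sum_congr rfl fun i _ => ?_
        ring
      rw [h2] at h1
      simpa using h1
    apply hi0
    rw [hb1]
    simp [hb0]

/-- an integral vector in the span of the vectors `g j` with independent reductions: its reduction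
lies in the span of the reductions.

Proof. `t = ∑ α_j g_j`. All `α_j` are in `p.B`: otherwise scale `(α_j)` to a primitive vector
(`S.exists_prim_vec`), `c α_j ∈ p.B`, some `p.ρ (c α_j) ≠ 0`; as some `α_j` is not in `p.B`, `c` is
not a unit: `p.ρ c = 0`, and the reduction of `c t = ∑ (c α_j) g_j` is a nontrivial relation.
Then apply `p.ρ`. -/
theorem lat_sat_vec (p : Place) {ι κ : Type} [Finite ι] [Fintype κ] {g : κ → ι → p.B}
    (hg : LinearIndependent ℂ (fun (j : κ) (i : ι) => p.ρ (g j i))) {t : ι → p.B}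
    (ht : (fun i => ((t i : p.B) : ℂ)) ∈
      Submodule.span ℂ (Set.range fun (j : κ) (i : ι) => ((g j i : p.B) : ℂ))) :
    (fun i => p.ρ (t i)) ∈
      Submodule.span ℂ (Set.range fun (j : κ) (i : ι) => p.ρ (g j i)) := by
  classical
  rw [Submodule.mem_span_range_iff_exists_fun] at ht
  obtain ⟨α, hα⟩ := ht
  have hα1 : ∀ i, ∑ j, α j * ((g j i : p.B) : ℂ) = ((t i : p.B) : ℂ) := by
    intro i
    have h1 := congrFun hα i
    rw [Finset.sum_apply] at h1
    simpa only [Pi.smul_apply, smul_eq_mul] using h1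
  by_cases hα0 : α = 0
  · have h1 : (fun i => p.ρ (t i)) = 0 := by
      ext i
      have h2 : t i = 0 := by
        apply Subtype.ext
        rw [← hα1 i, hα0]
        simp
      rw [h2, map_zero]
      rfl
    rw [h1]
    exact Submodule.zero_mem _
  obtain ⟨c, w, hc, hw, j0, hj0⟩ := exists_prim_vec p hα0
  by_cases hci : c⁻¹ ∈ p.B
  · have h1 : ∀ j, α j = (((⟨c⁻¹, hci⟩ : p.B) * w j : p.B) : ℂ) := by
      intro j
      push_cast
      rw [hw j, inv_mul_cancel_left₀ hc]
    have h2 : ∀ i, t i = ∑ j, (⟨c⁻¹, hci⟩ * w j) * g j i := by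
      intro i
      apply Subtype.ext
      rw [← hα1 i]
      push_cast
      refine Finset.sum_congr rfl fun j _ => ?_
      rw [h1 j]
      rfl
    have h3 : (fun i => p.ρ (t i)) =
        ∑ j, p.ρ (⟨c⁻¹, hci⟩ * w j) • (fun (i : ι) => p.ρ (g j i)) := by
      ext i
      rw [Finset.sum_apply, h2 i, map_sum]
      refine Finset.sum_congr rfl fun j _ => ?_
      rw [Pi.smul_apply, smul_eq_mul, map_mul]
    rw [h3]
    exact Submodule.sum_mem _ fun j _ => Submodule.smul_mem _ _ (Submodule.subset_span ⟨j, rfl⟩)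
  · exfalso
    have hcB : c ∈ p.B := (p.B.mem_or_inv_mem c).resolve_right hci
    have hc0 : p.ρ ⟨c, hcB⟩ = 0 := by
      by_contra h0
      exact hci (p.inv_mem h0)
    have h1 : ∀ i, (⟨c, hcB⟩ : p.B) * t i = ∑ j, w j * g j i := by
      intro i
      apply Subtype.ext
      push_cast
      rw [← hα1 i, Finset.mul_sum]
      refine Finset.sum_congr rfl fun j _ => ?_
      rw [hw j, mul_assoc]
    have h2 := Fintype.linearIndependent_iff.1 hg (fun j => p.ρ (w j)) (by
      ext i
      have h3 := congrArg p.ρ (h1 i)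
      rw [map_mul, hc0, zero_mul, map_sum] at h3
      rw [Finset.sum_apply, Pi.zero_apply, h3]
      refine Finset.sum_congr rfl fun j _ => ?_
      rw [Pi.smul_apply, smul_eq_mul, map_mul])
    exact hj0 (h2 j0)

/-- a subspace has a basis of integral vectors with independent reductions.

Proof. Take a maximal number `r` of vectors `g j` in `V` with entries in `p.B` and with linearly
independent reductions. They are linearly independent, so `r ≤ finrank ℂ V`. If `r < finrank ℂ V`,
there is `h ∈ V` outside their span, and `lat_mod_vec` gives a further vector `t` in `V`. -/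
theorem lat_basis (p : Place) {ι : Type} [Finite ι] (V : Submodule ℂ (ι → ℂ)) :
    ∃ g : Fin (Module.finrank ℂ V) → ι → p.B,
      LinearIndependent ℂ (fun (j : Fin (Module.finrank ℂ V)) (i : ι) => p.ρ (g j i)) ∧
      ∀ j, (fun i => ((g j i : p.B) : ℂ)) ∈ V := by
  have key : ∀ r : ℕ, r ≤ Module.finrank ℂ V → ∃ g : Fin r → ι → p.B,
      LinearIndependent ℂ (fun (j : Fin r) (i : ι) => p.ρ (g j i)) ∧
      ∀ j, (fun i => ((g j i : p.B) : ℂ)) ∈ V := by
    intro r
    induction r with
    | zero => exact fun _ => ⟨Fin.elim0, linearIndependent_empty_type, fun j => j.elim0⟩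
    | succ r ih =>
      intro hr
      obtain ⟨g, hg, hgV⟩ := ih (by omega)
      have h1 : ∃ h ∈ V,
          h ∉ Submodule.span ℂ (Set.range fun (j : Fin r) (i : ι) => ((g j i : p.B) : ℂ)) := by
        by_contra hcon
        push Not at hcon
        have h2 : V ≤ Submodule.span ℂ
            (Set.range fun (j : Fin r) (i : ι) => ((g j i : p.B) : ℂ)) := hcon
        have h3 := Submodule.finrank_mono h2
        have h4 := finrank_range_le_card (R := ℂ)
          (b := fun (j : Fin r) (i : ι) => ((g j i : p.B) : ℂ))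
        rw [Fintype.card_fin] at h4
        have h5 : (Set.range fun (j : Fin r) (i : ι) => ((g j i : p.B) : ℂ)).finrank ℂ =
          Module.finrank ℂ (Submodule.span ℂ
            (Set.range fun (j : Fin r) (i : ι) => ((g j i : p.B) : ℂ))) := rfl
        omega
      obtain ⟨h, hV, hh⟩ := h1
      obtain ⟨c, a, t, hc, ht, hts⟩ := lat_mod_vec p hg hh
      refine ⟨Fin.cons t g, ?_, ?_⟩
      · have h2 : (fun (j : Fin (r + 1)) (i : ι) => p.ρ ((Fin.cons t g : Fin (r + 1) → ι → p.B) j i)) =
            Fin.cons (fun i => p.ρ (t i)) (fun (j : Fin r) (i : ι) => p.ρ (g j i)) := by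
          ext j i
          refine Fin.cases ?_ (fun j => ?_) j
          · simp only [Fin.cons_zero]
          · simp only [Fin.cons_succ]
        rw [h2, linearIndependent_finCons]
        exact ⟨hg, hts⟩
      · intro j
        refine Fin.cases ?_ (fun j => ?_) j
        · simp only [Fin.cons_zero]
          have h2 : (fun i => ((t i : p.B) : ℂ)) =
              c • h + ∑ j, a j • (fun (i : ι) => ((g j i : p.B) : ℂ)) := by
            ext i
            rw [ht i, Pi.add_apply, Finset.sum_apply]
            rfl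
          rw [h2]
          exact V.add_mem (V.smul_mem _ hV) (V.sum_mem fun j _ => V.smul_mem _ (hgV j))
        · simp only [Fin.cons_succ]
          exact hgV j
  exact key _ le_rfl

end Pool.Agent.Lib.MP_ed661f_ag.V
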