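import Pool.Agent.Lib.MP_ed661f_ag.V.Van

/-!
Polynomials and power series over the residue field of a place.
-/

set_option autoImplicit false

open MvPolynomial

namespace Pool.Agent.Lib.MP_ed661f_ag.V

open Pool.Agent.Lib.MP_ed661f_ag.H Pool.Agent.Lib.MP_ed661f_ag.S

/-- a polynomial over the residue field lifts to the valuation ring, and the lift reduces to it -/
theorem exists_liftB (p : Place) {σ : Type} {Q : MvPolynomial σ ℂ} (hQ : ∀ α, coeff α Q ∈ p.K) :
    ∃ QB : MvPolynomial σ p.B, map p.B.subtype QB = Q ∧ map p.ρ QB = Q ∧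
      ∀ α, coeff α QB ≠ 0 → coeff α Q ≠ 0 := by
  classical
  refine ⟨∑ α ∈ Q.support, monomial α ⟨coeff α Q, p.le _ (hQ α)⟩, ?_, ?_, ?_⟩
  · rw [map_sum]
    simp only [map_monomial]
    exact Q.support_sum_monomial_coeff
  · rw [map_sum]
    have h1 : ∀ α, map p.ρ (monomial α (⟨coeff α Q, p.le _ (hQ α)⟩ : p.B)) =
        monomial α (coeff α Q) := by
      intro α
      rw [map_monomial, p.id _ (hQ α)]
    simp only [h1]
    exact Q.support_sum_monomial_coeff
  · intro α hα h0
    apply hα
    rw [coeff_sum]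
    refine Finset.sum_eq_zero fun β hβ => ?_
    rw [coeff_monomial]
    split_ifs with h
    · subst h
      exact absurd h0 (mem_support_iff.1 hβ)
    · rfl

/-- a power series over the residue field lifts to the valuation ring -/
theorem exists_liftPS (p : Place) {θ : PowerSeries ℂ} (hθ : ∀ j, PowerSeries.coeff j θ ∈ p.K) :
    ∃ θB : PowerSeries p.B, PowerSeries.map p.B.subtype θB = θ ∧ PowerSeries.map p.ρ θB = θ := by
  refine ⟨PowerSeries.mk fun j => ⟨PowerSeries.coeff j θ, p.le _ (hθ j)⟩, ?_, ?_⟩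
  · ext j
    rw [PowerSeries.coeff_map, PowerSeries.coeff_mk]
    rfl
  · ext j
    rw [PowerSeries.coeff_map, PowerSeries.coeff_mk, p.id _ (hθ j)]

theorem subtype_injective (p : Place) : Function.Injective p.B.subtype := fun _ _ h =>
  Subtype.ext h

theorem isUnit_of_rho (p : Place) {x : p.B} (h : p.ρ x ≠ 0) : IsUnit x := by
  have h1 := mt (p.ker _).2 h
  rwa [IsLocalRing.mem_maximalIdeal, mem_nonunits_iff, not_not] at h1

end Pool.Agent.Lib.MP_ed661f_ag.V
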