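import Pool.Agent.Lib.MP_ed661f_ag.V.Defs
import Pool.Agent.Lib.MP_ed661f_ag.V.LatVec
import Pool.Agent.Lib.MP_ed661f_ag.V.LiftB
import Pool.Agent.Lib.MP_ed661f_ag.H.Basis

/-!
Lattices over the valuation ring of a place: forms modulo `I + (G)`.
-/

set_option autoImplicit false

open MvPolynomial

namespace Pool.Agent.Lib.MP_ed661f_ag.V

open Pool.Agent.Lib.MP_ed661f_ag.H Pool.Agent.Lib.MP_ed661f_ag.S

/-- the exponents of degree `d` -/
private abbrev LpIx (N d : ℕ) : Type := {α : Fin (N + 1) →₀ ℕ // α.degree = d}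

private theorem lp_finite (N d : ℕ) : Finite (LpIx N d) := by
  refine Set.Finite.to_subtype (s := {α : Fin (N + 1) →₀ ℕ | α.degree = d}) ?_
  refine Set.Finite.subset (Finset.finite_toSet (Finset.finsuppAntidiag Finset.univ d)) ?_
  intro α hα
  rw [Finset.mem_coe, Finset.mem_finsuppAntidiag]
  refine ⟨?_, Finset.subset_univ _⟩
  rw [← hα, Finsupp.degree_eq_sum]

/-- the vector of the coefficients -/
private noncomputable def lpCv (N d : ℕ) : Poly N →ₗ[ℂ] (LpIx N d → ℂ) where
  toFun F α := coeff α.1 F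
  map_add' F G := by
    funext α
    exact coeff_add _ _ _
  map_smul' c F := by
    funext α
    exact coeff_smul _ _ _

private theorem lpCv_inj {N d : ℕ} {F F' : Poly N} (hF : F.IsHomogeneous d)
    (hF' : F'.IsHomogeneous d) (h : lpCv N d F = lpCv N d F') : F = F' := by
  refine MvPolynomial.ext _ _ fun α => ?_
  by_cases hα : α.degree = d
  · exact congrFun h ⟨α, hα⟩
  · rw [hF.coeff_eq_zero hα, hF'.coeff_eq_zero hα]

/-- the form with given coefficients -/
private noncomputable def lpMk {R : Type} [CommRing R] {N d : ℕ} (t : LpIx N d → R) :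
    MvPolynomial (Fin (N + 1)) R :=
  haveI := lp_finite N d
  ∑ᶠ α : LpIx N d, monomial α.1 (t α)

private theorem lpMk_coeff {R : Type} [CommRing R] {N d : ℕ} (t : LpIx N d → R) (α : LpIx N d) :
    coeff α.1 (lpMk t) = t α := by
  classical
  have := lp_finite N d
  have := Fintype.ofFinite (LpIx N d)
  unfold lpMk
  rw [finsum_eq_sum_of_fintype, coeff_sum, Finset.sum_eq_single α]
  · rw [coeff_monomial, if_pos rfl]
  · intro β _ hβ
    rw [coeff_monomial, if_neg fun h => hβ (Subtype.ext h)]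
  · intro h
    exact absurd (Finset.mem_univ _) h

private theorem lpMk_hom {R : Type} [CommRing R] {N d : ℕ} (t : LpIx N d → R) :
    (lpMk t).IsHomogeneous d := by
  classical
  have := lp_finite N d
  have := Fintype.ofFinite (LpIx N d)
  unfold lpMk
  rw [finsum_eq_sum_of_fintype]
  exact IsHomogeneous.sum _ _ _ fun α _ => isHomogeneous_monomial _ α.2

private theorem lp_map_hom {R S : Type} [CommRing R] [CommRing S] {N d : ℕ} (f : R →+* S)
    {F : MvPolynomial (Fin (N + 1)) R} (hF : F.IsHomogeneous d) : (map f F).IsHomogeneous d :=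
  hF.map f

/-- components of the elements of an ideal defined over `K` -/
private theorem lp_comp {N d : ℕ} {I : Ideal (Poly N)}
    (hh : ∀ F ∈ I, ∀ k, homogeneousComponent k F ∈ I) {K : Subfield ℂ} (hK : DefinedOver K I)
    {F : Poly N} (hF : F ∈ I) : homogeneousComponent d F ∈
      Submodule.span ℂ {F : Poly N | F ∈ I ∧ F.IsHomogeneous d ∧ ∀ α, coeff α F ∈ K} := by
  classical
  have key : ∀ F ∈ Ideal.span {F : Poly N | F ∈ I ∧ ∀ α, coeff α F ∈ K}, ∀ q : Poly N,
      homogeneousComponent d (q * F) ∈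
        Submodule.span ℂ {F : Poly N | F ∈ I ∧ F.IsHomogeneous d ∧ ∀ α, coeff α F ∈ K} := by
    intro F hF
    refine Submodule.span_induction (p := fun F _ => ∀ q : Poly N,
      homogeneousComponent d (q * F) ∈
        Submodule.span ℂ {F : Poly N | F ∈ I ∧ F.IsHomogeneous d ∧ ∀ α, coeff α F ∈ K})
      ?_ ?_ ?_ ?_ hF
    · rintro f ⟨hf, hfK⟩ q
      induction q using MvPolynomial.induction_on' with
      | monomial β c =>
        have e1 : monomial β c * f = C c * (monomial β 1 * f) := by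
          rw [← mul_assoc, C_mul_monomial, mul_one]
        rw [e1, homogeneousComponent_C_mul, ← smul_eq_C_mul]
        refine Submodule.smul_mem _ _ (Submodule.subset_span ⟨?_, ?_, ?_⟩)
        · exact hh _ (I.mul_mem_left _ hf) d
        · exact homogeneousComponent_isHomogeneous _ _
        · intro α
          rw [coeff_homogeneousComponent]
          split_ifs
          · rw [coeff_monomial_mul']
            split_ifs
            · rw [one_mul]
              exact hfK _
            · exact K.zero_mem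
          · exact K.zero_mem
      | add p q hp hq =>
        rw [add_mul, map_add]
        exact Submodule.add_mem _ hp hq
    · intro q
      rw [mul_zero, map_zero]
      exact Submodule.zero_mem _
    · intro x y _ _ hx hy q
      rw [mul_add, map_add]
      exact Submodule.add_mem _ (hx q) (hy q)
    · intro r x _ hx q
      rw [smul_eq_mul, ← mul_assoc]
      exact hx (q * r)
  have h1 := key F (hK.le hF) 1
  rwa [one_mul] at h1

/-- the monomials -/
private noncomputable def lpMon (N m d : ℕ)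
    (β : {β : Fin (N + 1) →₀ ℕ // β.degree + m = d}) : Poly N := monomial β.1 1

private theorem lp_quo {N m d : ℕ} (I : Ideal (Poly N)) {q : Poly N} (hmd : m ≤ d)
    (hq : q.IsHomogeneous (d - m)) : Ideal.Quotient.mk I q ∈
      Submodule.span ℂ (Set.range fun β => Ideal.Quotient.mk I (lpMon N m d β)) := by
  classical
  rw [← q.support_sum_monomial_coeff, map_sum]
  refine Submodule.sum_mem _ fun β hβ => ?_
  have h1 : β.degree = d - m := by
    by_contra h
    exact (mem_support_iff.1 hβ) (hq.coeff_eq_zero h)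
  have h2 : Ideal.Quotient.mk I (monomial β (coeff β q)) =
      coeff β q • Ideal.Quotient.mk I (lpMon N m d ⟨β, by omega⟩) := by
    have h3 : monomial β (coeff β q) = coeff β q • (lpMon N m d ⟨β, by omega⟩) := by
      unfold lpMon
      rw [smul_monomial, smul_eq_mul, mul_one]
    rw [h3]
    rfl
  rw [h2]
  exact Submodule.smul_mem _ _ (Submodule.subset_span ⟨_, rfl⟩)

/-- forms in `I + (G)` -/
private theorem lp_span {N m d : ℕ} {I : Ideal (Poly N)}
    (hh : ∀ F ∈ I, ∀ k, homogeneousComponent k F ∈ I) {G : Poly N} (hG : G.IsHomogeneous m)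
    {κ₁ κ₂ : Type} [Fintype κ₂] (f : κ₁ → Poly N)
    (hf : ∀ F ∈ I, F.IsHomogeneous d → F ∈ Submodule.span ℂ (Set.range f))
    (a : κ₂ → {β : Fin (N + 1) →₀ ℕ // β.degree + m = d})
    (ha : Submodule.span ℂ (Set.range fun β => Ideal.Quotient.mk I (lpMon N m d β)) ≤
      Submodule.span ℂ (Set.range fun k => Ideal.Quotient.mk I (lpMon N m d (a k))))
    {F : Poly N} (hF : F.IsHomogeneous d) (h : F ∈ I ⊔ Ideal.span {G}) :
    F ∈ Submodule.span ℂ (Set.range (Sum.elim f fun k => lpMon N m d (a k) * G)) := by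
  classical
  rw [Set.Sum.elim_range, Submodule.span_union]
  obtain ⟨u, hu, w, hw, rfl⟩ := Submodule.mem_sup.1 h
  obtain ⟨q, rfl⟩ := Ideal.mem_span_singleton'.1 hw
  have e1 : u + q * G = homogeneousComponent d u +
      if m ≤ d then homogeneousComponent (d - m) q * G else 0 := by
    rw [← hc_mul q G hG d, ← map_add, homogeneousComponent_eq_self hF]
  rw [e1]
  have hud := hh u hu d
  have hudh : (homogeneousComponent d u).IsHomogeneous d := homogeneousComponent_isHomogeneous _ _
  by_cases hmd : m ≤ d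
  · rw [if_pos hmd]
    have hqh : (homogeneousComponent (d - m) q).IsHomogeneous (d - m) :=
      homogeneousComponent_isHomogeneous _ _
    obtain ⟨q', hq'⟩ : ∃ q', q' = homogeneousComponent (d - m) q := ⟨_, rfl⟩
    rw [← hq'] at hqh ⊢
    obtain ⟨c, hc⟩ := (Submodule.mem_span_range_iff_exists_fun ℂ).1 (ha (lp_quo I hmd hqh))
    obtain ⟨y, hy⟩ : ∃ y : Poly N, y = ∑ k, c k • lpMon N m d (a k) := ⟨_, rfl⟩
    have hyq : Ideal.Quotient.mk I y = Ideal.Quotient.mk I q' := by
      rw [← hc, hy, map_sum]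
      rfl
    have hz : q' - y ∈ I := by
      rw [← Ideal.Quotient.eq]
      exact hyq.symm
    have hyh : y.IsHomogeneous (d - m) := by
      rw [hy]
      refine IsHomogeneous.sum _ _ _ fun k _ => ?_
      rw [smul_eq_C_mul]
      refine IsHomogeneous.C_mul ?_ _
      exact isHomogeneous_monomial _ (by have := (a k).2; omega)
    have e2 : homogeneousComponent d u + q' * G =
        (homogeneousComponent d u + (q' - y) * G) + y * G := by ring
    rw [e2]
    refine Submodule.add_mem_sup (hf _ ?_ ?_) ?_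
    · exact I.add_mem hud (I.mul_mem_right _ hz)
    · refine hudh.add ?_
      have h3 := (hqh.sub hyh).mul hG
      rwa [Nat.sub_add_cancel hmd] at h3
    · rw [hy, Finset.sum_mul]
      refine Submodule.sum_mem _ fun k _ => ?_
      rw [smul_mul_assoc]
      exact Submodule.smul_mem _ _ (Submodule.subset_span ⟨k, rfl⟩)
  · rw [if_neg hmd, add_zero]
    exact Submodule.mem_sup_left (hf _ hud hudh)

/-- the family `g_j` -/
private theorem lp_basis {N m d : ℕ} {I : Ideal (Poly N)} (hI : I.IsPrime)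
    (hh : ∀ F ∈ I, ∀ k, homogeneousComponent k F ∈ I) {K : Subfield ℂ} (hK : DefinedOver K I)
    (p : Place) (hKp : K ≤ p.K) {GB : MvPolynomial (Fin (N + 1)) p.B} (hGB : GB.IsHomogeneous m)
    (hG : map p.ρ GB ∉ I) :
    ∃ (κ : Type) (_ : Fintype κ) (P : κ → MvPolynomial (Fin (N + 1)) p.B),
      (∀ j, (P j).IsHomogeneous d) ∧ LinearIndependent ℂ (fun j => map p.ρ (P j)) ∧
      (∀ F : Poly N, F.IsHomogeneous d → F ∈ I ⊔ Ideal.span {map p.B.subtype GB} →
        F ∈ Submodule.span ℂ (Set.range fun j => map p.B.subtype (P j))) ∧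
      (∀ F : Poly N, F.IsHomogeneous d → F ∈ I ⊔ Ideal.span {map p.ρ GB} →
        F ∈ Submodule.span ℂ (Set.range fun j => map p.ρ (P j))) ∧
      (∀ j, map p.B.subtype (P j) ∈ I ⊔ Ideal.span {map p.B.subtype GB}) ∧
      ∀ j, map p.ρ (P j) ∈ I ⊔ Ideal.span {map p.ρ GB} := by
  classical
  obtain ⟨κ₁, a₁, -, hs₁, hl₁⟩ := exists_linearIndependent' ℂ
    (fun F : {F : Poly N // F ∈ I ∧ F.IsHomogeneous d ∧ ∀ α, coeff α F ∈ K} => F.1)
  obtain ⟨f, hf⟩ : ∃ f : κ₁ → Poly N, ∀ i, f i = (a₁ i).1 := ⟨_, fun _ => rfl⟩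
  have hli : LinearIndependent ℂ f := by
    have : f = (fun F : {F : Poly N // F ∈ I ∧ F.IsHomogeneous d ∧ ∀ α, coeff α F ∈ K} => F.1) ∘
        a₁ := funext hf
    rw [this]
    exact hl₁
  have hfin : Finite κ₁ := by
    have h1 : (homogeneousSubmodule (Fin (N + 1)) ℂ d).FG :=
      homogeneousSubmodule_fg (Fin (N + 1)) ℂ d
    have h2 : Module.Finite ℂ (homogeneousSubmodule (Fin (N + 1)) ℂ d) := Module.Finite.iff_fg.2 h1
    have h3 : LinearIndependent ℂ
        (fun i => (⟨f i, by rw [hf]; exact (a₁ i).2.2.1⟩ : homogeneousSubmodule (Fin (N + 1)) ℂ d)) :=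
      LinearIndependent.of_comp (homogeneousSubmodule (Fin (N + 1)) ℂ d).subtype hli
    exact h3.finite
  have := Fintype.ofFinite κ₁
  have hfI : ∀ F ∈ I, F.IsHomogeneous d → F ∈ Submodule.span ℂ (Set.range f) := by
    intro F hF hFd
    have h1 := lp_comp (d := d) hh hK hF
    rw [homogeneousComponent_eq_self hFd] at h1
    have h2 : Set.range (fun F : {F : Poly N // F ∈ I ∧ F.IsHomogeneous d ∧
        ∀ α, coeff α F ∈ K} => F.1) =
        {F : Poly N | F ∈ I ∧ F.IsHomogeneous d ∧ ∀ α, coeff α F ∈ K} := Subtype.range_coe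
    rw [h2] at hs₁
    have h3 : f = (fun F : {F : Poly N // F ∈ I ∧ F.IsHomogeneous d ∧
        ∀ α, coeff α F ∈ K} => F.1) ∘ a₁ := funext hf
    rw [h3, hs₁]
    exact h1
  have hfinM : Finite {β : Fin (N + 1) →₀ ℕ // β.degree + m = d} := by
    have h1 := lp_finite N (d - m)
    refine Finite.of_injective (β := LpIx N (d - m))
      (fun β => ⟨β.1, by have := β.2; omega⟩) ?_
    intro β β' h
    have h2 : β.1 = β'.1 := congrArg (fun t : LpIx N (d - m) => t.1) h
    exact Subtype.ext h2
  obtain ⟨κ₂, a₂, hinj₂, hs₂, hl₂⟩ := exists_linearIndependent' ℂ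
    (fun β : {β : Fin (N + 1) →₀ ℕ // β.degree + m = d} =>
      Ideal.Quotient.mk I (lpMon N m d β))
  have : Finite κ₂ := Finite.of_injective a₂ hinj₂
  have := Fintype.ofFinite κ₂
  have hlift : ∀ i, ∃ Q : MvPolynomial (Fin (N + 1)) p.B, map p.B.subtype Q = f i ∧
      map p.ρ Q = f i := by
    intro i
    obtain ⟨Q, h1, h2, -⟩ := exists_liftB p (Q := f i) fun α => hKp (by
      rw [hf]
      exact (a₁ i).2.2.2 α)
    exact ⟨Q, h1, h2⟩
  choose Q hQ1 hQ2 using hlift
  have hmon : ∀ {R : Type} [CommRing R] (r : p.B →+* R) (β : Fin (N + 1) →₀ ℕ),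
      map r (monomial β (1 : p.B) * GB) = monomial β 1 * map r GB := by
    intro R _ r β
    rw [map_mul, map_monomial, map_one]
  have hP : ∀ r : p.B →+* ℂ, (∀ i, map r (Q i) = f i) →
      (fun j => map r (Sum.elim Q (fun k => monomial (a₂ k).1 (1 : p.B) * GB) j)) =
        Sum.elim f fun k => lpMon N m d (a₂ k) * map r GB := by
    intro r hr
    funext j
    rcases j with i | k
    · exact hr i
    · exact hmon r _
  have hhomf : ∀ i, (f i).IsHomogeneous d := fun i => by
    rw [hf]
    exact (a₁ i).2.2.1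
  have hmemI : ∀ i, f i ∈ I := fun i => by
    rw [hf]
    exact (a₁ i).2.1
  have hmem : ∀ r : p.B →+* ℂ, (∀ i, map r (Q i) = f i) → ∀ j,
      map r (Sum.elim Q (fun k => monomial (a₂ k).1 (1 : p.B) * GB) j) ∈
        I ⊔ Ideal.span {map r GB} := by
    intro r hr j
    rw [congrFun (hP r hr) j]
    rcases j with i | k
    · exact Ideal.mem_sup_left (hmemI i)
    · exact Ideal.mem_sup_right (Ideal.mul_mem_left _ _ (Ideal.subset_span rfl))
  refine ⟨κ₁ ⊕ κ₂, inferInstance, Sum.elim Q fun k => monomial (a₂ k).1 1 * GB,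
    ?_, ?_, ?_, ?_, hmem _ hQ1, hmem _ hQ2⟩
  · rintro (i | k)
    · refine IsHomogeneous.of_map (f := p.B.subtype) (subtype_injective p) ?_
      change (map p.B.subtype (Q i)).IsHomogeneous d
      rw [hQ1]
      exact hhomf i
    · have h1 := (isHomogeneous_monomial (1 : p.B) (rfl : (a₂ k).1.degree = _)).mul hGB
      rw [(a₂ k).2] at h1
      exact h1
  · rw [hP _ hQ2, Fintype.linearIndependent_iff]
    intro g hg
    rw [Fintype.sum_sum_type] at hg
    simp only [Sum.elim_inl, Sum.elim_inr] at hg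
    have h1 : (∑ k, g (Sum.inr k) • lpMon N m d (a₂ k)) * map p.ρ GB ∈ I := by
      rw [Finset.sum_mul]
      have h2 : ∑ k, g (Sum.inr k) • lpMon N m d (a₂ k) * map p.ρ GB =
          -∑ i, g (Sum.inl i) • f i := by
        rw [eq_neg_iff_add_eq_zero, add_comm]
        simpa only [smul_mul_assoc] using hg
      rw [h2]
      refine I.neg_mem (Ideal.sum_mem _ fun i _ => ?_)
      rw [smul_eq_C_mul]
      exact I.mul_mem_left _ (hmemI i)
    have h2 := (hI.mem_or_mem h1).resolve_right hG
    have h3 : ∀ k, g (Sum.inr k) = 0 := by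
      refine Fintype.linearIndependent_iff.1 hl₂ (fun k => g (Sum.inr k)) ?_
      have h4 := Ideal.Quotient.eq_zero_iff_mem.2 h2
      rw [map_sum] at h4
      exact h4
    have h4 : ∀ i, g (Sum.inl i) = 0 := by
      refine Fintype.linearIndependent_iff.1 hli (fun i => g (Sum.inl i)) ?_
      rw [← hg]
      simp only [h3, zero_smul, Finset.sum_const_zero, add_zero]
    rintro (i | k)
    · exact h4 i
    · exact h3 k
  · intro F hF h
    rw [hP _ hQ1]
    exact lp_span hh (lp_map_hom _ hGB) f hfI a₂ hs₂.ge hF h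
  · intro F hF h
    rw [hP _ hQ2]
    exact lp_span hh (lp_map_hom _ hGB) f hfI a₂ hs₂.ge hF h

/-- coefficient vectors of combinations -/
private theorem lp_mem {N d : ℕ} {κ : Type} [Fintype κ] {P : κ → Poly N}
    (hP : ∀ j, (P j).IsHomogeneous d) {F : Poly N} (hF : F.IsHomogeneous d)
    (h : lpCv N d F ∈ Submodule.span ℂ (Set.range fun j => lpCv N d (P j))) :
    F ∈ Submodule.span ℂ (Set.range P) := by
  obtain ⟨c, hc⟩ := (Submodule.mem_span_range_iff_exists_fun ℂ).1 h
  refine (Submodule.mem_span_range_iff_exists_fun ℂ).2 ⟨c, ?_⟩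
  refine lpCv_inj (IsHomogeneous.sum _ _ _ fun j _ => ?_) hF ?_
  · rw [smul_eq_C_mul]
    exact (hP j).C_mul _
  · rw [map_sum, ← hc]
    exact Finset.sum_congr rfl fun j _ => map_smul _ _ _

private theorem lp_mem' {N d : ℕ} {κ : Type} {P : κ → Poly N} {F : Poly N}
    (h : F ∈ Submodule.span ℂ (Set.range P)) :
    lpCv N d F ∈ Submodule.span ℂ (Set.range fun j => lpCv N d (P j)) := by
  have h1 := Submodule.mem_map_of_mem (f := lpCv N d) h
  rw [Submodule.map_span, ← Set.range_comp] at h1
  exact h1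

private theorem lp_li {N d : ℕ} {κ : Type} [Fintype κ] {P : κ → Poly N}
    (hP : ∀ j, (P j).IsHomogeneous d) (h : LinearIndependent ℂ P) :
    LinearIndependent ℂ fun j => lpCv N d (P j) := by
  rw [Fintype.linearIndependent_iff] at h ⊢
  intro g hg
  refine h g (lpCv_inj (d := d) (IsHomogeneous.sum _ _ _ fun j _ => ?_) (isHomogeneous_zero _ _ _) ?_)
  · rw [smul_eq_C_mul]
    exact (hP j).C_mul _
  · rw [map_sum, map_zero, ← hg]
    exact Finset.sum_congr rfl fun j _ => map_smul _ _ _

private theorem lpCv_sub {N : ℕ} (d : ℕ) (p : Place) (F : MvPolynomial (Fin (N + 1)) p.B) :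
    lpCv N d (map p.B.subtype F) = fun α : LpIx N d => ((coeff α.1 F : p.B) : ℂ) := by
  funext α
  change coeff α.1 (map p.B.subtype F) = _
  rw [coeff_map]
  rfl

private theorem lpCv_rho {N : ℕ} (d : ℕ) (p : Place) (F : MvPolynomial (Fin (N + 1)) p.B) :
    lpCv N d (map p.ρ F) = fun α : LpIx N d => p.ρ (coeff α.1 F) := by
  funext α
  change coeff α.1 (map p.ρ F) = _
  rw [coeff_map]

/-- **an integral representative modulo `I + (G)`** with reduction outside `I + (G₀)`, where `G₀` is
the reduction of `G`.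

Proof. The forms of degree `d` are vectors indexed by the exponents of degree `d`. Let `f_1, ...,
f_r` be a basis of the forms of degree `d` in `I`, with coefficients in `K` (by `hK` and `hh` the
forms of degree `d` in `I` are spanned by those with coefficients in `K`: take homogeneous
components of `F X^β`, `F ∈ I` over `K`), and `X^(β_1), ..., X^(β_t)` monomials of degree `d - m`
which are a basis of the forms of degree `d - m` modulo `I` (if `d < m`: `t = 0`). Put `g_j = f_j`
(with coefficients in `p.B`, as `K ≤ p.K`, and `p.ρ` is the identity on them) and `g_j = X^(β_j) GB`.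
The forms of degree `d` in `I + (G)`, `G = map p.B.subtype GB`, are the span of the images of the
`g_j` in `ℂ`; the forms of degree `d` in `I + (G₀)` are the span of their reductions (as `I` and
`(G)` are homogeneous, and `G I ⊆ I`). The reductions are linearly independent: if
`G₀ ∑ c_j X^(β_j) ∈ I` then `∑ c_j X^(β_j) ∈ I` (`I` is prime, `G₀ ∉ I`), so `c = 0`. Now use
`lat_mod_vec`. -/
theorem lat_mod {N m d : ℕ} {I : Ideal (Poly N)} (hI : I.IsPrime)
    (hh : ∀ F ∈ I, ∀ k, homogeneousComponent k F ∈ I) {K : Subfield ℂ} (hK : DefinedOver K I)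
    (p : Place) (hKp : K ≤ p.K) {GB : MvPolynomial (Fin (N + 1)) p.B} (hGB : GB.IsHomogeneous m)
    (hG : map p.ρ GB ∉ I) {H : Poly N} (hH : H.IsHomogeneous d)
    (hHn : H ∉ I ⊔ Ideal.span {map p.B.subtype GB}) :
    ∃ (c : ℂ) (A : Poly N) (T : MvPolynomial (Fin (N + 1)) p.B),
      A ∈ I ⊔ Ideal.span {map p.B.subtype GB} ∧ T.IsHomogeneous d ∧
      map p.B.subtype T = C c * H + A ∧ map p.ρ T ∉ I ⊔ Ideal.span {map p.ρ GB} := by
  classical
  obtain ⟨κ, hκ, P, hPh, hPl, hP1, hP2, hP3, hP4⟩ := lp_basis (d := d) hI hh hK p hKp hGB hG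
  have := lp_finite N d
  have hg : LinearIndependent ℂ (fun (j : κ) (α : LpIx N d) => p.ρ (coeff α.1 (P j))) := by
    have h1 := lp_li (d := d) (fun j => lp_map_hom p.ρ (hPh j)) hPl
    have h2 : (fun j => lpCv N d (map p.ρ (P j))) =
        fun (j : κ) (α : LpIx N d) => p.ρ (coeff α.1 (P j)) := funext fun j => lpCv_rho d p _
    rwa [h2] at h1
  have e1 : (fun j => lpCv N d (map p.B.subtype (P j))) =
      fun (j : κ) (α : LpIx N d) => ((coeff α.1 (P j) : p.B) : ℂ) :=
    funext fun j => lpCv_sub d p _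
  have e2 : (fun j => lpCv N d (map p.ρ (P j))) =
      fun (j : κ) (α : LpIx N d) => p.ρ (coeff α.1 (P j)) :=
    funext fun j => lpCv_rho d p _
  have hsub : Submodule.span ℂ (Set.range fun j => map p.B.subtype (P j)) ≤
      (I ⊔ Ideal.span {map p.B.subtype GB}).restrictScalars ℂ :=
    Submodule.span_le.2 (by
      rintro _ ⟨j, rfl⟩
      exact hP3 j)
  obtain ⟨c, a, t, hc, ht, htn⟩ := lat_mod_vec p (h := lpCv N d H) hg (by
    intro h
    rw [← e1] at h
    exact hHn (hsub (lp_mem (fun j => lp_map_hom _ (hPh j)) hH h)))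
  refine ⟨c, ∑ j, a j • map p.B.subtype (P j), lpMk t, ?_, lpMk_hom t, ?_, fun h => htn ?_⟩
  · refine Ideal.sum_mem _ fun j _ => ?_
    rw [smul_eq_C_mul]
    exact Ideal.mul_mem_left _ _ (hP3 j)
  · refine lpCv_inj (d := d) (lp_map_hom _ (lpMk_hom t)) ((hH.C_mul c).add
      (IsHomogeneous.sum _ _ _ fun j _ => ?_)) ?_
    · rw [smul_eq_C_mul]
      exact (lp_map_hom _ (hPh j)).C_mul _
    · rw [map_add, ← smul_eq_C_mul, map_smul, map_sum]
      funext α
      rw [Pi.add_apply, Pi.smul_apply, Finset.sum_apply, smul_eq_mul]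
      change coeff α.1 (map p.B.subtype (lpMk t)) = _
      rw [coeff_map, lpMk_coeff]
      change ((t α : p.B) : ℂ) = _
      rw [ht α]
      refine congrArg₂ _ rfl (Finset.sum_congr rfl fun j _ => ?_)
      rw [map_smul, Pi.smul_apply, smul_eq_mul]
      change _ = a j * coeff α.1 (map p.B.subtype (P j))
      rw [coeff_map]
      rfl
  · have h1 := lp_mem' (d := d) (hP2 _ (lp_map_hom _ (lpMk_hom t)) h)
    rw [e2] at h1
    have h2 : lpCv N d (map p.ρ (lpMk t)) = fun α => p.ρ (t α) := by
      funext α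
      change coeff α.1 (map p.ρ (lpMk t)) = _
      rw [coeff_map, lpMk_coeff]
    rwa [h2] at h1

/-- **saturation**: the reduction of an integral form in `I + (G)` lies in `I + (G₀)`.

Proof. With the `g_j` of `lat_mod` this is `lat_sat_vec`. -/
theorem lat_sat {N m d : ℕ} {I : Ideal (Poly N)} (hI : I.IsPrime)
    (hh : ∀ F ∈ I, ∀ k, homogeneousComponent k F ∈ I) {K : Subfield ℂ} (hK : DefinedOver K I)
    (p : Place) (hKp : K ≤ p.K) {GB : MvPolynomial (Fin (N + 1)) p.B} (hGB : GB.IsHomogeneous m)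
    (hG : map p.ρ GB ∉ I) {T : MvPolynomial (Fin (N + 1)) p.B} (hT : T.IsHomogeneous d)
    (hTn : map p.B.subtype T ∈ I ⊔ Ideal.span {map p.B.subtype GB}) :
    map p.ρ T ∈ I ⊔ Ideal.span {map p.ρ GB} := by
  classical
  obtain ⟨κ, hκ, P, hPh, hPl, hP1, hP2, hP3, hP4⟩ := lp_basis (d := d) hI hh hK p hKp hGB hG
  have := lp_finite N d
  have e1 : (fun j => lpCv N d (map p.B.subtype (P j))) =
      fun (j : κ) (α : LpIx N d) => ((coeff α.1 (P j) : p.B) : ℂ) :=
    funext fun j => lpCv_sub d p _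
  have e2 : (fun j => lpCv N d (map p.ρ (P j))) =
      fun (j : κ) (α : LpIx N d) => p.ρ (coeff α.1 (P j)) :=
    funext fun j => lpCv_rho d p _
  have hg : LinearIndependent ℂ (fun (j : κ) (α : LpIx N d) => p.ρ (coeff α.1 (P j))) := by
    have h1 := lp_li (d := d) (fun j => lp_map_hom p.ρ (hPh j)) hPl
    rwa [e2] at h1
  have h1 := lp_mem' (d := d) (hP1 _ (lp_map_hom _ hT) hTn)
  rw [e1] at h1
  have e3 := lpCv_sub d p T
  rw [e3] at h1
  have h2 := lat_sat_vec p hg h1
  have e4 := lpCv_rho d p T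
  rw [← e2, ← e4] at h2
  have h3 := lp_mem (fun j => lp_map_hom _ (hPh j)) (lp_map_hom _ hT) h2
  have hsub : Submodule.span ℂ (Set.range fun j => map p.ρ (P j)) ≤
      (I ⊔ Ideal.span {map p.ρ GB}).restrictScalars ℂ :=
    Submodule.span_le.2 (by
      rintro _ ⟨j, rfl⟩
      exact hP4 j)
  exact hsub h3

/-- a space of forms of degree `d` has a basis of integral forms with independent reductions.

Proof. `lat_basis`, the forms of degree `d` being vectors indexed by the exponents of degree `d`. -/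
theorem lat_basis_poly {N d : ℕ} (p : Place) (V : Submodule ℂ (Poly N))
    (hV : V ≤ homogeneousSubmodule (Fin (N + 1)) ℂ d) :
    ∃ T : Fin (Module.finrank ℂ V) → MvPolynomial (Fin (N + 1)) p.B,
      (∀ j, (T j).IsHomogeneous d) ∧ LinearIndependent ℂ (fun j => map p.ρ (T j)) ∧
      ∀ j, map p.B.subtype (T j) ∈ V := by
  classical
  have := lp_finite N d
  obtain ⟨g, hg1, hg2⟩ := lat_basis p (V.map (lpCv N d))
  have hV' : ∀ F ∈ V, F.IsHomogeneous d := fun F hF => hV hF
  have hfr : Module.finrank ℂ (V.map (lpCv N d)) = Module.finrank ℂ V := by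
    rw [← LinearMap.range_domRestrict]
    refine LinearMap.finrank_range_of_inj fun F F' h => Subtype.ext ?_
    exact lpCv_inj (hV' _ F.2) (hV' _ F'.2) h
  refine ⟨fun j => lpMk (g (Fin.cast hfr.symm j)), fun j => lpMk_hom _, ?_, fun j => ?_⟩
  · refine LinearIndependent.of_comp (lpCv N d) ?_
    have h1 : (lpCv N d ∘ fun j => map p.ρ (lpMk (g (Fin.cast hfr.symm j)))) =
        (fun (j : Fin _) (i : LpIx N d) => p.ρ (g j i)) ∘ Fin.cast hfr.symm := by
      funext j α
      change coeff α.1 (map p.ρ (lpMk _)) = _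
      rw [coeff_map, lpMk_coeff]
      rfl
    rw [h1]
    exact hg1.comp _ (Fin.cast_injective _)
  · obtain ⟨F, hF, hFg⟩ := hg2 (Fin.cast hfr.symm j)
    have h1 : map p.B.subtype (lpMk (g (Fin.cast hfr.symm j))) = F := by
      refine lpCv_inj (d := d) (lp_map_hom _ (lpMk_hom _)) (hV' F hF) ?_
      rw [hFg]
      funext α
      change coeff α.1 (map p.B.subtype (lpMk _)) = _
      rw [coeff_map, lpMk_coeff]
      rfl
    rw [h1]
    exact hF

end Pool.Agent.Lib.MP_ed661f_ag.V
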