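import Pool.Agent.Lib.MP_ed661f_ag.V.Pt1
import Pool.Agent.Lib.MP_ed661f_ag.V.LatPoly

/-!
The inequality for forms on the section of the threefold.
-/

set_option autoImplicit false

open MvPolynomial

namespace Pool.Agent.Lib.MP_ed661f_ag.V

open Pool.Agent.Lib.MP_ed661f_ag.H Pool.Agent.Lib.MP_ed661f_ag.S

section

variable {A A' R R' σ : Type*} [CommRing A] [CommRing A'] [CommRing R] [CommRing R']
  [Algebra A R] [Algebra A' R']

private theorem c1_aeval (φ : A →+* A') (Φ : R →+* R')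
    (hc : ∀ a, Φ (algebraMap A R a) = algebraMap A' R' (φ a)) (x : σ → R)
    (Q : MvPolynomial σ A) : Φ (aeval x Q) = aeval (fun i => Φ (x i)) (map φ Q) := by
  have h : Φ.comp (algebraMap A R) = (algebraMap A' R').comp φ := RingHom.ext hc
  rw [MvPolynomial.map_aeval, h, aeval_def, eval₂_map]
  rfl

end

private theorem c1_phi {N : ℕ} {p : Place} (ψ : Fin (N + 1) → MvPowerSeries (Fin 2) p.B)
    (T : MvPolynomial (Fin (N + 1)) p.B) :
    MvPowerSeries.map p.B.subtype (aeval ψ T) = phi1 ψ (map p.B.subtype T) := by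
  unfold phi1
  refine c1_aeval p.B.subtype (MvPowerSeries.map p.B.subtype) (fun a => ?_) _ T
  rw [MvPowerSeries.algebraMap_apply, MvPowerSeries.algebraMap_apply, MvPowerSeries.map_C]
  rfl

private theorem c1_red {N : ℕ} {p : Place} (ψ : Fin (N + 1) → MvPowerSeries (Fin 2) p.B)
    (T : MvPolynomial (Fin (N + 1)) p.B) :
    MvPowerSeries.map p.ρ (aeval ψ T) = red1 ψ (map p.ρ T) := by
  unfold red1
  refine c1_aeval p.ρ (MvPowerSeries.map p.ρ) (fun a => ?_) _ T
  rw [MvPowerSeries.algebraMap_apply, MvPowerSeries.algebraMap_apply, MvPowerSeries.map_C]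
  rfl

private theorem c1_degreeOf (G : Poly 3) : degreeOf 4 (inc4 G) = 0 := by
  rw [← Nat.le_zero, degreeOf_le_iff]
  intro m hm
  rw [Nat.le_zero]
  by_contra h
  have h1 : (4 : Fin 5) ∈ (inc4 G).vars :=
    (mem_vars_iff_mem_support 4).2 ⟨m, hm, Finsupp.mem_support_iff.2 h⟩
  have h2 := vars_rename Fin.castSucc G h1
  obtain ⟨j, -, hj⟩ := Finset.mem_image.1 h2
  have h3 := congrArg Fin.val hj
  have h4 := j.2
  rw [Fin.val_castSucc] at h3
  change (j : ℕ) = 4 at h3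
  omega

/-- `P` does not divide a nonzero polynomial in the first four variables -/
private theorem c1_not_dvd {e : ℕ} {P : Poly 4} (he : 1 ≤ e)
    (hP : coeff (Finsupp.single 4 e) P = 1) {G : Poly 3} (hG : G ≠ 0) : ¬ P ∣ inc4 G := by
  rintro ⟨Q, hQ⟩
  have h1 : inc4 G ≠ 0 := fun h =>
    hG (rename_injective _ (Fin.castSucc_injective 4) (h.trans (map_zero _).symm))
  have hne : P * Q ≠ 0 := hQ ▸ h1
  have h2 := degreeOf_mul_eq (n := 4) (left_ne_zero_of_mul hne) (right_ne_zero_of_mul hne)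
  rw [← hQ, c1_degreeOf] at h2
  have h3 : coeff (Finsupp.single 4 e) P ≠ 0 := by
    rw [hP]
    exact one_ne_zero
  have h4 := monomial_le_degreeOf 4 (mem_support_iff.2 h3)
  rw [Finsupp.single_eq_same] at h4
  omega

/-- a large multiple -/
private theorem c1_large {D n k w : ℕ} (q k0 : ℕ) (hk : 1 ≤ k) (h : D * k ^ 2 < n * w ^ 2) :
    ∃ r, k0 ≤ k * r ∧ D * (k * r + q) ^ 2 < n * (r * w) ^ 2 := by
  obtain ⟨r, hr⟩ : ∃ r, r = 2 * D * k * q + D * q ^ 2 + k0 + 1 := ⟨_, rfl⟩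
  refine ⟨r, ?_, ?_⟩
  · have h1 : 1 * r ≤ k * r := Nat.mul_le_mul_right r hk
    omega
  · have h1 : r * (2 * D * k * q) + r * (D * q ^ 2) + r ≤ r * r := by
      have h2 : 2 * D * k * q + D * q ^ 2 + 1 ≤ r := by omega
      have h3 := Nat.mul_le_mul_left r h2
      rw [mul_add, mul_add, mul_one] at h3
      exact h3
    have h2 : D * q ^ 2 ≤ r * (D * q ^ 2) := Nat.le_mul_of_pos_left _ (by omega)
    have h3 : (D * k ^ 2 + 1) * (r * r) ≤ n * w ^ 2 * (r * r) := Nat.mul_le_mul_right _ h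
    have e1 : D * (k * r + q) ^ 2 = D * k ^ 2 * (r * r) + r * (2 * D * k * q) + D * q ^ 2 := by
      ring
    have e2 : n * (r * w) ^ 2 = n * w ^ 2 * (r * r) := by ring
    rw [e1, e2]
    rw [add_mul, one_mul] at h3
    have h4 : 1 ≤ r := by omega
    linarith

/-- **the inequality for forms** on the section of the threefold by `G = map p.B.subtype GB`.

Proof. Let `J` be the radical. Let `H` be a form of degree `k` with `Van w (phi1 (ψ i) H)` for all
`i` and `D k ^ 2 < n w ^ 2`; suppose `H ∉ J`, that is `H ^ r ∉ I ⊔ (G)` for all `r`. If `k = 0`,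
`H = C c`, and `w ≥ 1`, `n ≥ 1` give `c = 0`, a contradiction; so `k ≥ 1`. Let `r` be large, in
particular `k r ≥ k0` and `D (k r + q) ^ 2 < n (r w) ^ 2`. As `sub5 L (inc4 G1) ∉ I` (`h.hker`,
`hG10`: `P` does not divide `inc4 G1 ≠ 0`, because of the coefficient at `X 4 ^ e`, `e ≥ 1`),
`lat_mod` for `H ^ r` gives `c`, `A`, `T` with `map p.B.subtype T = C c * H ^ r + A`, and
`T' = map p.ρ T ∉ I ⊔ (sub5 L (inc4 G1))`. Since `phi1 (ψ i)` kills `I` and `G` (`hI`, `hG`), it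
kills `A`, and `Van (r w) (phi1 (ψ i) (map p.B.subtype T))`; this is the image of `aeval (ψ i) T`, so
`Van (r w) (aeval (ψ i) T)` (`Van.of_map`), and so `Van (r w) (red1 (ψ i) T')` (`Van.map`). By
`h.cond_hom` there is a form `Q` of degree `k r + q` with `sub5 L (inc4 s) * T' - sub5 L Q ∈ I`, so
`aeval (ε i) Q = red1 (ψ i) (sub5 L Q)` also vanishes to order `r w` (`redI`, `red`,
`Van.mul_left`). By `hFI`, `Q ∈ Ideal.span {P, inc4 G1}`, so `sub5 L Q ∈ I ⊔ (sub5 L (inc4 G1))`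
(`h.hker`), `sub5 L (inc4 s) * T' ∈ I ⊔ (sub5 L (inc4 G1))`, and by `htors`
`T' ∈ I ⊔ (sub5 L (inc4 G1))`, a contradiction. -/
theorem core1 {N e q m D n : ℕ} {I : Ideal (Poly N)} (hI : IsThreefold I) {K : Subfield ℂ}
    (hK : DefinedOver K I) {P : Poly 4} {L : Fin 5 → Poly N} {s : Poly 3}
    (h : Proj5 I e q P L s) {p : Place} (hKp : K ≤ p.K) {G1 : Poly 3}
    (hG1 : G1.IsHomogeneous m) (hG10 : G1 ≠ 0) {GB : MvPolynomial (Fin (N + 1)) p.B}
    (hGB : GB.IsHomogeneous m) (hρ : map p.ρ GB = sub5 L (inc4 G1)) {k0 : ℕ}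
    (htors : ∀ k, k0 ≤ k → ∀ T : Poly N, T.IsHomogeneous k →
      sub5 L (inc4 s) * T ∈ I ⊔ Ideal.span {sub5 L (inc4 G1)} →
      T ∈ I ⊔ Ideal.span {sub5 L (inc4 G1)})
    {v1 : Fin n → Fin 5 → ℂ} {a b : Fin n → p.B}
    {ψ : Fin n → Fin (N + 1) → MvPowerSeries (Fin 2) p.B}
    {ε : Fin n → Fin 5 → MvPowerSeries (Fin 2) ℂ}
    (hpt : ∀ i, Pt1 p I P L G1 GB (v1 i) (a i) (b i) (ψ i) (ε i))
    (hFI : GFI D (Ideal.span {P, inc4 G1}) (fun i => aeval (ε i))) :
    GFI D (I ⊔ Ideal.span {map p.B.subtype GB}).radical (fun i => phi1 (ψ i)) := by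
  intro k w H hH hv hlt
  by_contra hcon
  have hn : 0 < n := by
    rcases Nat.eq_zero_or_pos n with h0 | h0
    · rw [h0, zero_mul] at hlt
      exact absurd hlt (Nat.not_lt_zero _)
    · exact h0
  have hw : 0 < w := by
    rcases Nat.eq_zero_or_pos w with h0 | h0
    · rw [h0, zero_pow two_ne_zero, mul_zero] at hlt
      exact absurd hlt (Nat.not_lt_zero _)
    · exact h0
  have hk : 1 ≤ k := by
    by_contra hk0
    have hk0' : k = 0 := by omega
    subst hk0'
    have h1 : H = C (coeff 0 H) := (totalDegree_eq_zero_iff_eq_C).1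
      (Nat.le_zero.1 hH.totalDegree_le)
    have h2 := (hv ⟨0, hn⟩).mono (show 1 ≤ w from hw)
    rw [van_one_iff, h1] at h2
    have h3 : phi1 (ψ ⟨0, hn⟩) (C (coeff 0 H)) = MvPowerSeries.C (coeff 0 H) := by
      unfold phi1
      rw [aeval_C]
      rfl
    rw [h3, MvPowerSeries.constantCoeff_C] at h2
    apply hcon
    rw [h1, h2, C_0]
    exact Ideal.zero_mem _
  obtain ⟨r, hr0, hr⟩ := c1_large q k0 hk hlt
  have hHr : H ^ r ∉ I ⊔ Ideal.span {map p.B.subtype GB} := fun hmem => hcon ⟨r, hmem⟩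
  have hnI : map p.ρ GB ∉ I := by
    rw [hρ, h.hker]
    exact c1_not_dvd h.he h.hcoeff hG10
  obtain ⟨c, A, T, hA, hT, hTe, hTn⟩ :=
    lat_mod hI.prime hI.homogeneous hK p hKp hGB hnI (hH.pow r) hHr
  rw [hρ] at hTn
  -- the representative vanishes to the order `r w`
  have hvT : ∀ i, Van (r * w) (aeval (ψ i) T) := by
    intro i
    have hA0 : phi1 (ψ i) A = 0 := by
      have h1 : I ⊔ Ideal.span {map p.B.subtype GB} ≤ RingHom.ker (phi1 (ψ i)) := by
        refine sup_le (fun f hf => ?_) ?_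
        · exact (hpt i).hI f hf
        · rw [Ideal.span_singleton_le_iff_mem]
          change phi1 (ψ i) (map p.B.subtype GB) = 0
          rw [← c1_phi, (hpt i).hG, map_zero]
      exact h1 hA
    refine Van.of_map (subtype_injective p) ?_
    rw [c1_phi, hTe, map_add, hA0, add_zero, map_mul, map_pow]
    exact ((hv i).pow r).mul_left _
  have hT' : (map p.ρ T).IsHomogeneous (k * r) := hT.map p.ρ
  obtain ⟨Q, hQ, hQI⟩ := h.cond_hom hI.homogeneous hT'
  have hvQ : ∀ i, Van (r * w) (aeval (ε i) Q) := by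
    intro i
    have h1 := (hpt i).redI _ hQI
    rw [map_sub, sub_eq_zero, map_mul, (hpt i).red Q] at h1
    rw [← h1, ← c1_red]
    exact ((hvT i).map p.ρ).mul_left _
  have hQ' := hFI (k * r + q) (r * w) Q hQ hvQ hr
  have hLQ : sub5 L Q ∈ I ⊔ Ideal.span {sub5 L (inc4 G1)} := by
    obtain ⟨a', b', hab⟩ := Ideal.mem_span_pair.1 hQ'
    rw [← hab, map_add, map_mul, map_mul]
    refine Ideal.add_mem _ (Ideal.mul_mem_left _ _ ?_) (Ideal.mul_mem_left _ _ ?_)
    · exact Ideal.mem_sup_left ((h.hker P).2 dvd_rfl)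
    · exact Ideal.mem_sup_right (Ideal.mem_span_singleton_self _)
  have hsT : sub5 L (inc4 s) * map p.ρ T ∈ I ⊔ Ideal.span {sub5 L (inc4 G1)} := by
    have h0 : I ≤ I ⊔ Ideal.span {sub5 L (inc4 G1)} := le_sup_left
    have h1 := Ideal.add_mem _ (h0 hQI) hLQ
    rwa [sub_add_cancel] at h1
  exact hTn (htors (k * r) hr0 _ hT' hsT)

end Pool.Agent.Lib.MP_ed661f_ag.V
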