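import Pool.Agent.Lib.MP_ed661f_ag.V.NfA

/-!
The normal form modulo `P` and `G`.
-/

set_option autoImplicit false

open MvPolynomial

namespace Pool.Agent.Lib.MP_ed661f_ag.V

open Pool.Agent.Lib.MP_ed661f_ag.H

/-- the normal form of a monomial -/
private theorem nf_mono {e m : ℕ} {θ : PowerSeries ℂ} {E : ℕ → Finset ℕ}
    {b : ℕ → ℕ → Poly 4} (hE : Ech e θ E b) {k : ℕ} {γ : Fin 5 →₀ ℕ} (hγ : γ.degree = k)
    (h4 : γ 4 < e) (h2 : γ 2 < m) (c : ℂ) :
    ∃ a : ℕ × ℕ × ℕ → ℂ, (monomial γ c : Poly 4) = ∑ t ∈ idx e m k E, C (a t) * nfb k b t := by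
  classical
  obtain ⟨γ', hγ'⟩ : ∃ γ' : Fin 5 →₀ ℕ, γ' = (γ.erase 2).erase 3 := ⟨_, rfl⟩
  have e2 : γ' 2 = 0 := by simp [hγ', Finsupp.erase]
  have e3 : γ' 3 = 0 := by simp [hγ', Finsupp.erase]
  have e4 : γ' 4 = γ 4 := by simp [hγ', Finsupp.erase]
  have hdec : γ = Finsupp.single 2 (γ 2) + Finsupp.single 3 (γ 3) + γ' := by
    ext i
    fin_cases i <;> simp [hγ', Finsupp.erase]
  have hdeg : γ 2 + γ 3 + γ'.degree = k := by
    rw [← hγ]
    conv_rhs => rw [hdec]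
    simp [map_add]
  have hS : (monomial γ' c : Poly 4).IsHomogeneous (k - γ 2 - γ 3) :=
    isHomogeneous_monomial c (by omega)
  have hInS : InS e (monomial γ' c : Poly 4) := by
    intro δ hδ
    have := Finset.mem_singleton.1 (support_monomial_subset hδ)
    subst this
    exact ⟨e2, e3, by rw [e4]; exact h4⟩
  obtain ⟨a0, ha0⟩ := hE.span (k - γ 2 - γ 3) _ hS hInS
  refine ⟨fun t => if t.1 = γ 2 ∧ t.2.1 = γ 3 then a0 t.2.2 else 0, ?_⟩
  have hmon : (monomial γ c : Poly 4) = X 2 ^ γ 2 * X 3 ^ γ 3 * monomial γ' c := by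
    rw [X_pow_eq_monomial, X_pow_eq_monomial, monomial_mul, monomial_mul, one_mul, one_mul,
      ← hdec]
  have hsub : (E (k - γ 2 - γ 3)).image (fun l => (γ 2, γ 3, l)) ⊆ idx e m k E := by
    intro t ht
    obtain ⟨l, hl, rfl⟩ := Finset.mem_image.1 ht
    have h1 : l ≤ e * k := (hE.le _ l hl).trans (Nat.mul_le_mul_left e (by omega))
    unfold idx
    simp only [Finset.mem_filter, Finset.mem_product, Finset.mem_range]
    exact ⟨⟨h2, by omega, by omega⟩, by omega, hl⟩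
  rw [← Finset.sum_subset hsub, Finset.sum_image]
  · rw [hmon, ha0, Finset.mul_sum]
    refine Finset.sum_congr rfl fun l hl => ?_
    simp only [and_self, if_true, nfb]
    ring
  · intro l _ l' _ hll
    simpa using hll
  · intro t ht ht'
    have hne : ¬ (t.1 = γ 2 ∧ t.2.1 = γ 3) := by
      rintro ⟨h1, h3⟩
      apply ht'
      unfold idx at ht
      simp only [Finset.mem_filter] at ht
      refine Finset.mem_image.2 ⟨t.2.2, ?_, ?_⟩
      · rw [← h1, ← h3]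
        exact ht.2.2
      · rw [← h1, ← h3]
    show C (if t.1 = γ 2 ∧ t.2.1 = γ 3 then a0 t.2.2 else 0) * nfb k b t = 0
    rw [if_neg hne, C_0, zero_mul]

/-- **the normal form**.

Proof. With `Q'` as in `exists_rem_two`, `Q' = ∑_(i < m) ∑_j X 2 ^ i X 3 ^ j S_(i,j)` with
`S_(i,j)` a form of degree `k - i - j` in `InS e` (`S_(i,j) = 0` if `i + j > k`), and `hE.span`
expands the `S_(i,j)` in the `b (k - i - j) l`; by `hE.le`, `l ≤ e * (k - i - j) ≤ e * k`. -/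
theorem exists_nf {e m : ℕ} {P : Poly 4} (hP : P.IsHomogeneous e)
    (hc : coeff (Finsupp.single 4 e) P = 1) {G1 : Poly 3} (hG1 : G1.IsHomogeneous m)
    (hG2 : coeff (Finsupp.single 2 m) G1 ≠ 0) {θ : PowerSeries ℂ} {E : ℕ → Finset ℕ}
    {b : ℕ → ℕ → Poly 4} (hE : Ech e θ E b) {k : ℕ} {Q : Poly 4} (hQ : Q.IsHomogeneous k) :
    ∃ a : ℕ × ℕ × ℕ → ℂ,
      Q - ∑ t ∈ idx e m k E, C (a t) * nfb k b t ∈ Ideal.span {P, inc4 G1} := by
  classical
  obtain ⟨Q', hQQ, hQ', hsupp⟩ := exists_rem_two hP hc hG1 hG2 hQ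
  have hmono : ∀ γ ∈ Q'.support, ∃ a : ℕ × ℕ × ℕ → ℂ,
      (monomial γ (coeff γ Q') : Poly 4) = ∑ t ∈ idx e m k E, C (a t) * nfb k b t := by
    intro γ hγ
    have hdeg : γ.degree = k := by
      have := hQ' (mem_support_iff.1 hγ)
      rwa [Finsupp.degree_eq_weight_one]
    exact nf_mono hE hdeg (hsupp γ hγ).1 (hsupp γ hγ).2 _
  choose! a ha using hmono
  refine ⟨fun t => ∑ γ ∈ Q'.support, a γ t, ?_⟩
  have hsum : Q' = ∑ t ∈ idx e m k E, C (∑ γ ∈ Q'.support, a γ t) * nfb k b t := by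
    conv_lhs => rw [Q'.as_sum]
    rw [Finset.sum_congr rfl ha, Finset.sum_comm]
    refine Finset.sum_congr rfl fun t _ => ?_
    rw [map_sum, Finset.sum_mul]
  rw [← hsum]
  exact hQQ

end Pool.Agent.Lib.MP_ed661f_ag.V
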