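import Pool.Agent.Lib.MP_ed661f_ag.V.Cyc

/-!
The product of the conjugates of a form: derivatives and divisibility.
-/

set_option autoImplicit false

open MvPolynomial

namespace Pool.Agent.Lib.MP_ed661f_ag.V

open Pool.Agent.Lib.MP_ed661f_ag.H

private theorem cycb_mono (ω : ℂ) (s : Fin 4 →₀ ℕ) (a : ℂ) :
    cyc ω (monomial s a : Poly 3) = monomial s (ω ^ (s 2) * a) := by
  unfold cyc
  rw [aeval_monomial, monomial_eq, Finsupp.prod_fintype _ _ (fun i => pow_zero _),
    Finsupp.prod_fintype _ _ (fun i => pow_zero _), Fin.prod_univ_four, Fin.prod_univ_four]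
  simp only [algebraMap_eq, Matrix.cons_val_zero, Matrix.cons_val_one, Matrix.cons_val,
    mul_pow, C_mul, C_pow]
  ring

private theorem cycb_coeff (ω : ℂ) (P : Poly 3) (γ : Fin 4 →₀ ℕ) :
    coeff γ (cyc ω P) = ω ^ (γ 2) * coeff γ P := by
  induction P using MvPolynomial.induction_on' with
  | monomial s a =>
    rw [cycb_mono, coeff_monomial, coeff_monomial]
    split_ifs with h
    · rw [h]
    · rw [mul_zero]
  | add p q hp hq => rw [map_add, coeff_add, coeff_add, hp, hq, mul_add]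

private theorem cycb_eval (u : Fin 4 → Poly 3) (w : Fin 4 → ℂ) (P : Poly 3) :
    eval w (aeval u P) = eval (fun i => eval w (u i)) P := by
  induction P using MvPolynomial.induction_on with
  | C a => simp
  | add p q hp hq => rw [map_add, map_add, hp, hq, map_add]
  | mul_X p i hp => rw [map_mul, map_mul, hp, aeval_X, map_mul, eval_X]

private theorem cycb_eval' (ω : ℂ) (w : Fin 4 → ℂ) (P : Poly 3) :
    eval w (cyc ω P) = eval ![w 0, w 1, ω * w 2, w 3] P := by
  unfold cyc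
  rw [cycb_eval]
  congr 1
  congr 1
  funext i
  fin_cases i <;> simp

private theorem cycb_dvd {e : ℕ} (he : 1 ≤ e) {F : Poly 3}
    (hirr : Irreducible F) {v : Fin 4 → ℂ}
    (h0 : v 0 = 1) (hv : eval v F = 0)
    (hω : ∀ ω : ℂ, ω ^ e = 1 → ω ≠ 1 → eval ![1, v 1, ω * v 2, v 3] F ≠ 0) {H : Poly 3}
    (hsupp : ∀ γ ∈ H.support, e ∣ γ 2) (hd : F ∣ H) :
    ∏ ω ∈ Polynomial.nthRootsFinset e (1 : ℂ), cyc ω F ∣ H := by
  have hne : ∀ ω : ℂ, ω ^ e = 1 → ω ≠ 0 := by
    rintro ω hω rfl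
    rw [zero_pow (by omega)] at hω
    exact zero_ne_one hω
  have hirr' : ∀ ω : ℂ, ω ^ e = 1 → Irreducible (cyc ω F) := by
    intro ω hω'
    have hcomp : ∀ (ω₁ ω₂ : ℂ), ω₁ * ω₂ = 1 → (cyc ω₁).comp (cyc ω₂) = AlgHom.id ℂ (Poly 3) := by
      intro ω₁ ω₂ h12
      apply AlgHom.ext
      intro P
      rw [AlgHom.comp_apply, AlgHom.id_apply]
      ext γ
      rw [cycb_coeff, cycb_coeff, ← mul_assoc, ← mul_pow, h12, one_pow, one_mul]
    let E : Poly 3 ≃ₐ[ℂ] Poly 3 := AlgEquiv.ofAlgHom (cyc ω) (cyc ω⁻¹)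
      (hcomp _ _ (mul_inv_cancel₀ (hne ω hω'))) (hcomp _ _ (inv_mul_cancel₀ (hne ω hω')))
    have hE : E F = cyc ω F := rfl
    rw [← hE]
    exact (MulEquiv.irreducible_iff E).2 hirr
  apply Finset.prod_dvd_of_isRelPrime
  · intro ω hω1 ω' hω2 hne'
    have h1 : ω ^ e = 1 := (Polynomial.mem_nthRootsFinset (by omega) 1).1 hω1
    have h2 : ω' ^ e = 1 := (Polynomial.mem_nthRootsFinset (by omega) 1).1 hω2
    change IsRelPrime (cyc ω F) (cyc ω' F)
    rw [(hirr' ω h1).isRelPrime_iff_not_dvd]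
    rintro ⟨Q, hQ⟩
    have h3 := congrArg (eval ![1, v 1, ω⁻¹ * v 2, v 3]) hQ
    rw [map_mul, cycb_eval', cycb_eval'] at h3
    have h4 : eval ![(![1, v 1, ω⁻¹ * v 2, v 3] : Fin 4 → ℂ) 0,
        (![1, v 1, ω⁻¹ * v 2, v 3] : Fin 4 → ℂ) 1, ω * (![1, v 1, ω⁻¹ * v 2, v 3] : Fin 4 → ℂ) 2,
        (![1, v 1, ω⁻¹ * v 2, v 3] : Fin 4 → ℂ) 3] F = 0 := by
      rw [← hv]
      congr 1
      congr 1
      funext i
      fin_cases i
      · exact h0.symm
      · rfl
      · change ω * (ω⁻¹ * v 2) = v 2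
        rw [← mul_assoc, mul_inv_cancel₀ (hne ω h1), one_mul]
      · rfl
    rw [h4, zero_mul] at h3
    refine hω (ω' * ω⁻¹) ?_ ?_ ?_
    · rw [mul_pow, inv_pow, h1, h2, inv_one, one_mul]
    · intro h5
      apply hne'
      rw [mul_inv_eq_one₀ (hne ω h1)] at h5
      exact h5.symm
    · rw [← h3]
      congr 1
      congr 1
      funext i
      fin_cases i
      · rfl
      · rfl
      · change ω' * ω⁻¹ * v 2 = ω' * (ω⁻¹ * v 2)
        rw [mul_assoc]
      · rfl
  · intro ω hω1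
    have h1 : ω ^ e = 1 := (Polynomial.mem_nthRootsFinset (by omega) 1).1 hω1
    have h2 : cyc ω H = H := by
      ext γ
      rw [cycb_coeff]
      by_cases hγ : γ ∈ H.support
      · obtain ⟨k, hk⟩ := hsupp γ hγ
        rw [hk, pow_mul, h1, one_pow, one_mul]
      · rw [notMem_support_iff.1 hγ, mul_zero]
    rw [← h2]
    exact map_dvd (cyc ω) hd

private theorem cycb_der (i : Fin 4) (w : Fin 4 → ℂ) (u : Fin 4 → Polynomial ℂ)
    (hu : ∀ j, j ≠ i → u j = Polynomial.C (w j)) (hi : u i = Polynomial.X) (P : Poly 3) :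
    (aeval u P).eval (w i) = eval w P ∧
      (Polynomial.derivative (aeval u P)).eval (w i) = eval w (pderiv i P) := by
  have huj : ∀ j, (u j).eval (w i) = w j := by
    intro j
    by_cases h : j = i
    · rw [h, hi, Polynomial.eval_X]
    · rw [hu j h, Polynomial.eval_C]
  induction P using MvPolynomial.induction_on with
  | C a =>
    rw [aeval_C, eval_C, pderiv_C, map_zero]
    change (Polynomial.C a).eval (w i) = a ∧ (Polynomial.derivative (Polynomial.C a)).eval (w i) = 0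
    rw [Polynomial.eval_C, Polynomial.derivative_C, Polynomial.eval_zero]
    exact ⟨rfl, rfl⟩
  | add p q hp hq =>
    rw [map_add, map_add, map_add, Polynomial.eval_add, map_add, Polynomial.eval_add, hp.1, hq.1,
      hp.2, hq.2, map_add]
    exact ⟨rfl, rfl⟩
  | mul_X p j hp =>
    rw [map_mul, aeval_X, Polynomial.eval_mul, hp.1, huj, map_mul, eval_X,
      Polynomial.derivative_mul, Polynomial.eval_add, Polynomial.eval_mul, Polynomial.eval_mul,
      hp.2, huj, hp.1, Derivation.leibniz, smul_eq_mul, smul_eq_mul, map_add, map_mul, map_mul,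
      eval_X]
    refine ⟨rfl, ?_⟩
    by_cases h : j = i
    · rw [h, hi, Polynomial.derivative_X, Polynomial.eval_one, pderiv_X_self, map_one]
      ring
    · rw [hu j h, Polynomial.derivative_C, Polynomial.eval_zero, pderiv_X_of_ne h, map_zero]
      ring

/-- the derivative at a point where only the first factor vanishes.

Proof. Apply `pderiv 3` to the identity `hG`: the left hand side is
`(pderiv 2 G)(1, X 1, X 3, X 2 ^ e)` (chain rule), the right hand side is
`∑_ω (pderiv 3 F)(1, X 1, ω X 2, X 3) ∏_(ω' ≠ ω) F(1, X 1, ω' X 2, X 3)`. Evaluate at `v`: only the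
term `ω = 1` is left, and it is not zero. The first statement: evaluate `hG` at `v`. -/
theorem cyc_deriv {e : ℕ} (he : 1 ≤ e) {F G : Poly 3} {v : Fin 4 → ℂ} (h0 : v 0 = 1)
    (hF : eval v F = 0) (h3 : eval v (pderiv 3 F) ≠ 0)
    (hω : ∀ ω : ℂ, ω ^ e = 1 → ω ≠ 1 → eval ![1, v 1, ω * v 2, v 3] F ≠ 0)
    (hG : (aeval ![1, X 1, X 3, X 2 ^ e] G : Poly 3) =
      ∏ ω ∈ Polynomial.nthRootsFinset e (1 : ℂ), aeval ![1, X 1, C ω * X 2, X 3] F) :
    eval ![1, v 1, v 3, v 2 ^ e] G = 0 ∧ eval ![1, v 1, v 3, v 2 ^ e] (pderiv 2 G) ≠ 0 := by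
  have h1mem : (1 : ℂ) ∈ Polynomial.nthRootsFinset e (1 : ℂ) :=
    (Polynomial.mem_nthRootsFinset (by omega) 1).2 (one_pow e)
  have hvec : (![1, v 1, v 2, v 3] : Fin 4 → ℂ) = v := by
    funext i
    fin_cases i
    · exact h0.symm
    · rfl
    · rfl
    · rfl
  have key := cyc_aeval hG (A := Polynomial ℂ) (Polynomial.C (v 1)) Polynomial.X
    (Polynomial.C (v 2))
  have hL := cycb_der 2 ![1, v 1, v 3, v 2 ^ e]
    ![1, Polynomial.C (v 1), Polynomial.X, Polynomial.C (v 2) ^ e] (by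
      intro j hj
      fin_cases j
      · exact Polynomial.C_1.symm
      · rfl
      · exact absurd rfl hj
      · exact (Polynomial.C_pow).symm) rfl G
  have hR : ∀ ω : ℂ, _ := fun ω => cycb_der 3 ![1, v 1, ω * v 2, v 3]
    ![1, Polynomial.C (v 1), algebraMap ℂ (Polynomial ℂ) ω * Polynomial.C (v 2), Polynomial.X] (by
      intro j hj
      fin_cases j
      · exact Polynomial.C_1.symm
      · rfl
      · exact (Polynomial.C_mul).symm
      · exact absurd rfl hj) rfl F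
  change _ = eval _ G ∧ _ = eval _ (pderiv 2 G) at hL
  rw [key] at hL
  have e3 : (![1, v 1, v 3, v 2 ^ e] : Fin 4 → ℂ) 2 = v 3 := rfl
  have e4 : ∀ ω : ℂ, (![1, v 1, ω * v 2, v 3] : Fin 4 → ℂ) 3 = v 3 := fun _ => rfl
  rw [e3] at hL
  simp only [e4] at hR
  rw [← hL.1, ← hL.2]
  constructor
  · rw [Polynomial.eval_prod]
    apply Finset.prod_eq_zero h1mem
    rw [(hR 1).1, one_mul, hvec, hF]
  · rw [Polynomial.derivative_prod_finset, Polynomial.eval_finsetSum, Finset.sum_eq_single (1 : ℂ)]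
    · rw [Polynomial.eval_mul, Polynomial.eval_prod, (hR 1).2, one_mul, hvec]
      refine mul_ne_zero (Finset.prod_ne_zero_iff.2 fun ω hω1 => ?_) h3
      rw [(hR ω).1]
      exact hω ω ((Polynomial.mem_nthRootsFinset (by omega) 1).1 (Finset.mem_of_mem_erase hω1))
        (Finset.ne_of_mem_erase hω1)
    · intro ω _ hne
      rw [Polynomial.eval_mul, Polynomial.eval_prod]
      apply mul_eq_zero_of_left
      apply Finset.prod_eq_zero (Finset.mem_erase.2 ⟨hne.symm, h1mem⟩)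
      rw [(hR 1).1, one_mul, hvec, hF]
    · intro h
      exact absurd h1mem h

/-- **a form which is too small in `X 3` is not a multiple of `F`**.

Proof. Let `F ∣ H`. For `ω ^ e = 1`: `cyc ω H = H` by the first part of `hsupp`, so `cyc ω F ∣ H`. The
`cyc ω F` are irreducible (`cyc ω` is an automorphism with inverse `cyc ω⁻¹`) and pairwise not
associated: if `cyc ω F` and `cyc ω' F` are associated, so are `F` and `cyc (ω' / ω) F`, but `F`
vanishes at `v` and `cyc (ω' / ω) F` does not, by `hω` (if `ω' ≠ ω`). So their product divides `H`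
(`Finset.prod_primes_dvd`). Its degree in `X 3` is `e μ` (each factor has the nonzero coefficient
`coeff (single 3 μ) F` at `X 3 ^ μ`), there are `e` roots of unity, and the degree of `H ≠ 0` in
`X 3` is smaller. -/
theorem not_dvd {e μ : ℕ} (he : 1 ≤ e) {F : Poly 3} (hF : F.IsHomogeneous μ)
    (hirr : Irreducible F) (hc : coeff (Finsupp.single 3 μ) F ≠ 0) {v : Fin 4 → ℂ}
    (h0 : v 0 = 1) (hv : eval v F = 0)
    (hω : ∀ ω : ℂ, ω ^ e = 1 → ω ≠ 1 → eval ![1, v 1, ω * v 2, v 3] F ≠ 0) {H : Poly 3}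
    (hH : H ≠ 0) (hsupp : ∀ γ ∈ H.support, e ∣ γ 2 ∧ γ 3 < e * μ) : ¬ F ∣ H := by
  intro hd
  obtain ⟨Q, hQ⟩ := cycb_dvd he hirr h0 hv hω (fun γ hγ => (hsupp γ hγ).1) hd
  have hQ0 : Q ≠ 0 := by
    rintro rfl
    exact hH (by rw [hQ, mul_zero])
  have hP0 : ∏ ω ∈ Polynomial.nthRootsFinset e (1 : ℂ), cyc ω F ≠ 0 := by
    intro h
    exact hH (by rw [hQ, h, zero_mul])
  have hf0 : ∀ ω ∈ Polynomial.nthRootsFinset e (1 : ℂ), cyc ω F ≠ 0 :=
    Finset.prod_ne_zero_iff.1 hP0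
  obtain ⟨γ, hγ⟩ := support_nonempty.2 hH
  have hpos : 0 < e * μ := lt_of_le_of_lt (Nat.zero_le _) (hsupp γ hγ).2
  have hlt : degreeOf 3 H < e * μ := (degreeOf_lt_iff hpos).2 fun γ hγ => (hsupp γ hγ).2
  have hge : ∀ ω : ℂ, μ ≤ degreeOf 3 (cyc ω F) := by
    intro ω
    have h1 : Finsupp.single 3 μ ∈ (cyc ω F).support := by
      rw [mem_support_iff, cycb_coeff, Finsupp.single_eq_of_ne (by decide), pow_zero, one_mul]
      exact hc
    have h2 := monomial_le_degreeOf 3 h1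
    rwa [Finsupp.single_eq_same] at h2
  have hcard : (Polynomial.nthRootsFinset e (1 : ℂ)).card = e :=
    (Complex.isPrimitiveRoot_exp e (by omega)).card_nthRootsFinset
  rw [hQ, degreeOf_mul_eq hP0 hQ0, degreeOf_prod_eq _ _ hf0] at hlt
  have h3 : e * μ ≤ ∑ ω ∈ Polynomial.nthRootsFinset e (1 : ℂ), degreeOf 3 (cyc ω F) := by
    calc e * μ = ∑ _ω ∈ Polynomial.nthRootsFinset e (1 : ℂ), μ := by
          rw [Finset.sum_const, hcard, smul_eq_mul]
      _ ≤ _ := Finset.sum_le_sum fun ω _ => hge ω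
  omega

end Pool.Agent.Lib.MP_ed661f_ag.V
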