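import Pool.Agent.Lib.MP_ed661f_ag.V.Pt2
import Pool.Agent.Lib.MP_ed661f_ag.V.CycB

/-!
Properties of the points and germs of the scaled surface.
-/

set_option autoImplicit false

open MvPolynomial

namespace Pool.Agent.Lib.MP_ed661f_ag.V

open Pool.Agent.Lib.MP_ed661f_ag.H Pool.Agent.Lib.MP_ed661f_ag.S

section pt2c

variable {p : Place} {τ₁ τ₂ : p.B} {e : ℕ} {s t : p.B} {ξ y : MvPowerSeries (Fin 2) p.B}

/-- the constant coefficients over the valuation ring -/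
private noncomputable def pt2cB (p : Place) (τ₁ τ₂ : p.B) (e : ℕ) (s t : p.B)
    (ξ y : MvPowerSeries (Fin 2) p.B) : Fin 5 → p.B :=
  fun j => MvPowerSeries.constantCoeff (crd p τ₁ τ₂ e s t ξ y j)

private theorem pt2c_0 : pt2cB p τ₁ τ₂ e s t ξ y 0 = 1 := by
  change MvPowerSeries.constantCoeff (1 : MvPowerSeries (Fin 2) p.B) = 1
  exact map_one _

private theorem pt2c_1 : pt2cB p τ₁ τ₂ e s t ξ y 1 = τ₁ * s := by
  change MvPowerSeries.constantCoeff
    (MvPowerSeries.C τ₁ * (MvPowerSeries.C s + MvPowerSeries.X 0)) = _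
  rw [map_mul, map_add, MvPowerSeries.constantCoeff_C, MvPowerSeries.constantCoeff_C,
    MvPowerSeries.constantCoeff_X, add_zero]

private theorem pt2c_2 : pt2cB p τ₁ τ₂ e s t ξ y 2 = τ₂ * MvPowerSeries.constantCoeff ξ := by
  change MvPowerSeries.constantCoeff (MvPowerSeries.C τ₂ * ξ) = _
  rw [map_mul, MvPowerSeries.constantCoeff_C]

private theorem pt2c_3 : pt2cB p τ₁ τ₂ e s t ξ y 3 = τ₂ * t ^ e := by
  change MvPowerSeries.constantCoeff
    (MvPowerSeries.C τ₂ * (MvPowerSeries.C t + MvPowerSeries.X 1) ^ e) = _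
  rw [map_mul, map_pow, map_add, MvPowerSeries.constantCoeff_C, MvPowerSeries.constantCoeff_C,
    MvPowerSeries.constantCoeff_X, add_zero]

private theorem pt2c_4 : pt2cB p τ₁ τ₂ e s t ξ y 4 = MvPowerSeries.constantCoeff y := rfl

private theorem pt2c_pnt (j : Fin 5) :
    pnt p τ₁ τ₂ e s t ξ y j = ((pt2cB p τ₁ τ₂ e s t ξ y j : p.B) : ℂ) := rfl

private theorem pt2c_const (Q : Poly 4) :
    MvPowerSeries.constantCoeff (psi p τ₁ τ₂ e s t ξ y Q) =
      eval (pnt p τ₁ τ₂ e s t ξ y) Q := by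
  have h : (MvPowerSeries.constantCoeff.comp
      (psi p τ₁ τ₂ e s t ξ y : Poly 4 →+* MvPowerSeries (Fin 2) ℂ) : Poly 4 →+* ℂ) =
      eval (pnt p τ₁ τ₂ e s t ξ y) := by
    refine MvPolynomial.ringHom_ext (fun a => ?_) fun j => ?_
    · rw [eval_C, RingHom.comp_apply]
      change MvPowerSeries.constantCoeff (psi p τ₁ τ₂ e s t ξ y (C a)) = a
      rw [psi, aeval_C]
      exact MvPowerSeries.constantCoeff_C a
    · rw [eval_X, RingHom.comp_apply]
      change MvPowerSeries.constantCoeff (psi p τ₁ τ₂ e s t ξ y (X j)) = _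
      rw [psi, aeval_X, MvPowerSeries.constantCoeff_map]
      rfl
  exact congrArg (fun g : Poly 4 →+* ℂ => g Q) h

/-- change of rings -/
private theorem pt2c_map (g : Fin 4 → MvPowerSeries (Fin 2) p.B) (Q : MvPolynomial (Fin 4) p.B) :
    aeval (fun j => MvPowerSeries.map p.B.subtype (g j)) (map p.B.subtype Q : Poly 3) =
      MvPowerSeries.map p.B.subtype (aeval g Q) := by
  have h : ((aeval (fun j => MvPowerSeries.map p.B.subtype (g j)) :
        Poly 3 →ₐ[ℂ] MvPowerSeries (Fin 2) ℂ) : Poly 3 →+* MvPowerSeries (Fin 2) ℂ).comp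
        (map p.B.subtype) =
      (MvPowerSeries.map p.B.subtype).comp
        ((aeval g : MvPolynomial (Fin 4) p.B →ₐ[p.B] MvPowerSeries (Fin 2) p.B) :
          MvPolynomial (Fin 4) p.B →+* MvPowerSeries (Fin 2) p.B) := by
    refine MvPolynomial.ringHom_ext (fun a => ?_) fun j => ?_
    · rw [RingHom.comp_apply, RingHom.comp_apply, map_C]
      change aeval _ (C (p.B.subtype a)) = MvPowerSeries.map p.B.subtype (aeval g (C a))
      rw [aeval_C, aeval_C]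
      exact (MvPowerSeries.map_C _ _).symm
    · rw [RingHom.comp_apply, RingHom.comp_apply, map_X]
      change aeval _ (X j) = MvPowerSeries.map p.B.subtype (aeval g (X j))
      rw [aeval_X, aeval_X]
  exact congrArg (fun g : MvPolynomial (Fin 4) p.B →+* MvPowerSeries (Fin 2) ℂ => g Q) h

private theorem pt2c_psi (hτ₁ : (τ₁ : ℂ) ≠ 0) (hτ₂ : (τ₂ : ℂ) ≠ 0) (Q : Poly 3) :
    psi p τ₁ τ₂ e s t ξ y (inc4 (unsc τ₁ τ₂ Q)) =
      aeval (fun j => MvPowerSeries.map p.B.subtype ((![1, MvPowerSeries.C s + MvPowerSeries.X 0, ξ,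
        (MvPowerSeries.C t + MvPowerSeries.X 1) ^ e] : Fin 4 → MvPowerSeries (Fin 2) p.B) j)) Q := by
  have key : ∀ (τ : p.B) (hτ : (τ : ℂ) ≠ 0) (f : MvPowerSeries (Fin 2) p.B),
      algebraMap ℂ (MvPowerSeries (Fin 2) ℂ) (τ : ℂ)⁻¹ *
        MvPowerSeries.map p.B.subtype (MvPowerSeries.C τ * f) =
        MvPowerSeries.map p.B.subtype f := by
    intro τ hτ f
    rw [map_mul, MvPowerSeries.map_C, ← mul_assoc]
    have h1 : algebraMap ℂ (MvPowerSeries (Fin 2) ℂ) (τ : ℂ)⁻¹ *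
        MvPowerSeries.C (p.B.subtype τ) = 1 := by
      change MvPowerSeries.C (τ : ℂ)⁻¹ * MvPowerSeries.C (τ : ℂ) = 1
      rw [← map_mul, inv_mul_cancel₀ hτ, map_one]
    rw [h1, one_mul]
  have h : ((psi p τ₁ τ₂ e s t ξ y).comp (inc4.comp (unsc τ₁ τ₂)) :
      Poly 3 →ₐ[ℂ] MvPowerSeries (Fin 2) ℂ) =
      aeval (fun j => MvPowerSeries.map p.B.subtype ((![1, MvPowerSeries.C s + MvPowerSeries.X 0, ξ,
        (MvPowerSeries.C t + MvPowerSeries.X 1) ^ e] : Fin 4 → MvPowerSeries (Fin 2) p.B) j)) := by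
    refine MvPolynomial.algHom_ext fun j => ?_
    rw [AlgHom.comp_apply, AlgHom.comp_apply, aeval_X]
    fin_cases j
    · change psi p τ₁ τ₂ e s t ξ y (inc4 (unsc τ₁ τ₂ (X 0))) = MvPowerSeries.map p.B.subtype 1
      rw [unsc, aeval_X]
      change psi p τ₁ τ₂ e s t ξ y (inc4 (X 0)) = _
      rw [inc4, rename_X, psi, aeval_X]
      rfl
    · change psi p τ₁ τ₂ e s t ξ y (inc4 (unsc τ₁ τ₂ (X 1))) =
        MvPowerSeries.map p.B.subtype (MvPowerSeries.C s + MvPowerSeries.X 0)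
      rw [unsc, aeval_X]
      change psi p τ₁ τ₂ e s t ξ y (inc4 (C (τ₁ : ℂ)⁻¹ * X 1)) = _
      rw [map_mul, map_mul, inc4, rename_X, rename_C, psi, aeval_X, aeval_C]
      exact key τ₁ hτ₁ _
    · change psi p τ₁ τ₂ e s t ξ y (inc4 (unsc τ₁ τ₂ (X 2))) = MvPowerSeries.map p.B.subtype ξ
      rw [unsc, aeval_X]
      change psi p τ₁ τ₂ e s t ξ y (inc4 (C (τ₂ : ℂ)⁻¹ * X 2)) = _
      rw [map_mul, map_mul, inc4, rename_X, rename_C, psi, aeval_X, aeval_C]
      exact key τ₂ hτ₂ _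
    · change psi p τ₁ τ₂ e s t ξ y (inc4 (unsc τ₁ τ₂ (X 3))) =
        MvPowerSeries.map p.B.subtype ((MvPowerSeries.C t + MvPowerSeries.X 1) ^ e)
      rw [unsc, aeval_X]
      change psi p τ₁ τ₂ e s t ξ y (inc4 (C (τ₂ : ℂ)⁻¹ * X 3)) = _
      rw [map_mul, map_mul, inc4, rename_X, rename_C, psi, aeval_X, aeval_C]
      exact key τ₂ hτ₂ _
  exact congrArg (fun g : Poly 3 →ₐ[ℂ] MvPowerSeries (Fin 2) ℂ => g Q) h

/-- the chain rule for the removal of the scaling -/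
private theorem pt2c_pd (a b : ℂ) (Q : Poly 3) :
    pderiv 2 (unsc a b Q) = C b⁻¹ * unsc a b (pderiv 2 Q) := by
  induction Q using MvPolynomial.induction_on with
  | C c =>
    rw [pderiv_C, map_zero, mul_zero, unsc, aeval_C]
    exact pderiv_C
  | add f g hf hg => rw [map_add, map_add, hf, hg, map_add, map_add, mul_add]
  | mul_X f i hf =>
    have hX : pderiv 2 (unsc a b (X i)) = C b⁻¹ * unsc a b (pderiv 2 (X i)) := by
      rw [unsc, aeval_X]
      fin_cases i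
      · change pderiv 2 (X 0 : Poly 3) = C b⁻¹ * aeval _ (pderiv 2 (X 0))
        rw [pderiv_X_of_ne (by decide), map_zero, mul_zero]
      · change pderiv 2 (C a⁻¹ * X 1 : Poly 3) = C b⁻¹ * aeval _ (pderiv 2 (X 1))
        rw [pderiv_C_mul, pderiv_X_of_ne (by decide), map_zero, mul_zero, mul_zero]
      · change pderiv 2 (C b⁻¹ * X 2 : Poly 3) = C b⁻¹ * aeval _ (pderiv 2 (X 2))
        rw [pderiv_C_mul, pderiv_X_self, map_one, mul_one]
      · change pderiv 2 (C b⁻¹ * X 3 : Poly 3) = C b⁻¹ * aeval _ (pderiv 2 (X 3))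
        rw [pderiv_C_mul, pderiv_X_of_ne (by decide), map_zero, mul_zero]
    rw [map_mul, Derivation.leibniz, hf, hX, Derivation.leibniz, map_add, smul_eq_mul, smul_eq_mul,
      smul_eq_mul, smul_eq_mul, map_mul, map_mul]
    ring

/-- the value after the removal of the scaling -/
private theorem pt2c_ev (hτ₁ : (τ₁ : ℂ) ≠ 0) (hτ₂ : (τ₂ : ℂ) ≠ 0) (Q : Poly 3) :
    eval (pnt p τ₁ τ₂ e s t ξ y) (inc4 (unsc τ₁ τ₂ Q)) =
      eval (fun j => p.B.subtype ((![1, s, MvPowerSeries.constantCoeff ξ, t ^ e] :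
        Fin 4 → p.B) j)) Q := by
  rw [← pt2c_const, pt2c_psi hτ₁ hτ₂]
  have h : (MvPowerSeries.constantCoeff.comp
      ((aeval (fun j => MvPowerSeries.map p.B.subtype ((![1, MvPowerSeries.C s + MvPowerSeries.X 0,
        ξ, (MvPowerSeries.C t + MvPowerSeries.X 1) ^ e] : Fin 4 → MvPowerSeries (Fin 2) p.B) j)) :
        Poly 3 →ₐ[ℂ] MvPowerSeries (Fin 2) ℂ) : Poly 3 →+* MvPowerSeries (Fin 2) ℂ) :
        Poly 3 →+* ℂ) =
      eval (fun j => p.B.subtype ((![1, s, MvPowerSeries.constantCoeff ξ, t ^ e] :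
        Fin 4 → p.B) j)) := by
    refine MvPolynomial.ringHom_ext (fun a => ?_) fun j => ?_
    · rw [eval_C, RingHom.comp_apply]
      change MvPowerSeries.constantCoeff (aeval _ (C a)) = a
      rw [aeval_C]
      exact MvPowerSeries.constantCoeff_C a
    · rw [eval_X, RingHom.comp_apply]
      change MvPowerSeries.constantCoeff (aeval _ (X j)) = _
      rw [aeval_X, MvPowerSeries.constantCoeff_map]
      congr 1
      fin_cases j
      · exact map_one _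
      · change MvPowerSeries.constantCoeff (MvPowerSeries.C s + MvPowerSeries.X 0) = s
        rw [map_add, MvPowerSeries.constantCoeff_C, MvPowerSeries.constantCoeff_X, add_zero]
      · rfl
      · change MvPowerSeries.constantCoeff ((MvPowerSeries.C t + MvPowerSeries.X 1) ^ e) = t ^ e
        rw [map_pow, map_add, MvPowerSeries.constantCoeff_C, MvPowerSeries.constantCoeff_X,
          add_zero]
  exact congrArg (fun g : Poly 3 →+* ℂ => g Q) h

private theorem pt2c_sub {σ : Type} (w : σ → p.B) (R : MvPolynomial σ p.B) :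
    eval (fun j => p.B.subtype (w j)) (map p.B.subtype R) = p.B.subtype (eval w R) := by
  rw [eval_map]
  exact (eval₂_comp p.B.subtype w R).symm

private theorem pt2c_rho {σ : Type} (w : σ → p.B) (R : MvPolynomial σ p.B) :
    eval (fun j => p.ρ (w j)) (map p.ρ R) = p.ρ (eval w R) := by
  rw [eval_map]
  exact (eval₂_comp p.ρ w R).symm

end pt2c

/-- **properties of the point and the germ**, `G1 = unsc τ₁ τ₂ (map p.B.subtype GB)`.

Proof. (1) clear. (2) the constant coefficient of `psi` of a polynomial is its value at the point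
(`MvPolynomial.ringHom_ext`). (3) is `h.hP`. (4): `inc4 G1` goes to the image of
`aeval ![1, C s + X 0, ξ, (C t + X 1) ^ e] GB = 0` (the scaling cancels, as `τ₁`, `τ₂` are not zero).
(5): the value of `pderiv 2 (inc4 G1)` at the point is `τ₂⁻¹` times the value of `pderiv 2 GB` at
`(1, s, ξ(0), t ^ e)`, which reduces to the nonzero number of `cyc_deriv`. (6): the value of `f` at
the point lies in `p.B` and reduces to `f(1,0,0,0,0)`, because the coordinates of the point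
reduce to `(1,0,0,0,0)` (`h1`, `h2`, `h.hy`). -/
theorem Pt2.props {p : Place} {τ₁ τ₂ : p.B} (h1 : p.ρ τ₁ = 0) (h2 : p.ρ τ₂ = 0)
    (hτ₁ : (τ₁ : ℂ) ≠ 0) (hτ₂ : (τ₂ : ℂ) ≠ 0) {e : ℕ} (he : 1 ≤ e) {P : Poly 4} {F G0 : Poly 3}
    {v : Fin 4 → ℂ} (h0 : v 0 = 1) (hvK : ∀ j, v j ∈ p.K) (hF : eval v F = 0)
    (h3 : eval v (pderiv 3 F) ≠ 0)
    (hω : ∀ ω : ℂ, ω ^ e = 1 → ω ≠ 1 → eval ![1, v 1, ω * v 2, v 3] F ≠ 0)
    (hG0 : (aeval ![1, X 1, X 3, X 2 ^ e] G0 : Poly 3) =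
      ∏ ω ∈ Polynomial.nthRootsFinset e (1 : ℂ), aeval ![1, X 1, C ω * X 2, X 3] F)
    {GB : MvPolynomial (Fin 4) p.B} (hGB : map p.ρ GB = G0) {s t : p.B}
    {ξ y : MvPowerSeries (Fin 2) p.B} (h : Pt2 p τ₁ τ₂ e P GB F v s t ξ y) :
    pnt p τ₁ τ₂ e s t ξ y 0 = 1 ∧
      (∀ Q, MvPowerSeries.constantCoeff (psi p τ₁ τ₂ e s t ξ y Q) =
        eval (pnt p τ₁ τ₂ e s t ξ y) Q) ∧
      psi p τ₁ τ₂ e s t ξ y P = 0 ∧
      psi p τ₁ τ₂ e s t ξ y (inc4 (unsc τ₁ τ₂ (map p.B.subtype GB))) = 0 ∧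
      eval (pnt p τ₁ τ₂ e s t ξ y)
        (pderiv 2 (inc4 (unsc τ₁ τ₂ (map p.B.subtype GB)))) ≠ 0 ∧
      ∀ f : Poly 4, (∀ α, coeff α f ∈ p.K) → eval ![1, 0, 0, 0, 0] f ≠ 0 →
        eval (pnt p τ₁ τ₂ e s t ξ y) f ≠ 0 := by
  have hρs : p.ρ s = v 1 := by
    have h4 : s = ⟨v 1, p.le _ (hvK 1)⟩ := Subtype.ext h.hs
    rw [h4]
    exact p.id _ (hvK 1)
  have hρt : p.ρ t = v 2 := by
    have h4 : t = ⟨v 2, p.le _ (hvK 2)⟩ := Subtype.ext h.ht
    rw [h4]
    exact p.id _ (hvK 2)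
  refine ⟨?_, pt2c_const, h.hP, ?_, ?_, ?_⟩
  · rw [pt2c_pnt, pt2c_0]
    rfl
  · rw [pt2c_psi hτ₁ hτ₂, pt2c_map, h.hG, map_zero]
  · have h4 : pderiv 2 (inc4 (unsc τ₁ τ₂ (map p.B.subtype GB))) =
        inc4 (C (τ₂ : ℂ)⁻¹ * unsc τ₁ τ₂ (map p.B.subtype (pderiv 2 GB))) := by
      have h5 : pderiv 2 (inc4 (unsc τ₁ τ₂ (map p.B.subtype GB))) =
          inc4 (pderiv 2 (unsc τ₁ τ₂ (map p.B.subtype GB))) :=
        pderiv_rename (Fin.castSucc_injective 4) 2 _
      rw [h5, pt2c_pd, pderiv_map]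
    have h6 : inc4 (C (τ₂ : ℂ)⁻¹) = (C (τ₂ : ℂ)⁻¹ : Poly 4) := rename_C _ _
    rw [h4, map_mul, h6, map_mul, eval_C, pt2c_ev hτ₁ hτ₂, pt2c_sub]
    refine mul_ne_zero (inv_ne_zero hτ₂) fun h7 => ?_
    have h8 : eval (![1, s, MvPowerSeries.constantCoeff ξ, t ^ e] : Fin 4 → p.B)
        (pderiv 2 GB) = 0 := subtype_injective p (h7.trans (map_zero _).symm)
    have h9 := pt2c_rho (![1, s, MvPowerSeries.constantCoeff ξ, t ^ e] : Fin 4 → p.B)
      (pderiv 2 GB)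
    rw [h8, map_zero, ← pderiv_map, hGB] at h9
    apply (cyc_deriv he h0 hF h3 hω hG0).2
    rw [← h9]
    congr 2
    funext j
    fin_cases j
    · exact (map_one _).symm
    · exact hρs.symm
    · exact h.hξ.symm
    · change v 2 ^ e = p.ρ (t ^ e)
      rw [map_pow, hρt]
  · intro f hf hf0 h7
    obtain ⟨fB, hfB, hfB', -⟩ := exists_liftB p hf
    have h8 : eval (pnt p τ₁ τ₂ e s t ξ y) f =
        p.B.subtype (eval (pt2cB p τ₁ τ₂ e s t ξ y) fB) := by
      rw [← pt2c_sub, hfB]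
      rfl
    have h9 : eval (pt2cB p τ₁ τ₂ e s t ξ y) fB = 0 :=
      subtype_injective p ((h8.symm.trans h7).trans (map_zero _).symm)
    have h10 := pt2c_rho (pt2cB p τ₁ τ₂ e s t ξ y) fB
    rw [h9, map_zero, hfB'] at h10
    have h11 : (![1, 0, 0, 0, 0] : Fin 5 → ℂ) = fun j => p.ρ (pt2cB p τ₁ τ₂ e s t ξ y j) := by
      funext j
      fin_cases j
      · change (1 : ℂ) = p.ρ (pt2cB p τ₁ τ₂ e s t ξ y 0)
        rw [pt2c_0, map_one]
      · change (0 : ℂ) = p.ρ (pt2cB p τ₁ τ₂ e s t ξ y 1)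
        rw [pt2c_1, map_mul, h1, zero_mul]
      · change (0 : ℂ) = p.ρ (pt2cB p τ₁ τ₂ e s t ξ y 2)
        rw [pt2c_2, map_mul, h2, zero_mul]
      · change (0 : ℂ) = p.ρ (pt2cB p τ₁ τ₂ e s t ξ y 3)
        rw [pt2c_3, map_mul, h2, zero_mul]
      · change (0 : ℂ) = p.ρ (pt2cB p τ₁ τ₂ e s t ξ y 4)
        rw [pt2c_4, h.hy]
    rw [h11] at hf0
    exact hf0 h10

end Pool.Agent.Lib.MP_ed661f_ag.V
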