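import Pool.Agent.Lib.MP_ed661f_ag.V.Red2B
import Pool.Agent.Lib.MP_ed661f_ag.V.Pt2C
import Pool.Agent.Lib.MP_ed661f_ag.V.ConvP
import Pool.Agent.Lib.MP_ed661f_ag.V.Nf
import Pool.Agent.Lib.MP_ed661f_ag.S.Prim

/-!
The inequality for forms on the surface `P = G = 0` in the space of dimension four.
-/

set_option autoImplicit false

open MvPolynomial

namespace Pool.Agent.Lib.MP_ed661f_ag.V

open Pool.Agent.Lib.MP_ed661f_ag.H Pool.Agent.Lib.MP_ed661f_ag.S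

/-- the coefficients of the unscaled form -/
private theorem coeff_unsc_core2 (τ₁ τ₂ : ℂ) (F : Poly 3) (γ : Fin 4 →₀ ℕ) :
    coeff γ (unsc τ₁ τ₂ F) = τ₁⁻¹ ^ γ 1 * τ₂⁻¹ ^ (γ 2 + γ 3) * coeff γ F := by
  classical
  induction F using MvPolynomial.induction_on' with
  | monomial α c =>
    have h : unsc τ₁ τ₂ (monomial α c) =
        monomial α (τ₁⁻¹ ^ α 1 * τ₂⁻¹ ^ (α 2 + α 3) * c) := by
      have h1 : (monomial α (τ₁⁻¹ ^ α 1 * τ₂⁻¹ ^ (α 2 + α 3) * c) : Poly 3) =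
          C (τ₁⁻¹ ^ α 1 * τ₂⁻¹ ^ (α 2 + α 3)) * monomial α c := by
        rw [C_mul_monomial]
      rw [h1, monomial_eq, map_mul, unsc, aeval_C]
      have h2 : (α.prod fun n e => (X n : Poly 3) ^ e) =
          X 0 ^ α 0 * X 1 ^ α 1 * X 2 ^ α 2 * X 3 ^ α 3 := by
        rw [Finsupp.prod_fintype _ _ (fun i => pow_zero _), Fin.prod_univ_four]
      rw [h2]
      simp only [map_mul, map_pow, aeval_X]
      change (C c : Poly 3) * _ = _
      simp only [Matrix.cons_val_zero, Matrix.cons_val_one, Matrix.cons_val]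
      rw [mul_pow, mul_pow, mul_pow, pow_add]
      ring
    rw [h, coeff_monomial, coeff_monomial]
    split_ifs with hα
    · rw [hα]
    · rw [mul_zero]
  | add p q hp hq => rw [map_add, coeff_add, coeff_add, hp, hq, mul_add]

private theorem unsc_hom_core2 (τ₁ τ₂ : ℂ) {F : Poly 3} {m : ℕ} (hF : F.IsHomogeneous m) :
    (unsc τ₁ τ₂ F).IsHomogeneous m := by
  intro γ hγ
  rw [coeff_unsc_core2] at hγ
  exact hF (right_ne_zero_of_mul hγ)

private theorem chi_const_core2 {p : Place} {v : Fin 4 → ℂ} (h0 : v 0 = 1)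
    {ξ : MvPowerSeries (Fin 2) p.B} (hξ : p.ρ (MvPowerSeries.constantCoeff ξ) = v 3)
    (Q : Poly 3) : MvPowerSeries.constantCoeff (chi p v ξ Q) = eval v Q := by
  have h : (MvPowerSeries.constantCoeff (σ := Fin 2) (R := ℂ)).comp (chi p v ξ).toRingHom =
      eval v := by
    apply MvPolynomial.ringHom_ext
    · intro a
      have h1 : chi p v ξ (C a) = MvPowerSeries.C a := (chi p v ξ).commutes a
      change MvPowerSeries.constantCoeff (chi p v ξ (C a)) = eval v (C a)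
      rw [h1, MvPowerSeries.constantCoeff_C, eval_C]
    · intro i
      fin_cases i
      · simp [chi, h0]
      · simp [chi]
      · simp [chi]
      · simp [chi, hξ]
  exact congrArg (fun φ => φ Q) h

/-- **the inequality for forms** on `P = G1 = 0`, `G1 = unsc τ₁ τ₂ (map p.B.subtype GB)`.

Proof. Let `Q` be a form of degree `k` as in `FIJ`, `e (e μ) k ^ 2 < n w ^ 2`. `G1` is a form of
degree `m = e μ` and its coefficient at `X 2 ^ m` is not zero (`τ₂ ^ (-m)` times that of `GB`, which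
reduces to that of `G0`). Take the normal form `Q' = ∑ C (a u) * nfb k b u` of `Q` (`exists_nf`). If
`a u = 0` for all `u ∈ idx e m k E`, then `Q ∈ Ideal.span {P, inc4 G1}`, as claimed. Otherwise
`S.exists_prim_vec`, for the vector `a u τ₁ ^ l τ₂ ^ (i + j)`, `u = (i, j, l) ∈ idx`, gives `c` and
`bb` as in `red2`, with some `p.ρ (bb u) ≠ 0` (put `bb u = 0` outside `idx`). For each point `i`:
`psi` kills `P` and `inc4 G1` (`Pt2.props`), so by `van_of_mem` the value of `psi` at `Q`, which is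
its value at `Q'`, vanishes to order `w`; by `red2` so does the value of `chi` at
`H₀ = redForm p e m k E bb`, and by `conv_P3` (for `φ = chi p (v i) (ξ i)`; its constant coefficient
is the evaluation at `v i`, by `h.hξ`) `H₀` lies in the ideal of the hypothesis of `FI μ F v`. Since
`μ (e k) ^ 2 = e (e μ) k ^ 2 < n w ^ 2`, `F ∣ H₀`. This contradicts `not_dvd` and
`redForm_props` (there is a point, as `n w ^ 2 > 0`). -/
theorem core2 {p : Place} {τ₁ τ₂ : p.B} (h1 : p.ρ τ₁ = 0)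
    (h2 : ∀ l : ℕ, ∃ c : p.B, p.ρ c = 0 ∧ τ₂ = c * τ₁ ^ l) (hτ₁ : (τ₁ : ℂ) ≠ 0)
    (hτ₂ : (τ₂ : ℂ) ≠ 0) {e μ n : ℕ} (he : 1 ≤ e) {P : Poly 4} (hP : P.IsHomogeneous e)
    (hc : coeff (Finsupp.single 4 e) P = 1) (hPK : ∀ α, coeff α P ∈ p.K)
    (hP4 : eval ![1, 0, 0, 0, 0] (pderiv 4 P) ≠ 0) {θ : PowerSeries ℂ}
    (hθK : ∀ j, PowerSeries.coeff j θ ∈ p.K) (hB : Branch e P θ) {E : ℕ → Finset ℕ}
    {b : ℕ → ℕ → Poly 4} (hE : Ech e θ E b) (hbK : ∀ d l α, coeff α (b d l) ∈ p.K)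
    {F G0 : Poly 3} {v : Fin n → Fin 4 → ℂ} (hF : F.IsHomogeneous μ) (hirr : Irreducible F)
    (hF3 : coeff (Finsupp.single 3 μ) F ≠ 0) (h0 : ∀ i, v i 0 = 1) (hvK : ∀ i j, v i j ∈ p.K)
    (hv : ∀ i, eval (v i) F = 0) (h3 : ∀ i, eval (v i) (pderiv 3 F) ≠ 0)
    (hω : ∀ i, ∀ ω : ℂ, ω ^ e = 1 → ω ≠ 1 → eval ![1, v i 1, ω * v i 2, v i 3] F ≠ 0)
    (hFI : FI μ F v) (hG0h : G0.IsHomogeneous (e * μ))
    (hG02 : coeff (Finsupp.single 2 (e * μ)) G0 ≠ 0)
    (hG0 : (aeval ![1, X 1, X 3, X 2 ^ e] G0 : Poly 3) =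
      ∏ ω ∈ Polynomial.nthRootsFinset e (1 : ℂ), aeval ![1, X 1, C ω * X 2, X 3] F)
    {GB : MvPolynomial (Fin 4) p.B} (hGBh : GB.IsHomogeneous (e * μ)) (hGB : map p.ρ GB = G0)
    {s t : Fin n → p.B} {ξ y : Fin n → MvPowerSeries (Fin 2) p.B}
    (h : ∀ i, Pt2 p τ₁ τ₂ e P GB F (v i) (s i) (t i) (ξ i) (y i)) :
    FIJ (e * (e * μ)) (Ideal.span {P, inc4 (unsc τ₁ τ₂ (map p.B.subtype GB))}) (X 0)
      (fun i => pnt p τ₁ τ₂ e (s i) (t i) (ξ i) (y i)) := by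
  classical
  intro k w Q hQ hmem hlt
  set m : ℕ := e * μ with hm
  set G1 : Poly 3 := unsc τ₁ τ₂ (map p.B.subtype GB) with hG1def
  have hG1 : G1.IsHomogeneous m := unsc_hom_core2 _ _ (hGBh.map _)
  have hG2 : coeff (Finsupp.single 2 m) G1 ≠ 0 := by
    rw [hG1def, coeff_unsc_core2, coeff_map]
    have h5 : coeff (Finsupp.single 2 m) GB ≠ 0 := by
      intro h6
      apply hG02
      rw [← hGB, coeff_map, h6, map_zero]
    refine mul_ne_zero (mul_ne_zero (pow_ne_zero _ (inv_ne_zero hτ₁))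
      (pow_ne_zero _ (inv_ne_zero hτ₂))) ?_
    intro h6
    exact h5 (subtype_injective p (by rw [h6, map_zero]))
  obtain ⟨a, ha⟩ := exists_nf hP hc hG1 hG2 hE hQ
  by_cases hz : ∀ u ∈ idx e m k E, a u = 0
  · have h5 : ∑ t ∈ idx e m k E, C (a t) * nfb k b t = 0 :=
      Finset.sum_eq_zero fun u hu => by rw [hz u hu, C_0, zero_mul]
    rwa [h5, sub_zero] at ha
  exfalso
  push Not at hz
  obtain ⟨u0, hu0, hau0⟩ := hz
  have hvec : (fun u : idx e m k E => a u.1 * (τ₁ : ℂ) ^ u.1.2.2 * (τ₂ : ℂ) ^ (u.1.1 + u.1.2.1)) ≠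
      0 := by
    intro h5
    have h6 := congrFun h5 ⟨u0, hu0⟩
    exact mul_ne_zero (mul_ne_zero hau0 (pow_ne_zero _ hτ₁)) (pow_ne_zero _ hτ₂) h6
  obtain ⟨c, w', -, hw', ⟨u1, hu1⟩, hρ1⟩ := exists_prim_vec p hvec
  set bb : ℕ × ℕ × ℕ → p.B := fun u => if h : u ∈ idx e m k E then w' ⟨u, h⟩ else 0 with hbbdef
  have hbb : ∀ u ∈ idx e m k E,
      ((bb u : p.B) : ℂ) = c * a u * (τ₁ : ℂ) ^ u.2.2 * (τ₂ : ℂ) ^ (u.1 + u.2.1) := by
    intro u hu
    rw [hbbdef]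
    simp only [dif_pos hu]
    rw [hw']
    ring
  obtain ⟨hHh, hHs, hH0⟩ := redForm_props (p := p) he hE m k bb
  have hH : redForm p e m k E bb ≠ 0 := by
    apply hH0
    refine ⟨u1, hu1, ?_⟩
    rw [hbbdef]
    simp only [dif_pos hu1]
    exact hρ1
  have h2' : p.ρ τ₂ = 0 := by
    obtain ⟨c', hc', h5⟩ := h2 0
    rw [h5, pow_zero, mul_one, hc']
  have hkey : ∀ i, redForm p e m k E bb ∈
      Ideal.span {F} ⊔ vecIdeal (v i) ^ w ⊔ Ideal.span {X 0 - 1} := by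
    intro i
    obtain ⟨-, hconst, hψP, hψG, -, -⟩ := Pt2.props h1 h2' hτ₁ hτ₂ he (h0 i) (hvK i) (hv i) (h3 i)
      (hω i) hG0 hGB (h i)
    have hJ : ∀ f ∈ Ideal.span {P, inc4 G1}, psi p τ₁ τ₂ e (s i) (t i) (ξ i) (y i) f = 0 := by
      intro f hf
      have h5 : Ideal.span {P, inc4 G1} ≤
          RingHom.ker (psi p τ₁ τ₂ e (s i) (t i) (ξ i) (y i)) := by
        rw [Ideal.span_le]
        rintro _ (rfl | rfl)
        · exact hψP
        · exact hψG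
      exact h5 hf
    have hl : psi p τ₁ τ₂ e (s i) (t i) (ξ i) (y i) (X 0) = 1 := by
      rw [psi, aeval_X]
      change MvPowerSeries.map p.B.subtype 1 = 1
      exact map_one _
    have hQv := van_of_mem hJ hl hconst (hmem i)
    have hS : Van w (psi p τ₁ τ₂ e (s i) (t i) (ξ i) (y i)
        (∑ u ∈ idx e m k E, C (a u) * nfb k b u)) := by
      have h5 := hJ _ ha
      rw [map_sub, sub_eq_zero] at h5
      rw [← h5]
      exact hQv
    have hchi := red2 h1 h2 hPK hP4 hθK hB hE hbK (hvK i) (h i) hbb hS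
    refine conv_P3 (h0 i) (hv i) (h3 i) (φ := chi p (v i) (ξ i)) (h i).hF
      (chi_const_core2 (h0 i) (h i).hξ) ?_ ?_ ?_ hchi
    · rw [chi, aeval_X]
      rfl
    · rw [chi, aeval_X]
      rfl
    · rw [chi, aeval_X]
      rfl
  have hdvd : F ∣ redForm p e m k E bb := by
    refine hFI (e * k) w _ hHh hkey ?_
    calc μ * (e * k) ^ 2 = e * m * k ^ 2 := by rw [hm]; ring
      _ < n * w ^ 2 := hlt
  have hn : 0 < n := by
    rcases Nat.eq_zero_or_pos n with h5 | h5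
    · rw [h5, zero_mul] at hlt
      exact absurd hlt (Nat.not_lt_zero _)
    · exact h5
  exact not_dvd he hF hirr hF3 (h0 ⟨0, hn⟩) (hv ⟨0, hn⟩) (hω ⟨0, hn⟩) hH hHs hdvd

end Pool.Agent.Lib.MP_ed661f_ag.V
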