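import Pool.Agent.Lib.MP_ed661f_ag.V.Van
import Pool.Agent.Lib.MP_ed661f_ag.H.Krull

/-!
The section of the threefold has dimension two.
-/

set_option autoImplicit false

open MvPolynomial

namespace Pool.Agent.Lib.MP_ed661f_ag.V

open Pool.Agent.Lib.MP_ed661f_ag.H

private theorem dimThree_smul {G : MvPolynomial (Fin 3) ℂ} {e : ℕ} (hG : G.IsHomogeneous e)
    (c : ℂ) (u : Fin 3 → ℂ) : eval (fun i => c * u i) G = c ^ e * eval u G := by
  rw [MvPolynomial.eval_eq', MvPolynomial.eval_eq', Finset.mul_sum]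
  refine Finset.sum_congr rfl fun d hd => ?_
  have hd' := hG.degree_eq_sum_deg_support hd
  have hd2 : ∑ i, d i = e := by
    rw [← Finsupp.degree_eq_sum]
    exact hd'.symm
  simp only [mul_pow, Finset.prod_mul_distrib]
  rw [Finset.prod_pow_eq_pow_sum, hd2]
  ring

private theorem dimThree_hom {N : ℕ} {J : Ideal (Poly N)} {L : Fin 3 → Poly N}
    {v : Fin (N + 1) → ℂ} {φ : Poly N →ₐ[ℂ] MvPowerSeries (Fin 2) ℂ} (h : IsGerm J L v φ)
    {a b : ℂ} (ha : a = eval v (L 1)) (hb : b = eval v (L 2)) :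
    φ.toRingHom.comp (aeval L : MvPolynomial (Fin 3) ℂ →ₐ[ℂ] Poly N).toRingHom =
      (coeToMvPowerSeries.ringHom).comp
      (aeval (![1, C a + X 0, C b + X 1] : Fin 3 → MvPolynomial (Fin 2) ℂ)).toRingHom := by
  apply MvPolynomial.ringHom_ext
  · intro c
    have h1 : (φ.toRingHom.comp (aeval L : MvPolynomial (Fin 3) ℂ →ₐ[ℂ] Poly N).toRingHom) (C c) =
      φ (aeval L (C c)) := rfl
    have h2 : ((coeToMvPowerSeries.ringHom).comp
      (aeval (![1, C a + X 0, C b + X 1] : Fin 3 → MvPolynomial (Fin 2) ℂ)).toRingHom) (C c) =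
      coeToMvPowerSeries.ringHom
        (aeval (![1, C a + X 0, C b + X 1] : Fin 3 → MvPolynomial (Fin 2) ℂ) (C c)) := rfl
    rw [h1, h2, aeval_C, aeval_C, φ.commutes, algebraMap_eq, coeToMvPowerSeries.ringHom_apply,
      coe_C]
    rfl
  · intro j
    have h1 : (φ.toRingHom.comp (aeval L : MvPolynomial (Fin 3) ℂ →ₐ[ℂ] Poly N).toRingHom) (X j) =
      φ (aeval L (X j)) := rfl
    have h2 : ((coeToMvPowerSeries.ringHom).comp
      (aeval (![1, C a + X 0, C b + X 1] : Fin 3 → MvPolynomial (Fin 2) ℂ)).toRingHom)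
        (X j : MvPolynomial (Fin 3) ℂ) =
      coeToMvPowerSeries.ringHom
        (aeval (![1, C a + X 0, C b + X 1] : Fin 3 → MvPolynomial (Fin 2) ℂ)
          (X j : MvPolynomial (Fin 3) ℂ)) := rfl
    rw [h1, h2, aeval_X, aeval_X]
    fin_cases j
    · change φ (L 0) = coeToMvPowerSeries.ringHom (1 : MvPolynomial (Fin 2) ℂ)
      rw [h.l0, map_one]
    · change φ (L 1) = coeToMvPowerSeries.ringHom (C a + X 0 : MvPolynomial (Fin 2) ℂ)
      rw [h.l1, map_add, coeToMvPowerSeries.ringHom_apply, coeToMvPowerSeries.ringHom_apply,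
        coe_C, coe_X, ha]
    · change φ (L 2) = coeToMvPowerSeries.ringHom (C b + X 1 : MvPolynomial (Fin 2) ℂ)
      rw [h.l2, map_add, coeToMvPowerSeries.ringHom_apply, coeToMvPowerSeries.ringHom_apply,
        coe_C, coe_X, hb]

/-- **the three linear forms are independent on the germ**.

Proof. Let `Q(L 0, L 1, L 2) ∈ J`. As `J` is homogeneous, the same holds for the homogeneous
components `Q_k` (`H.hc_aeval`). Apply `φ`: `Q_k(1, a + S, b + T) = 0` in `ℂ[[S,T]]`, with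
`a = eval v (L 1)`, `b = eval v (L 2)`. So the polynomial `Q_k(1, S, T)` is zero, and `Q_k = 0`
(`Q_k` is homogeneous: its coefficients are those of `Q_k(1, S, T)`). -/
theorem inj_of_germ {N : ℕ} {J : Ideal (Poly N)}
    (hh : ∀ F ∈ J, ∀ k, homogeneousComponent k F ∈ J) {L : Fin 3 → Poly N}
    (hL : ∀ j, (L j).IsHomogeneous 1) {v : Fin (N + 1) → ℂ}
    {φ : Poly N →ₐ[ℂ] MvPowerSeries (Fin 2) ℂ} (h : IsGerm J L v φ) :
    Function.Injective (proj J L) := by
  by_contra hni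
  have hJ : J ≠ ⊤ := by
    intro h0
    have h1 := h.ker 1 (by rw [h0]; exact Submodule.mem_top)
    rw [map_one] at h1
    exact one_ne_zero h1
  obtain ⟨e, G, -, hG0, hG, hGJ⟩ := exists_form_of_not_injective hJ hh hL hni
  apply hG0
  rw [proj_apply, Ideal.Quotient.eq_zero_iff_mem] at hGJ
  have h1 := h.ker _ hGJ
  obtain ⟨a, ha⟩ : ∃ a, a = eval v (L 1) := ⟨_, rfl⟩
  obtain ⟨b, hb⟩ : ∃ b, b = eval v (L 2) := ⟨_, rfl⟩
  have h2 := congrArg (fun f : MvPolynomial (Fin 3) ℂ →+* MvPowerSeries (Fin 2) ℂ => f G)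
    (dimThree_hom h ha hb)
  have h3 : φ (aeval L G) = coeToMvPowerSeries.ringHom
      (aeval (![1, C a + X 0, C b + X 1] : Fin 3 → MvPolynomial (Fin 2) ℂ) G) := h2
  rw [h1, coeToMvPowerSeries.ringHom_apply] at h3
  have h4 : aeval (![1, C a + X 0, C b + X 1] : Fin 3 → MvPolynomial (Fin 2) ℂ) G = 0 :=
    coe_eq_zero_iff.1 h3.symm
  have h5 : ∀ x y : ℂ, eval (![1, x, y] : Fin 3 → ℂ) G = 0 := by
    intro x y
    have h6 := congrArg
      (aeval (![x - a, y - b] : Fin 2 → ℂ) : MvPolynomial (Fin 2) ℂ →ₐ[ℂ] ℂ) h4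
    rw [map_zero] at h6
    have h7 := comp_aeval_apply (R := ℂ)
      (φ := (aeval (![x - a, y - b] : Fin 2 → ℂ) : MvPolynomial (Fin 2) ℂ →ₐ[ℂ] ℂ))
      (f := (![1, C a + X 0, C b + X 1] : Fin 3 → MvPolynomial (Fin 2) ℂ)) G
    have h8 : (fun i => (aeval (![x - a, y - b] : Fin 2 → ℂ) : MvPolynomial (Fin 2) ℂ →ₐ[ℂ] ℂ)
        ((![1, C a + X 0, C b + X 1] : Fin 3 → MvPolynomial (Fin 2) ℂ) i)) = ![1, x, y] := by
      funext i
      fin_cases i
      · simp
      · simp
      · simp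
    rw [h8] at h7
    have h9 : (aeval (![1, x, y] : Fin 3 → ℂ) : MvPolynomial (Fin 3) ℂ →ₐ[ℂ] ℂ) G =
        eval (![1, x, y] : Fin 3 → ℂ) G :=
      congrArg (fun g : MvPolynomial (Fin 3) ℂ →+* ℂ => g G)
        (coe_aeval_eq_eval (![1, x, y] : Fin 3 → ℂ))
    rw [← h9, ← h7]
    exact h6
  have h6 : (X 0 : MvPolynomial (Fin 3) ℂ) * G = 0 := by
    apply MvPolynomial.funext
    intro u
    rw [map_zero, map_mul, eval_X]
    by_cases hu : u 0 = 0
    · rw [hu, zero_mul]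
    · have h7 : u = fun i => u 0 * (![1, u 1 / u 0, u 2 / u 0] : Fin 3 → ℂ) i := by
        funext i
        fin_cases i
        · simp
        · change u 1 = u 0 * (u 1 / u 0)
          field_simp
        · change u 2 = u 0 * (u 2 / u 0)
          field_simp
      have h8 : eval u G = 0 := by
        rw [h7, dimThree_smul hG, h5, mul_zero]
      rw [h8, mul_zero]
  exact (mul_eq_zero.1 h6).resolve_left (X_ne_zero 0)

private theorem dimThree_le {N : ℕ} {J : Ideal (Poly N)} (hJ : J.IsPrime) {r : ℕ}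
    {y : Fin r → Poly N} (hyi : Function.Injective (proj J y))
    (hyf : (proj J y).toRingHom.Finite) {L : Fin 3 → Poly N}
    (hinj : Function.Injective (proj J L)) : 3 ≤ r := by
  obtain ⟨x, hx⟩ : ∃ x : Fin r → Poly N ⧸ J, x = fun i => Ideal.Quotient.mk J (y i) := ⟨_, rfl⟩
  have hφ : proj J y = aeval x := by rw [hx]; rfl
  rw [hφ] at hyi hyf
  have hind : AlgebraicIndependent ℂ x := hyi
  have hind' : AlgebraicIndependent ℂ (fun i => Ideal.Quotient.mk J (L i)) := hinj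
  have halg : Algebra.IsAlgebraic (Algebra.adjoin ℂ (Set.range x)) (Poly N ⧸ J) := by
    refine ⟨fun b => ?_⟩
    have hmem : ∀ p : MvPolynomial (Fin r) ℂ, aeval x p ∈ Algebra.adjoin ℂ (Set.range x) := by
      intro p
      rw [Algebra.adjoin_range_eq_range_aeval]
      exact ⟨p, rfl⟩
    obtain ⟨p, hpm, hp⟩ := hyf.to_isIntegral b
    let f' : MvPolynomial (Fin r) ℂ →+* Algebra.adjoin ℂ (Set.range x) :=
      (aeval x : MvPolynomial (Fin r) ℂ →ₐ[ℂ] Poly N ⧸ J).toRingHom.codRestrict _ hmem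
    have h1 : IsIntegral (Algebra.adjoin ℂ (Set.range x)) b := by
      refine ⟨p.map f', hpm.map f', ?_⟩
      rw [Polynomial.eval₂_map]
      exact hp
    exact h1.isAlgebraic
  have hb := hind.isTranscendenceBasis_iff_isAlgebraic.2 halg
  have h1 := hb.cardinalMk_eq_trdeg
  have h2 := hind'.cardinalMk_le_trdeg
  rw [← h1, Cardinal.mk_fin, Cardinal.mk_fin] at h2
  exact_mod_cast h2

/-- **the dimension**.

Proof. (1) `≤ 3`: `Poly N ⧸ I` is a domain of dimension `4` and the class of `G` is not zero, so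
`ringKrullDim ((Poly N ⧸ I) ⧸ (G)) + 1 ≤ 4` (`ringKrullDim_quotient_succ_le_of_nonZeroDivisor`), and
`Poly N ⧸ J` is a quotient of it. (2) `≥ 3`: by `exists_noether_aux` (file `H/Noether.lean`; `J` is
homogeneous, `J ≠ ⊤`) there are `r` linear forms `y` with `proj J y` injective and finite, and the
dimension is `r` (`ringKrullDim_eq_of_finite`, `ringKrullDim_mvPolynomial`, file `H/Krull.lean`). The
three elements `L j` of the domain `Poly N ⧸ J` are algebraically independent over `ℂ`, and it is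
algebraic over `ℂ[y]`, so `3 ≤ r` (transcendence degree; or compare Hilbert functions:
`H.le_hilb`, `H.hilb_le`, `H.exists_basis`: `(k + 2).choose 2 ≤ hilb J k ≤ C (k + b) ^ (r - 1)`). -/
theorem dim_three {N : ℕ} {I J : Ideal (Poly N)} (hI : IsThreefold I) (hJ : J.IsPrime)
    (hh : ∀ F ∈ J, ∀ k, homogeneousComponent k F ∈ J) (hIJ : I ≤ J) {G : Poly N} (hG : G ∈ J)
    (hGI : G ∉ I) {L : Fin 3 → Poly N} (hL : ∀ j, (L j).IsHomogeneous 1)
    (hinj : Function.Injective (proj J L)) : ringKrullDim (Poly N ⧸ J) = 3 := by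
  have hJ1 : J ≠ ⊤ := hJ.ne_top
  obtain ⟨r, y, hy, hyi, hyf⟩ := exists_noether_aux hJ1 hh
  have hdim := ringKrullDim_eq_of_finite _ hyi hyf
  rw [ringKrullDim_mvPolynomial] at hdim
  have := hI.prime
  have hnz : Ideal.Quotient.mk I G ∈ nonZeroDivisors (Poly N ⧸ I) := by
    rw [mem_nonZeroDivisors_iff_ne_zero, Ne, Ideal.Quotient.eq_zero_iff_mem]
    exact hGI
  have hle := ringKrullDim_succ_le_of_surjective (Ideal.Quotient.factor hIJ)
    (Ideal.Quotient.factor_surjective hIJ) hnz (by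
      rw [Ideal.Quotient.factor_mk, Ideal.Quotient.eq_zero_iff_mem]
      exact hG)
  rw [hI.dim, ← hdim] at hle
  have hr3 : r ≤ 3 := by
    have h1 : ((r + 1 : ℕ) : WithBot ℕ∞) ≤ ((4 : ℕ) : WithBot ℕ∞) := by
      push_cast
      exact hle
    have h2 : r + 1 ≤ 4 := by exact_mod_cast h1
    omega
  have h3r := dimThree_le hJ hyi hyf hinj
  obtain rfl : r = 3 := le_antisymm hr3 h3r
  rw [← hdim]
  rfl

end Pool.Agent.Lib.MP_ed661f_ag.V
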