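import Pool.Agent.Lib.MP_ed661f_ag.V.FiX
import Pool.Agent.Lib.MP_ed661f_ag.V.Avoid
import Pool.Agent.Lib.MP_ed661f_ag.V.DimThree
import Pool.Agent.Lib.MP_ed661f_ag.T.Forms
import Pool.Agent.Lib.MP_ed661f_ag.W.Proj

/-!
The inequality for curves on the surface, at very general points.
-/

set_option autoImplicit false

open MvPolynomial
open scoped ENNReal

namespace Pool.Agent.Lib.MP_ed661f_ag.V

open Pool.Agent.Lib.MP_ed661f_ag.H Pool.Agent.Lib.MP_ed661f_ag.W

open Pool.Agent.Lib.MP_ed661f_ag.T in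
/-- the coefficients of the polynomial lie in the subfield -/
private theorem cpts_coeff {σ : Type*} {K : Subfield ℂ} (G' : MvPolynomial σ K) :
    ∀ e, coeff e (map K.subtype G') ∈ K := by
  intro e
  rw [coeff_map]
  exact (coeff e G').2

/-- substitution of forms over the subfield -/
private theorem cpts_sub4 {N : ℕ} {K : Subfield ℂ} {Lx : Fin 4 → Poly N} {G : Poly 3}
    (hL : ∀ j α, coeff α (Lx j) ∈ K) (hG : ∀ e, coeff e G ∈ K) :
    ∀ α, coeff α (sub4 Lx G) ∈ K := by
  obtain ⟨G', rfl⟩ := S.Hn.exists_over hG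
  have h1 : ∀ j, ∃ L' : MvPolynomial (Fin (N + 1)) K, map K.subtype L' = Lx j :=
    fun j => S.Hn.exists_over (hL j)
  choose L' hL' using h1
  have h2 : sub4 Lx (map K.subtype G') = map K.subtype (aeval L' G') := by
    have h3 : (sub4 Lx : Poly 3 →+* Poly N).comp (map K.subtype) =
        (map K.subtype).comp
          (aeval L' : MvPolynomial (Fin 4) K →ₐ[K] MvPolynomial (Fin (N + 1)) K).toRingHom := by
      apply MvPolynomial.ringHom_ext
      · intro c
        simp [sub4]
      · intro i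
        simp [sub4, hL']
    exact congrArg (fun f => f G') h3
  rw [h2]
  exact cpts_coeff _

private theorem cpts_inc {K : Subfield ℂ} {s : Pool.Agent.Lib.MP_ed661f_ag.T.D3}
    (hs : ∀ e, coeff e s ∈ K) : ∀ e, coeff e (Pool.Agent.Lib.MP_ed661f_ag.T.inc s) ∈ K := by
  obtain ⟨s', rfl⟩ := S.Hn.exists_over hs
  have h1 : Pool.Agent.Lib.MP_ed661f_ag.T.inc (map K.subtype s') =
      map K.subtype (rename Fin.castSucc s') := by
    rw [Pool.Agent.Lib.MP_ed661f_ag.T.inc, map_rename]
  rw [h1]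
  exact cpts_coeff _

private theorem cpts_pderiv {K : Subfield ℂ} {F : Poly 3}
    (hF : ∀ e, coeff e F ∈ K) (j : Fin 4) : ∀ e, coeff e (pderiv j F) ∈ K := by
  obtain ⟨F', rfl⟩ := S.Hn.exists_over hF
  rw [pderiv_map]
  exact cpts_coeff _

private theorem cpts_X {K : Subfield ℂ} (j : Fin 4) :
    ∀ e, coeff e (X j : Poly 3) ∈ K := by
  have h1 : (X j : Poly 3) = map K.subtype (X j) := by rw [map_X]
  rw [h1]
  exact cpts_coeff _

/-- values of a form at the normalised image point -/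
private theorem cpts_eval {N k : ℕ} {Lx : Fin 4 → Poly N} (hL : ∀ i, (Lx i).IsHomogeneous 1)
    {G : Poly 3} (hG : G.IsHomogeneous k) {v : Fin (N + 1) → ℂ} (hv : eval v (Lx 0) ≠ 0)
    (h : eval v (sub4 Lx G) ≠ 0) : eval (aff Lx v) G ≠ 0 := by
  have h1 : (sub4 Lx G).IsHomogeneous k := by
    have h2 := hG.aeval Lx hL
    rwa [one_mul] at h2
  rw [aff, ← eval_sub4, ← eval_scaleHom, scaleHom_homogeneous _ h1, smul_eval]
  exact mul_ne_zero (pow_ne_zero _ (inv_ne_zero hv)) h

/-- **the inequality for curves**.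

Proof. Let `L` be the linear forms of `hP`. By `W.exists_proj4` there is a projection
`Proj4 J d q F Lx s`, and `d = D` by `Proj4.surfDeg_eq` and `hD`. Let `K'` be a countable field which
contains the coefficients of generators of `J` (`exists_definedOver`), of the `L j`, `Lx j`, `F` and
`s`; let `v`, `φ` be given by `hP` for `K'`. `proj J L` is injective by `inj_of_germ` (there is a
point, `n ≥ 1`). By `avoid`, at every `v i` the following forms do not vanish: `Lx 0` (not in `J`,
since `F` does not divide `X 0`; see `W/ProjMap.lean`), `sub4 Lx (inc s)`, and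
`sub4 Lx (pderiv 3 F)` (`F` does not divide `inc s`, `pderiv 3 F`: `Proj4.not_dvd_inc`,
`Proj4.not_dvd_pderiv`); their coefficients are in `K'`. The points `u i = aff Lx (v i)` satisfy
`u i 0 = 1` (`aff_zero`), `F (u i) = 0` (`aff_root`), `pderiv 3 F (u i) ≠ 0`, `s (u i) ≠ 0`
(homogeneous forms), and `S.FI D F u` by `fi_of_gfi`. For a curve `P` on `J`, `P.comap (sub4 Lx)` is
a curve on `F = 0` (`Proj4.isCurveOn`), `deg` does not increase (`Proj4.deg_comap_le`), and the
multiplicities at `u i` and `v i` are equal (`Proj4.mult_eq`, `mult_smul`: exactly as in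
`W.ineqN`, file `W/AffIneq.lean`). Use `T.curves_of_FI`. The linear form is `l = L 0`; the `v i` are
different, because the numbers `eval (v i) (L 1)` are algebraically independent. -/
theorem curves_of_pts {N D n : ℕ} (hn : 1 ≤ n) {J : Ideal (Poly N)} (hJ : IsSurface J)
    (hD : surfDeg J = D) (hP : Pts D J n) :
    ∃ (l : Poly N) (v : Fin n → Fin (N + 1) → ℂ), l.IsHomogeneous 1 ∧ Function.Injective v ∧
      (∀ i, eval (v i) l = 1) ∧ (∀ i, ∀ F ∈ J, eval (v i) F = 0) ∧
      ∀ P, IsCurveOn J P → (D : ℝ≥0∞) * (∑ i, mult P (v i)) ^ 2 ≤ n * (deg P) ^ 2 := by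
  obtain ⟨L, hL, hpts⟩ := hP
  obtain ⟨d, q, F, Lx, s, h⟩ := exists_proj4 hJ
  have hd : (d : ℝ≥0∞) = D := (h.surfDeg_eq hJ).symm.trans hD
  have hdD : d = D := by exact_mod_cast hd
  subst hdD
  obtain ⟨S0, hSc, hS⟩ := exists_definedOver J
  -- the field
  set S1 : Set ℂ := S0 ∪ (⋃ j, Set.range fun α => coeff α (L j)) ∪
    (⋃ j, Set.range fun α => coeff α (Lx j)) ∪ (Set.range fun e => coeff e F) ∪
    Set.range fun e => coeff e s with hS1
  have hS1c : S1.Countable := by
    refine (((hSc.union ?_).union ?_).union ?_).union ?_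
    · exact Set.countable_iUnion fun j => Set.countable_range _
    · exact Set.countable_iUnion fun j => Set.countable_range _
    · exact Set.countable_range _
    · exact Set.countable_range _
  set K' : Subfield ℂ := Subfield.closure S1 with hK'
  have hct : Countable K' := S.Hn.countable_closure S1 hS1c
  have hsub : S1 ⊆ K' := Subfield.subset_closure
  have hLK : ∀ j α, coeff α (L j) ∈ K' := fun j α =>
    hsub (Or.inl (Or.inl (Or.inl (Or.inr (Set.mem_iUnion.2 ⟨j, ⟨α, rfl⟩⟩)))))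
  have hLxK : ∀ j α, coeff α (Lx j) ∈ K' := fun j α =>
    hsub (Or.inl (Or.inl (Or.inr (Set.mem_iUnion.2 ⟨j, ⟨α, rfl⟩⟩))))
  have hFK : ∀ e, coeff e F ∈ K' := fun e => hsub (Or.inl (Or.inr ⟨e, rfl⟩))
  have hsK : ∀ e, coeff e s ∈ K' := fun e => hsub (Or.inr ⟨e, rfl⟩)
  have hdef : DefinedOver K' J :=
    hS K' fun x hx => hsub (Or.inl (Or.inl (Or.inl (Or.inl hx))))
  obtain ⟨v, φ, hgerm, hind, hgfi⟩ := hpts K' (Set.countable_coe_iff.1 hct)
  have hroot : ∀ i, ∀ G ∈ J, eval (v i) G = 0 := fun i G hG => by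
    rw [← (hgerm i).const G, (hgerm i).ker G hG, map_zero]
  have hv0 : ∀ i, eval (v i) (L 0) = 1 := fun i => by
    rw [← (hgerm i).const, (hgerm i).l0, map_one]
  have hinj : Function.Injective (proj J L) :=
    inj_of_germ hJ.homogeneous hL (hgerm ⟨0, hn⟩)
  have hindi : ∀ i, AlgebraicIndependent K' ![eval (v i) (L 1), eval (v i) (L 2)] := by
    intro i
    have h1 := hind.comp (fun k : Fin 2 => (i, k)) (fun k l hkl => (Prod.mk.inj hkl).2)
    have h2 : ((fun q : Fin n × Fin 2 => eval (v q.1) (L q.2.succ)) ∘ fun k : Fin 2 => (i, k)) =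
        ![eval (v i) (L 1), eval (v i) (L 2)] := by
      funext k
      fin_cases k <;> rfl
    rwa [h2] at h1
  have hgen : ∀ (k : ℕ) (G : Poly 3), G.IsHomogeneous k → (∀ e, coeff e G ∈ K') → ¬ F ∣ G →
      ∀ i, eval (v i) (sub4 Lx G) ≠ 0 := by
    intro k G hG hGK hFG i
    have h1 : (sub4 Lx G).IsHomogeneous k := by
      have h2 := hG.aeval Lx h.hL
      rwa [one_mul] at h2
    refine avoid hJ hdef hL hLK hinj h1 (cpts_sub4 hLxK hGK) ?_ (hroot i) (hv0 i) (hindi i)
    intro h3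
    exact hFG ((h.hker G).1 h3)
  have hne : ∀ i, eval (v i) (Lx 0) ≠ 0 := by
    intro i
    have h1 := hgen 1 (X 0) (isHomogeneous_X _ _) (cpts_X 0) (by
      have h2 := h.not_dvd_inc (b := X 0) (X_ne_zero 0)
      have h3 : Pool.Agent.Lib.MP_ed661f_ag.T.inc (X 0 : Pool.Agent.Lib.MP_ed661f_ag.T.D3) =
          (X 0 : Poly 3) := by
        rw [Pool.Agent.Lib.MP_ed661f_ag.T.inc, rename_X]
        rfl
      rwa [h3] at h2) i
    have h2 : sub4 Lx (X 0) = Lx 0 := by rw [sub4, aeval_X]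
    rwa [h2] at h1
  have hinc : ∀ i, eval (aff Lx (v i)) (Pool.Agent.Lib.MP_ed661f_ag.T.inc s) ≠ 0 := by
    intro i
    have h1 : (Pool.Agent.Lib.MP_ed661f_ag.T.inc s).IsHomogeneous q := by
      rw [Pool.Agent.Lib.MP_ed661f_ag.T.inc]
      exact h.hs.rename_isHomogeneous
    exact cpts_eval h.hL h1 (hne i) (hgen q _ h1 (cpts_inc hsK) (h.not_dvd_inc h.hs0) i)
  have hder : ∀ i, eval (aff Lx (v i)) (pderiv 3 F) ≠ 0 := by
    intro i
    have h1 : (pderiv 3 F).IsHomogeneous (d - 1) := h.hF.pderiv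
    exact cpts_eval h.hL h1 (hne i) (hgen (d - 1) _ h1 (cpts_pderiv hFK 3)
      h.not_dvd_pderiv i)
  refine ⟨L 0, v, hL 0, ?_, hv0, hroot, ?_⟩
  · intro i j hij
    have h1 : (fun q : Fin n × Fin 2 => eval (v q.1) (L q.2.succ)) (i, 0) =
        (fun q : Fin n × Fin 2 => eval (v q.1) (L q.2.succ)) (j, 0) := by
      simp only [hij]
    exact (Prod.mk.inj (hind.injective h1)).1
  · intro P hPc
    have hl : coeff (Finsupp.single 3 d) F ≠ 0 := by
      have h1 := h.hcoeff
      have h2 : (Fin.last 3 : Fin 4) = 3 := rfl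
      rw [h2] at h1
      rw [h1]
      exact one_ne_zero
    have h1 := T.curves_of_FI hn h.hF (h.irreducible hJ.prime) hl
      (v := fun i => aff Lx (v i)) (fun i => aff_zero h.hL (hne i))
      (fun i => aff_root h hJ (hroot i)) hder
      (fi_of_gfi h (fun i => (hgerm i).ker) (fun i => (hgerm i).const) hgfi hne)
      (h.isCurveOn hPc)
    have h2 : ∀ i, mult (P.comap (sub4 Lx)) (aff Lx (v i)) = mult P (v i) := by
      intro i
      have h3 := hinc i
      rw [aff] at h3 ⊢
      rw [h.mult_eq (mem_smul hJ.homogeneous (hroot i) _) h3 hPc.le,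
        mult_smul hPc.homogeneous _ (inv_ne_zero (hne i))]
    simp only [h2] at h1
    refine h1.trans ?_
    gcongr
    exact h.deg_comap_le P

end Pool.Agent.Lib.MP_ed661f_ag.V
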