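import Pool.Agent.Lib.MP_ed661f_ag.V.Defs

/-!
The product of the conjugates of a form in three-space.
-/

set_option autoImplicit false

open MvPolynomial

namespace Pool.Agent.Lib.MP_ed661f_ag.V

open Pool.Agent.Lib.MP_ed661f_ag.H

/-- the substitution `X 2 := ω X 2` -/
noncomputable def cyc (ω : ℂ) : Poly 3 →ₐ[ℂ] Poly 3 := aeval ![X 0, X 1, C ω * X 2, X 3]

private theorem cyc_mono (ω : ℂ) (γ : Fin 4 →₀ ℕ) (c : ℂ) :
    cyc ω (monomial γ c) = monomial γ (ω ^ γ 2 * c) := by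
  rw [cyc, aeval_monomial, monomial_eq (s := γ), Finsupp.prod_fintype _ _ fun i => pow_zero _,
    Finsupp.prod_fintype _ _ fun i => pow_zero _, Fin.prod_univ_four, Fin.prod_univ_four]
  change algebraMap ℂ (Poly 3) c * (X 0 ^ γ 0 * X 1 ^ γ 1 * (C ω * X 2) ^ γ 2 * X 3 ^ γ 3) =
    C (ω ^ γ 2 * c) * (X 0 ^ γ 0 * X 1 ^ γ 1 * X 2 ^ γ 2 * X 3 ^ γ 3)
  rw [algebraMap_eq, C_mul, C_pow]
  ring

private theorem cyc_coeff (ω : ℂ) (F : Poly 3) (γ : Fin 4 →₀ ℕ) :
    coeff γ (cyc ω F) = ω ^ γ 2 * coeff γ F := by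
  classical
  induction F using MvPolynomial.induction_on' with
  | monomial δ c =>
    rw [cyc_mono, coeff_monomial, coeff_monomial]
    by_cases h : δ = γ
    · rw [if_pos h, if_pos h, h]
    · rw [if_neg h, if_neg h, mul_zero]
  | add F G hF hG =>
    rw [map_add, coeff_add, coeff_add, hF, hG, mul_add]

private theorem cyc_cyc (ζ ω : ℂ) (F : Poly 3) : cyc ζ (cyc ω F) = cyc (ζ * ω) F := by
  ext γ
  rw [cyc_coeff, cyc_coeff, cyc_coeff, mul_pow, mul_assoc]

private theorem cyc_hom (ω : ℂ) {F : Poly 3} {n : ℕ} (hF : F.IsHomogeneous n) :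
    (cyc ω F).IsHomogeneous n := by
  intro γ hγ
  rw [cyc_coeff] at hγ
  exact hF (right_ne_zero_of_mul hγ)

/-- the value at the last basis vector -/
private theorem cyc_eval {F : Poly 3} {n : ℕ} (hF : F.IsHomogeneous n) :
    eval (Pi.single 3 1 : Fin 4 → ℂ) F = coeff (Finsupp.single 3 n) F := by
  classical
  rw [eval_eq', Finset.sum_eq_single (Finsupp.single 3 n)]
  · rw [Finset.prod_eq_one, mul_one]
    intro i _
    by_cases hi : i = 3
    · subst hi
      rw [Pi.single_eq_same, one_pow]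
    · rw [Finsupp.single_eq_of_ne hi, pow_zero]
  · intro γ hγ hne
    have h1 := hF (mem_support_iff.1 hγ)
    obtain ⟨i, hi, hi0⟩ : ∃ i, i ≠ 3 ∧ γ i ≠ 0 := by
      by_contra hcon
      push Not at hcon
      apply hne
      have h2 : γ = Finsupp.single 3 (γ 3) := by
        ext i
        by_cases hi : i = 3
        · subst hi
          rw [Finsupp.single_eq_same]
        · rw [Finsupp.single_eq_of_ne hi, hcon i hi]
      rw [h2, Finsupp.weight_single] at h1
      rw [h2]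
      congr 1
      simpa using h1
    rw [Finset.prod_eq_zero (Finset.mem_univ i), mul_zero]
    rw [Pi.single_eq_of_ne hi, zero_pow hi0]
  · intro h
    rw [notMem_support_iff.1 h, zero_mul]

/-- the product of the conjugates -/
private noncomputable def cycP (e : ℕ) (F : Poly 3) : Poly 3 :=
  ∏ ω ∈ Polynomial.nthRootsFinset e (1 : ℂ), cyc ω F

private theorem cycP_hom {e μ : ℕ} (he : 1 ≤ e) {F : Poly 3} (hF : F.IsHomogeneous μ) :
    (cycP e F).IsHomogeneous (e * μ) := by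
  have h := IsHomogeneous.prod (Polynomial.nthRootsFinset e (1 : ℂ)) (fun ω => cyc ω F)
    (fun _ => μ) fun ω _ => cyc_hom ω hF
  rw [Finset.sum_const, (Complex.isPrimitiveRoot_exp e (by omega)).card_nthRootsFinset,
    smul_eq_mul] at h
  exact h

private theorem cycP_inv {e : ℕ} (he : 1 ≤ e) (F : Poly 3) {ζ : ℂ} (hζ : ζ ^ e = 1) :
    cyc ζ (cycP e F) = cycP e F := by
  have hζ0 : ζ ≠ 0 := by
    rintro rfl
    rw [zero_pow (by omega)] at hζ
    exact zero_ne_one hζ
  rw [cycP, map_prod]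
  refine Finset.prod_nbij' (fun ω => ζ * ω) (fun ω => ζ⁻¹ * ω) ?_ ?_ ?_ ?_ ?_
  · intro ω hω
    rw [Polynomial.mem_nthRootsFinset (by omega)] at hω ⊢
    rw [mul_pow, hζ, hω, one_mul]
  · intro ω hω
    rw [Polynomial.mem_nthRootsFinset (by omega)] at hω ⊢
    rw [mul_pow, inv_pow, hζ, hω, inv_one, one_mul]
  · intro ω _
    rw [inv_mul_cancel_left₀ hζ0]
  · intro ω _
    rw [mul_inv_cancel_left₀ hζ0]
  · intro ω _
    exact cyc_cyc ζ ω F

private theorem cycP_dvd {e : ℕ} (he : 1 ≤ e) (F : Poly 3) {γ : Fin 4 →₀ ℕ}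
    (hγ : coeff γ (cycP e F) ≠ 0) : e ∣ γ 2 := by
  have hζ := Complex.isPrimitiveRoot_exp e (by omega)
  have h1 := cyc_coeff (Complex.exp (2 * Real.pi * Complex.I / e)) (cycP e F) γ
  rw [cycP_inv he F hζ.pow_eq_one] at h1
  have h2 : Complex.exp (2 * Real.pi * Complex.I / e) ^ γ 2 = 1 := by
    have h3 : (1 - Complex.exp (2 * Real.pi * Complex.I / e) ^ γ 2) * coeff γ (cycP e F) = 0 := by
      rw [sub_mul, one_mul, ← h1, sub_self]
    have h4 := (mul_eq_zero.1 h3).resolve_right hγ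
    exact (sub_eq_zero.1 h4).symm
  exact hζ.dvd_of_pow_eq_one _ h2

private theorem cycP_coeff {e μ : ℕ} (he : 1 ≤ e) {F : Poly 3} (hF : F.IsHomogeneous μ)
    (hc : coeff (Finsupp.single 3 μ) F ≠ 0) :
    coeff (Finsupp.single 3 (e * μ)) (cycP e F) ≠ 0 := by
  rw [← cyc_eval (cycP_hom he hF), cycP, map_prod]
  refine Finset.prod_ne_zero_iff.2 fun ω _ => ?_
  rw [cyc_eval (cyc_hom ω hF), cyc_coeff, Finsupp.single_eq_of_ne (by decide), pow_zero, one_mul]
  exact hc

/-- the new exponent -/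
private noncomputable def cycE (e n : ℕ) (γ : Fin 4 →₀ ℕ) : Fin 4 →₀ ℕ :=
  Finsupp.single 0 (n - γ 1 - γ 3 - γ 2 / e) + Finsupp.single 1 (γ 1) + Finsupp.single 2 (γ 3) +
    Finsupp.single 3 (γ 2 / e)

private theorem cyc_deg {n : ℕ} {P : Poly 3} (hP : P.IsHomogeneous n) {γ : Fin 4 →₀ ℕ}
    (hγ : coeff γ P ≠ 0) : γ 0 + γ 1 + γ 2 + γ 3 = n := by
  have h1 := hP hγ
  have h2 : γ.degree = n := by
    rw [Finsupp.degree_eq_weight_one]
    exact h1
  rw [Finsupp.degree_eq_sum, Fin.sum_univ_four] at h2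
  exact h2

/-- **the product of the conjugates** `F(1, v, ω y, x)`, `ω ^ e = 1`, is `G(1, v, x, y ^ e)` with a
form `G` of degree `e μ`.

Proof. Let `Π = ∏_ω cyc ω F`, a form of degree `e μ` (there are `e` roots of unity). For a primitive
root `ζ`, `cyc ζ Π = Π` (the factors are permuted), so the coefficient of `X^γ` in `Π` is zero
unless `e` divides `γ 2`. Put
`G = ∑_γ (coeff γ Π) X 0 ^ (e μ - γ 1 - γ 3 - γ 2 / e) X 1 ^ (γ 1) X 2 ^ (γ 3) X 3 ^ (γ 2 / e)`, a
form of degree `e μ`, because `γ 1 + γ 3 + γ 2 / e ≤ e μ`. The coefficient of `X 2 ^ (e μ)` in `G`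
is the coefficient of `X 3 ^ (e μ)` in `Π`, which is the `e`-th power of that of `X 3 ^ μ` in `F`
(value at `(0,0,0,1)`). The identity is the image of the definition under `X 0 := 1`. -/
theorem exists_cyc {e μ : ℕ} (he : 1 ≤ e) {F : Poly 3} (hF : F.IsHomogeneous μ)
    (hc : coeff (Finsupp.single 3 μ) F ≠ 0) :
    ∃ G : Poly 3, G.IsHomogeneous (e * μ) ∧ coeff (Finsupp.single 2 (e * μ)) G ≠ 0 ∧
      (aeval ![1, X 1, X 3, X 2 ^ e] G : Poly 3) =
        ∏ ω ∈ Polynomial.nthRootsFinset e (1 : ℂ), aeval ![1, X 1, C ω * X 2, X 3] F := by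
  classical
  have hP := cycP_hom he hF
  have hG : (∑ γ ∈ (cycP e F).support, monomial (cycE e (e * μ) γ) (coeff γ (cycP e F)) :
      Poly 3).IsHomogeneous (e * μ) := by
    refine IsHomogeneous.sum _ _ _ fun γ hγ => isHomogeneous_monomial _ ?_
    have h1 := cyc_deg hP (mem_support_iff.1 hγ)
    have h2 := Nat.div_le_self (γ 2) e
    rw [Finsupp.degree_eq_sum, Fin.sum_univ_four]
    simp only [cycE, Finsupp.add_apply, Finsupp.single_apply]
    simp
    omega
  refine ⟨_, hG, ?_, ?_⟩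
  · rw [coeff_sum, Finset.sum_eq_single (Finsupp.single 3 (e * μ))]
    · rw [coeff_monomial, if_pos]
      · exact cycP_coeff he hF hc
      · ext i
        fin_cases i <;> simp [cycE]
    · intro γ hγ hne
      rw [coeff_monomial, if_neg]
      intro h
      apply hne
      have h1 := cyc_deg hP (mem_support_iff.1 hγ)
      have h3 : γ 3 = e * μ := by
        have := DFunLike.congr_fun h 2
        simpa [cycE, Finsupp.single_apply] using this
      ext i
      fin_cases i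
      · simp
        omega
      · simp
        omega
      · simp
        omega
      · simpa [Finsupp.single_apply] using h3
    · intro h
      rw [notMem_support_iff.1 h, monomial_zero, coeff_zero]
  · have hR : (∏ ω ∈ Polynomial.nthRootsFinset e (1 : ℂ), aeval ![1, X 1, C ω * X 2, X 3] F :
        Poly 3) = aeval ![1, X 1, X 2, X 3] (cycP e F) := by
      rw [cycP, map_prod]
      refine Finset.prod_congr rfl fun ω _ => ?_
      have : (aeval ![1, X 1, C ω * X 2, X 3] : Poly 3 →ₐ[ℂ] Poly 3) =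
          (aeval ![1, X 1, X 2, X 3]).comp (cyc ω) := by
        refine algHom_ext fun i => ?_
        rw [AlgHom.comp_apply, cyc, aeval_X, aeval_X]
        fin_cases i
        · change (1 : Poly 3) = aeval ![1, X 1, X 2, X 3] (X 0 : Poly 3)
          rw [aeval_X]
          rfl
        · change (X 1 : Poly 3) = aeval ![1, X 1, X 2, X 3] (X 1 : Poly 3)
          rw [aeval_X]
          rfl
        · change C ω * X 2 = aeval ![1, X 1, X 2, X 3] (C ω * X 2 : Poly 3)
          rw [map_mul, aeval_C, aeval_X]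
          rfl
        · change (X 3 : Poly 3) = aeval ![1, X 1, X 2, X 3] (X 3 : Poly 3)
          rw [aeval_X]
          rfl
      rw [this]
      rfl
    rw [hR, map_sum]
    conv_rhs => rw [(cycP e F).as_sum, map_sum]
    refine Finset.sum_congr rfl fun γ hγ => ?_
    have h1 := cycP_dvd he F (mem_support_iff.1 hγ)
    rw [aeval_monomial, aeval_monomial, Finsupp.prod_fintype _ _ fun i => pow_zero _,
      Finsupp.prod_fintype _ _ fun i => pow_zero _, Fin.prod_univ_four, Fin.prod_univ_four]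
    have g1 : cycE e (e * μ) γ 1 = γ 1 := by simp [cycE, Finsupp.single_apply]
    have g2 : cycE e (e * μ) γ 2 = γ 3 := by simp [cycE, Finsupp.single_apply]
    have g3 : cycE e (e * μ) γ 3 = γ 2 / e := by simp [cycE, Finsupp.single_apply]
    change _ * (1 ^ _ * X 1 ^ cycE e (e * μ) γ 1 * X 3 ^ cycE e (e * μ) γ 2 *
      (X 2 ^ e) ^ cycE e (e * μ) γ 3) = _ * (1 ^ _ * X 1 ^ γ 1 * X 2 ^ γ 2 * X 3 ^ γ 3)
    rw [g1, g2, g3, ← pow_mul, Nat.mul_div_cancel' h1, one_pow, one_pow]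
    ring

/-- the identity in an arbitrary algebra.

Proof. Apply the homomorphism `Poly 3 → A` with `X 0 ↦ 1`, `X 1 ↦ a`, `X 2 ↦ c`, `X 3 ↦ b` to
`hG`. -/
theorem cyc_aeval {e : ℕ} {F G : Poly 3}
    (hG : (aeval ![1, X 1, X 3, X 2 ^ e] G : Poly 3) =
      ∏ ω ∈ Polynomial.nthRootsFinset e (1 : ℂ), aeval ![1, X 1, C ω * X 2, X 3] F)
    {A : Type} [CommRing A] [Algebra ℂ A] (a b c : A) :
    aeval ![1, a, b, c ^ e] G =
      ∏ ω ∈ Polynomial.nthRootsFinset e (1 : ℂ), aeval ![1, a, algebraMap ℂ A ω * c, b] F := by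
  have h := congrArg (aeval ![1, a, c, b] : Poly 3 →ₐ[ℂ] A) hG
  rw [map_prod] at h
  have h1 : (aeval ![1, a, c, b] : Poly 3 →ₐ[ℂ] A) (aeval ![1, X 1, X 3, X 2 ^ e] G) =
      aeval ![1, a, b, c ^ e] G := by
    rw [← AlgHom.comp_apply]
    congr 1
    refine algHom_ext fun i => ?_
    rw [AlgHom.comp_apply, aeval_X, aeval_X]
    fin_cases i
    · change (aeval ![1, a, c, b] : Poly 3 →ₐ[ℂ] A) 1 = 1
      rw [map_one]
    · change (aeval ![1, a, c, b] : Poly 3 →ₐ[ℂ] A) (X 1) = a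
      rw [aeval_X]
      rfl
    · change (aeval ![1, a, c, b] : Poly 3 →ₐ[ℂ] A) (X 3) = b
      rw [aeval_X]
      rfl
    · change (aeval ![1, a, c, b] : Poly 3 →ₐ[ℂ] A) (X 2 ^ e) = c ^ e
      rw [map_pow, aeval_X]
      rfl
  rw [h1] at h
  rw [h]
  refine Finset.prod_congr rfl fun ω _ => ?_
  rw [← AlgHom.comp_apply]
  congr 1
  refine algHom_ext fun i => ?_
  rw [AlgHom.comp_apply, aeval_X, aeval_X]
  fin_cases i
  · change (aeval ![1, a, c, b] : Poly 3 →ₐ[ℂ] A) 1 = 1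
    rw [map_one]
  · change (aeval ![1, a, c, b] : Poly 3 →ₐ[ℂ] A) (X 1) = a
    rw [aeval_X]
    rfl
  · change (aeval ![1, a, c, b] : Poly 3 →ₐ[ℂ] A) (C ω * X 2) = algebraMap ℂ A ω * c
    rw [map_mul, aeval_C, aeval_X]
    rfl
  · change (aeval ![1, a, c, b] : Poly 3 →ₐ[ℂ] A) (X 3) = b
    rw [aeval_X]
    rfl

end Pool.Agent.Lib.MP_ed661f_ag.V
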