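import Pool.Agent.Lib.MP_ed661f_ag.V.Ord
import Pool.Agent.Lib.MP_ed661f_ag.H.Echelon

/-!
Bases with different orders on the branch.
-/

set_option autoImplicit false

open MvPolynomial

namespace Pool.Agent.Lib.MP_ed661f_ag.V

open Pool.Agent.Lib.MP_ed661f_ag.H

/-- the space of the forms of degree `d` in `InS e` -/
private noncomputable def SS (e d : ℕ) : Submodule ℂ (Poly 4) where
  carrier := {Q | Q.IsHomogeneous d ∧ InS e Q}
  add_mem' := by
    rintro Q R ⟨h1, h2⟩ ⟨h3, h4⟩
    refine ⟨h1.add h3, fun γ hγ => ?_⟩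
    rcases Finset.mem_union.1 (MvPolynomial.support_add hγ) with h | h
    · exact h2 γ h
    · exact h4 γ h
  zero_mem' := ⟨isHomogeneous_zero _ _ _, fun γ hγ => by simp at hγ⟩
  smul_mem' := by
    rintro c Q ⟨h1, h2⟩
    refine ⟨?_, fun γ hγ => h2 γ (MvPolynomial.support_smul hγ)⟩
    rw [MvPolynomial.smul_eq_C_mul]
    have := (isHomogeneous_C (Fin 5) c).mul h1
    rwa [zero_add] at this

private theorem SS_fd (e d : ℕ) : FiniteDimensional ℂ (SS e d) := by
  have : FiniteDimensional ℂ (homogeneousSubmodule (Fin 5) ℂ d) :=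
    Module.Finite.iff_fg.2 (homogeneousSubmodule_fg (Fin 5) ℂ d)
  exact Submodule.finiteDimensional_of_le (S₂ := homogeneousSubmodule (Fin 5) ℂ d)
    (fun Q hQ => hQ.1)

private theorem ech_indep (S : Finset ℕ) (v : S → PowerSeries ℂ)
    (h1 : ∀ l : S, PowerSeries.coeff l.1 (v l) = 1)
    (h2 : ∀ l : S, ∀ j < l.1, PowerSeries.coeff j (v l) = 0) : LinearIndependent ℂ v := by
  rw [Fintype.linearIndependent_iff]
  intro g hg
  by_contra hne
  push Not at hne
  obtain ⟨i, hi⟩ := hne
  have hex : ∃ l : ℕ, ∃ h : l ∈ S, g ⟨l, h⟩ ≠ 0 := ⟨i.1, i.2, hi⟩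
  classical
  obtain ⟨hl, hgl⟩ := Nat.find_spec hex
  set l := Nat.find hex with hldef
  have hmin : ∀ j : S, j.1 < l → g j = 0 := by
    intro j hj
    by_contra h
    exact Nat.find_min hex hj ⟨j.2, h⟩
  have h3 := congrArg (PowerSeries.coeff l) hg
  rw [map_sum, map_zero, Finset.sum_eq_single (⟨l, hl⟩ : S)] at h3
  · rw [map_smul, h1 ⟨l, hl⟩, smul_eq_mul, mul_one] at h3
    exact hgl h3
  · intro j _ hj
    rcases lt_trichotomy j.1 l with h | h | h
    · rw [hmin j h, zero_smul, map_zero]
    · exact absurd (Subtype.ext h) hj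
    · rw [map_smul, h2 j l h, smul_zero]
  · intro h
    exact absurd (Finset.mem_univ _) h

/-- **echelon bases exist**.

Proof. For each degree `d` let `S_d` be the space of the forms of degree `d` in `InS e`, of finite
dimension `M`, with basis `w`. The power series `br θ (w i)` are linearly independent (`hB.inj`).
`H.exists_echelon` gives a set `E d` of `M` indices and for each `l ∈ E d` a combination `b d l` of
the `w i` with `br θ (b d l) = Z ^ l + ...`. By `ord_le`, `l ≤ e * d`. The `b d l`, `l ∈ E d`, are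
linearly independent (different orders), and there are `M` of them, so they span `S_d`. Outside
`E d` put `b d l = 0`. -/
theorem exists_ech {e : ℕ} (he : 1 ≤ e) {P : Poly 4} (hP : P.IsHomogeneous e)
    (hc : coeff (Finsupp.single 4 e) P = 1) {θ : PowerSeries ℂ} (hB : Branch e P θ) :
    ∃ (E : ℕ → Finset ℕ) (b : ℕ → ℕ → Poly 4), Ech e θ E b := by
  classical
  have key : ∀ d : ℕ, ∃ (E : Finset ℕ) (b : ℕ → Poly 4), E.card = Module.finrank ℂ (SS e d) ∧
      ∀ l ∈ E, b l ∈ SS e d ∧ PowerSeries.coeff l (br θ (b l)) = 1 ∧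
        ∀ j < l, PowerSeries.coeff j (br θ (b l)) = 0 := by
    intro d
    have := SS_fd e d
    obtain ⟨S, hS, hS'⟩ := exists_echelon_aux (Module.finrank ℂ (SS e d))
      ((SS e d).map (br θ).toLinearMap) inferInstance (by
        have hinj : Function.Injective ((br θ).toLinearMap.domRestrict (SS e d)) := by
          rw [← LinearMap.ker_eq_bot, eq_bot_iff]
          rintro ⟨Q, hQ⟩ hQ0
          rw [Submodule.mem_bot, Subtype.ext_iff]
          exact hB.inj d Q hQ.1 hQ.2 hQ0
        have h := LinearMap.finrank_range_of_inj hinj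
        rw [LinearMap.range_domRestrict] at h
        exact h)
    have hch : ∀ l : ℕ, ∃ Q : Poly 4, l ∈ S → Q ∈ SS e d ∧
        PowerSeries.coeff l (br θ Q) = 1 ∧ ∀ j < l, PowerSeries.coeff j (br θ Q) = 0 := by
      intro l
      by_cases hl : l ∈ S
      · obtain ⟨v, hv, h1, h2⟩ := hS' l hl
        obtain ⟨Q, hQ, rfl⟩ := Submodule.mem_map.1 hv
        exact ⟨Q, fun _ => ⟨hQ, h1, h2⟩⟩
      · exact ⟨0, fun h => absurd h hl⟩
    choose b hb using hch
    exact ⟨S, b, hS, fun l hl => hb l hl⟩
  choose E b hcard hb using key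
  refine ⟨E, b, ?_⟩
  constructor
  · intro d l hl
    obtain ⟨hm, h1, h2⟩ := hb d l hl
    have hne : b d l ≠ 0 := by
      rintro h
      rw [h, map_zero, map_zero] at h1
      exact zero_ne_one h1
    obtain ⟨l', hl', h3⟩ := ord_le he hP hc hB hm.1 hm.2 hne
    by_contra hlt
    exact h3 (h2 l' (by omega))
  · exact fun d l hl => (hb d l hl).1.1
  · exact fun d l hl => (hb d l hl).1.2
  · exact fun d l hl => (hb d l hl).2.2
  · exact fun d l hl => (hb d l hl).2.1
  · intro d Q hQ hS
    have := SS_fd e d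
    have hli : LinearIndependent ℂ (fun l : E d => (⟨b d l, (hb d l l.2).1⟩ : SS e d)) := by
      have h := ech_indep (E d) (fun l => br θ (b d l)) (fun l => (hb d l l.2).2.1)
        (fun l => (hb d l l.2).2.2)
      exact LinearIndependent.of_comp ((br θ).toLinearMap.domRestrict (SS e d)) h
    have hspan := hli.span_eq_top_of_card_eq_finrank' (by
      rw [Fintype.card_coe, hcard d])
    have hmem : (⟨Q, hQ, hS⟩ : SS e d) ∈ Submodule.span ℂ (Set.range
        (fun l : E d => (⟨b d l, (hb d l l.2).1⟩ : SS e d))) := by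
      rw [hspan]; exact Submodule.mem_top
    rw [Submodule.mem_span_range_iff_exists_fun] at hmem
    obtain ⟨c, hc'⟩ := hmem
    refine ⟨fun l => if h : l ∈ E d then c ⟨l, h⟩ else 0, ?_⟩
    have h4 := congrArg Subtype.val hc'
    rw [← Finset.sum_attach]
    simp only [Submodule.coe_sum, Submodule.coe_smul] at h4
    rw [← h4]
    refine Finset.sum_congr rfl fun l _ => ?_
    have h5 : (fun l => if h : l ∈ E d then c ⟨l, h⟩ else 0) l.1 = c l := dif_pos l.2
    rw [h5, MvPolynomial.smul_eq_C_mul]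

end Pool.Agent.Lib.MP_ed661f_ag.V
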