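import Pool.Agent.Lib.MP_ed661f_ag.V.ProjEx
import Pool.Agent.Lib.MP_ed661f_ag.V.ChangeB
import Pool.Agent.Lib.MP_ed661f_ag.V.BranchEx

/-!
Projections of a threefold in good coordinates.
-/

set_option autoImplicit false

open MvPolynomial

namespace Pool.Agent.Lib.MP_ed661f_ag.V

open Pool.Agent.Lib.MP_ed661f_ag.H

/-- a projection in good coordinates -/
structure GoodProj {N : ℕ} (I : Ideal (Poly N)) (e q : ℕ) (P : Poly 4) (L : Fin 5 → Poly N)
    (s : Poly 3) (θ : PowerSeries ℂ) : Prop where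
  proj : Proj5 I e q P L s
  p0 : eval ![1, 0, 0, 0, 0] P = 0
  dp : eval ![1, 0, 0, 0, 0] (pderiv 4 P) ≠ 0
  sp : eval ![1, 0, 0, 0] s ≠ 0
  branch : Branch e P θ

/-- **projections in good coordinates exist** -/
theorem exists_goodProj {N : ℕ} {I : Ideal (Poly N)} (hI : IsThreefold I) :
    ∃ (e q : ℕ) (P : Poly 4) (L : Fin 5 → Poly N) (s : Poly 3) (θ : PowerSeries ℂ),
      GoodProj I e q P L s θ := by
  obtain ⟨e, q, P, L, s, h⟩ := exists_proj5 hI
  obtain ⟨a, r, h1, h2, h3⟩ := h.exists_point hI.prime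
  obtain ⟨L1, hL1⟩ := h.change a 0 0 r
  have e0 := (eval_ch a 0 0 r P).1
  have e1 := (eval_ch a 0 0 r P).2
  have e2 := eval_ch3 a 0 0 s
  obtain ⟨α, β, θ, hθ⟩ := exists_branch hL1.hP hL1.hcoeff (hL1.irreducible hI.prime)
    (by rw [e0]; exact h1) (by rw [e1]; exact h2)
  obtain ⟨L2, hL2⟩ := hL1.change (fun _ => 0) α β 0
  have f0 := (eval_ch (fun _ => 0) α β 0 (ch a 0 0 r P)).1
  have f1 := (eval_ch (fun _ => 0) α β 0 (ch a 0 0 r P)).2
  have f2 := eval_ch3 (fun _ => 0) α β (ch3 a 0 0 s)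
  exact ⟨e, q, _, L2, _, θ, hL2, by rw [f0, e0]; exact h1, by rw [f1, e1]; exact h2,
    by rw [f2, e2]; exact h3, hθ⟩

end Pool.Agent.Lib.MP_ed661f_ag.V
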