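import Pool.Agent.Lib.MP_ed661f_ag.V.Defs
import Pool.Agent.Lib.MP_ed661f_ag.H.Basis

/-!
The inverse of the projection: the coordinates as quotients of forms.
-/

set_option autoImplicit false

open MvPolynomial

namespace Pool.Agent.Lib.MP_ed661f_ag.V

open Pool.Agent.Lib.MP_ed661f_ag.H

/-- the forms `Q j` with `s X j ≡ Q j (L)` modulo `I` -/
structure RelQ {N : ℕ} (I : Ideal (Poly N)) (q : ℕ) (L : Fin 5 → Poly N) (s : Poly 3)
    (Q : Fin (N + 1) → Poly 4) : Prop where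
  hom : ∀ j, (Q j).IsHomogeneous (q + 1)
  rel : ∀ j, sub5 L (inc4 s) * X j - sub5 L (Q j) ∈ I

variable {N : ℕ} {I : Ideal (Poly N)} {e q : ℕ} {P : Poly 4} {L : Fin 5 → Poly N} {s : Poly 3}

private theorem rel_mul_hom {σ A R : Type*} [CommRing R] [CommRing A] [Algebra R A]
    {G : MvPolynomial σ R} {m : ℕ}
    (hG : G.IsHomogeneous m) (v : A) (f : σ → A) :
    aeval (fun i => v * f i) G = v ^ m * aeval f G := by
  rw [aeval_def, aeval_def, eval₂_eq, eval₂_eq, Finset.mul_sum]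
  refine Finset.sum_congr rfl fun e he => ?_
  have h1 : e.degree = m := by
    have := hG (mem_support_iff.1 he)
    rw [Finsupp.degree_eq_weight_one]
    exact this
  have h2 : ∏ i ∈ e.support, (v * f i) ^ e i = v ^ m * ∏ i ∈ e.support, f i ^ e i := by
    rw [← h1, Finsupp.degree_apply, ← Finset.prod_pow_eq_pow_sum, ← Finset.prod_mul_distrib]
    exact Finset.prod_congr rfl fun i _ => mul_pow _ _ _
  rw [h2]
  ring

private theorem rel_sub_mem {σ A R : Type*} [CommRing R] [CommRing A] [Algebra R A]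
    (I : Ideal A) {r r' : σ → A} (h : ∀ i, r i - r' i ∈ I) (G : MvPolynomial σ R) :
    aeval r G - aeval r' G ∈ I := by
  rw [← Ideal.Quotient.mk_eq_mk_iff_sub_mem]
  have h1 : ((Ideal.Quotient.mkₐ R I).comp (aeval r)) =
      (Ideal.Quotient.mkₐ R I).comp (aeval r') := by
    apply MvPolynomial.algHom_ext
    intro i
    simp only [AlgHom.comp_apply, aeval_X, Ideal.Quotient.mkₐ_eq_mk]
    rw [Ideal.Quotient.mk_eq_mk_iff_sub_mem]
    exact h i
  exact DFunLike.congr_fun h1 G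

/-- the substitution is homogeneous -/
private theorem rel_hom (h : Proj5 I e q P L s) {m : ℕ} {G1 : Poly 3} (hG : G1.IsHomogeneous m) :
    (sub5 L (inc4 G1)).IsHomogeneous m := by
  have h1 := (hG.rename_isHomogeneous (f := Fin.castSucc)).aeval L h.hL
  rw [one_mul] at h1
  exact h1

private theorem rel_cond (h : Proj5 I e q P L s)
    (hh : ∀ F ∈ I, ∀ k, homogeneousComponent k F ∈ I) {k : ℕ} {H : Poly N}
    (hH : H.IsHomogeneous k) :
    ∃ G : Poly 4, G.IsHomogeneous (k + q) ∧ sub5 L (inc4 s) * H - sub5 L G ∈ I := by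
  obtain ⟨G, hG⟩ := h.cond H
  refine ⟨homogeneousComponent (k + q) G, homogeneousComponent_isHomogeneous _ _, ?_⟩
  have h1 := hh _ hG (k + q)
  have h2 : (sub5 L (inc4 s) * H).IsHomogeneous (k + q) := by
    rw [add_comm k q]
    exact (rel_hom h h.hs).mul hH
  have h3 : homogeneousComponent (k + q) (sub5 L G) =
      sub5 L (homogeneousComponent (k + q) G) := hc_aeval h.hL G (k + q)
  rwa [map_sub, homogeneousComponent_of_mem h2, if_pos rfl, h3] at h1

/-- Proof. `h.cond` for `H = X j`; take the homogeneous component of degree `q + 1` of `G`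
(`sub5 L (inc4 s)` is a form of degree `q`, `H.hc_aeval`, `H.hc_mul`). -/
theorem Proj5.exists_Q (h : Proj5 I e q P L s)
    (hh : ∀ F ∈ I, ∀ k, homogeneousComponent k F ∈ I) : ∃ Q, RelQ I q L s Q := by
  have h1 : ∀ j : Fin (N + 1), ∃ G : Poly 4, G.IsHomogeneous (q + 1) ∧
      sub5 L (inc4 s) * X j - sub5 L G ∈ I := by
    intro j
    obtain ⟨G, hG, hG'⟩ := rel_cond h hh (isHomogeneous_X ℂ j)
    rw [add_comm 1 q] at hG
    exact ⟨G, hG, hG'⟩
  choose Q hQ hQ' using h1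
  exact ⟨Q, hQ, hQ'⟩

/-- the same for arbitrary forms: for a form `H` of degree `k` there is a form `G` of degree
`k + q`.

Proof. As `Proj5.exists_Q`. -/
theorem Proj5.cond_hom (h : Proj5 I e q P L s)
    (hh : ∀ F ∈ I, ∀ k, homogeneousComponent k F ∈ I) {k : ℕ} {H : Poly N}
    (hH : H.IsHomogeneous k) :
    ∃ G : Poly 4, G.IsHomogeneous (k + q) ∧ sub5 L (inc4 s) * H - sub5 L G ∈ I :=
  rel_cond h hh hH

/-- Proof. By `r.rel`, `sub5 L (aeval Q f) = f (Q_0(L), ..., Q_N(L))` is congruent modulo `I` to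
`f (σ X_0, ..., σ X_N) = σ ^ d f`, `σ = sub5 L (inc4 s)`. -/
theorem RelQ.eval {Q : Fin (N + 1) → Poly 4} (r : RelQ I q L s Q) {d : ℕ} {f : Poly N}
    (hf : f.IsHomogeneous d) :
    sub5 L (aeval Q f) - sub5 L (inc4 s) ^ d * f ∈ I := by
  have h1 : sub5 L (aeval Q f) = aeval (fun j => sub5 L (Q j)) f := by
    rw [← comp_aeval]
    rfl
  have h2 : aeval (fun j => sub5 L (inc4 s) * X j) f = sub5 L (inc4 s) ^ d * f := by
    rw [rel_mul_hom hf, aeval_X_left_apply]
  rw [h1, ← h2]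
  refine rel_sub_mem I (fun j => ?_) f
  have h3 := neg_mem (r.rel j)
  rwa [neg_sub] at h3

/-- Proof. `RelQ.eval` and `h.hker`. -/
theorem RelQ.dvd (h : Proj5 I e q P L s) {Q : Fin (N + 1) → Poly 4} (r : RelQ I q L s Q) {d : ℕ}
    {f : Poly N} (hf : f.IsHomogeneous d) (hfI : f ∈ I) : P ∣ aeval Q f := by
  rw [← h.hker]
  have h1 := I.add_mem (r.eval hf) (I.mul_mem_left (sub5 L (inc4 s) ^ d) hfI)
  rwa [sub_add_cancel] at h1

/-- Proof. `RelQ.eval` for `f = L j` gives `sub5 L (aeval Q (L j)) ≡ sub5 L (inc4 s * X j)` modulo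
`I`; use `h.hker`. -/
theorem RelQ.dvd_L (h : Proj5 I e q P L s) {Q : Fin (N + 1) → Poly 4} (r : RelQ I q L s Q)
    (j : Fin 5) : P ∣ aeval Q (L j) - inc4 s * X j := by
  rw [← h.hker]
  have h1 := r.eval (h.hL j)
  have h2 : sub5 L (aeval Q (L j) - inc4 s * X j) =
      sub5 L (aeval Q (L j)) - sub5 L (inc4 s) ^ 1 * L j := by
    rw [map_sub, map_mul, pow_one]
    congr 2
    exact aeval_X L j
  rw [h2]
  exact h1

/-- Proof. `RelQ.eval` for `f = sub5 L (inc4 G1)`, a form of degree `m`, and `h.hker`. -/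
theorem RelQ.dvd_G (h : Proj5 I e q P L s) {Q : Fin (N + 1) → Poly 4} (r : RelQ I q L s Q)
    {m : ℕ} {G1 : Poly 3} (hG1 : G1.IsHomogeneous m) :
    P ∣ aeval Q (sub5 L (inc4 G1)) - inc4 s ^ m * inc4 G1 := by
  rw [← h.hker]
  have h1 := r.eval (rel_hom h hG1)
  rw [map_sub, map_mul, map_pow]
  exact h1

end Pool.Agent.Lib.MP_ed661f_ag.V
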