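import Pool.Agent.Lib.MP_ed661f_ag.V.HilbA
import Pool.Agent.Lib.MP_ed661f_ag.S.SDeg
import Pool.Agent.Lib.MP_ed661f_ag.H.Degrees

/-!
The degree of the threefold is the degree of the form `P`.
-/

set_option autoImplicit false

open MvPolynomial Filter
open scoped ENNReal

namespace Pool.Agent.Lib.MP_ed661f_ag.V

open Pool.Agent.Lib.MP_ed661f_ag.H

/-- dimensions of images under maps with the same kernel -/
private theorem td_map {A B B' : Type} [AddCommGroup A] [AddCommGroup B] [AddCommGroup B']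
    [Module ℂ A] [Module ℂ B] [Module ℂ B'] (W : Submodule ℂ A) [Module.Finite ℂ W]
    (f : A →ₗ[ℂ] B) (g : A →ₗ[ℂ] B') (h : ∀ x ∈ W, f x = 0 ↔ g x = 0) :
    Module.finrank ℂ (W.map f) = Module.finrank ℂ (W.map g) := by
  have h1 := (f.domRestrict W).finrank_range_add_finrank_ker
  have h2 := (g.domRestrict W).finrank_range_add_finrank_ker
  have h3 : LinearMap.ker (f.domRestrict W) = LinearMap.ker (g.domRestrict W) := by
    ext x
    rw [LinearMap.mem_ker, LinearMap.mem_ker]
    exact h x.1 x.2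
  rw [LinearMap.range_domRestrict] at h1 h2
  rw [h3] at h1
  omega

/-- `24` times the binomial coefficient -/
private theorem td_forms (k : ℕ) :
    24 * (Module.finrank ℂ (homogeneousSubmodule (Fin 5) ℂ k) : ℝ) =
      ((k : ℝ) + 1) * (k + 2) * (k + 3) * (k + 4) := by
  rw [finrank_forms]
  have h1 : 5 + k - 1 = k + 4 := by omega
  have h2 := Nat.add_choose_mul_factorial_mul_factorial k 4
  rw [h1, Nat.choose_symm_add]
  have h3 : (k + 4).factorial = k.factorial * ((k + 1) * (k + 2) * (k + 3) * (k + 4)) := by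
    rw [Nat.factorial_succ, Nat.factorial_succ, Nat.factorial_succ, Nat.factorial_succ]
    ring
  have h4 : k.factorial * (24 * (k + 4).choose 4) =
      k.factorial * ((k + 1) * (k + 2) * (k + 3) * (k + 4)) := by
    rw [← h3, ← h2]
    have : (4 : ℕ).factorial = 24 := rfl
    rw [this]
    ring
  have h5 := Nat.eq_of_mul_eq_mul_left k.factorial_pos h4
  exact_mod_cast h5

/-- a cubic polynomial divided by the cube of the variable -/
private theorem td_lim (a b c d : ℝ) : Tendsto
    (fun k : ℕ => (a * (k : ℝ) ^ 3 + b * (k : ℝ) ^ 2 + c * k + d) / (k : ℝ) ^ 3)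
    atTop (nhds a) := by
  have h0 : Tendsto (fun k : ℕ => a + b / (k : ℝ) + c / (k : ℝ) ^ 2 + d / (k : ℝ) ^ 3) atTop
      (nhds (a + 0 + 0 + 0)) := by
    have hp : ∀ n : ℕ, n ≠ 0 → Tendsto (fun k : ℕ => (k : ℝ) ^ n) atTop atTop := fun n hn =>
      (tendsto_pow_atTop hn).comp tendsto_natCast_atTop_atTop
    exact ((tendsto_const_nhds.add (tendsto_const_div_atTop_nhds_zero_nat _)).add
      (tendsto_const_nhds.div_atTop (hp 2 (by norm_num)))).add
        (tendsto_const_nhds.div_atTop (hp 3 (by norm_num)))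
  rw [add_zero, add_zero, add_zero] at h0
  refine h0.congr' ?_
  filter_upwards [eventually_ge_atTop 1] with k hk
  have hk' : (k : ℝ) ≠ 0 := by positivity
  field_simp

/-- the Hilbert function of the hypersurface, shifted by `q` -/
private theorem td_hilb {e : ℕ} {P : Poly 4} (hP : P.IsHomogeneous e) (hP0 : P ≠ 0) (q : ℕ) :
    ∃ b c d : ℝ, ∀ k : ℕ, e ≤ k → 6 * (hilb (Ideal.span {P}) (k + q) : ℝ) =
      (e : ℝ) * (k : ℝ) ^ 3 + b * (k : ℝ) ^ 2 + c * k + d := by
  let α : ℝ := q
  let β : ℝ := (q : ℝ) - e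
  refine ⟨(30 * (α - β) + 6 * (α ^ 2 - β ^ 2)) / 4,
    (70 * (α - β) + 30 * (α ^ 2 - β ^ 2) + 4 * (α ^ 3 - β ^ 3)) / 4,
    ((α + 1) * (α + 2) * (α + 3) * (α + 4) - (β + 1) * (β + 2) * (β + 3) * (β + 4)) / 4,
    fun k hk => ?_⟩
  have h1 := hilb_span4 hP hP0 (k := k + q) (by omega)
  have h2 : (hilb (Ideal.span {P}) (k + q) : ℝ) +
      (Module.finrank ℂ (homogeneousSubmodule (Fin 5) ℂ (k + q - e)) : ℝ) =
      (Module.finrank ℂ (homogeneousSubmodule (Fin 5) ℂ (k + q)) : ℝ) := by exact_mod_cast h1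
  have h3 := td_forms (k + q - e)
  have h4 := td_forms (k + q)
  have h5 : ((k + q - e : ℕ) : ℝ) = (k : ℝ) + β := by
    rw [Nat.cast_sub (by omega)]
    push_cast
    ring
  have h6 : ((k + q : ℕ) : ℝ) = (k : ℝ) + α := by
    push_cast
    ring
  have h7 : (e : ℝ) = α - β := by ring
  rw [h5] at h3
  rw [h6] at h4
  rw [h7]
  linear_combination 6 * h2 - h3 / 4 + h4 / 4

/-- the conductor is not in the ideal -/
private theorem td_ndvd {e : ℕ} {P : Poly 4} {s : Poly 3} (he : 1 ≤ e)
    (hc : coeff (Finsupp.single 4 e) P = 1) (hs0 : s ≠ 0) : ¬P ∣ inc4 s := by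
  rintro ⟨Q, hQ⟩
  have hi : inc4 s ≠ 0 := by
    intro h0
    refine hs0 (rename_injective _ (Fin.castSucc_injective 4) ?_)
    rw [map_zero]
    exact h0
  have hP0 : P ≠ 0 := by
    rintro rfl
    rw [zero_mul] at hQ
    exact hi hQ
  have hQ0 : Q ≠ 0 := by
    rintro rfl
    rw [mul_zero] at hQ
    exact hi hQ
  have h1 := degreeOf_mul_eq (n := (4 : Fin 5)) hP0 hQ0
  rw [← hQ] at h1
  have h2 : degreeOf 4 (inc4 s) = 0 := by
    refine Nat.le_zero.1 (degreeOf_le_iff.2 fun m hm => Nat.le_zero.2 ?_)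
    by_contra h0
    have h3 : (4 : Fin 5) ∈ (inc4 s).vars := by
      rw [mem_vars_iff_mem_support]
      exact ⟨m, hm, by rw [Finsupp.mem_support_iff]; exact h0⟩
    obtain ⟨i, -, hi⟩ := mem_vars_rename _ _ h3
    exact (Fin.castSucc_lt_last i).ne hi
  have h3 : e ≤ degreeOf 4 P := by
    have h4 : Finsupp.single 4 e ∈ P.support := by
      rw [mem_support_iff, hc]
      exact one_ne_zero
    have h5 := monomial_le_degreeOf 4 h4
    rwa [Finsupp.single_eq_same] at h5
  omega

/-- **the degree of the threefold**.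

Proof. The map `G ↦ sub5 L G` is injective from the forms of degree `k` modulo `P` to the forms of
degree `k` modulo `I` (`hker`), so `hilb (span {P}) k ≤ hilb I k`. Conversely let
`σ = sub5 L (inc4 s)`, a form of degree `q`, not in `I` (`hker`: `P` does not divide `inc4 s`).
Multiplication by `σ` is injective modulo `I`, and for a form `H` of degree `k`, `σ H` is congruent
to `sub5 L G` with a form `G` of degree `k + q` (`h.cond`, homogeneous component, `I` homogeneous),
so `hilb I k ≤ hilb (span {P}) (k + q)`. By `hilb_span4` and `H.finrank_forms`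
(`Module.finrank ℂ (homogeneousSubmodule (Fin r) ℂ k) = (r + k - 1).choose k`),
`6 hilb (span {P}) k / k ^ 3 → e`, and the same for `hilb (span {P}) (k + q)`. See
`S.surfDeg_span`, `H/Degrees.lean` for the limits. -/
theorem Proj5.threeDeg_eq {N : ℕ} {I : Ideal (Poly N)} {e q : ℕ} {P : Poly 4}
    {L : Fin 5 → Poly N} {s : Poly 3} (h : Proj5 I e q P L s) (hI : IsThreefold I) :
    threeDeg I = e := by
  have hP0 : P ≠ 0 := by
    intro h0
    have h1 := h.hcoeff
    rw [h0, coeff_zero] at h1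
    exact zero_ne_one h1
  set π := (Ideal.Quotient.mkₐ ℂ I).toLinearMap with hπ
  set ϖ := (Ideal.Quotient.mkₐ ℂ (Ideal.span {P})).toLinearMap with hϖ
  set φ := (sub5 L).toLinearMap with hφ
  have hπ0 : ∀ F : Poly N, π F = 0 ↔ F ∈ I := fun F => Ideal.Quotient.eq_zero_iff_mem
  have hϖ0 : ∀ F : Poly 4, ϖ F = 0 ↔ P ∣ F := fun F =>
    Ideal.Quotient.eq_zero_iff_mem.trans Ideal.mem_span_singleton
  have hsub : ∀ (k : ℕ) (G : Poly 4), G.IsHomogeneous k → (sub5 L G).IsHomogeneous k :=
    fun k G hG => by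
      have h1 := hG.aeval L h.hL
      rwa [one_mul] at h1
  -- the first inequality
  have key : ∀ k, hilb (Ideal.span {P}) k =
      Module.finrank ℂ ((homogeneousSubmodule (Fin 5) ℂ k).map (π ∘ₗ φ)) := by
    intro k
    have := finite_formsN (N := 4) k
    refine td_map (homogeneousSubmodule (Fin 5) ℂ k) ϖ (π ∘ₗ φ) fun G _ => ?_
    rw [hϖ0, LinearMap.comp_apply, hπ0]
    exact (h.hker G).symm
  have hfin : ∀ k, Module.Finite ℂ ((homogeneousSubmodule (Fin (N + 1)) ℂ k).map π) := by
    intro k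
    have := finite_formsN (N := N) k
    infer_instance
  have le1 : ∀ k, hilb (Ideal.span {P}) k ≤ hilb I k := by
    intro k
    rw [key]
    have := hfin k
    refine Submodule.finrank_mono ?_
    rw [Submodule.map_comp]
    refine Submodule.map_mono ?_
    rintro _ ⟨G, hG, rfl⟩
    exact hsub k G hG
  -- the second inequality
  have hσ : sub5 L (inc4 s) ∉ I := by
    rw [h.hker]
    exact td_ndvd h.he h.hcoeff h.hs0
  have hσh : (sub5 L (inc4 s)).IsHomogeneous q := hsub q _ h.hs.rename_isHomogeneous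
  have le2 : ∀ k, hilb I k ≤ hilb (Ideal.span {P}) (k + q) := by
    intro k
    have f1 := finite_formsN (N := N) k
    have f2 := finite_formsN (N := 4) (k + q)
    have h1 : hilb I k = Module.finrank ℂ ((homogeneousSubmodule (Fin (N + 1)) ℂ k).map
        (π ∘ₗ LinearMap.mulLeft ℂ (sub5 L (inc4 s)))) := by
      refine td_map (homogeneousSubmodule (Fin (N + 1)) ℂ k) π _ fun F _ => ?_
      rw [LinearMap.comp_apply, hπ0, hπ0, LinearMap.mulLeft_apply]
      constructor
      · exact fun hF => Ideal.mul_mem_left _ _ hF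
      · exact fun hF => (hI.prime.mem_or_mem hF).resolve_left hσ
    rw [h1, key]
    refine Submodule.finrank_mono ?_
    rintro _ ⟨F, hF, rfl⟩
    obtain ⟨G, hG⟩ := h.cond F
    refine ⟨homogeneousComponent (k + q) G, homogeneousComponent_isHomogeneous _ _, ?_⟩
    have h2 := hI.homogeneous _ hG (k + q)
    have h3 : homogeneousComponent (k + q) (sub5 L G) =
        sub5 L (homogeneousComponent (k + q) G) := hc_aeval h.hL G (k + q)
    have h4 : homogeneousComponent (k + q) (sub5 L (inc4 s) * F) = sub5 L (inc4 s) * F := by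
      have h5 : (sub5 L (inc4 s) * F).IsHomogeneous (k + q) := by
        rw [add_comm k q]
        exact hσh.mul hF
      rw [homogeneousComponent_of_mem h5, if_pos rfl]
    rw [map_sub, h3, h4] at h2
    have h6 := (hπ0 _).2 h2
    rw [map_sub, sub_eq_zero] at h6
    exact h6.symm
  -- the limits
  obtain ⟨b, c, d, h1⟩ := td_hilb h.hP hP0 0
  obtain ⟨b', c', d', h2⟩ := td_hilb h.hP hP0 q
  have hcast : ∀ k : ℕ, 1 ≤ k → 6 * (hilb I k : ℝ≥0∞) / (k : ℝ≥0∞) ^ 3 =
      ENNReal.ofReal ((6 * hilb I k : ℝ) / (k : ℝ) ^ 3) := by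
    intro k hk
    have e1 : 6 * (hilb I k : ℝ≥0∞) / (k : ℝ≥0∞) ^ 3 =
        ((6 * hilb I k : ℕ) : ℝ≥0∞) / ((k ^ 3 : ℕ) : ℝ≥0∞) := by push_cast; rfl
    rw [e1, cast_div_eq (Nat.one_le_pow _ _ hk)]
    push_cast
    rfl
  refine le_antisymm ?_ ?_
  · have h3 := liminf_le_ofReal (u := fun k : ℕ => 6 * (hilb I k : ℝ≥0∞) / (k : ℝ≥0∞) ^ 3) ?_
      (td_lim e b' c' d')
    · rw [ENNReal.ofReal_natCast] at h3
      exact h3
    · filter_upwards [eventually_ge_atTop (e + 1)] with k hk
      rw [hcast k (by omega), ← h2 k (by omega)]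
      have hk' : (0 : ℝ) < k := by
        have : 0 < k := by omega
        exact_mod_cast this
      have h4 : (hilb I k : ℝ) ≤ (hilb (Ideal.span {P}) (k + q) : ℝ) := by
        exact_mod_cast le2 k
      gcongr
  · have h3 := ofReal_le_liminf (u := fun k : ℕ => 6 * (hilb I k : ℝ≥0∞) / (k : ℝ≥0∞) ^ 3) ?_
      (td_lim e b c d)
    · rw [ENNReal.ofReal_natCast] at h3
      exact h3
    · filter_upwards [eventually_ge_atTop (e + 1)] with k hk
      rw [hcast k (by omega), ← h1 k (by omega)]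
      have hk' : (0 : ℝ) < k := by
        have : 0 < k := by omega
        exact_mod_cast this
      have h4 : (hilb (Ideal.span {P}) (k + 0) : ℝ) ≤ (hilb I k : ℝ) := by
        exact_mod_cast le1 k
      gcongr

end Pool.Agent.Lib.MP_ed661f_ag.V
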