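import Pool.Agent.Lib.MP_ed661f_ag.V.Defs
import Pool.Agent.Lib.MP_ed661f_ag.H.Basis

/-!
The four linear forms of a projection have no common zero.
-/

set_option autoImplicit false

open MvPolynomial

namespace Pool.Agent.Lib.MP_ed661f_ag.V

open Pool.Agent.Lib.MP_ed661f_ag.H

variable {N : ℕ} {I : Ideal (Poly N)} {e q : ℕ} {P : Poly 4} {L : Fin 5 → Poly N} {s : Poly 3}

private theorem torsA_term {L : Fin 5 → Poly N} {𝔭 : Ideal (Poly N)} {α : Fin 5 →₀ ℕ}
    {j : Fin 5} (hj : α j ≠ 0) (hL : L j ∈ 𝔭) (c : ℂ) :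
    algebraMap ℂ (Poly N) c * ∏ i, L i ^ α i ∈ 𝔭 := by
  refine Ideal.mul_mem_left _ _ ?_
  rw [← Finset.mul_prod_erase _ _ (Finset.mem_univ j)]
  refine Ideal.mul_mem_right _ _ ?_
  exact Ideal.pow_mem_of_mem _ hL _ (Nat.pos_of_ne_zero hj)

private theorem torsA_mem_of_hom {L : Fin 5 → Poly N} {𝔭 : Ideal (Poly N)} (hL : ∀ j, L j ∈ 𝔭)
    {G : Poly 4} {n : ℕ} (hG : G.IsHomogeneous n) (hn : 1 ≤ n) : sub5 L G ∈ 𝔭 := by
  unfold sub5
  rw [aeval_def, eval₂_eq']
  refine Ideal.sum_mem _ fun α hα => ?_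
  have h1 : α.degree = n := by
    rw [Finsupp.degree_eq_weight_one]
    exact hG (mem_support_iff.1 hα)
  have h2 : ∃ j, α j ≠ 0 := by
    by_contra hcon
    push Not at hcon
    have h3 : α = 0 := Finsupp.ext hcon
    rw [h3, map_zero] at h1
    omega
  obtain ⟨j, hj⟩ := h2
  exact torsA_term hj (hL j) _

private theorem torsA_last {L : Fin 5 → Poly N} {𝔭 : Ideal (Poly N)}
    (hL : ∀ j : Fin 4, L j.castSucc ∈ 𝔭) {P : Poly 4} (hP : P.IsHomogeneous e)
    (hc : coeff (Finsupp.single 4 e) P = 1) : sub5 L P - L 4 ^ e ∈ 𝔭 := by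
  unfold sub5
  rw [aeval_def, eval₂_eq']
  have h0 : Finsupp.single 4 e ∈ P.support := by
    rw [mem_support_iff, hc]
    exact one_ne_zero
  rw [← Finset.add_sum_erase _ _ h0]
  have h1 : algebraMap ℂ (Poly N) (coeff (Finsupp.single 4 e) P) *
      ∏ i, L i ^ (Finsupp.single (4 : Fin 5) e) i = L 4 ^ e := by
    rw [hc, map_one, one_mul, Finset.prod_eq_single (4 : Fin 5)]
    · rw [Finsupp.single_eq_same]
    · intro b _ hb
      rw [Finsupp.single_eq_of_ne hb, pow_zero]
    · intro h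
      exact absurd (Finset.mem_univ _) h
  rw [h1, add_sub_cancel_left]
  refine Ideal.sum_mem _ fun α hα => ?_
  obtain ⟨hne, hα⟩ := Finset.mem_erase.1 hα
  have h2 : α.degree = e := by
    rw [Finsupp.degree_eq_weight_one]
    exact hP (mem_support_iff.1 hα)
  have h3 : ∃ j : Fin 4, α j.castSucc ≠ 0 := by
    by_contra hcon
    push Not at hcon
    apply hne
    have h4 : α.degree = α 4 := by
      rw [Finsupp.degree_eq_sum, Fin.sum_univ_castSucc, Finset.sum_eq_zero fun j _ => hcon j,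
        zero_add]
      rfl
    ext i
    refine Fin.lastCases ?_ (fun j => ?_) i
    · have h5 : (Fin.last 4 : Fin 5) = 4 := rfl
      rw [h5, Finsupp.single_eq_same, ← h2, h4]
    · rw [hcon j, Finsupp.single_eq_of_ne]
      intro h6
      have := congrArg Fin.val h6
      simp at this
      omega
  obtain ⟨j, hj⟩ := h3
  exact torsA_term hj (hL j) _

/-- a prime ideal which contains `I` and the linear forms `L 0, ..., L 3` contains all variables.

Proof. `P` is homogeneous of degree `e ≥ 1` with coefficient `1` at `X 4 ^ e`, all its other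
monomials contain one of `X 0, ..., X 3`. As `sub5 L P ∈ I` (`hker`), `(L 4) ^ e ∈ 𝔭`, so
`L 4 ∈ 𝔭`. By `h.fin` the class of `X i` is integral over the polynomials in the `L j`:
`X i ^ M + ∑_(t < M) (sub5 L c_t) X i ^ t ∈ I`, `M ≥ 1` or `M = 0` (then `1 ∈ I`). By `hh` the
homogeneous component of degree `M` of this is in `I`; it is
`X i ^ M + ∑_(t < M) sub5 L (homogeneousComponent (M - t) c_t) X i ^ t` (`H.hc_aeval`, `H.hc_mul`),
and the forms of degree `M - t ≥ 1` in the `L j` are in `𝔭`; so `X i ^ M ∈ 𝔭`. -/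
theorem Proj5.X_mem (h : Proj5 I e q P L s) (hh : ∀ F ∈ I, ∀ k, homogeneousComponent k F ∈ I)
    {𝔭 : Ideal (Poly N)} (hp : 𝔭.IsPrime) (hIp : I ≤ 𝔭) (hL : ∀ j : Fin 4, L j.castSucc ∈ 𝔭)
    (i : Fin (N + 1)) : X i ∈ 𝔭 := by
  have hL4 : L 4 ∈ 𝔭 := by
    have h1 := torsA_last hL h.hP h.hcoeff
    have h2 : sub5 L P ∈ 𝔭 := hIp ((h.hker P).2 dvd_rfl)
    have h3 : L 4 ^ e ∈ 𝔭 := by
      have := 𝔭.sub_mem h2 h1
      rwa [sub_sub_cancel] at this
    exact hp.mem_of_pow_mem _ h3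
  have hLall : ∀ j, L j ∈ 𝔭 := fun j => Fin.lastCases hL4 hL j
  have hint := (RingHom.Finite.to_isIntegral h.fin) (Ideal.Quotient.mk I (X i))
  obtain ⟨p, hp1, hp2⟩ := hint
  set M := p.natDegree with hM
  have h1 : (∑ t ∈ Finset.range (M + 1), sub5 L (p.coeff t) * X i ^ t) ∈ I := by
    rw [← Ideal.Quotient.eq_zero_iff_mem, map_sum]
    rw [Polynomial.eval₂_eq_sum_range] at hp2
    rw [← hp2]
    refine Finset.sum_congr rfl fun t _ => ?_
    rw [map_mul, map_pow]
    rfl
  have h2 := hh _ h1 M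
  have h3 : homogeneousComponent M (∑ t ∈ Finset.range (M + 1), sub5 L (p.coeff t) * X i ^ t) =
      (∑ t ∈ Finset.range M, sub5 L (homogeneousComponent (M - t) (p.coeff t)) * X i ^ t) +
        X i ^ M := by
    rw [map_sum, Finset.sum_range_succ]
    congr 1
    · refine Finset.sum_congr rfl fun t ht => ?_
      rw [Finset.mem_range] at ht
      rw [hc_mul _ _ (isHomogeneous_X_pow i t) M, if_pos ht.le]
      congr 1
      exact hc_aeval h.hL _ _
    · have h4 : p.coeff M = 1 := hp1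
      rw [h4, map_one, one_mul, homogeneousComponent_of_mem (isHomogeneous_X_pow i M), if_pos rfl]
  rw [h3] at h2
  have h4 : (∑ t ∈ Finset.range M, sub5 L (homogeneousComponent (M - t) (p.coeff t)) *
      X i ^ t) ∈ 𝔭 := by
    refine Ideal.sum_mem _ fun t ht => Ideal.mul_mem_right _ _ ?_
    rw [Finset.mem_range] at ht
    exact torsA_mem_of_hom hLall (homogeneousComponent_isHomogeneous _ _) (by omega)
  have h5 : X i ^ M ∈ 𝔭 := by
    have := 𝔭.sub_mem (hIp h2) h4
    rwa [add_sub_cancel_left] at this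
  exact hp.mem_of_pow_mem _ h5

end Pool.Agent.Lib.MP_ed661f_ag.V
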