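import Pool.Agent.Lib.MP_ed661f_ag.V.LinK
import Pool.Agent.Lib.MP_ed661f_ag.V.TorsA

/-!
The conductor is not a zero divisor modulo a general form, in large degrees.
-/

set_option autoImplicit false

open MvPolynomial

namespace Pool.Agent.Lib.MP_ed661f_ag.V

open Pool.Agent.Lib.MP_ed661f_ag.H

variable {N : ℕ} {I : Ideal (Poly N)} {e q : ℕ} {P : Poly 4} {L : Fin 5 → Poly N} {s : Poly 3}

private theorem tors_finite (m : ℕ) : Finite {α : Fin (3 + 1) →₀ ℕ // α.degree = m} := by
  classical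
  have h : {α : Fin (3 + 1) →₀ ℕ | α.degree = m} ⊆
      ↑(Finset.univ.finsuppAntidiag m : Finset (Fin (3 + 1) →₀ ℕ)) := by
    intro α hα
    rw [Finset.mem_coe, Finset.mem_finsuppAntidiag]
    refine ⟨?_, Finset.subset_univ _⟩
    rw [← (hα : α.degree = m), Finsupp.degree_eq_sum]
  exact (Set.Finite.subset (Finset.finite_toSet _) h).to_subtype

/-- a form of degree `k` is in the `k`-th power of an ideal which contains the variables -/
private theorem tors_form {J : Ideal (Poly N)} (hX : ∀ i, (X i : Poly N) ∈ J) {k : ℕ}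
    {F : Poly N} (hF : F.IsHomogeneous k) : F ∈ J ^ k := by
  classical
  rw [F.as_sum]
  refine Ideal.sum_mem _ fun α hα => ?_
  have hdeg : α.degree = k := by
    by_contra hne
    exact (mem_support_iff.1 hα) (hF.coeff_eq_zero hne)
  rw [monomial_eq]
  refine Ideal.mul_mem_left _ _ ?_
  rw [Finsupp.prod_fintype _ _ fun i => pow_zero _]
  have h1 : ∏ i, (X i : Poly N) ^ α i ∈ ∏ i, J ^ α i :=
    Ideal.prod_mem_prod fun i _ => Ideal.pow_mem_pow (hX i) (α i)
  rw [Finset.prod_pow_eq_pow_sum, ← Finsupp.degree_eq_sum, hdeg] at h1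
  exact h1

/-- a form as a combination of monomials -/
private theorem tors_sum {m : ℕ} {G1 : Poly 3} (hG : G1.IsHomogeneous m)
    [Fintype {α : Fin (3 + 1) →₀ ℕ // α.degree = m}] :
    G1 = ∑ α : {α : Fin (3 + 1) →₀ ℕ // α.degree = m}, C (coeff α.1 G1) * monomial α.1 1 := by
  classical
  ext β
  rw [coeff_sum]
  simp only [C_mul_monomial, mul_one, coeff_monomial]
  by_cases hβ : β.degree = m
  · rw [Finset.sum_eq_single ⟨β, hβ⟩]
    · rw [if_pos rfl]
    · intro α _ hα
      rw [if_neg]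
      intro h
      exact hα (Subtype.ext h)
    · intro h
      exact absurd (Finset.mem_univ _) h
  · rw [hG.coeff_eq_zero hβ]
    symm
    refine Finset.sum_eq_zero fun α _ => ?_
    rw [if_neg]
    intro h
    exact hβ (by rw [← h]; exact α.2)

private theorem tors_mono (L : Fin 5 → Poly N) (α : Fin (3 + 1) →₀ ℕ) :
    sub5 L (inc4 (monomial α 1)) = ∏ j : Fin (3 + 1), L (Fin.castSucc j) ^ α j := by
  unfold sub5 inc4
  rw [aeval_rename, aeval_monomial, map_one, one_mul, Finsupp.prod_fintype _ _ fun i => pow_zero _]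
  rfl

/-- the polynomials with coefficients in `K` -/
private def torsRing (N : ℕ) (K : Subfield ℂ) : Subring (Poly N) where
  carrier := {F | ∀ β, coeff β F ∈ K}
  mul_mem' := by
    classical
    intro F G hF hG β
    rw [coeff_mul]
    exact sum_mem fun x _ => mul_mem (hF _) (hG _)
  one_mem' := by
    classical
    intro β
    rw [coeff_one]
    split_ifs
    · exact one_mem K
    · exact zero_mem K
  add_mem' := by
    intro F G hF hG β
    rw [coeff_add]
    exact add_mem (hF _) (hG _)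
  zero_mem' := by
    intro β
    rw [coeff_zero]
    exact zero_mem K
  neg_mem' := by
    intro F hF β
    rw [coeff_neg]
    exact neg_mem (hF _)

/-- the coefficients of products of linear forms over `K` -/
private theorem tors_coeff {K : Subfield ℂ} {L : Fin 5 → Poly N} (hKL : ∀ j α, coeff α (L j) ∈ K)
    (α : Fin (3 + 1) →₀ ℕ) (β : Fin (N + 1) →₀ ℕ) :
    coeff β (sub5 L (inc4 (monomial α 1))) ∈ K := by
  rw [tors_mono]
  have hL : ∀ j, L j ∈ torsRing N K := fun j => hKL j
  have h : ∏ j : Fin (3 + 1), L (Fin.castSucc j) ^ α j ∈ torsRing N K :=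
    Subring.prod_mem _ fun j _ => Subring.pow_mem _ (hL _) _
  exact h β

/-- the conductor is not in the ideal -/
private theorem tors_not_mem (h : Proj5 I e q P L s) : sub5 L (inc4 s) ∉ I := by
  intro hmem
  obtain ⟨Q, hQ⟩ := (h.hker _).1 hmem
  have hinj : Function.Injective (inc4 : Poly 3 → Poly 4) :=
    rename_injective _ (Fin.castSucc_injective 4)
  have hs0 : inc4 s ≠ 0 := by
    intro h0
    exact h.hs0 (hinj (by rw [h0, map_zero]))
  have hP0 : P ≠ 0 := by
    rintro rfl
    rw [zero_mul] at hQ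
    exact hs0 hQ
  have hQ0 : Q ≠ 0 := by
    rintro rfl
    rw [mul_zero] at hQ
    exact hs0 hQ
  have h1 : degreeOf (4 : Fin 5) (inc4 s) = 0 := by
    refine Nat.le_zero.1 (degreeOf_le_iff.2 fun β hβ => Nat.le_zero.2 ?_)
    obtain ⟨u, hu, -⟩ := coeff_rename_ne_zero _ _ _ (mem_support_iff.1 hβ)
    rw [← hu]
    refine Finsupp.mapDomain_of_notMem_range _ _ ?_
    rintro ⟨j, hj⟩
    exact (Fin.castSucc_lt_last j).ne hj
  have h2 : e ≤ degreeOf (4 : Fin 5) P := by
    have h3 : Finsupp.single (4 : Fin 5) e ∈ P.support := by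
      rw [mem_support_iff, h.hcoeff]
      exact one_ne_zero
    have h4 := monomial_le_degreeOf (4 : Fin 5) h3
    rwa [Finsupp.single_eq_same] at h4
  have h3 : degreeOf (4 : Fin 5) (P * Q) = degreeOf 4 P + degreeOf 4 Q := degreeOf_mul_eq hP0 hQ0
  rw [← hQ, h1] at h3
  have := h.he
  omega

/-- **no torsion in large degrees**.

Proof. Let `σ = sub5 L (inc4 s)`, `𝔟 = I ⊔ Ideal.span {σ}`, `𝔟 = 𝔮_1 ⊓ ... ⊓ 𝔮_r` a primary
decomposition (Mathlib, `Poly N` is noetherian) and `𝔭_i = 𝔮_i.radical`, a prime ideal which contains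
`I`. Let `S` be the countable set given by `exists_definedOver` for the `𝔭_i`, together with the
coefficients of the `L j`. Let `S ⊆ K`, `G1` very general over `K` of degree `m`, and
`G = sub5 L (inc4 G1) = ∑_α u_α L^α`, `|α| = m`. If `G ∈ 𝔭_i`, then by `linK` all `L^α`, `|α| = m`,
are in `𝔭_i` (the `u_α` are algebraically independent over `K`, so linearly independent), so
`L 0, ..., L 3 ∈ 𝔭_i` (if `m = 0`: `1 ∈ 𝔭_i`, a contradiction), and by `Proj5.X_mem` all variables
are in `𝔭_i`; hence all forms of degree `≥ k_i` are in `𝔮_i` (`𝔮_i` contains a power of its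
radical). Consequently: if `A` is a form of degree `j ≥ k' := max k_i` and `G A ∈ 𝔟`, then `A ∈ 𝔟`
(for each `i`: either `G ∉ 𝔭_i`, then `A ∈ 𝔮_i`; or `A ∈ 𝔮_i` by degree).

Let now `T` be a form of degree `k ≥ k' + m`, `σ T ∈ I ⊔ Ideal.span {G}`. Then `σ T - G A ∈ I` for
some `A`, and we may take `A` homogeneous of degree `q + k - m` (homogeneous components). So
`G A ∈ 𝔟`, `A ∈ 𝔟`, `A - σ A' ∈ I`, hence `σ (T - G A') ∈ I`. As `I` is prime and `σ ∉ I` (`hker`:
`P` does not divide `inc4 s ≠ 0`, because of the coefficient at `X 4 ^ e`, `e ≥ 1`),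
`T - G A' ∈ I`. -/
theorem Proj5.tors (h : Proj5 I e q P L s) (hI : IsThreefold I) :
    ∃ S : Set ℂ, S.Countable ∧ ∀ K : Subfield ℂ, S ⊆ K → ∀ (m : ℕ) (G1 : Poly 3),
      VeryGeneralOver K m G1 → ∃ k0 : ℕ, ∀ k, k0 ≤ k → ∀ T : Poly N, T.IsHomogeneous k →
        sub5 L (inc4 s) * T ∈ I ⊔ Ideal.span {sub5 L (inc4 G1)} →
        T ∈ I ⊔ Ideal.span {sub5 L (inc4 G1)} := by
  classical
  obtain ⟨σ, hσ⟩ : ∃ σ, σ = sub5 L (inc4 s) := ⟨_, rfl⟩
  have hσI : σ ∉ I := by
    rw [hσ]
    exact tors_not_mem h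
  have hσhom : σ.IsHomogeneous q := by
    have h1 := (h.hs.rename_isHomogeneous (f := Fin.castSucc)).aeval L h.hL
    rw [one_mul] at h1
    rw [hσ]
    exact h1
  rw [← hσ]
  obtain ⟨Q, hQinf, hQprim⟩ : ∃ Q : Finset (Ideal (Poly N)),
      Q.inf id = I ⊔ Ideal.span {σ} ∧ ∀ ⦃J⦄, J ∈ Q → J.IsPrimary :=
    Submodule.isLasker (Poly N) (Poly N) (I ⊔ Ideal.span {σ})
  have hIQ : ∀ J ∈ Q, I ⊔ Ideal.span {σ} ≤ J := by
    intro J hJ
    rw [← hQinf]
    exact Finset.inf_le (f := id) hJ
  choose SS hSS using fun J : Ideal (Poly N) => exists_definedOver J.radical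
  refine ⟨(⋃ J ∈ (Q : Set (Ideal (Poly N))), SS J) ∪ (⋃ j, Set.range fun α => coeff α (L j)),
    ?_, ?_⟩
  · refine Set.Countable.union ?_ ?_
    · exact Q.countable_toSet.biUnion fun J _ => (hSS J).1
    · exact Set.countable_iUnion fun j => Set.countable_range _
  intro K hK m G1 hG1
  have hKL : ∀ j α, coeff α (L j) ∈ K := fun j α =>
    hK (Or.inr (Set.mem_iUnion.2 ⟨j, ⟨α, rfl⟩⟩))
  have hKJ : ∀ J ∈ Q, DefinedOver K J.radical := fun J hJ =>
    (hSS J).2 K fun x hx => hK (Or.inl (Set.mem_biUnion (Finset.mem_coe.2 hJ) hx))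
  obtain ⟨G, hG⟩ : ∃ G, G = sub5 L (inc4 G1) := ⟨_, rfl⟩
  have hGhom : G.IsHomogeneous m := by
    have h1 := (hG1.1.rename_isHomogeneous (f := Fin.castSucc)).aeval L h.hL
    rw [one_mul] at h1
    rw [hG]
    exact h1
  rw [← hG]
  have hQ : ∀ J ∈ Q, ∃ k' : ℕ, ∀ j, k' ≤ j → ∀ A : Poly N, A.IsHomogeneous j →
      A * G ∈ J → A ∈ J := by
    intro J hJ
    obtain ⟨-, hprim⟩ := Ideal.isPrimary_iff.1 (hQprim hJ)
    by_cases hGJ : G ∈ J.radical
    · have hprime : J.radical.IsPrime := Ideal.isPrime_radical (hQprim hJ)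
      have := tors_finite m
      let _ := Fintype.ofFinite {α : Fin (3 + 1) →₀ ℕ // α.degree = m}
      have h1 : ∀ α : {α : Fin (3 + 1) →₀ ℕ // α.degree = m},
          sub5 L (inc4 (monomial α.1 1)) ∈ J.radical := by
        refine linK (hKJ J hJ) hG1.2.linearIndependent (fun α β => tors_coeff hKL α.1 β) ?_
        have h2 : G = ∑ α : {α : Fin (3 + 1) →₀ ℕ // α.degree = m},
            C (coeff α.1 G1) * sub5 L (inc4 (monomial α.1 1)) := by
          rw [hG]
          conv_lhs => rw [tors_sum hG1.1]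
          rw [map_sum, map_sum]
          refine Finset.sum_congr rfl fun α _ => ?_
          rw [map_mul, map_mul]
          congr 1
          unfold sub5 inc4
          rw [rename_C, aeval_C]
          rfl
        rw [← h2]
        exact hGJ
      have h2 : ∀ j : Fin 4, L j.castSucc ∈ J.radical := by
        intro j
        have h3 := h1 ⟨Finsupp.single j m, by rw [Finsupp.degree_single]⟩
        rw [tors_mono, Finset.prod_eq_single j] at h3
        · rw [Finsupp.single_eq_same] at h3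
          exact hprime.mem_of_pow_mem _ h3
        · intro i _ hi
          rw [Finsupp.single_eq_of_ne hi, pow_zero]
        · intro h4
          exact absurd (Finset.mem_univ _) h4
      have h3 : I ≤ J.radical := le_sup_left.trans ((hIQ J hJ).trans Ideal.le_radical)
      have h4 := h.X_mem hI.homogeneous hprime h3 h2
      obtain ⟨c, hc⟩ := Ideal.exists_radical_pow_le_of_fg J (IsNoetherian.noetherian _)
      exact ⟨c, fun j hj A hA _ => hc (Ideal.pow_le_pow_right hj (tors_form h4 hA))⟩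
    · exact ⟨0, fun j _ A _ h5 => (hprim h5).resolve_right hGJ⟩
  choose! k' hk' using hQ
  refine ⟨Q.sup k' + m, fun k hk T hT hσT => ?_⟩
  obtain ⟨a, ha, b, hb, hab⟩ := Submodule.mem_sup.1 hσT
  obtain ⟨A0, hA0⟩ := Ideal.mem_span_singleton'.1 hb
  rw [← hA0] at hab
  obtain ⟨A, hA⟩ : ∃ A, A = homogeneousComponent (q + k - m) A0 := ⟨_, rfl⟩
  have hAhom : A.IsHomogeneous (q + k - m) := by
    rw [hA]
    exact homogeneousComponent_isHomogeneous _ _
  have h1 : σ * T - A * G ∈ I := by
    have h2 := congrArg (homogeneousComponent (q + k)) hab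
    rw [map_add, hc_mul A0 G hGhom (q + k), if_pos (by omega), ← hA,
      homogeneousComponent_of_mem (hσhom.mul hT), if_pos rfl] at h2
    have h3 : σ * T - A * G = homogeneousComponent (q + k) a := by
      rw [← h2]
      ring
    rw [h3]
    exact hI.homogeneous a ha _
  have h4 : A * G ∈ I ⊔ Ideal.span {σ} := by
    have h5 : A * G = T * σ - (σ * T - A * G) := by ring
    rw [h5]
    exact Ideal.sub_mem _
      (Ideal.mem_sup_right (Ideal.mul_mem_left _ _ (Ideal.mem_span_singleton_self σ)))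
      (Ideal.mem_sup_left h1)
  have h5 : A ∈ I ⊔ Ideal.span {σ} := by
    rw [← hQinf, Submodule.mem_finsetInf]
    intro J hJ
    have h6 : k' J ≤ Q.sup k' := Finset.le_sup hJ
    exact hk' J hJ _ (by omega) A hAhom (hIQ J hJ h4)
  obtain ⟨a', ha', b', hb', hab'⟩ := Submodule.mem_sup.1 h5
  obtain ⟨A', hA'⟩ := Ideal.mem_span_singleton'.1 hb'
  have h6 : σ * (T - A' * G) ∈ I := by
    have h7 : σ * (T - A' * G) = (σ * T - A * G) + G * a' := by
      rw [← hab', ← hA']
      ring
    rw [h7]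
    exact Ideal.add_mem _ h1 (Ideal.mul_mem_left _ _ ha')
  rcases hI.prime.mem_or_mem h6 with h7 | h7
  · exact absurd h7 hσI
  · have h8 : T = (T - A' * G) + A' * G := by ring
    rw [h8]
    exact Ideal.add_mem _ (Ideal.mem_sup_left h7)
      (Ideal.mem_sup_right (Ideal.mul_mem_left _ _ (Ideal.mem_span_singleton_self G)))

end Pool.Agent.Lib.MP_ed661f_ag.V
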