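import Pool.Agent.Lib.MP_ed661f_ag.V.Fld
import Pool.Agent.Lib.MP_ed661f_ag.V.GoodProj
import Pool.Agent.Lib.MP_ed661f_ag.V.EchEx
import Pool.Agent.Lib.MP_ed661f_ag.V.Tors
import Pool.Agent.Lib.MP_ed661f_ag.V.ThreeDeg
import Pool.Agent.Lib.MP_ed661f_ag.V.Rel

/-!
The geometric data of a threefold and a countable field of definition.
-/

set_option autoImplicit false

open MvPolynomial
open scoped ENNReal

namespace Pool.Agent.Lib.MP_ed661f_ag.V

open Pool.Agent.Lib.MP_ed661f_ag.H Pool.Agent.Lib.MP_ed661f_ag.S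

/-- the geometric data, defined over the countable field `K` -/
structure Data {N : ℕ} (K : Subfield ℂ) (I : Ideal (Poly N)) (e q : ℕ) (P : Poly 4)
    (L : Fin 5 → Poly N) (s : Poly 3) (θ : PowerSeries ℂ) (E : ℕ → Finset ℕ)
    (b : ℕ → ℕ → Poly 4) (Q : Fin (N + 1) → Poly 4) : Prop where
  good : GoodProj I e q P L s θ
  ech : Ech e θ E b
  rel : RelQ I q L s Q
  hPK : ∀ α, coeff α P ∈ K
  hLK : ∀ j α, coeff α (L j) ∈ K
  hsK : ∀ α, coeff α s ∈ K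
  hθK : ∀ j, PowerSeries.coeff j θ ∈ K
  hbK : ∀ d l α, coeff α (b d l) ∈ K
  hQK : ∀ j α, coeff α (Q j) ∈ K
  tors : ∀ (m : ℕ) (G1 : Poly 3), VeryGeneralOver K m G1 → ∃ k0 : ℕ, ∀ k, k0 ≤ k →
    ∀ T : Poly N, T.IsHomogeneous k →
      sub5 L (inc4 s) * T ∈ I ⊔ Ideal.span {sub5 L (inc4 G1)} →
      T ∈ I ⊔ Ideal.span {sub5 L (inc4 G1)}

theorem exists_data {N e : ℕ} {I : Ideal (Poly N)} (hI : IsThreefold I) (he : threeDeg I = e)
    {K : Subfield ℂ} (hKc : (K : Set ℂ).Countable) :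
    ∃ (K2 : Subfield ℂ) (q : ℕ) (P : Poly 4) (L : Fin 5 → Poly N) (s : Poly 3)
      (θ : PowerSeries ℂ) (E : ℕ → Finset ℕ) (b : ℕ → ℕ → Poly 4) (Q : Fin (N + 1) → Poly 4),
      K ≤ K2 ∧ (K2 : Set ℂ).Countable ∧ Data K2 I e q P L s θ E b Q := by
  obtain ⟨e', q, P, L, s, θ, hg⟩ := exists_goodProj hI
  have hee : e' = e := by
    have h1 := hg.proj.threeDeg_eq hI
    rw [he] at h1
    exact_mod_cast h1.symm
  subst hee
  obtain ⟨E, b, hE⟩ := exists_ech hg.proj.he hg.proj.hP hg.proj.hcoeff hg.branch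
  obtain ⟨Q, hQ⟩ := hg.proj.exists_Q hI.homogeneous
  obtain ⟨S, hSc, hS⟩ := hg.proj.tors hI
  set T : Set ℂ := K ∪ (S ∪ ((Set.range fun α => coeff α P) ∪
    ((Set.range fun u : Fin 5 × (Fin (N + 1) →₀ ℕ) => coeff u.2 (L u.1)) ∪
    ((Set.range fun α => coeff α s) ∪ ((Set.range fun j => PowerSeries.coeff j θ) ∪
    ((Set.range fun u : ℕ × ℕ × (Fin 5 →₀ ℕ) => coeff u.2.2 (b u.1 u.2.1)) ∪
    (Set.range fun u : Fin (N + 1) × (Fin 5 →₀ ℕ) => coeff u.2 (Q u.1)))))))) with hT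
  have hTc : T.Countable := by
    refine hKc.union (hSc.union ((Set.countable_range _).union ((Set.countable_range _).union
      ((Set.countable_range _).union ((Set.countable_range _).union
      ((Set.countable_range _).union (Set.countable_range _)))))))
  have hsub : T ⊆ Subfield.closure T := Subfield.subset_closure
  have hcl : ((Subfield.closure T : Subfield ℂ) : Set ℂ).Countable :=
    Set.countable_coe_iff.1 (Hn.countable_closure T hTc)
  refine ⟨Subfield.closure T, q, P, L, s, θ, E, b, Q, fun x hx => hsub (Or.inl hx), hcl,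
    ⟨hg, hE, hQ, ?_, ?_, ?_, ?_, ?_, ?_, ?_⟩⟩
  · exact fun α => hsub (Or.inr (Or.inr (Or.inl ⟨α, rfl⟩)))
  · exact fun j α => hsub (Or.inr (Or.inr (Or.inr (Or.inl ⟨(j, α), rfl⟩))))
  · exact fun α => hsub (Or.inr (Or.inr (Or.inr (Or.inr (Or.inl ⟨α, rfl⟩)))))
  · exact fun j => hsub (Or.inr (Or.inr (Or.inr (Or.inr (Or.inr (Or.inl ⟨j, rfl⟩))))))
  · exact fun d l α =>
      hsub (Or.inr (Or.inr (Or.inr (Or.inr (Or.inr (Or.inr (Or.inl ⟨(d, l, α), rfl⟩)))))))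
  · exact fun j α =>
      hsub (Or.inr (Or.inr (Or.inr (Or.inr (Or.inr (Or.inr (Or.inr ⟨(j, α), rfl⟩)))))))
  · exact hS _ fun x hx => hsub (Or.inr (Or.inl hx))

end Pool.Agent.Lib.MP_ed661f_ag.V
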