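import Pool.Agent.Lib.MP_ed661f_ag.T.Proj
import Pool.Agent.Lib.MP_ed661f_ag.S.Place
import Pool.Agent.Lib.MP_ed661f_ag.S.Iface

/-!
Surfaces in threefolds: definitions.
-/

set_option autoImplicit false

open MvPolynomial Filter
open scoped ENNReal

namespace Pool.Agent.Lib.MP_ed661f_ag.V

open Pool.Agent.Lib.MP_ed661f_ag.H Pool.Agent.Lib.MP_ed661f_ag.S

/-- `I` is the homogeneous ideal of an irreducible threefold: it is prime, it contains the
homogeneous components of its elements, and the quotient ring (the coordinate ring of the affine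
cone over the threefold) has dimension `4` -/
structure IsThreefold {N : ℕ} (I : Ideal (Poly N)) : Prop where
  prime : I.IsPrime
  homogeneous : ∀ F ∈ I, ∀ k, homogeneousComponent k F ∈ I
  dim : ringKrullDim (Poly N ⧸ I) = 4

/-- the degree of the threefold: the limit of `6 hilb I k / k ^ 3` -/
noncomputable def threeDeg {N : ℕ} (I : Ideal (Poly N)) : ℝ≥0∞ :=
  liminf (fun k : ℕ => 6 * (hilb I k : ℝ≥0∞) / (k : ℝ≥0∞) ^ 3) atTop

/-- the ideal is generated by polynomials with coefficients in the subfield `K` -/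
def DefinedOver {N : ℕ} (K : Subfield ℂ) (I : Ideal (Poly N)) : Prop :=
  I = Ideal.span {F | F ∈ I ∧ ∀ α, coeff α F ∈ K}

/-- `G` is a form of degree `m` with coefficients which are algebraically independent over `K` -/
def VeryGeneralOver {N : ℕ} (K : Subfield ℂ) (m : ℕ) (G : Poly N) : Prop :=
  G.IsHomogeneous m ∧
    AlgebraicIndependent K fun α : {α : Fin (N + 1) →₀ ℕ // α.degree = m} => coeff α.1 G

/-! ### projections to the space of dimension four -/

/-- a polynomial in the first four of five variables -/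
noncomputable def inc4 : Poly 3 →ₐ[ℂ] Poly 4 := rename Fin.castSucc

/-- the substitution of five linear forms -/
noncomputable def sub5 {N : ℕ} (L : Fin 5 → Poly N) : Poly 4 →ₐ[ℂ] Poly N := aeval L

/-- the threefold with ideal `I` is mapped birationally onto the threefold `P = 0` in the space of
dimension four by the five linear forms `L`; the form `s` in the first four of them is a
conductor -/
structure Proj5 {N : ℕ} (I : Ideal (Poly N)) (e q : ℕ) (P : Poly 4) (L : Fin 5 → Poly N)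
    (s : Poly 3) : Prop where
  he : 1 ≤ e
  hP : P.IsHomogeneous e
  hcoeff : coeff (Finsupp.single 4 e) P = 1
  hL : ∀ i, (L i).IsHomogeneous 1
  hker : ∀ G, sub5 L G ∈ I ↔ P ∣ G
  hs : s.IsHomogeneous q
  hs0 : s ≠ 0
  cond : ∀ H : Poly N, ∃ G : Poly 4, sub5 L (inc4 s) * H - sub5 L G ∈ I
  fin : ((Ideal.Quotient.mkₐ ℂ I).comp (sub5 L)).toRingHom.Finite

/-! ### the curve section and its branch -/

/-- the restriction to the branch `(1 : Z : 0 : 0 : θ(Z))` -/
noncomputable def br (θ : PowerSeries ℂ) : Poly 4 →ₐ[ℂ] PowerSeries ℂ :=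
  aeval ![1, PowerSeries.X, 0, 0, θ]

/-- only the variables `X 0`, `X 1`, `X 4` occur, and `X 4` with an exponent smaller than `e` -/
def InS (e : ℕ) (Q : Poly 4) : Prop := ∀ γ ∈ Q.support, γ 2 = 0 ∧ γ 3 = 0 ∧ γ 4 < e

/-- `θ` is a branch of the curve section at the point `(1 : 0 : 0 : 0 : 0)`, and no form in
`InS e` vanishes on it -/
structure Branch (e : ℕ) (P : Poly 4) (θ : PowerSeries ℂ) : Prop where
  h0 : PowerSeries.constantCoeff θ = 0
  hP : br θ P = 0
  inj : ∀ (k : ℕ) (Q : Poly 4), Q.IsHomogeneous k → InS e Q → br θ Q = 0 → Q = 0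

/-- the forms `b d l`, `l ∈ E d`, are a basis of the forms of degree `d` in `InS e`, with different
orders `l ≤ e * d` on the branch and leading coefficients one -/
structure Ech (e : ℕ) (θ : PowerSeries ℂ) (E : ℕ → Finset ℕ) (b : ℕ → ℕ → Poly 4) : Prop where
  le : ∀ d, ∀ l ∈ E d, l ≤ e * d
  hom : ∀ d, ∀ l ∈ E d, (b d l).IsHomogeneous d
  mem : ∀ d, ∀ l ∈ E d, InS e (b d l)
  low : ∀ d, ∀ l ∈ E d, ∀ j < l, PowerSeries.coeff j (br θ (b d l)) = 0
  lead : ∀ d, ∀ l ∈ E d, PowerSeries.coeff l (br θ (b d l)) = 1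
  span : ∀ d, ∀ Q : Poly 4, Q.IsHomogeneous d → InS e Q →
    ∃ a : ℕ → ℂ, Q = ∑ l ∈ E d, C (a l) * b d l

/-- the indices `(i, j, l)` of the normal form of degree `k` -/
def idx (e m k : ℕ) (E : ℕ → Finset ℕ) : Finset (ℕ × ℕ × ℕ) :=
  (Finset.range m ×ˢ Finset.range (k + 1) ×ˢ Finset.range (e * k + 1)).filter
    fun t => t.1 + t.2.1 ≤ k ∧ t.2.2 ∈ E (k - t.1 - t.2.1)

/-- the element of the normal form of degree `k` with index `(i, j, l)` -/
noncomputable def nfb (k : ℕ) (b : ℕ → ℕ → Poly 4) (t : ℕ × ℕ × ℕ) : Poly 4 :=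
  X 2 ^ t.1 * X 3 ^ t.2.1 * b (k - t.1 - t.2.1) t.2.2

/-! ### orders of vanishing -/

/-- the coefficients of degree smaller than `w` vanish -/
def Van {A : Type*} [CommRing A] (w : ℕ) (f : MvPowerSeries (Fin 2) A) : Prop :=
  ∀ d : Fin 2 →₀ ℕ, d.degree < w → MvPowerSeries.coeff d f = 0

/-- a form which vanishes to large order at the points `v i` lies in the ideal `J` -/
def FIJ {N n : ℕ} (D : ℕ) (J : Ideal (Poly N)) (l : Poly N) (v : Fin n → Fin (N + 1) → ℂ) :
    Prop :=
  ∀ (k w : ℕ) (Q : Poly N), Q.IsHomogeneous k →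
    (∀ i, Q ∈ J ⊔ vecIdeal (v i) ^ w ⊔ Ideal.span {l - 1}) → D * k ^ 2 < n * w ^ 2 → Q ∈ J

/-- the same for germs -/
def GFI {N n : ℕ} (D : ℕ) (J : Ideal (Poly N))
    (φ : Fin n → Poly N →ₐ[ℂ] MvPowerSeries (Fin 2) ℂ) : Prop :=
  ∀ (k w : ℕ) (Q : Poly N), Q.IsHomogeneous k → (∀ i, Van w (φ i Q)) →
    D * k ^ 2 < n * w ^ 2 → Q ∈ J

/-- a parametrised germ of the variety with ideal `J` at the point `v`; the linear forms `L` have
the values `1`, `L 1 (v) + S`, `L 2 (v) + T` -/
structure IsGerm {N : ℕ} (J : Ideal (Poly N)) (L : Fin 3 → Poly N) (v : Fin (N + 1) → ℂ)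
    (φ : Poly N →ₐ[ℂ] MvPowerSeries (Fin 2) ℂ) : Prop where
  ker : ∀ F ∈ J, φ F = 0
  const : ∀ F, MvPowerSeries.constantCoeff (φ F) = eval v F
  l0 : φ (L 0) = 1
  l1 : φ (L 1) = MvPowerSeries.C (eval v (L 1)) + MvPowerSeries.X 0
  l2 : φ (L 2) = MvPowerSeries.C (eval v (L 2)) + MvPowerSeries.X 1

/-- for every countable field `K'` there are `n` points of the variety with ideal `J`, generic over
`K'`, with germs, such that the forms which vanish to large order at them lie in `J` -/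
def Pts {N : ℕ} (D : ℕ) (J : Ideal (Poly N)) (n : ℕ) : Prop :=
  ∃ L : Fin 3 → Poly N, (∀ j, (L j).IsHomogeneous 1) ∧
    ∀ K' : Subfield ℂ, (K' : Set ℂ).Countable →
      ∃ (v : Fin n → Fin (N + 1) → ℂ) (φ : Fin n → Poly N →ₐ[ℂ] MvPowerSeries (Fin 2) ℂ),
        (∀ i, IsGerm J L (v i) (φ i)) ∧
        AlgebraicIndependent K' (fun q : Fin n × Fin 2 => eval (v q.1) (L q.2.succ)) ∧
        GFI D J φ

end Pool.Agent.Lib.MP_ed661f_ag.V
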