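import Pool.Agent.Lib.MP_ed661f_ag.Ro.MainO
import Pool.Agent.Lib.MP_ed661f_ag.V.Defs
import Pool.Agent.Lib.MP_ed661f_ag.S.Jac

/-!
The surface in the space of dimension three, with the points in general position with respect to
the third coordinate.
-/

set_option autoImplicit false

open MvPolynomial

namespace Pool.Agent.Lib.MP_ed661f_ag.V

open Pool.Agent.Lib.MP_ed661f_ag.H Pool.Agent.Lib.MP_ed661f_ag.S

private theorem fml_eval_single {d : ℕ} {F : Poly 3} (hF : F.IsHomogeneous d) (k : Fin 4) :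
    eval (Pi.single k 1) F = coeff (Finsupp.single k d) F := by
  classical
  rw [eval_eq', Finset.sum_eq_single (Finsupp.single k d)]
  · have : ∏ i : Fin 4, (Pi.single k 1 : Fin 4 → ℂ) i ^ (Finsupp.single (k : Fin 4) d) i = 1 := by
      refine Finset.prod_eq_one fun i _ => ?_
      by_cases h : i = k
      · rw [h, Pi.single_eq_same, one_pow]
      · rw [Finsupp.single_eq_of_ne h, pow_zero]
    rw [this, mul_one]
  · intro e he hne
    have hdeg : e.degree = d := by
      by_contra h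
      exact (mem_support_iff.1 he) (hF.coeff_eq_zero h)
    obtain ⟨i, hi, hei⟩ : ∃ i : Fin 4, i ≠ k ∧ e i ≠ 0 := by
      by_contra hcon
      push Not at hcon
      apply hne
      have h1 : e = Finsupp.single k (e k) := by
        ext i
        by_cases h : i = k
        · rw [h, Finsupp.single_eq_same]
        · rw [hcon i h, Finsupp.single_eq_of_ne h]
      rw [h1, Finsupp.degree_single] at hdeg
      rw [h1, hdeg]
    rw [Finset.prod_eq_zero (Finset.mem_univ i), mul_zero]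
    rw [Pi.single_eq_of_ne hi, zero_pow hei]
  · intro h
    rw [notMem_support_iff.1 h, zero_mul]

private noncomputable def fmlS (κ : ℂ) : Poly 3 →ₐ[ℂ] Poly 3 :=
  aeval ![X 0, X 1, X 2 + C κ * X 0, X 3]

private theorem fmlS_eval (κ : ℂ) (v : Fin 4 → ℂ) (G : Poly 3) :
    eval v (fmlS κ G) = eval ![v 0, v 1, v 2 + κ * v 0, v 3] G := by
  have h : (aeval v : Poly 3 →ₐ[ℂ] ℂ).comp (fmlS κ) =
      aeval ![v 0, v 1, v 2 + κ * v 0, v 3] := by
    apply MvPolynomial.algHom_ext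
    intro i
    fin_cases i <;> simp [fmlS]
  have h1 := congrArg (fun f : Poly 3 →ₐ[ℂ] ℂ => f G) h
  exact h1

private theorem fmlS_inv (κ : ℂ) (G : Poly 3) : fmlS κ (fmlS (-κ) G) = G := by
  have h : (fmlS κ).comp (fmlS (-κ)) = AlgHom.id ℂ (Poly 3) := by
    apply MvPolynomial.algHom_ext
    intro i
    fin_cases i <;> simp [fmlS]
  exact congrArg (fun f : Poly 3 →ₐ[ℂ] Poly 3 => f G) h

private theorem fmlS_inv' (κ : ℂ) (G : Poly 3) : fmlS (-κ) (fmlS κ G) = G := by
  have h := fmlS_inv (-κ) G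
  rwa [neg_neg] at h

private noncomputable def fmlE (κ : ℂ) : Poly 3 ≃ₐ[ℂ] Poly 3 :=
  AlgEquiv.ofAlgHom (fmlS κ) (fmlS (-κ)) (AlgHom.ext fun G => fmlS_inv κ G)
    (AlgHom.ext fun G => fmlS_inv' κ G)

private theorem fmlS_irr (κ : ℂ) {G : Poly 3} (hG : Irreducible G) : Irreducible (fmlS κ G) :=
  (MulEquiv.irreducible_iff (fmlE κ)).2 hG

private theorem fmlS_hom (κ : ℂ) {m : ℕ} {G : Poly 3} (hG : G.IsHomogeneous m) :
    (fmlS κ G).IsHomogeneous m := by
  have h := hG.aeval (![X 0, X 1, X 2 + C κ * X 0, X 3] : Fin 4 → Poly 3) (n := 1) (by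
    intro i
    fin_cases i
    · exact isHomogeneous_X ℂ _
    · exact isHomogeneous_X ℂ _
    · exact (isHomogeneous_X ℂ _).add ((isHomogeneous_X ℂ _).C_mul κ)
    · exact isHomogeneous_X ℂ _)
  rwa [one_mul] at h

private theorem fmlS_pderiv (κ : ℂ) (G : Poly 3) :
    pderiv 3 (fmlS κ G) = fmlS κ (pderiv 3 G) := by
  rw [fmlS, deriv_aeval, Fin.sum_univ_four]
  simp [pderiv_X]

private theorem fml_finite {μ : ℕ} {F : Poly 3} (hF : F.IsHomogeneous μ)
    (h2 : coeff (Finsupp.single 2 μ) F ≠ 0) (s z : ℂ) :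
    {y : ℂ | eval ![1, s, y, z] F = 0}.Finite := by
  let p : Polynomial ℂ := aeval ![Polynomial.X, Polynomial.C s * Polynomial.X, 1,
    Polynomial.C z * Polynomial.X] F
  have hp : ∀ h : ℂ, p.eval h = eval ![h, s * h, 1, z * h] F := by
    intro h
    have h1 : (Polynomial.aeval h).comp (aeval ![Polynomial.X, Polynomial.C s * Polynomial.X, 1,
        Polynomial.C z * Polynomial.X] : Poly 3 →ₐ[ℂ] Polynomial ℂ) =
        aeval ![h, s * h, 1, z * h] := by
      apply MvPolynomial.algHom_ext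
      intro i
      fin_cases i <;> simp
    exact congrArg (fun f : Poly 3 →ₐ[ℂ] ℂ => f F) h1
  have hp0 : p ≠ 0 := by
    intro h0
    have h3 := hp 0
    rw [h0, Polynomial.eval_zero] at h3
    have h4 : (![0, s * 0, 1, z * 0] : Fin 4 → ℂ) = Pi.single 2 1 := by
      funext i
      fin_cases i <;> simp
    rw [h4, fml_eval_single hF] at h3
    exact h2 h3.symm
  refine Set.Finite.subset ((Set.finite_singleton (0 : ℂ)).union
    ((Finset.finite_toSet p.roots.toFinset).preimage (f := fun y : ℂ => y⁻¹)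
      inv_injective.injOn)) ?_
  intro y hy
  by_cases hy0 : y = 0
  · left
    exact hy0
  · right
    rw [Set.mem_preimage, Finset.mem_coe, Multiset.mem_toFinset, Polynomial.mem_roots hp0]
    change p.eval y⁻¹ = 0
    rw [hp]
    have h5 : (![y⁻¹, s * y⁻¹, 1, z * y⁻¹] : Fin 4 → ℂ) = y⁻¹ • ![1, s, y, z] := by
      funext i
      fin_cases i <;> simp [mul_comm, hy0]
    rw [h5, eval_smul_form hF]
    change y⁻¹ ^ μ * eval ![1, s, y, z] F = 0
    rw [show eval ![1, s, y, z] F = 0 from hy, mul_zero]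

private theorem fml_exists {e n : ℕ} (he : 1 ≤ e) {t : Fin n → ℂ} {Z : Fin n → Set ℂ}
    (hZ : ∀ i, (Z i).Finite) :
    ∃ κ : ℂ, ∀ i, ∀ ω : ℂ, ω ^ e = 1 → ω ≠ 1 → ω * (t i - κ) + κ ∉ Z i := by
  have hR : {ω : ℂ | ω ^ e = 1}.Finite := by
    refine Set.Finite.subset (Finset.finite_toSet (Polynomial.nthRoots e (1 : ℂ)).toFinset) ?_
    intro ω hω
    rw [Finset.mem_coe, Multiset.mem_toFinset, Polynomial.mem_nthRoots (by omega)]
    exact hω
  have hB : (⋃ i : Fin n, ⋃ ω ∈ {ω : ℂ | ω ^ e = 1},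
      {κ : ℂ | ω ≠ 1 ∧ ω * (t i - κ) + κ ∈ Z i}).Finite := by
    refine Set.finite_iUnion fun i => hR.biUnion fun ω _ => ?_
    by_cases h1 : ω = 1
    · refine Set.finite_empty.subset ?_
      rintro κ ⟨h2, -⟩
      exact absurd h1 h2
    · refine ((hZ i).preimage (f := fun κ : ℂ => ω * (t i - κ) + κ) ?_).subset ?_
      · refine Function.Injective.injOn ?_
        intro κ κ' h
        simp only at h
        have h3 : (1 - ω) * (κ - κ') = 0 := by linear_combination h
        rcases mul_eq_zero.1 h3 with h4 | h4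
        · exact absurd (sub_eq_zero.1 h4).symm h1
        · exact sub_eq_zero.1 h4
      · rintro κ ⟨-, h2⟩
        exact h2
  obtain ⟨κ, hκ⟩ := hB.exists_notMem
  refine ⟨κ, fun i ω h1 h2 h3 => hκ ?_⟩
  exact Set.mem_iUnion.2 ⟨i, Set.mem_iUnion₂.2 ⟨ω, h1, h2, h3⟩⟩

/-- **the form and the points**: the inequality for forms `FI`, and the values at the conjugate
points are not zero.

Proof. By `Ro.baseD_all` and `S.formsOut` there are a very general form `F0` of degree `μ` and points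
`v0 i = (1, s_i, t_i, z_i)` with `F0(v0 i) = 0`, `(∂F0/∂x₃)(v0 i) ≠ 0`, `FI μ F0 v0`. Let `κ` be
transcendental over the countable field `K₁` generated by all their coefficients and coordinates
(`S.Hn.exists_indep`). Put `F = F0(X 0, X 1, X 2 + κ X 0, X 3)`, `v i = (1, s_i, t_i - κ, z_i)`.
The substitution `σ` is an automorphism of `Poly 3` which preserves degrees and sends `X 0 - 1` to
itself and `vecIdeal (v0 i)` onto `vecIdeal (v i)`, so `F` is irreducible
(`S.irreducible_of_veryGeneral`), `FI μ F v` holds, the coefficient of `X 3 ^ μ` is the same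
(`S.coeff_last_ne_zero`), `F(v i) = F0(v0 i) = 0`, `(∂F/∂x₃)(v i) = (∂F0/∂x₃)(v0 i)`. Let
`ω ^ e = 1`, `ω ≠ 1`: `F(1, s_i, ω (t_i - κ), z_i) = F0(1, s_i, ω t_i + (1 - ω) κ, z_i)`. The
polynomial `F0(1, s_i, Y, z_i)` in `Y` is not zero, because its coefficient at `Y ^ μ` is the
coefficient of `X 2 ^ μ` in `F0`, which is not zero (algebraically independent, `μ ≥ 1`); so the
polynomial `F0(1, s_i, ω t_i + (1 - ω) Y, z_i)` is not zero, and it has coefficients in `K₁(ω)`,
algebraic over `K₁`. As `κ` is transcendental over `K₁`, hence over `K₁(ω)`, its value at `κ` is not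
zero. (In the Lean proof `κ` is only chosen outside a finite set.) -/
theorem exists_form {μ : ℕ} (e : ℕ) (he : 1 ≤ e) (hμ : 6 ≤ μ) (n : ℕ) :
    ∃ (F : Poly 3) (v : Fin n → Fin 4 → ℂ), F.IsHomogeneous μ ∧ Irreducible F ∧
      coeff (Finsupp.single 3 μ) F ≠ 0 ∧ (∀ i, v i 0 = 1) ∧ (∀ i, eval (v i) F = 0) ∧
      (∀ i, eval (v i) (pderiv 3 F) ≠ 0) ∧
      (∀ i, ∀ ω : ℂ, ω ^ e = 1 → ω ≠ 1 → eval ![1, v i 1, ω * v i 2, v i 3] F ≠ 0) ∧
      FI μ F v := by
  obtain ⟨F0, v0, hF0, -, a2, a3, a4, a5⟩ := formsOut hμ (Ro.baseD_all hμ n)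
  obtain ⟨κ, hκ⟩ := fml_exists (e := e) (n := n) he (t := fun i => v0 i 2)
    (Z := fun i => {y : ℂ | eval ![1, v0 i 1, y, v0 i 3] F0 = 0})
    (fun i => fml_finite hF0.1 (hF0.2.ne_zero ⟨Finsupp.single 2 μ, by simp⟩) _ _)
  have hv : ∀ i, (![1, v0 i 1, v0 i 2 - κ + κ * 1, v0 i 3] : Fin 4 → ℂ) = v0 i := by
    intro i
    funext j
    fin_cases j <;> simp [a2]
  have hE : ∀ i G, eval ![1, v0 i 1, v0 i 2 - κ, v0 i 3] (fmlS κ G) = eval (v0 i) G := by
    intro i G
    rw [fmlS_eval]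
    exact congrArg (fun w => eval w G) (hv i)
  refine ⟨fmlS κ F0, fun i => ![1, v0 i 1, v0 i 2 - κ, v0 i 3], fmlS_hom κ hF0.1,
    fmlS_irr κ (irreducible_of_veryGeneral (by omega) hF0), ?_, fun i => rfl, ?_, ?_, ?_, ?_⟩
  · rw [← fml_eval_single (fmlS_hom κ hF0.1), fmlS_eval]
    have h4 : (![(Pi.single 3 1 : Fin 4 → ℂ) 0, (Pi.single 3 1 : Fin 4 → ℂ) 1,
        (Pi.single 3 1 : Fin 4 → ℂ) 2 + κ * (Pi.single 3 1 : Fin 4 → ℂ) 0,
        (Pi.single 3 1 : Fin 4 → ℂ) 3] : Fin 4 → ℂ) = Pi.single 3 1 := by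
      funext i
      fin_cases i <;> simp
    rw [h4, fml_eval_single hF0.1]
    exact coeff_last_ne_zero hF0
  · intro i
    rw [hE, a3]
  · intro i
    rw [fmlS_pderiv, hE]
    exact a4 i
  · intro i ω h1 h2 h3
    refine hκ i ω h1 h2 ?_
    rw [fmlS_eval] at h3
    have h4 : (![1, v0 i 1, ω * (v0 i 2 - κ) + κ * 1, v0 i 3] : Fin 4 → ℂ) =
        ![1, v0 i 1, ω * (v0 i 2 - κ) + κ, v0 i 3] := by
      rw [mul_one]
    exact (congrArg (fun w => eval w F0) h4).symm.trans h3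
  · intro m w G hG hmem hlt
    have h1 := a5 m w (fmlS (-κ) G) (fmlS_hom _ hG) (fun i => ?_) hlt
    · have h2 := map_dvd (fmlS κ) h1
      rwa [fmlS_inv] at h2
    · have h3 := Ideal.mem_map_of_mem (fmlS (-κ)) (hmem i)
      refine (?_ : Ideal.map (fmlS (-κ)) _ ≤ _) h3
      rw [Ideal.map_sup, Ideal.map_sup, Ideal.map_pow, Ideal.map_span, Ideal.map_span,
        Set.image_singleton, Set.image_singleton]
      have e1 : fmlS (-κ) (fmlS κ F0) = F0 := fmlS_inv' κ F0
      have e2 : fmlS (-κ) (X 0 - 1) = X 0 - 1 := by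
        rw [map_sub, map_one, fmlS, aeval_X]
        rfl
      rw [e1, e2]
      refine sup_le_sup_right (sup_le_sup_left (Ideal.pow_right_mono ?_ w) _) _
      rw [Ideal.map_le_iff_le_comap]
      intro H hH
      rw [Ideal.mem_comap]
      change eval (v0 i) (fmlS (-κ) H) = 0
      rw [fmlS_eval]
      have h2 : eval ![1, v0 i 1, v0 i 2 - κ, v0 i 3] H = 0 := hH
      have h5 : (![v0 i 0, v0 i 1, v0 i 2 + -κ * v0 i 0, v0 i 3] : Fin 4 → ℂ) =
          ![1, v0 i 1, v0 i 2 - κ, v0 i 3] := by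
        rw [a2, mul_one, sub_eq_add_neg]
      exact (congrArg (fun w => eval w H) h5).trans h2

end Pool.Agent.Lib.MP_ed661f_ag.V
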