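import Mathlib

/-!
Scaling of algebraically independent numbers.
-/

set_option autoImplicit false

open MvPolynomial

namespace Pool.Agent.Lib.MP_ed661f_ag.V

private theorem is_pow_sub {τ : ℂ} (hτ : τ ≠ 0) {N n : ℕ} (h : n ≤ N) :
    τ ^ N * τ⁻¹ ^ n = τ ^ (N - n) := by
  have h1 : τ ^ N = τ ^ (N - n) * τ ^ n := by
    rw [← pow_add, Nat.sub_add_cancel h]
  rw [h1, mul_assoc, ← mul_pow, mul_inv_cancel₀ hτ, one_pow, mul_one]

private theorem is_prod {ι : Type} (u : ι → ℂ) (τ₁ τ₂ : ℂ) (i j : ι → ℕ) (m : ι →₀ ℕ) :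
    (m.prod fun γ k => (u γ * (τ₁⁻¹ ^ i γ * τ₂⁻¹ ^ j γ)) ^ k) =
      (m.prod fun γ k => u γ ^ k) *
        (τ₁⁻¹ ^ (m.sum fun γ k => i γ * k) * τ₂⁻¹ ^ (m.sum fun γ k => j γ * k)) := by
  unfold Finsupp.prod Finsupp.sum
  rw [← Finset.prod_pow_eq_pow_sum, ← Finset.prod_pow_eq_pow_sum, ← Finset.prod_mul_distrib,
    ← Finset.prod_mul_distrib]
  refine Finset.prod_congr rfl fun γ _ => ?_
  change (u γ * (τ₁⁻¹ ^ i γ * τ₂⁻¹ ^ j γ)) ^ (m γ) =
    u γ ^ (m γ) * (τ₁⁻¹ ^ (i γ * m γ) * τ₂⁻¹ ^ (j γ * m γ))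
  rw [mul_pow, mul_pow, ← pow_mul, ← pow_mul]

/-- scaling of the coefficients preserves the algebraic independence.

Proof. The `u γ` are algebraically independent over the subfield `K(τ₁, τ₂)` (the family
`Sum.elim u ![τ₁, τ₂]` is algebraically independent over `K`), and the `c γ` are nonzero elements of
this field; a family remains algebraically independent over a field if its members are multiplied
by nonzero elements of the field (an automorphism of the polynomial ring); restrict the scalars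
to `K`. -/
theorem indep_scale {K : Subfield ℂ} {ι : Type} {u : ι → ℂ} {τ₁ τ₂ : ℂ}
    (hu : AlgebraicIndependent K (Sum.elim u ![τ₁, τ₂])) (i j : ι → ℕ) :
    AlgebraicIndependent K (fun γ => u γ * (τ₁⁻¹ ^ i γ * τ₂⁻¹ ^ j γ)) := by
  classical
  have hτ₁ : τ₁ ≠ 0 := hu.ne_zero (Sum.inr 0)
  have hτ₂ : τ₂ ≠ 0 := hu.ne_zero (Sum.inr 1)
  rw [algebraicIndependent_iff]
  intro f hf
  set I : (ι →₀ ℕ) → ℕ := fun m => m.sum fun γ k => i γ * k with hI
  set J : (ι →₀ ℕ) → ℕ := fun m => m.sum fun γ k => j γ * k with hJ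
  set N : ℕ := f.support.sup fun m => I m + J m with hN
  have hle : ∀ m ∈ f.support, I m ≤ N ∧ J m ≤ N := by
    intro m hm
    have h1 : I m + J m ≤ N := Finset.le_sup (f := fun m => I m + J m) hm
    omega
  set g : MvPolynomial (ι ⊕ Fin 2) K := ∑ m ∈ f.support,
    rename Sum.inl (monomial m (coeff m f)) *
      (X (Sum.inr 0) ^ (N - I m) * X (Sum.inr 1) ^ (N - J m)) with hg
  have h1 : aeval (Sum.elim u ![τ₁, τ₂]) g = τ₁ ^ N * τ₂ ^ N *
      aeval (fun γ => u γ * (τ₁⁻¹ ^ i γ * τ₂⁻¹ ^ j γ)) f := by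
    have h2 : aeval (fun γ => u γ * (τ₁⁻¹ ^ i γ * τ₂⁻¹ ^ j γ)) f =
        ∑ m ∈ f.support, aeval (fun γ => u γ * (τ₁⁻¹ ^ i γ * τ₂⁻¹ ^ j γ))
          (monomial m (coeff m f)) := by
      rw [← map_sum]
      congr 1
      exact f.as_sum
    rw [h2, hg, map_sum, Finset.mul_sum]
    refine Finset.sum_congr rfl fun m hm => ?_
    have h3 : (Sum.elim u ![τ₁, τ₂]) ∘ Sum.inl = u := by
      funext γ
      rfl
    have h4 : Sum.elim u ![τ₁, τ₂] (Sum.inr 0) = τ₁ := rfl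
    have h5 : Sum.elim u ![τ₁, τ₂] (Sum.inr 1) = τ₂ := rfl
    rw [map_mul, map_mul, map_pow, map_pow, aeval_rename, h3, aeval_X, aeval_X, h4, h5,
      aeval_monomial, aeval_monomial, is_prod, ← is_pow_sub hτ₁ (hle m hm).1,
      ← is_pow_sub hτ₂ (hle m hm).2]
    ring
  rw [hf, mul_zero] at h1
  have h2 : g = 0 := (algebraicIndependent_iff.1 hu) g h1
  have h3 : aeval (Sum.elim (X : ι → MvPolynomial ι K) fun _ => 1) g = f := by
    rw [hg, map_sum]
    conv_rhs => rw [f.as_sum]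
    refine Finset.sum_congr rfl fun m _ => ?_
    have h4 : (Sum.elim (X : ι → MvPolynomial ι K) fun _ : Fin 2 => 1) ∘ Sum.inl = X := by
      funext γ
      rfl
    rw [map_mul, map_mul, map_pow, map_pow, aeval_rename, h4, aeval_X, aeval_X, Sum.elim_inr,
      Sum.elim_inr, one_pow, one_pow, mul_one, mul_one, aeval_X_left_apply]
  rw [h2, map_zero] at h3
  exact h3.symm

end Pool.Agent.Lib.MP_ed661f_ag.V
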