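import Pool.Agent.Lib.MP_ed661f_ag.S.Multi

/-!
Places of the complex numbers with two parameters of different size.
-/

set_option autoImplicit false

open MvPolynomial

namespace Pool.Agent.Lib.MP_ed661f_ag.V

open Pool.Agent.Lib.MP_ed661f_ag.S

/-- the subring of all `φ g + φ t₂ / φ t₁ ^ M * φ h` -/
private def ptwoA {R : Type} [CommRing R] (φ : R →+* ℂ) (t₁ t₂ : R) : Subring ℂ where
  carrier := {z | ∃ (M : ℕ) (g h : R), z * φ t₁ ^ M = φ (t₁ ^ M * g + t₂ * h)}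
  zero_mem' := ⟨0, 0, 0, by simp⟩
  one_mem' := ⟨0, 1, 0, by simp⟩
  add_mem' := by
    rintro z z' ⟨M, g, h, hz⟩ ⟨M', g', h', hz'⟩
    refine ⟨M + M', g + g', t₁ ^ M' * h + t₁ ^ M * h', ?_⟩
    have h1 : t₁ ^ (M + M') * (g + g') + t₂ * (t₁ ^ M' * h + t₁ ^ M * h') =
        (t₁ ^ M * g + t₂ * h) * t₁ ^ M' + (t₁ ^ M' * g' + t₂ * h') * t₁ ^ M := by ring
    rw [h1, map_add, map_mul, map_mul, ← hz, ← hz', map_pow, map_pow]
    ring
  mul_mem' := by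
    rintro z z' ⟨M, g, h, hz⟩ ⟨M', g', h', hz'⟩
    refine ⟨M + M', g * g', h * (t₁ ^ M' * g') + t₁ ^ M * g * h' + t₂ * h * h', ?_⟩
    have h1 : t₁ ^ (M + M') * (g * g') + t₂ * (h * (t₁ ^ M' * g') + t₁ ^ M * g * h' + t₂ * h * h') =
        (t₁ ^ M * g + t₂ * h) * (t₁ ^ M' * g' + t₂ * h') := by ring
    rw [h1, map_mul, ← hz, ← hz']
    ring
  neg_mem' := by
    rintro z ⟨M, g, h, hz⟩
    refine ⟨M, -g, -h, ?_⟩
    have h1 : t₁ ^ M * -g + t₂ * -h = -(t₁ ^ M * g + t₂ * h) := by ring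
    rw [h1, map_neg, ← hz]
    ring

/-- the ideal of those with `ev g = 0` -/
private def ptwoI {R k : Type} [CommRing R] [CommRing k] (φ : R →+* ℂ) (t₁ t₂ : R) (ev : R →+* k) :
    Ideal (ptwoA φ t₁ t₂) where
  carrier := {z | ∃ (M : ℕ) (g h : R), (z : ℂ) * φ t₁ ^ M = φ (t₁ ^ M * g + t₂ * h) ∧ ev g = 0}
  zero_mem' := ⟨0, 0, 0, by simp, by simp⟩
  add_mem' := by
    rintro z z' ⟨M, g, h, hz, hg⟩ ⟨M', g', h', hz', hg'⟩
    refine ⟨M + M', g + g', t₁ ^ M' * h + t₁ ^ M * h', ?_, by rw [map_add, hg, hg', add_zero]⟩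
    have h1 : t₁ ^ (M + M') * (g + g') + t₂ * (t₁ ^ M' * h + t₁ ^ M * h') =
        (t₁ ^ M * g + t₂ * h) * t₁ ^ M' + (t₁ ^ M' * g' + t₂ * h') * t₁ ^ M := by ring
    rw [h1, map_add, map_mul, map_mul, ← hz, ← hz', map_pow, map_pow, Subring.coe_add]
    ring
  smul_mem' := by
    rintro ⟨z, M, g, h, hz⟩ z' ⟨M', g', h', hz', hg'⟩
    refine ⟨M + M', g * g', h * (t₁ ^ M' * g') + t₁ ^ M * g * h' + t₂ * h * h', ?_, by
      rw [map_mul, hg', mul_zero]⟩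
    have h1 : t₁ ^ (M + M') * (g * g') + t₂ * (h * (t₁ ^ M' * g') + t₁ ^ M * g * h' + t₂ * h * h') =
        (t₁ ^ M * g + t₂ * h) * (t₁ ^ M' * g' + t₂ * h') := by ring
    rw [h1, map_mul, ← hz, ← hz', smul_eq_mul, Subring.coe_mul]
    ring

/-- **places with two parameters of different size**: the `a i` are specialised to `a0 i`, the
parameter `τ₁` to `0`, and all quotients `τ₂ / τ₁ ^ l` to `0`.

Proof (as in `S.exists_place_multi`). Let `A` be the subring of `ℂ` generated by `K₀`, the `a i`,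
`τ₁` and all `τ₂ / τ₁ ^ l`, and `𝔞` its ideal generated by the `a i - a0 i`, `τ₁` and the
`τ₂ / τ₁ ^ l`. If `𝔞 ≠ ⊤`, then `Ideal.image_subset_nonunits_valuationSubring` and
`S.exists_place_of` give the place. For `𝔞 ≠ ⊤` one needs a ring homomorphism `A → K₀` which kills
`𝔞`: by algebraic independence the subring `K₀[a, τ₁, 1/τ₁][τ₂]` of `ℂ` is a polynomial ring in
`τ₂` over `K₀[a, τ₁, 1/τ₁]`, `A` is contained in its subring of the polynomials in `τ₂` whose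
coefficient at `τ₂ ^ 0` lies in `K₀[a, τ₁]`, and the homomorphism is: take this constant
coefficient, then substitute `a := a0`, `τ₁ := 0`. An alternative without localisations: every
element of `A` is `f / τ₁ ^ M` with `f ∈ K₀[a, τ₁, τ₂]`, where the part `f₀` of `f` without `τ₂`
is divisible by `τ₁ ^ M`; the homomorphism sends it to the value of `f₀ / τ₁ ^ M` at `a := a0`,
`τ₁ := 0`. Or: if `1 ∈ 𝔞`, a relation `1 = ∑ x_q y_q` with `y_q ∈ A`; multiply by a large power of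
`τ₁` and compare, in the polynomial ring `K₀[a, τ₁, τ₂]`, the terms without `τ₂`. -/
theorem exists_place_two (K₀ : Subfield ℂ) {ι : Type} {a a0 : ι → ℂ} {τ₁ τ₂ : ℂ}
    (ha : AlgebraicIndependent K₀ (Sum.elim a ![τ₁, τ₂])) (h0 : ∀ i, a0 i ∈ K₀) :
    ∃ p : Place, K₀ ≤ p.K ∧ (∀ i, ∃ h : a i ∈ p.B, p.ρ ⟨a i, h⟩ = a0 i) ∧
      (∃ h : τ₁ ∈ p.B, p.ρ ⟨τ₁, h⟩ = 0) ∧
      ∀ l : ℕ, ∃ h : τ₂ / τ₁ ^ l ∈ p.B, p.ρ ⟨τ₂ / τ₁ ^ l, h⟩ = 0 := by
  obtain ⟨φ, hφ⟩ : ∃ φ : MvPolynomial (ι ⊕ Fin 2) K₀ →+* ℂ,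
      φ = (aeval (Sum.elim a ![τ₁, τ₂]) : MvPolynomial (ι ⊕ Fin 2) K₀ →ₐ[K₀] ℂ) := ⟨_, rfl⟩
  have hinj : Function.Injective φ := by
    rw [hφ]
    exact ha
  have hφC : ∀ c : K₀, φ (C c) = c := by
    intro c
    rw [hφ]
    change aeval (Sum.elim a ![τ₁, τ₂]) (C c) = _
    rw [aeval_C]
    rfl
  have hφa : ∀ i, φ (X (Sum.inl i)) = a i := by
    intro i
    rw [hφ]
    change aeval (Sum.elim a ![τ₁, τ₂]) (X (Sum.inl i)) = _
    rw [aeval_X]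
    rfl
  have hφ1 : φ (X (Sum.inr 0)) = τ₁ := by
    rw [hφ]
    change aeval (Sum.elim a ![τ₁, τ₂]) (X (Sum.inr 0)) = _
    rw [aeval_X]
    rfl
  have hφ2 : φ (X (Sum.inr 1)) = τ₂ := by
    rw [hφ]
    change aeval (Sum.elim a ![τ₁, τ₂]) (X (Sum.inr 1)) = _
    rw [aeval_X]
    rfl
  have hτ : τ₁ ≠ 0 := by
    intro h
    rw [← hφ1] at h
    exact X_ne_zero _ (hinj (h.trans (map_zero φ).symm))
  -- the evaluation at the base point
  obtain ⟨ev, hev1, heva, ps, hps, h4, h5⟩ : ∃ ev : MvPolynomial (ι ⊕ Fin 2) K₀ →+* K₀,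
      ev (X (Sum.inr 0)) = 0 ∧ (∀ i, ev (X (Sum.inl i) - C (⟨a0 i, h0 i⟩ : K₀)) = 0) ∧
      ∃ ps : MvPolynomial (ι ⊕ Fin 2) K₀ →+* Polynomial K₀,
        (∀ g, Polynomial.eval 0 (ps g) = ev g) ∧ ps (X (Sum.inr 0)) = Polynomial.X ∧
        ps (X (Sum.inr 1)) = 0 := by
    refine ⟨((aeval (Sum.elim (fun i => (⟨a0 i, h0 i⟩ : K₀)) ![0, 0]) :
      MvPolynomial (ι ⊕ Fin 2) K₀ →ₐ[K₀] K₀) : MvPolynomial (ι ⊕ Fin 2) K₀ →+* K₀), ?_, ?_,
      ((aeval (Sum.elim (fun i => Polynomial.C (⟨a0 i, h0 i⟩ : K₀)) ![Polynomial.X, 0]) :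
      MvPolynomial (ι ⊕ Fin 2) K₀ →ₐ[K₀] Polynomial K₀) :
        MvPolynomial (ι ⊕ Fin 2) K₀ →+* Polynomial K₀), ?_, ?_, ?_⟩
    · change aeval _ (X (Sum.inr 0)) = _
      rw [aeval_X]
      rfl
    · intro i
      change aeval _ (X (Sum.inl i) - C (⟨a0 i, h0 i⟩ : K₀)) = _
      rw [map_sub, aeval_X, aeval_C]
      exact sub_self _
    · intro g
      have h1 : ((Polynomial.evalRingHom (0 : K₀)).comp
          ((aeval (Sum.elim (fun i => Polynomial.C (⟨a0 i, h0 i⟩ : K₀)) ![Polynomial.X, 0]) :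
          MvPolynomial (ι ⊕ Fin 2) K₀ →ₐ[K₀] Polynomial K₀) :
          MvPolynomial (ι ⊕ Fin 2) K₀ →+* Polynomial K₀)) =
          ((aeval (Sum.elim (fun i => (⟨a0 i, h0 i⟩ : K₀)) ![0, 0]) :
          MvPolynomial (ι ⊕ Fin 2) K₀ →ₐ[K₀] K₀) : MvPolynomial (ι ⊕ Fin 2) K₀ →+* K₀) := by
        apply MvPolynomial.ringHom_ext
        · intro c
          change Polynomial.eval 0 (aeval _ (C c)) = aeval _ (C c)
          rw [aeval_C, aeval_C, Polynomial.algebraMap_eq, Polynomial.eval_C]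
          rfl
        · intro i
          change Polynomial.eval 0 (aeval _ (X i)) = aeval _ (X i)
          rw [aeval_X, aeval_X]
          rcases i with i | i
          · exact Polynomial.eval_C
          · fin_cases i
            · exact Polynomial.eval_X
            · exact Polynomial.eval_zero
      rw [← h1]
      rfl
    · change aeval _ (X (Sum.inr 0)) = _
      rw [aeval_X]
      rfl
    · change aeval _ (X (Sum.inr 1)) = _
      rw [aeval_X]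
      rfl
  obtain ⟨B, hAB, hB⟩ := Ideal.image_subset_nonunits_valuationSubring (K := ℂ)
    (A := ptwoA φ (X (Sum.inr 0)) (X (Sum.inr 1)))
    (ptwoI φ (X (Sum.inr 0)) (X (Sum.inr 1)) ev) (by
      intro htop
      obtain ⟨M, g, h, h1, h2⟩ : (1 : ptwoA φ (X (Sum.inr 0)) (X (Sum.inr 1))) ∈
        ptwoI φ (X (Sum.inr 0)) (X (Sum.inr 1)) ev := (Ideal.eq_top_iff_one _).1 htop
      rw [Subring.coe_one, one_mul, ← map_pow] at h1
      have h3 := congrArg ps (hinj h1)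
      rw [map_add, map_mul, map_mul, map_pow] at h3
      rw [h4, h5, zero_mul, add_zero] at h3
      have h6 : ps g = 1 := by
        have h7 : (Polynomial.X : Polynomial K₀) ^ M * 1 = Polynomial.X ^ M * ps g := by
          rw [mul_one]
          exact h3
        exact (mul_left_cancel₀ (pow_ne_zero M Polynomial.X_ne_zero) h7).symm
      have h8 := hps g
      rw [h6, h2, Polynomial.eval_one] at h8
      exact one_ne_zero h8)
  have hcA : ∀ c ∈ K₀, c ∈ ptwoA φ (X (Sum.inr 0)) (X (Sum.inr 1)) := by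
    intro c hc
    refine ⟨0, C ⟨c, hc⟩, 0, ?_⟩
    rw [mul_zero, add_zero, pow_zero, pow_zero, one_mul, mul_one, hφC]
  have hK₀B : (K₀ : Set ℂ) ⊆ B := fun x hx => hAB (hcA x hx)
  obtain ⟨p, hp, hpK⟩ := exists_place_of B K₀ hK₀B
  subst hp
  -- the general rule
  have key : ∀ (z c : ℂ) (M : ℕ) (g h : MvPolynomial (ι ⊕ Fin 2) K₀), c ∈ K₀ → ev g = 0 →
      (z - c) * φ (X (Sum.inr 0)) ^ M = φ (X (Sum.inr 0) ^ M * g + X (Sum.inr 1) * h) →
      ∃ h : z ∈ p.B, p.ρ ⟨z, h⟩ = c := by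
    intro z c M g h hc hg hz
    have h1 : z - c ∈ ptwoA φ (X (Sum.inr 0)) (X (Sum.inr 1)) := ⟨M, g, h, hz⟩
    have h2 : z - c ∈ p.B.nonunits := hB ⟨⟨z - c, h1⟩, ⟨M, g, h, hz, hg⟩, rfl⟩
    have h3 : z ∈ p.B := by
      have h4 := p.B.add_mem _ _ (hAB h1) (hAB (hcA c hc))
      rwa [sub_add_cancel] at h4
    refine ⟨h3, ?_⟩
    have h4 := p.id c (hpK hc)
    have h5 : p.ρ (⟨z, h3⟩ - ⟨c, p.le _ (hpK hc)⟩) = 0 := by
      rw [p.ker]
      exact p.B.coe_mem_nonunits_iff.1 h2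
    rw [map_sub, h4, sub_eq_zero] at h5
    exact h5
  refine ⟨p, hpK, fun i => ?_, ?_, fun l => ?_⟩
  · refine key (a i) (a0 i) 0 (X (Sum.inl i) - C ⟨a0 i, h0 i⟩) 0 (h0 i) (heva i) ?_
    rw [mul_zero, add_zero, pow_zero, pow_zero, one_mul, mul_one, map_sub, hφa, hφC]
  · refine key τ₁ 0 0 (X (Sum.inr 0)) 0 K₀.zero_mem hev1 ?_
    rw [mul_zero, add_zero, pow_zero, pow_zero, one_mul, mul_one, hφ1, sub_zero]
  · refine key (τ₂ / τ₁ ^ l) 0 l 0 1 K₀.zero_mem (map_zero ev) ?_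
    rw [mul_zero, zero_add, mul_one, hφ1, hφ2, sub_zero, div_mul_cancel₀ _ (pow_ne_zero l hτ)]

end Pool.Agent.Lib.MP_ed661f_ag.V
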