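import Pool.Agent.Lib.MP_ed661f_ag.V.Pt2
import Pool.Agent.Lib.MP_ed661f_ag.V.CycB

/-!
The points and germs of the scaled surface exist.
-/

set_option autoImplicit false

open MvPolynomial

namespace Pool.Agent.Lib.MP_ed661f_ag.V

open Pool.Agent.Lib.MP_ed661f_ag.H Pool.Agent.Lib.MP_ed661f_ag.S

private theorem Pt2B_map {n : ℕ} (p : Place) (φ : p.B →+* ℂ) (Q : MvPolynomial (Fin n) p.B)
    (g : Fin n → MvPowerSeries (Fin 2) p.B) :
    aeval (fun j => MvPowerSeries.map φ (g j)) (map φ Q) = MvPowerSeries.map φ (aeval g Q) := by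
  induction Q using MvPolynomial.induction_on with
  | C a =>
    rw [map_C, aeval_C, aeval_C]
    change MvPowerSeries.C (φ a) = MvPowerSeries.map φ (MvPowerSeries.C a)
    rw [MvPowerSeries.map_C]
  | add P Q hP hQ => rw [map_add, map_add, hP, hQ, map_add, map_add]
  | mul_X P i hP => rw [map_mul, map_mul, hP, map_X, aeval_X, map_mul, aeval_X, map_mul]

private theorem Pt2B_const {n : ℕ} (Q : MvPolynomial (Fin n) ℂ)
    (g : Fin n → MvPowerSeries (Fin 2) ℂ) :
    MvPowerSeries.constantCoeff (aeval g Q) =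
      eval (fun j => MvPowerSeries.constantCoeff (g j)) Q := by
  induction Q using MvPolynomial.induction_on with
  | C a =>
    rw [aeval_C, eval_C]
    change MvPowerSeries.constantCoeff (MvPowerSeries.C a) = a
    rw [MvPowerSeries.constantCoeff_C]
  | add P Q hP hQ => rw [map_add, map_add, hP, hQ, map_add]
  | mul_X P i hP => rw [map_mul, map_mul, hP, map_mul, aeval_X, eval_X]

private theorem Pt2B_eval {n : ℕ} (p : Place) (Q : MvPolynomial (Fin n) p.B) (g : Fin n → p.B)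
    (g' : Fin n → ℂ) (h : ∀ i, p.ρ (g i) = g' i) : p.ρ (eval g Q) = eval g' (map p.ρ Q) := by
  induction Q using MvPolynomial.induction_on with
  | C a => rw [map_C, eval_C, eval_C]
  | add P Q hP hQ => rw [map_add, map_add, hP, hQ, map_add, map_add]
  | mul_X P i hP => rw [map_mul, map_mul, hP, map_mul, map_X, map_mul, eval_X, eval_X, h]

/-- **the points and germs exist**.

Proof. Let `PB` be the lift of `P` (`exists_liftB`), `s`, `t`, `z` the elements of `p.B` with values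
`v 1`, `v 2`, `v 3` (in `p.K`, so `p.ρ` is the identity on them). By `cyc_deriv`,
`GB(1, s, z, t ^ e)` reduces to `G0(1, v 1, v 3, v 2 ^ e) = 0`, and the derivative to a nonzero
number. Use `germ2` with `t ^ e` in place of `t`, `σ₁ = C s + X 0`, `σ₃ = (C t + X 1) ^ e`. It
remains to show `hF`: the reduction of `hG` is
`G0(1, C (v 1) + X 0, map p.ρ ξ, (C (v 2) + X 1) ^ e) = 0`, which by `cyc_aeval` is the product of the
`F(1, C (v 1) + X 0, ω (C (v 2) + X 1), map p.ρ ξ)`; for `ω ≠ 1` the constant coefficient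
`F(1, v 1, ω v 2, v 3)` is not zero, and `ℂ[[S,T]]` is a domain, so the factor with `ω = 1`, which is
`chi p v ξ F`, is zero. -/
theorem exists_pt2 (p : Place) {τ₁ τ₂ : p.B} (h1 : p.ρ τ₁ = 0) (h2 : p.ρ τ₂ = 0) {e : ℕ}
    (he : 1 ≤ e) {P : Poly 4} (hPK : ∀ α, coeff α P ∈ p.K) (hP0 : eval ![1, 0, 0, 0, 0] P = 0)
    (hP4 : eval ![1, 0, 0, 0, 0] (pderiv 4 P) ≠ 0) {F G0 : Poly 3} {v : Fin 4 → ℂ}
    (h0 : v 0 = 1) (hvK : ∀ j, v j ∈ p.K) (hF : eval v F = 0) (h3 : eval v (pderiv 3 F) ≠ 0)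
    (hω : ∀ ω : ℂ, ω ^ e = 1 → ω ≠ 1 → eval ![1, v 1, ω * v 2, v 3] F ≠ 0)
    (hG0 : (aeval ![1, X 1, X 3, X 2 ^ e] G0 : Poly 3) =
      ∏ ω ∈ Polynomial.nthRootsFinset e (1 : ℂ), aeval ![1, X 1, C ω * X 2, X 3] F)
    {GB : MvPolynomial (Fin 4) p.B} (hGB : map p.ρ GB = G0) :
    ∃ (s t : p.B) (ξ y : MvPowerSeries (Fin 2) p.B), Pt2 p τ₁ τ₂ e P GB F v s t ξ y := by
  classical
  obtain ⟨PB, hPB, hPB', -⟩ := exists_liftB p hPK
  obtain ⟨s, hs⟩ : ∃ s : p.B, s = ⟨v 1, p.le _ (hvK 1)⟩ := ⟨_, rfl⟩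
  obtain ⟨t, ht⟩ : ∃ t : p.B, t = ⟨v 2, p.le _ (hvK 2)⟩ := ⟨_, rfl⟩
  obtain ⟨z, hz⟩ : ∃ z : p.B, z = ⟨v 3, p.le _ (hvK 3)⟩ := ⟨_, rfl⟩
  have hρs : p.ρ s = v 1 := by rw [hs]; exact p.id _ (hvK 1)
  have hρt : p.ρ t = v 2 := by rw [ht]; exact p.id _ (hvK 2)
  have hρz : p.ρ z = v 3 := by rw [hz]; exact p.id _ (hvK 3)
  obtain ⟨hc1, hc2⟩ := cyc_deriv he h0 hF h3 hω hG0
  have hv1 : ∀ i, p.ρ ((![1, s, z, t ^ e] : Fin 4 → p.B) i) = ![1, v 1, v 3, v 2 ^ e] i := by
    intro i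
    fin_cases i
    · exact map_one _
    · exact hρs
    · exact hρz
    · change p.ρ (t ^ e) = v 2 ^ e
      rw [map_pow, hρt]
  have hv2 : ∀ i, p.ρ ((![1, 0, 0, 0, 0] : Fin 5 → p.B) i) = ![1, 0, 0, 0, 0] i := by
    intro i
    fin_cases i
    · exact map_one _
    · exact map_zero _
    · exact map_zero _
    · exact map_zero _
    · exact map_zero _
  obtain ⟨ξ, y, hξ, hy, e1, e2⟩ := germ2 p h1 h2 (PB := PB) (GB := GB) (s := s) (t := t ^ e)
    (z := z) (by rw [Pt2B_eval p GB _ _ hv1, hGB, hc1])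
    (by rw [Pt2B_eval p _ _ _ hv1, ← pderiv_map, hGB]; exact hc2)
    (by rw [Pt2B_eval p PB _ _ hv2, hPB', hP0])
    (by rw [Pt2B_eval p _ _ _ hv2, ← pderiv_map, hPB']; exact hP4)
    (σ₁ := MvPowerSeries.C s + MvPowerSeries.X 0)
    (σ₃ := (MvPowerSeries.C t + MvPowerSeries.X 1) ^ e)
    (by rw [map_add, MvPowerSeries.constantCoeff_C, MvPowerSeries.constantCoeff_X, add_zero])
    (by rw [map_pow, map_add, MvPowerSeries.constantCoeff_C, MvPowerSeries.constantCoeff_X,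
      add_zero])
  refine ⟨s, t, ξ, y, ⟨by rw [hs], by rw [ht], e1, hy, by rw [hξ, hρz], ?_, ?_⟩⟩
  · unfold psi
    rw [← hPB, Pt2B_map p p.B.subtype PB (crd p τ₁ τ₂ e s t ξ y)]
    unfold crd
    rw [e2, map_zero]
  · have e3 : aeval (fun j => MvPowerSeries.map p.ρ ((![1,
        MvPowerSeries.C s + MvPowerSeries.X 0, ξ,
        (MvPowerSeries.C t + MvPowerSeries.X 1) ^ e] : Fin 4 → MvPowerSeries (Fin 2) p.B) j))
        (map p.ρ GB) = 0 := by
      rw [Pt2B_map, e1, map_zero]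
    have e4 : (fun j => MvPowerSeries.map p.ρ ((![1, MvPowerSeries.C s + MvPowerSeries.X 0, ξ,
        (MvPowerSeries.C t + MvPowerSeries.X 1) ^ e] : Fin 4 → MvPowerSeries (Fin 2) p.B) j)) =
        ![1, MvPowerSeries.C (v 1) + MvPowerSeries.X 0, MvPowerSeries.map p.ρ ξ,
          (MvPowerSeries.C (v 2) + MvPowerSeries.X 1) ^ e] := by
      funext j
      fin_cases j
      · exact map_one _
      · change MvPowerSeries.map p.ρ (MvPowerSeries.C s + MvPowerSeries.X 0) =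
          MvPowerSeries.C (v 1) + MvPowerSeries.X 0
        rw [map_add, MvPowerSeries.map_C, MvPowerSeries.map_X, hρs]
      · rfl
      · change MvPowerSeries.map p.ρ ((MvPowerSeries.C t + MvPowerSeries.X 1) ^ e) =
          (MvPowerSeries.C (v 2) + MvPowerSeries.X 1) ^ e
        rw [map_pow, map_add, MvPowerSeries.map_C, MvPowerSeries.map_X, hρt]
    rw [e4, hGB, cyc_aeval hG0, Finset.prod_eq_zero_iff] at e3
    obtain ⟨ω, hω1, hω2⟩ := e3
    have hω3 : ω ^ e = 1 := (Polynomial.mem_nthRootsFinset (by omega) _).1 hω1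
    by_cases h1ω : ω = 1
    · rw [h1ω, map_one, one_mul] at hω2
      exact hω2
    · exfalso
      have e5 := congrArg MvPowerSeries.constantCoeff hω2
      rw [Pt2B_const, map_zero] at e5
      refine hω ω hω3 h1ω ?_
      rw [← e5]
      congr 2
      funext j
      fin_cases j
      · exact (map_one _).symm
      · change v 1 = MvPowerSeries.constantCoeff (MvPowerSeries.C (v 1) + MvPowerSeries.X 0)
        rw [map_add, MvPowerSeries.constantCoeff_C, MvPowerSeries.constantCoeff_X, add_zero]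
      · change ω * v 2 = MvPowerSeries.constantCoeff
          (MvPowerSeries.C ω * (MvPowerSeries.C (v 2) + MvPowerSeries.X 1))
        rw [map_mul, map_add, MvPowerSeries.constantCoeff_C, MvPowerSeries.constantCoeff_C,
          MvPowerSeries.constantCoeff_X, add_zero]
      · change v 3 = MvPowerSeries.constantCoeff (MvPowerSeries.map p.ρ ξ)
        rw [MvPowerSeries.constantCoeff_map, hξ, hρz]

end Pool.Agent.Lib.MP_ed661f_ag.V
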