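import Pool.Agent.Lib.MP_ed661f_ag.V.Core2
import Pool.Agent.Lib.MP_ed661f_ag.V.PlaceTwo
import Pool.Agent.Lib.MP_ed661f_ag.V.Fml
import Pool.Agent.Lib.MP_ed661f_ag.V.Pt2B
import Pool.Agent.Lib.MP_ed661f_ag.V.IndepScale

/-!
A very general form in the first four variables with the inequality for forms on `P = G = 0`.
-/

set_option autoImplicit false

open MvPolynomial

namespace Pool.Agent.Lib.MP_ed661f_ag.V

open Pool.Agent.Lib.MP_ed661f_ag.H Pool.Agent.Lib.MP_ed661f_ag.S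

private theorem g1_mon (τ₁ τ₂ : ℂ) (u : Fin 4 →₀ ℕ) (a : ℂ) :
    unsc τ₁ τ₂ (monomial u a) = monomial u (a * (τ₁⁻¹ ^ u 1 * τ₂⁻¹ ^ (u 2 + u 3))) := by
  unfold unsc
  rw [aeval_monomial, monomial_eq, Finsupp.prod_fintype _ _ (fun i => pow_zero _),
    Finsupp.prod_fintype _ _ (fun i => pow_zero _), Fin.prod_univ_four, Fin.prod_univ_four]
  simp only [Matrix.cons_val_zero, Matrix.cons_val_one, Matrix.cons_val, map_mul, map_pow,
    algebraMap_eq]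
  ring

/-- the coefficients after the scaling -/
private theorem g1_coeff (τ₁ τ₂ : ℂ) (Q : Poly 3) (γ : Fin 4 →₀ ℕ) :
    coeff γ (unsc τ₁ τ₂ Q) = coeff γ Q * (τ₁⁻¹ ^ γ 1 * τ₂⁻¹ ^ (γ 2 + γ 3)) := by
  classical
  induction Q using MvPolynomial.induction_on' with
  | monomial u a =>
    rw [g1_mon, coeff_monomial, coeff_monomial]
    by_cases h : u = γ
    · rw [if_pos h, if_pos h, h]
    · rw [if_neg h, if_neg h, zero_mul]
  | add p q hp hq =>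
    rw [map_add, coeff_add, coeff_add, hp, hq, add_mul]

private theorem g1_hom (τ₁ τ₂ : ℂ) {m : ℕ} {Q : Poly 3} (hQ : Q.IsHomogeneous m) :
    (unsc τ₁ τ₂ Q).IsHomogeneous m := by
  intro γ hγ
  rw [g1_coeff] at hγ
  exact hQ (left_ne_zero_of_mul hγ)

/-- **a very general form with the inequality for forms**.

Proof. Let `F`, `v` be given by `exists_form` and `G0` by `exists_cyc`. Let `K₂` be the countable
field generated by `K`, the coefficients of `F` and `G0` and the coordinates of the `v i`. Let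
`u_γ` (`γ` an exponent of degree `m = e μ` in four variables), `τ₁`, `τ₂` be algebraically
independent over `K₂` (`S.Hn.exists_indep`). `exists_place_two` gives a place `p` with `K₂ ≤ p.K`,
`p.ρ u_γ = coeff γ G0`, `p.ρ τ₁ = 0`, `τ₂ = c τ₁ ^ l` with `p.ρ c = 0` for every `l`. Let
`GB = ∑ u_γ X^γ` over `p.B`, so `map p.ρ GB = G0`. By `exists_pt2` there are the germs, and the
points are `pnt ...`. Put `G1 = unsc τ₁ τ₂ (map p.B.subtype GB)`: its coefficient at `γ` is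
`u_γ τ₁ ^ (-γ 1) τ₂ ^ (-(γ 2 + γ 3))`, so `G1` is very general over `K₂`, hence over `K`
(`indep_scale`). The other claims are `Pt2.props` and `core2`. -/
theorem exists_G1 {e μ : ℕ} (he : 1 ≤ e) (hμ : 6 ≤ μ) (n : ℕ) {K : Subfield ℂ}
    (hKc : (K : Set ℂ).Countable) {P : Poly 4} (hP : P.IsHomogeneous e)
    (hc : coeff (Finsupp.single 4 e) P = 1) (hPK : ∀ α, coeff α P ∈ K)
    (hP0 : eval ![1, 0, 0, 0, 0] P = 0) (hP4 : eval ![1, 0, 0, 0, 0] (pderiv 4 P) ≠ 0)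
    {θ : PowerSeries ℂ} (hθK : ∀ j, PowerSeries.coeff j θ ∈ K) (hB : Branch e P θ)
    {E : ℕ → Finset ℕ} {b : ℕ → ℕ → Poly 4} (hE : Ech e θ E b)
    (hbK : ∀ d l α, coeff α (b d l) ∈ K) :
    ∃ (G1 : Poly 3) (v : Fin n → Fin 5 → ℂ), VeryGeneralOver K (e * μ) G1 ∧
      (∀ i, v i 0 = 1) ∧ (∀ i, eval (v i) P = 0) ∧ (∀ i, eval (v i) (inc4 G1) = 0) ∧
      (∀ i, eval (v i) (pderiv 2 (inc4 G1)) ≠ 0) ∧
      (∀ f : Poly 4, (∀ α, coeff α f ∈ K) → eval ![1, 0, 0, 0, 0] f ≠ 0 →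
        ∀ i, eval (v i) f ≠ 0) ∧
      FIJ (e * (e * μ)) (Ideal.span {P, inc4 G1}) (X 0) v := by
  classical
  obtain ⟨F, v, hFh, hirr, hF3, hv0, hv, hv3, hω, hFI⟩ := exists_form (μ := μ) e he hμ n
  obtain ⟨G0, hG0h, hG02, hG0⟩ := exists_cyc he hFh hF3
  -- the countable field
  obtain ⟨s, hs⟩ : ∃ s : Set ℂ, s = (K : Set ℂ) ∪ (Set.range (fun α => coeff α F) ∪
      (Set.range (fun α => coeff α G0) ∪ Set.range (fun q : Fin n × Fin 4 => v q.1 q.2))) :=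
    ⟨_, rfl⟩
  have hsc : s.Countable := by
    rw [hs]
    exact hKc.union ((Set.countable_range _).union ((Set.countable_range _).union
      (Set.countable_range _)))
  have hK2c : Countable (Subfield.closure s) := Hn.countable_closure s hsc
  have hsub : s ⊆ Subfield.closure s := Subfield.subset_closure
  have hK : K ≤ Subfield.closure s := fun t ht => hsub (by rw [hs]; exact Or.inl ht)
  have hG0K : ∀ α, coeff α G0 ∈ Subfield.closure s := fun α =>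
    hsub (by rw [hs]; exact Or.inr (Or.inr (Or.inl ⟨α, rfl⟩)))
  have hvK2 : ∀ i j, v i j ∈ Subfield.closure s := fun i j =>
    hsub (by rw [hs]; exact Or.inr (Or.inr (Or.inr ⟨(i, j), rfl⟩)))
  -- the parameters
  obtain ⟨A, hA⟩ := Hn.exists_indep (Subfield.closure s) (Hn.Ex (e * μ) ⊕ Fin 2)
  obtain ⟨u, hu⟩ : ∃ u : Hn.Ex (e * μ) → ℂ, u = fun γ => A (Sum.inl γ) := ⟨_, rfl⟩
  obtain ⟨τ₁, hτ₁⟩ : ∃ τ₁, τ₁ = A (Sum.inr 0) := ⟨_, rfl⟩
  obtain ⟨τ₂, hτ₂⟩ : ∃ τ₂, τ₂ = A (Sum.inr 1) := ⟨_, rfl⟩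
  have hAe : A = Sum.elim u ![τ₁, τ₂] := by
    funext x
    rcases x with γ | j
    · rw [hu]
      rfl
    · fin_cases j
      · exact hτ₁.symm
      · exact hτ₂.symm
  have hτ₁0 : τ₁ ≠ 0 := by
    rw [hτ₁]
    exact hA.ne_zero _
  have hτ₂0 : τ₂ ≠ 0 := by
    rw [hτ₂]
    exact hA.ne_zero _
  rw [hAe] at hA
  obtain ⟨p, hpK, hpa, ⟨hb1, hr1⟩, hl⟩ := exists_place_two (Subfield.closure s)
    (a0 := fun γ : Hn.Ex (e * μ) => coeff γ.1 G0) hA (fun γ => hG0K γ.1)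
  choose haB hρ using hpa
  have hb2 : τ₂ ∈ p.B ∧ ∀ h : τ₂ ∈ p.B, p.ρ ⟨τ₂, h⟩ = 0 := by
    obtain ⟨h, hh⟩ := hl 0
    have h1 : τ₂ / τ₁ ^ 0 = τ₂ := by rw [pow_zero, div_one]
    refine ⟨h1 ▸ h, fun h2 => ?_⟩
    rw [← hh]
    exact congrArg p.ρ (Subtype.ext h1.symm)
  obtain ⟨GB, hGBh, hGBc⟩ := Hn.exists_form (fun γ : Hn.Ex (e * μ) => (⟨u γ, haB γ⟩ : p.B))
  have hred : map p.ρ GB = G0 := by
    refine Hn.form_ext (hGBh.map _) hG0h fun γ => ?_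
    rw [coeff_map, hGBc, hρ]
  obtain ⟨T₁, hT₁⟩ : ∃ T₁ : p.B, T₁ = ⟨τ₁, hb1⟩ := ⟨_, rfl⟩
  obtain ⟨T₂, hT₂⟩ : ∃ T₂ : p.B, T₂ = ⟨τ₂, hb2.1⟩ := ⟨_, rfl⟩
  have h1 : p.ρ T₁ = 0 := by rw [hT₁]; exact hr1
  have h2 : p.ρ T₂ = 0 := by rw [hT₂]; exact hb2.2 _
  have c1 : (T₁ : ℂ) = τ₁ := by rw [hT₁]
  have c2 : (T₂ : ℂ) = τ₂ := by rw [hT₂]
  have h2' : ∀ l : ℕ, ∃ c : p.B, p.ρ c = 0 ∧ T₂ = c * T₁ ^ l := by
    intro l
    obtain ⟨h, hh⟩ := hl l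
    refine ⟨⟨τ₂ / τ₁ ^ l, h⟩, hh, Subtype.ext ?_⟩
    have h3 : τ₂ = τ₂ / τ₁ ^ l * τ₁ ^ l := (div_mul_cancel₀ _ (pow_ne_zero _ hτ₁0)).symm
    change (T₂ : ℂ) = τ₂ / τ₁ ^ l * (T₁ : ℂ) ^ l
    rw [c1, c2]
    exact h3
  have hPK' : ∀ α, coeff α P ∈ p.K := fun α => hpK (hK (hPK α))
  have hvK : ∀ i j, v i j ∈ p.K := fun i j => hpK (hvK2 i j)
  have hpt : ∀ i, ∃ (s t : p.B) (ξ y : MvPowerSeries (Fin 2) p.B),
      Pt2 p T₁ T₂ e P GB F (v i) s t ξ y := fun i =>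
    exists_pt2 p h1 h2 he hPK' hP0 hP4 (hv0 i) (hvK i) (hv i) (hv3 i) (hω i) hG0 hred
  choose a t ξ y hpt using hpt
  have hprops := fun i => Pt2.props h1 h2 (by rw [c1]; exact hτ₁0) (by rw [c2]; exact hτ₂0) he
    (hv0 i) (hvK i) (hv i) (hv3 i) (hω i) hG0 hred (hpt i)
  have hcore := core2 h1 h2' (by rw [c1]; exact hτ₁0) (by rw [c2]; exact hτ₂0) he hP hc hPK' hP4
    (fun j => hpK (hK (hθK j))) hB hE (fun d l α => hpK (hK (hbK d l α))) hFh hirr hF3 hv0 hvK hv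
    hv3 hω hFI hG0h hG02 hG0 hGBh hred hpt
  refine ⟨unsc T₁ T₂ (map p.B.subtype GB), fun i => pnt p T₁ T₂ e (a i) (t i) (ξ i) (y i),
    ⟨g1_hom _ _ (hGBh.map _), ?_⟩, fun i => (hprops i).1, fun i => ?_, fun i => ?_, fun i =>
    (hprops i).2.2.2.2.1, fun f hf hf0 i => (hprops i).2.2.2.2.2 f
      (fun α => hpK (hK (hf α))) hf0, hcore⟩
  · have h3 := indep_scale hA (fun γ => γ.1 1) (fun γ => γ.1 2 + γ.1 3)
    let _ : Algebra K (Subfield.closure s) := (Subfield.inclusion hK).toAlgebra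
    have : IsScalarTower K (Subfield.closure s) ℂ := IsScalarTower.of_algebraMap_eq fun t => rfl
    have h4 : AlgebraicIndependent K
        (fun γ : Hn.Ex (e * μ) => u γ * (τ₁⁻¹ ^ γ.1 1 * τ₂⁻¹ ^ (γ.1 2 + γ.1 3))) :=
      h3.restrictScalars (algebraMap K (Subfield.closure s)).injective
    have h5 : (fun α : {α : Fin (3 + 1) →₀ ℕ // α.degree = e * μ} =>
        coeff α.1 (unsc T₁ T₂ (map p.B.subtype GB))) =
        fun γ : Hn.Ex (e * μ) => u γ * (τ₁⁻¹ ^ γ.1 1 * τ₂⁻¹ ^ (γ.1 2 + γ.1 3)) := by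
      funext γ
      rw [g1_coeff, coeff_map, hGBc, c1, c2]
      rfl
    rw [h5]
    exact h4
  · have h3 := (hprops i).2.1 P
    rw [(hprops i).2.2.1, map_zero] at h3
    exact h3.symm
  · have h3 := (hprops i).2.1 (inc4 (unsc T₁ T₂ (map p.B.subtype GB)))
    rw [(hprops i).2.2.2.1, map_zero] at h3
    exact h3.symm

end Pool.Agent.Lib.MP_ed661f_ag.V
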