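import Pool.Agent.Lib.MP_ed661f_ag.V.ConvP

/-!
The inequality for forms on `P = G1 = 0`, in terms of germs.
-/

set_option autoImplicit false

open MvPolynomial

namespace Pool.Agent.Lib.MP_ed661f_ag.V

open Pool.Agent.Lib.MP_ed661f_ag.H

private theorem pderiv_inc4_gfiP4 (G : Poly 3) : pderiv 4 (inc4 G) = 0 := by
  induction G using MvPolynomial.induction_on with
  | C a =>
    rw [inc4, rename_C, pderiv_C]
  | add p q hp hq => rw [map_add, map_add, hp, hq, add_zero]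
  | mul_X p i hp =>
    rw [map_mul, Derivation.leibniz, hp, smul_zero, add_zero]
    have h : pderiv 4 (inc4 (X i)) = 0 := by
      rw [inc4, rename_X, pderiv_X_of_ne]
      fin_cases i <;> decide
    rw [h, smul_zero]

/-- Proof. `conv_P4` with `G = inc4 G1` (`pderiv 4 (inc4 G1) = 0`), `φ = aeval (ε i)`; its constant
coefficient is the evaluation at `v i`. -/
theorem gfi_of_fij {n D : ℕ} {P : Poly 4} {G1 : Poly 3} {v : Fin n → Fin 5 → ℂ}
    (h0 : ∀ i, v i 0 = 1) (hP : ∀ i, eval (v i) P = 0) (hG : ∀ i, eval (v i) (inc4 G1) = 0)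
    (hP4 : ∀ i, eval (v i) (pderiv 4 P) ≠ 0) (hG2 : ∀ i, eval (v i) (pderiv 2 (inc4 G1)) ≠ 0)
    (hFI : FIJ D (Ideal.span {P, inc4 G1}) (X 0) v)
    {ε : Fin n → Fin 5 → MvPowerSeries (Fin 2) ℂ} (εP : ∀ i, aeval (ε i) P = 0)
    (εG : ∀ i, aeval (ε i) (inc4 G1) = 0) (ε0 : ∀ i, ε i 0 = 1)
    (ε1 : ∀ i, ε i 1 = MvPowerSeries.C (v i 1) + MvPowerSeries.X 0)
    (ε3 : ∀ i, ε i 3 = MvPowerSeries.C (v i 3) + MvPowerSeries.X 1)
    (εc : ∀ i j, MvPowerSeries.constantCoeff (ε i j) = v i j) :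
    GFI D (Ideal.span {P, inc4 G1}) (fun i => aeval (ε i)) := by
  intro k w Q hQ hvan hlt
  refine hFI k w Q hQ (fun i => ?_) hlt
  have hconst : ∀ R : Poly 4, MvPowerSeries.constantCoeff (aeval (ε i) R) = eval (v i) R := by
    intro R
    have h : (MvPowerSeries.constantCoeff (σ := Fin 2) (R := ℂ)).comp
        (aeval (ε i) : Poly 4 →ₐ[ℂ] MvPowerSeries (Fin 2) ℂ).toRingHom = eval (v i) := by
      apply MvPolynomial.ringHom_ext
      · intro a
        have h1 : (aeval (ε i) : Poly 4 →ₐ[ℂ] MvPowerSeries (Fin 2) ℂ) (C a) =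
            MvPowerSeries.C a := (aeval (ε i) : Poly 4 →ₐ[ℂ] MvPowerSeries (Fin 2) ℂ).commutes a
        change MvPowerSeries.constantCoeff
          ((aeval (ε i) : Poly 4 →ₐ[ℂ] MvPowerSeries (Fin 2) ℂ) (C a)) = eval (v i) (C a)
        rw [h1, MvPowerSeries.constantCoeff_C, eval_C]
      · intro j
        change MvPowerSeries.constantCoeff
          ((aeval (ε i) : Poly 4 →ₐ[ℂ] MvPowerSeries (Fin 2) ℂ) (X j)) = eval (v i) (X j)
        rw [aeval_X, εc, eval_X]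
    exact congrArg (fun φ => φ R) h
  exact conv_P4 (φ := aeval (ε i)) (h0 i) (hP i) (hG i) (pderiv_inc4_gfiP4 G1) (hP4 i) (hG2 i)
    (εP i) (εG i) hconst (by rw [aeval_X, ε0]) (by rw [aeval_X, ε1]) (by rw [aeval_X, ε3])
    (hvan i)

end Pool.Agent.Lib.MP_ed661f_ag.V
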