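import Pool.Agent.Lib.MP_ed661f_ag.V.HilbA
import Pool.Agent.Lib.MP_ed661f_ag.S.SDeg
import Pool.Agent.Lib.MP_ed661f_ag.H.Degrees

/-!
The Hilbert function of a complete intersection in the space of dimension four, from below.
-/

set_option autoImplicit false

open MvPolynomial Filter
open scoped ENNReal

namespace Pool.Agent.Lib.MP_ed661f_ag.V

open Pool.Agent.Lib.MP_ed661f_ag.H

private theorem hci_comp {N : ℕ} {F : Poly N} {κ : ℕ} (hF : F.IsHomogeneous κ) (G : Poly N)
    (k : ℕ) : homogeneousComponent k (F * G) = F * ∑ i ∈ Finset.range (G.totalDegree + 1),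
      if κ + i = k then homogeneousComponent i G else 0 := by
  conv_lhs => rw [← sum_homogeneousComponent G]
  rw [Finset.mul_sum, map_sum, Finset.mul_sum]
  refine Finset.sum_congr rfl fun i _ => ?_
  have h1 : F * homogeneousComponent i G ∈ homogeneousSubmodule (Fin (N + 1)) ℂ (κ + i) :=
    hF.mul (homogeneousComponent_isHomogeneous i G)
  rw [homogeneousComponent_of_mem h1]
  by_cases h : κ + i = k
  · rw [if_pos h, if_pos h.symm]
  · rw [if_neg h, if_neg (fun h' => h h'.symm), mul_zero]

private theorem hci_comp' {N : ℕ} {F : Poly N} {κ : ℕ} (hF : F.IsHomogeneous κ) (G : Poly N)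
    (j : ℕ) : homogeneousComponent (κ + j) (F * G) = F * homogeneousComponent j G := by
  rw [hci_comp hF]
  congr 1
  by_cases hj : j < G.totalDegree + 1
  · rw [Finset.sum_eq_single j]
    · rw [if_pos rfl]
    · intro i _ hi
      rw [if_neg]
      omega
    · intro h
      exact absurd (Finset.mem_range.2 hj) h
  · rw [homogeneousComponent_eq_zero _ _ (by omega)]
    refine Finset.sum_eq_zero fun i hi => ?_
    rw [if_neg]
    have := Finset.mem_range.1 hi
    omega

private theorem hci_span {N : ℕ} {F : Poly N} {κ : ℕ} (hF : F.IsHomogeneous κ) :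
    ∀ x ∈ Ideal.span {F}, ∀ k, homogeneousComponent k x ∈ Ideal.span {F} := by
  intro x hx k
  obtain ⟨c, rfl⟩ := Ideal.mem_span_singleton'.1 hx
  rw [mul_comm c F, hci_comp hF]
  exact Ideal.mul_mem_right _ _ (Ideal.mem_span_singleton_self F)

/-- the classes of the forms of degree `k` -/
private noncomputable def hciW {N : ℕ} (J : Ideal (Poly N)) (k : ℕ) : Submodule ℂ (Poly N ⧸ J) :=
  (homogeneousSubmodule (Fin (N + 1)) ℂ k).map (Ideal.Quotient.mkₐ ℂ J).toLinearMap

private theorem hci_finite {N : ℕ} (J : Ideal (Poly N)) (k : ℕ) :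
    Module.Finite ℂ (hciW J k) := by
  have := finite_formsN (N := N) k
  unfold hciW
  infer_instance

/-- adding a form to a homogeneous ideal -/
private theorem hci_le {N : ℕ} {J : Ideal (Poly N)}
    (hJ : ∀ x ∈ J, ∀ k, homogeneousComponent k x ∈ J) {F : Poly N} {κ : ℕ}
    (hF : F.IsHomogeneous κ) (j : ℕ) :
    hilb J (j + κ) ≤ hilb J j + hilb (J ⊔ Ideal.span {F}) (j + κ) := by
  have hle : J ≤ J ⊔ Ideal.span {F} := le_sup_left
  set π := (Ideal.Quotient.factorₐ ℂ hle).toLinearMap with hπ
  have hfin := hci_finite J (j + κ)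
  have hfin' := hci_finite J j
  have h1 := (π.domRestrict (hciW J (j + κ))).finrank_range_add_finrank_ker
  have h2 : LinearMap.range (π.domRestrict (hciW J (j + κ))) =
      hciW (J ⊔ Ideal.span {F}) (j + κ) := by
    rw [LinearMap.range_domRestrict, hπ]
    unfold hciW
    rw [← Submodule.map_comp]
    rfl
  have hmem : ∀ x ∈ hciW J j, Ideal.Quotient.mk J F * x ∈ hciW J (j + κ) := by
    rintro x ⟨G, hG, rfl⟩
    refine ⟨F * G, ?_, ?_⟩
    · have := hF.mul ((mem_homogeneousSubmodule _ _).1 hG)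
      rw [add_comm κ j] at this
      exact this
    · exact map_mul (Ideal.Quotient.mk J) F G
  let ψ : hciW J j →ₗ[ℂ] hciW J (j + κ) :=
    { toFun := fun x => ⟨Ideal.Quotient.mk J F * x, hmem x x.2⟩
      map_add' := by
        intro x y
        apply Subtype.ext
        exact mul_add (Ideal.Quotient.mk J F) (x : Poly N ⧸ J) y
      map_smul' := by
        intro c x
        apply Subtype.ext
        exact mul_smul_comm c (Ideal.Quotient.mk J F) (x : Poly N ⧸ J) }
  have hker : LinearMap.ker (π.domRestrict (hciW J (j + κ))) ≤ LinearMap.range ψ := by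
    rintro ⟨x, H, hH, rfl⟩ hk
    have h3 : Ideal.Quotient.mk (J ⊔ Ideal.span {F}) H = 0 := hk
    rw [Ideal.Quotient.eq_zero_iff_mem] at h3
    obtain ⟨p, hp, q, hq, hpq⟩ := Submodule.mem_sup.1 h3
    obtain ⟨c, hc⟩ := Ideal.mem_span_singleton'.1 hq
    have h4 : H = homogeneousComponent (κ + j) p + F * homogeneousComponent j c := by
      rw [← hci_comp' hF, ← map_add, mul_comm F c, hc, hpq,
        homogeneousComponent_of_mem (show H ∈ homogeneousSubmodule (Fin (N + 1)) ℂ (j + κ) from hH),
        if_pos (add_comm κ j)]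
    refine ⟨⟨Ideal.Quotient.mk J (homogeneousComponent j c),
      ⟨homogeneousComponent j c, homogeneousComponent_isHomogeneous j c, rfl⟩⟩, ?_⟩
    apply Subtype.ext
    change Ideal.Quotient.mk J F * Ideal.Quotient.mk J (homogeneousComponent j c) =
      Ideal.Quotient.mk J H
    rw [← map_mul]
    refine (Ideal.Quotient.eq.2 ?_).symm
    rw [h4, add_sub_cancel_right]
    exact hJ p hp _
  have h5 := (Submodule.finrank_mono hker).trans (LinearMap.finrank_range_le ψ)
  have e1 : hilb J j = Module.finrank ℂ (hciW J j) := rfl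
  have e2 : hilb J (j + κ) = Module.finrank ℂ (hciW J (j + κ)) := rfl
  have e3 : hilb (J ⊔ Ideal.span {F}) (j + κ) =
    Module.finrank ℂ (hciW (J ⊔ Ideal.span {F}) (j + κ)) := rfl
  rw [h2] at h1
  omega

/-- `(k+1)(k+2)(k+3)(k+4)/24` -/
private theorem hci_forms (k : ℕ) :
    (Module.finrank ℂ (homogeneousSubmodule (Fin 5) ℂ k) : ℝ) =
      ((k : ℝ) + 1) * (k + 2) * (k + 3) * (k + 4) / 24 := by
  rw [finrank_forms]
  have h1 : 5 + k - 1 = k + 4 := by omega
  have h2 := Nat.add_choose_mul_factorial_mul_factorial k 4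
  rw [h1, Nat.choose_symm_add]
  have h3 : ((k + 4).factorial : ℝ) =
      (k.factorial : ℝ) * ((k + 1) * (k + 2) * (k + 3) * (k + 4)) := by
    have : (k + 4).factorial = k.factorial * ((k + 1) * (k + 2) * (k + 3) * (k + 4)) := by
      rw [Nat.factorial_succ, Nat.factorial_succ, Nat.factorial_succ, Nat.factorial_succ]
      ring
    rw [this]
    push_cast
    ring
  have h4 : (((k + 4).choose 4 : ℕ) : ℝ) * (k.factorial : ℝ) * 24 = ((k + 4).factorial : ℝ) := by
    have h5 : (k + 4).choose 4 * k.factorial * 24 = (k + 4).factorial := by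
      rw [← h2]
      rfl
    exact_mod_cast h5
  have h6 : (k.factorial : ℝ) ≠ 0 := by exact_mod_cast k.factorial_ne_zero
  rw [h3] at h4
  field_simp
  have h7 : (k.factorial : ℝ) * ((((k + 4).choose 4 : ℕ) : ℝ) * 24) =
      (k.factorial : ℝ) * (((k : ℝ) + 1) * (k + 2) * (k + 3) * (k + 4)) := by
    linarith
  exact mul_left_cancel₀ h6 h7

/-- **the Hilbert function of `P = G = 0`, from below**.

Proof. For `k ≥ m`: `hilb (span {P, G}) k ≥ hilb (span {P}) k - hilb (span {P}) (k - m)`: the kernel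
of the map from the forms of degree `k` modulo `P` to the forms of degree `k` modulo `(P, G)` is the
image of the forms of degree `k - m` modulo `P` under multiplication by `G`. Now use `hilb_span4` and
`H.finrank_forms`: for `k ≥ e + m` the right hand side is the mixed second difference
`f(k) - f(k - e) - f(k - m) + f(k - e - m)` of `f(k) = (k + 4).choose 4`, a polynomial in `k` of
degree `2` with leading coefficient `e m / 2`. -/
theorem hilb_ci {e m : ℕ} {P G : Poly 4} (hP : P.IsHomogeneous e) (hP0 : P ≠ 0)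
    (hG : G.IsHomogeneous m) :
    ∃ c : ℕ, ∀ k : ℕ, e * m * k ^ 2 ≤ 2 * hilb (Ideal.span {P, G}) k + c * (k + 1) := by
  refine ⟨e * m * (e + m) ^ 2 + 3 * (e * m * (e + m)), fun k => ?_⟩
  by_cases hk : e + m ≤ k
  · obtain ⟨j, rfl⟩ : ∃ j, k = j + m := ⟨k - m, by omega⟩
    have h1 := hci_le (hci_span hP) hG j
    have h2 : Ideal.span {P} ⊔ Ideal.span {G} = Ideal.span {P, G} := by
      rw [← Ideal.span_union, Set.singleton_union]
    rw [h2] at h1
    have h3 := hilb_span4 hP hP0 (k := j + m) (by omega)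
    have h4 := hilb_span4 hP hP0 (k := j) (by omega)
    obtain ⟨i, rfl⟩ : ∃ i, j = i + e := ⟨j - e, by omega⟩
    have e1 : i + e + m - e = i + m := by omega
    have e2 : i + e - e = i := by omega
    rw [e1] at h3
    rw [e2] at h4
    have h1' : (hilb (Ideal.span {P}) (i + e + m) : ℝ) ≤ hilb (Ideal.span {P}) (i + e) +
        hilb (Ideal.span {P, G}) (i + e + m) := by exact_mod_cast h1
    have h3' : (hilb (Ideal.span {P}) (i + e + m) : ℝ) +
        (Module.finrank ℂ (homogeneousSubmodule (Fin 5) ℂ (i + m)) : ℕ) =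
        (Module.finrank ℂ (homogeneousSubmodule (Fin 5) ℂ (i + e + m)) : ℕ) := by
      exact_mod_cast h3
    have h4' : (hilb (Ideal.span {P}) (i + e) : ℝ) +
        (Module.finrank ℂ (homogeneousSubmodule (Fin 5) ℂ i) : ℕ) =
        (Module.finrank ℂ (homogeneousSubmodule (Fin 5) ℂ (i + e)) : ℕ) := by exact_mod_cast h4
    rw [hci_forms, hci_forms] at h3' h4'
    push_cast at h3' h4'
    have hi : (0 : ℝ) ≤ i := Nat.cast_nonneg _
    have he : (0 : ℝ) ≤ e := Nat.cast_nonneg _
    have hm : (0 : ℝ) ≤ m := Nat.cast_nonneg _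
    have key : ((e * m * (i + e + m) ^ 2 : ℕ) : ℝ) ≤
        ((2 * hilb (Ideal.span {P, G}) (i + e + m) +
          (e * m * (e + m) ^ 2 + 3 * (e * m * (e + m))) * (i + e + m + 1) : ℕ) : ℝ) := by
      push_cast
      have h5 : (hilb (Ideal.span {P}) (i + e + m) : ℝ) - hilb (Ideal.span {P}) (i + e) ≤
        hilb (Ideal.span {P, G}) (i + e + m) := by linarith
      have h6 : 2 * ((hilb (Ideal.span {P}) (i + e + m) : ℝ) - hilb (Ideal.span {P}) (i + e)) =
          e * m * (i + e + m : ℝ) ^ 2 + e * m * (5 - (e + m)) * (i + e + m) +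
            e * m * (4 * e ^ 2 + 6 * e * m + 4 * m ^ 2 - 30 * (e + m) + 70) / 12 := by
        linear_combination 2 * h3' - 2 * h4'
      have h7 : (0 : ℝ) ≤ e * m := by positivity
      have h8 : (e : ℝ) * m * (i + e + m : ℝ) ^ 2 -
          2 * ((hilb (Ideal.span {P}) (i + e + m) : ℝ) - hilb (Ideal.span {P}) (i + e)) ≤
          (e * m * (e + m) ^ 2 + 3 * (e * m * (e + m))) * (i + e + m + 1) := by
        rw [h6]
        have h9 : (0 : ℝ) ≤ (e * m : ℝ) * ((e + m) ^ 2 * (i + e + m + 1)) := by positivity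
        have h10 : (0 : ℝ) ≤ (e * m : ℝ) * ((e + m) * (i + e + m + 1)) := by positivity
        have h11 : (0 : ℝ) ≤ (e * m : ℝ) * (i + e + m) := by positivity
        have h12 : (0 : ℝ) ≤ (e * m : ℝ) * (4 * e ^ 2 + 6 * e * m + 4 * m ^ 2 + 70) := by
          positivity
        have h13 : (0 : ℝ) ≤ (e * m : ℝ) * ((e + m) * (i + e + m)) := by positivity
        have h14 : (0 : ℝ) ≤ (e * m : ℝ) * (e + m) := by positivity
        nlinarith
      linarith
    exact_mod_cast key
  · have h1 : k ≤ e + m := by omega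
    calc e * m * k ^ 2 ≤ e * m * (e + m) ^ 2 := Nat.mul_le_mul_left _ (Nat.pow_le_pow_left h1 2)
      _ ≤ (e * m * (e + m) ^ 2 + 3 * (e * m * (e + m))) * (k + 1) := by
        refine (Nat.le_add_right _ _).trans (Nat.le_mul_of_pos_right _ (Nat.succ_pos k))
      _ ≤ _ := Nat.le_add_left _ _

end Pool.Agent.Lib.MP_ed661f_ag.V
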