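import Pool.Agent.Lib.MP_ed661f_ag.V.Defs
import Pool.Agent.Lib.MP_ed661f_ag.H.Basis

/-!
Homogeneous ideals: sums and radicals.
-/

set_option autoImplicit false

open MvPolynomial

namespace Pool.Agent.Lib.MP_ed661f_ag.V

open Pool.Agent.Lib.MP_ed661f_ag.H

/-- Proof. `H.hc_mul` for the multiples of the form `G`. -/
theorem hom_sup_span {N m : ℕ} {I : Ideal (Poly N)}
    (hh : ∀ F ∈ I, ∀ k, homogeneousComponent k F ∈ I) {G : Poly N} (hG : G.IsHomogeneous m) :
    ∀ F ∈ I ⊔ Ideal.span {G}, ∀ k, homogeneousComponent k F ∈ I ⊔ Ideal.span {G} := by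
  intro F hF k
  obtain ⟨a, ha, b, hb, rfl⟩ := Submodule.mem_sup.1 hF
  obtain ⟨c, rfl⟩ := Ideal.mem_span_singleton'.1 hb
  rw [map_add, hc_mul c G hG k]
  refine Ideal.add_mem _ (Ideal.mem_sup_left (hh a ha k)) (Ideal.mem_sup_right ?_)
  split_ifs
  · exact Ideal.mul_mem_left _ _ (Ideal.mem_span_singleton_self G)
  · exact Ideal.zero_mem _

/-- the radical of a homogeneous ideal is homogeneous.

Proof. `Ideal.IsHomogeneous.radical` for the grading `homogeneousSubmodule (Fin (N + 1)) ℂ` and
`Ideal.IsHomogeneous` in terms of homogeneous components (`MvPolynomial.decomposition` ...); or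
directly: if `F ^ r ∈ J`, the component of largest degree of `F` has its `r`-th power in `J`,
subtract it and use induction on the degree. -/
theorem hom_radical {N : ℕ} {J : Ideal (Poly N)}
    (hh : ∀ F ∈ J, ∀ k, homogeneousComponent k F ∈ J) :
    ∀ F ∈ J.radical, ∀ k, homogeneousComponent k F ∈ J.radical := by
  let _ := MvPolynomial.gradedAlgebra (σ := Fin (N + 1)) (R := ℂ)
  have h1 : J.IsHomogeneous (homogeneousSubmodule (Fin (N + 1)) ℂ) := by
    intro i F hF
    have h2 := decomposition.decompose'_apply F i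
    have h3 : ((DirectSum.decompose (homogeneousSubmodule (Fin (N + 1)) ℂ) F i :
        homogeneousSubmodule (Fin (N + 1)) ℂ i) : Poly N) = homogeneousComponent i F := h2
    rw [h3]
    exact hh F hF i
  intro F hF k
  have h2 := h1.radical k hF
  have h3 : ((DirectSum.decompose (homogeneousSubmodule (Fin (N + 1)) ℂ) F k :
      homogeneousSubmodule (Fin (N + 1)) ℂ k) : Poly N) = homogeneousComponent k F :=
    decomposition.decompose'_apply F k
  rwa [h3] at h2

/-- two generators in the space of dimension four.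

Proof. `hom_sup_span` with `I = Ideal.span {P}`. -/
theorem hom_span_pair {a b : ℕ} {P G : Poly 4} (hP : P.IsHomogeneous a) (hG : G.IsHomogeneous b) :
    ∀ F ∈ Ideal.span {P, G}, ∀ k, homogeneousComponent k F ∈ Ideal.span {P, G} := by
  have h1 : ∀ F ∈ Ideal.span {P}, ∀ k, homogeneousComponent k F ∈ Ideal.span {P} := by
    intro F hF k
    obtain ⟨c, rfl⟩ := Ideal.mem_span_singleton'.1 hF
    rw [hc_mul c P hP k]
    split_ifs
    · exact Ideal.mul_mem_left _ _ (Ideal.mem_span_singleton_self P)
    · exact Ideal.zero_mem _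
  have h2 : Ideal.span {P, G} = Ideal.span {P} ⊔ Ideal.span {G} := Ideal.span_insert P {G}
  rw [h2]
  exact hom_sup_span h1 hG

end Pool.Agent.Lib.MP_ed661f_ag.V
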