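import Pool.Agent.Lib.MP_ed661f_ag.V.Rel
import Pool.Agent.Lib.MP_ed661f_ag.V.LatPoly
import Pool.Agent.Lib.MP_ed661f_ag.T.Global

/-!
The Hilbert function of the section of the threefold, from below.
-/

set_option autoImplicit false

open MvPolynomial

namespace Pool.Agent.Lib.MP_ed661f_ag.V

open Pool.Agent.Lib.MP_ed661f_ag.H Pool.Agent.Lib.MP_ed661f_ag.S

/-- the preimage of the radical under the projection is contained in the prime ideal `(P, G1)`.

Proof. Let `sub5 L T ^ r = i + sub5 L (inc4 G1) * A`, `i ∈ I`. Multiply by `σ = sub5 L (inc4 s)`,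
`σ A ≡ sub5 L A'` modulo `I` (`h.cond`): `sub5 L (inc4 s * T ^ r - inc4 G1 * A') ∈ I`, so
`inc4 s * T ^ r ∈ Ideal.span {P, inc4 G1}` by `h.hker`. -/
theorem mem_of_radical {N e q : ℕ} {I : Ideal (Poly N)} {P : Poly 4} {L : Fin 5 → Poly N}
    {s : Poly 3} (h : Proj5 I e q P L s) {G1 : Poly 3}
    (hprime : (Ideal.span {P, inc4 G1}).IsPrime) (hs : inc4 s ∉ Ideal.span {P, inc4 G1})
    {T : Poly 4} (hT : sub5 L T ∈ (I ⊔ Ideal.span {sub5 L (inc4 G1)}).radical) :
    T ∈ Ideal.span {P, inc4 G1} := by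
  obtain ⟨r, hr⟩ := hT
  obtain ⟨i, hi, w, hw, hiw⟩ := Submodule.mem_sup.1 hr
  obtain ⟨A, rfl⟩ := Ideal.mem_span_singleton'.1 hw
  obtain ⟨A', hA'⟩ := h.cond A
  have h1 : sub5 L (inc4 s * T ^ r - A' * inc4 G1) ∈ I := by
    have e1 : sub5 L (inc4 s * T ^ r - A' * inc4 G1) = sub5 L (inc4 s) * i +
        (sub5 L (inc4 s) * A - sub5 L A') * sub5 L (inc4 G1) := by
      rw [map_sub, map_mul, map_mul, map_pow, ← hiw]
      ring
    rw [e1]
    exact I.add_mem (I.mul_mem_left _ hi) (I.mul_mem_right _ hA')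
  rw [h.hker] at h1
  obtain ⟨B, hB⟩ := h1
  have h2 : inc4 s * T ^ r ∈ Ideal.span {P, inc4 G1} := by
    have e2 : inc4 s * T ^ r = B * P + A' * inc4 G1 := by
      linear_combination hB
    rw [e2]
    exact Ideal.mem_span_pair.2 ⟨B, A', rfl⟩
  exact hprime.mem_of_pow_mem r ((hprime.mem_or_mem h2).resolve_left hs)

private theorem lh_not_dvd {e : ℕ} {P : Poly 4} (he : 1 ≤ e)
    (hc : coeff (Finsupp.single 4 e) P = 1) {G1 : Poly 3} (hG10 : G1 ≠ 0) : ¬ P ∣ inc4 G1 := by
  classical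
  rintro ⟨Q, hQ⟩
  have h0 : inc4 G1 ≠ 0 := by
    intro h0
    apply hG10
    exact rename_injective _ (Fin.castSucc_injective 4) (by rw [map_zero]; exact h0)
  have hP0 : P ≠ 0 := by
    rintro rfl
    rw [zero_mul] at hQ
    exact h0 hQ
  have hQ0 : Q ≠ 0 := by
    rintro rfl
    rw [mul_zero] at hQ
    exact h0 hQ
  have h1 : degreeOf (4 : Fin 5) (inc4 G1) = 0 := by
    by_contra hne
    have h2 := vars_rename Fin.castSucc G1 ((mem_vars_iff_degreeOf_ne_zero).2 hne)
    rw [Finset.mem_image] at h2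
    obtain ⟨i, -, hi⟩ := h2
    exact Fin.castSucc_ne_last i hi
  have h2 : e ≤ degreeOf (4 : Fin 5) P := by
    have h3 : Finsupp.single (4 : Fin 5) e ∈ P.support := by
      rw [mem_support_iff, hc]
      exact one_ne_zero
    have h4 := (degreeOf_le_iff.1 (le_refl (degreeOf (4 : Fin 5) P))) _ h3
    rwa [Finsupp.single_eq_same] at h4
  have h5 := degreeOf_mul_eq (n := (4 : Fin 5)) hP0 hQ0
  rw [← hQ, h1] at h5
  omega

/-- **the Hilbert function does not drop under the reduction**.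

Proof. Let `J = (I ⊔ (G)).radical`, `G = map p.B.subtype GB`, and
`J0 = (I ⊔ (sub5 L (inc4 G1))).radical`. (1) `hilb J0 k ≤ hilb J k`: equivalently the space `V` of
the forms of degree `k` in `J` has dimension at most that of the space `V0` of the forms of degree
`k` in `J0` (`T.hilb_add`, file `T/Global.lean`). `lat_basis_poly` gives integral forms `T_j`, a
number of `finrank V`, with linearly independent reductions and with images in `V`. For each `j`
some power of the image is in `I ⊔ (G)`, so the same power of the reduction is in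
`I ⊔ (sub5 L (inc4 G1))` by `lat_sat` (`sub5 L (inc4 G1) ∉ I` by `h.hker` and `hG10`), so the
reductions are in `V0`. (2) `hilb (span {P, inc4 G1}) k ≤ hilb J0 k`: the linear map
`T ↦ sub5 L T` from the forms of degree `k` in five variables to the forms of degree `k` modulo
`J0` has its kernel contained in `Ideal.span {P, inc4 G1}`, by `mem_of_radical`. -/
theorem low_hilb {N e q m : ℕ} {I : Ideal (Poly N)} (hI : IsThreefold I) {K : Subfield ℂ}
    (hK : DefinedOver K I) {P : Poly 4} {L : Fin 5 → Poly N} {s : Poly 3}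
    (h : Proj5 I e q P L s) {p : Place} (hKp : K ≤ p.K) {G1 : Poly 3} (hG10 : G1 ≠ 0)
    {GB : MvPolynomial (Fin (N + 1)) p.B} (hGB : GB.IsHomogeneous m)
    (hρ : map p.ρ GB = sub5 L (inc4 G1)) (hprime : (Ideal.span {P, inc4 G1}).IsPrime)
    (hs : inc4 s ∉ Ideal.span {P, inc4 G1}) (k : ℕ) :
    hilb (Ideal.span {P, inc4 G1}) k ≤
      hilb (I ⊔ Ideal.span {map p.B.subtype GB}).radical k := by
  classical
  have hG : map p.ρ GB ∉ I := by
    rw [hρ, h.hker]
    exact lh_not_dvd h.he h.hcoeff hG10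
  -- the reductions of the forms in the radical
  have h1 : hilb (I ⊔ Ideal.span {sub5 L (inc4 G1)}).radical k ≤
      hilb (I ⊔ Ideal.span {map p.B.subtype GB}).radical k := by
    have e1 := T.hilb_add (I ⊔ Ideal.span {sub5 L (inc4 G1)}).radical k
    have e2 := T.hilb_add (I ⊔ Ideal.span {map p.B.subtype GB}).radical k
    have e3 : Module.finrank ℂ (T.Fm (I ⊔ Ideal.span {map p.B.subtype GB}).radical k) ≤
        Module.finrank ℂ (T.Fm (I ⊔ Ideal.span {sub5 L (inc4 G1)}).radical k) := by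
      obtain ⟨T₁, hTh, hTl, hTV⟩ := lat_basis_poly (d := k) p
        (T.Fm (I ⊔ Ideal.span {map p.B.subtype GB}).radical k) inf_le_left
      have hm : ∀ j, map p.ρ (T₁ j) ∈ T.Fm (I ⊔ Ideal.span {sub5 L (inc4 G1)}).radical k := by
        intro j
        refine ⟨(hTh j).map _, ?_⟩
        obtain ⟨r, hr⟩ := (hTV j).2
        refine ⟨r, ?_⟩
        rw [← map_pow] at hr ⊢
        rw [← hρ]
        exact lat_sat hI.prime hI.homogeneous hK p hKp hGB hG ((hTh j).pow r) hr
      have hl : LinearIndependent ℂ (fun j => (⟨map p.ρ (T₁ j), hm j⟩ :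
          T.Fm (I ⊔ Ideal.span {sub5 L (inc4 G1)}).radical k)) :=
        LinearIndependent.of_comp (T.Fm (I ⊔ Ideal.span {sub5 L (inc4 G1)}).radical k).subtype hTl
      have h2 := hl.fintype_card_le_finrank
      rwa [Fintype.card_fin] at h2
    omega
  -- the projection
  refine le_trans ?_ h1
  have hf := finite_formsN (N := 4) k
  let f : homogeneousSubmodule (Fin (4 + 1)) ℂ k →ₗ[ℂ]
      Poly N ⧸ (I ⊔ Ideal.span {sub5 L (inc4 G1)}).radical :=
    ((Ideal.Quotient.mkₐ ℂ (I ⊔ Ideal.span {sub5 L (inc4 G1)}).radical).toLinearMap ∘ₗ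
      (sub5 L).toLinearMap).domRestrict _
  have h2 := f.finrank_range_add_finrank_ker
  have h3 := T.hilb_add (Ideal.span {P, inc4 G1}) k
  rw [T.Fm_top] at h3
  have h3' := h3.trans h2.symm
  have h4 : Module.finrank ℂ (LinearMap.ker f) ≤
      Module.finrank ℂ (T.Fm (Ideal.span {P, inc4 G1}) k) := by
    rw [← Submodule.finrank_map_subtype_eq]
    refine Submodule.finrank_mono ?_
    rintro x ⟨y, hy, rfl⟩
    refine ⟨y.2, ?_⟩
    have hy' : Ideal.Quotient.mk (I ⊔ Ideal.span {sub5 L (inc4 G1)}).radical (sub5 L y.1) = 0 := hy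
    exact mem_of_radical h hprime hs (Ideal.Quotient.eq_zero_iff_mem.1 hy')
  have h5 : Module.finrank ℂ (LinearMap.range f) ≤
      hilb (I ⊔ Ideal.span {sub5 L (inc4 G1)}).radical k := by
    have hfN := finite_formsN (N := N) k
    refine Submodule.finrank_mono ?_
    rintro _ ⟨y, rfl⟩
    refine ⟨sub5 L y.1, ?_, rfl⟩
    have h6 := (show (y.1).IsHomogeneous k from y.2).aeval L h.hL
    rwa [one_mul] at h6
  clear h2 h3
  omega

end Pool.Agent.Lib.MP_ed661f_ag.V
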