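import Pool.Agent.Lib.MP_ed661f_ag.V.Fld
import Pool.Agent.Lib.MP_ed661f_ag.S.Multi

/-!
The place for the specialisation of a very general form and of generic base points.
-/

set_option autoImplicit false

open MvPolynomial

namespace Pool.Agent.Lib.MP_ed661f_ag.V

open Pool.Agent.Lib.MP_ed661f_ag.H Pool.Agent.Lib.MP_ed661f_ag.S

theorem exists_place_ab {N m n : ℕ} {K3 : Subfield ℂ} (hK3c : (K3 : Set ℂ).Countable)
    {G Gb : Poly N} (hG : VeryGeneralOver K3 m G) (hGb : Gb.IsHomogeneous m)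
    (hGbK : ∀ α, coeff α Gb ∈ K3) {a0 b0 : Fin n → ℂ} (ha0 : ∀ i, a0 i ∈ K3)
    (hb0 : ∀ i, b0 i ∈ K3) (K' : Subfield ℂ) (hK'c : (K' : Set ℂ).Countable) :
    ∃ (p : Place) (GB : MvPolynomial (Fin (N + 1)) p.B) (a b : Fin n → p.B),
      K3 ≤ p.K ∧ GB.IsHomogeneous m ∧ map p.B.subtype GB = G ∧ map p.ρ GB = Gb ∧
      (∀ i, p.ρ (a i) = a0 i) ∧ (∀ i, p.ρ (b i) = b0 i) ∧
      AlgebraicIndependent K' (fun q : Fin n × Fin 2 => ((![a q.1, b q.1] q.2 : p.B) : ℂ)) := by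
  classical
  set T : Set ℂ := K' ∪ (K3 ∪ Set.range fun α => coeff α G) with hT
  have hTc : T.Countable := hK'c.union (hK3c.union (Set.countable_range _))
  have hsub : T ⊆ Subfield.closure T := Subfield.subset_closure
  have hK'le : K' ≤ Subfield.closure T := fun x hx => hsub (Or.inl hx)
  have hK3le : K3 ≤ Subfield.closure T := fun x hx => hsub (Or.inr (Or.inl hx))
  have hcG : ∀ α, coeff α G ∈ Subfield.closure T := fun α => hsub (Or.inr (Or.inr ⟨α, rfl⟩))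
  have : Countable (Subfield.closure T) := Hn.countable_closure T hTc
  obtain ⟨t, ht⟩ := Hn.exists_indep (Subfield.closure T) (Fin n × Fin 2)
  have hA : AlgebraicIndependent K3 (Sum.elim t
      (fun α : {α : Fin (N + 1) →₀ ℕ // α.degree = m} => coeff α.1 G)) :=
    indep_sum hK3le hG.2 (fun α => hcG α.1) ht
  obtain ⟨p, hpK, hp⟩ := exists_place_multi K3 hA
    (a0 := Sum.elim (fun q : Fin n × Fin 2 => (![a0 q.1, b0 q.1] : Fin 2 → ℂ) q.2)
      (fun α : {α : Fin (N + 1) →₀ ℕ // α.degree = m} => coeff α.1 Gb)) (by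
    rintro (⟨i, k⟩ | α)
    · fin_cases k
      · exact ha0 i
      · exact hb0 i
    · exact hGbK _)
  choose hB hρ using hp
  obtain ⟨GB, hGBh, hGBc⟩ := exists_formN
    (fun α : {α : Fin (N + 1) →₀ ℕ // α.degree = m} => (⟨coeff α.1 G, hB (Sum.inr α)⟩ : p.B))
  refine ⟨p, GB, fun i => ⟨t (i, 0), hB (Sum.inl (i, 0))⟩, fun i => ⟨t (i, 1), hB (Sum.inl (i, 1))⟩,
    hpK, hGBh, ?_, ?_, fun i => hρ (Sum.inl (i, 0)), fun i => hρ (Sum.inl (i, 1)), ?_⟩
  · refine form_extN (hGBh.map _) hG.1 fun α => ?_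
    rw [coeff_map, hGBc]
    rfl
  · refine form_extN (hGBh.map _) hGb fun α => ?_
    rw [coeff_map, hGBc]
    exact hρ (Sum.inr α)
  · have h1 := indep_mono hK'le ht
    have h2 : (fun q : Fin n × Fin 2 => ((![(⟨t (q.1, 0), hB (Sum.inl (q.1, 0))⟩ : p.B),
        ⟨t (q.1, 1), hB (Sum.inl (q.1, 1))⟩] q.2 : p.B) : ℂ)) = t := by
      funext q
      obtain ⟨i, k⟩ := q
      fin_cases k <;> rfl
    rw [h2]
    exact h1

end Pool.Agent.Lib.MP_ed661f_ag.V
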