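import Pool.Agent.Lib.MP_ed661f_ag.V.Van

/-!
The inequality for forms at one point implies that the ideal is prime, and bounds the degree.
-/

set_option autoImplicit false

open MvPolynomial

namespace Pool.Agent.Lib.MP_ed661f_ag.V

open Pool.Agent.Lib.MP_ed661f_ag.H

/-- **the ideal is prime**.

Proof. `1 ∉ J`, as `φ 1 = 1 ≠ 0`. Let `A`, `B` be forms with `A B ∈ J`. Then `φ A * φ B = 0` and
`ℂ[[S,T]]` is a domain, so `φ A = 0` or `φ B = 0`, say `φ A = 0`; with `w` larger than
`D (deg A) ^ 2` the hypothesis `hFI` gives `A ∈ J`. For arbitrary elements use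
`Ideal.IsHomogeneous.isPrime_of_homogeneous_mem_or_mem` for the grading
`homogeneousSubmodule (Fin (N + 1)) ℂ`, or take `A, B ∉ J` with `A B ∈ J`, remove the homogeneous
components which lie in `J`, and look at the components of largest degree of `A` and `B`: their
product is a homogeneous component of `A B`. -/
theorem prime_of_germ {N D : ℕ} {J : Ideal (Poly N)}
    (hh : ∀ F ∈ J, ∀ k, homogeneousComponent k F ∈ J)
    {φ : Poly N →ₐ[ℂ] MvPowerSeries (Fin 2) ℂ} (hφ : ∀ F ∈ J, φ F = 0)
    (hFI : GFI D J (fun _ : Fin 1 => φ)) : J.IsPrime := by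
  have hz : ∀ (k : ℕ) (Q : Poly N), Q.IsHomogeneous k → φ Q = 0 → Q ∈ J := by
    intro k Q hQ h0
    refine hFI k (D * k ^ 2 + 1) Q hQ (fun _ => ?_) ?_
    · rw [h0]
      exact van_zero _
    · rw [one_mul]
      nlinarith [Nat.zero_le (D * k ^ 2)]
  let := MvPolynomial.gradedAlgebra (σ := Fin (N + 1)) (R := ℂ)
  have hJ : J.IsHomogeneous (homogeneousSubmodule (Fin (N + 1)) ℂ) := by
    intro i F hF
    have h1 : ((DirectSum.decompose (homogeneousSubmodule (Fin (N + 1)) ℂ) F) i : Poly N) =
        homogeneousComponent i F := decomposition.decompose'_apply F i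
    rw [h1]
    exact hh F hF i
  refine hJ.isPrime_of_homogeneous_mem_or_mem ?_ ?_
  · intro h
    have h1 : (1 : Poly N) ∈ J := by
      rw [h]
      exact Submodule.mem_top
    have h2 := hφ 1 h1
    rw [map_one] at h2
    exact one_ne_zero h2
  · rintro x y ⟨i, hx⟩ ⟨j, hy⟩ hxy
    rw [mem_homogeneousSubmodule] at hx hy
    have h1 := hφ _ hxy
    rw [map_mul] at h1
    rcases mul_eq_zero.1 h1 with h2 | h2
    · exact Or.inl (hz i x hx h2)
    · exact Or.inr (hz j y hy h2)

end Pool.Agent.Lib.MP_ed661f_ag.V
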