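import Pool.Agent.Lib.MP_ed661f_ag.V.Data
import Pool.Agent.Lib.MP_ed661f_ag.V.PlaceAB
import Pool.Agent.Lib.MP_ed661f_ag.V.ExistsG1
import Pool.Agent.Lib.MP_ed661f_ag.V.Core1
import Pool.Agent.Lib.MP_ed661f_ag.V.GfiP4
import Pool.Agent.Lib.MP_ed661f_ag.V.LowHilb
import Pool.Agent.Lib.MP_ed661f_ag.V.HilbCI
import Pool.Agent.Lib.MP_ed661f_ag.V.PrimeGerm
import Pool.Agent.Lib.MP_ed661f_ag.V.HomRad

/-!
One very general section of the threefold with the inequality for forms.
-/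

set_option autoImplicit false

open MvPolynomial
open scoped ENNReal

namespace Pool.Agent.Lib.MP_ed661f_ag.V

open Pool.Agent.Lib.MP_ed661f_ag.H Pool.Agent.Lib.MP_ed661f_ag.S

theorem VeryGeneralOver.ne_zero {N m : ℕ} {K : Subfield ℂ} {G : Poly N}
    (h : VeryGeneralOver K m G) : G ≠ 0 := by
  intro h0
  let α : {α : Fin (N + 1) →₀ ℕ // α.degree = m} := ⟨Finsupp.single 0 m, by simp⟩
  have h1 := h.2.ne_zero α
  apply h1
  rw [h0]
  exact coeff_zero _

/-- the value of the constant coefficient of the germ -/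
theorem const_phi1 {N : ℕ} {p : Place} (ψ : Fin (N + 1) → MvPowerSeries (Fin 2) p.B)
    (F : Poly N) : MvPowerSeries.constantCoeff (phi1 ψ F) =
      eval (fun j => ((MvPowerSeries.constantCoeff (ψ j) : p.B) : ℂ)) F := by
  have h : (MvPowerSeries.constantCoeff (σ := Fin 2) (R := ℂ)).comp (phi1 ψ).toRingHom =
      eval (fun j => ((MvPowerSeries.constantCoeff (ψ j) : p.B) : ℂ)) := by
    apply MvPolynomial.ringHom_ext
    · intro r
      simp [phi1, MvPowerSeries.algebraMap_apply]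
    · intro i
      simp [phi1]
  exact congrArg (fun f => f F) h

/-- the germ kills `G` -/
theorem phi1_map {N : ℕ} {p : Place} (ψ : Fin (N + 1) → MvPowerSeries (Fin 2) p.B)
    (GB : MvPolynomial (Fin (N + 1)) p.B) :
    phi1 ψ (map p.B.subtype GB) = MvPowerSeries.map p.B.subtype (aeval ψ GB) := by
  have h : (phi1 ψ).toRingHom.comp (map p.B.subtype) =
      (MvPowerSeries.map p.B.subtype).comp (aeval ψ : MvPolynomial (Fin (N + 1)) p.B →ₐ[p.B]
        MvPowerSeries (Fin 2) p.B).toRingHom := by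
    apply MvPolynomial.ringHom_ext
    · intro r
      simp [phi1, MvPowerSeries.algebraMap_apply]
    · intro i
      simp [phi1]
  exact congrArg (fun f => f GB) h

theorem inc4_notMem {P : Poly 4} {G1 s : Poly 3} {v : Fin 5 → ℂ} (hP : eval v P = 0)
    (hG : eval v (inc4 G1) = 0) (hs : eval v (inc4 s) ≠ 0) :
    inc4 s ∉ Ideal.span {P, inc4 G1} := by
  intro h
  apply hs
  have h1 : Ideal.span {P, inc4 G1} ≤ vecIdeal v := by
    rw [Ideal.span_le]
    rintro f (rfl | rfl)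
    · exact hP
    · exact hG
  exact h1 h

/-- **one very general section with the inequality for forms** -/
theorem exists_G0 {N e μ n : ℕ} {I : Ideal (Poly N)} (hI : IsThreefold I) (he : threeDeg I = e)
    {K : Subfield ℂ} (hKc : (K : Set ℂ).Countable) (hK : DefinedOver K I) (hμ : 6 ≤ μ) :
    ∃ G : Poly N, VeryGeneralOver K (e * μ) G ∧
      Pts (e * (e * μ)) (I ⊔ Ideal.span {G}).radical n ∧
      (n = 1 → ∃ c : ℕ, ∀ k : ℕ,
        e * (e * μ) * k ^ 2 ≤ 2 * hilb (I ⊔ Ideal.span {G}).radical k + c * (k + 1)) := by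
  classical
  obtain ⟨K2, q, P, L, s, θ, E, b, Q, hKK2, hK2c, hd⟩ := exists_data hI he hKc
  have hpr := hd.good.proj
  obtain ⟨G1, v1, hG1, hv0, hvP, hvG, hvG2, hvf, hFI⟩ := exists_G1 hpr.he hμ n hK2c hpr.hP
    hpr.hcoeff hd.hPK hd.good.p0 hd.good.dp hd.hθK hd.good.branch hd.ech hd.hbK
  have hG10 : G1 ≠ 0 := hG1.ne_zero
  have hP4 : ∀ i, eval (v1 i) (pderiv 4 P) ≠ 0 :=
    hvf _ (fun α => coeff_pderiv_mem hd.hPK 4 α) hd.good.dp
  have hvs : ∀ i, eval (v1 i) (inc4 s) ≠ 0 := by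
    refine hvf _ (fun α => coeff_inc4_mem hd.hsK α) ?_
    rw [eval_inc4]
    have h1 : (fun j : Fin 4 => (![1, 0, 0, 0, 0] : Fin 5 → ℂ) j.castSucc) = ![1, 0, 0, 0] := by
      funext j
      fin_cases j <;> rfl
    rw [h1]
    exact hd.good.sp
  obtain ⟨k0, hk0⟩ := hd.tors _ G1 hG1
  -- the field of definition of `G1` and of the points
  set T : Set ℂ := K2 ∪ ((Set.range fun α => coeff α G1) ∪
    Set.range fun u : Fin n × Fin 5 => v1 u.1 u.2) with hT
  have hTc : T.Countable := hK2c.union ((Set.countable_range _).union (Set.countable_range _))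
  have hsub : T ⊆ Subfield.closure T := Subfield.subset_closure
  set K3 := Subfield.closure T with hK3
  have hK2le : K2 ≤ K3 := fun x hx => hsub (Or.inl hx)
  have hG1K : ∀ α, coeff α G1 ∈ K3 := fun α => hsub (Or.inr (Or.inl ⟨α, rfl⟩))
  have hv1K : ∀ i j, v1 i j ∈ K3 := fun i j => hsub (Or.inr (Or.inr ⟨(i, j), rfl⟩))
  have hK3ct : Countable K3 := Hn.countable_closure T hTc
  have hK3c : (K3 : Set ℂ).Countable := Set.countable_coe_iff.1 hK3ct
  obtain ⟨U, hU⟩ := Hn.exists_indep K3 {α : Fin (N + 1) →₀ ℕ // α.degree = e * μ}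
  obtain ⟨G, hGh, hGc⟩ := exists_formN U
  have hGv : VeryGeneralOver K3 (e * μ) G := by
    refine ⟨hGh, ?_⟩
    have h1 : (fun α : {α : Fin (N + 1) →₀ ℕ // α.degree = e * μ} => coeff α.1 G) = U :=
      funext hGc
    rw [h1]
    exact hU
  set Gb : Poly N := sub5 L (inc4 G1) with hGb
  have hGbh : Gb.IsHomogeneous (e * μ) := by
    have h1 := (hG1.1.rename_isHomogeneous (f := (Fin.castSucc : Fin 4 → Fin 5))).aeval L hpr.hL
    rwa [one_mul] at h1
  have hGbK : ∀ α, coeff α Gb ∈ K3 := fun α =>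
    coeff_aeval_mem (fun j α => hK2le (hd.hLK j α)) (fun α => coeff_inc4_mem hG1K α) α
  -- the places and the germs
  have inner : ∀ K' : Subfield ℂ, (K' : Set ℂ).Countable →
      ∃ (p : Place) (GB : MvPolynomial (Fin (N + 1)) p.B) (a b : Fin n → p.B)
        (ψ : Fin n → Fin (N + 1) → MvPowerSeries (Fin 2) p.B)
        (ε : Fin n → Fin 5 → MvPowerSeries (Fin 2) ℂ),
        K3 ≤ p.K ∧ GB.IsHomogeneous (e * μ) ∧ map p.B.subtype GB = G ∧ map p.ρ GB = Gb ∧
        AlgebraicIndependent K' (fun q : Fin n × Fin 2 => ((![a q.1, b q.1] q.2 : p.B) : ℂ)) ∧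
        (∀ i, Pt1 p I P L G1 GB (v1 i) (a i) (b i) (ψ i) (ε i)) ∧
        GFI (e * (e * μ)) (Ideal.span {P, inc4 G1}) (fun i => aeval (ε i)) := by
    intro K' hK'c
    obtain ⟨p, GB, a, b', hpK, hGBh, hGB, hGBρ, ha, hb, hind⟩ := exists_place_ab hK3c hGv hGbh hGbK
      (a0 := fun i => v1 i 1) (b0 := fun i => v1 i 3) (fun i => hv1K i 1) (fun i => hv1K i 3)
      K' hK'c
    have hpt := fun i => exists_pt1 hI hpr hd.rel (p := p) (fun α => hpK (hK2le (hd.hPK α)))
      (fun α => hpK (hK2le (hd.hsK α))) (fun j α => hpK (hK2le (hd.hQK j α))) hG1.1 hGBh hGBρ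
      (fun j => hpK (hv1K i j)) (hv0 i) (hvP i) (hvG i) (hP4 i) (hvG2 i) (hvs i) (ha i) (hb i)
    choose ψ ε hpt using hpt
    refine ⟨p, GB, a, b', ψ, ε, hpK, hGBh, hGB, hGBρ, hind, hpt, ?_⟩
    exact gfi_of_fij hv0 hvP hvG hP4 hvG2 hFI (fun i => (hpt i).εP) (fun i => (hpt i).εG)
      (fun i => (hpt i).ε0) (fun i => (hpt i).ε1) (fun i => (hpt i).ε3) (fun i => (hpt i).εc)
  refine ⟨G, (hGv.mono hK2le).mono hKK2, ?_, ?_⟩
  · refine ⟨![L 0, L 1, L 3], ?_, ?_⟩
    · intro j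
      fin_cases j
      · exact hpr.hL 0
      · exact hpr.hL 1
      · exact hpr.hL 3
    intro K' hK'c
    obtain ⟨p, GB, a, b', ψ, ε, hpK, hGBh, hGB, hGBρ, hind, hpt, hgfi⟩ := inner K' hK'c
    have hcore := core1 hI hK hpr (fun x hx => hpK (hK2le (hKK2 hx))) hG1.1 hG10 hGBh hGBρ
      hk0 hpt hgfi
    rw [hGB] at hcore
    have hka : ∀ i, eval (fun j => ((MvPowerSeries.constantCoeff (ψ i j) : p.B) : ℂ)) (L 1) =
        ((a i : p.B) : ℂ) := by
      intro i
      rw [← const_phi1, (hpt i).hL1]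
      simp
    have hkb : ∀ i, eval (fun j => ((MvPowerSeries.constantCoeff (ψ i j) : p.B) : ℂ)) (L 3) =
        ((b' i : p.B) : ℂ) := by
      intro i
      rw [← const_phi1, (hpt i).hL3]
      simp
    refine ⟨fun i j => ((MvPowerSeries.constantCoeff (ψ i j) : p.B) : ℂ), fun i => phi1 (ψ i),
      ?_, ?_, hcore⟩
    · intro i
      refine ⟨?_, const_phi1 (ψ i), (hpt i).hL0, ?_, ?_⟩
      · intro F hF
        obtain ⟨r, hr⟩ := hF
        have h1 : I ⊔ Ideal.span {G} ≤ RingHom.ker (phi1 (ψ i)) := by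
          refine sup_le (fun f hf => (hpt i).hI f hf) ?_
          rw [Ideal.span_singleton_le_iff_mem, ← hGB, RingHom.mem_ker, phi1_map, (hpt i).hG,
            map_zero]
        have h2 : phi1 (ψ i) (F ^ r) = 0 := h1 hr
        rw [map_pow] at h2
        exact eq_zero_of_pow_eq_zero h2
      · change phi1 (ψ i) (L 1) = MvPowerSeries.C (eval _ (L 1)) + _
        rw [hka i]
        exact (hpt i).hL1
      · change phi1 (ψ i) (L 3) = MvPowerSeries.C (eval _ (L 3)) + _
        rw [hkb i]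
        exact (hpt i).hL3
    · have h2 : (fun q : Fin n × Fin 2 => eval (fun j => ((MvPowerSeries.constantCoeff
          (ψ q.1 j) : p.B) : ℂ)) ((![L 0, L 1, L 3] : Fin 3 → Poly N) q.2.succ)) =
          (fun q : Fin n × Fin 2 => ((![a q.1, b' q.1] q.2 : p.B) : ℂ)) := by
        funext q
        obtain ⟨i, k⟩ := q
        fin_cases k
        · exact hka i
        · exact hkb i
      rw [h2]
      exact hind
  · intro hn
    subst hn
    obtain ⟨p, GB, a, b', ψ, ε, hpK, hGBh, hGB, hGBρ, hind, hpt, hgfi⟩ := inner ⊥ (by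
      have h1 : ((⊥ : Subfield ℂ) : Set ℂ) ⊆ (K : Set ℂ) := fun x hx => bot_le (a := K) hx
      exact hKc.mono h1)
    have hPh : P.IsHomogeneous e := hpr.hP
    have hG1h : (inc4 G1).IsHomogeneous (e * μ) := hG1.1.rename_isHomogeneous
    have hP0 : P ≠ 0 := by
      intro h0
      have h1 := hpr.hcoeff
      rw [h0, coeff_zero] at h1
      exact zero_ne_one h1
    have hprime : (Ideal.span {P, inc4 G1}).IsPrime := by
      refine prime_of_germ (hom_span_pair hPh hG1h) (φ := aeval (ε 0)) ?_ (D := e * (e * μ)) ?_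
      · intro F hF
        have h1 : Ideal.span {P, inc4 G1} ≤ RingHom.ker (aeval (ε 0) : Poly 4 →ₐ[ℂ] _) := by
          rw [Ideal.span_le]
          rintro f (rfl | rfl)
          · exact (hpt 0).εP
          · exact (hpt 0).εG
        exact h1 hF
      · intro k w R hR hw hlt
        refine hgfi k w R hR (fun i => ?_) hlt
        rw [Subsingleton.elim i 0]
        exact hw 0
    obtain ⟨c, hc⟩ := hilb_ci hPh hP0 hG1h
    refine ⟨c, fun k => (hc k).trans ?_⟩
    have h1 := low_hilb hI hK hpr (fun x hx => hpK (hK2le (hKK2 hx))) hG10 hGBh hGBρ hprime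
      (inc4_notMem (hvP 0) (hvG 0) (hvs 0)) k
    rw [hGB] at h1
    omega

end Pool.Agent.Lib.MP_ed661f_ag.V
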