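import Pool.Agent.Lib.MP_ed661f_ag.V.Van
import Pool.Agent.Lib.MP_ed661f_ag.W.AffIneq

/-!
The inequality for forms on the projection of a surface to three-space.
-/

set_option autoImplicit false

open MvPolynomial

namespace Pool.Agent.Lib.MP_ed661f_ag.V

open Pool.Agent.Lib.MP_ed661f_ag.H Pool.Agent.Lib.MP_ed661f_ag.W

/-- **the inequality for forms on the projection**.

Proof. Let `G` be a form of degree `m` in four variables as in the hypothesis of `S.FI` for
`W.aff L (v i)`, `d' m ^ 2 < n w ^ 2`. Write `u_i = φ i (L 0)`, a unit of `ℂ[[S,T]]` (its constant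
coefficient is `eval (v i) (L 0) ≠ 0`), and let `χ : Poly 3 → ℂ[[S,T]]`, `X j ↦ φ i (L j) / u_i`. For a
form `G` of degree `m`, `φ i (sub4 L G) = u_i ^ m * χ G` (`S.Hn.aeval_mul_hom`, file `S/Pull.lean`).
So `χ` kills `F` (`sub4 L F ∈ J` by `h.hker`, and `hφ`), it sends `X 0` to `1`, and its constant
coefficient is the evaluation at `W.aff L (v i)` (`W.aff_apply`). By `van_of_mem` `Van w (χ G)`, so
`Van w (φ i (sub4 L G))`, and `hFI` gives `sub4 L G ∈ J`, `F ∣ G`. -/
theorem fi_of_gfi {N n D d q : ℕ} {J : Ideal (Poly N)} {F : Poly 3} {L : Fin 4 → Poly N}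
    {s : Pool.Agent.Lib.MP_ed661f_ag.T.D3} (h : Proj4 J d q F L s) {v : Fin n → Fin (N + 1) → ℂ}
    {φ : Fin n → Poly N →ₐ[ℂ] MvPowerSeries (Fin 2) ℂ} (hφ : ∀ i, ∀ G ∈ J, φ i G = 0)
    (hc : ∀ i G, MvPowerSeries.constantCoeff (φ i G) = eval (v i) G) (hFI : GFI D J φ)
    (hv : ∀ i, eval (v i) (L 0) ≠ 0) : S.FI D F (fun i => aff L (v i)) := by
  intro m w G hG hmem hlt
  rw [← h.hker]
  refine hFI m w (sub4 L G) ?_ (fun i => ?_) hlt
  · have h1 := hG.aeval L h.hL
    rwa [one_mul] at h1
  · have hu : IsUnit (φ i (L 0)) := by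
      rw [MvPowerSeries.isUnit_iff_constantCoeff, hc]
      exact (hv i).isUnit
    obtain ⟨c, hcu⟩ := hu.exists_left_inv
    have hcc : MvPowerSeries.constantCoeff c = (eval (v i) (L 0))⁻¹ := by
      have h1 := congrArg (MvPowerSeries.constantCoeff (σ := Fin 2) (R := ℂ)) hcu
      rw [map_mul, hc, map_one] at h1
      exact eq_inv_of_mul_eq_one_left h1
    set χ : Poly 3 →ₐ[ℂ] MvPowerSeries (Fin 2) ℂ := aeval (fun j => c * φ i (L j)) with hχ
    have key : ∀ (k : ℕ) (H : Poly 3), H.IsHomogeneous k → χ H = c ^ k * φ i (sub4 L H) := by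
      intro k H hH
      rw [hχ, S.Hn.aeval_mul_hom hH]
      congr 1
      exact (DFunLike.congr_fun (comp_aeval L (φ i)) H).symm
    have hX : χ (X 0) = 1 := by
      rw [hχ, aeval_X, hcu]
    have hF0 : χ F = 0 := by
      rw [key d F h.hF, hφ i _ ((h.hker F).2 dvd_rfl), mul_zero]
    have hcst : ∀ H : Poly 3, MvPowerSeries.constantCoeff (χ H) = eval (aff L (v i)) H := by
      intro H
      have h1 : ((MvPowerSeries.constantCoeff (σ := Fin 2) (R := ℂ)).comp
          (χ : Poly 3 →+* MvPowerSeries (Fin 2) ℂ)) = eval (aff L (v i)) := by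
        apply MvPolynomial.ringHom_ext
        · intro a
          rw [eval_C, RingHom.comp_apply]
          change MvPowerSeries.constantCoeff (χ (C a)) = a
          rw [← MvPolynomial.algebraMap_eq, AlgHom.commutes]
          exact MvPowerSeries.constantCoeff_C a
        · intro j
          rw [eval_X, RingHom.comp_apply]
          change MvPowerSeries.constantCoeff (χ (X j)) = _
          rw [hχ, aeval_X, map_mul, hc, hcc, aff_apply h.hL, div_eq_inv_mul]
      exact RingHom.congr_fun h1 H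
    have h1 : Van w (χ G) := by
      refine van_of_mem (J := Ideal.span {F}) (l := X 0) (v := aff L (v i)) ?_ hX hcst (hmem i)
      intro H hH
      obtain ⟨K, rfl⟩ := Ideal.mem_span_singleton.1 hH
      rw [map_mul, hF0, zero_mul]
    have h2 : φ i (sub4 L G) = φ i (L 0) ^ m * χ G := by
      rw [key m G hG, ← mul_assoc, ← mul_pow, mul_comm (φ i (L 0)) c, hcu, one_pow, one_mul]
    rw [h2]
    exact h1.mul_left _

end Pool.Agent.Lib.MP_ed661f_ag.V
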