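import Pool.Agent.Lib.MP_ed661f_ag.V.Defs
import Pool.Agent.Lib.MP_ed661f_ag.S.Lower

/-!
From the inequality for curves to the Seshadri constant: surfaces in arbitrary projective spaces.
-/

set_option autoImplicit false

open MvPolynomial
open scoped ENNReal

namespace Pool.Agent.Lib.MP_ed661f_ag.V

open Pool.Agent.Lib.MP_ed661f_ag.H

private theorem lowerN_eval_smul {N k : ℕ} {F : Poly N} (hF : F.IsHomogeneous k) (c : ℂ)
    (v : Fin (N + 1) → ℂ) : eval (c • v) F = c ^ k * eval v F := by
  rw [eval_eq, eval_eq, Finset.mul_sum]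
  refine Finset.sum_congr rfl fun u hu => ?_
  have h1 : ∏ i ∈ u.support, (c • v) i ^ u i = c ^ k * ∏ i ∈ u.support, v i ^ u i := by
    simp only [Pi.smul_apply, smul_eq_mul, mul_pow]
    rw [Finset.prod_mul_distrib, Finset.prod_pow_eq_pow_sum]
    congr 2
    have h2 := hF (mem_support_iff.1 hu)
    rw [← h2]
    simp [Finsupp.weight_apply, Finsupp.sum]
  rw [h1]
  ring

/-- **the lower bound**.

Proof. As `S.le_eps_of_curves` (file `S/Lower.lean`, surfaces in three-space, `l = X 0`): the points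
`x i` of the projective space represented by the `v i` are different (if `v i` and `v j` are
proportional, they are equal, as `l` is linear with value `1`), and lie on the surface (`hJ`: the
representatives are multiples of the `v i`, and `J` is homogeneous). For a curve `P` through some
`x i`: `mult P (x i).rep = mult P (v i)` (`P` is homogeneous, `W.mult_smul` or as in `S/Lower.lean`),
and `S.sqrt_mul_le`. -/
theorem le_eps {N d n : ℕ} (hn : 1 ≤ n) {J : Ideal (Poly N)}
    (hJ : ∀ F ∈ J, ∀ k, homogeneousComponent k F ∈ J) {l : Poly N} (hl : l.IsHomogeneous 1)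
    {v : Fin n → Fin (N + 1) → ℂ} (hinj : Function.Injective v) (h1 : ∀ i, eval (v i) l = 1)
    (h2 : ∀ i, ∀ F ∈ J, eval (v i) F = 0)
    (h : ∀ P, IsCurveOn J P → (d : ℝ≥0∞) * (∑ i, mult P (v i)) ^ 2 ≤ n * (deg P) ^ 2) :
    ENNReal.ofReal (Real.sqrt ((d : ℝ) / n)) ≤ eps J n := by
  have hv0 : ∀ i, v i ≠ 0 := by
    intro i h0
    have h3 := h1 i
    rw [h0, ← zero_smul ℂ (0 : Fin (N + 1) → ℂ), lowerN_eval_smul hl, pow_one, zero_mul] at h3
    exact one_ne_zero h3.symm
  set x : Fin n → Projectivization ℂ (Fin (N + 1) → ℂ) := fun i =>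
    Projectivization.mk ℂ (v i) (hv0 i) with hx
  have hrep : ∀ i, ∃ c : ℂ, c ≠ 0 ∧ (x i).rep = c • v i := by
    intro i
    obtain ⟨c, hc⟩ := Projectivization.exists_smul_eq_mk_rep ℂ (v i) (hv0 i)
    exact ⟨c, c.ne_zero, by rw [hx, ← hc]; rfl⟩
  have hxinj : Function.Injective x := by
    intro i j hij
    rw [hx] at hij
    simp only at hij
    rw [Projectivization.mk_eq_mk_iff'] at hij
    obtain ⟨c, hc⟩ := hij
    apply hinj
    have h3 := h1 i
    rw [← hc, lowerN_eval_smul hl, h1, pow_one, mul_one] at h3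
    rw [← hc, h3, one_smul]
  have hxI : ∀ i, OnVar J (x i) := by
    intro i G hG
    obtain ⟨c, -, hc⟩ := hrep i
    rw [hc, ← sum_homogeneousComponent G, map_sum]
    refine Finset.sum_eq_zero fun k _ => ?_
    rw [lowerN_eval_smul (homogeneousComponent_isHomogeneous k G), h2 i _ (hJ G hG k), mul_zero]
  have hmain : ENNReal.ofReal (Real.sqrt ((d : ℝ) / n)) ≤ seshadri J x := by
    unfold seshadri
    refine le_iInf fun P => le_iInf fun hP => le_iInf fun _ => ?_
    obtain ⟨hd0, hd1⟩ := S.degree_curve hP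
    rw [ENNReal.le_div_iff_mul_le (Or.inr hd0) (Or.inr hd1)]
    have h3 : ∀ i, mult P (x i).rep = mult P (v i) := by
      intro i
      obtain ⟨c, hc0, hc⟩ := hrep i
      rw [hc, mult_smul hP.homogeneous (v i) hc0]
    simp only [h3]
    exact S.sqrt_mul_le hn (h P hP)
  exact le_trans hmain (le_iSup_of_le x (le_iSup_of_le hxinj (le_iSup_of_le hxI le_rfl)))

end Pool.Agent.Lib.MP_ed661f_ag.V
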