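import Pool.Agent.Lib.MP_ed661f_ag.V.LinK

/-!
A very general form does not vanish on the threefold.
-/

set_option autoImplicit false

open MvPolynomial

namespace Pool.Agent.Lib.MP_ed661f_ag.V

open Pool.Agent.Lib.MP_ed661f_ag.H

/-- Proof. If `G ∈ I`, then `linK`, for the monomials of degree `m`, shows that all of them are in
`I`; so `X j ^ m ∈ I` and `X j ∈ I` for all `j` (`I` is prime; if `m = 0`, `1 ∈ I`, a
contradiction). Then `Poly N ⧸ I` is `ℂ`, of Krull dimension `0`. -/
theorem not_mem_of_veryGeneral {N m : ℕ} {I : Ideal (Poly N)} (hI : IsThreefold I)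
    {K : Subfield ℂ} (hK : DefinedOver K I) {G : Poly N} (hG : VeryGeneralOver K m G) : G ∉ I := by
  classical
  intro hmem
  have hprime := hI.prime
  obtain ⟨hhom, hind⟩ := hG
  have hdeg : ∀ α ∈ G.support, α.degree = m := by
    intro α hα
    by_contra h
    exact (mem_support_iff.1 hα) (hhom.coeff_eq_zero h)
  have hlin : LinearIndependent K fun i : {x // x ∈ G.support} => coeff i.1 G := by
    have h1 := hind.linearIndependent
    obtain ⟨e, he⟩ : ∃ e : {x // x ∈ G.support} → {α : Fin (N + 1) →₀ ℕ // α.degree = m},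
        ∀ i, (e i).1 = i.1 := ⟨fun i => ⟨i.1, hdeg i.1 i.2⟩, fun _ => rfl⟩
    have h2 : Function.Injective e := by
      intro i j hij
      refine Subtype.ext ?_
      rw [← he i, ← he j, hij]
    have h3 := h1.comp e h2
    have h4 : (fun i : {x // x ∈ G.support} => coeff i.1 G) =
        (fun α : {α : Fin (N + 1) →₀ ℕ // α.degree = m} => coeff α.1 G) ∘ e := by
      funext i
      rw [Function.comp_apply, he]
    rw [h4]
    exact h3
  have hsum : ∑ i : {x // x ∈ G.support}, C (coeff i.1 G) * monomial i.1 (1 : ℂ) ∈ I := by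
    have h1 : ∑ i : {x // x ∈ G.support}, C (coeff i.1 G) * monomial i.1 (1 : ℂ) = G := by
      rw [Finset.univ_eq_attach,
        Finset.sum_attach G.support (fun α => C (coeff α G) * monomial α (1 : ℂ))]
      conv_rhs => rw [← G.support_sum_monomial_coeff]
      refine Finset.sum_congr rfl fun α _ => ?_
      rw [C_mul_monomial, mul_one]
    rw [h1]
    exact hmem
  have hmon := linK hK hlin (f := fun i => monomial i.1 (1 : ℂ)) (fun i α => by
    rw [coeff_monomial]
    split_ifs
    · exact K.one_mem
    · exact K.zero_mem) hsum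
  have hX : ∀ j : Fin (N + 1), (X j : Poly N) ∈ I := by
    intro j
    have h1 : (Finsupp.single j m).degree = m := by
      rw [Finsupp.degree_single]
    have h2 : Finsupp.single j m ∈ G.support := by
      rw [mem_support_iff]
      exact hind.ne_zero ⟨Finsupp.single j m, h1⟩
    have h3 := hmon ⟨Finsupp.single j m, h2⟩
    refine hprime.mem_of_pow_mem m ?_
    rw [X_pow_eq_monomial]
    exact h3
  have hsurj : Function.Surjective ((Ideal.Quotient.mk I).comp (C : ℂ →+* Poly N)) := by
    intro q
    obtain ⟨F, rfl⟩ := Ideal.Quotient.mk_surjective q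
    induction F using MvPolynomial.induction_on with
    | C a => exact ⟨a, rfl⟩
    | add P Q hP hQ =>
      obtain ⟨a, ha⟩ := hP
      obtain ⟨b, hb⟩ := hQ
      exact ⟨a + b, by rw [map_add, ha, hb, map_add]⟩
    | mul_X P j _ =>
      refine ⟨0, ?_⟩
      rw [map_zero, eq_comm, Ideal.Quotient.eq_zero_iff_mem]
      exact I.mul_mem_left _ (hX j)
  have h1 := ringKrullDim_le_of_surjective _ hsurj
  rw [hI.dim, ringKrullDim_eq_zero_of_field] at h1
  exact absurd h1 (by decide)

end Pool.Agent.Lib.MP_ed661f_ag.V
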