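import Pool.Agent.Lib.MP_ed661f_ag.V.Defs

/-!
Orders of vanishing of power series in two variables.
-/

set_option autoImplicit false

open MvPolynomial

namespace Pool.Agent.Lib.MP_ed661f_ag.V

open Pool.Agent.Lib.MP_ed661f_ag.H

section

variable {A : Type*} [CommRing A] {w w' : ℕ} {f g : MvPowerSeries (Fin 2) A}

theorem Van.mono (h : w ≤ w') (hf : Van w' f) : Van w f := fun d hd => hf d (hd.trans_le h)

theorem van_zero_left (f : MvPowerSeries (Fin 2) A) : Van 0 f := fun d hd =>
  absurd hd (Nat.not_lt_zero _)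

theorem van_zero (w : ℕ) : Van w (0 : MvPowerSeries (Fin 2) A) := fun d _ => by
  rw [map_zero]

theorem Van.add (hf : Van w f) (hg : Van w g) : Van w (f + g) := fun d hd => by
  rw [map_add, hf d hd, hg d hd, add_zero]

theorem Van.neg (hf : Van w f) : Van w (-f) := fun d hd => by
  rw [map_neg, hf d hd, neg_zero]

theorem Van.sub (hf : Van w f) (hg : Van w g) : Van w (f - g) := fun d hd => by
  rw [map_sub, hf d hd, hg d hd, sub_zero]

theorem Van.mul (hf : Van w f) (hg : Van w' g) : Van (w + w') (f * g) := fun d hd => by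
  classical
  rw [MvPowerSeries.coeff_mul]
  refine Finset.sum_eq_zero fun p hp => ?_
  rw [Finset.HasAntidiagonal.mem_antidiagonal] at hp
  have h1 : p.1.degree + p.2.degree = d.degree := by rw [← hp, map_add]
  rcases lt_or_ge p.1.degree w with h | h
  · rw [hf _ h, zero_mul]
  · rw [hg _ (by omega), mul_zero]

theorem Van.mul_left (hf : Van w f) (g : MvPowerSeries (Fin 2) A) : Van w (g * f) := by
  have h := (van_zero_left g).mul hf
  rwa [zero_add] at h

theorem Van.mul_right (hf : Van w f) (g : MvPowerSeries (Fin 2) A) : Van w (f * g) := by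
  rw [mul_comm]
  exact hf.mul_left g

theorem Van.pow (hf : Van w f) (r : ℕ) : Van (r * w) (f ^ r) := by
  induction r with
  | zero => rw [zero_mul]; exact van_zero_left _
  | succ r ih =>
    rw [pow_succ, Nat.succ_mul]
    exact ih.mul hf

theorem Van.sum {ι : Type*} {s : Finset ι} {F : ι → MvPowerSeries (Fin 2) A}
    (h : ∀ i ∈ s, Van w (F i)) : Van w (∑ i ∈ s, F i) := fun d hd => by
  rw [map_sum]
  exact Finset.sum_eq_zero fun i hi => h i hi d hd

theorem Van.map {A' : Type*} [CommRing A'] (ψ : A →+* A') (hf : Van w f) :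
    Van w (MvPowerSeries.map ψ f) := fun d hd => by
  rw [MvPowerSeries.coeff_map, hf d hd, map_zero]

theorem Van.of_map {A' : Type*} [CommRing A'] {ψ : A →+* A'} (hψ : Function.Injective ψ)
    (hf : Van w (MvPowerSeries.map ψ f)) : Van w f := fun d hd => by
  have h := hf d hd
  rw [MvPowerSeries.coeff_map] at h
  exact (injective_iff_map_eq_zero ψ).1 hψ _ h

theorem van_one_iff : Van 1 f ↔ MvPowerSeries.constantCoeff f = 0 := by
  constructor
  · intro h
    have := h 0 (by simp)
    rwa [MvPowerSeries.coeff_zero_eq_constantCoeff] at this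
  · intro h d hd
    have hd0 : d = 0 := by
      rw [← Finsupp.degree_eq_zero_iff]
      omega
    rw [hd0, MvPowerSeries.coeff_zero_eq_constantCoeff]
    exact h

theorem eq_zero_of_van (h : ∀ w, Van w f) : f = 0 := by
  ext d
  rw [map_zero]
  exact h (d.degree + 1) d (Nat.lt_succ_self _)

theorem Van.of_mul_unit {u : MvPowerSeries (Fin 2) A} (hu : IsUnit u) (h : Van w (u * f)) :
    Van w f := by
  obtain ⟨c, hc⟩ := hu.exists_left_inv
  have h1 := h.mul_left c
  rwa [← mul_assoc, hc, one_mul] at h1

/-- the power series which vanish to order `w` form an ideal -/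
def vanIdeal (A : Type*) [CommRing A] (w : ℕ) : Ideal (MvPowerSeries (Fin 2) A) where
  carrier := {f | Van w f}
  add_mem' := fun h1 h2 => Van.add h1 h2
  zero_mem' := van_zero w
  smul_mem' := fun g _ h => Van.mul_left h g

theorem mem_vanIdeal : f ∈ vanIdeal A w ↔ Van w f := Iff.rfl

theorem vanIdeal_pow_le (A : Type*) [CommRing A] (w : ℕ) : vanIdeal A 1 ^ w ≤ vanIdeal A w := by
  induction w with
  | zero => intro f _; exact van_zero_left f
  | succ w ih =>
    rw [pow_succ, Ideal.mul_le]
    intro f hf g hg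
    exact Van.mul (ih hf) hg

end

/-- membership in the ideal of the forms which vanish to order `w`, in terms of a germ -/
theorem van_of_mem {N : ℕ} {J : Ideal (Poly N)} {l : Poly N} {v : Fin (N + 1) → ℂ}
    {φ : Poly N →ₐ[ℂ] MvPowerSeries (Fin 2) ℂ} (hJ : ∀ F ∈ J, φ F = 0) (hl : φ l = 1)
    (hv : ∀ F, MvPowerSeries.constantCoeff (φ F) = eval v F) {w : ℕ} {H : Poly N}
    (hH : H ∈ J ⊔ vecIdeal v ^ w ⊔ Ideal.span {l - 1}) : Van w (φ H) := by
  have key : J ⊔ vecIdeal v ^ w ⊔ Ideal.span {l - 1} ≤
      (vanIdeal ℂ w).comap (φ : Poly N →+* MvPowerSeries (Fin 2) ℂ) := by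
    refine sup_le (sup_le ?_ ?_) ?_
    · intro F hF
      rw [Ideal.mem_comap]
      change Van w (φ F)
      rw [hJ F hF]
      exact van_zero w
    · rw [← Ideal.map_le_iff_le_comap, Ideal.map_pow]
      refine le_trans (Ideal.pow_right_mono ?_ w) (vanIdeal_pow_le ℂ w)
      rw [Ideal.map_le_iff_le_comap]
      intro F hF
      rw [Ideal.mem_comap]
      change Van 1 (φ F)
      rw [van_one_iff, hv]
      exact hF
    · rw [Ideal.span_singleton_le_iff_mem, Ideal.mem_comap]
      change Van w (φ (l - 1))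
      rw [map_sub, map_one, hl, sub_self]
      exact van_zero w
  exact key hH

end Pool.Agent.Lib.MP_ed661f_ag.V
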