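import Pool.Agent.Lib.MP_ed661f_ag.V.Tr
import Pool.Agent.Lib.MP_ed661f_ag.V.Van

/-!
Transport of the points by automorphisms of the field of complex numbers.
-/

set_option autoImplicit false

open MvPolynomial

namespace Pool.Agent.Lib.MP_ed661f_ag.V

open Pool.Agent.Lib.MP_ed661f_ag.H

private theorem trPts_symm_apply {N : ℕ} (σ : ℂ ≃+* ℂ) (F : Poly N) :
    trm σ.symm (trm σ F) = F := by
  unfold trm
  rw [map_map]
  have h : ((σ.symm : ℂ →+* ℂ).comp (σ : ℂ →+* ℂ)) = RingHom.id ℂ := by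
    ext x
    simp
  rw [h, map_id]

private theorem trPts_apply_symm {N : ℕ} (σ : ℂ ≃+* ℂ) (F : Poly N) :
    trm σ (trm σ.symm F) = F := by
  have h := trPts_symm_apply σ.symm F
  rwa [RingEquiv.symm_symm] at h

private theorem trPts_mem {N : ℕ} (σ : ℂ ≃+* ℂ) {J : Ideal (Poly N)} {F : Poly N}
    (hF : F ∈ J.map (trm σ)) : trm σ.symm F ∈ J := by
  obtain ⟨G, hG, rfl⟩ := (Ideal.mem_map_iff_of_surjective (trm σ)
    (fun F => ⟨trm σ.symm F, trPts_apply_symm σ F⟩)).1 hF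
  rwa [trPts_symm_apply]

private theorem trPts_eval {N : ℕ} (σ : ℂ ≃+* ℂ) (v : Fin (N + 1) → ℂ) (F : Poly N) :
    eval (fun j => σ (v j)) (trm σ F) = σ (eval v F) := by
  unfold trm
  rw [eval_map]
  have h := (eval₂_comp_left (σ : ℂ →+* ℂ) (RingHom.id ℂ) v F).symm
  rw [RingHom.comp_id] at h
  exact h

private theorem trPts_eval' {N : ℕ} (σ : ℂ ≃+* ℂ) (v : Fin (N + 1) → ℂ) (F : Poly N) :
    eval (fun j => σ (v j)) F = σ (eval v (trm σ.symm F)) := by
  rw [← trPts_eval, trPts_apply_symm]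

/-- the transported germ -/
private noncomputable def trPtsHom {N : ℕ} (σ : ℂ ≃+* ℂ)
    (φ : Poly N →ₐ[ℂ] MvPowerSeries (Fin 2) ℂ) : Poly N →ₐ[ℂ] MvPowerSeries (Fin 2) ℂ :=
  { (MvPowerSeries.map (σ : ℂ →+* ℂ)).comp ((φ : Poly N →+* MvPowerSeries (Fin 2) ℂ).comp
      (trm σ.symm)) with
    commutes' := fun c => by
      have h1 : trm σ.symm (algebraMap ℂ (Poly N) c) = algebraMap ℂ (Poly N) (σ.symm c) :=
        map_C _ _
      change MvPowerSeries.map (σ : ℂ →+* ℂ) (φ (trm σ.symm (algebraMap ℂ (Poly N) c))) = _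
      rw [h1, AlgHom.commutes]
      change MvPowerSeries.map (σ : ℂ →+* ℂ) (MvPowerSeries.C (σ.symm c)) = MvPowerSeries.C c
      rw [MvPowerSeries.map_C]
      simp }

private theorem trPtsHom_apply {N : ℕ} (σ : ℂ ≃+* ℂ)
    (φ : Poly N →ₐ[ℂ] MvPowerSeries (Fin 2) ℂ) (F : Poly N) :
    trPtsHom σ φ F = MvPowerSeries.map (σ : ℂ →+* ℂ) (φ (trm σ.symm F)) := rfl

/-- **transport of the points**.

Proof. Let `L` be the linear forms for `J`; take `L' j = trm σ (L j)`. For `K'` let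
`K'' = K'.map σ.symm`, countable, and `v`, `φ` for `K''`; put `v' i j = σ (v i j)` and
`φ' i H = MvPowerSeries.map σ (φ i (trm σ.symm H))`, a homomorphism of `ℂ`-algebras. Then
`eval (v' i) (trm σ H) = σ (eval (v i) H)`, so `IsGerm` and the algebraic independence over `K'` are
transported (a relation over `K'` for the values gives one over `K''`, by applying `σ.symm` to its
coefficients), and `Van w (φ' i H)` means `Van w (φ i (trm σ.symm H))`, so `GFI` gives
`trm σ.symm H ∈ J`, `H ∈ J.map (trm σ)`. -/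
theorem Pts.map {N D n : ℕ} {J : Ideal (Poly N)} (h : Pts D J n) (σ : ℂ ≃+* ℂ) :
    Pts D (J.map (trm σ)) n := by
  obtain ⟨L, hL, hK⟩ := h
  refine ⟨fun j => trm σ (L j), fun j => (hL j).map _, fun K' hK' => ?_⟩
  have hc : ((K'.comap (σ : ℂ →+* ℂ) : Subfield ℂ) : Set ℂ).Countable := by
    have h1 : ((K'.comap (σ : ℂ →+* ℂ) : Subfield ℂ) : Set ℂ) = σ ⁻¹' (K' : Set ℂ) := rfl
    rw [h1]
    exact hK'.preimage_of_injOn σ.injective.injOn
  obtain ⟨v, φ, hg, hai, hgfi⟩ := hK (K'.comap (σ : ℂ →+* ℂ)) hc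
  refine ⟨fun i j => σ (v i j), fun i => trPtsHom σ (φ i), fun i => ?_, ?_, ?_⟩
  · refine ⟨fun F hF => ?_, fun F => ?_, ?_, ?_, ?_⟩
    · rw [trPtsHom_apply, (hg i).ker _ (trPts_mem σ hF), map_zero]
    · rw [trPtsHom_apply, trPts_eval', ← (hg i).const, MvPowerSeries.constantCoeff_map]
      rfl
    · rw [trPtsHom_apply, trPts_symm_apply, (hg i).l0, map_one]
    · rw [trPtsHom_apply, trPts_symm_apply, (hg i).l1, map_add, MvPowerSeries.map_C,
        MvPowerSeries.map_X, trPts_eval]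
      rfl
    · rw [trPtsHom_apply, trPts_symm_apply, (hg i).l2, map_add, MvPowerSeries.map_C,
        MvPowerSeries.map_X, trPts_eval]
      rfl
  · have h1 : (fun q : Fin n × Fin 2 => eval (fun j => σ (v q.1 j)) (trm σ (L q.2.succ))) =
        (σ : ℂ →+* ℂ) ∘ fun q : Fin n × Fin 2 => eval (v q.1) (L q.2.succ) := by
      funext q
      exact trPts_eval σ _ _
    rw [h1]
    refine AlgebraicIndependent.ringHom_of_comp_eq
      (((σ : ℂ →+* ℂ).restrict (K'.comap (σ : ℂ →+* ℂ)) K' (fun x hx => hx)))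
      (σ : ℂ →+* ℂ) hai ?_ σ.injective ?_
    · intro y
      refine ⟨⟨σ.symm y, ?_⟩, ?_⟩
      · change σ (σ.symm y) ∈ K'
        rw [RingEquiv.apply_symm_apply]
        exact y.2
      · apply Subtype.ext
        change σ (σ.symm y) = y
        rw [RingEquiv.apply_symm_apply]
    · ext x
      rfl
  · intro k w Q hQ hvan hlt
    have h1 : trm σ.symm Q ∈ J := hgfi k w _ (hQ.map _) (fun i => by
      have h2 := hvan i
      rw [trPtsHom_apply] at h2
      exact Van.of_map σ.injective h2) hlt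
    rw [← trPts_apply_symm σ Q]
    exact Ideal.mem_map_of_mem _ h1

end Pool.Agent.Lib.MP_ed661f_ag.V
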