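import Pool.Agent.Lib.MP_ed661f_ag.V.Van
import Pool.Agent.Lib.MP_ed661f_ag.H.Degrees
import Pool.Agent.Lib.MP_ed661f_ag.T.Global

/-!
The degree of the surface from the inequality for forms at one point, and from below.
-/

set_option autoImplicit false

open MvPolynomial Filter
open scoped ENNReal

namespace Pool.Agent.Lib.MP_ed661f_ag.V

open Pool.Agent.Lib.MP_ed661f_ag.H

/-- the coefficients of degree smaller than `w` -/
private noncomputable def jetMap {N : ℕ} (φ : Poly N →ₐ[ℂ] MvPowerSeries (Fin 2) ℂ) (w : ℕ) :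
    Poly N →ₗ[ℂ] ((Σ i : Fin w, Fin ((i : ℕ) + 1)) → ℂ) where
  toFun Q p := MvPowerSeries.coeff
    (Finsupp.single 0 (p.2 : ℕ) + Finsupp.single 1 ((p.1 : ℕ) - p.2)) (φ Q)
  map_add' F G := by
    funext p
    simp only [map_add, Pi.add_apply]
  map_smul' c F := by
    funext p
    simp only [map_smul, Pi.smul_apply, RingHom.id_apply]

private theorem van_of_jetMap {N : ℕ} {φ : Poly N →ₐ[ℂ] MvPowerSeries (Fin 2) ℂ} {w : ℕ}
    {Q : Poly N} (h : jetMap φ w Q = 0) : Van w (φ Q) := by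
  intro d hd
  have hdeg : d 0 + d 1 < w := by
    rw [Finsupp.degree_eq_sum, Fin.sum_univ_two] at hd
    exact hd
  have h1 := congrFun h ⟨⟨d 0 + d 1, hdeg⟩, ⟨d 0, by simp only; omega⟩⟩
  have h2 : d = Finsupp.single 0 (d 0) + Finsupp.single 1 (d 0 + d 1 - d 0) := by
    ext i
    fin_cases i
    · simp
    · simp
  rw [h2]
  exact h1

private theorem card_jets (w : ℕ) :
    2 * Fintype.card (Σ i : Fin w, Fin ((i : ℕ) + 1)) = w * (w + 1) := by
  rw [Fintype.card_sigma]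
  simp only [Fintype.card_fin]
  rw [Fin.sum_univ_eq_sum_range (fun i => i + 1) w]
  induction w with
  | zero => simp
  | succ w ih =>
    rw [Finset.sum_range_succ, mul_add, ih]
    ring

/-- **the Hilbert function, from above**.

Proof. The linear map which sends a form `Q` of degree `k` to the coefficients of `φ Q` of degree
smaller than `w` has its kernel contained in `J` (`hFI`), so `hilb J k` is at most the number
`w (w + 1) / 2` of the exponents `d` with `d.degree < w`. -/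
theorem hilb_le_of_germ {N D : ℕ} {J : Ideal (Poly N)}
    {φ : Poly N →ₐ[ℂ] MvPowerSeries (Fin 2) ℂ} (hFI : GFI D J (fun _ : Fin 1 => φ)) {k w : ℕ}
    (hw : D * k ^ 2 < w ^ 2) : 2 * hilb J k ≤ w * (w + 1) := by
  rw [← card_jets w]
  refine Nat.mul_le_mul_left 2 ?_
  have hker : LinearMap.ker ((jetMap φ w).domRestrict (homogeneousSubmodule (Fin (N + 1)) ℂ k)) ≤
      LinearMap.ker ((Ideal.Quotient.mkₐ ℂ J).toLinearMap.domRestrict
        (homogeneousSubmodule (Fin (N + 1)) ℂ k)) := by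
    intro Q hQ
    rw [LinearMap.mem_ker, LinearMap.domRestrict_apply] at hQ ⊢
    have h1 : Q.1 ∈ J := hFI k w Q.1 Q.2 (fun _ => van_of_jetMap hQ) (by rw [one_mul]; exact hw)
    exact Ideal.Quotient.eq_zero_iff_mem.2 h1
  have h1 := LinearMap.finrank_range_add_finrank_ker
    ((jetMap φ w).domRestrict (homogeneousSubmodule (Fin (N + 1)) ℂ k))
  have h2 := LinearMap.finrank_range_add_finrank_ker
    ((Ideal.Quotient.mkₐ ℂ J).toLinearMap.domRestrict (homogeneousSubmodule (Fin (N + 1)) ℂ k))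
  have h3 := Submodule.finrank_mono hker
  have h4 := Submodule.finrank_le (LinearMap.range
    ((jetMap φ w).domRestrict (homogeneousSubmodule (Fin (N + 1)) ℂ k)))
  rw [Module.finrank_pi] at h4
  have h5 : hilb J k = Module.finrank ℂ (LinearMap.range
      ((Ideal.Quotient.mkₐ ℂ J).toLinearMap.domRestrict
        (homogeneousSubmodule (Fin (N + 1)) ℂ k))) := by
    rw [LinearMap.range_domRestrict]
    rfl
  omega

/-- Proof. `hilb_le_of_germ` with `w = ⌊√D k⌋ + 1`, so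
`2 hilb J k ≤ (√D k + 1) (√D k + 2)`. -/
theorem surfDeg_le_of_germ {N D : ℕ} {J : Ideal (Poly N)}
    {φ : Poly N →ₐ[ℂ] MvPowerSeries (Fin 2) ℂ} (hFI : GFI D J (fun _ : Fin 1 => φ)) :
    surfDeg J ≤ D := by
  have t1 : Tendsto (fun k : ℕ => Real.sqrt D + 1 / (k : ℝ)) atTop (nhds (Real.sqrt D + 0)) :=
    tendsto_const_nhds.add (tendsto_const_div_atTop_nhds_zero_nat 1)
  have t2 : Tendsto (fun k : ℕ => Real.sqrt D + 2 / (k : ℝ)) atTop (nhds (Real.sqrt D + 0)) :=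
    tendsto_const_nhds.add (tendsto_const_div_atTop_nhds_zero_nat 2)
  have t3 := t1.mul t2
  rw [add_zero, Real.mul_self_sqrt (Nat.cast_nonneg D)] at t3
  have h3 := liminf_le_ofReal (u := fun k : ℕ => 2 * (hilb J k : ℝ≥0∞) / (k : ℝ≥0∞) ^ 2) ?_ t3
  · rw [ENNReal.ofReal_natCast] at h3
    exact h3
  · filter_upwards [eventually_ge_atTop 1] with k hk
    have e1 : 2 * (hilb J k : ℝ≥0∞) / (k : ℝ≥0∞) ^ 2 =
        ((2 * hilb J k : ℕ) : ℝ≥0∞) / ((k ^ 2 : ℕ) : ℝ≥0∞) := by push_cast; rfl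
    rw [e1, cast_div_eq (Nat.one_le_pow _ _ hk)]
    apply ENNReal.ofReal_le_ofReal
    have hk' : (0 : ℝ) < k := by exact_mod_cast hk
    obtain ⟨w, hw⟩ : ∃ w, w = Nat.sqrt (D * k ^ 2) := ⟨_, rfl⟩
    have h1 : D * k ^ 2 < (w + 1) ^ 2 := by
      rw [hw, sq (Nat.sqrt (D * k ^ 2) + 1)]
      exact Nat.lt_succ_sqrt _
    have h2 : (w : ℝ) ≤ Real.sqrt D * k := by
      have h3 : w ^ 2 ≤ D * k ^ 2 := by
        rw [hw, sq]
        exact Nat.sqrt_le _
      have h4 : (w : ℝ) ^ 2 ≤ (Real.sqrt D * k) ^ 2 := by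
        rw [mul_pow, Real.sq_sqrt (Nat.cast_nonneg D)]
        exact_mod_cast h3
      exact (sq_le_sq₀ (Nat.cast_nonneg w) (by positivity)).1 h4
    have h5 := hilb_le_of_germ hFI h1
    have h6 : ((2 * hilb J k : ℕ) : ℝ) ≤ (Real.sqrt D * k + 1) * (Real.sqrt D * k + 2) := by
      have h7 : ((2 * hilb J k : ℕ) : ℝ) ≤ (((w + 1) * (w + 1 + 1) : ℕ) : ℝ) := by
        exact_mod_cast h5
      refine h7.trans ?_
      push_cast
      have h8 : (0 : ℝ) ≤ w := Nat.cast_nonneg w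
      nlinarith
    have e2 : (Real.sqrt D + 1 / (k : ℝ)) * (Real.sqrt D + 2 / (k : ℝ)) =
        (Real.sqrt D * k + 1) * (Real.sqrt D * k + 2) / (k : ℝ) ^ 2 := by
      field_simp
    rw [e2]
    push_cast at h6 ⊢
    exact div_le_div_of_nonneg_right h6 (by positivity)

/-- Proof. The limit of `(D k ^ 2 - c (k + 1)) / k ^ 2` is `D`. -/
theorem le_surfDeg {N D c : ℕ} {J : Ideal (Poly N)}
    (h : ∀ k : ℕ, D * k ^ 2 ≤ 2 * hilb J k + c * (k + 1)) : (D : ℝ≥0∞) ≤ surfDeg J := by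
  have t1 : Tendsto (fun k : ℕ => (D : ℝ) - (c : ℝ) / (k : ℝ) - ((c : ℝ) / (k : ℝ)) * (1 / (k : ℝ)))
      atTop (nhds ((D : ℝ) - 0 - 0 * 0)) :=
    (tendsto_const_nhds.sub (tendsto_const_div_atTop_nhds_zero_nat _)).sub
      ((tendsto_const_div_atTop_nhds_zero_nat _).mul (tendsto_const_div_atTop_nhds_zero_nat 1))
  rw [mul_zero, sub_zero, sub_zero] at t1
  have h3 := ofReal_le_liminf (u := fun k : ℕ => 2 * (hilb J k : ℝ≥0∞) / (k : ℝ≥0∞) ^ 2) ?_ t1
  · rw [ENNReal.ofReal_natCast] at h3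
    exact h3
  · filter_upwards [eventually_ge_atTop 1] with k hk
    have e1 : 2 * (hilb J k : ℝ≥0∞) / (k : ℝ≥0∞) ^ 2 =
        ((2 * hilb J k : ℕ) : ℝ≥0∞) / ((k ^ 2 : ℕ) : ℝ≥0∞) := by push_cast; rfl
    rw [e1, cast_div_eq (Nat.one_le_pow _ _ hk)]
    apply ENNReal.ofReal_le_ofReal
    have hk' : (0 : ℝ) < k := by exact_mod_cast hk
    have h4 : (D : ℝ) * (k : ℝ) ^ 2 ≤ 2 * (hilb J k : ℝ) + c * ((k : ℝ) + 1) := by
      exact_mod_cast h k
    have e2 : (D : ℝ) - (c : ℝ) / (k : ℝ) - ((c : ℝ) / (k : ℝ)) * (1 / (k : ℝ)) =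
        ((D : ℝ) * (k : ℝ) ^ 2 - c * ((k : ℝ) + 1)) / (k : ℝ) ^ 2 := by
      field_simp
      ring
    rw [e2]
    push_cast
    exact div_le_div_of_nonneg_right (by linarith) (by positivity)

end Pool.Agent.Lib.MP_ed661f_ag.V
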