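import Pool.Agent.Lib.MP_ed661f_ag.V.ExistsG0
import Pool.Agent.Lib.MP_ed661f_ag.V.TrPts
import Pool.Agent.Lib.MP_ed661f_ag.V.NotMem
import Pool.Agent.Lib.MP_ed661f_ag.V.CurvesN
import Pool.Agent.Lib.MP_ed661f_ag.V.LowerN
import Pool.Agent.Lib.MP_ed661f_ag.V.UpDeg
import Pool.Agent.Lib.MP_ed661f_ag.W.Ext
import Pool.Agent.Lib.MP_ed661f_ag.S.Up.UpperGen

/-!
The multipoint Seshadri constants of very general surfaces in arbitrary threefolds.
-/

set_option autoImplicit false

open MvPolynomial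
open scoped ENNReal

namespace Pool.Agent.Lib.MP_ed661f_ag.V

open Pool.Agent.Lib.MP_ed661f_ag.H Pool.Agent.Lib.MP_ed661f_ag.S

/-- an automorphism of the field of complex numbers over `K` which maps a very general form to
another one -/
theorem exists_aut_form {N m : ℕ} {K : Subfield ℂ} (hKc : (K : Set ℂ).Countable) {G G' : Poly N}
    (hG : VeryGeneralOver K m G) (hG' : VeryGeneralOver K m G') :
    ∃ σ : ℂ ≃+* ℂ, (∀ x ∈ K, σ x = x) ∧ trm σ G = G' := by
  have hct : Countable K := hKc.to_subtype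
  obtain ⟨σ, h1, h2⟩ := W.exists_autK hG.2 hG'.2
  refine ⟨σ, h1, ?_⟩
  refine form_extN (hG.1.map _) hG'.1 fun α => ?_
  rw [trm, coeff_map]
  exact h2 α

/-- the points and the Hilbert function for every very general section -/
theorem pts_all {N e μ : ℕ} {I : Ideal (Poly N)} (hI : IsThreefold I) (he : threeDeg I = e)
    {K : Subfield ℂ} (hKc : (K : Set ℂ).Countable) (hK : DefinedOver K I) (hμ : 6 ≤ μ)
    {G : Poly N} (hG : VeryGeneralOver K (e * μ) G) (n : ℕ) :
    Pts (e * (e * μ)) (I ⊔ Ideal.span {G}).radical n ∧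
      (n = 1 → ∃ c : ℕ, ∀ k : ℕ,
        e * (e * μ) * k ^ 2 ≤ 2 * hilb (I ⊔ Ideal.span {G}).radical k + c * (k + 1)) := by
  obtain ⟨G0, hG0, hpts, hlow⟩ := exists_G0 (n := n) hI he hKc hK hμ
  obtain ⟨σ, hσ, hσG⟩ := exists_aut_form hKc hG0 hG
  have h1 : (I ⊔ Ideal.span {G0}).radical.map (trm σ) = (I ⊔ Ideal.span {G}).radical := by
    rw [map_radical hσ hK, hσG]
  refine ⟨?_, fun hn => ?_⟩
  · have h2 := hpts.map σ
    rwa [h1] at h2
  · obtain ⟨c, hc⟩ := hlow hn
    refine ⟨c, fun k => ?_⟩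
    have h2 := hc k
    rw [← hilb_map σ, h1] at h2
    exact h2

/-- **Theorem.** Let `I` be the homogeneous ideal of an irreducible threefold of degree `e`, defined
over the countable field `K`, and `G` a form of degree `m = e μ`, `μ ≥ 6`, with coefficients which
are algebraically independent over `K`. Then the radical of `I + (G)` is the ideal of an
irreducible surface, the self-intersection of its hyperplane class is `e m`, and its multipoint
Seshadri constants are `√(e m / n)` for every `n ≥ 1`. -/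
theorem main {N e μ : ℕ} {I : Ideal (Poly N)} (hI : IsThreefold I) (he : threeDeg I = e)
    {K : Subfield ℂ} (hKc : (K : Set ℂ).Countable) (hK : DefinedOver K I) (hμ : 6 ≤ μ)
    {G : Poly N} (hG : VeryGeneralOver K (e * μ) G) :
    IsSurface (I ⊔ Ideal.span {G}).radical ∧
      surfDeg (I ⊔ Ideal.span {G}).radical = ((e * (e * μ) : ℕ) : ℝ≥0∞) ∧
      ∀ n : ℕ, 1 ≤ n → eps (I ⊔ Ideal.span {G}).radical n =
        ENNReal.ofReal (Real.sqrt (((e * (e * μ) : ℕ) : ℝ) / n)) := by
  set J := (I ⊔ Ideal.span {G}).radical with hJ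
  have hIJ : I ≤ J := le_sup_left.trans Ideal.le_radical
  have hGJ : G ∈ J := Ideal.le_radical (Ideal.mem_sup_right (Ideal.subset_span rfl))
  have hh : ∀ F ∈ J, ∀ k, homogeneousComponent k F ∈ J :=
    hom_radical (hom_sup_span hI.homogeneous hG.1)
  have hGI : G ∉ I := not_mem_of_veryGeneral hI hK hG
  obtain ⟨h1, hlow⟩ := pts_all hI he hKc hK hμ hG 1
  obtain ⟨c, hc⟩ := hlow rfl
  obtain ⟨L, hL, hpts⟩ := h1
  obtain ⟨v, φ, hgerm, -, hgfi⟩ := hpts K hKc
  have hgfi' : GFI (e * (e * μ)) J (fun _ : Fin 1 => φ 0) := by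
    intro k w R hR hw hlt
    refine hgfi k w R hR (fun i => ?_) hlt
    rw [Subsingleton.elim i 0]
    exact hw 0
  have hprime : J.IsPrime := prime_of_germ hh (hgerm 0).ker hgfi'
  have hsurf : IsSurface J :=
    ⟨hprime, hh, dim_three hI hprime hh hIJ hGJ hGI hL (inj_of_germ hh hL (hgerm 0))⟩
  have hdeg : surfDeg J = ((e * (e * μ) : ℕ) : ℝ≥0∞) :=
    le_antisymm (surfDeg_le_of_germ hgfi') (le_surfDeg hc)
  refine ⟨hsurf, hdeg, fun n hn => le_antisymm (Up.eps_le_gen hn hsurf hdeg) ?_⟩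
  obtain ⟨l, u, hl, hinj, hu1, hu2, hcur⟩ := curves_of_pts hn hsurf hdeg
    (pts_all hI he hKc hK hμ hG n).1
  exact le_eps hn hh hl hinj hu1 hu2 hcur

/-- a countable field of definition and a very general form exist -/
theorem nonvacuous {N : ℕ} (I : Ideal (Poly N)) (m : ℕ) :
    ∃ K : Subfield ℂ, (K : Set ℂ).Countable ∧ DefinedOver K I ∧
      ∃ G : Poly N, VeryGeneralOver K m G := by
  obtain ⟨S, hSc, hS⟩ := exists_definedOver I
  have hct : Countable (Subfield.closure S) := Hn.countable_closure S hSc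
  refine ⟨Subfield.closure S, Set.countable_coe_iff.1 hct, hS _ Subfield.subset_closure, ?_⟩
  obtain ⟨U, hU⟩ := Hn.exists_indep (Subfield.closure S)
    {α : Fin (N + 1) →₀ ℕ // α.degree = m}
  obtain ⟨G, hGh, hGc⟩ := exists_formN U
  refine ⟨G, hGh, ?_⟩
  have h1 : (fun α : {α : Fin (N + 1) →₀ ℕ // α.degree = m} => coeff α.1 G) = U := funext hGc
  rw [h1]
  exact hU

/-- the degree of a threefold is a positive natural number -/
theorem exists_threeDeg {N : ℕ} {I : Ideal (Poly N)} (hI : IsThreefold I) :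
    ∃ e : ℕ, 1 ≤ e ∧ threeDeg I = e := by
  obtain ⟨e, q, P, L, s, h⟩ := exists_proj5 hI
  exact ⟨e, h.he, h.threeDeg_eq hI⟩

end Pool.Agent.Lib.MP_ed661f_ag.V
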