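import Pool.Agent.Lib.MP_ed661f_ag.S.Indep
import Pool.Agent.Lib.MP_ed661f_ag.S.Hens

/-!
The valuation ring of a place of the complex numbers, and the ring of power series in two variables
over a henselian local ring, are henselian.
-/

set_option autoImplicit false

namespace Pool.Agent.Lib.MP_ed661f_ag.V

open Pool.Agent.Lib.MP_ed661f_ag.S

/-- the valuation ring of a place is henselian.

Proof. It is a local ring (`ValuationSubring`), and `x ∈ IsLocalRing.maximalIdeal p.B` means
`p.ρ x = 0` (`p.ker`). Use `S.Hn.exists_root'`. -/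
theorem henselian_place (p : Place) : HenselianLocalRing p.B := by
  refine { is_henselian := fun f _ a₀ h₀ h₁ => ?_ }
  obtain ⟨z, hz1, hz2⟩ := S.Hn.exists_root' p f a₀ ((p.ker _).2 h₀) (h₁.map p.ρ).ne_zero
  refine ⟨z, hz1, (p.ker _).1 ?_⟩
  rw [map_sub, hz2, sub_self]

section ps

variable {A : Type} [CommRing A]

/-- power series of order at least `n` -/
private def hb_J (n : ℕ) : Ideal (MvPowerSeries (Fin 2) A) where
  carrier := {f | (n : ℕ∞) ≤ f.order}
  zero_mem' := by
    change (n : ℕ∞) ≤ (0 : MvPowerSeries (Fin 2) A).order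
    rw [MvPowerSeries.order_zero]
    exact le_top
  add_mem' := fun {f g} hf hg => (le_min hf hg).trans MvPowerSeries.min_order_le_add
  smul_mem' := fun c f hf => by
    change (n : ℕ∞) ≤ (c * f).order
    exact (le_add_left hf).trans MvPowerSeries.le_order_mul

private theorem hb_mem {n : ℕ} {f : MvPowerSeries (Fin 2) A} :
    f ∈ hb_J (A := A) n ↔ (n : ℕ∞) ≤ f.order := Iff.rfl

private theorem hb_coeff {n : ℕ} {f : MvPowerSeries (Fin 2) A} (h : f ∈ hb_J (A := A) n)
    {d : Fin 2 →₀ ℕ} (hd : d.degree < n) : MvPowerSeries.coeff d f = 0 := by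
  refine MvPowerSeries.coeff_of_lt_order (lt_of_lt_of_le ?_ (hb_mem.1 h))
  exact_mod_cast hd

private theorem hb_pow (n : ℕ) :
    RingHom.ker (MvPowerSeries.constantCoeff (σ := Fin 2) (R := A)) ^ n ≤ hb_J (A := A) n := by
  induction n with
  | zero =>
    intro f _
    rw [hb_mem]
    simp
  | succ n ih =>
    rw [pow_succ, Ideal.mul_le]
    intro f hf g hg
    rw [hb_mem]
    have h1 : (n : ℕ∞) ≤ f.order := hb_mem.1 (ih hf)
    have h2 : 1 ≤ g.order := MvPowerSeries.one_le_order_iff_constCoeff_eq_zero.2 hg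
    rw [Nat.cast_add, Nat.cast_one]
    exact (add_le_add h1 h2).trans MvPowerSeries.le_order_mul

end ps

/-- the ring of power series in two variables over a henselian local ring is a henselian local ring.

Proof. It is local, and `f` is a unit if and only if its constant coefficient is a unit (Mathlib).
Let `f` be a monic polynomial over `A[[S,T]]` and `a₀` with `f(a₀)` in the maximal ideal and
`f'(a₀)` a unit. The polynomial `f.map constantCoeff` over `A` is monic, and Hensel's lemma in `A`
gives a root `c` of it, congruent to the constant coefficient of `a₀` modulo the maximal ideal of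
`A`. The ring `A[[S,T]]` is complete for the ideal `(S,T)` (Mathlib: `IsAdicComplete` for
`Ideal.span (Set.range MvPowerSeries.X)`), so it is a `HenselianRing` for this ideal, and `C c`
is a root modulo `(S,T)` at which `f'` is a unit; so there is a root `a` with `a - C c ∈ (S,T)`. (Or
use Newton's method `S.Hn.newton_exists` modulo all powers of `(S,T)`.) -/
theorem henselian_mvPowerSeries (A : Type) [CommRing A] [HenselianLocalRing A] :
    HenselianLocalRing (MvPowerSeries (Fin 2) A) := by
  refine { is_henselian := fun f hf a₀ h₀ h₁ => ?_ }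
  let c : MvPowerSeries (Fin 2) A →+* A := MvPowerSeries.constantCoeff
  have hcu : ∀ x : MvPowerSeries (Fin 2) A, IsUnit x ↔ IsUnit (c x) := fun x =>
    MvPowerSeries.isUnit_iff_constantCoeff
  have hcm : ∀ x : MvPowerSeries (Fin 2) A, x ∈ IsLocalRing.maximalIdeal (MvPowerSeries (Fin 2) A) ↔
      c x ∈ IsLocalRing.maximalIdeal A := fun x => by
    rw [IsLocalRing.mem_maximalIdeal, IsLocalRing.mem_maximalIdeal, mem_nonunits_iff,
      mem_nonunits_iff, hcu]
  have hev : ∀ (P : Polynomial (MvPowerSeries (Fin 2) A)) (x : MvPowerSeries (Fin 2) A),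
      c (P.eval x) = (P.map c).eval (c x) := fun P x =>
    (Polynomial.eval_map_apply (f := c) (p := P) x).symm
  -- the constant coefficient
  obtain ⟨b, hb1, hb2⟩ := HenselianLocalRing.is_henselian (f.map c) (hf.map c) (c a₀)
    (by rw [← hev]; exact (hcm _).1 h₀)
    (by rw [Polynomial.derivative_map, ← hev]; exact (hcu _).1 h₁)
  obtain ⟨z, hz⟩ : ∃ z : MvPowerSeries (Fin 2) A, z = MvPowerSeries.C b := ⟨_, rfl⟩
  have hcz : c z = b := by
    rw [hz]
    exact MvPowerSeries.constantCoeff_C b
  have hz0 : f.eval z ∈ RingHom.ker c := by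
    rw [RingHom.mem_ker, hev, hcz]
    exact hb1
  have hz1 : IsUnit (f.derivative.eval z) := by
    rw [hcu, hev, hcz]
    by_contra hn
    have h2 : (f.derivative.map c).eval b ∈ IsLocalRing.maximalIdeal A := hn
    have h3 := S.Hn.eval_sub_mem (IsLocalRing.maximalIdeal A) (f.derivative.map c) hb2
    have h4 := Ideal.sub_mem _ h2 h3
    rw [sub_sub_cancel, ← hev] at h4
    exact h4 ((hcu _).1 h₁)
  obtain ⟨u, hu⟩ := hz1.exists_right_inv
  have hu' : f.derivative.eval z * u - 1 ∈ RingHom.ker c := by
    rw [hu, sub_self]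
    exact Ideal.zero_mem _
  choose ζ hζ1 hζ2 using fun w => S.Hn.newton_exists (RingHom.ker c) f hz0 hu' w
  have hζ : ∀ w w' : ℕ, w ≤ w' → ζ w - ζ w' ∈ RingHom.ker c ^ (w + 1) := fun w w' hw => by
    refine S.Hn.newton_unique (RingHom.ker c) f (u := u) (w + 1) (hζ2 w)
      (Ideal.pow_le_pow_right (by omega) (hζ2 w')) ?_ ?_
    · have h := Ideal.sub_mem _ (hζ1 w) (hζ1 w')
      rwa [sub_sub_sub_cancel_right] at h
    · have h := S.Hn.eval_sub_mem (RingHom.ker c) f.derivative (hζ1 w')
      have h2 := Ideal.add_mem _ (Ideal.mul_mem_right u _ h) hu'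
      have h3 : (f.derivative.eval (ζ w') - f.derivative.eval z) * u +
          (f.derivative.eval z * u - 1) = f.derivative.eval (ζ w') * u - 1 := by ring
      rwa [h3] at h2
  -- the limit
  let a : MvPowerSeries (Fin 2) A := fun m => MvPowerSeries.coeff m (ζ m.degree)
  have hac : ∀ m, MvPowerSeries.coeff m a = MvPowerSeries.coeff m (ζ m.degree) := fun m => rfl
  have haζ : ∀ w, a - ζ w ∈ hb_J (A := A) (w + 1) := fun w => by
    rw [hb_mem]
    refine MvPowerSeries.nat_le_order fun d hd => ?_
    rw [map_sub, hac, ← map_sub]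
    exact hb_coeff (hb_pow _ (hζ _ _ (by omega))) (by omega)
  have hfa : ∀ w, f.eval a ∈ hb_J (A := A) (w + 1) := fun w => by
    have h := S.Hn.eval_sub_mem _ f (haζ w)
    have h2 := Ideal.add_mem _ h (hb_pow _ (hζ2 w))
    rwa [sub_add_cancel] at h2
  refine ⟨a, ?_, ?_⟩
  · change f.eval a = 0
    ext d
    rw [map_zero]
    exact hb_coeff (hfa d.degree) (by omega)
  · rw [hcm, map_sub]
    have h1 : c a = b := by
      have h2 : c a = c (ζ 0) := by
        have h3 := hac 0
        rw [map_zero] at h3
        exact h3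
      have h4 : c (ζ 0 - z) = 0 := hζ1 0
      rw [map_sub, sub_eq_zero] at h4
      rw [h2, h4, hcz]
    rw [h1]
    exact hb2

end Pool.Agent.Lib.MP_ed661f_ag.V
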