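import Pool.Agent.Lib.MP_ed661f_ag.V.Hens
import Pool.Agent.Lib.MP_ed661f_ag.V.HensB
import Pool.Agent.Lib.MP_ed661f_ag.V.LiftB

/-!
Germs of `P = H = 0` in the space of dimension four over the valuation ring of a place.
-/

set_option autoImplicit false

open MvPolynomial

namespace Pool.Agent.Lib.MP_ed661f_ag.V

open Pool.Agent.Lib.MP_ed661f_ag.H Pool.Agent.Lib.MP_ed661f_ag.S

private theorem germ1A_chain {A R : Type} [CommRing A] [CommRing R] [Algebra A R] {n : ℕ}
    (i : Fin 2) (v : Fin n → MvPolynomial (Fin 2) R) (Q : MvPolynomial (Fin n) A) :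
    pderiv i (aeval v Q) = ∑ j, aeval v (pderiv j Q) * pderiv i (v j) := by
  classical
  induction Q using MvPolynomial.induction_on with
  | C a =>
    rw [aeval_C, IsScalarTower.algebraMap_apply A R, algebraMap_eq, pderiv_C]
    refine (Finset.sum_eq_zero fun j _ => ?_).symm
    rw [pderiv_C, map_zero, zero_mul]
  | add P Q hP hQ =>
    rw [map_add, map_add, hP, hQ, ← Finset.sum_add_distrib]
    refine Finset.sum_congr rfl fun j _ => ?_
    rw [map_add, map_add, add_mul]
  | mul_X P k hP =>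
    rw [map_mul, aeval_X, Derivation.leibniz, smul_eq_mul, smul_eq_mul, hP, Finset.mul_sum]
    have h1 : ∀ j, aeval v (pderiv j (P * X k)) * pderiv i (v j) =
        (if j = k then aeval v P * pderiv i (v j) else 0) +
          v k * (aeval v (pderiv j P) * pderiv i (v j)) := by
      intro j
      rw [Derivation.leibniz, smul_eq_mul, smul_eq_mul, map_add, map_mul, map_mul, aeval_X,
        pderiv_X, add_mul]
      by_cases hjk : j = k
      · subst hjk
        rw [Pi.single_eq_same, map_one, if_pos rfl]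
        ring
      · rw [Pi.single_eq_of_ne (Ne.symm hjk), map_zero, if_neg hjk]
        ring
    rw [Finset.sum_congr rfl fun j _ => h1 j, Finset.sum_add_distrib,
      Finset.sum_ite_eq' Finset.univ k, if_pos (Finset.mem_univ k)]

private theorem germ1A_eval {A R : Type} [CommRing A] [CommRing R] [Algebra A R] {n : ℕ}
    (x : Fin 2 → R) (v : Fin n → MvPolynomial (Fin 2) R) (Q : MvPolynomial (Fin n) A) :
    eval x (aeval v Q) = aeval (fun j => eval x (v j)) Q := by
  rw [map_aeval]
  have h1 : (eval x).comp (algebraMap A (MvPolynomial (Fin 2) R)) = algebraMap A R := by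
    ext a
    rw [RingHom.comp_apply, IsScalarTower.algebraMap_apply A R, algebraMap_eq, eval_C]
  rw [h1]
  rfl

private theorem germ1A_cc {A : Type} [CommRing A] {n : ℕ} (w : Fin n → MvPowerSeries (Fin 2) A)
    (Q : MvPolynomial (Fin n) A) : MvPowerSeries.constantCoeff (aeval w Q) =
      eval (fun j => MvPowerSeries.constantCoeff (w j)) Q := by
  rw [map_aeval]
  have h1 : (MvPowerSeries.constantCoeff (σ := Fin 2) (R := A)).comp
      (algebraMap A (MvPowerSeries (Fin 2) A)) = RingHom.id A := by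
    ext a
    rw [RingHom.comp_apply, ← MvPowerSeries.c_eq_algebraMap, MvPowerSeries.constantCoeff_C,
      RingHom.id_apply]
  rw [h1]
  rfl

private theorem germ1A_rho (p : Place) {n : ℕ} {w w' : Fin n → p.B}
    (h : ∀ j, p.ρ (w j) = p.ρ (w' j)) (Q : MvPolynomial (Fin n) p.B) :
    p.ρ (eval w Q) = p.ρ (eval w' Q) := by
  have h1 := eval₂_comp_left p.ρ (RingHom.id p.B) w Q
  have h2 := eval₂_comp_left p.ρ (RingHom.id p.B) w' Q
  have h3 : (p.ρ ∘ w) = p.ρ ∘ w' := funext h
  rw [h3] at h1
  exact h1.trans h2.symm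

private theorem germ1A_mem (p : Place) [IsLocalRing (MvPowerSeries (Fin 2) p.B)]
    (f : MvPowerSeries (Fin 2) p.B) :
    f ∈ IsLocalRing.maximalIdeal (MvPowerSeries (Fin 2) p.B) ↔
      p.ρ (MvPowerSeries.constantCoeff f) = 0 := by
  rw [IsLocalRing.mem_maximalIdeal, mem_nonunits_iff, MvPowerSeries.isUnit_iff_constantCoeff,
    p.ker, IsLocalRing.mem_maximalIdeal, mem_nonunits_iff]

/-- **Hensel's lemma for the germ**: the second and the fourth coordinate as functions of the first
and the third.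

Proof. `hensel_two` over `R = MvPowerSeries (Fin 2) p.B` (henselian, by `henselian_place`,
`henselian_mvPowerSeries`) for `f 0 = PB(1, C (c 1) + X 0, x_0, C (c 3) + X 1, x_1)`,
`f 1 = HB(the same)`, `x0 = (C (c 2), C (c 4))`. The maximal ideal of `R` is the set of the power
series whose constant coefficient reduces to `0` under `p.ρ`, and the constant coefficient of the
Jacobian determinant at `x0` is the element in `hJ`. -/
theorem germ1A (p : Place) {PB HB : MvPolynomial (Fin 5) p.B} {c : Fin 5 → p.B} (hc0 : c 0 = 1)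
    (hP : p.ρ (eval c PB) = 0) (hH : p.ρ (eval c HB) = 0)
    (hJ : p.ρ (eval c (pderiv 2 PB) * eval c (pderiv 4 HB) -
      eval c (pderiv 4 PB) * eval c (pderiv 2 HB)) ≠ 0) :
    ∃ y : Fin 5 → MvPowerSeries (Fin 2) p.B, y 0 = 1 ∧
      y 1 = MvPowerSeries.C (c 1) + MvPowerSeries.X 0 ∧
      y 3 = MvPowerSeries.C (c 3) + MvPowerSeries.X 1 ∧ aeval y PB = 0 ∧ aeval y HB = 0 ∧
      ∀ j, p.ρ (MvPowerSeries.constantCoeff (y j)) = p.ρ (c j) := by
  classical
  have i1 : HenselianLocalRing p.B := henselian_place p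
  have i2 : HenselianLocalRing (MvPowerSeries (Fin 2) p.B) := henselian_mvPowerSeries p.B
  let v : Fin 5 → MvPolynomial (Fin 2) (MvPowerSeries (Fin 2) p.B) :=
    ![1, C (MvPowerSeries.C (c 1) + MvPowerSeries.X 0), X 0,
      C (MvPowerSeries.C (c 3) + MvPowerSeries.X 1), X 1]
  have hv : ∀ x : Fin 2 → MvPowerSeries (Fin 2) p.B, (fun j => eval x (v j)) =
      ![1, MvPowerSeries.C (c 1) + MvPowerSeries.X 0, x 0,
        MvPowerSeries.C (c 3) + MvPowerSeries.X 1, x 1] := by
    intro x
    funext j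
    fin_cases j <;> simp [v]
  let x0 : Fin 2 → MvPowerSeries (Fin 2) p.B := ![MvPowerSeries.C (c 2), MvPowerSeries.C (c 4)]
  have hcc : ∀ Q : MvPolynomial (Fin 5) p.B,
      MvPowerSeries.constantCoeff (eval x0 (aeval v Q)) = eval c Q := by
    intro Q
    rw [germ1A_eval, hv, germ1A_cc]
    have h3 : (fun j => MvPowerSeries.constantCoeff
        ((![1, MvPowerSeries.C (c 1) + MvPowerSeries.X 0, x0 0,
          MvPowerSeries.C (c 3) + MvPowerSeries.X 1, x0 1] :
            Fin 5 → MvPowerSeries (Fin 2) p.B) j)) = c := by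
      funext j
      fin_cases j <;> simp [x0, hc0]
    rw [h3]
  have hd0 : ∀ Q : MvPolynomial (Fin 5) p.B, pderiv 0 (aeval v Q) = aeval v (pderiv 2 Q) := by
    intro Q
    rw [germ1A_chain, Fin.sum_univ_five]
    have a0 : pderiv 0 (v 0) = 0 := by
      change pderiv 0 (1 : MvPolynomial (Fin 2) (MvPowerSeries (Fin 2) p.B)) = 0
      exact pderiv_one
    have a1 : pderiv 0 (v 1) = 0 := by
      change pderiv 0 (C (MvPowerSeries.C (c 1) + MvPowerSeries.X 0)) = 0
      exact pderiv_C
    have a2 : pderiv 0 (v 2) = 1 := by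
      change pderiv 0 (X 0) = 1
      exact pderiv_X_self 0
    have a3 : pderiv 0 (v 3) = 0 := by
      change pderiv 0 (C (MvPowerSeries.C (c 3) + MvPowerSeries.X 1)) = 0
      exact pderiv_C
    have a4 : pderiv 0 (v 4) = 0 := by
      change pderiv 0 (X 1) = 0
      exact pderiv_X_of_ne (by decide)
    rw [a0, a1, a2, a3, a4]
    ring
  have hd1 : ∀ Q : MvPolynomial (Fin 5) p.B, pderiv 1 (aeval v Q) = aeval v (pderiv 4 Q) := by
    intro Q
    rw [germ1A_chain, Fin.sum_univ_five]
    have a0 : pderiv 1 (v 0) = 0 := by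
      change pderiv 1 (1 : MvPolynomial (Fin 2) (MvPowerSeries (Fin 2) p.B)) = 0
      exact pderiv_one
    have a1 : pderiv 1 (v 1) = 0 := by
      change pderiv 1 (C (MvPowerSeries.C (c 1) + MvPowerSeries.X 0)) = 0
      exact pderiv_C
    have a2 : pderiv 1 (v 2) = 0 := by
      change pderiv 1 (X 0) = 0
      exact pderiv_X_of_ne (by decide)
    have a3 : pderiv 1 (v 3) = 0 := by
      change pderiv 1 (C (MvPowerSeries.C (c 3) + MvPowerSeries.X 1)) = 0
      exact pderiv_C
    have a4 : pderiv 1 (v 4) = 1 := by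
      change pderiv 1 (X 1) = 1
      exact pderiv_X_self 1
    rw [a0, a1, a2, a3, a4]
    ring
  obtain ⟨x, hx, hx'⟩ := hensel_two ![aeval v PB, aeval v HB] x0 (fun i => by
    refine (germ1A_mem p _).2 ?_
    fin_cases i
    · change p.ρ (MvPowerSeries.constantCoeff (eval x0 (aeval v PB))) = 0
      rw [hcc, hP]
    · change p.ρ (MvPowerSeries.constantCoeff (eval x0 (aeval v HB))) = 0
      rw [hcc, hH]) (by
    change IsUnit (eval x0 (pderiv 0 (aeval v PB)) * eval x0 (pderiv 1 (aeval v HB)) -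
      eval x0 (pderiv 1 (aeval v PB)) * eval x0 (pderiv 0 (aeval v HB)))
    rw [hd0, hd1, hd0, hd1, MvPowerSeries.isUnit_iff_constantCoeff]
    apply isUnit_of_rho p
    rw [map_sub, map_mul, map_mul, hcc, hcc, hcc, hcc]
    exact hJ)
  have hres : ∀ i, p.ρ (MvPowerSeries.constantCoeff (x i)) =
      p.ρ (MvPowerSeries.constantCoeff (x0 i)) := by
    intro i
    have h3 := (germ1A_mem p _).1 (hx' i)
    rwa [map_sub, map_sub, sub_eq_zero] at h3
  refine ⟨![1, MvPowerSeries.C (c 1) + MvPowerSeries.X 0, x 0,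
    MvPowerSeries.C (c 3) + MvPowerSeries.X 1, x 1], rfl, rfl, rfl, ?_, ?_, fun j => ?_⟩
  · have h3 := hx 0
    change eval x (aeval v PB) = 0 at h3
    rwa [germ1A_eval, hv] at h3
  · have h3 := hx 1
    change eval x (aeval v HB) = 0 at h3
    rwa [germ1A_eval, hv] at h3
  · fin_cases j
    · change p.ρ (MvPowerSeries.constantCoeff 1) = p.ρ (c 0)
      rw [map_one, hc0]
    · change p.ρ (MvPowerSeries.constantCoeff (MvPowerSeries.C (c 1) + MvPowerSeries.X 0)) =
        p.ρ (c 1)
      rw [map_add, MvPowerSeries.constantCoeff_C, MvPowerSeries.constantCoeff_X, add_zero]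
    · change p.ρ (MvPowerSeries.constantCoeff (x 0)) = p.ρ (c 2)
      rw [hres 0]
      change p.ρ (MvPowerSeries.constantCoeff (MvPowerSeries.C (c 2))) = p.ρ (c 2)
      rw [MvPowerSeries.constantCoeff_C]
    · change p.ρ (MvPowerSeries.constantCoeff (MvPowerSeries.C (c 3) + MvPowerSeries.X 1)) =
        p.ρ (c 3)
      rw [map_add, MvPowerSeries.constantCoeff_C, MvPowerSeries.constantCoeff_X, add_zero]
    · change p.ρ (MvPowerSeries.constantCoeff (x 1)) = p.ρ (c 4)
      rw [hres 1]
      change p.ρ (MvPowerSeries.constantCoeff (MvPowerSeries.C (c 4))) = p.ρ (c 4)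
      rw [MvPowerSeries.constantCoeff_C]

end Pool.Agent.Lib.MP_ed661f_ag.V
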