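import Mathlib

/-!
Hensel's lemma for two polynomials in two variables over a henselian local ring.
-/

set_option autoImplicit false

open MvPolynomial

namespace Pool.Agent.Lib.MP_ed661f_ag.V

/-- **Hensel's lemma for two equations in two unknowns** over a henselian local ring.

Proof. Let `J` be the Jacobian determinant and `A = R[x_0, x_1, t] / (f_0, f_1, t J - 1)`. With the
obvious presentation (`Algebra.SubmersivePresentation`: three variables, three relations, the
Jacobian is `J ^ 2`, a unit) `A` is standard smooth of relative dimension `0`, so etale over `R` and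
of finite presentation. Let `k` be the residue field of `R`. The residues of `x0` and of `J(x0)⁻¹`
define a homomorphism `A → k` of `R`-algebras; let `Q` be its kernel, a prime ideal. By
`Algebra.IsEtaleAt.exists_isStandardEtale` there is `g ∉ Q` such that `A_g` is standard etale over
`R`: there is a `StandardEtalePresentation` (a monic `f` and `g'`, and `A_g = R[z]_(g') / (f)`). The
homomorphism `A_g → k` sends `z` to some `z₁` with `f(z₁) = 0`, `g'(z₁) ≠ 0`, hence `f'(z₁) ≠ 0`
(`HasMap.isUnit_derivative_f`). Let `a₀ ∈ R` have residue `z₁`. By the definition of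
`HenselianLocalRing` there is a root `z₀ ∈ R` of `f` with residue `z₁`; then `g'(z₀)` is a unit, so
`StandardEtalePair.lift` gives `A_g → R`. The images `x i` of the variables under `A → A_g → R` are
a common zero of `f_0`, `f_1`. The composite `A_g → R → k` and the given `A_g → k` agree at `z`, so
they are equal (`StandardEtalePair.hom_ext`), hence `x i` and `x0 i` have the same residue. -/
theorem hensel_two {R : Type} [CommRing R] [HenselianLocalRing R]
    (f : Fin 2 → MvPolynomial (Fin 2) R) (x0 : Fin 2 → R)
    (h0 : ∀ i, eval x0 (f i) ∈ IsLocalRing.maximalIdeal R)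
    (h1 : IsUnit (eval x0 (pderiv 0 (f 0)) * eval x0 (pderiv 1 (f 1)) -
      eval x0 (pderiv 1 (f 0)) * eval x0 (pderiv 0 (f 1)))) :
    ∃ x : Fin 2 → R, (∀ i, eval x (f i) = 0) ∧ ∀ i, x i - x0 i ∈ IsLocalRing.maximalIdeal R := by
  classical
  let P0 : Algebra.PreSubmersivePresentation R
      (MvPolynomial (Fin 2) R ⧸ (Ideal.span <| Set.range f)) (Fin 2) (Fin 2) :=
    .naive id Function.injective_id
  have hev : ∀ p : MvPolynomial (Fin 2) R,
      (MvPolynomial.aeval fun i => algebraMap R (IsLocalRing.ResidueField R) (x0 i)) p =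
        algebraMap R (IsLocalRing.ResidueField R) (eval x0 p) := fun p =>
    MvPolynomial.aeval_algebraMap_apply (A := R) (B := IsLocalRing.ResidueField R) x0 p
  have hker : ∀ a : MvPolynomial (Fin 2) R, a ∈ Ideal.span (Set.range f) →
      (MvPolynomial.aeval fun i => algebraMap R (IsLocalRing.ResidueField R) (x0 i)) a = 0 := by
    intro a ha
    have h2 : Ideal.span (Set.range f) ≤ RingHom.ker
        (MvPolynomial.aeval (R := R) fun i => algebraMap R (IsLocalRing.ResidueField R) (x0 i)) := by
      rw [Ideal.span_le]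
      rintro _ ⟨i, rfl⟩
      exact (hev (f i)).trans ((IsLocalRing.residue_eq_zero_iff _).2 (h0 i))
    exact h2 ha
  let φ0 : (MvPolynomial (Fin 2) R ⧸ (Ideal.span <| Set.range f)) →ₐ[R]
      IsLocalRing.ResidueField R := Ideal.Quotient.liftₐ _ _ hker
  have hφX : ∀ p : MvPolynomial (Fin 2) R, φ0 (Ideal.Quotient.mk _ p) =
      algebraMap R (IsLocalRing.ResidueField R) (eval x0 p) := fun p => hev p
  have hval : ∀ p : MvPolynomial (Fin 2) R, φ0 (MvPolynomial.aeval P0.val p) =
      algebraMap R (IsLocalRing.ResidueField R) (eval x0 p) := by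
    intro p
    have h3 : MvPolynomial.aeval (R := R) P0.val =
        Ideal.Quotient.mkₐ R (Ideal.span (Set.range f)) := by
      refine MvPolynomial.algHom_ext fun i => ?_
      rw [MvPolynomial.aeval_X]
      rfl
    rw [h3]
    exact hφX p
  have hM : ∀ i j, P0.jacobiMatrix i j = pderiv i (f j) := fun i j =>
    Algebra.PreSubmersivePresentation.jacobiMatrix_naive (v := f) id Function.injective_id _ _ i j
  have hΔ : IsUnit (φ0 P0.jacobian) := by
    rw [P0.jacobian_eq_jacobiMatrix_det, Matrix.det_fin_two, P0.algebraMap_apply, hval, hM, hM, hM,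
      hM]
    refine IsUnit.map _ ?_
    rw [map_sub, map_mul, map_mul]
    have h4 : eval x0 (pderiv 0 (f 0)) * eval x0 (pderiv 1 (f 1)) -
        eval x0 (pderiv 0 (f 1)) * eval x0 (pderiv 1 (f 0)) =
        eval x0 (pderiv 0 (f 0)) * eval x0 (pderiv 1 (f 1)) -
        eval x0 (pderiv 1 (f 0)) * eval x0 (pderiv 0 (f 1)) := by ring
    rw [h4]
    exact h1
  have hB : Algebra.Etale R (Localization.Away P0.jacobian) := by
    let P : Algebra.SubmersivePresentation R (Localization.Away P0.jacobian) _ _ :=
      { toPreSubmersivePresentation :=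
          .comp (.localizationAway (Localization.Away P0.jacobian) P0.jacobian) P0,
        jacobian_isUnit := by
          have h5 : IsUnit (algebraMap _ (Localization.Away P0.jacobian) P0.jacobian) :=
            IsLocalization.Away.algebraMap_isUnit _
          simp [Algebra.smul_def, -isUnit_map_iff, h5] }
    have : Algebra.IsStandardSmoothOfRelativeDimension 0 R (Localization.Away P0.jacobian) :=
      ⟨_, _, _, inferInstance, P, by
        simp only [Algebra.PreSubmersivePresentation.dimension_comp_eq_dimension_add_dimension, P]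
        simp [Algebra.Presentation.dimension]⟩
    infer_instance
  let φ : Localization.Away P0.jacobian →ₐ[R] IsLocalRing.ResidueField R :=
    IsLocalization.Away.liftAlgHom P0.jacobian (f := φ0) hΔ
  have hφ : ∀ a, φ (algebraMap _ _ a) = φ0 a := fun a => IsLocalization.Away.lift_eq _ hΔ a
  have hQ : (RingHom.ker φ).IsPrime := RingHom.ker_isPrime _
  obtain ⟨g, hg, hst⟩ := Algebra.IsEtaleAt.exists_isStandardEtale (R := R) (RingHom.ker φ)
  obtain ⟨P⟩ := hst.nonempty_standardEtalePresentation
  have hgu : IsUnit (φ g) := IsUnit.mk0 _ hg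
  let ψ : Localization.Away g →ₐ[R] IsLocalRing.ResidueField R :=
    IsLocalization.Away.liftAlgHom g (f := φ) hgu
  have hψ : ∀ a, ψ (algebraMap _ _ a) = φ a := fun a => IsLocalization.Away.lift_eq _ hgu a
  have hz := P.hasMap.map ψ
  have htf : ∀ f : Polynomial R, f.Monic → ∀ a₀ : IsLocalRing.ResidueField R,
      Polynomial.aeval a₀ f = 0 → Polynomial.aeval a₀ (Polynomial.derivative f) ≠ 0 →
        ∃ a : R, f.IsRoot a ∧ IsLocalRing.residue R a = a₀ :=
    ((HenselianLocalRing.TFAE R).out 0 1).1 ‹HenselianLocalRing R›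
  obtain ⟨a, ha1, ha2⟩ := htf P.f P.monic_f (ψ P.x) hz.1 hz.isUnit_derivative_f.ne_zero
  have hres : ∀ q : Polynomial R, IsLocalRing.residue R (Polynomial.aeval a q) =
      Polynomial.aeval (ψ P.x) q := by
    intro q
    rw [← ha2]
    exact (Polynomial.aeval_algebraMap_apply (IsLocalRing.ResidueField R) a q).symm
  have ha : P.HasMap a := by
    refine ⟨?_, ?_⟩
    · exact ha1
    · have h5 : IsUnit (IsLocalRing.residue R (Polynomial.aeval a P.g)) := by
        rw [hres]
        exact hz.2
      exact isUnit_of_map_unit _ _ h5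
  let θ : Localization.Away g →ₐ[R] R := (P.lift a ha).comp P.equivRing.toAlgHom
  have hθ : θ P.x = a := by
    change P.lift a ha (P.equivRing P.x) = a
    rw [P.equivRing_x, P.lift_X]
  let r : R →ₐ[R] IsLocalRing.ResidueField R := Algebra.ofId R _
  have hrθ : r.comp θ = ψ := by
    refine P.hom_ext ?_
    change r (θ P.x) = ψ P.x
    rw [hθ]
    exact ha2
  let κ : MvPolynomial (Fin 2) R →ₐ[R] R := θ.comp
    ((IsScalarTower.toAlgHom R (Localization.Away P0.jacobian) (Localization.Away g)).comp
      ((IsScalarTower.toAlgHom R (MvPolynomial (Fin 2) R ⧸ (Ideal.span <| Set.range f))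
        (Localization.Away P0.jacobian)).comp (Ideal.Quotient.mkₐ R _)))
  have hκ : ∀ p, eval (fun i => κ (X i)) p = κ p := by
    intro p
    have h5 : (MvPolynomial.aeval fun i => κ (X i)) = κ :=
      MvPolynomial.algHom_ext fun i => MvPolynomial.aeval_X _ i
    rw [← MvPolynomial.coe_aeval_eq_eval]
    exact DFunLike.congr_fun h5 p
  refine ⟨fun i => κ (X i), fun i => ?_, fun i => ?_⟩
  · rw [hκ]
    have h5 : (Ideal.Quotient.mkₐ R (Ideal.span (Set.range f))) (f i) = 0 :=
      Ideal.Quotient.eq_zero_iff_mem.2 (Ideal.subset_span ⟨i, rfl⟩)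
    change θ (IsScalarTower.toAlgHom R (Localization.Away P0.jacobian) (Localization.Away g)
      (IsScalarTower.toAlgHom R (MvPolynomial (Fin 2) R ⧸ (Ideal.span <| Set.range f))
        (Localization.Away P0.jacobian) ((Ideal.Quotient.mkₐ R (Ideal.span (Set.range f))) (f i))))
        = 0
    rw [h5, map_zero, map_zero, map_zero]
  · rw [← IsLocalRing.residue_eq_zero_iff, map_sub, sub_eq_zero]
    have h5 : IsLocalRing.residue R (κ (X i)) =
        ψ (algebraMap (Localization.Away P0.jacobian) (Localization.Away g)
          (algebraMap (MvPolynomial (Fin 2) R ⧸ (Ideal.span <| Set.range f))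
            (Localization.Away P0.jacobian)
            (Ideal.Quotient.mk (Ideal.span <| Set.range f) (X i)))) := by
      rw [← hrθ]
      rfl
    rw [h5, hψ, hφ, hφX, eval_X]
    rfl

end Pool.Agent.Lib.MP_ed661f_ag.V
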