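import Pool.Agent.Lib.MP_ed661f_ag.V.Defs
import Pool.Agent.Lib.MP_ed661f_ag.S.SDeg
import Pool.Agent.Lib.MP_ed661f_ag.H.Degrees

/-!
The Hilbert function of a hypersurface in the space of dimension four.
-/

set_option autoImplicit false

open MvPolynomial Filter
open scoped ENNReal

namespace Pool.Agent.Lib.MP_ed661f_ag.V

open Pool.Agent.Lib.MP_ed661f_ag.H

/-- the Hilbert function of a hypersurface in the space of dimension four.

Proof. As `S.hilb_span_add` (in the space of dimension three). -/
theorem hilb_span4 {e : ℕ} {P : Poly 4} (hP : P.IsHomogeneous e) (hP0 : P ≠ 0) {k : ℕ}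
    (hk : e ≤ k) : hilb (Ideal.span {P}) k +
      Module.finrank ℂ (homogeneousSubmodule (Fin 5) ℂ (k - e)) =
      Module.finrank ℂ (homogeneousSubmodule (Fin 5) ℂ k) := by
  have hfin := finite_formsN (N := 4) k
  set V := homogeneousSubmodule (Fin 5) ℂ k with hV
  set π := (Ideal.Quotient.mkₐ ℂ (Ideal.span {P})).toLinearMap with hπ
  have h1 := (π.domRestrict V).finrank_range_add_finrank_ker
  have h2 : LinearMap.range (π.domRestrict V) = V.map π := LinearMap.range_domRestrict V π
  rw [h2] at h1
  have h3 : hilb (Ideal.span {P}) k = Module.finrank ℂ (V.map π) := rfl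
  rw [h3, ← h1]
  congr 1
  -- multiplication by `P`
  have hmem : ∀ Q : homogeneousSubmodule (Fin 5) ℂ (k - e), P * Q.1 ∈ V := by
    intro Q
    have h := hP.mul Q.2
    rw [Nat.add_sub_cancel' hk] at h
    exact h
  let g : homogeneousSubmodule (Fin 5) ℂ (k - e) →ₗ[ℂ] LinearMap.ker (π.domRestrict V) :=
    { toFun := fun Q => ⟨⟨P * Q.1, hmem Q⟩, by
        rw [LinearMap.mem_ker]
        exact Ideal.Quotient.eq_zero_iff_mem.2
          (Ideal.mul_mem_right _ _ (Ideal.mem_span_singleton_self P))⟩
      map_add' := fun Q Q' => by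
        apply Subtype.ext
        apply Subtype.ext
        exact mul_add P Q.1 Q'.1
      map_smul' := fun c Q => by
        apply Subtype.ext
        apply Subtype.ext
        exact mul_smul_comm c P Q.1 }
  refine (LinearEquiv.ofBijective g ⟨?_, ?_⟩).finrank_eq
  · intro Q Q' h
    apply Subtype.ext
    have h4 : P * Q.1 = P * Q'.1 :=
      congrArg (fun z : LinearMap.ker (π.domRestrict V) => ((z : V) : Poly 4)) h
    exact mul_left_cancel₀ hP0 h4
  · rintro ⟨⟨G, hG⟩, hGk⟩
    have h4 : G ∈ Ideal.span {P} := Ideal.Quotient.eq_zero_iff_mem.1 hGk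
    obtain ⟨Q, hQ⟩ := Ideal.mem_span_singleton.1 h4
    rcases eq_or_ne G 0 with h0 | h0
    · refine ⟨0, ?_⟩
      rw [map_zero]
      apply Subtype.ext
      apply Subtype.ext
      exact h0.symm
    · have hne : P * Q ≠ 0 := hQ ▸ h0
      obtain ⟨a, b, ha, hb, hab⟩ := S.homogeneous_of_mul (hQ ▸ hG : (P * Q).IsHomogeneous k) hne
      have hda : a = e := ha.inj_right hP hP0
      refine ⟨⟨Q, ?_⟩, ?_⟩
      · have : b = k - e := by omega
        rw [← this]
        exact hb
      · apply Subtype.ext
        apply Subtype.ext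
        exact hQ.symm

end Pool.Agent.Lib.MP_ed661f_ag.V
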