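import Pool.Agent.Lib.MP_ed661f_ag.V.Van

/-!
Reduction of the elements of the basis on the germ of the scaled surface.
-/

set_option autoImplicit false

open MvPolynomial

namespace Pool.Agent.Lib.MP_ed661f_ag.V

open Pool.Agent.Lib.MP_ed661f_ag.H Pool.Agent.Lib.MP_ed661f_ag.S

section lemR_aux

variable {A : Type*} [CommRing A] {S : Type*} [CommRing S] [Algebra A S]

/-- values at congruent points are congruent -/
private theorem lemR_sub_mem {σ : Type*} (I : Ideal S) {v w : σ → S} (h : ∀ i, v i - w i ∈ I)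
    (P : MvPolynomial σ A) : aeval v P - aeval w P ∈ I := by
  induction P using MvPolynomial.induction_on with
  | C a =>
    rw [aeval_C, aeval_C, sub_self]
    exact I.zero_mem
  | add p q hp hq =>
    have e : aeval v (p + q) - aeval w (p + q) =
        (aeval v p - aeval w p) + (aeval v q - aeval w q) := by
      rw [map_add, map_add]
      ring
    rw [e]
    exact I.add_mem hp hq
  | mul_X p i hp =>
    have e : aeval v (p * X i) - aeval w (p * X i) =
        (aeval v p - aeval w p) * v i + aeval w p * (v i - w i) := by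
      rw [map_mul, map_mul, aeval_X, aeval_X]
      ring
    rw [e]
    exact I.add_mem (I.mul_mem_right _ hp) (I.mul_mem_left _ (h i))

/-- Taylor expansion in the last variable -/
private theorem lemR_taylor {v w : Fin 5 → S} {d : S} (h4 : w 4 = v 4 + d)
    (hi : ∀ i, i ≠ 4 → w i = v i) (P : MvPolynomial (Fin 5) A) :
    ∃ h : S, aeval w P = aeval v P + d * (aeval v (pderiv 4 P) + d * h) := by
  induction P using MvPolynomial.induction_on with
  | C a =>
    refine ⟨0, ?_⟩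
    rw [aeval_C, aeval_C, pderiv_C, map_zero]
    ring
  | add p q hp hq =>
    obtain ⟨a, ha⟩ := hp
    obtain ⟨b, hb⟩ := hq
    refine ⟨a + b, ?_⟩
    rw [map_add, map_add, map_add, map_add, ha, hb]
    ring
  | mul_X p i hp =>
    obtain ⟨a, ha⟩ := hp
    rw [map_mul, map_mul, aeval_X, aeval_X, ha, pderiv_mul, map_add, map_mul, map_mul, aeval_X]
    by_cases h : i = 4
    · subst h
      refine ⟨a * (v 4 + d) + aeval v (pderiv 4 p), ?_⟩
      rw [h4, pderiv_X_self, map_one]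
      ring
    · refine ⟨a * v i, ?_⟩
      rw [hi i h, pderiv_X_of_ne h, map_zero]
      ring

/-- polynomials as power series -/
private noncomputable def lemR_inc (A : Type*) [CommRing A] : Polynomial A →ₐ[A] PowerSeries A :=
  { Polynomial.coeToPowerSeries.ringHom with
    commutes' := fun a => Polynomial.coe_C a }

private theorem lemR_coeff (θ : PowerSeries A) (M : ℕ) (P : MvPolynomial (Fin 5) A) (j : ℕ)
    (hj : j < M) : (aeval ![1, Polynomial.X, 0, 0, PowerSeries.trunc M θ] P : Polynomial A).coeff j =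
      PowerSeries.coeff j (aeval ![1, PowerSeries.X, 0, 0, θ] P) := by
  have e1 : lemR_inc A (aeval ![1, Polynomial.X, 0, 0, PowerSeries.trunc M θ] P) =
      aeval ![1, PowerSeries.X, 0, 0, ((PowerSeries.trunc M θ : Polynomial A) : PowerSeries A)] P := by
    rw [MvPolynomial.comp_aeval_apply]
    congr 1
    congr 1
    funext i
    fin_cases i
    · exact map_one _
    · exact Polynomial.coe_X
    · exact map_zero _
    · exact map_zero _
    · rfl
  have e2 := lemR_sub_mem (Ideal.span {(PowerSeries.X : PowerSeries A) ^ M})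
    (v := ![1, PowerSeries.X, 0, 0, ((PowerSeries.trunc M θ : Polynomial A) : PowerSeries A)])
    (w := ![1, PowerSeries.X, 0, 0, θ]) (fun i => by
      fin_cases i
      · change (1 : PowerSeries A) - 1 ∈ _
        rw [sub_self]
        exact Ideal.zero_mem _
      · change (PowerSeries.X : PowerSeries A) - PowerSeries.X ∈ _
        rw [sub_self]
        exact Ideal.zero_mem _
      · change (0 : PowerSeries A) - 0 ∈ _
        rw [sub_self]
        exact Ideal.zero_mem _
      · change (0 : PowerSeries A) - 0 ∈ _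
        rw [sub_self]
        exact Ideal.zero_mem _
      · change ((PowerSeries.trunc M θ : Polynomial A) : PowerSeries A) - θ ∈ _
        rw [Ideal.mem_span_singleton, PowerSeries.X_pow_dvd_iff]
        intro m hm
        rw [map_sub, Polynomial.coeff_coe, PowerSeries.coeff_trunc, if_pos hm, sub_self]) P
  rw [Ideal.mem_span_singleton, PowerSeries.X_pow_dvd_iff] at e2
  have e3 := e2 j hj
  rw [map_sub, ← e1, sub_eq_zero] at e3
  rw [← e3]
  exact (Polynomial.coeff_coe _ _).symm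

/-- values of the truncated branch -/
private theorem lemR_val (θ : PowerSeries A) (M : ℕ) (P : MvPolynomial (Fin 5) A) (z : S) :
    aeval ![1, z, 0, 0, Polynomial.aeval z (PowerSeries.trunc M θ)] P =
      Polynomial.aeval z (aeval ![1, Polynomial.X, 0, 0, PowerSeries.trunc M θ] P) := by
  rw [MvPolynomial.comp_aeval_apply]
  congr 1
  congr 1
  funext i
  fin_cases i
  · exact (map_one _).symm
  · exact (Polynomial.aeval_X z).symm
  · exact (map_zero _).symm
  · exact (map_zero _).symm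
  · rfl

end lemR_aux

/-- **the leading term on the scaled germ**. Write `R = MvPowerSeries (Fin 2) p.B`.

Proof. Let `M = l + 1` and `θ'` the polynomial `θB` truncated below `Z ^ M`, and
`y' = θ'(τ₁ ζ) ∈ R`. The polynomials `P(1, Z, 0, 0, θ'(Z))` and `s(1, Z, 0, 0, θ'(Z))` over `p.B`
are congruent to the given power series modulo `Z ^ M`. So:
(1) `P(1, τ₁ ζ, τ₂ ξ, τ₂ η, y') ∈ (τ₁ ^ M, τ₂) R`;
(2) `y - y' ∈ (τ₁ ^ M, τ₂) R`: let `f(Y) = P(1, τ₁ ζ, τ₂ ξ, τ₂ η, Y) ∈ R[Y]`; `f(y) = 0`, and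
`f(y') - f(y) = (y' - y) u` with `u` congruent to `(∂P/∂x₄)(1,0,0,0,0)` modulo the maximal ideal of
the local ring `R` (the constant coefficients of `y`, `y'`, `τ₁ ζ`, ... reduce to `0`), so `u` is a
unit by `hδ` (a power series is a unit if its constant coefficient is; `x ∈ p.B` is a unit if
`p.ρ x ≠ 0`, by `p.ker`);
(3) the value of `sB` is congruent to `s(1, τ₁ ζ, 0, 0, y')` modulo `(y - y')` (`hs`: no `X 2`,
`X 3` in `sB`), and `s(1, Z, 0, 0, θ'(Z)) = Z ^ l + Z ^ (l + 1) g(Z)` by `hlow`, `hlead`. So the value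
is `τ₁ ^ l ζ ^ l + τ₁ ^ (l + 1) r + τ₂ r'` with `r, r' ∈ R`, and `τ₂ = c τ₁ ^ l` with `p.ρ c = 0`.
Put `σ = ζ ^ l + τ₁ r + c r'`. -/
theorem lemR (p : Place) {τ₁ τ₂ : p.B} (h1 : p.ρ τ₁ = 0)
    (h2 : ∀ l : ℕ, ∃ c : p.B, p.ρ c = 0 ∧ τ₂ = c * τ₁ ^ l) {PB : MvPolynomial (Fin 5) p.B}
    {θB : PowerSeries p.B} (hθ0 : PowerSeries.constantCoeff θB = 0)
    (hθ : aeval ![1, PowerSeries.X, 0, 0, θB] PB = 0)
    (hδ : p.ρ (eval ![1, 0, 0, 0, 0] (pderiv 4 PB)) ≠ 0)
    {ζ ξ η y : MvPowerSeries (Fin 2) p.B} (hy : p.ρ (MvPowerSeries.constantCoeff y) = 0)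
    (hPy : aeval ![1, MvPowerSeries.C τ₁ * ζ, MvPowerSeries.C τ₂ * ξ, MvPowerSeries.C τ₂ * η, y]
      PB = 0) {sB : MvPolynomial (Fin 5) p.B} (hs : ∀ γ ∈ sB.support, γ 2 = 0 ∧ γ 3 = 0) {l : ℕ}
    (hlow : ∀ j < l, PowerSeries.coeff j (aeval ![1, PowerSeries.X, 0, 0, θB] sB) = 0)
    (hlead : PowerSeries.coeff l (aeval ![1, PowerSeries.X, 0, 0, θB] sB) = 1) :
    ∃ σ : MvPowerSeries (Fin 2) p.B,
      aeval ![1, MvPowerSeries.C τ₁ * ζ, MvPowerSeries.C τ₂ * ξ, MvPowerSeries.C τ₂ * η, y] sB =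
        MvPowerSeries.C (τ₁ ^ l) * σ ∧
      MvPowerSeries.map p.ρ σ = (MvPowerSeries.map p.ρ ζ) ^ l := by
  classical
  obtain ⟨c0, hc0, hc0'⟩ := h2 0
  have hτ2 : p.ρ τ₂ = 0 := by
    rw [hc0', pow_zero, mul_one, hc0]
  obtain ⟨c, hc, hc'⟩ := h2 l
  obtain ⟨z, hz⟩ : ∃ z : MvPowerSeries (Fin 2) p.B, z = MvPowerSeries.C τ₁ * ζ := ⟨_, rfl⟩
  obtain ⟨θ', hθ'⟩ : ∃ θ' : Polynomial p.B, θ' = PowerSeries.trunc (l + 1) θB := ⟨_, rfl⟩
  obtain ⟨y', hy'⟩ : ∃ y' : MvPowerSeries (Fin 2) p.B, y' = Polynomial.aeval z θ' := ⟨_, rfl⟩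
  obtain ⟨I, hI⟩ : ∃ I : Ideal (MvPowerSeries (Fin 2) p.B),
    I = Ideal.span {MvPowerSeries.C τ₁ ^ (l + 1), MvPowerSeries.C τ₂} := ⟨_, rfl⟩
  have hI1 : MvPowerSeries.C τ₁ ^ (l + 1) ∈ I := by
    rw [hI]
    exact Ideal.subset_span (Set.mem_insert _ _)
  have hI2 : MvPowerSeries.C τ₂ ∈ I := by
    rw [hI]
    exact Ideal.subset_span (Set.mem_insert_of_mem _ (Set.mem_singleton _))
  have hzI : z ^ (l + 1) ∈ I := by
    rw [hz, mul_pow]
    exact I.mul_mem_right _ hI1
  rw [← hz] at hPy ⊢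
  -- the truncated branch
  have hA : ∀ (Q : MvPolynomial (Fin 5) p.B),
      aeval ![1, z, MvPowerSeries.C τ₂ * ξ, MvPowerSeries.C τ₂ * η, y'] Q -
        Polynomial.aeval z (aeval ![1, Polynomial.X, 0, 0, θ'] Q) ∈ I := by
    intro Q
    rw [hθ', ← lemR_val θB (l + 1) Q z, ← hθ', ← hy']
    refine lemR_sub_mem I (fun i => ?_) Q
    fin_cases i
    · change (1 : MvPowerSeries (Fin 2) p.B) - 1 ∈ I
      rw [sub_self]
      exact I.zero_mem
    · change z - z ∈ I
      rw [sub_self]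
      exact I.zero_mem
    · change MvPowerSeries.C τ₂ * ξ - 0 ∈ I
      rw [sub_zero]
      exact I.mul_mem_right _ hI2
    · change MvPowerSeries.C τ₂ * η - 0 ∈ I
      rw [sub_zero]
      exact I.mul_mem_right _ hI2
    · change y' - y' ∈ I
      rw [sub_self]
      exact I.zero_mem
  -- (1)
  have hB : aeval ![1, z, MvPowerSeries.C τ₂ * ξ, MvPowerSeries.C τ₂ * η, y'] PB ∈ I := by
    have h3 : Polynomial.X ^ (l + 1) ∣ (aeval ![1, Polynomial.X, 0, 0, θ'] PB : Polynomial p.B) := by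
      rw [Polynomial.X_pow_dvd_iff]
      intro j hj
      rw [hθ', lemR_coeff θB (l + 1) PB j hj, hθ, map_zero]
    obtain ⟨q, hq⟩ := h3
    have h4 := hA PB
    rw [hq, map_mul, map_pow, Polynomial.aeval_X] at h4
    have h5 := I.add_mem h4 (I.mul_mem_right (Polynomial.aeval z q) hzI)
    rwa [sub_add_cancel] at h5
  -- residues
  obtain ⟨χ, hχ⟩ : ∃ χ : MvPowerSeries (Fin 2) p.B →+* ℂ,
    χ = p.ρ.comp (MvPowerSeries.constantCoeff (σ := Fin 2) (R := p.B)) := ⟨_, rfl⟩
  have hχa : ∀ f, χ f = p.ρ (MvPowerSeries.constantCoeff f) := fun f => by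
    rw [hχ]
    rfl
  have hχC : ∀ x : p.B, χ (MvPowerSeries.C x) = p.ρ x := fun x => by
    rw [hχa, MvPowerSeries.constantCoeff_C]
  have hχz : χ z = 0 := by
    rw [hz, map_mul, hχC, h1, zero_mul]
  have hχy : χ y = 0 := by
    rw [hχa, hy]
  have hχy' : χ y' = 0 := by
    have h3 : Polynomial.X ∣ θ' := by
      rw [Polynomial.X_dvd_iff, hθ', PowerSeries.coeff_trunc, if_pos (Nat.succ_pos l),
        PowerSeries.coeff_zero_eq_constantCoeff_apply, hθ0]
    obtain ⟨q, hq⟩ := h3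
    rw [hy', hq, map_mul, Polynomial.aeval_X, map_mul, hχz, zero_mul]
  have hD : χ (aeval ![1, z, MvPowerSeries.C τ₂ * ξ, MvPowerSeries.C τ₂ * η, y'] (pderiv 4 PB)) ≠
      0 := by
    have h3 := lemR_sub_mem (RingHom.ker χ)
      (v := ![1, z, MvPowerSeries.C τ₂ * ξ, MvPowerSeries.C τ₂ * η, y'])
      (w := fun i => Algebra.ofId p.B (MvPowerSeries (Fin 2) p.B) ((![1, 0, 0, 0, 0] : Fin 5 → p.B) i))
      (fun i => by
        rw [RingHom.mem_ker, map_sub]
        fin_cases i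
        · change χ 1 - χ (Algebra.ofId p.B (MvPowerSeries (Fin 2) p.B) 1) = 0
          rw [map_one (Algebra.ofId p.B (MvPowerSeries (Fin 2) p.B)), sub_self]
        · change χ z - χ (Algebra.ofId p.B (MvPowerSeries (Fin 2) p.B) 0) = 0
          rw [map_zero (Algebra.ofId p.B (MvPowerSeries (Fin 2) p.B)), map_zero, hχz, sub_self]
        · change χ (MvPowerSeries.C τ₂ * ξ) - χ (Algebra.ofId p.B (MvPowerSeries (Fin 2) p.B) 0) = 0
          rw [map_zero (Algebra.ofId p.B (MvPowerSeries (Fin 2) p.B)), map_zero, map_mul, hχC, hτ2,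
            zero_mul, sub_self]
        · change χ (MvPowerSeries.C τ₂ * η) - χ (Algebra.ofId p.B (MvPowerSeries (Fin 2) p.B) 0) = 0
          rw [map_zero (Algebra.ofId p.B (MvPowerSeries (Fin 2) p.B)), map_zero, map_mul, hχC, hτ2,
            zero_mul, sub_self]
        · change χ y' - χ (Algebra.ofId p.B (MvPowerSeries (Fin 2) p.B) 0) = 0
          rw [map_zero (Algebra.ofId p.B (MvPowerSeries (Fin 2) p.B)), map_zero, hχy', sub_self])
      (pderiv 4 PB)
    have h5 : aeval (![1, 0, 0, 0, 0] : Fin 5 → p.B) (pderiv 4 PB) =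
        eval ![1, 0, 0, 0, 0] (pderiv 4 PB) := by
      rw [← MvPolynomial.coe_aeval_eq_eval]
      rfl
    rw [RingHom.mem_ker, map_sub, sub_eq_zero, ← MvPolynomial.comp_aeval_apply, h5] at h3
    rw [h3]
    have h4 : Algebra.ofId p.B (MvPowerSeries (Fin 2) p.B)
        (eval ![1, 0, 0, 0, 0] (pderiv 4 PB)) = MvPowerSeries.C (eval ![1, 0, 0, 0, 0] (pderiv 4 PB)) :=
      rfl
    rw [h4, hχC]
    exact hδ
  -- (2)
  have hE : y - y' ∈ I := by
    obtain ⟨h, hh⟩ := lemR_taylor (A := p.B)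
      (v := ![1, z, MvPowerSeries.C τ₂ * ξ, MvPowerSeries.C τ₂ * η, y'])
      (w := ![1, z, MvPowerSeries.C τ₂ * ξ, MvPowerSeries.C τ₂ * η, y]) (d := y - y')
      (by change y = y' + (y - y')
          ring)
      (fun i hi => by
        fin_cases i
        · rfl
        · rfl
        · rfl
        · rfl
        · exact absurd rfl hi) PB
    rw [hPy] at hh
    obtain ⟨U, hU⟩ : ∃ U, U = aeval ![1, z, MvPowerSeries.C τ₂ * ξ, MvPowerSeries.C τ₂ * η, y']
      (pderiv 4 PB) + (y - y') * h := ⟨_, rfl⟩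
    rw [← hU] at hh
    have hUu : IsUnit U := by
      rw [MvPowerSeries.isUnit_iff_constantCoeff]
      by_contra hcon
      have h3 : MvPowerSeries.constantCoeff U ∈ IsLocalRing.maximalIdeal p.B := by
        rw [IsLocalRing.mem_maximalIdeal]
        exact hcon
      rw [← p.ker, ← hχa, hU, map_add, map_mul, map_sub, hχy, hχy', sub_self, zero_mul,
        add_zero] at h3
      exact hD h3
    obtain ⟨W, hW⟩ := hUu.exists_left_inv
    have h6 : y - y' = -(W * aeval ![1, z, MvPowerSeries.C τ₂ * ξ, MvPowerSeries.C τ₂ * η, y'] PB) := by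
      have h7 : (y - y') * U =
          -aeval ![1, z, MvPowerSeries.C τ₂ * ξ, MvPowerSeries.C τ₂ * η, y'] PB :=
        eq_neg_of_add_eq_zero_right hh.symm
      calc y - y' = W * U * (y - y') := by rw [hW, one_mul]
        _ = W * ((y - y') * U) := by ring
        _ = _ := by rw [h7, mul_neg]
    rw [h6]
    exact I.neg_mem (I.mul_mem_left _ hB)
  -- (3)
  have hV : aeval ![1, z, MvPowerSeries.C τ₂ * ξ, MvPowerSeries.C τ₂ * η, y] sB - z ^ l ∈ I := by
    have h3 : Polynomial.X ^ (l + 1) ∣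
        (aeval ![1, Polynomial.X, 0, 0, θ'] sB : Polynomial p.B) - Polynomial.X ^ l := by
      rw [Polynomial.X_pow_dvd_iff]
      intro j hj
      rw [Polynomial.coeff_sub, hθ', lemR_coeff θB (l + 1) sB j hj, Polynomial.coeff_X_pow]
      rcases Nat.lt_succ_iff_lt_or_eq.1 hj with h | h
      · rw [hlow j h, if_neg h.ne, sub_zero]
      · rw [h, hlead, if_pos rfl, sub_self]
    obtain ⟨q, hq⟩ := h3
    have h4 : Polynomial.aeval z (aeval ![1, Polynomial.X, 0, 0, θ'] sB) - z ^ l ∈ I := by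
      have h5 := congrArg (Polynomial.aeval z) hq
      rw [map_sub, map_mul, map_pow, map_pow, Polynomial.aeval_X] at h5
      rw [h5]
      exact I.mul_mem_right _ hzI
    have h6 : aeval ![1, z, MvPowerSeries.C τ₂ * ξ, MvPowerSeries.C τ₂ * η, y] sB -
        aeval ![1, z, MvPowerSeries.C τ₂ * ξ, MvPowerSeries.C τ₂ * η, y'] sB ∈ I := by
      refine lemR_sub_mem I (fun i => ?_) sB
      fin_cases i
      · change (1 : MvPowerSeries (Fin 2) p.B) - 1 ∈ I
        rw [sub_self]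
        exact I.zero_mem
      · change z - z ∈ I
        rw [sub_self]
        exact I.zero_mem
      · change MvPowerSeries.C τ₂ * ξ - MvPowerSeries.C τ₂ * ξ ∈ I
        rw [sub_self]
        exact I.zero_mem
      · change MvPowerSeries.C τ₂ * η - MvPowerSeries.C τ₂ * η ∈ I
        rw [sub_self]
        exact I.zero_mem
      · exact hE
    have h7 := I.add_mem (I.add_mem h6 (hA sB)) h4
    have h8 : aeval ![1, z, MvPowerSeries.C τ₂ * ξ, MvPowerSeries.C τ₂ * η, y] sB -
        aeval ![1, z, MvPowerSeries.C τ₂ * ξ, MvPowerSeries.C τ₂ * η, y'] sB +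
        (aeval ![1, z, MvPowerSeries.C τ₂ * ξ, MvPowerSeries.C τ₂ * η, y'] sB -
          Polynomial.aeval z (aeval ![1, Polynomial.X, 0, 0, θ'] sB)) +
        (Polynomial.aeval z (aeval ![1, Polynomial.X, 0, 0, θ'] sB) - z ^ l) =
        aeval ![1, z, MvPowerSeries.C τ₂ * ξ, MvPowerSeries.C τ₂ * η, y] sB - z ^ l := by ring
    rwa [h8] at h7
  rw [hI, Ideal.mem_span_pair] at hV
  obtain ⟨r, r', hr⟩ := hV
  refine ⟨ζ ^ l + MvPowerSeries.C τ₁ * r + MvPowerSeries.C c * r', ?_, ?_⟩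
  · have h3 : aeval ![1, z, MvPowerSeries.C τ₂ * ξ, MvPowerSeries.C τ₂ * η, y] sB =
        z ^ l + (r * MvPowerSeries.C τ₁ ^ (l + 1) + r' * MvPowerSeries.C τ₂) := by
      rw [hr]
      ring
    have h4 : (MvPowerSeries.C τ₂ : MvPowerSeries (Fin 2) p.B) =
        MvPowerSeries.C c * MvPowerSeries.C τ₁ ^ l := by
      rw [hc', map_mul, map_pow]
    rw [h3, hz, h4, map_pow]
    ring
  · rw [map_add, map_add, map_mul, map_mul, map_pow, MvPowerSeries.map_C, MvPowerSeries.map_C, h1, hc,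
      map_zero, zero_mul, zero_mul, add_zero, add_zero]

end Pool.Agent.Lib.MP_ed661f_ag.V
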