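import Pool.Agent.Lib.MP_ed661f_ag.V.Defs

/-!
Ideals which are defined over a subfield.
-/

set_option autoImplicit false

open MvPolynomial

namespace Pool.Agent.Lib.MP_ed661f_ag.V

open Pool.Agent.Lib.MP_ed661f_ag.H

/-- the coefficientwise application of `lam` -/
private noncomputable def linKT {N : ℕ} {K : Subfield ℂ} (lam : ℂ →ₗ[K] K) (F : Poly N) :
    Poly N :=
  ∑ α ∈ F.support, monomial α ((lam (coeff α F) : K) : ℂ)

private theorem linKT_coeff {N : ℕ} {K : Subfield ℂ} (lam : ℂ →ₗ[K] K) (F : Poly N)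
    (β : Fin (N + 1) →₀ ℕ) : coeff β (linKT lam F) = ((lam (coeff β F) : K) : ℂ) := by
  classical
  unfold linKT
  rw [coeff_sum]
  simp only [coeff_monomial]
  rw [Finset.sum_ite_eq']
  split_ifs with h
  · rfl
  · rw [notMem_support_iff.1 h, map_zero]
    rfl

private theorem linKT_eq {N : ℕ} {K : Subfield ℂ} (lam : ℂ →ₗ[K] K) {F F' : Poly N}
    (h : ∀ α, coeff α F' = ((lam (coeff α F) : K) : ℂ)) : F' = linKT lam F := by
  ext α
  rw [h, linKT_coeff]

private theorem linKT_add {N : ℕ} {K : Subfield ℂ} (lam : ℂ →ₗ[K] K) (F G : Poly N) :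
    linKT lam (F + G) = linKT lam F + linKT lam G := by
  ext α
  rw [linKT_coeff, coeff_add, coeff_add, map_add, linKT_coeff, linKT_coeff]
  rfl

private theorem linKT_zero {N : ℕ} {K : Subfield ℂ} (lam : ℂ →ₗ[K] K) :
    linKT lam (0 : Poly N) = 0 := by
  ext α
  rw [linKT_coeff, coeff_zero, map_zero]
  rfl

private theorem linKT_mul {N : ℕ} {K : Subfield ℂ} (lam : ℂ →ₗ[K] K) (h : Poly N)
    (hh : ∀ α, coeff α h ∈ K) (β : Fin (N + 1) →₀ ℕ) (c : ℂ) :
    linKT lam (monomial β c * h) = monomial β ((lam c : K) : ℂ) * h := by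
  ext α
  rw [linKT_coeff, coeff_monomial_mul', coeff_monomial_mul']
  split_ifs with h1
  · have h2 : c * coeff (α - β) h = (⟨coeff (α - β) h, hh _⟩ : K) • c := by
      rw [mul_comm]
      rfl
    rw [h2, map_smul]
    show coeff (α - β) h * ((lam c : K) : ℂ) = _
    rw [mul_comm]
  · rw [map_zero]
    rfl

private theorem linKT_span {N : ℕ} {K : Subfield ℂ} {𝔭 : Ideal (Poly N)} (h𝔭 : DefinedOver K 𝔭)
    (lam : ℂ →ₗ[K] K) {F : Poly N} (hF : F ∈ 𝔭) :
    ∀ (β : Fin (N + 1) →₀ ℕ) (c : ℂ), linKT lam (monomial β c * F) ∈ 𝔭 := by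
  have hF' : F ∈ Submodule.span (Poly N) {F | F ∈ 𝔭 ∧ ∀ α, coeff α F ∈ K} := by
    have h1 : F ∈ Ideal.span {F | F ∈ 𝔭 ∧ ∀ α, coeff α F ∈ K} := by
      rw [← h𝔭]
      exact hF
    exact h1
  refine Submodule.span_induction (p := fun G _ => ∀ (β : Fin (N + 1) →₀ ℕ) (c : ℂ),
    linKT lam (monomial β c * G) ∈ 𝔭) ?_ ?_ ?_ ?_ hF'
  · rintro G ⟨hG, hGK⟩ β c
    rw [linKT_mul lam G hGK]
    exact 𝔭.mul_mem_left _ hG
  · intro β c
    rw [mul_zero, linKT_zero]
    exact 𝔭.zero_mem
  · intro G H _ _ hG hH β c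
    rw [mul_add, linKT_add]
    exact 𝔭.add_mem (hG β c) (hH β c)
  · intro a G _ hG β c
    rw [smul_eq_mul]
    induction a using MvPolynomial.induction_on' with
    | monomial γ d =>
      rw [← mul_assoc, monomial_mul]
      exact hG _ _
    | add p q hp hq =>
      rw [add_mul, mul_add, linKT_add]
      exact 𝔭.add_mem hp hq

/-- **descent**: a linear functional `lam : ℂ → K` applied to the coefficients of an element of an
ideal defined over `K` gives an element of the ideal.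

Proof. By `h𝔭`, `F = ∑ g_j h_j` with `h_j ∈ 𝔭` over `K`; the coefficientwise application of `lam` is
additive and `K[X]`-linear, so it sends `F` to `∑ lam(g_j) h_j`. (Use `Submodule.span_induction` for
`F ∈ Ideal.span _`, with the statement for `C c * X^β * F`, or write the ideal as the `ℂ`-span of
the `X^β h`.) -/
theorem descend {N : ℕ} {K : Subfield ℂ} {𝔭 : Ideal (Poly N)} (h𝔭 : DefinedOver K 𝔭)
    (lam : ℂ →ₗ[K] K) {F F' : Poly N} (hF : F ∈ 𝔭)
    (h : ∀ α, coeff α F' = ((lam (coeff α F) : K) : ℂ)) : F' ∈ 𝔭 := by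
  rw [linKT_eq lam h]
  have h1 := linKT_span h𝔭 lam hF 0 1
  rwa [monomial_zero', C_1, one_mul] at h1

/-- a combination, with coefficients which are linearly independent over `K`, of polynomials over
`K` lies in an ideal defined over `K` only if all of them do.

Proof. For each `i` there is a `K`-linear `lam : ℂ → K` with `lam (u i) = 1` and `lam (u j) = 0` for
`j ≠ i` (extend `u` to a basis of `ℂ` over `K`); use `descend`. -/
theorem linK {N : ℕ} {K : Subfield ℂ} {𝔭 : Ideal (Poly N)} (h𝔭 : DefinedOver K 𝔭) {ι : Type}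
    [Fintype ι] {u : ι → ℂ} (hu : LinearIndependent K u) {f : ι → Poly N}
    (hf : ∀ i α, coeff α (f i) ∈ K) (h : ∑ i, C (u i) * f i ∈ 𝔭) : ∀ i, f i ∈ 𝔭 := by
  classical
  intro i
  obtain ⟨lam, hlam⟩ := LinearMap.exists_extend
    ((Finsupp.lapply (R := K) (M := K) i).comp (hu.repr : _ →ₗ[K] ι →₀ K))
  have h1 : ∀ j, lam (u j) = if j = i then 1 else 0 := by
    intro j
    have hj : u j ∈ Submodule.span K (Set.range u) := Submodule.subset_span ⟨j, rfl⟩
    have h2 := LinearMap.congr_fun hlam ⟨u j, hj⟩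
    have h3 : hu.repr ⟨u j, hj⟩ = Finsupp.single j 1 := hu.repr_eq_single j ⟨u j, hj⟩ rfl
    have h4 : lam (u j) = (hu.repr ⟨u j, hj⟩) i := h2
    rw [h4, h3, Finsupp.single_apply]
  refine descend h𝔭 lam h fun α => ?_
  have h5 : coeff α (∑ j, C (u j) * f j) =
      ∑ j, (⟨coeff α (f j), hf j α⟩ : K) • u j := by
    rw [coeff_sum]
    refine Finset.sum_congr rfl fun j _ => ?_
    rw [coeff_C_mul, mul_comm]
    rfl
  rw [h5, map_sum, Finset.sum_eq_single i]
  · rw [map_smul, h1, if_pos rfl, smul_eq_mul, mul_one]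
  · intro j _ hj
    rw [map_smul, h1, if_neg hj, smul_zero]
  · intro hi
    exact absurd (Finset.mem_univ i) hi

/-- every ideal is defined over a field which contains a certain countable set.

Proof. Coefficients of finitely many generators. -/
theorem exists_definedOver {N : ℕ} (𝔭 : Ideal (Poly N)) :
    ∃ S : Set ℂ, S.Countable ∧ ∀ K : Subfield ℂ, S ⊆ K → DefinedOver K 𝔭 := by
  obtain ⟨s, hs⟩ := (isNoetherianRing_iff_ideal_fg (Poly N)).1 inferInstance 𝔭
  refine ⟨⋃ F ∈ s, Set.range fun α => coeff α F, ?_, ?_⟩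
  · exact s.countable_toSet.biUnion fun F _ => Set.countable_range _
  · intro K hK
    refine le_antisymm ?_ ?_
    · conv_lhs => rw [← hs]
      refine Ideal.span_mono fun F hF => ⟨?_, fun α => ?_⟩
      · rw [← hs]
        exact Ideal.subset_span hF
      · exact hK (Set.mem_biUnion hF ⟨α, rfl⟩)
    · rw [Ideal.span_le]
      exact fun F hF => hF.1

/-- Proof. Obvious. -/
theorem DefinedOver.mono {N : ℕ} {K K' : Subfield ℂ} {𝔭 : Ideal (Poly N)}
    (h : DefinedOver K 𝔭) (hK : K ≤ K') : DefinedOver K' 𝔭 := by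
  refine le_antisymm ?_ ?_
  · have h1 : 𝔭 = Ideal.span {F | F ∈ 𝔭 ∧ ∀ α, coeff α F ∈ K} := h
    conv_lhs => rw [h1]
    exact Ideal.span_mono fun F hF => ⟨hF.1, fun α => hK (hF.2 α)⟩
  · rw [Ideal.span_le]
    exact fun F hF => hF.1

end Pool.Agent.Lib.MP_ed661f_ag.V
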