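import Pool.Agent.Lib.MP_ed661f_ag.V.Defs

/-!
Division by `P` and `G`.
-/

set_option autoImplicit false

open MvPolynomial

namespace Pool.Agent.Lib.MP_ed661f_ag.V

open Pool.Agent.Lib.MP_ed661f_ag.H

private theorem nfA_lt {n : ℕ} {β : Fin n →₀ ℕ} {i : Fin n} {e : ℕ} (h : β.degree = e)
    (hne : β ≠ Finsupp.single i e) : β i < e := by
  have h1 : β.degree = ∑ j, β j := Finsupp.degree_eq_sum β
  have h2 : β i + ∑ j ∈ Finset.univ.erase i, β j = ∑ j, β j :=
    Finset.add_sum_erase _ _ (Finset.mem_univ i)
  by_contra hlt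
  rw [not_lt] at hlt
  have h3 : ∑ j ∈ Finset.univ.erase i, β j = 0 := by omega
  apply hne
  ext j
  by_cases hj : j = i
  · subst hj
    rw [Finsupp.single_eq_same]
    omega
  · rw [Finsupp.single_eq_of_ne (by exact hj)]
    exact Finset.sum_eq_zero_iff.1 h3 j (Finset.mem_erase.2 ⟨hj, Finset.mem_univ j⟩)

/-- the polynomials which are congruent to a reduced form -/
private def nfA_V (e m k : ℕ) (I : Ideal (Poly 4)) : Submodule ℂ (Poly 4) where
  carrier := {Q | ∃ Q' : Poly 4, Q - Q' ∈ I ∧ Q'.IsHomogeneous k ∧
    ∀ γ ∈ Q'.support, γ 4 < e ∧ γ 2 < m}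
  zero_mem' := ⟨0, by rw [sub_zero]; exact I.zero_mem, isHomogeneous_zero _ _ _, fun γ hγ => by
    rw [support_zero] at hγ
    exact absurd hγ (Finset.notMem_empty γ)⟩
  add_mem' := by
    classical
    rintro Q R ⟨Q', h1, h2, h3⟩ ⟨R', h4, h5, h6⟩
    refine ⟨Q' + R', ?_, h2.add h5, fun γ hγ => ?_⟩
    · have e1 : Q + R - (Q' + R') = (Q - Q') + (R - R') := by ring
      rw [e1]
      exact I.add_mem h1 h4
    · rcases Finset.mem_union.1 (support_add hγ) with h | h
      · exact h3 γ h
      · exact h6 γ h
  smul_mem' := by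
    rintro c Q ⟨Q', h1, h2, h3⟩
    refine ⟨c • Q', ?_, ?_, fun γ hγ => h3 γ (support_smul hγ)⟩
    · rw [← smul_sub, smul_eq_C_mul]
      exact I.mul_mem_left _ h1
    · exact (homogeneousSubmodule (Fin (4 + 1)) ℂ k).smul_mem c h2

private theorem nfA_sum {V : Submodule ℂ (Poly 4)} {R : Poly 4}
    (h : ∀ γ, coeff γ R ≠ 0 → monomial γ (1 : ℂ) ∈ V) : R ∈ V := by
  rw [← R.support_sum_monomial_coeff]
  refine V.sum_mem fun γ hγ => ?_
  have e1 : monomial γ (coeff γ R) = coeff γ R • monomial γ (1 : ℂ) := by
    rw [smul_monomial, smul_eq_mul, mul_one]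
  rw [e1]
  exact V.smul_mem _ (h γ (mem_support_iff.1 hγ))

private theorem nfA_mul {V : Submodule ℂ (Poly 4)} {R : Poly 4} {γ : Fin (4 + 1) →₀ ℕ}
    (h : ∀ β, coeff β R ≠ 0 → monomial (γ + β) (1 : ℂ) ∈ V) : monomial γ 1 * R ∈ V := by
  refine nfA_sum fun δ hδ => ?_
  rw [coeff_monomial_mul'] at hδ
  split_ifs at hδ with h1
  · rw [one_mul] at hδ
    have h2 := h _ hδ
    rwa [add_tsub_cancel_of_le h1] at h2
  · exact absurd rfl hδ

/-- division: every form of degree `k` is congruent, modulo `P` and `G`, to a form of degree `k`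
with exponents `< e` of `X 4` and `< m` of `X 2`.

Proof. Dividing by `P` with respect to `X 4` (`P` is a form of degree `e` with coefficient `1` at
`X 4 ^ e`, all its other exponents of `X 4` are smaller) one may assume that the exponents of `X 4`
are `< e`: as in `S.Hn.exists_rem` (file `S/Rem.lean`). Then divide the coefficients of the powers
of `X 4`, forms in `X 0, ..., X 3`, by `G1`, a form of degree `m` whose only monomial with exponent
`≥ m` of `X 2` is `X 2 ^ m`, with a coefficient `≠ 0`. In one go: induction on the sum of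
`(degree in X 4) * (k + 1) + (degree in X 2)`, or show that the monomials `X^γ` which are not of
this form can be rewritten: `X 4 ^ e ≡ X 4 ^ e - P` has smaller exponents of `X 4`, and
`X 2 ^ m ≡ X 2 ^ m - c⁻¹ G` has the same exponents of `X 4` (none) and smaller exponents of
`X 2`; well-founded induction on the pair (exponent of `X 4`, exponent of `X 2`),
lexicographically. -/
theorem exists_rem_two {e m : ℕ} {P : Poly 4} (hP : P.IsHomogeneous e)
    (hc : coeff (Finsupp.single 4 e) P = 1) {G1 : Poly 3} (hG1 : G1.IsHomogeneous m)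
    (hG2 : coeff (Finsupp.single 2 m) G1 ≠ 0) {k : ℕ} {Q : Poly 4} (hQ : Q.IsHomogeneous k) :
    ∃ Q' : Poly 4, Q - Q' ∈ Ideal.span {P, inc4 G1} ∧ Q'.IsHomogeneous k ∧
      ∀ γ ∈ Q'.support, γ 4 < e ∧ γ 2 < m := by
  classical
  set I : Ideal (Poly 4) := Ideal.span {P, inc4 G1} with hI
  have hPI : P ∈ I := Ideal.subset_span (Set.mem_insert _ _)
  have hGI : inc4 G1 ∈ I := Ideal.subset_span (Set.mem_insert_of_mem _ rfl)
  have hIV : ∀ R ∈ I, R ∈ nfA_V e m k I := fun R hR =>
    ⟨0, by rw [sub_zero]; exact hR, isHomogeneous_zero _ _ _, fun γ hγ => by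
      rw [support_zero] at hγ
      exact absurd hγ (Finset.notMem_empty γ)⟩
  have hle : ∀ (γ : Fin (4 + 1) →₀ ℕ) i, γ i ≤ γ.degree := fun γ i => Finsupp.le_degree i γ
  have key : ∀ μ : ℕ, ∀ γ : Fin (4 + 1) →₀ ℕ, γ.degree = k → γ 4 * (k + 1) + γ 2 = μ →
      monomial γ (1 : ℂ) ∈ nfA_V e m k I := by
    intro μ
    induction μ using Nat.strong_induction_on with
    | _ μ ih =>
      intro γ hγ hμ
      by_cases h4 : e ≤ γ 4
      · -- division by `P`
        obtain ⟨γ', hγ'⟩ : ∃ γ', γ = γ' + Finsupp.single 4 e :=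
          ⟨γ - Finsupp.single 4 e, (tsub_add_cancel_of_le (by
            rw [Finsupp.single_le_iff]; exact h4)).symm⟩
        have e1 : (monomial γ (1 : ℂ) : Poly 4) = monomial γ' 1 * P -
            monomial γ' 1 * (P - monomial (Finsupp.single 4 e) 1) := by
          rw [hγ', mul_sub, sub_sub_cancel, monomial_mul, one_mul]
        rw [e1]
        refine Submodule.sub_mem _ (hIV _ (I.mul_mem_left _ hPI)) (nfA_mul fun β hβ => ?_)
        rw [coeff_sub, coeff_monomial] at hβ
        have hne : β ≠ Finsupp.single 4 e := by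
          rintro rfl
          rw [if_pos rfl, hc, sub_self] at hβ
          exact hβ rfl
        rw [if_neg (Ne.symm hne), sub_zero] at hβ
        have hdeg : β.degree = e := by
          by_contra h
          exact hβ (hP.coeff_eq_zero h)
        have hlt := nfA_lt hdeg hne
        have hd : (γ' + β).degree = k := by
          rw [← hγ, hγ', map_add, map_add, hdeg, Finsupp.degree_single]
        refine ih _ ?_ (γ' + β) hd rfl
        have h1 : γ 4 = γ' 4 + e := by
          rw [hγ', Finsupp.add_apply, Finsupp.single_eq_same]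
        have h2 : (γ' + β) 2 ≤ k := hd ▸ hle _ 2
        have h3 : (γ' + β) 4 = γ' 4 + β 4 := Finsupp.add_apply _ _ _
        have h5 : ((γ' + β) 4 + 1) * (k + 1) ≤ γ 4 * (k + 1) :=
          Nat.mul_le_mul_right _ (by omega)
        rw [add_mul, one_mul] at h5
        omega
      · by_cases h2 : m ≤ γ 2
        · -- division by `G1`
          obtain ⟨c, hcc⟩ : ∃ c, c = coeff (Finsupp.single 2 m) G1 := ⟨_, rfl⟩
          have hc0 : c ≠ 0 := hcc ▸ hG2
          obtain ⟨γ', hγ'⟩ : ∃ γ', γ = γ' + Finsupp.single 2 m :=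
            ⟨γ - Finsupp.single 2 m, (tsub_add_cancel_of_le (by
              rw [Finsupp.single_le_iff]; exact h2)).symm⟩
          have e0 : inc4 (monomial (Finsupp.single 2 m) c) = monomial (Finsupp.single 2 m) c := by
            unfold inc4
            rw [rename_monomial, Finsupp.mapDomain_single]
            rfl
          have e1 : (monomial γ (1 : ℂ) : Poly 4) = c⁻¹ • (monomial γ' 1 * inc4 G1) -
              c⁻¹ • (monomial γ' 1 * inc4 (G1 - monomial (Finsupp.single 2 m) c)) := by
            rw [map_sub, e0, ← smul_sub, mul_sub, sub_sub_cancel, monomial_mul, one_mul, ← hγ',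
              smul_monomial, smul_eq_mul, inv_mul_cancel₀ hc0]
          rw [e1]
          refine Submodule.sub_mem _ (Submodule.smul_mem _ _ (hIV _ (I.mul_mem_left _ hGI)))
            (Submodule.smul_mem _ _ (nfA_mul fun β hβ => ?_))
          obtain ⟨u, hu, hu0⟩ := coeff_rename_ne_zero _ _ _ hβ
          rw [coeff_sub, coeff_monomial] at hu0
          have hne : u ≠ Finsupp.single 2 m := by
            rintro rfl
            rw [if_pos rfl, hcc, sub_self] at hu0
            exact hu0 rfl
          rw [if_neg (Ne.symm hne), sub_zero] at hu0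
          have hdeg : u.degree = m := by
            by_contra h
            exact hu0 (hG1.coeff_eq_zero h)
          have hlt := nfA_lt hdeg hne
          have hβdeg : β.degree = m := by
            rw [← hu, ← hdeg]
            exact Finsupp.degree_mapDomain _ _
          have hβ4 : β 4 = 0 := by
            rw [← hu]
            refine Finsupp.mapDomain_of_notMem_range _ _ ?_
            rintro ⟨i, hi⟩
            exact absurd hi (Fin.castSucc_lt_last i).ne
          have hβ2 : β 2 = u 2 := by
            rw [← hu]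
            exact Finsupp.mapDomain_apply (Fin.castSucc_injective 4) u 2
          have hd : (γ' + β).degree = k := by
            rw [← hγ, hγ', map_add, map_add, hβdeg, Finsupp.degree_single]
          refine ih _ ?_ (γ' + β) hd rfl
          have h1 : γ 2 = γ' 2 + m := by
            rw [hγ', Finsupp.add_apply, Finsupp.single_eq_same]
          have h5 : γ 4 = γ' 4 := by
            rw [hγ', Finsupp.add_apply, Finsupp.single_eq_of_ne (by decide), add_zero]
          rw [Finsupp.add_apply, Finsupp.add_apply, hβ4, add_zero, ← h5]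
          omega
        · -- reduced monomials
          refine ⟨monomial γ 1, by rw [sub_self]; exact I.zero_mem,
            isHomogeneous_monomial _ hγ, fun δ hδ => ?_⟩
          have h1 := support_monomial_subset hδ
          rw [Finset.mem_singleton] at h1
          subst h1
          exact ⟨not_le.1 h4, not_le.1 h2⟩
  have h := nfA_sum (V := nfA_V e m k I) (R := Q) fun γ hγ => by
    refine key _ γ ?_ rfl
    by_contra h
    exact hγ (hQ.coeff_eq_zero h)
  exact h

end Pool.Agent.Lib.MP_ed661f_ag.V
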