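import Pool.Agent.Lib.MP_ed661f_ag.V.Defs

/-!
The order on the branch of a form of degree `k` is at most `e k`.
-/

set_option autoImplicit false

open MvPolynomial

namespace Pool.Agent.Lib.MP_ed661f_ag.V

open Pool.Agent.Lib.MP_ed661f_ag.H

section aux

/-- bound for the exponents -/
private def Wt (w a : ℕ) (c : Polynomial ℂ) : Prop := ∀ l, c.coeff l ≠ 0 → l + a ≤ w

private theorem Wt.zero (w a : ℕ) : Wt w a 0 := fun l hl => absurd (Polynomial.coeff_zero l) hl

private theorem Wt.sub {w a : ℕ} {c c' : Polynomial ℂ} (h : Wt w a c) (h' : Wt w a c') :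
    Wt w a (c - c') := by
  intro l hl
  rw [Polynomial.coeff_sub] at hl
  by_cases h0 : c.coeff l = 0
  · by_cases h1 : c'.coeff l = 0
    · rw [h0, h1, sub_zero] at hl
      exact absurd rfl hl
    · exact h' l h1
  · exact h l h0

private theorem Wt.mul {w a w' a' : ℕ} {c c' : Polynomial ℂ} (h : Wt w a c) (h' : Wt w' a' c') :
    Wt (w + w') (a + a') (c * c') := by
  intro l hl
  rw [Polynomial.coeff_mul] at hl
  obtain ⟨x, hx, hx0⟩ := Finset.exists_ne_zero_of_sum_ne_zero hl
  rw [Finset.HasAntidiagonal.mem_antidiagonal] at hx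
  have h1 := h x.1 (left_ne_zero_of_mul hx0)
  have h2 := h' x.2 (right_ne_zero_of_mul hx0)
  omega

private theorem Wt.mono {w a w' a' : ℕ} {c : Polynomial ℂ} (h : Wt w a c)
    (hh : w + a' ≤ w' + a) : Wt w' a' c := by
  intro l hl
  have := h l hl
  omega

private theorem Wt.prod {ι : Type} (s : Finset ι) (w a : ι → ℕ) (c : ι → Polynomial ℂ)
    (h : ∀ i ∈ s, Wt (w i) (a i) (c i)) :
    Wt (∑ i ∈ s, w i) (∑ i ∈ s, a i) (∏ i ∈ s, c i) := by
  classical
  induction s using Finset.induction_on with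
  | empty =>
    intro l hl
    rw [Finset.prod_empty, Polynomial.coeff_one] at hl
    have h0 : l = 0 := by
      by_contra h0
      rw [if_neg h0] at hl
      exact hl rfl
    simp [h0]
  | insert i s hi ih =>
    rw [Finset.sum_insert hi, Finset.sum_insert hi, Finset.prod_insert hi]
    exact (h i (Finset.mem_insert_self i s)).mul
      (ih fun j hj => h j (Finset.mem_insert_of_mem hj))

/-- the embedding of the polynomials -/
private noncomputable abbrev φp : Polynomial ℂ →+* PowerSeries ℂ :=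
  Polynomial.coeToPowerSeries.ringHom

private theorem coeff_φp (p : Polynomial ℂ) (l : ℕ) :
    PowerSeries.coeff l (φp p) = p.coeff l := Polynomial.coeff_coe p l

private theorem φp_inj {p : Polynomial ℂ} (h : φp p = 0) : p = 0 := by
  ext l
  rw [← coeff_φp, h, map_zero, Polynomial.coeff_zero]

private theorem φp_term (a : ℂ) (l : ℕ) : φp (Polynomial.C a * Polynomial.X ^ l) =
    algebraMap ℂ (PowerSeries ℂ) a * PowerSeries.X ^ l := by
  rw [map_mul, map_pow]
  have h1 : φp (Polynomial.C a) = algebraMap ℂ (PowerSeries ℂ) a := Polynomial.coe_C a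
  have h2 : φp Polynomial.X = PowerSeries.X := Polynomial.coe_X
  rw [h1, h2]

/-- the coefficients with respect to `X 4` -/
private noncomputable def cf (F : Poly 4) (i : ℕ) : Polynomial ℂ :=
  ∑ γ ∈ F.support, if γ 2 = 0 ∧ γ 3 = 0 ∧ γ 4 = i then
    Polynomial.C (coeff γ F) * Polynomial.X ^ γ 1 else 0

private theorem br_eq (θ : PowerSeries ℂ) (F : Poly 4) (n : ℕ)
    (h : ∀ γ ∈ F.support, γ 2 = 0 → γ 3 = 0 → γ 4 < n) :
    br θ F = ∑ i ∈ Finset.range n, φp (cf F i) * θ ^ i := by
  unfold br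
  rw [aeval_def, eval₂_eq']
  have e1 : ∀ i, φp (cf F i) * θ ^ i = ∑ γ ∈ F.support, if γ 2 = 0 ∧ γ 3 = 0 ∧ γ 4 = i then
      algebraMap ℂ (PowerSeries ℂ) (coeff γ F) * PowerSeries.X ^ γ 1 * θ ^ i else 0 := by
    intro i
    unfold cf
    rw [map_sum, Finset.sum_mul]
    refine Finset.sum_congr rfl fun γ _ => ?_
    split_ifs with h1
    · rw [φp_term]
    · rw [map_zero, zero_mul]
  rw [Finset.sum_congr rfl fun i _ => e1 i, Finset.sum_comm]
  refine Finset.sum_congr rfl fun γ hγ => ?_
  rw [Fin.prod_univ_five]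
  by_cases h2 : γ 2 = 0
  · by_cases h3 : γ 3 = 0
    · have h4 := h γ hγ h2 h3
      rw [Finset.sum_eq_single (γ 4)]
      · rw [if_pos ⟨h2, h3, rfl⟩, h2, h3]
        show _ * ((1 : PowerSeries ℂ) ^ γ 0 * PowerSeries.X ^ γ 1 * (0 : PowerSeries ℂ) ^ 0 *
          (0 : PowerSeries ℂ) ^ 0 * θ ^ γ 4) = _
        rw [one_pow, pow_zero]
        ring
      · intro i _ hi
        rw [if_neg]
        rintro ⟨-, -, h5⟩
        exact hi h5.symm
      · intro h5
        exact absurd (Finset.mem_range.2 h4) h5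
    · rw [Finset.sum_eq_zero]
      · show _ * ((1 : PowerSeries ℂ) ^ γ 0 * PowerSeries.X ^ γ 1 * (0 : PowerSeries ℂ) ^ γ 2 *
          (0 : PowerSeries ℂ) ^ γ 3 * θ ^ γ 4) = _
        rw [zero_pow h3]
        ring
      · intro i _
        rw [if_neg]
        rintro ⟨-, h5, -⟩
        exact h3 h5
  · rw [Finset.sum_eq_zero]
    · show _ * ((1 : PowerSeries ℂ) ^ γ 0 * PowerSeries.X ^ γ 1 * (0 : PowerSeries ℂ) ^ γ 2 *
        (0 : PowerSeries ℂ) ^ γ 3 * θ ^ γ 4) = _
      rw [zero_pow h2]
      ring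
    · intro i _
      rw [if_neg]
      rintro ⟨h5, -, -⟩
      exact h2 h5

private theorem deg_five {F : Poly 4} {d : ℕ} (hF : F.IsHomogeneous d) {γ : Fin 5 →₀ ℕ}
    (hγ : γ ∈ F.support) : γ 0 + γ 1 + γ 2 + γ 3 + γ 4 = d := by
  have h1 : γ.degree = d := by
    rw [Finsupp.degree_eq_weight_one]
    exact hF (mem_support_iff.1 hγ)
  rw [← h1, Finsupp.degree_eq_sum, Fin.sum_univ_five]

private theorem cf_wt {F : Poly 4} {d : ℕ} (hF : F.IsHomogeneous d) (i : ℕ) :
    Wt d i (cf F i) := by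
  intro l hl
  unfold cf at hl
  rw [Polynomial.finsetSum_coeff] at hl
  obtain ⟨γ, hγ, h1⟩ := Finset.exists_ne_zero_of_sum_ne_zero hl
  have h2 := deg_five hF hγ
  split_ifs at h1 with h3
  · rw [Polynomial.coeff_C_mul_X_pow] at h1
    have h4 : l = γ 1 := by
      by_contra h4
      rw [if_neg h4] at h1
      exact h1 rfl
    omega
  · exact absurd (Polynomial.coeff_zero l) h1

private theorem exists_col {e k : ℕ} (p : ℕ → Polynomial ℂ) (hp : ∀ i, Wt (e + 1) i (p i))
    (θ : PowerSeries ℂ)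
    (hθ : θ ^ (e + 1) + ∑ i ∈ Finset.range (e + 1), φp (p i) * θ ^ i = 0)
    (c : ℕ → Polynomial ℂ) (hc : ∀ i, Wt k i (c i)) (j : ℕ) :
    ∃ c' : ℕ → Polynomial ℂ, (∀ i, Wt (k + j) i (c' i)) ∧
      ∑ i ∈ Finset.range (e + 1), φp (c' i) * θ ^ i =
        (∑ i ∈ Finset.range (e + 1), φp (c i) * θ ^ i) * θ ^ j := by
  induction j with
  | zero => exact ⟨c, hc, by rw [pow_zero, mul_one]⟩
  | succ j ih =>
    obtain ⟨c', h1, h2⟩ := ih
    refine ⟨fun i => (if i = 0 then 0 else c' (i - 1)) - c' e * p i, fun i => Wt.sub ?_ ?_, ?_⟩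
    · split_ifs with h0
      · exact Wt.zero _ _
      · exact (h1 (i - 1)).mono (by omega)
    · exact ((h1 e).mul (hp i)).mono (by omega)
    · have e1 : ∀ i, φp ((if i = 0 then 0 else c' (i - 1)) - c' e * p i) * θ ^ i =
          φp (if i = 0 then 0 else c' (i - 1)) * θ ^ i - φp (c' e) * (φp (p i) * θ ^ i) := by
        intro i
        rw [map_sub, map_mul]
        ring
      rw [Finset.sum_congr rfl fun i _ => e1 i, Finset.sum_sub_distrib, ← Finset.mul_sum]
      have e2 : ∑ i ∈ Finset.range (e + 1), φp (p i) * θ ^ i = -θ ^ (e + 1) := by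
        rw [← sub_eq_zero, sub_neg_eq_add, add_comm]
        exact hθ
      have e3 : ∑ i ∈ Finset.range (e + 1), φp (if i = 0 then 0 else c' (i - 1)) * θ ^ i =
          ∑ i ∈ Finset.range e, φp (c' i) * θ ^ (i + 1) := by
        rw [Finset.sum_range_succ']
        simp
      have e4 : (∑ i ∈ Finset.range (e + 1), φp (c' i) * θ ^ i) * θ =
          ∑ i ∈ Finset.range e, φp (c' i) * θ ^ (i + 1) + φp (c' e) * θ ^ (e + 1) := by
        rw [Finset.sum_range_succ, add_mul, Finset.sum_mul]
        rw [Finset.sum_congr rfl fun i _ => (by ring :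
          φp (c' i) * θ ^ i * θ = φp (c' i) * θ ^ (i + 1))]
        ring
      rw [e2, e3, mul_neg, sub_neg_eq_add, ← e4, h2]
      ring

/-- the exponent -/
private noncomputable def mm (f i l : ℕ) : Fin 5 →₀ ℕ :=
  Finsupp.single 0 (f - i - l) + Finsupp.single 1 l + Finsupp.single 4 i

private theorem mm_mon (f i l : ℕ) (a : ℂ) : (monomial (mm f i l) a : Poly 4) =
    C a * X 0 ^ (f - i - l) * X 1 ^ l * X 4 ^ i := by
  unfold mm
  rw [X_pow_eq_monomial, X_pow_eq_monomial, X_pow_eq_monomial, C_mul_monomial, monomial_mul,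
    monomial_mul, mul_one, mul_one, mul_one]

private theorem exists_form {e : ℕ} (θ : PowerSeries ℂ) (w : ℕ → Polynomial ℂ) :
    ∃ (f : ℕ) (Q : Poly 4), Q.IsHomogeneous f ∧ InS e Q ∧
      br θ Q = ∑ i ∈ Finset.range e, φp (w i) * θ ^ i ∧ (Q = 0 → ∀ i < e, w i = 0) := by
  classical
  set D := ∑ i ∈ Finset.range e, (w i).natDegree with hD
  have hDi : ∀ i < e, (w i).natDegree < D + 1 := fun i hi =>
    Nat.lt_succ_of_le (Finset.single_le_sum (f := fun i => (w i).natDegree)
      (fun _ _ => Nat.zero_le _) (Finset.mem_range.2 hi))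
  have hw : ∀ i < e, w i = ∑ l ∈ Finset.range (D + 1), Polynomial.C ((w i).coeff l) *
      Polynomial.X ^ l := fun i hi => Polynomial.as_sum_range_C_mul_X_pow' _ (hDi i hi)
  set f := D + e with hf
  refine ⟨f, ∑ i ∈ Finset.range e, ∑ l ∈ Finset.range (D + 1),
    monomial (mm f i l) ((w i).coeff l), ?_, ?_, ?_, ?_⟩
  · refine IsHomogeneous.sum _ _ _ fun i hi => IsHomogeneous.sum _ _ _ fun l hl => ?_
    refine isHomogeneous_monomial _ ?_
    rw [Finset.mem_range] at hi hl
    unfold mm
    rw [map_add, map_add, Finsupp.degree_single, Finsupp.degree_single, Finsupp.degree_single]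
    omega
  · intro γ hγ
    rw [mem_support_iff, coeff_sum] at hγ
    obtain ⟨i, hi, h1⟩ := Finset.exists_ne_zero_of_sum_ne_zero hγ
    rw [coeff_sum] at h1
    obtain ⟨l, hl, h2⟩ := Finset.exists_ne_zero_of_sum_ne_zero h1
    rw [coeff_monomial] at h2
    have h3 : mm f i l = γ := by
      by_contra h3
      rw [if_neg h3] at h2
      exact h2 rfl
    rw [Finset.mem_range] at hi
    rw [← h3]
    unfold mm
    refine ⟨?_, ?_, ?_⟩
    · simp
    · simp
    · simpa using hi
  · rw [map_sum]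
    refine Finset.sum_congr rfl fun i hi => ?_
    rw [Finset.mem_range] at hi
    rw [map_sum]
    conv_rhs => rw [hw i hi]
    rw [map_sum, Finset.sum_mul]
    refine Finset.sum_congr rfl fun l _ => ?_
    rw [mm_mon, φp_term]
    unfold br
    rw [map_mul, map_mul, map_mul, map_pow, map_pow, map_pow, aeval_C, aeval_X, aeval_X, aeval_X]
    show _ * (1 : PowerSeries ℂ) ^ _ * PowerSeries.X ^ l * θ ^ i = _
    rw [one_pow, mul_one]
  · intro h0 i hi
    have h1 := congrArg (aeval (![1, Polynomial.C Polynomial.X, 0, 0, Polynomial.X] :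
      Fin 5 → Polynomial (Polynomial ℂ))) h0
    rw [map_zero, map_sum] at h1
    have h2 : ∀ i ∈ Finset.range e, (aeval (![1, Polynomial.C Polynomial.X, 0, 0, Polynomial.X] :
      Fin 5 → Polynomial (Polynomial ℂ))) (∑ l ∈ Finset.range (D + 1),
        monomial (mm f i l) ((w i).coeff l) : Poly 4) = Polynomial.C (w i) * Polynomial.X ^ i := by
      intro i hi
      rw [Finset.mem_range] at hi
      conv_rhs => rw [hw i hi]
      rw [map_sum, map_sum, Finset.sum_mul]
      refine Finset.sum_congr rfl fun l _ => ?_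
      rw [mm_mon, map_mul, map_mul, map_mul, map_pow, map_pow, map_pow, aeval_C, aeval_X, aeval_X,
        aeval_X]
      show _ * (1 : Polynomial (Polynomial ℂ)) ^ _ * (Polynomial.C Polynomial.X) ^ l *
        Polynomial.X ^ i = _
      rw [one_pow, mul_one, map_mul, map_pow]
      rfl
    rw [Finset.sum_congr rfl h2] at h1
    have h3 := congrArg (fun q => Polynomial.coeff q i) h1
    simp only [Polynomial.finsetSum_coeff, Polynomial.coeff_C_mul_X_pow,
      Polynomial.coeff_zero] at h3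
    rw [Finset.sum_eq_single i] at h3
    · simpa using h3
    · intro j _ hj
      rw [if_neg (Ne.symm hj)]
    · intro h4
      exact absurd (Finset.mem_range.2 hi) h4

end aux

/-- **the orders on the branch are at most `e k`**.

Proof. Let `p` be `P` at `(1 : Z : 0 : 0 : T)`, monic in `T` of degree `e`, and `q` be `Q` at
`(1 : Z : 0 : 0 : T)`; let `M` be the matrix of the multiplication by `q` on `ℂ[Z][T] / (p)`. Its
determinant is a polynomial of degree at most `e k` (weights), it is a multiple of `br θ Q`, and it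
is not `0` (`hB.inj`). -/
theorem ord_le {e : ℕ} (he : 1 ≤ e) {P : Poly 4} (hP : P.IsHomogeneous e)
    (hc : coeff (Finsupp.single 4 e) P = 1) {θ : PowerSeries ℂ} (hB : Branch e P θ) {k : ℕ}
    {Q : Poly 4} (hQ : Q.IsHomogeneous k) (hS : InS e Q) (h0 : Q ≠ 0) :
    ∃ l ≤ e * k, PowerSeries.coeff l (br θ Q) ≠ 0 := by
  classical
  by_contra hcon
  push_neg at hcon
  have hQ0 : br θ Q ≠ 0 := fun h => h0 (hB.inj k Q hQ hS h)
  obtain ⟨e', rfl⟩ : ∃ e', e = e' + 1 := ⟨e - 1, by omega⟩
  have hq : br θ Q = ∑ i ∈ Finset.range (e' + 1), φp (cf Q i) * θ ^ i :=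
    br_eq θ Q _ fun γ hγ _ _ => (hS γ hγ).2.2
  have hp1 : cf P (e' + 1) = 1 := by
    unfold cf
    rw [Finset.sum_eq_single (Finsupp.single 4 (e' + 1))]
    · rw [if_pos ⟨by simp, by simp, by simp⟩, hc]
      simp
    · intro γ hγ h1
      rw [if_neg]
      rintro ⟨h2, h3, h4⟩
      have h5 := deg_five hP hγ
      apply h1
      ext i
      fin_cases i
      · show γ 0 = (Finsupp.single 4 (e' + 1) : Fin 5 →₀ ℕ) 0
        rw [Finsupp.single_eq_of_ne (by decide)]
        omega
      · show γ 1 = (Finsupp.single 4 (e' + 1) : Fin 5 →₀ ℕ) 1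
        rw [Finsupp.single_eq_of_ne (by decide)]
        omega
      · show γ 2 = (Finsupp.single 4 (e' + 1) : Fin 5 →₀ ℕ) 2
        rw [Finsupp.single_eq_of_ne (by decide)]
        omega
      · show γ 3 = (Finsupp.single 4 (e' + 1) : Fin 5 →₀ ℕ) 3
        rw [Finsupp.single_eq_of_ne (by decide)]
        omega
      · show γ 4 = (Finsupp.single 4 (e' + 1) : Fin 5 →₀ ℕ) 4
        rw [Finsupp.single_eq_same]
        omega
    · intro h1
      rw [notMem_support_iff, hc] at h1
      exact absurd h1 one_ne_zero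
  have hθ : θ ^ (e' + 1) + ∑ i ∈ Finset.range (e' + 1), φp (cf P i) * θ ^ i = 0 := by
    have h1 := br_eq θ P (e' + 2) fun γ hγ _ _ => by
      have := deg_five hP hγ
      omega
    rw [hB.hP, Finset.sum_range_succ, hp1, map_one, one_mul] at h1
    rw [add_comm]
    exact h1.symm
  choose c' hc1 hc2 using fun j => exists_col (fun i => cf P i) (fun i => cf_wt hP i) θ hθ
    (fun i => cf Q i) (fun i => cf_wt hQ i) j
  set M : Matrix (Fin (e' + 1)) (Fin (e' + 1)) (Polynomial ℂ) := Matrix.of fun i j =>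
    c' j.val i.val with hM
  set v : Fin (e' + 1) → PowerSeries ℂ := fun i => θ ^ i.val with hv
  have hvM : Matrix.vecMul v (M.map φp) = br θ Q • v := by
    funext j
    rw [Pi.smul_apply, smul_eq_mul, hq, ← hc2 j.val, Finset.sum_range]
    unfold Matrix.vecMul dotProduct
    refine Finset.sum_congr rfl fun i _ => ?_
    rw [mul_comm]
    rfl
  have hdet : φp M.det = br θ Q * Matrix.vecMul v (M.map φp).adjugate 0 := by
    have h1 : Matrix.vecMul (Matrix.vecMul v (M.map φp)) (M.map φp).adjugate =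
        (M.map φp).det • v := by
      rw [Matrix.vecMul_vecMul, Matrix.mul_adjugate, Matrix.vecMul_smul, Matrix.vecMul_one]
    rw [hvM, Matrix.smul_vecMul] at h1
    have h2 := congrFun h1 0
    rw [Pi.smul_apply, Pi.smul_apply, smul_eq_mul, smul_eq_mul] at h2
    have h3 : (M.map φp).det = φp M.det := (RingHom.map_det φp M).symm
    rw [h3] at h2
    rw [h2]
    simp [hv]
  have hwt : Wt ((e' + 1) * k) 0 M.det := by
    intro l hl
    rw [Matrix.det_apply, Polynomial.finsetSum_coeff] at hl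
    obtain ⟨σ, -, h1⟩ := Finset.exists_ne_zero_of_sum_ne_zero hl
    have h2 : (∏ i, M (σ i) i).coeff l ≠ 0 := by
      intro h2
      apply h1
      rw [Polynomial.coeff_smul, h2, smul_zero]
    have h3 := Wt.prod Finset.univ (fun i : Fin (e' + 1) => k + i.val)
      (fun i : Fin (e' + 1) => (σ i).val) (fun i => M (σ i) i) (fun i _ => hc1 i.val (σ i).val) l h2
    have h4 : ∑ i : Fin (e' + 1), (σ i).val = ∑ i : Fin (e' + 1), i.val :=
      Equiv.sum_comp σ fun i : Fin (e' + 1) => i.val
    rw [h4, Finset.sum_add_distrib, Finset.sum_const, Finset.card_univ, Fintype.card_fin,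
      smul_eq_mul] at h3
    omega
  have hdet0 : M.det = 0 := by
    ext l
    rw [Polynomial.coeff_zero]
    by_cases hl : l ≤ (e' + 1) * k
    · rw [← coeff_φp, hdet, PowerSeries.coeff_mul]
      refine Finset.sum_eq_zero fun x hx => ?_
      rw [Finset.HasAntidiagonal.mem_antidiagonal] at hx
      rw [hcon x.1 (by omega), zero_mul]
    · by_contra h1
      have := hwt l h1
      omega
  obtain ⟨w, hw0, hw⟩ := Matrix.exists_mulVec_eq_zero_iff.2 hdet0
  have h1 : v ⬝ᵥ (fun i => φp (w i)) = 0 := by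
    have h2 : Matrix.mulVec (M.map φp) (fun i => φp (w i)) = 0 := by
      funext i
      have := congrArg φp (congrFun hw i)
      rw [Pi.zero_apply, map_zero] at this
      rw [Pi.zero_apply, ← this]
      unfold Matrix.mulVec dotProduct
      rw [map_sum]
      refine Finset.sum_congr rfl fun j _ => ?_
      rw [map_mul]
      rfl
    have h3 : Matrix.vecMul v (M.map φp) ⬝ᵥ (fun i => φp (w i)) = 0 := by
      rw [← Matrix.dotProduct_mulVec, h2, dotProduct_zero]
    rw [hvM, smul_dotProduct, smul_eq_mul] at h3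
    exact (mul_eq_zero.1 h3).resolve_left hQ0
  obtain ⟨f, Q', h2, h3, h4, h5⟩ := exists_form (e := e' + 1) θ
    (fun i => if h : i < e' + 1 then w ⟨i, h⟩ else 0)
  have h6 : br θ Q' = 0 := by
    rw [h4, Finset.sum_range, ← h1]
    unfold dotProduct
    refine Finset.sum_congr rfl fun i _ => ?_
    rw [dif_pos i.isLt, mul_comm]
  have h7 := h5 (hB.inj f Q' h2 h3 h6)
  apply hw0
  funext i
  have h8 := h7 i.val i.isLt
  rw [dif_pos i.isLt] at h8
  exact h8

end Pool.Agent.Lib.MP_ed661f_ag.V
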