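import Pool.Agent.Lib.MP_ed661f_ag.V.Defs
import Pool.Agent.Lib.MP_ed661f_ag.W.ProjForm

/-!
Projection of a threefold in `ℙᴺ` to a threefold `P = 0` in `ℙ⁴`: the form `P` and the conductor.
-/

set_option autoImplicit false
set_option synthInstance.maxHeartbeats 400000
set_option maxHeartbeats 4000000

open MvPolynomial

namespace Pool.Agent.Lib.MP_ed661f_ag.V

open Pool.Agent.Lib.MP_ed661f_ag.H

variable {N : ℕ}

/-- `ℂ[x₀,..,x₄]` as polynomials in `x₄` over `ℂ[x₀,..,x₃]` -/
private noncomputable def eqv5 : Poly 4 ≃ₐ[ℂ] Polynomial (MvPolynomial (Fin 4) ℂ) :=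
  (renameEquiv ℂ finSuccEquivLast).trans (optionEquivLeft ℂ (Fin 4))

private theorem eqv5_X_last : eqv5 (X (Fin.last 4)) = Polynomial.X := by
  unfold eqv5
  rw [AlgEquiv.trans_apply, renameEquiv_apply, rename_X, finSuccEquivLast_last,
    optionEquivLeft_X_none]

private theorem eqv5_X_castSucc (i : Fin 4) : eqv5 (X (Fin.castSucc i)) = Polynomial.C (X i) := by
  unfold eqv5
  rw [AlgEquiv.trans_apply, renameEquiv_apply, rename_X, finSuccEquivLast_castSucc,
    optionEquivLeft_X_some]

private theorem eqv5_C (c : ℂ) : eqv5 (C c) = Polynomial.C (C c) := by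
  unfold eqv5
  rw [AlgEquiv.trans_apply, renameEquiv_apply, rename_C, optionEquivLeft_C]

private theorem eqv5_inc4 (b : MvPolynomial (Fin 4) ℂ) : eqv5 (inc4 b) = Polynomial.C b := by
  induction b using MvPolynomial.induction_on with
  | C a => rw [inc4, rename_C, eqv5_C]
  | add p q hp hq => rw [map_add, map_add, map_add, hp, hq]
  | mul_X p i hp =>
    rw [map_mul, map_mul, map_mul, hp]
    congr 1
    rw [inc4, rename_X, eqv5_X_castSucc]

private theorem eqv5_symm_C (b : MvPolynomial (Fin 4) ℂ) : eqv5.symm (Polynomial.C b) = inc4 b := by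
  rw [AlgEquiv.symm_apply_eq, eqv5_inc4]

private theorem eqv5_symm_X : eqv5.symm Polynomial.X = X (Fin.last 4) := by
  rw [AlgEquiv.symm_apply_eq, eqv5_X_last]

/-- the coefficient of a power of the last variable -/
private theorem coeff_single_eqv5_symm (m : Polynomial (MvPolynomial (Fin 4) ℂ)) (d : ℕ) :
    coeff (Finsupp.single (Fin.last 4) d) (eqv5.symm m) = constantCoeff (m.coeff d) := by
  classical
  have h1 : ∀ (b : MvPolynomial (Fin 4) ℂ) (k : ℕ), coeff (Finsupp.single (Fin.last 4) d)
      (eqv5.symm (Polynomial.monomial k b)) = if k = d then constantCoeff b else 0 := by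
    intro b k
    rw [← Polynomial.C_mul_X_pow_eq_monomial, map_mul, map_pow, eqv5_symm_C, eqv5_symm_X]
    have h2 : inc4 b * X (Fin.last 4) ^ k =
        inc4 b * monomial (Finsupp.single (Fin.last 4) k) 1 := by
      rw [X_pow_eq_monomial]
    rw [h2, coeff_mul_monomial', mul_one]
    by_cases hk : k = d
    · subst hk
      rw [if_pos le_rfl, if_pos rfl, tsub_self, inc4]
      have h3 := coeff_rename_mapDomain (R := ℂ) (Fin.castSucc (n := 4))
        (Fin.castSucc_injective 4) b 0
      rw [Finsupp.mapDomain_zero] at h3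
      rw [h3]
      rfl
    · rw [if_neg hk]
      split_ifs with hle
      · have hle' : k ≤ d := by
          have := hle (Fin.last 4)
          simpa using this
        rw [← Finsupp.single_tsub, inc4]
        apply coeff_rename_eq_zero
        intro u hu
        exfalso
        have h4 := congrArg (fun f => f (Fin.last 4)) hu
        simp only [Finsupp.single_eq_same] at h4
        rw [Finsupp.mapDomain_of_notMem_range] at h4
        · omega
        · rintro ⟨i, hi⟩
          exact Fin.castSucc_ne_last i hi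
      · rfl
  conv_lhs => rw [m.as_sum_support]
  rw [map_sum, coeff_sum]
  simp only [h1]
  rw [Finset.sum_ite_eq']
  split_ifs with h
  · rfl
  · rw [Polynomial.mem_support_iff, not_not] at h
    rw [h, map_zero]

private theorem hc_sub5 {L : Fin 5 → Poly N} (hL : ∀ i, (L i).IsHomogeneous 1) (G : Poly 4) (k : ℕ) :
    homogeneousComponent k (sub5 L G) = sub5 L (homogeneousComponent k G) :=
  hc_aeval hL G k

private theorem sub5_snoc_inc4 (y : Fin 4 → Poly N) (l : Poly N) (b : MvPolynomial (Fin 4) ℂ) :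
    sub5 (Fin.snoc y l) (inc4 b) = aeval y b := by
  rw [sub5, inc4, aeval_rename]
  congr 1
  have : (Fin.snoc y l : Fin 5 → Poly N) ∘ Fin.castSucc = y := by
    funext i
    exact Fin.snoc_castSucc (α := fun _ => Poly N) l y i
  rw [this]

private theorem hc_inc4 (s : Poly 3) (k : ℕ) :
    homogeneousComponent k (inc4 s) = inc4 (homogeneousComponent k s) := by
  have h := hc_aeval (N := 4) (r := 4) (y := fun i => X (Fin.castSucc i))
    (fun i => isHomogeneous_X _ _) s k
  have h2 : ∀ b : Poly 3, (aeval (fun i => (X (Fin.castSucc i) : Poly 4)) b) = inc4 b := by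
    intro b
    rw [inc4, rename_eq_aeval]
    rfl
  rw [h2, h2] at h
  exact h

/-- the conductor can be taken homogeneous -/
private theorem cond_hc5 {I : Ideal (Poly N)} (hh : ∀ F ∈ I, ∀ k, homogeneousComponent k F ∈ I)
    {L : Fin 5 → Poly N} (hL : ∀ i, (L i).IsHomogeneous 1) {δ : Poly 4}
    (h : ∀ H : Poly N, ∃ G : Poly 4, sub5 L δ * H - sub5 L G ∈ I) (k : ℕ) (H : Poly N) :
    ∃ G : Poly 4, sub5 L (homogeneousComponent k δ) * H - sub5 L G ∈ I := by
  classical
  have h1 : ∀ j, ∃ G : Poly 4, sub5 L (homogeneousComponent k δ) * homogeneousComponent j H -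
      sub5 L G ∈ I := by
    intro j
    obtain ⟨G, hG⟩ := h (homogeneousComponent j H)
    refine ⟨homogeneousComponent (k + j) G, ?_⟩
    have h2 := hh _ hG (k + j)
    rw [map_sub, hc_mul _ _ (homogeneousComponent_isHomogeneous j H), if_pos (by omega),
      Nat.add_sub_cancel, hc_sub5 hL, hc_sub5 hL] at h2
    exact h2
  choose G hG using h1
  refine ⟨∑ j ∈ Finset.range (H.totalDegree + 1), G j, ?_⟩
  have h3 : sub5 L (homogeneousComponent k δ) * H -
      sub5 L (∑ j ∈ Finset.range (H.totalDegree + 1), G j) =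
      ∑ j ∈ Finset.range (H.totalDegree + 1), (sub5 L (homogeneousComponent k δ) *
        homogeneousComponent j H - sub5 L (G j)) := by
    rw [Finset.sum_sub_distrib, ← Finset.mul_sum, sum_homogeneousComponent, map_sum]
  rw [h3]
  exact I.sum_mem fun j _ => hG j

/-- **existence of the projection**.

Proof. Word for word the proof of `W.exists_proj4` (file `W/ProjForm.lean`, with `T/Proj.lean` for
the equivalence `eqv : Poly 3 ≃ₐ Polynomial D3`), with `r = 4` in place of `r = 3`: Noether
normalisation `exists_noether` by four linear forms `y`, a primitive element `l` which is a linear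
form (`W.exists_primitive_comb`), `L = Fin.snoc y l`, `P` the minimal polynomial of the class of `l`
over `MvPolynomial (Fin 4) ℂ`, and the common denominator `W.exists_common_all`. -/
theorem exists_proj5 {N : ℕ} {I : Ideal (Poly N)} (hI : IsThreefold I) :
    ∃ (e q : ℕ) (P : Poly 4) (L : Fin 5 → Poly N) (s : Poly 3), Proj5 I e q P L s := by
  classical
  have hprime := hI.prime
  have hne : I ≠ ⊤ := hprime.ne_top
  have hdom : IsDomain (Poly N ⧸ I) := Ideal.Quotient.isDomain I
  obtain ⟨y, hy, hinj, hfin⟩ := exists_noether hne hI.homogeneous (r := 4) (by rw [hI.dim]; rfl)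
  let _ : Algebra (MvPolynomial (Fin 4) ℂ) (Poly N ⧸ I) := (proj I y).toRingHom.toAlgebra
  have hst : IsScalarTower ℂ (MvPolynomial (Fin 4) ℂ) (Poly N ⧸ I) :=
    IsScalarTower.of_algebraMap_eq fun c => ((proj I y).commutes c).symm
  have hmf : Module.Finite (MvPolynomial (Fin 4) ℂ) (Poly N ⧸ I) := hfin
  have hfs : FaithfulSMul (MvPolynomial (Fin 4) ℂ) (Poly N ⧸ I) :=
    (faithfulSMul_iff_algebraMap_injective _ _).2 hinj
  obtain ⟨c, hc⟩ := Pool.Agent.Lib.MP_ed661f_ag.W.exists_primitive_comb (MvPolynomial (Fin 4) ℂ)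
    (fun i : Fin (N + 1) => Ideal.Quotient.mk I (X i : Poly N)) (Pool.Agent.Lib.MP_ed661f_ag.W.adjoin_mk I)
  set l : Poly N := ∑ i, C (c i) * X i with hl
  set θ : Poly N ⧸ I := Ideal.Quotient.mk I l with hθ
  have hlh : l.IsHomogeneous 1 := by
    refine IsHomogeneous.sum _ _ _ fun i _ => ?_
    have := (isHomogeneous_C (Fin (N + 1)) (c i)).mul (isHomogeneous_X ℂ i)
    rwa [zero_add] at this
  have hcθ : ∑ i, c i • Ideal.Quotient.mk I (X i : Poly N) = θ := by
    rw [hθ, hl, map_sum]
    refine Finset.sum_congr rfl fun i _ => ?_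
    rw [C_mul']
    exact ((Ideal.Quotient.mkₐ ℂ I).toLinearMap.map_smul (c i) (X i)).symm
  rw [hcθ] at hc
  set L : Fin 5 → Poly N := Fin.snoc y l with hL
  have hLh : ∀ i, (L i).IsHomogeneous 1 := by
    intro i
    refine Fin.lastCases ?_ (fun i => ?_) i
    · rw [hL, Fin.snoc_last]; exact hlh
    · rw [hL, Fin.snoc_castSucc]; exact hy i
  have hint : IsIntegral (MvPolynomial (Fin 4) ℂ) θ := Algebra.IsIntegral.isIntegral θ
  set m := minpoly (MvPolynomial (Fin 4) ℂ) θ with hm
  have hmonic : m.Monic := minpoly.monic hint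
  -- the substitution is the evaluation at `θ`
  have hkey : ∀ G : Poly 4, Ideal.Quotient.mk I (sub5 L G) = Polynomial.aeval θ (eqv5 G) := by
    intro G
    induction G using MvPolynomial.induction_on with
    | C a =>
      rw [eqv5_C, Polynomial.aeval_C]
      have h1 : sub5 L (C a) = algebraMap ℂ (Poly N) a := (sub5 L).commutes a
      rw [h1]
      exact ((proj I y).commutes a).symm
    | add p q hp hq => rw [map_add, map_add, map_add, map_add, hp, hq]
    | mul_X p i hp =>
      rw [map_mul, map_mul, map_mul, map_mul, hp]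
      congr 1
      rw [sub5, aeval_X]
      refine Fin.lastCases ?_ (fun i => ?_) i
      · rw [eqv5_X_last, Polynomial.aeval_X, hL, Fin.snoc_last]
      · rw [eqv5_X_castSucc, Polynomial.aeval_C, hL, Fin.snoc_castSucc]
        change _ = proj I y (X i)
        rw [← mk_aeval, aeval_X]
  set F : Poly 4 := eqv5.symm m with hF
  have heF : eqv5 F = m := by rw [hF, AlgEquiv.apply_symm_apply]
  have hker : ∀ G, sub5 L G ∈ I ↔ F ∣ G := by
    intro G
    rw [← Ideal.Quotient.eq_zero_iff_mem, hkey, minpoly.isIntegrallyClosed_dvd_iff hint]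
    constructor
    · rintro ⟨Q, hQ⟩
      refine ⟨eqv5.symm Q, ?_⟩
      rw [hF, ← map_mul, ← hm] at *
      rw [← hQ, AlgEquiv.symm_apply_apply]
    · rintro ⟨Q, hQ⟩
      refine ⟨eqv5 Q, ?_⟩
      rw [hQ, map_mul, heF]
  have hF0 : F ≠ 0 := by
    intro h
    apply hmonic.ne_zero
    rw [← heF, h, map_zero]
  have hcF : coeff (Finsupp.single (Fin.last 4) m.natDegree) F = 1 := by
    rw [hF, coeff_single_eqv5_symm, Polynomial.Monic.coeff_natDegree hmonic, map_one]
  -- homogeneity
  have hFh : F.IsHomogeneous m.natDegree := by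
    obtain ⟨k, hk⟩ := Pool.Agent.Lib.MP_ed661f_ag.W.exists_hc_ne_zero hF0
    have h1 : F ∣ homogeneousComponent k F := by
      rw [← hker, ← hc_sub5 hLh]
      exact hI.homogeneous _ ((hker F).2 dvd_rfl) k
    obtain ⟨Q, hQ⟩ := h1
    obtain ⟨a, b, ha, hb, hab⟩ := S.homogeneous_of_mul (hQ ▸ homogeneousComponent_isHomogeneous k F)
      (hQ ▸ hk)
    have h2 : coeff (Finsupp.single (Fin.last 4) m.natDegree) F ≠ 0 := by
      rw [hcF]; exact one_ne_zero
    have h3 := ha h2
    have h4 : m.natDegree = a := by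
      rw [← h3]
      simp [Finsupp.weight_apply]
    rw [h4]
    exact ha
  -- the conductor
  set WW : Submodule (MvPolynomial (Fin 4) ℂ) (Poly N ⧸ I) :=
    LinearMap.range (Polynomial.aeval θ).toLinearMap with hWW
  obtain ⟨s0, hs0, hs2⟩ := Pool.Agent.Lib.MP_ed661f_ag.W.exists_common_all WW (by
    intro x
    obtain ⟨a, ha, p, hp⟩ := hc x
    exact ⟨a, ha, p, hp⟩)
  obtain ⟨k, hk⟩ := Pool.Agent.Lib.MP_ed661f_ag.W.exists_hc_ne_zero hs0
  have hcond : ∀ H : Poly N, ∃ G : Poly 4, sub5 L (inc4 s0) * H - sub5 L G ∈ I := by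
    intro H
    obtain ⟨p, hp⟩ := hs2 (Ideal.Quotient.mk I H)
    refine ⟨eqv5.symm p, ?_⟩
    rw [← Ideal.Quotient.eq_zero_iff_mem, map_sub, map_mul, hkey, hkey, eqv5_inc4,
      AlgEquiv.apply_symm_apply, Polynomial.aeval_C, ← Algebra.smul_def, ← hp]
    exact sub_self _
  refine ⟨m.natDegree, k, F, L, homogeneousComponent k s0, ⟨?_, hFh, hcF, hLh, hker,
    homogeneousComponent_isHomogeneous k s0, hk, ?_, ?_⟩⟩
  · exact minpoly.natDegree_pos hint
  · rw [← hc_inc4]
    exact cond_hc5 hI.homogeneous hLh hcond k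
  · have h1 : (((Ideal.Quotient.mkₐ ℂ I).comp (sub5 L)).toRingHom.comp inc4.toRingHom) =
        (proj I y).toRingHom := by
      ext b
      · change Ideal.Quotient.mk I (sub5 L (inc4 (C b))) = proj I y (C b)
        rw [sub5_snoc_inc4, mk_aeval]
      · change Ideal.Quotient.mk I (sub5 L (inc4 (X b))) = proj I y (X b)
        rw [sub5_snoc_inc4, mk_aeval]
    apply RingHom.Finite.of_comp_finite (f := inc4.toRingHom)
    rw [h1]
    exact hfin

end Pool.Agent.Lib.MP_ed661f_ag.V
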