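import Pool.Agent.Lib.MP_ed661f_ag.V.Rel
import Pool.Agent.Lib.MP_ed661f_ag.V.Germ1A
import Pool.Agent.Lib.MP_ed661f_ag.S.Pull

/-!
The points and germs of the section of the threefold, over the valuation ring of a place.
-/

set_option autoImplicit false

open MvPolynomial

namespace Pool.Agent.Lib.MP_ed661f_ag.V

open Pool.Agent.Lib.MP_ed661f_ag.H Pool.Agent.Lib.MP_ed661f_ag.S

/-- the germ with the coordinates `ψ` -/
noncomputable def phi1 {N : ℕ} {p : Place} (ψ : Fin (N + 1) → MvPowerSeries (Fin 2) p.B) :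
    Poly N →ₐ[ℂ] MvPowerSeries (Fin 2) ℂ :=
  aeval fun j => MvPowerSeries.map p.B.subtype (ψ j)

/-- its reduction -/
noncomputable def red1 {N : ℕ} {p : Place} (ψ : Fin (N + 1) → MvPowerSeries (Fin 2) p.B) :
    Poly N →ₐ[ℂ] MvPowerSeries (Fin 2) ℂ :=
  aeval fun j => MvPowerSeries.map p.ρ (ψ j)

/-- the germ `ψ` of the section of the threefold `I` by `GB`, at a point above the base point
`(1 : a : b)`, and the germ `ε` of `P = G1 = 0` at the point `v1`, the image of its reduction -/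
structure Pt1 {N : ℕ} (p : Place) (I : Ideal (Poly N)) (P : Poly 4) (L : Fin 5 → Poly N)
    (G1 : Poly 3) (GB : MvPolynomial (Fin (N + 1)) p.B) (v1 : Fin 5 → ℂ) (a b : p.B)
    (ψ : Fin (N + 1) → MvPowerSeries (Fin 2) p.B) (ε : Fin 5 → MvPowerSeries (Fin 2) ℂ) :
    Prop where
  hI : ∀ f ∈ I, phi1 ψ f = 0
  hG : aeval ψ GB = 0
  hL0 : phi1 ψ (L 0) = 1
  hL1 : phi1 ψ (L 1) = MvPowerSeries.C (a : ℂ) + MvPowerSeries.X 0
  hL3 : phi1 ψ (L 3) = MvPowerSeries.C (b : ℂ) + MvPowerSeries.X 1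
  redI : ∀ f ∈ I, red1 ψ f = 0
  red : ∀ Q : Poly 4, red1 ψ (sub5 L Q) = aeval ε Q
  εP : aeval ε P = 0
  εG : aeval ε (inc4 G1) = 0
  ε0 : ε 0 = 1
  ε1 : ε 1 = MvPowerSeries.C (v1 1) + MvPowerSeries.X 0
  ε3 : ε 3 = MvPowerSeries.C (v1 3) + MvPowerSeries.X 1
  εc : ∀ j, MvPowerSeries.constantCoeff (ε j) = v1 j

private theorem pt1_nat {A A' R R' σ : Type} [CommRing A] [CommRing A'] [CommRing R]
    [CommRing R'] [Algebra A R] [Algebra A' R'] (g : A →+* A') (F : R →+* R')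
    (h : ∀ a, F (algebraMap A R a) = algebraMap A' R' (g a)) (v : σ → R)
    (Q : MvPolynomial σ A) : F (aeval v Q) = aeval (fun j => F (v j)) (map g Q) := by
  have h1 : F.comp (algebraMap A R) = (algebraMap A' R').comp g := RingHom.ext h
  rw [aeval_def, aeval_def, eval₂_map, ← h1]
  exact hom_eval₂ Q (algebraMap A R) F v

private theorem pt1_sub (p : Place) {σ : Type} (v : σ → MvPowerSeries (Fin 2) p.B)
    (Q : MvPolynomial σ p.B) : MvPowerSeries.map p.B.subtype (aeval v Q) =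
      aeval (fun j => MvPowerSeries.map p.B.subtype (v j)) (map p.B.subtype Q) := by
  refine pt1_nat p.B.subtype (MvPowerSeries.map p.B.subtype) (fun a => ?_) v Q
  rw [← MvPowerSeries.c_eq_algebraMap, ← MvPowerSeries.c_eq_algebraMap, MvPowerSeries.map_C]

private theorem pt1_rho (p : Place) {σ : Type} (v : σ → MvPowerSeries (Fin 2) p.B)
    (Q : MvPolynomial σ p.B) : MvPowerSeries.map p.ρ (aeval v Q) =
      aeval (fun j => MvPowerSeries.map p.ρ (v j)) (map p.ρ Q) := by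
  refine pt1_nat p.ρ (MvPowerSeries.map p.ρ) (fun a => ?_) v Q
  rw [← MvPowerSeries.c_eq_algebraMap, ← MvPowerSeries.c_eq_algebraMap, MvPowerSeries.map_C]

private theorem pt1_ev (p : Place) {σ : Type} (v : σ → p.B) (Q : MvPolynomial σ p.B) :
    p.ρ (eval v Q) = eval (fun j => p.ρ (v j)) (map p.ρ Q) := by
  rw [eval_map]
  exact eval₂_comp_left p.ρ (RingHom.id p.B) v Q

private theorem pt1_cc {A : Type} [CommRing A] {n : ℕ} (w : Fin n → MvPowerSeries (Fin 2) A)
    (Q : MvPolynomial (Fin n) A) : MvPowerSeries.constantCoeff (aeval w Q) =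
      eval (fun j => MvPowerSeries.constantCoeff (w j)) Q := by
  rw [map_aeval]
  have h1 : (MvPowerSeries.constantCoeff (σ := Fin 2) (R := A)).comp
      (algebraMap A (MvPowerSeries (Fin 2) A)) = RingHom.id A := by
    ext a
    rw [RingHom.comp_apply, ← MvPowerSeries.c_eq_algebraMap, MvPowerSeries.constantCoeff_C,
      RingHom.id_apply]
  rw [h1]
  rfl

private theorem pt1_pderiv (f : Poly 3) : pderiv 4 (inc4 f) = 0 := by
  classical
  refine pderiv_eq_zero_of_notMem_vars fun h => ?_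
  have h1 := vars_rename Fin.castSucc f h
  rw [Finset.mem_image] at h1
  obtain ⟨i, _, hi⟩ := h1
  exact (Fin.castSucc_lt_last i).ne hi

private theorem pt1_gen {N e q : ℕ} {I : Ideal (Poly N)} (hI : IsThreefold I) {P : Poly 4}
    {L : Fin 5 → Poly N} {s : Poly 3} (h : Proj5 I e q P L s) {Q : Fin (N + 1) → Poly 4}
    (r : RelQ I q L s Q) {T : Type} [CommRing T] [Algebra ℂ T] (η : Fin 5 → T)
    (hP : aeval η P = 0) (U : T) (hU : U * aeval η (inc4 s) = 1) :
    (∀ f ∈ I, aeval (fun j => U * aeval η (Q j)) f = 0) ∧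
      (∀ j, aeval (fun j => U * aeval η (Q j)) (L j) = η j) ∧
      ∀ f : Poly 4, aeval (fun j => U * aeval η (Q j)) (sub5 L f) = aeval η f := by
  have h0 : ∀ f : Poly N, aeval (fun j => aeval η (Q j)) f = aeval η (aeval Q f) := by
    intro f
    have h1 : (aeval fun j => aeval η (Q j)) = (aeval η).comp (aeval Q) := by
      refine algHom_ext fun j => ?_
      rw [aeval_X, AlgHom.comp_apply, aeval_X]
    rw [h1]
    rfl
  have hdvd : ∀ G : Poly 4, P ∣ G → aeval η G = 0 := by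
    rintro _ ⟨G, rfl⟩
    rw [map_mul, hP, zero_mul]
  have hL : ∀ j, aeval (fun j => U * aeval η (Q j)) (L j) = η j := by
    intro j
    rw [S.Hn.aeval_mul_hom (h.hL j), pow_one, h0]
    have h2 := hdvd _ (r.dvd_L h j)
    rw [map_sub, map_mul, aeval_X, sub_eq_zero] at h2
    rw [h2, ← mul_assoc, hU, one_mul]
  refine ⟨fun f hf => ?_, hL, fun f => ?_⟩
  · rw [← sum_homogeneousComponent f, map_sum]
    refine Finset.sum_eq_zero fun k _ => ?_
    have h2 : (homogeneousComponent k f).IsHomogeneous k := homogeneousComponent_isHomogeneous k f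
    rw [S.Hn.aeval_mul_hom h2, h0, hdvd _ (r.dvd h h2 (hI.homogeneous f hf k)), mul_zero]
  · have h1 : (aeval fun j => U * aeval η (Q j)).comp (sub5 L) = aeval η := by
      refine algHom_ext fun j => ?_
      rw [AlgHom.comp_apply, aeval_X]
      have h2 : sub5 L (X j) = L j := aeval_X _ _
      rw [h2, hL]
    exact DFunLike.congr_fun h1 f

/-- **the germs exist**.

Proof. Lift `P`, `inc4 s`, the `Q j` to `PB`, `sB`, `QB j` over `p.B` (`exists_liftB`). Let
`HB = aeval QB GB`; its reduction is `aeval Q (sub5 L (inc4 G1)) = inc4 s ^ m * inc4 G1 + P * R`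
(`RelQ.dvd_G`). Let `c = ![1, a, v1 2, b, v1 4]` (lifts of elements of `p.K`). The hypotheses of
`germ1A`: at the reduction `v1` of `c`, `P` and `inc4 G1` vanish; `∂/∂x₄` of the reduction of `HB` is
`(∂P/∂x₄) R`, `∂/∂x₂` is `s ^ m (∂G1/∂x₂) + (∂P/∂x₂) R`, so the determinant is
`- (∂P/∂x₄) s ^ m (∂G1/∂x₂)`, not zero. Let `y` be given by `germ1A`, `u` the inverse of
`aeval y sB` (its constant coefficient reduces to `eval v1 (inc4 s) ≠ 0`, so it is a unit), and
`ψ j = u * aeval y (QB j)`, `ε j = map p.ρ (y j)`. For a form `f` of degree `d` (over `p.B` or over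
`ℂ`), `aeval ψ f = u ^ d * aeval y (aeval QB f)` (`S.Hn.aeval_mul_hom`, file `S/Pull.lean`). So:
`hI` and `redI` for forms `f ∈ I` by `RelQ.dvd`, then for all `f ∈ I` (homogeneous components);
`hG` by `germ1A`; `hL0`, `hL1`, `hL3` and `red` by `RelQ.dvd_L`: `phi1 ψ (L j)` is the image of
`y j`, `red1 ψ (L j) = ε j`; `εP` is clear; `εG`: the reduction of `aeval y HB = 0` is
`s(ε) ^ m G1(ε) + P(ε) R(ε) = 0`, `P(ε) = 0` and `s(ε)` is a unit. -/
theorem exists_pt1 {N e q m : ℕ} {I : Ideal (Poly N)} (hI : IsThreefold I) {P : Poly 4}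
    {L : Fin 5 → Poly N} {s : Poly 3} (h : Proj5 I e q P L s) {Q : Fin (N + 1) → Poly 4}
    (r : RelQ I q L s Q) {p : Place} (hPK : ∀ α, coeff α P ∈ p.K) (hsK : ∀ α, coeff α s ∈ p.K)
    (hQK : ∀ j α, coeff α (Q j) ∈ p.K) {G1 : Poly 3} (hG1 : G1.IsHomogeneous m)
    {GB : MvPolynomial (Fin (N + 1)) p.B} (hGB : GB.IsHomogeneous m)
    (hρ : map p.ρ GB = sub5 L (inc4 G1)) {v1 : Fin 5 → ℂ} (hvK : ∀ j, v1 j ∈ p.K)
    (h0 : v1 0 = 1) (hP : eval v1 P = 0) (hG : eval v1 (inc4 G1) = 0)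
    (hP4 : eval v1 (pderiv 4 P) ≠ 0) (hG2 : eval v1 (pderiv 2 (inc4 G1)) ≠ 0)
    (hs : eval v1 (inc4 s) ≠ 0) {a b : p.B} (ha : p.ρ a = v1 1) (hb : p.ρ b = v1 3) :
    ∃ (ψ : Fin (N + 1) → MvPowerSeries (Fin 2) p.B) (ε : Fin 5 → MvPowerSeries (Fin 2) ℂ),
      Pt1 p I P L G1 GB v1 a b ψ ε := by
  classical
  obtain ⟨PB, hPB1, hPB2, _⟩ := exists_liftB p hPK
  obtain ⟨sB, hsB1, hsB2, _⟩ := exists_liftB p hsK
  choose QB hQB1 hQB2 _ using fun j => exists_liftB p (hQK j)
  let sB' : MvPolynomial (Fin 5) p.B := rename Fin.castSucc sB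
  have hsB1' : map p.B.subtype sB' = inc4 s := by
    rw [← hsB1]
    exact map_rename _ _ _
  have hsB2' : map p.ρ sB' = inc4 s := by
    rw [← hsB2]
    exact map_rename _ _ _
  have hnat : map p.ρ (aeval QB GB) = aeval Q (sub5 L (inc4 G1)) := by
    rw [← hρ]
    have h1 := pt1_nat p.ρ (map p.ρ : MvPolynomial (Fin 5) p.B →+* Poly 4)
      (fun a => by rw [algebraMap_eq, algebraMap_eq, map_C]) QB GB
    rw [h1]
    simp only [hQB2]
  obtain ⟨R, hR⟩ := r.dvd_G h hG1
  have hH : aeval Q (sub5 L (inc4 G1)) = inc4 s ^ m * inc4 G1 + P * R := by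
    rw [← hR]
    ring
  let c : Fin 5 → p.B := ![1, a, ⟨v1 2, p.le _ (hvK 2)⟩, b, ⟨v1 4, p.le _ (hvK 4)⟩]
  have hc : ∀ j, p.ρ (c j) = v1 j := by
    intro j
    fin_cases j
    · change p.ρ 1 = v1 0
      rw [map_one, h0]
    · exact ha
    · exact p.id _ (hvK 2)
    · exact hb
    · exact p.id _ (hvK 4)
  have hcv : ∀ T : MvPolynomial (Fin 5) p.B, p.ρ (eval c T) = eval v1 (map p.ρ T) := by
    intro T
    rw [pt1_ev]
    have h1 : (fun j => p.ρ (c j)) = v1 := funext hc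
    rw [h1]
  have hev1 : eval v1 (map p.ρ (aeval QB GB)) = 0 := by
    rw [hnat, hH, map_add, map_mul, map_mul, hG, hP, mul_zero, zero_mul, add_zero]
  have hd4 : eval v1 (pderiv 4 (map p.ρ (aeval QB GB))) = eval v1 (pderiv 4 P) * eval v1 R := by
    rw [hnat, hH, map_add, pderiv_mul, pderiv_mul, pderiv_pow, pt1_pderiv, pt1_pderiv]
    simp only [map_add, map_mul, hP, mul_zero, zero_mul, add_zero, zero_add]
  have hd2 : eval v1 (pderiv 2 (map p.ρ (aeval QB GB))) =
      eval v1 (inc4 s) ^ m * eval v1 (pderiv 2 (inc4 G1)) + eval v1 (pderiv 2 P) * eval v1 R := by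
    rw [hnat, hH, map_add, pderiv_mul, pderiv_mul]
    simp only [map_add, map_mul, map_pow, hP, hG, mul_zero, zero_mul, add_zero, zero_add]
  obtain ⟨y, hy0, hy1, hy3, hyP, hyH, hyc⟩ := germ1A p (PB := PB) (HB := aeval QB GB) (c := c) rfl
    (by rw [hcv, hPB2, hP]) (by rw [hcv, hev1]) (by
      rw [map_sub, map_mul, map_mul, hcv, hcv, hcv, hcv, ← pderiv_map, ← pderiv_map, ← pderiv_map,
        ← pderiv_map, hPB2, hd4, hd2]
      have h1 : eval v1 (pderiv 2 P) * (eval v1 (pderiv 4 P) * eval v1 R) -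
          eval v1 (pderiv 4 P) * (eval v1 (inc4 s) ^ m * eval v1 (pderiv 2 (inc4 G1)) +
            eval v1 (pderiv 2 P) * eval v1 R) =
          -(eval v1 (pderiv 4 P) * (eval v1 (inc4 s) ^ m * eval v1 (pderiv 2 (inc4 G1)))) := by
        ring
      rw [h1]
      exact neg_ne_zero.2 (mul_ne_zero hP4 (mul_ne_zero (pow_ne_zero _ hs) hG2)))
  have hu : IsUnit (aeval y sB') := by
    rw [MvPowerSeries.isUnit_iff_constantCoeff]
    apply isUnit_of_rho p
    rw [pt1_cc, pt1_ev, hsB2']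
    have h1 : (fun j => p.ρ (MvPowerSeries.constantCoeff (y j))) = v1 :=
      funext fun j => (hyc j).trans (hc j)
    rw [h1]
    exact hs
  obtain ⟨u, hu1⟩ := hu.exists_left_inv
  let ψ : Fin (N + 1) → MvPowerSeries (Fin 2) p.B := fun j => u * aeval y (QB j)
  let Y : Fin 5 → MvPowerSeries (Fin 2) ℂ := fun j => MvPowerSeries.map p.B.subtype (y j)
  let ε : Fin 5 → MvPowerSeries (Fin 2) ℂ := fun j => MvPowerSeries.map p.ρ (y j)
  have hψ1 : (fun j => MvPowerSeries.map p.B.subtype (ψ j)) =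
      fun j => MvPowerSeries.map p.B.subtype u * aeval Y (Q j) := by
    funext j
    change MvPowerSeries.map p.B.subtype (u * aeval y (QB j)) = _
    rw [map_mul, pt1_sub, hQB1]
  have hψ2 : (fun j => MvPowerSeries.map p.ρ (ψ j)) =
      fun j => MvPowerSeries.map p.ρ u * aeval ε (Q j) := by
    funext j
    change MvPowerSeries.map p.ρ (u * aeval y (QB j)) = _
    rw [map_mul, pt1_rho, hQB2]
  have hYP : aeval Y P = 0 := by
    have h1 := pt1_sub p y PB
    rw [hyP, map_zero, hPB1] at h1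
    exact h1.symm
  have hεP : aeval ε P = 0 := by
    have h1 := pt1_rho p y PB
    rw [hyP, map_zero, hPB2] at h1
    exact h1.symm
  have hYs : MvPowerSeries.map p.B.subtype u * aeval Y (inc4 s) = 1 := by
    have h1 := congrArg (MvPowerSeries.map p.B.subtype) hu1
    rwa [map_mul, map_one, pt1_sub, hsB1'] at h1
  have hεs : MvPowerSeries.map p.ρ u * aeval ε (inc4 s) = 1 := by
    have h1 := congrArg (MvPowerSeries.map p.ρ) hu1
    rwa [map_mul, map_one, pt1_rho, hsB2'] at h1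
  obtain ⟨a1, a2, _⟩ := pt1_gen hI h r Y hYP _ hYs
  obtain ⟨b1, _, b3⟩ := pt1_gen hI h r ε hεP _ hεs
  have hGψ : aeval ψ GB = 0 := by
    have h1 : aeval (fun j => u * aeval y (QB j)) GB = u ^ m * aeval (fun j => aeval y (QB j)) GB :=
      S.Hn.aeval_mul_hom hGB u fun j => aeval y (QB j)
    have h2 : (aeval fun j => aeval y (QB j)) = (aeval y).comp (aeval QB) := by
      refine algHom_ext fun j => ?_
      rw [aeval_X, AlgHom.comp_apply, aeval_X]
    have h3 : aeval (fun j => aeval y (QB j)) GB = aeval y (aeval QB GB) := by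
      rw [h2]
      rfl
    rw [h3, hyH, mul_zero] at h1
    exact h1
  have hred : ∀ T : Poly 4, red1 ψ (sub5 L T) = aeval ε T := by
    intro T
    have h1 := b3 T
    rw [← hψ2] at h1
    exact h1
  have hphi : ∀ j, phi1 ψ (L j) = Y j := by
    intro j
    have h1 := a2 j
    rw [← hψ1] at h1
    exact h1
  refine ⟨ψ, ε, ?_, hGψ, ?_, ?_, ?_, ?_, hred, hεP, ?_, ?_, ?_, ?_, fun j => ?_⟩
  · intro f hf
    have h1 := a1 f hf
    rw [← hψ1] at h1
    exact h1
  · rw [hphi]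
    change MvPowerSeries.map p.B.subtype (y 0) = 1
    rw [hy0, map_one]
  · rw [hphi]
    change MvPowerSeries.map p.B.subtype (y 1) = _
    rw [hy1, map_add, MvPowerSeries.map_C, MvPowerSeries.map_X]
    rfl
  · rw [hphi]
    change MvPowerSeries.map p.B.subtype (y 3) = _
    rw [hy3, map_add, MvPowerSeries.map_C, MvPowerSeries.map_X]
    rfl
  · intro f hf
    have h1 := b1 f hf
    rw [← hψ2] at h1
    exact h1
  · rw [← hred, ← hρ]
    have h1 := pt1_rho p ψ GB
    rw [hGψ, map_zero] at h1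
    exact h1.symm
  · change MvPowerSeries.map p.ρ (y 0) = 1
    rw [hy0, map_one]
  · change MvPowerSeries.map p.ρ (y 1) = _
    rw [hy1, map_add, MvPowerSeries.map_C, MvPowerSeries.map_X, hc]
  · change MvPowerSeries.map p.ρ (y 3) = _
    rw [hy3, map_add, MvPowerSeries.map_C, MvPowerSeries.map_X, hc]
  · change MvPowerSeries.constantCoeff (MvPowerSeries.map p.ρ (y j)) = v1 j
    rw [MvPowerSeries.constantCoeff_map, hyc, hc]

end Pool.Agent.Lib.MP_ed661f_ag.V
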