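import Pool.Agent.Lib.MP_ed661f_ag.V.Hens
import Pool.Agent.Lib.MP_ed661f_ag.V.HensB
import Pool.Agent.Lib.MP_ed661f_ag.V.LiftB
import Pool.Agent.Lib.MP_ed661f_ag.V.Cyc
import Pool.Agent.Lib.MP_ed661f_ag.V.LemR

/-!
The points and germs of the scaled surface in the space of dimension four.
-/

set_option autoImplicit false

open MvPolynomial

namespace Pool.Agent.Lib.MP_ed661f_ag.V

open Pool.Agent.Lib.MP_ed661f_ag.H Pool.Agent.Lib.MP_ed661f_ag.S

/-- the coordinates of the scaled germ over the valuation ring -/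
noncomputable def crd (p : Place) (τ₁ τ₂ : p.B) (e : ℕ) (s t : p.B)
    (ξ y : MvPowerSeries (Fin 2) p.B) : Fin 5 → MvPowerSeries (Fin 2) p.B :=
  ![1, MvPowerSeries.C τ₁ * (MvPowerSeries.C s + MvPowerSeries.X 0), MvPowerSeries.C τ₂ * ξ,
    MvPowerSeries.C τ₂ * (MvPowerSeries.C t + MvPowerSeries.X 1) ^ e, y]

/-- the scaled germ -/
noncomputable def psi (p : Place) (τ₁ τ₂ : p.B) (e : ℕ) (s t : p.B)
    (ξ y : MvPowerSeries (Fin 2) p.B) : Poly 4 →ₐ[ℂ] MvPowerSeries (Fin 2) ℂ :=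
  aeval fun j => MvPowerSeries.map p.B.subtype (crd p τ₁ τ₂ e s t ξ y j)

/-- the germ of the reduction in three-space -/
noncomputable def chi (p : Place) (v : Fin 4 → ℂ) (ξ : MvPowerSeries (Fin 2) p.B) :
    Poly 3 →ₐ[ℂ] MvPowerSeries (Fin 2) ℂ :=
  aeval ![1, MvPowerSeries.C (v 1) + MvPowerSeries.X 0, MvPowerSeries.C (v 2) + MvPowerSeries.X 1,
    MvPowerSeries.map p.ρ ξ]

/-- the removal of the scaling -/
noncomputable def unsc (τ₁ τ₂ : ℂ) : Poly 3 →ₐ[ℂ] Poly 3 :=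
  aeval ![X 0, C τ₁⁻¹ * X 1, C τ₂⁻¹ * X 2, C τ₂⁻¹ * X 3]

/-- the germ through the point above the point `v` of `F = 0` -/
structure Pt2 (p : Place) (τ₁ τ₂ : p.B) (e : ℕ) (P : Poly 4) (GB : MvPolynomial (Fin 4) p.B)
    (F : Poly 3) (v : Fin 4 → ℂ) (s t : p.B) (ξ y : MvPowerSeries (Fin 2) p.B) : Prop where
  hs : (s : ℂ) = v 1
  ht : (t : ℂ) = v 2
  hG : aeval ![1, MvPowerSeries.C s + MvPowerSeries.X 0, ξ,
    (MvPowerSeries.C t + MvPowerSeries.X 1) ^ e] GB = 0
  hy : p.ρ (MvPowerSeries.constantCoeff y) = 0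
  hξ : p.ρ (MvPowerSeries.constantCoeff ξ) = v 3
  hP : psi p τ₁ τ₂ e s t ξ y P = 0
  hF : chi p v ξ F = 0

/-- the constant coefficients of the coordinates: the point of the surface -/
noncomputable def pnt (p : Place) (τ₁ τ₂ : p.B) (e : ℕ) (s t : p.B)
    (ξ y : MvPowerSeries (Fin 2) p.B) : Fin 5 → ℂ :=
  fun j => ((MvPowerSeries.constantCoeff (crd p τ₁ τ₂ e s t ξ y j) : p.B) : ℂ)

private theorem pt2_chain {A R : Type} [CommRing A] [CommRing R] [Algebra A R] {n : ℕ}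
    (i : Fin 2) (v : Fin n → MvPolynomial (Fin 2) R) (Q : MvPolynomial (Fin n) A) :
    pderiv i (aeval v Q) = ∑ j, aeval v (pderiv j Q) * pderiv i (v j) := by
  classical
  induction Q using MvPolynomial.induction_on with
  | C a =>
    rw [aeval_C, IsScalarTower.algebraMap_apply A R, algebraMap_eq, pderiv_C]
    refine (Finset.sum_eq_zero fun j _ => ?_).symm
    rw [pderiv_C, map_zero, zero_mul]
  | add P Q hP hQ =>
    rw [map_add, map_add, hP, hQ, ← Finset.sum_add_distrib]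
    refine Finset.sum_congr rfl fun j _ => ?_
    rw [map_add, map_add, add_mul]
  | mul_X P k hP =>
    rw [map_mul, aeval_X, Derivation.leibniz, smul_eq_mul, smul_eq_mul, hP, Finset.mul_sum]
    have h1 : ∀ j, aeval v (pderiv j (P * X k)) * pderiv i (v j) =
        (if j = k then aeval v P * pderiv i (v j) else 0) +
          v k * (aeval v (pderiv j P) * pderiv i (v j)) := by
      intro j
      rw [Derivation.leibniz, smul_eq_mul, smul_eq_mul, map_add, map_mul, map_mul, aeval_X,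
        pderiv_X, add_mul]
      by_cases hjk : j = k
      · subst hjk
        rw [Pi.single_eq_same, map_one, if_pos rfl]
        ring
      · rw [Pi.single_eq_of_ne (Ne.symm hjk), map_zero, if_neg hjk]
        ring
    rw [Finset.sum_congr rfl fun j _ => h1 j, Finset.sum_add_distrib,
      Finset.sum_ite_eq' Finset.univ k, if_pos (Finset.mem_univ k)]

private theorem pt2_eval {A R : Type} [CommRing A] [CommRing R] [Algebra A R] {n : ℕ}
    (x : Fin 2 → R) (v : Fin n → MvPolynomial (Fin 2) R) (Q : MvPolynomial (Fin n) A) :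
    eval x (aeval v Q) = aeval (fun j => eval x (v j)) Q := by
  rw [map_aeval]
  have h1 : (eval x).comp (algebraMap A (MvPolynomial (Fin 2) R)) = algebraMap A R := by
    ext a
    rw [RingHom.comp_apply, IsScalarTower.algebraMap_apply A R, algebraMap_eq, eval_C]
  rw [h1]
  rfl

private theorem pt2_cc {A : Type} [CommRing A] {n : ℕ} (w : Fin n → MvPowerSeries (Fin 2) A)
    (Q : MvPolynomial (Fin n) A) : MvPowerSeries.constantCoeff (aeval w Q) =
      eval (fun j => MvPowerSeries.constantCoeff (w j)) Q := by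
  rw [map_aeval]
  have h1 : (MvPowerSeries.constantCoeff (σ := Fin 2) (R := A)).comp
      (algebraMap A (MvPowerSeries (Fin 2) A)) = RingHom.id A := by
    ext a
    rw [RingHom.comp_apply, ← MvPowerSeries.c_eq_algebraMap, MvPowerSeries.constantCoeff_C,
      RingHom.id_apply]
  rw [h1]
  rfl

private theorem pt2_rho (p : Place) {n : ℕ} {w w' : Fin n → p.B}
    (h : ∀ j, p.ρ (w j) = p.ρ (w' j)) (Q : MvPolynomial (Fin n) p.B) :
    p.ρ (eval w Q) = p.ρ (eval w' Q) := by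
  have h1 := eval₂_comp_left p.ρ (RingHom.id p.B) w Q
  have h2 := eval₂_comp_left p.ρ (RingHom.id p.B) w' Q
  have h3 : (p.ρ ∘ w) = p.ρ ∘ w' := funext h
  rw [h3] at h1
  exact h1.trans h2.symm

private theorem pt2_mem (p : Place) [IsLocalRing (MvPowerSeries (Fin 2) p.B)]
    (f : MvPowerSeries (Fin 2) p.B) :
    f ∈ IsLocalRing.maximalIdeal (MvPowerSeries (Fin 2) p.B) ↔
      p.ρ (MvPowerSeries.constantCoeff f) = 0 := by
  rw [IsLocalRing.mem_maximalIdeal, mem_nonunits_iff, MvPowerSeries.isUnit_iff_constantCoeff,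
    p.ker, IsLocalRing.mem_maximalIdeal, mem_nonunits_iff]

/-- **Hensel's lemma for the germ**.

Proof. `hensel_two` over `R = MvPowerSeries (Fin 2) p.B` (henselian, by `henselian_place`,
`henselian_mvPowerSeries`) for `f 0 = GB(1, σ₁, x_0, σ₃)`, `f 1 = PB(1, τ₁ σ₁, τ₂ x_0, τ₂ σ₃, x_1)`
and `x0 = (C z, 0)`. The maximal ideal of `R` is the set of the power series whose constant
coefficient reduces to `0` under `p.ρ`. The constant coefficients of `f 0 (x0)`, `f 1 (x0)` are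
`GB(1, s, z, t)` and `PB(1, τ₁ s, τ₂ z, τ₂ t, 0)`, which reduce to `0`; `f 0` does not depend on
`x_1`, and the constant coefficients of `∂(f 0)/∂x_0` and `∂(f 1)/∂x_1` are units. -/
theorem germ2 (p : Place) {τ₁ τ₂ : p.B} (h1 : p.ρ τ₁ = 0) (h2 : p.ρ τ₂ = 0)
    {PB : MvPolynomial (Fin 5) p.B} {GB : MvPolynomial (Fin 4) p.B} {s t z : p.B}
    (hG : p.ρ (eval ![1, s, z, t] GB) = 0) (hG2 : p.ρ (eval ![1, s, z, t] (pderiv 2 GB)) ≠ 0)
    (hP : p.ρ (eval ![1, 0, 0, 0, 0] PB) = 0)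
    (hP4 : p.ρ (eval ![1, 0, 0, 0, 0] (pderiv 4 PB)) ≠ 0)
    {σ₁ σ₃ : MvPowerSeries (Fin 2) p.B} (hσ₁ : MvPowerSeries.constantCoeff σ₁ = s)
    (hσ₃ : MvPowerSeries.constantCoeff σ₃ = t) :
    ∃ ξ y : MvPowerSeries (Fin 2) p.B, p.ρ (MvPowerSeries.constantCoeff ξ) = p.ρ z ∧
      p.ρ (MvPowerSeries.constantCoeff y) = 0 ∧ aeval ![1, σ₁, ξ, σ₃] GB = 0 ∧
      aeval ![1, MvPowerSeries.C τ₁ * σ₁, MvPowerSeries.C τ₂ * ξ, MvPowerSeries.C τ₂ * σ₃, y] PB =
        0 := by
  classical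
  have i1 : HenselianLocalRing p.B := henselian_place p
  have i2 : HenselianLocalRing (MvPowerSeries (Fin 2) p.B) := henselian_mvPowerSeries p.B
  let v : Fin 4 → MvPolynomial (Fin 2) (MvPowerSeries (Fin 2) p.B) := ![1, C σ₁, X 0, C σ₃]
  let v' : Fin 5 → MvPolynomial (Fin 2) (MvPowerSeries (Fin 2) p.B) :=
    ![1, C (MvPowerSeries.C τ₁ * σ₁), C (MvPowerSeries.C τ₂) * X 0, C (MvPowerSeries.C τ₂ * σ₃),
      X 1]
  have hv : ∀ x : Fin 2 → MvPowerSeries (Fin 2) p.B, (fun j => eval x (v j)) =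
      ![1, σ₁, x 0, σ₃] := by
    intro x
    funext j
    fin_cases j <;> simp [v]
  have hv' : ∀ x : Fin 2 → MvPowerSeries (Fin 2) p.B, (fun j => eval x (v' j)) =
      ![1, MvPowerSeries.C τ₁ * σ₁, MvPowerSeries.C τ₂ * x 0, MvPowerSeries.C τ₂ * σ₃, x 1] := by
    intro x
    funext j
    fin_cases j <;> simp [v']
  let x0 : Fin 2 → MvPowerSeries (Fin 2) p.B := ![MvPowerSeries.C z, 0]
  have hρ : ∀ Q : MvPolynomial (Fin 4) p.B,
      MvPowerSeries.constantCoeff (eval x0 (aeval v Q)) = eval ![1, s, z, t] Q := by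
    intro Q
    rw [pt2_eval, hv, pt2_cc]
    have h3 : (fun j => MvPowerSeries.constantCoeff
        ((![1, σ₁, x0 0, σ₃] : Fin 4 → MvPowerSeries (Fin 2) p.B) j)) = ![1, s, z, t] := by
      funext j
      fin_cases j <;> simp [x0, hσ₁, hσ₃]
    rw [h3]
  have hρ' : ∀ Q : MvPolynomial (Fin 5) p.B,
      p.ρ (MvPowerSeries.constantCoeff (eval x0 (aeval v' Q))) =
        p.ρ (eval ![1, 0, 0, 0, 0] Q) := by
    intro Q
    rw [pt2_eval, hv', pt2_cc]
    refine pt2_rho p (fun j => ?_) Q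
    fin_cases j <;> simp [x0, h1, h2]
  have hd0 : pderiv 0 (aeval v GB) = aeval v (pderiv 2 GB) := by
    rw [pt2_chain, Fin.sum_univ_four]
    have a0 : pderiv 0 (v 0) = 0 := by simp [v]
    have a1 : pderiv 0 (v 1) = 0 := by simp [v]
    have a2 : pderiv 0 (v 2) = 1 := by simp [v]
    have a3 : pderiv 0 (v 3) = 0 := by simp [v]
    rw [a0, a1, a2, a3]
    ring
  have hd1 : pderiv 1 (aeval v GB) = 0 := by
    rw [pt2_chain, Fin.sum_univ_four]
    have a0 : pderiv 1 (v 0) = 0 := by simp [v]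
    have a1 : pderiv 1 (v 1) = 0 := by simp [v]
    have a2 : pderiv 1 (v 2) = 0 := by simp [v, pderiv_X]
    have a3 : pderiv 1 (v 3) = 0 := by simp [v]
    rw [a0, a1, a2, a3]
    ring
  have hd2 : pderiv 1 (aeval v' PB) = aeval v' (pderiv 4 PB) := by
    rw [pt2_chain, Fin.sum_univ_five]
    have a0 : pderiv 1 (v' 0) = 0 := by simp [v']
    have a1 : pderiv 1 (v' 1) = 0 := by
      change pderiv 1 (C (MvPowerSeries.C τ₁ * σ₁)) = 0
      exact pderiv_C
    have a2 : pderiv 1 (v' 2) = 0 := by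
      change pderiv 1 (C (MvPowerSeries.C τ₂) * X 0) = 0
      rw [pderiv_C_mul, pderiv_X]
      simp
    have a3 : pderiv 1 (v' 3) = 0 := by
      change pderiv 1 (C (MvPowerSeries.C τ₂ * σ₃)) = 0
      exact pderiv_C
    have a4 : pderiv 1 (v' 4) = 1 := by
      change pderiv 1 (X 1) = 1
      exact pderiv_X_self 1
    rw [a0, a1, a2, a3, a4]
    ring
  obtain ⟨x, hx, hx'⟩ := hensel_two ![aeval v GB, aeval v' PB] x0 (fun i => by
    refine (pt2_mem p _).2 ?_
    fin_cases i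
    · change p.ρ (MvPowerSeries.constantCoeff (eval x0 (aeval v GB))) = 0
      rw [hρ, hG]
    · change p.ρ (MvPowerSeries.constantCoeff (eval x0 (aeval v' PB))) = 0
      rw [hρ', hP]) (by
    change IsUnit (eval x0 (pderiv 0 (aeval v GB)) * eval x0 (pderiv 1 (aeval v' PB)) -
      eval x0 (pderiv 1 (aeval v GB)) * eval x0 (pderiv 0 (aeval v' PB)))
    rw [hd0, hd1, hd2, map_zero, zero_mul, sub_zero, MvPowerSeries.isUnit_iff_constantCoeff]
    apply isUnit_of_rho p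
    rw [map_mul, map_mul, hρ, hρ']
    exact mul_ne_zero hG2 hP4)
  refine ⟨x 0, x 1, ?_, ?_, ?_, ?_⟩
  · have h3 := (pt2_mem p _).1 (hx' 0)
    rw [map_sub, map_sub, sub_eq_zero] at h3
    rw [h3]
    change p.ρ (MvPowerSeries.constantCoeff (MvPowerSeries.C z)) = p.ρ z
    rw [MvPowerSeries.constantCoeff_C]
  · have h3 := (pt2_mem p _).1 (hx' 1)
    rw [map_sub, map_sub, sub_eq_zero] at h3
    rw [h3]
    change p.ρ (MvPowerSeries.constantCoeff 0) = 0
    rw [map_zero, map_zero]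
  · have h3 := hx 0
    change eval x (aeval v GB) = 0 at h3
    rwa [pt2_eval, hv] at h3
  · have h3 := hx 1
    change eval x (aeval v' PB) = 0 at h3
    rwa [pt2_eval, hv'] at h3

end Pool.Agent.Lib.MP_ed661f_ag.V
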