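import Pool.Agent.Lib.MP_ed661f_ag.V.Pt2

/-!
The reduction of the normal form on the scaled germ.
-/

set_option autoImplicit false

open MvPolynomial

namespace Pool.Agent.Lib.MP_ed661f_ag.V

open Pool.Agent.Lib.MP_ed661f_ag.H Pool.Agent.Lib.MP_ed661f_ag.S

/-- the reduction `H₀` of the scaled normal form, a form of degree `e * k` in three-space -/
noncomputable def redForm (p : Place) (e m k : ℕ) (E : ℕ → Finset ℕ) (bb : ℕ × ℕ × ℕ → p.B) :
    Poly 3 :=
  ∑ u ∈ idx e m k E, C (p.ρ (bb u)) *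
    (X 0 ^ (e * k - u.2.2 - u.1 - e * u.2.1) * X 1 ^ u.2.2 * X 2 ^ (e * u.2.1) * X 3 ^ u.1)

/-- the exponents of the monomials -/
private noncomputable def red2_ex (e k : ℕ) (u : ℕ × ℕ × ℕ) : Fin 4 →₀ ℕ :=
  Finsupp.single 0 (e * k - u.2.2 - u.1 - e * u.2.1) + Finsupp.single 1 u.2.2 +
    Finsupp.single 2 (e * u.2.1) + Finsupp.single 3 u.1

private theorem red2_mono (e k : ℕ) (c : ℂ) (u : ℕ × ℕ × ℕ) :
    (C c * (X 0 ^ (e * k - u.2.2 - u.1 - e * u.2.1) * X 1 ^ u.2.2 * X 2 ^ (e * u.2.1) *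
      X 3 ^ u.1) : Poly 3) = monomial (red2_ex e k u) c := by
  rw [X_pow_eq_monomial, X_pow_eq_monomial, X_pow_eq_monomial, X_pow_eq_monomial,
    monomial_mul, monomial_mul, monomial_mul, C_mul_monomial, mul_one, mul_one, mul_one, mul_one]
  rfl

private theorem red2_1 (e k : ℕ) (u : ℕ × ℕ × ℕ) : red2_ex e k u 1 = u.2.2 := by
  simp [red2_ex]

private theorem red2_2 (e k : ℕ) (u : ℕ × ℕ × ℕ) : red2_ex e k u 2 = e * u.2.1 := by
  simp [red2_ex]

private theorem red2_3 (e k : ℕ) (u : ℕ × ℕ × ℕ) : red2_ex e k u 3 = u.1 := by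
  simp [red2_ex]

private theorem red2_inj {e : ℕ} (he : 1 ≤ e) (k : ℕ) {u u' : ℕ × ℕ × ℕ}
    (h : red2_ex e k u = red2_ex e k u') : u = u' := by
  have h1 := DFunLike.congr_fun h 1
  have h2 := DFunLike.congr_fun h 2
  have h3 := DFunLike.congr_fun h 3
  rw [red2_1, red2_1] at h1
  rw [red2_2, red2_2] at h2
  rw [red2_3, red2_3] at h3
  have h4 : u.2.1 = u'.2.1 := Nat.eq_of_mul_eq_mul_left (by omega) h2
  exact Prod.ext h3 (Prod.ext h4 h1)

private theorem red2_le {e : ℕ} (he : 1 ≤ e) {θ : PowerSeries ℂ} {E : ℕ → Finset ℕ}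
    {b : ℕ → ℕ → Poly 4} (hE : Ech e θ E b) {m k : ℕ} {u : ℕ × ℕ × ℕ} (hu : u ∈ idx e m k E) :
    u.1 < m ∧ u.2.2 + u.1 + e * u.2.1 ≤ e * k := by
  obtain ⟨h1, h2, h3⟩ := Finset.mem_filter.1 hu
  have h4 := (Finset.mem_product.1 h1).1
  refine ⟨Finset.mem_range.1 h4, ?_⟩
  have h5 := hE.le _ _ h3
  obtain ⟨r, hr⟩ := Nat.exists_eq_add_of_le h2
  have h6 : k - u.1 - u.2.1 = r := by omega
  rw [h6] at h5
  have h7 : e * k = e * u.1 + e * u.2.1 + e * r := by
    rw [hr]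
    ring
  have h8 : u.1 ≤ e * u.1 := Nat.le_mul_of_pos_left _ he
  omega

private theorem red2_deg {e : ℕ} {k : ℕ} {u : ℕ × ℕ × ℕ}
    (hu : u.2.2 + u.1 + e * u.2.1 ≤ e * k) : (red2_ex e k u).degree = e * k := by
  unfold red2_ex
  rw [map_add, map_add, map_add, Finsupp.degree_single, Finsupp.degree_single,
    Finsupp.degree_single, Finsupp.degree_single]
  omega

/-- **properties of the reduction**: it is a form of degree `e * k`, divisible exponents of `X 2`,
small exponents of `X 3`, and it is not zero if one coefficient is not.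

Proof. For `u = (i, j, l) ∈ idx`, `l ≤ e * (k - i - j)` by `hE.le`, so `l + i + e * j ≤ e * k` (as
`e ≥ 1`); different `u` give different monomials, `u` being determined by `l`, `e * j` and `i`. -/
theorem redForm_props {p : Place} {e : ℕ} (he : 1 ≤ e) {θ : PowerSeries ℂ} {E : ℕ → Finset ℕ}
    {b : ℕ → ℕ → Poly 4} (hE : Ech e θ E b) (m k : ℕ) (bb : ℕ × ℕ × ℕ → p.B) :
    (redForm p e m k E bb).IsHomogeneous (e * k) ∧
      (∀ γ ∈ (redForm p e m k E bb).support, e ∣ γ 2 ∧ γ 3 < m) ∧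
      ((∃ u ∈ idx e m k E, p.ρ (bb u) ≠ 0) → redForm p e m k E bb ≠ 0) := by
  classical
  have hr : redForm p e m k E bb =
      ∑ u ∈ idx e m k E, monomial (red2_ex e k u) (p.ρ (bb u)) :=
    Finset.sum_congr rfl fun u _ => red2_mono e k (p.ρ (bb u)) u
  rw [hr]
  refine ⟨?_, fun γ hγ => ?_, ?_⟩
  · refine IsHomogeneous.sum _ _ _ fun u hu => ?_
    exact isHomogeneous_monomial _ (red2_deg (red2_le he hE hu).2)
  · rw [mem_support_iff, coeff_sum] at hγ
    obtain ⟨u, hu, h⟩ := Finset.exists_ne_zero_of_sum_ne_zero hγ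
    rw [coeff_monomial] at h
    have h1 : red2_ex e k u = γ := by
      by_contra hne
      exact h (if_neg hne)
    rw [← h1, red2_2, red2_3]
    exact ⟨dvd_mul_right e _, (red2_le he hE hu).1⟩
  · rintro ⟨u, hu, h⟩ h0
    have h1 := congrArg (coeff (red2_ex e k u)) h0
    rw [coeff_sum, coeff_zero, Finset.sum_eq_single u] at h1
    · rw [coeff_monomial, if_pos rfl] at h1
      exact h h1
    · intro u' _ hne
      rw [coeff_monomial, if_neg]
      exact fun h2 => hne (red2_inj he k h2)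
    · exact fun h2 => absurd hu h2

end Pool.Agent.Lib.MP_ed661f_ag.V
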