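import Pool.Agent.Lib.MP_ed661f_ag.V.Red2

/-!
The reduction of the normal form vanishes on the germ of the reduction.
-/

set_option autoImplicit false

open MvPolynomial

namespace Pool.Agent.Lib.MP_ed661f_ag.V

open Pool.Agent.Lib.MP_ed661f_ag.H Pool.Agent.Lib.MP_ed661f_ag.S

section

variable {A A' R R' σ : Type*} [CommRing A] [CommRing A'] [CommRing R] [CommRing R']
  [Algebra A R] [Algebra A' R']

private theorem r2_aeval (φ : A →+* A') (Φ : R →+* R')
    (hc : ∀ a, Φ (algebraMap A R a) = algebraMap A' R' (φ a)) (x : σ → R)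
    (Q : MvPolynomial σ A) : Φ (aeval x Q) = aeval (fun i => Φ (x i)) (map φ Q) := by
  have h : Φ.comp (algebraMap A R) = (algebraMap A' R').comp φ := RingHom.ext hc
  rw [MvPolynomial.map_aeval, h, aeval_def, eval₂_map]
  rfl

end

private theorem r2_mv_inj (p : Place) {f g : MvPowerSeries (Fin 2) p.B}
    (h : MvPowerSeries.map p.B.subtype f = MvPowerSeries.map p.B.subtype g) : f = g := by
  refine MvPowerSeries.ext fun d => subtype_injective p ?_
  rw [← MvPowerSeries.coeff_map, ← MvPowerSeries.coeff_map, h]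

private theorem r2_ps_inj (p : Place) {f g : PowerSeries p.B}
    (h : PowerSeries.map p.B.subtype f = PowerSeries.map p.B.subtype g) : f = g := by
  refine PowerSeries.ext fun d => subtype_injective p ?_
  rw [← PowerSeries.coeff_map, ← PowerSeries.coeff_map, h]

private theorem r2_psi (p : Place) (τ₁ τ₂ : p.B) (e : ℕ) (s t : p.B)
    (ξ y : MvPowerSeries (Fin 2) p.B) (Q : MvPolynomial (Fin 5) p.B) :
    MvPowerSeries.map p.B.subtype (aeval (crd p τ₁ τ₂ e s t ξ y) Q) =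
      psi p τ₁ τ₂ e s t ξ y (map p.B.subtype Q) := by
  unfold psi
  refine r2_aeval p.B.subtype (MvPowerSeries.map p.B.subtype) (fun a => ?_) _ Q
  rw [MvPowerSeries.algebraMap_apply, MvPowerSeries.algebraMap_apply, MvPowerSeries.map_C]
  rfl

private theorem r2_br (p : Place) {θ : PowerSeries ℂ} {θB : PowerSeries p.B}
    (hθ : PowerSeries.map p.B.subtype θB = θ) (Q : MvPolynomial (Fin 5) p.B) :
    PowerSeries.map p.B.subtype (aeval ![1, PowerSeries.X, 0, 0, θB] Q) =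
      br θ (map p.B.subtype Q) := by
  unfold br
  rw [r2_aeval p.B.subtype (PowerSeries.map p.B.subtype) (fun a => ?_) _ Q]
  · congr 2
    funext i
    fin_cases i
    · exact map_one _
    · exact PowerSeries.map_X _
    · exact map_zero _
    · exact map_zero _
    · exact hθ
  · rw [PowerSeries.algebraMap_apply, PowerSeries.algebraMap_apply, PowerSeries.map_C]
    rfl

private theorem r2_rho (p : Place) {x : ℂ} {s : p.B} (hx : x ∈ p.K) (hs : (s : ℂ) = x) :
    p.ρ s = x := by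
  have h1 : s = ⟨x, p.le x hx⟩ := Subtype.ext hs
  rw [h1]
  exact p.id x hx

private theorem r2_elem {p : Place} {τ₁ τ₂ : p.B} (h1 : p.ρ τ₁ = 0)
    (h2 : ∀ l : ℕ, ∃ c : p.B, p.ρ c = 0 ∧ τ₂ = c * τ₁ ^ l) {e : ℕ} {P : Poly 4}
    (hPK : ∀ α, coeff α P ∈ p.K) (hP4 : eval ![1, 0, 0, 0, 0] (pderiv 4 P) ≠ 0)
    {θ : PowerSeries ℂ} (hθK : ∀ j, PowerSeries.coeff j θ ∈ p.K) (hB : Branch e P θ)
    {E : ℕ → Finset ℕ} {b : ℕ → ℕ → Poly 4} (hE : Ech e θ E b)
    (hbK : ∀ d l α, coeff α (b d l) ∈ p.K) {GB : MvPolynomial (Fin 4) p.B} {F : Poly 3}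
    {v : Fin 4 → ℂ} (hvK : ∀ j, v j ∈ p.K) {s t : p.B} {ξ y : MvPowerSeries (Fin 2) p.B}
    (h : Pt2 p τ₁ τ₂ e P GB F v s t ξ y) (d l : ℕ) (hl : l ∈ E d) :
    ∃ σ : MvPowerSeries (Fin 2) p.B,
      psi p τ₁ τ₂ e s t ξ y (b d l) =
        MvPowerSeries.map p.B.subtype (MvPowerSeries.C (τ₁ ^ l) * σ) ∧
      MvPowerSeries.map p.ρ σ = (MvPowerSeries.C (v 1) + MvPowerSeries.X 0) ^ l := by
  obtain ⟨PB, hPB1, hPB2, _⟩ := exists_liftB p hPK
  obtain ⟨θB, hθB1, hθB2⟩ := exists_liftPS p hθK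
  obtain ⟨sB, hsB1, _, hsB3⟩ := exists_liftB p (hbK d l)
  have hθ0 : PowerSeries.constantCoeff θB = 0 := by
    apply subtype_injective p
    rw [← PowerSeries.coeff_zero_eq_constantCoeff_apply, ← PowerSeries.coeff_map, hθB1,
      PowerSeries.coeff_zero_eq_constantCoeff_apply, hB.h0, map_zero]
  have hθ : aeval ![1, PowerSeries.X, 0, 0, θB] PB = 0 := by
    apply r2_ps_inj p
    rw [r2_br p hθB1, hPB1, hB.hP, map_zero]
  have hδ : p.ρ (eval ![1, 0, 0, 0, 0] (pderiv 4 PB)) ≠ 0 := by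
    have h3 : p.ρ (eval ![1, 0, 0, 0, 0] (pderiv 4 PB)) =
        eval ![1, 0, 0, 0, 0] (pderiv 4 P) := by
      have h4 := r2_aeval (A := p.B) (A' := ℂ) (R := p.B) (R' := ℂ) p.ρ p.ρ (fun a => rfl)
        ![1, 0, 0, 0, 0] (pderiv 4 PB)
      have h5 : (fun i => p.ρ ((![1, 0, 0, 0, 0] : Fin 5 → p.B) i)) = ![1, 0, 0, 0, 0] := by
        funext i
        fin_cases i
        · exact map_one _
        · exact map_zero _
        · exact map_zero _
        · exact map_zero _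
        · exact map_zero _
      rw [← pderiv_map, hPB2, h5] at h4
      exact h4
    rw [h3]
    exact hP4
  have hPy : aeval ![1, MvPowerSeries.C τ₁ * (MvPowerSeries.C s + MvPowerSeries.X 0),
      MvPowerSeries.C τ₂ * ξ, MvPowerSeries.C τ₂ * (MvPowerSeries.C t + MvPowerSeries.X 1) ^ e,
      y] PB = 0 := by
    apply r2_mv_inj p
    have h3 := r2_psi p τ₁ τ₂ e s t ξ y PB
    rw [hPB1, h.hP] at h3
    rw [map_zero]
    exact h3
  have hs : ∀ γ ∈ sB.support, γ 2 = 0 ∧ γ 3 = 0 := by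
    intro γ hγ
    have h3 := hE.mem d l hl γ (mem_support_iff.2 (hsB3 γ (mem_support_iff.1 hγ)))
    exact ⟨h3.1, h3.2.1⟩
  have hco : ∀ j, ((PowerSeries.coeff j (aeval ![1, PowerSeries.X, 0, 0, θB] sB) : p.B) : ℂ) =
      PowerSeries.coeff j (br θ (b d l)) := by
    intro j
    rw [← hsB1, ← r2_br p hθB1, PowerSeries.coeff_map]
    rfl
  have hlow : ∀ j < l, PowerSeries.coeff j (aeval ![1, PowerSeries.X, 0, 0, θB] sB) = 0 := by
    intro j hj
    apply Subtype.ext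
    rw [hco, hE.low d l hl j hj]
    rfl
  have hlead : PowerSeries.coeff l (aeval ![1, PowerSeries.X, 0, 0, θB] sB) = 1 := by
    apply Subtype.ext
    rw [hco, hE.lead d l hl]
    rfl
  obtain ⟨σ, hσ1, hσ2⟩ := lemR p h1 h2 hθ0 hθ hδ h.hy hPy hs hlow hlead
  refine ⟨σ, ?_, ?_⟩
  · rw [← hσ1, ← hsB1]
    exact (r2_psi p τ₁ τ₂ e s t ξ y sB).symm
  · rw [hσ2, map_add, MvPowerSeries.map_C, MvPowerSeries.map_X, r2_rho p (hvK 1) h.hs]

/-- **the reduction on the germ**: if the normal form vanishes to order `w` on the scaled germ, its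
reduction vanishes to order `w` on the germ `chi`.

Proof. For `u = (i, j, l)` in `idx e m k E` the element `nfb k b u` is
`X 2 ^ i * X 3 ^ j * b (k - i - j) l`. Lift `P`, `θ` and `b (k - i - j) l` to `p.B`
(`exists_liftB`, `exists_liftPS`; the map to `ℂ` is injective on `p.B`, on the polynomials and on
the power series) and apply `lemR` with `ζ = C s + X 0`, `η = (C t + X 1) ^ e` (`hθ` from `hB.hP`,
`hPy` from `h.hP`, `hs` from `hE.mem`, `hlow`, `hlead` from `hE.low`, `hE.lead`): the value of `psi`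
at `b (k - i - j) l` is the image of `C (τ₁ ^ l) * σ_u`, `map p.ρ σ_u = (C (v 1) + X 0) ^ l`. So
`c` times the value of `psi` at the normal form is the image, under the injective map
`MvPowerSeries.map p.B.subtype`, of `f = ∑_u C (bb u) ξ ^ i ((C t + X 1) ^ e) ^ j σ_u`, by `hbb`. So
`Van w f` (`Van.of_map`), and `Van w (map p.ρ f)` (`Van.map`); `map p.ρ f` is the value of `chi` at
`redForm`, as `chi (X 0) = 1`. -/
theorem red2 {p : Place} {τ₁ τ₂ : p.B} (h1 : p.ρ τ₁ = 0)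
    (h2 : ∀ l : ℕ, ∃ c : p.B, p.ρ c = 0 ∧ τ₂ = c * τ₁ ^ l) {e : ℕ} {P : Poly 4}
    (hPK : ∀ α, coeff α P ∈ p.K) (hP4 : eval ![1, 0, 0, 0, 0] (pderiv 4 P) ≠ 0)
    {θ : PowerSeries ℂ} (hθK : ∀ j, PowerSeries.coeff j θ ∈ p.K) (hB : Branch e P θ)
    {E : ℕ → Finset ℕ} {b : ℕ → ℕ → Poly 4} (hE : Ech e θ E b)
    (hbK : ∀ d l α, coeff α (b d l) ∈ p.K) {GB : MvPolynomial (Fin 4) p.B} {F : Poly 3}
    {v : Fin 4 → ℂ} (hvK : ∀ j, v j ∈ p.K) {s t : p.B} {ξ y : MvPowerSeries (Fin 2) p.B}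
    (h : Pt2 p τ₁ τ₂ e P GB F v s t ξ y) {m k : ℕ} {a : ℕ × ℕ × ℕ → ℂ} {c : ℂ}
    {bb : ℕ × ℕ × ℕ → p.B} (hbb : ∀ u ∈ idx e m k E,
      ((bb u : p.B) : ℂ) = c * a u * (τ₁ : ℂ) ^ u.2.2 * (τ₂ : ℂ) ^ (u.1 + u.2.1)) {w : ℕ}
    (hw : Van w (psi p τ₁ τ₂ e s t ξ y (∑ u ∈ idx e m k E, C (a u) * nfb k b u))) :
    Van w (chi p v ξ (redForm p e m k E bb)) := by
  have key : ∀ u ∈ idx e m k E, ∃ σ : MvPowerSeries (Fin 2) p.B,
      psi p τ₁ τ₂ e s t ξ y (b (k - u.1 - u.2.1) u.2.2) =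
        MvPowerSeries.map p.B.subtype (MvPowerSeries.C (τ₁ ^ u.2.2) * σ) ∧
      MvPowerSeries.map p.ρ σ = (MvPowerSeries.C (v 1) + MvPowerSeries.X 0) ^ u.2.2 := by
    intro u hu
    unfold idx at hu
    rw [Finset.mem_filter] at hu
    exact r2_elem h1 h2 hPK hP4 hθK hB hE hbK hvK h _ _ hu.2.2
  choose! σ hσ using key
  set η : MvPowerSeries (Fin 2) p.B := (MvPowerSeries.C t + MvPowerSeries.X 1) ^ e with hη
  set f : MvPowerSeries (Fin 2) p.B := ∑ u ∈ idx e m k E,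
    MvPowerSeries.C (bb u) * (ξ ^ u.1 * η ^ u.2.1 * σ u) with hf
  have hf1 : MvPowerSeries.map p.B.subtype f = MvPowerSeries.C c *
      psi p τ₁ τ₂ e s t ξ y (∑ u ∈ idx e m k E, C (a u) * nfb k b u) := by
    rw [hf, map_sum, map_sum, Finset.mul_sum]
    refine Finset.sum_congr rfl fun u hu => ?_
    have h2' : psi p τ₁ τ₂ e s t ξ y (X 2) =
        MvPowerSeries.map p.B.subtype (MvPowerSeries.C τ₂ * ξ) := by
      unfold psi
      rw [aeval_X]
      rfl
    have h3' : psi p τ₁ τ₂ e s t ξ y (X 3) =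
        MvPowerSeries.map p.B.subtype (MvPowerSeries.C τ₂ * η) := by
      unfold psi
      rw [aeval_X]
      rfl
    have h4' : psi p τ₁ τ₂ e s t ξ y (C (a u)) = MvPowerSeries.C (a u) := by
      unfold psi
      rw [aeval_C]
      rfl
    have h5 : MvPowerSeries.map p.B.subtype (MvPowerSeries.C (bb u)) =
        MvPowerSeries.C (σ := Fin 2) c * MvPowerSeries.C (a u) *
          (MvPowerSeries.C (τ₁ : ℂ) ^ u.2.2 * MvPowerSeries.C (τ₂ : ℂ) ^ (u.1 + u.2.1)) := by
      rw [MvPowerSeries.map_C, ← map_pow, ← map_pow, ← map_mul, ← map_mul, ← map_mul]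
      congr 1
      have h6 := hbb u hu
      change ((bb u : p.B) : ℂ) = _
      rw [h6]
      ring
    have h7 : psi p τ₁ τ₂ e s t ξ y (C (a u) * nfb k b u) = MvPowerSeries.C (a u) *
        ((MvPowerSeries.map p.B.subtype (MvPowerSeries.C τ₂ * ξ)) ^ u.1 *
          (MvPowerSeries.map p.B.subtype (MvPowerSeries.C τ₂ * η)) ^ u.2.1 *
          MvPowerSeries.map p.B.subtype (MvPowerSeries.C (τ₁ ^ u.2.2) * σ u)) := by
      unfold nfb
      rw [map_mul, h4', map_mul, map_mul, map_pow, map_pow, h2', h3', (hσ u hu).1]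
    rw [h7]
    simp only [map_mul, map_pow, MvPowerSeries.map_C]
    rw [MvPowerSeries.map_C] at h5
    rw [h5]
    change _ = MvPowerSeries.C c * (MvPowerSeries.C (a u) *
      ((MvPowerSeries.C (τ₂ : ℂ) * MvPowerSeries.map p.B.subtype ξ) ^ u.1 *
        (MvPowerSeries.C (τ₂ : ℂ) * MvPowerSeries.map p.B.subtype η) ^ u.2.1 *
        (MvPowerSeries.C (τ₁ : ℂ) ^ u.2.2 * MvPowerSeries.map p.B.subtype (σ u))))
    rw [mul_pow, mul_pow, pow_add]
    ring
  have hf2 : Van w f := by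
    refine Van.of_map (subtype_injective p) ?_
    rw [hf1]
    exact hw.mul_left _
  have hf3 : MvPowerSeries.map p.ρ f = chi p v ξ (redForm p e m k E bb) := by
    have h0' : chi p v ξ (X 0) = 1 := by
      unfold chi
      rw [aeval_X]
      rfl
    have h1' : chi p v ξ (X 1) = MvPowerSeries.C (v 1) + MvPowerSeries.X 0 := by
      unfold chi
      rw [aeval_X]
      rfl
    have h2' : chi p v ξ (X 2) = MvPowerSeries.C (v 2) + MvPowerSeries.X 1 := by
      unfold chi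
      rw [aeval_X]
      rfl
    have h3' : chi p v ξ (X 3) = MvPowerSeries.map p.ρ ξ := by
      unfold chi
      rw [aeval_X]
      rfl
    have h4' : MvPowerSeries.map p.ρ η = (MvPowerSeries.C (v 2) + MvPowerSeries.X 1) ^ e := by
      rw [hη, map_pow, map_add, MvPowerSeries.map_C, MvPowerSeries.map_X,
        r2_rho p (hvK 2) h.ht]
    unfold redForm
    rw [hf, map_sum, map_sum]
    refine Finset.sum_congr rfl fun u hu => ?_
    have h5' : chi p v ξ (C (p.ρ (bb u))) = MvPowerSeries.C (p.ρ (bb u)) := by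
      unfold chi
      rw [aeval_C]
      rfl
    simp only [map_mul, map_pow]
    rw [h0', h1', h2', h3', h4', h5', (hσ u hu).2, MvPowerSeries.map_C, one_pow, ← pow_mul]
    ring
  rw [← hf3]
  exact hf2.map p.ρ

end Pool.Agent.Lib.MP_ed661f_ag.V
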