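import Pool.Agent.Lib.MP_ed661f_ag.V.Defs

/-!
Tangent spaces of affine cones, smooth varieties.
-/

set_option autoImplicit false

open MvPolynomial

namespace Pool.Agent.Lib.MP_ed661f_ag.V

open Pool.Agent.Lib.MP_ed661f_ag.H

/-- the tangent space at the vector `v` of the affine cone with ideal `J`: the vectors `u` such
that the derivatives at `v` in the direction `u` of all elements of `J` vanish -/
def tang {N : ℕ} (J : Ideal (Poly N)) (v : Fin (N + 1) → ℂ) :
    Submodule ℂ (Fin (N + 1) → ℂ) where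
  carrier := {u | ∀ F ∈ J, ∑ j, u j * eval v (pderiv j F) = 0}
  add_mem' := by
    intro a b ha hb F hF
    have h1 : ∀ j, (a + b) j * eval v (pderiv j F) =
        a j * eval v (pderiv j F) + b j * eval v (pderiv j F) := fun j => by
      rw [Pi.add_apply, add_mul]
    simp only [h1]
    rw [Finset.sum_add_distrib, ha F hF, hb F hF, add_zero]
  zero_mem' := by
    intro F _
    simp
  smul_mem' := by
    intro c a ha F hF
    have h1 : ∀ j, (c • a) j * eval v (pderiv j F) = c * (a j * eval v (pderiv j F)) :=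
      fun j => by rw [Pi.smul_apply, smul_eq_mul, mul_assoc]
    simp only [h1]
    rw [← Finset.mul_sum, ha F hF, mul_zero]

theorem mem_tang {N : ℕ} {J : Ideal (Poly N)} {v u : Fin (N + 1) → ℂ} :
    u ∈ tang J v ↔ ∀ F ∈ J, ∑ j, u j * eval v (pderiv j F) = 0 := Iff.rfl

/-- the variety of dimension `d` with homogeneous ideal `J` is smooth: the tangent spaces of its
cone at the vectors `v ≠ 0` have dimension at most `d + 1`, the dimension of the cone -/
def IsSmooth {N : ℕ} (d : ℕ) (J : Ideal (Poly N)) : Prop :=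
  ∀ v : Fin (N + 1) → ℂ, v ≠ 0 → (∀ F ∈ J, eval v F = 0) →
    Module.finrank ℂ (tang J v) ≤ d + 1

theorem tang_anti {N : ℕ} {J J' : Ideal (Poly N)} (h : J ≤ J') (v : Fin (N + 1) → ℂ) :
    tang J' v ≤ tang J v := fun _ hu F hF => hu F (h hF)

private theorem tan_eval {N n : ℕ} {F : Poly N} (hF : F.IsHomogeneous n) (c : ℂ)
    (v : Fin (N + 1) → ℂ) : eval (c • v) F = c ^ n * eval v F := by
  rw [eval_eq, eval_eq, Finset.mul_sum]
  refine Finset.sum_congr rfl fun d hd => ?_
  have h1 : ∏ i ∈ d.support, (c • v) i ^ d i = c ^ n * ∏ i ∈ d.support, v i ^ d i := by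
    have h2 : ∀ i ∈ d.support, (c • v) i ^ d i = c ^ d i * v i ^ d i := fun i _ => by
      rw [Pi.smul_apply, smul_eq_mul, mul_pow]
    rw [Finset.prod_congr rfl h2, Finset.prod_mul_distrib, Finset.prod_pow_eq_pow_sum]
    have h4 := hF (mem_support_iff.1 hd)
    rw [← h4]
    simp [Finsupp.weight_apply, Finsupp.sum]
  rw [h1]
  ring

private theorem tan_grad {N m : ℕ} {G : Poly N} (hG : G.IsHomogeneous m) (c : ℂ)
    (v u : Fin (N + 1) → ℂ) : ∑ j, u j * eval (c • v) (pderiv j G) =
      c ^ (m - 1) * ∑ j, u j * eval v (pderiv j G) := by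
  rw [Finset.mul_sum]
  refine Finset.sum_congr rfl fun j _ => ?_
  rw [tan_eval (hG.pderiv (i := j)) c v]
  ring

private theorem tan_le {N : ℕ} {I : Ideal (Poly N)}
    (hh : ∀ F ∈ I, ∀ k, homogeneousComponent k F ∈ I) {c : ℂ} (hc : c ≠ 0)
    (v : Fin (N + 1) → ℂ) : tang I (c • v) ≤ tang I v := by
  intro u hu
  rw [mem_tang] at hu ⊢
  intro F hF
  have h0 : ∀ k, ∑ j, u j * eval v (pderiv j (homogeneousComponent k F)) = 0 := by
    intro k
    have h1 := hu _ (hh F hF k)
    rw [tan_grad (homogeneousComponent_isHomogeneous k F) c v u] at h1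
    exact (mul_eq_zero.1 h1).resolve_left (pow_ne_zero _ hc)
  have h2 : ∀ j, u j * eval v (pderiv j F) =
      ∑ k ∈ Finset.range (F.totalDegree + 1),
        u j * eval v (pderiv j (homogeneousComponent k F)) := by
    intro j
    have h3 : pderiv j F = ∑ k ∈ Finset.range (F.totalDegree + 1),
        pderiv j (homogeneousComponent k F) := by
      rw [← map_sum, sum_homogeneousComponent]
    rw [h3, map_sum, Finset.mul_sum]
  simp only [h2]
  rw [Finset.sum_comm]
  exact Finset.sum_eq_zero fun k _ => h0 k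

/-- Proof. For a form `F` of degree `k` and `c ≠ 0` the derivatives `pderiv j F` are forms of degree
`k - 1` (and zero if `k = 0`), so `∑ u j * eval (c • v) (pderiv j F)` is `c ^ (k - 1)` times
`∑ u j * eval v (pderiv j F)` (see `grad_smul` below); the elements of `I` are sums of forms
in `I`. -/
theorem tang_smul {N : ℕ} {I : Ideal (Poly N)}
    (hh : ∀ F ∈ I, ∀ k, homogeneousComponent k F ∈ I) {c : ℂ} (hc : c ≠ 0)
    (v : Fin (N + 1) → ℂ) : tang I (c • v) = tang I v := by
  refine le_antisymm (tan_le hh hc v) ?_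
  have h := tan_le hh (inv_ne_zero hc) (c • v)
  rwa [smul_smul, inv_mul_cancel₀ hc, one_smul] at h

/-- the derivative of a form in the direction `u`, at a multiple of `v`.

Proof. The `pderiv j G` are forms of degree `m - 1`. -/
theorem grad_smul {N m : ℕ} {G : Poly N} (hG : G.IsHomogeneous m) (c : ℂ)
    (v u : Fin (N + 1) → ℂ) : ∑ j, u j * eval (c • v) (pderiv j G) =
      c ^ (m - 1) * ∑ j, u j * eval v (pderiv j G) := by
  exact tan_grad hG c v u

end Pool.Agent.Lib.MP_ed661f_ag.V
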