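import Pool.Agent.Lib.MP_ed661f_ag.V.Defs
import Pool.Agent.Lib.MP_ed661f_ag.H.Krull

/-!
Forms in five variables in the ideal of a threefold.
-/

set_option autoImplicit false

open MvPolynomial

namespace Pool.Agent.Lib.MP_ed661f_ag.V

open Pool.Agent.Lib.MP_ed661f_ag.H

private theorem trdeg_eq_of_finite_tanA {B : Type} [CommRing B] [IsDomain B] [Algebra ℂ B]
    (f : MvPolynomial (Fin 4) ℂ →ₐ[ℂ] B) (hf : Function.Injective f)
    (hfin : f.toRingHom.Finite) : Algebra.trdeg ℂ B = 4 := by
  let _ := f.toRingHom.toAlgebra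
  have hfin' : Module.Finite (MvPolynomial (Fin 4) ℂ) B := hfin
  have hst : IsScalarTower ℂ (MvPolynomial (Fin 4) ℂ) B :=
    IsScalarTower.of_algebraMap_eq fun z => (f.commutes z).symm
  have hint : Algebra.IsIntegral (MvPolynomial (Fin 4) ℂ) B := Algebra.IsIntegral.of_finite _ B
  have halg : Algebra.IsAlgebraic (MvPolynomial (Fin 4) ℂ) B := inferInstance
  have hinj : Function.Injective (algebraMap (MvPolynomial (Fin 4) ℂ) B) := hf
  have hfs : FaithfulSMul (MvPolynomial (Fin 4) ℂ) B :=
    (faithfulSMul_iff_algebraMap_injective _ _).2 hinj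
  have h1 := _root_.trdeg_add_eq ℂ (MvPolynomial (Fin 4) ℂ) (A := B)
  have h2 : Algebra.trdeg (MvPolynomial (Fin 4) ℂ) B = 0 := _root_.trdeg_eq_zero
  rw [h2, add_zero, MvPolynomial.trdeg_of_isDomain] at h1
  rw [← h1]
  simp

/-- **a form in five variables in the ideal of a threefold**.

Proof. `Poly N ⧸ I` is a domain of dimension `4`, so of transcendence degree `4` over `ℂ` (Noether
normalisation `H.exists_noether`: it is finite over a polynomial ring in `4` variables), so the
classes of the five variables `X (i t)` are algebraically dependent: there is a polynomial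
`R ≠ 0` with `rename i R ∈ I`; as `I` is homogeneous, a homogeneous component of `R`
will do. (Or compare Hilbert functions, `H.le_hilb`, `H.hilb_le`, `H.exists_basis`: the forms of
degree `k` in five variables are a space of dimension `(k + 4).choose 4`, and `hilb I k` is bounded
by a multiple of `k ^ 3`.) -/
theorem exists_form_five {N : ℕ} {I : Ideal (Poly N)} (hI : IsThreefold I)
    (i : Fin 5 → Fin (N + 1)) :
    ∃ (k : ℕ) (R : MvPolynomial (Fin 5) ℂ), R.IsHomogeneous k ∧ R ≠ 0 ∧ rename i R ∈ I := by
  have hp := hI.prime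
  obtain ⟨y, -, hinj, hfin⟩ := exists_noether (r := 4) hp.ne_top hI.homogeneous
    (by rw [hI.dim]; rfl)
  have htr := trdeg_eq_of_finite_tanA (proj I y) hinj hfin
  obtain ⟨R, hR0, hR⟩ : ∃ R : MvPolynomial (Fin 5) ℂ, R ≠ 0 ∧ rename i R ∈ I := by
    by_contra hcon
    push Not at hcon
    have hind : AlgebraicIndependent ℂ (fun t => Ideal.Quotient.mk I (X (i t) : Poly N)) := by
      rw [algebraicIndependent_iff]
      intro R hR
      by_contra hR0
      apply hcon R hR0
      rw [← Ideal.Quotient.eq_zero_iff_mem, ← hR]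
      have : ((Ideal.Quotient.mkₐ ℂ I).comp (rename i)) =
          aeval fun t => Ideal.Quotient.mk I (X (i t) : Poly N) := by
        ext t
        simp
      rw [← this]
      rfl
    have h5 := hind.cardinalMk_le_trdeg
    rw [htr] at h5
    simp only [Cardinal.mk_fin] at h5
    norm_cast at h5
  have hex : ∃ k, homogeneousComponent k R ≠ 0 := by
    by_contra hcon
    push Not at hcon
    apply hR0
    rw [← sum_homogeneousComponent R]
    exact Finset.sum_eq_zero fun k _ => hcon k
  obtain ⟨k, hk⟩ := hex
  refine ⟨k, homogeneousComponent k R, homogeneousComponent_isHomogeneous k R, hk, ?_⟩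
  rw [rename_homogeneousComponent]
  exact hI.homogeneous _ hR k

end Pool.Agent.Lib.MP_ed661f_ag.V
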