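import Pool.Agent.Lib.MP_ed661f_ag.V.Fld

/-!
Linear equations for the coefficients of a form which is tangent to a threefold.
-/

set_option autoImplicit false

open MvPolynomial

namespace Pool.Agent.Lib.MP_ed661f_ag.V

open Pool.Agent.Lib.MP_ed661f_ag.H

private noncomputable def tanDT {N : ℕ} (k : ℕ) (v : Fin (N + 1) → ℂ) (j0 : Fin (N + 1)) :
    (Fin (N + 1) → ℂ) →ₗ[ℂ] (Fin (N + 1) → ℂ) where
  toFun w := w + ((k : ℂ) * w j0) • v
  map_add' w w' := by
    funext i
    simp only [Pi.add_apply, Pi.smul_apply, smul_eq_mul]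
    ring
  map_smul' a w := by
    funext i
    simp only [Pi.add_apply, Pi.smul_apply, smul_eq_mul, RingHom.id_apply]
    ring

private theorem tanDT_apply {N : ℕ} (k : ℕ) (v : Fin (N + 1) → ℂ) (j0 : Fin (N + 1)) (w : Fin (N + 1) → ℂ) :
    tanDT k v j0 w = w + ((k : ℂ) * w j0) • v := rfl

private theorem tanDT_inj {N : ℕ} (k : ℕ) {v : Fin (N + 1) → ℂ} {j0 : Fin (N + 1)} (h0 : v j0 = 1) :
    LinearMap.ker (tanDT k v j0) = ⊥ := by
  rw [LinearMap.ker_eq_bot']
  intro w hw
  rw [tanDT_apply] at hw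
  have h1 := congrFun hw j0
  simp only [Pi.add_apply, Pi.smul_apply, smul_eq_mul, Pi.zero_apply, h0, mul_one] at h1
  have h2 : ((k : ℂ) + 1) * w j0 = 0 := by rw [← h1]; ring
  have h3 : w j0 = 0 := by
    rcases mul_eq_zero.1 h2 with h | h
    · exact absurd h (Nat.cast_add_one_ne_zero k)
    · exact h
  rw [h3, mul_zero, zero_smul, add_zero] at hw
  exact hw

private theorem tanD_dual {V : Type} [AddCommGroup V] [Module ℂ V] {r : ℕ} {u : Fin r → V}
    (hu : LinearIndependent ℂ u) (c : Fin r → ℂ) : ∃ φ : V →ₗ[ℂ] ℂ, ∀ i, φ (u i) = c i := by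
  let f : Submodule.span ℂ (Set.range u) →ₗ[ℂ] ℂ := (Module.Basis.span hu).constr ℂ c
  obtain ⟨g, hg⟩ := LinearMap.exists_extend f
  refine ⟨g, fun i => ?_⟩
  have h1 : g (u i) = (g ∘ₗ (Submodule.span ℂ (Set.range u)).subtype) (Module.Basis.span hu i) := by
    rw [LinearMap.comp_apply, Submodule.subtype_apply, Module.Basis.span_apply]
  rw [h1, hg]
  exact Module.Basis.constr_basis _ _ _ _

/-- **the equations are independent**: the derivatives at `v` of the forms of degree `m ≥ 1`, in the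
directions of independent vectors `u i`.

Proof. Let `v j0 = 1`. For a linear form `ℓ = ∑ l j * X j` and `G = X j0 ^ (m - 1) * ℓ` the
derivative at `v` in the direction `w` is `(m - 1) * w j0 * ℓ(v) + ℓ(w) = ℓ(w + (m - 1) w j0 v)`.
The linear map `w ↦ w + (m - 1) (w j0) v` is injective: if the image is zero, its coordinate `j0`
gives `m * w j0 = 0`, so `w j0 = 0` and `w = 0`. So the images of the `u i` are linearly
independent, and there is a linear form `ℓ` with the values `c i` at them. -/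
theorem exists_grad {N m r : ℕ} (hm : 1 ≤ m) {v : Fin (N + 1) → ℂ} {j0 : Fin (N + 1)}
    (h0 : v j0 = 1) {u : Fin r → Fin (N + 1) → ℂ} (hu : LinearIndependent ℂ u) (c : Fin r → ℂ) :
    ∃ G : Poly N, G.IsHomogeneous m ∧ ∀ i, ∑ j, u i j * eval v (pderiv j G) = c i := by
  obtain ⟨k, rfl⟩ : ∃ k, m = k + 1 := ⟨m - 1, by omega⟩
  have hT : LinearIndependent ℂ (fun i => tanDT k v j0 (u i)) := hu.map' _ (tanDT_inj k h0)
  obtain ⟨φ, hφ⟩ := tanD_dual hT c
  have hsum : ∀ w : Fin (N + 1) → ℂ, ∑ j, w j * φ (Pi.single j 1) = φ w := by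
    intro w
    have e : w = ∑ j, w j • (Pi.single j (1 : ℂ) : Fin (N + 1) → ℂ) := by
      funext i
      rw [Finset.sum_apply]
      simp [Pi.single_apply]
    conv_rhs => rw [e, map_sum]
    refine Finset.sum_congr rfl fun j _ => ?_
    rw [map_smul, smul_eq_mul]
  refine ⟨X j0 ^ k * ∑ j, C (φ (Pi.single j 1)) * X j, ?_, fun i => ?_⟩
  · refine (isHomogeneous_X_pow j0 k).mul ?_
    refine IsHomogeneous.sum _ _ _ fun j _ => ?_
    have := (isHomogeneous_C (Fin (N + 1)) (φ (Pi.single j 1))).mul (isHomogeneous_X ℂ j)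
    rwa [zero_add] at this
  · have hd : ∀ j, eval v (pderiv j (X j0 ^ k * ∑ j, C (φ (Pi.single j 1)) * X j : MvPolynomial (Fin (N + 1)) ℂ)) =
        (if j = j0 then (k : ℂ) * φ v else 0) + φ (Pi.single j 1) := by
      intro j
      have hl : pderiv j (∑ j, C (φ (Pi.single j 1)) * X j : MvPolynomial (Fin (N + 1)) ℂ) = C (φ (Pi.single j 1)) := by
        rw [map_sum, Finset.sum_eq_single j]
        · rw [pderiv_C_mul, pderiv_X_self, mul_one]
        · intro b _ hb
          rw [pderiv_C_mul, pderiv_X_of_ne hb, mul_zero]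
        · intro h
          exact absurd (Finset.mem_univ j) h
      have hev : eval v (∑ j, C (φ (Pi.single j 1)) * X j : MvPolynomial (Fin (N + 1)) ℂ) = φ v := by
        rw [map_sum, ← hsum v]
        refine Finset.sum_congr rfl fun b _ => ?_
        rw [map_mul, eval_C, eval_X, mul_comm]
      have hpe : eval v (X j0 ^ k : MvPolynomial (Fin (N + 1)) ℂ) = 1 := by rw [map_pow, eval_X, h0, one_pow]
      rw [pderiv_mul, hl, map_add, (eval v).map_mul, (eval v).map_mul, hev, eval_C, hpe, one_mul, pderiv_pow]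
      congr 1
      by_cases hj : j = j0
      · subst hj
        rw [if_pos rfl, pderiv_X_self, mul_one, map_mul, map_pow, eval_X, h0, one_pow, mul_one, map_natCast]
      · rw [if_neg hj, pderiv_X_of_ne (Ne.symm hj), mul_zero, map_zero, zero_mul]
    have h1 : ∀ j, u i j * eval v (pderiv j (X j0 ^ k * ∑ j, C (φ (Pi.single j 1)) * X j : MvPolynomial (Fin (N + 1)) ℂ)) =
        (if j = j0 then u i j * ((k : ℂ) * φ v) else 0) + u i j * φ (Pi.single j 1) := by
      intro j
      rw [hd, mul_add]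
      congr 1
      split_ifs
      · rfl
      · rw [mul_zero]
    rw [Finset.sum_congr rfl fun j _ => h1 j, Finset.sum_add_distrib, hsum, Finset.sum_ite_eq' Finset.univ j0,
      if_pos (Finset.mem_univ j0), ← hφ i, tanDT_apply, map_add, map_smul, smul_eq_mul]
    ring

end Pool.Agent.Lib.MP_ed661f_ag.V
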