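import Mathlib
import Pool.Agent.Lib.MP_ed661f_ag.S.Hens

/-!
The branch of the generic curve section.
-/

set_option autoImplicit false

open MvPolynomial

namespace Pool.Agent.Lib.MP_ed661f_ag.V

/-- the restriction to `(1 : Z : α Z : β Z : θ)`, where `α`, `β` are indeterminates -/
noncomputable def Phi (K : Subfield ℂ) (θ : PowerSeries (MvPolynomial (Fin 2) K)) :
    MvPolynomial (Fin 5) K →ₐ[K] PowerSeries (MvPolynomial (Fin 2) K) :=
  aeval ![1, PowerSeries.X, PowerSeries.C (X 0) * PowerSeries.X,
    PowerSeries.C (X 1) * PowerSeries.X, θ]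

/-- Newton's method in a complete ring -/
private theorem theta_root {R : Type*} [CommRing R] (I : Ideal R) [IsAdicComplete I R]
    (Q : Polynomial R) {z u : R} (hz : Q.eval z ∈ I)
    (hu : Q.derivative.eval z * u - 1 ∈ I) :
    ∃ ζ : R, ζ - z ∈ I ∧ Q.eval ζ = 0 := by
  choose s hs using fun w : ℕ => S.Hn.newton_exists I Q hz hu w
  have hder : ∀ n, Q.derivative.eval (s n) * u - 1 ∈ I := by
    intro n
    have h4 := S.Hn.eval_sub_mem I Q.derivative (hs n).1
    have e : Q.derivative.eval (s n) * u - 1 =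
        (Q.derivative.eval (s n) - Q.derivative.eval z) * u + (Q.derivative.eval z * u - 1) := by
      ring
    rw [e]
    exact I.add_mem (I.mul_mem_right u h4) hu
  have hcauchy : ∀ {m n : ℕ}, m ≤ n → s m ≡ s n [SMOD (I ^ m • ⊤ : Submodule R R)] := by
    intro m n hmn
    rw [SModEq.sub_mem]
    have h1 : Q.eval (s m) ∈ I ^ m := Ideal.pow_le_pow_right (Nat.le_succ m) (hs m).2
    have h2 : Q.eval (s n) ∈ I ^ m := Ideal.pow_le_pow_right (by omega) (hs n).2
    have h3 : s m - s n ∈ I := by
      have e : s m - s n = (s m - z) - (s n - z) := by ring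
      rw [e]
      exact I.sub_mem (hs m).1 (hs n).1
    have h4 := S.Hn.newton_unique I Q m h1 h2 h3 (hder n)
    rwa [smul_eq_mul, Ideal.mul_top]
  obtain ⟨L, hL⟩ := IsPrecomplete.prec' s hcauchy
  have hL' : ∀ n, s n - L ∈ I ^ n := by
    intro n
    have h := hL n
    rw [SModEq.sub_mem, smul_eq_mul, Ideal.mul_top] at h
    exact h
  refine ⟨L, ?_, ?_⟩
  · have h1 := hL' 1
    rw [pow_one] at h1
    have e : L - z = (s 1 - z) - (s 1 - L) := by ring
    rw [e]
    exact I.sub_mem (hs 1).1 h1
  · refine IsHausdorff.haus' (I := I) (M := R) _ fun n => ?_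
    rw [SModEq.zero, smul_eq_mul, Ideal.mul_top]
    have h1 : Q.eval (s n) ∈ I ^ n := Ideal.pow_le_pow_right (Nat.le_succ n) (hs n).2
    have h2 := S.Hn.eval_sub_mem (I ^ n) Q (hL' n)
    have e : Q.eval L = Q.eval (s n) - (Q.eval (s n) - Q.eval L) := by ring
    rw [e]
    exact Ideal.sub_mem _ h1 h2

/-- the polynomial `P(1, Z, α Z, β Z, y)` -/
private noncomputable def thetaPoly (K : Subfield ℂ) :
    MvPolynomial (Fin 5) K →ₐ[K] Polynomial (PowerSeries (MvPolynomial (Fin 2) K)) :=
  aeval ![1, Polynomial.C PowerSeries.X, Polynomial.C (PowerSeries.C (X 0) * PowerSeries.X),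
    Polynomial.C (PowerSeries.C (X 1) * PowerSeries.X), Polynomial.X]

private theorem eval_thetaPoly {K : Subfield ℂ} (θ : PowerSeries (MvPolynomial (Fin 2) K))
    (P : MvPolynomial (Fin 5) K) : (thetaPoly K P).eval θ = Phi K θ P := by
  have h : (Polynomial.evalRingHom θ).comp (thetaPoly K).toRingHom = (Phi K θ).toRingHom := by
    apply MvPolynomial.ringHom_ext
    · intro a
      simp [thetaPoly, Phi]
    · intro i
      fin_cases i <;> simp [thetaPoly, Phi]
  exact congrArg (fun φ => φ P) h

private theorem derivative_thetaPoly {K : Subfield ℂ} (P : MvPolynomial (Fin 5) K) :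
    (thetaPoly K P).derivative = thetaPoly K (pderiv 4 P) := by
  induction P using MvPolynomial.induction_on with
  | C a =>
    rw [pderiv_C, map_zero]
    have h1 : thetaPoly K (C a : MvPolynomial (Fin 5) K) = algebraMap K _ a := by
      rw [thetaPoly, aeval_C]
    rw [h1, IsScalarTower.algebraMap_apply K (PowerSeries (MvPolynomial (Fin 2) K))
      (Polynomial (PowerSeries (MvPolynomial (Fin 2) K))), ← Polynomial.C_eq_algebraMap,
      Polynomial.derivative_C]
  | add p q hp hq => rw [map_add, map_add, map_add, map_add, hp, hq]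
  | mul_X p i hp =>
    rw [map_mul, Polynomial.derivative_mul, hp, Derivation.leibniz, smul_eq_mul, smul_eq_mul,
      map_add, map_mul, map_mul]
    have h1 : (thetaPoly K (X i : MvPolynomial (Fin 5) K)).derivative =
        thetaPoly K (pderiv 4 (X i : MvPolynomial (Fin 5) K)) := by
      fin_cases i <;> simp [thetaPoly, pderiv_X]
    rw [h1]
    ring

/-- the constant coefficient at `θ = 0` -/
private theorem constantCoeff_Phi {K : Subfield ℂ} (P : MvPolynomial (Fin 5) K) :
    PowerSeries.constantCoeff (Phi K 0 P) = C (eval ![1, 0, 0, 0, 0] P) := by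
  have h : (PowerSeries.constantCoeff (R := MvPolynomial (Fin 2) K)).comp (Phi K 0).toRingHom =
      (C : K →+* MvPolynomial (Fin 2) K).comp (eval ![1, 0, 0, 0, 0]) := by
    apply MvPolynomial.ringHom_ext
    · intro a
      simp [Phi, PowerSeries.algebraMap_apply, MvPolynomial.algebraMap_eq]
    · intro i
      fin_cases i <;> simp [Phi]
  exact congrArg (fun φ => φ P) h

/-- **the generic branch exists**.

Proof. Let `A = MvPolynomial (Fin 2) K`. The polynomial `f(y) = P(1, Z, α Z, β Z, y)` over `A[[Z]]`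
has `f(0) ∈ (Z)`, as its constant coefficient is `P(1,0,0,0,0) = 0`, and `f'(0)` has the constant
coefficient `(∂P/∂x₄)(1,0,0,0,0)`, a nonzero element of `K`, so `f'(0)` is a unit. The ring `A[[Z]]`
is complete for `(Z)` (`IsAdicComplete`, so `HenselianRing`); for a polynomial which is not monic use
Newton's method: `S.Hn.newton_exists` and `S.Hn.newton_unique` (file `S/Hens.lean`, import it) give
roots modulo all powers of `(Z)` which are compatible, and they define `θ` coefficient by
coefficient (`Z ^ w ∣ f` if and only if the coefficients of index `< w` vanish). Or make `f` monic: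
`f(y) = 0` with `y = u z` ... (any way). -/
theorem exists_theta {K : Subfield ℂ} {P : MvPolynomial (Fin 5) K}
    (h0 : eval ![1, 0, 0, 0, 0] P = 0) (h1 : eval ![1, 0, 0, 0, 0] (pderiv 4 P) ≠ 0) :
    ∃ θ : PowerSeries (MvPolynomial (Fin 2) K), PowerSeries.constantCoeff θ = 0 ∧
      Phi K θ P = 0 := by
  classical
  set c : K := eval ![1, 0, 0, 0, 0] (pderiv 4 P) with hc
  have hI : ∀ f : PowerSeries (MvPolynomial (Fin 2) K),
      f ∈ Ideal.span {(PowerSeries.X : PowerSeries (MvPolynomial (Fin 2) K))} ↔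
        PowerSeries.constantCoeff f = 0 := by
    intro f
    rw [Ideal.mem_span_singleton, PowerSeries.X_dvd_iff]
  have hz : (thetaPoly K P).eval 0 ∈
      Ideal.span {(PowerSeries.X : PowerSeries (MvPolynomial (Fin 2) K))} := by
    rw [hI, eval_thetaPoly, constantCoeff_Phi, h0, map_zero]
  have hu : (thetaPoly K P).derivative.eval 0 * PowerSeries.C (C c⁻¹) - 1 ∈
      Ideal.span {(PowerSeries.X : PowerSeries (MvPolynomial (Fin 2) K))} := by
    rw [hI, derivative_thetaPoly, eval_thetaPoly, map_sub, map_mul, constantCoeff_Phi,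
      PowerSeries.constantCoeff_C, ← C_mul, ← hc, mul_inv_cancel₀ h1, map_one, map_one, sub_self]
  obtain ⟨θ, h2, h3⟩ := theta_root _ (thetaPoly K P) hz hu
  refine ⟨θ, ?_, ?_⟩
  · rwa [sub_zero, hI] at h2
  · rwa [eval_thetaPoly] at h3

end Pool.Agent.Lib.MP_ed661f_ag.V
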