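import Pool.Agent.Lib.MP_ed661f_ag.V.Theta

/-!
No form of small degree in the last variable vanishes on the generic branch.
-/

set_option autoImplicit false

open MvPolynomial

namespace Pool.Agent.Lib.MP_ed661f_ag.V

private theorem thi_mono {K : Subfield ℂ} (θ : PowerSeries (MvPolynomial (Fin 2) K))
    {γ : Fin 5 →₀ ℕ} (h4 : γ 4 = 0) (a : K) :
    Phi K θ (monomial γ a) = PowerSeries.monomial (γ 1 + γ 2 + γ 3)
      (monomial (Finsupp.single 0 (γ 2) + Finsupp.single 1 (γ 3)) a) := by
  rw [Phi, aeval_monomial, Finsupp.prod_fintype _ _ (fun i => pow_zero _)]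
  have e1 : (algebraMap K (PowerSeries (MvPolynomial (Fin 2) K))) a = PowerSeries.C (C a) := by
    rw [PowerSeries.algebraMap_apply]
    rfl
  have e2 : (monomial (Finsupp.single 0 (γ 2) + Finsupp.single 1 (γ 3)) a : MvPolynomial (Fin 2) K)
      = C a * (X 0 ^ γ 2 * X 1 ^ γ 3) := by
    rw [X_pow_eq_monomial, X_pow_eq_monomial, monomial_mul, C_mul_monomial, mul_one, mul_one]
  rw [e1, e2, Fin.prod_univ_five, h4, PowerSeries.monomial_eq_mk, ← PowerSeries.monomial_eq_mk]
  rw [PowerSeries.monomial_eq_C_mul_X_pow]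
  simp only [Matrix.cons_val_zero, Matrix.cons_val_one, Matrix.cons_val, one_pow, one_mul, pow_zero,
    mul_one, mul_pow, pow_add, map_mul, map_pow]
  ring

private theorem thi_inj {γ δ : Fin 5 →₀ ℕ} {k : ℕ} (hγ : γ.degree = k) (hδ : δ.degree = k)
    (hγ4 : γ 4 = 0) (hδ4 : δ 4 = 0) (h1 : γ 1 + γ 2 + γ 3 = δ 1 + δ 2 + δ 3)
    (h2 : γ 2 = δ 2) (h3 : γ 3 = δ 3) : γ = δ := by
  have e1 : γ 0 + γ 1 + γ 2 + γ 3 + γ 4 = k := by
    rw [← hγ, Finsupp.degree_eq_sum, Fin.sum_univ_five]
  have e2 : δ 0 + δ 1 + δ 2 + δ 3 + δ 4 = k := by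
    rw [← hδ, Finsupp.degree_eq_sum, Fin.sum_univ_five]
  ext i
  fin_cases i
  · change γ 0 = δ 0
    omega
  · change γ 1 = δ 1
    omega
  · exact h2
  · exact h3
  · change γ 4 = δ 4
    omega

private theorem thi_deg {K : Subfield ℂ} {c : MvPolynomial (Fin 5) K} {k : ℕ}
    (hc : c.IsHomogeneous k) {γ : Fin 5 →₀ ℕ} (h : γ ∈ c.support) : γ.degree = k := by
  by_contra hne
  exact mem_support_iff.1 h (hc.coeff_eq_zero hne)

/-- a form in the first four variables does not vanish at `(1 : Z : α Z : β Z)`.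

Proof. For a form `c` of degree `k`, a monomial `X^γ` goes to
`Z ^ (γ 1 + γ 2 + γ 3) α ^ (γ 2) β ^ (γ 3)`, and `γ` is determined by these exponents (`γ 4 = 0`,
`γ 0 = k - γ 1 - γ 2 - γ 3`). Compare coefficients. -/
theorem Phi_first {K : Subfield ℂ} {θ : PowerSeries (MvPolynomial (Fin 2) K)} {k : ℕ}
    {c : MvPolynomial (Fin 5) K} (hc : c.IsHomogeneous k) (hc4 : ∀ γ ∈ c.support, γ 4 = 0)
    (h : Phi K θ c = 0) : c = 0 := by
  classical
  by_contra hne
  obtain ⟨γ, hγ⟩ := Finset.nonempty_iff_ne_empty.2 (fun h0 => hne (support_eq_empty.1 h0))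
  have h1 : Phi K θ c = ∑ δ ∈ c.support, PowerSeries.monomial (δ 1 + δ 2 + δ 3)
      (monomial (Finsupp.single 0 (δ 2) + Finsupp.single 1 (δ 3)) (coeff δ c)) := by
    conv_lhs => rw [c.as_sum]
    rw [map_sum]
    exact Finset.sum_congr rfl fun δ hδ => thi_mono θ (hc4 δ hδ) _
  have h2 : coeff (Finsupp.single 0 (γ 2) + Finsupp.single 1 (γ 3))
      (PowerSeries.coeff (γ 1 + γ 2 + γ 3) (Phi K θ c)) = coeff γ c := by
    rw [h1, map_sum, coeff_sum, Finset.sum_eq_single γ]
    · rw [PowerSeries.coeff_monomial_same, coeff_monomial, if_pos rfl]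
    · intro δ hδ hδγ
      rw [PowerSeries.coeff_monomial]
      split_ifs with hs
      · rw [coeff_monomial, if_neg]
        intro he
        apply hδγ
        have e0 := DFunLike.congr_fun he 0
        have e1 := DFunLike.congr_fun he 1
        simp only [Finsupp.add_apply, Finsupp.single_apply] at e0 e1
        simp at e0 e1
        exact thi_inj (thi_deg hc hδ) (thi_deg hc hγ) (hc4 δ hδ) (hc4 γ hγ) hs.symm e0 e1
      · rw [coeff_zero]
    · intro h0
      exact absurd hγ h0
  rw [h] at h2
  simp only [map_zero, coeff_zero] at h2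
  exact mem_support_iff.1 hγ h2.symm

/-- polynomials in the last variable -/
private noncomputable def thiE (K : Subfield ℂ) :
    MvPolynomial (Fin 5) K ≃ₐ[K] Polynomial (MvPolynomial (Fin 4) K) :=
  (renameEquiv K Fin.revPerm).trans (finSuccEquiv K 4)

private theorem thiE_apply {K : Subfield ℂ} (F : MvPolynomial (Fin 5) K) :
    thiE K F = finSuccEquiv K 4 (rename Fin.rev F) := rfl

private theorem thiE_natDegree {K : Subfield ℂ} (F : MvPolynomial (Fin 5) K) :
    (thiE K F).natDegree = degreeOf 4 F := by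
  rw [thiE_apply, natDegree_finSuccEquiv]
  exact degreeOf_rename_of_injective (Fin.rev_injective) 4

private theorem thiE_coeff {K : Subfield ℂ} {P : MvPolynomial (Fin 5) K} {e : ℕ}
    (hP : P.IsHomogeneous e) (hc : coeff (Finsupp.single 4 e) P = 1) :
    (thiE K P).coeff e = 1 := by
  classical
  refine MvPolynomial.ext _ _ fun m => ?_
  rw [thiE_apply, finSuccEquiv_coeff_coeff, coeff_one]
  split_ifs with hm
  · subst hm
    have h1 : (Finsupp.cons e (0 : Fin 4 →₀ ℕ)) =
        Finsupp.mapDomain Fin.rev (Finsupp.single (4 : Fin 5) e) := by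
      rw [Finsupp.mapDomain_single]
      ext i
      refine Fin.cases ?_ (fun j => ?_) i
      · rw [Finsupp.cons_zero]
        simp
      · rw [Finsupp.cons_succ]
        have h3 : Fin.rev (4 : Fin 5) ≠ j.succ := by
          have : Fin.rev (4 : Fin 5) = 0 := rfl
          rw [this]
          exact (Fin.succ_ne_zero j).symm
        rw [Finsupp.single_eq_of_ne' h3]
        rfl
    rw [h1, coeff_rename_mapDomain _ Fin.rev_injective, hc]
  · have h2 : (rename Fin.rev P).IsHomogeneous e := hP.rename_isHomogeneous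
    apply h2.coeff_eq_zero
    rw [Finsupp.degree_eq_sum, Fin.sum_univ_succ]
    simp only [Finsupp.cons_zero, Finsupp.cons_succ]
    intro h3
    apply hm
    have h4 : ∑ i : Fin 4, m i = 0 := by omega
    ext i
    have := (Finset.sum_eq_zero_iff.1 h4) i (Finset.mem_univ i)
    rw [this]
    rfl

/-- clearing denominators in a Bezout relation -/
private theorem thi_bezout {A : Type*} [CommRing A] [IsDomain A] [IsIntegrallyClosed A]
    {p q : Polynomial A} (hp : p.Monic) (hirr : Irreducible p) (hq : q ≠ 0)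
    (hd : q.natDegree < p.natDegree) :
    ∃ (u v : Polynomial A) (c : A), c ≠ 0 ∧ u * p + v * q = Polynomial.C c := by
  classical
  let L := FractionRing A
  have hinj : Function.Injective (algebraMap A L) := IsFractionRing.injective A L
  have h1 : Irreducible (p.map (algebraMap A L)) :=
    (hp.irreducible_iff_irreducible_map_fraction_map (K := L)).1 hirr
  have hq0 : q.map (algebraMap A L) ≠ 0 := by
    rwa [Ne, Polynomial.map_eq_zero_iff hinj]
  have h2 : ¬ p.map (algebraMap A L) ∣ q.map (algebraMap A L) := by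
    intro hdvd
    have h3 := Polynomial.natDegree_le_of_dvd hdvd hq0
    rw [Polynomial.natDegree_map_eq_of_injective hinj,
      Polynomial.natDegree_map_eq_of_injective hinj] at h3
    omega
  have h4 : IsCoprime (p.map (algebraMap A L)) (q.map (algebraMap A L)) :=
    (dvd_or_isCoprime _ _ h1).resolve_left h2
  obtain ⟨a, b, hab⟩ := h4
  obtain ⟨s, hs, hs2⟩ := IsLocalization.integerNormalization_spec (nonZeroDivisors A) a
  obtain ⟨t, ht, ht2⟩ := IsLocalization.integerNormalization_spec (nonZeroDivisors A) b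
  refine ⟨Polynomial.C t * IsLocalization.integerNormalization (nonZeroDivisors A) a,
    Polynomial.C s * IsLocalization.integerNormalization (nonZeroDivisors A) b, s * t,
    mul_ne_zero (nonZeroDivisors.ne_zero hs) (nonZeroDivisors.ne_zero ht), ?_⟩
  apply Polynomial.map_injective (algebraMap A L) hinj
  rw [Polynomial.map_add, Polynomial.map_mul, Polynomial.map_mul, Polynomial.map_mul,
    Polynomial.map_mul, hs2, ht2, Polynomial.map_C, Polynomial.map_C, Polynomial.map_C,
    Algebra.smul_def, Algebra.smul_def]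
  have e1 : ∀ r : A, algebraMap A (Polynomial L) r = Polynomial.C (algebraMap A L r) :=
    fun r => rfl
  rw [e1, e1, map_mul, map_mul]
  linear_combination (Polynomial.C (algebraMap A L s) * Polynomial.C (algebraMap A L t)) * hab

private theorem thi_exists_hc {σ K : Type*} [Field K] {F : MvPolynomial σ K} (hF : F ≠ 0) :
    ∃ k, homogeneousComponent k F ≠ 0 := by
  by_contra hcon
  push Not at hcon
  apply hF
  rw [← sum_homogeneousComponent F]
  exact Finset.sum_eq_zero fun i _ => hcon i

/-- the components of the multiples of a form are multiples of the form -/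
private theorem thi_hc {K : Subfield ℂ} {θ : PowerSeries (MvPolynomial (Fin 2) K)} {e : ℕ}
    {P : MvPolynomial (Fin 5) K} (hP : P.IsHomogeneous e) (hθ : Phi K θ P = 0)
    (U : MvPolynomial (Fin 5) K) (i : ℕ) : Phi K θ (homogeneousComponent i (U * P)) = 0 := by
  have h1 : U * P = ∑ j ∈ Finset.range (U.totalDegree + 1), homogeneousComponent j U * P := by
    rw [← Finset.sum_mul, sum_homogeneousComponent]
  rw [h1, map_sum, map_sum]
  refine Finset.sum_eq_zero fun j _ => ?_
  rw [homogeneousComponent_of_mem ((homogeneousComponent_isHomogeneous j U).mul hP)]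
  split_ifs
  · rw [map_mul, hθ, mul_zero]
  · rw [map_zero]

/-- **no relation of small degree**.

Proof. Suppose `Q ≠ 0`. View `P`, `Q` as polynomials in `X 4` over the polynomial ring in
`X 0, ..., X 3`. `P` is irreducible and monic in `X 4` of degree `e`, and does not divide `Q`
(degree in `X 4`), so `P` and `Q` are coprime over the fraction field (Gauss's lemma:
`Polynomial.IsPrimitive.irreducible_iff_irreducible_map_fraction_map` or
`Polynomial.Monic.irreducible_iff_irreducible_map_fraction_map`), and there are `A`, `B` and `c ≠ 0`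
without `X 4` such that `A Q + B P = c`. Take the homogeneous component of a degree `i` in which
`c` does not vanish: as `P` and `Q` are homogeneous it is `A' Q + B' P = c_i`. Apply `Phi K θ`:
`Phi K θ c_i = 0`, contrary to `Phi_first`. (A similar argument was formalised in `S/KernAlg.lean`
and `W/ProjForm.lean`, over `ℂ`.) -/
theorem Phi_inj {K : Subfield ℂ} {e k : ℕ} {P Q : MvPolynomial (Fin 5) K}
    (hP : P.IsHomogeneous e) (hc : coeff (Finsupp.single 4 e) P = 1) (hirr : Irreducible P)
    {θ : PowerSeries (MvPolynomial (Fin 2) K)} (hθ : Phi K θ P = 0) (hQ : Q.IsHomogeneous k)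
    (hQe : ∀ γ ∈ Q.support, γ 4 < e) (h : Phi K θ Q = 0) : Q = 0 := by
  classical
  by_contra hQ0
  have hP0 : P ≠ 0 := hirr.ne_zero
  have he : 0 < e := by
    obtain ⟨γ, hγ⟩ := Finset.nonempty_iff_ne_empty.2 (fun h0 => hQ0 (support_eq_empty.1 h0))
    exact lt_of_le_of_lt (Nat.zero_le _) (hQe γ hγ)
  have hcoef := thiE_coeff hP hc
  have hdegP : (thiE K P).natDegree = e := by
    apply le_antisymm
    · rw [thiE_natDegree]
      exact (degreeOf_le_totalDegree P 4).trans hP.totalDegree_le
    · apply Polynomial.le_natDegree_of_ne_zero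
      rw [hcoef]
      exact one_ne_zero
  have hmonic : (thiE K P).Monic := by
    rw [Polynomial.Monic, Polynomial.leadingCoeff, hdegP, hcoef]
  have hdegQ : (thiE K Q).natDegree < (thiE K P).natDegree := by
    rw [hdegP, thiE_natDegree, degreeOf_lt_iff he]
    exact hQe
  have hirr' : Irreducible (thiE K P) := (MulEquiv.irreducible_iff (thiE K)).2 hirr
  have hq0 : thiE K Q ≠ 0 := by
    rwa [Ne, EmbeddingLike.map_eq_zero_iff]
  obtain ⟨u, v, c, hc0, huv⟩ := thi_bezout hmonic hirr' hq0 hdegQ
  set D : MvPolynomial (Fin 5) K := (thiE K).symm (Polynomial.C c) with hD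
  have hED : thiE K D = Polynomial.C c := by rw [hD, AlgEquiv.apply_symm_apply]
  have hD0 : D ≠ 0 := by
    intro h0
    rw [h0, map_zero] at hED
    exact hc0 (Polynomial.C_eq_zero.1 hED.symm)
  have hrel : (thiE K).symm u * P + (thiE K).symm v * Q = D := by
    rw [hD, ← huv, map_add, map_mul, map_mul, AlgEquiv.symm_apply_apply,
      AlgEquiv.symm_apply_apply]
  have hD4 : ∀ γ ∈ D.support, γ 4 = 0 := by
    have h1 : degreeOf 4 D = 0 := by
      rw [← thiE_natDegree, hED, Polynomial.natDegree_C]
    have h2 : degreeOf 4 D < 1 := by omega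
    rw [degreeOf_lt_iff one_pos] at h2
    intro γ hγ
    have := h2 γ hγ
    omega
  obtain ⟨i, hi⟩ := thi_exists_hc hD0
  apply hi
  apply Phi_first (θ := θ) (homogeneousComponent_isHomogeneous i D)
  · intro γ hγ
    apply hD4
    rw [mem_support_iff] at hγ ⊢
    rw [coeff_homogeneousComponent] at hγ
    split_ifs at hγ with h1
    · exact hγ
    · exact absurd rfl hγ
  · rw [← hrel, map_add, map_add, thi_hc hP hθ, thi_hc hQ h, add_zero]

end Pool.Agent.Lib.MP_ed661f_ag.V
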