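import Pool.Agent.Lib.MP_ed661f_ag.V.ThetaInj

/-!
Linear independence of the monomials on the generic branch.
-/

set_option autoImplicit false

open MvPolynomial

namespace Pool.Agent.Lib.MP_ed661f_ag.V

/-- the exponents of the homogenised monomials -/
private noncomputable def tlGam (M s b c : ℕ) (m : Fin 2 →₀ ℕ) : Fin 5 →₀ ℕ :=
  Finsupp.equivFunOnFinite.symm ![s - b - c, M - (m 0 + m 1) + b, m 0, m 1, c]

private theorem tlGam_0 (M s b c : ℕ) (m : Fin 2 →₀ ℕ) : tlGam M s b c m 0 = s - b - c := rfl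
private theorem tlGam_1 (M s b c : ℕ) (m : Fin 2 →₀ ℕ) :
    tlGam M s b c m 1 = M - (m 0 + m 1) + b := rfl
private theorem tlGam_2 (M s b c : ℕ) (m : Fin 2 →₀ ℕ) : tlGam M s b c m 2 = m 0 := rfl
private theorem tlGam_3 (M s b c : ℕ) (m : Fin 2 →₀ ℕ) : tlGam M s b c m 3 = m 1 := rfl
private theorem tlGam_4 (M s b c : ℕ) (m : Fin 2 →₀ ℕ) : tlGam M s b c m 4 = c := rfl

private theorem tlGam_degree {M s b c : ℕ} {m : Fin 2 →₀ ℕ} (hm : m 0 + m 1 ≤ M)
    (hs : b + c ≤ s) : (tlGam M s b c m).degree = M + s := by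
  rw [Finsupp.degree_eq_sum, Fin.sum_univ_five, tlGam_0, tlGam_1, tlGam_2, tlGam_3, tlGam_4]
  omega

private theorem tlGam_inj {M s b c b' c' : ℕ} {m m' : Fin 2 →₀ ℕ} (hs : b + c ≤ s)
    (hs' : b' + c' ≤ s) (h : tlGam M s b c m = tlGam M s b' c' m') :
    b = b' ∧ c = c' ∧ m = m' := by
  have h0 := DFunLike.congr_fun h 0
  have h2 := DFunLike.congr_fun h 2
  have h3 := DFunLike.congr_fun h 3
  have h4 := DFunLike.congr_fun h 4
  rw [tlGam_0, tlGam_0] at h0
  rw [tlGam_2, tlGam_2] at h2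
  rw [tlGam_3, tlGam_3] at h3
  rw [tlGam_4, tlGam_4] at h4
  refine ⟨by omega, h4, ?_⟩
  ext i
  fin_cases i
  · exact h2
  · exact h3

private theorem tl_Phi_monomial {K : Subfield ℂ} (θ : PowerSeries (MvPolynomial (Fin 2) K))
    {M s b c : ℕ} {m : Fin 2 →₀ ℕ} (hm : m 0 + m 1 ≤ M) (a : K) :
    Phi K θ (monomial (tlGam M s b c m) a) =
      PowerSeries.X ^ M * (PowerSeries.C (monomial m a) * (PowerSeries.X ^ b * θ ^ c)) := by
  have h1 : (monomial m a : MvPolynomial (Fin 2) K) = C a * (X 0 ^ m 0 * X 1 ^ m 1) := by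
    rw [monomial_eq, Finsupp.prod_fintype _ _ (fun i => pow_zero _), Fin.prod_univ_two]
  have h2 : algebraMap K (PowerSeries (MvPolynomial (Fin 2) K)) a = PowerSeries.C (C a) := by
    rw [PowerSeries.algebraMap_apply, MvPolynomial.algebraMap_eq]
  unfold Phi
  rw [aeval_monomial, Finsupp.prod_fintype _ _ (fun i => pow_zero _), Fin.prod_univ_five,
    tlGam_0, tlGam_1, tlGam_2, tlGam_3, tlGam_4, h1, h2, map_mul, map_mul, map_pow, map_pow]
  simp only [Matrix.cons_val]
  have h3 : M = (M - (m 0 + m 1)) + (m 0 + m 1) := by omega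
  have h4 : (PowerSeries.X : PowerSeries (MvPolynomial (Fin 2) K)) ^ M =
      PowerSeries.X ^ (M - (m 0 + m 1)) * (PowerSeries.X ^ (m 0) * PowerSeries.X ^ (m 1)) := by
    rw [← pow_add, ← pow_add, ← h3]
  rw [h4, one_pow, mul_pow, mul_pow, pow_add]
  ring

private theorem tl_le {K : Subfield ℂ} {r : MvPolynomial (Fin 2) K} {M : ℕ}
    (hM : r.totalDegree ≤ M) {m : Fin 2 →₀ ℕ} (hm : m ∈ r.support) : m 0 + m 1 ≤ M := by
  have h := le_totalDegree hm
  rw [Finsupp.sum_fintype _ _ (fun _ => rfl), Fin.sum_univ_two] at h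
  exact h.trans hM

/-- **linear independence over `K[α, β]`** of the power series `Z ^ b θ ^ c`, `b ≤ k`, `c < e`.

Proof. Let `∑ r_(b,c) Z ^ b θ ^ c = 0`, `r_(b,c) ∈ K[α, β]`, and let `M` be at least the total
degrees of all the `r_(b,c)`. Put `r'_(b,c) = ∑ (coefficient) X 1 ^ (M - i - j) X 2 ^ i X 3 ^ j` for
`r_(b,c) = ∑ (coefficient) α ^ i β ^ j`, a form of degree `M` in `X 1, X 2, X 3`, with
`Phi K θ r'_(b,c) = Z ^ M r_(b,c)`. The form
`Q = ∑ r'_(b,c) X 0 ^ (k + e - b - c) X 1 ^ b X 4 ^ c` of degree `M + k + e` has degree `< e` in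
`X 4` and `Phi K θ Q = Z ^ M ∑ r_(b,c) Z ^ b θ ^ c = 0`, so `Q = 0` by `Phi_inj`. The `(b,c)` are
separated by the exponents of `X 4` and `X 0`, so all `r'_(b,c) X 1 ^ b = 0`, `r_(b,c) = 0`. -/
theorem linIndep_theta {K : Subfield ℂ} {e : ℕ} {P : MvPolynomial (Fin 5) K}
    (hP : P.IsHomogeneous e) (hc : coeff (Finsupp.single 4 e) P = 1) (hirr : Irreducible P)
    {θ : PowerSeries (MvPolynomial (Fin 2) K)} (hθ : Phi K θ P = 0) (k : ℕ)
    (r : ℕ → ℕ → MvPolynomial (Fin 2) K)
    (h : ∑ b ∈ Finset.range (k + 1), ∑ c ∈ Finset.range e,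
      PowerSeries.C (r b c) * (PowerSeries.X ^ b * θ ^ c) = 0) :
    ∀ b ≤ k, ∀ c < e, r b c = 0 := by
  classical
  set M : ℕ := ∑ b ∈ Finset.range (k + 1), ∑ c ∈ Finset.range e, (r b c).totalDegree with hM
  have hMr : ∀ b ≤ k, ∀ c < e, (r b c).totalDegree ≤ M := by
    intro b hb c hc'
    have h1 : (r b c).totalDegree ≤ ∑ c ∈ Finset.range e, (r b c).totalDegree :=
      Finset.single_le_sum (f := fun c => (r b c).totalDegree) (fun _ _ => Nat.zero_le _)
        (Finset.mem_range.2 hc')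
    have h2 : ∑ c ∈ Finset.range e, (r b c).totalDegree ≤ M :=
      Finset.single_le_sum (f := fun b => ∑ c ∈ Finset.range e, (r b c).totalDegree)
        (fun _ _ => Nat.zero_le _) (Finset.mem_range.2 (by omega))
    exact h1.trans h2
  set Q : MvPolynomial (Fin 5) K := ∑ b ∈ Finset.range (k + 1), ∑ c ∈ Finset.range e,
    ∑ m ∈ (r b c).support, monomial (tlGam M (k + e) b c m) (coeff m (r b c)) with hQdef
  have hQh : Q.IsHomogeneous (M + (k + e)) := by
    refine IsHomogeneous.sum _ _ _ fun b hb => IsHomogeneous.sum _ _ _ fun c hc' =>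
      IsHomogeneous.sum _ _ _ fun m hm => ?_
    rw [Finset.mem_range] at hb hc'
    refine isHomogeneous_monomial _ ?_
    exact tlGam_degree (tl_le (hMr b (by omega) c hc') hm) (by omega)
  have hQ4 : ∀ γ ∈ Q.support, γ 4 < e := by
    intro γ hγ
    rw [mem_support_iff, hQdef, coeff_sum] at hγ
    obtain ⟨b, _, h1⟩ := Finset.exists_ne_zero_of_sum_ne_zero hγ
    rw [coeff_sum] at h1
    obtain ⟨c, hc', h2⟩ := Finset.exists_ne_zero_of_sum_ne_zero h1
    rw [coeff_sum] at h2
    obtain ⟨m, _, h3⟩ := Finset.exists_ne_zero_of_sum_ne_zero h2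
    rw [coeff_monomial] at h3
    have h4 : tlGam M (k + e) b c m = γ := by
      by_contra hne
      rw [if_neg hne] at h3
      exact h3 rfl
    rw [← h4, tlGam_4]
    exact Finset.mem_range.1 hc'
  have hQ0 : Phi K θ Q = 0 := by
    have h1 : Phi K θ Q = PowerSeries.X ^ M * ∑ b ∈ Finset.range (k + 1), ∑ c ∈ Finset.range e,
        PowerSeries.C (r b c) * (PowerSeries.X ^ b * θ ^ c) := by
      rw [hQdef, map_sum, Finset.mul_sum]
      refine Finset.sum_congr rfl fun b hb => ?_
      rw [map_sum, Finset.mul_sum]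
      refine Finset.sum_congr rfl fun c hc' => ?_
      rw [Finset.mem_range] at hb hc'
      rw [map_sum]
      have h2 : PowerSeries.C (r b c) =
          ∑ m ∈ (r b c).support, PowerSeries.C (monomial m (coeff m (r b c))) := by
        rw [← map_sum]
        congr 1
        exact (r b c).as_sum
      rw [h2, Finset.sum_mul, Finset.mul_sum]
      refine Finset.sum_congr rfl fun m hm => ?_
      exact tl_Phi_monomial θ (tl_le (hMr b (by omega) c hc') hm) _
    rw [h1, h, mul_zero]
  have hQz : Q = 0 := Phi_inj hP hc hirr hθ hQh hQ4 hQ0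
  intro b hb c hc'
  refine MvPolynomial.ext _ _ fun m => ?_
  rw [coeff_zero]
  by_contra hm
  have hmem : m ∈ (r b c).support := mem_support_iff.2 hm
  have h5 : coeff (tlGam M (k + e) b c m) Q = coeff m (r b c) := by
    rw [hQdef, coeff_sum, Finset.sum_eq_single b, coeff_sum, Finset.sum_eq_single c, coeff_sum,
      Finset.sum_eq_single m, coeff_monomial, if_pos rfl]
    · intro m' _ hne
      rw [coeff_monomial, if_neg]
      intro h6
      exact hne (tlGam_inj (by omega) (by omega) h6).2.2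
    · intro h6
      exact absurd hmem h6
    · intro c' hc'' hne
      rw [Finset.mem_range] at hc''
      rw [coeff_sum]
      refine Finset.sum_eq_zero fun m' _ => ?_
      rw [coeff_monomial, if_neg]
      intro h6
      exact hne (tlGam_inj (by omega) (by omega) h6).2.1
    · intro h6
      exact absurd (Finset.mem_range.2 hc') h6
    · intro b' hb' hne
      rw [Finset.mem_range] at hb'
      rw [coeff_sum]
      refine Finset.sum_eq_zero fun c' hc'' => ?_
      rw [Finset.mem_range] at hc''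
      rw [coeff_sum]
      refine Finset.sum_eq_zero fun m' _ => ?_
      rw [coeff_monomial, if_neg]
      intro h6
      exact hne (tlGam_inj (by omega) (by omega) h6).1
    · intro h6
      exact absurd (Finset.mem_range.2 (by omega)) h6
  rw [hQz, coeff_zero] at h5
  exact hm h5.symm

end Pool.Agent.Lib.MP_ed661f_ag.V
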