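import Pool.Agent.Lib.MP_ed661f_ag.V.Defs

/-!
Transport by automorphisms of the field of complex numbers.
-/

set_option autoImplicit false

open MvPolynomial

namespace Pool.Agent.Lib.MP_ed661f_ag.V

open Pool.Agent.Lib.MP_ed661f_ag.H

/-- the automorphism of the polynomial ring -/
noncomputable def trm {N : ℕ} (σ : ℂ ≃+* ℂ) : Poly N →+* Poly N := MvPolynomial.map (σ : ℂ →+* ℂ)

private noncomputable def trE {N : ℕ} (σ : ℂ ≃+* ℂ) : Poly N ≃+* Poly N :=
  MvPolynomial.mapEquiv (Fin (N + 1)) σ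

private theorem trE_apply {N : ℕ} (σ : ℂ ≃+* ℂ) (F : Poly N) : trE σ F = trm σ F := rfl

private theorem trE_symm_apply {N : ℕ} (σ : ℂ ≃+* ℂ) (F : Poly N) :
    (trE σ).symm F = trm σ.symm F := rfl

private theorem trm_surj {N : ℕ} (σ : ℂ ≃+* ℂ) : Function.Surjective (trm (N := N) σ) :=
  (trE σ).surjective

private theorem trm_inj {N : ℕ} (σ : ℂ ≃+* ℂ) : Function.Injective (trm (N := N) σ) :=
  (trE σ).injective

private theorem trm_hom {N : ℕ} (σ : ℂ ≃+* ℂ) {F : Poly N} {k : ℕ} (hF : F.IsHomogeneous k) :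
    (trm σ F).IsHomogeneous k := hF.map _

private noncomputable def trQ {N : ℕ} (σ : ℂ ≃+* ℂ) (J : Ideal (Poly N)) :
    Poly N ⧸ J ≃+* Poly N ⧸ J.map (trm σ) :=
  Ideal.quotientEquiv J (J.map (trm σ)) (trE σ) rfl

private theorem trQ_mk {N : ℕ} (σ : ℂ ≃+* ℂ) (J : Ideal (Poly N)) (F : Poly N) :
    trQ σ J (Ideal.Quotient.mk J F) = Ideal.Quotient.mk (J.map (trm σ)) (trm σ F) := rfl

private theorem trQ_symm_mk {N : ℕ} (σ : ℂ ≃+* ℂ) (J : Ideal (Poly N)) (F : Poly N) :
    (trQ σ J).symm (Ideal.Quotient.mk (J.map (trm σ)) F) =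
      Ideal.Quotient.mk J (trm σ.symm F) := rfl

private theorem trQ_smul {N : ℕ} (σ : ℂ ≃+* ℂ) (J : Ideal (Poly N)) (r : ℂ) (x : Poly N ⧸ J) :
    trQ σ J (r • x) = σ r • trQ σ J x := by
  obtain ⟨F, rfl⟩ := Ideal.Quotient.mk_surjective x
  have h1 : r • Ideal.Quotient.mk J F = Ideal.Quotient.mk J (C r * F) := by
    rw [C_mul']
    exact ((Ideal.Quotient.mkₐ ℂ J).toLinearMap.map_smul r F).symm
  have h2 : σ r • Ideal.Quotient.mk (J.map (trm σ)) (trm σ F) =
      Ideal.Quotient.mk (J.map (trm σ)) (C (σ r) * trm σ F) := by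
    rw [C_mul']
    exact ((Ideal.Quotient.mkₐ ℂ (J.map (trm σ))).toLinearMap.map_smul (σ r) (trm σ F)).symm
  rw [h1, trQ_mk, trQ_mk, h2, map_mul]
  congr 2
  exact MvPolynomial.map_C _ _

/-- Proof. `J.map (trm σ)` is the preimage of `J` under `trm σ.symm`. The semilinear bijection
`trm σ` maps the forms of degree `k` modulo `J` onto those modulo `J.map (trm σ)`; it maps a basis
to a basis. -/
theorem hilb_map {N : ℕ} (σ : ℂ ≃+* ℂ) (J : Ideal (Poly N)) (k : ℕ) :
    hilb (J.map (trm σ)) k = hilb J k := by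
  let M := (homogeneousSubmodule (Fin (N + 1)) ℂ k).map (Ideal.Quotient.mkₐ ℂ J).toLinearMap
  let M' := (homogeneousSubmodule (Fin (N + 1)) ℂ k).map
    (Ideal.Quotient.mkₐ ℂ (J.map (trm σ))).toLinearMap
  have h1 : ∀ x ∈ M, trQ σ J x ∈ M' := by
    rintro _ ⟨F, hF, rfl⟩
    exact ⟨trm σ F, trm_hom σ hF, rfl⟩
  have h2 : ∀ y ∈ M', (trQ σ J).symm y ∈ M := by
    rintro _ ⟨F, hF, rfl⟩
    exact ⟨trm σ.symm F, trm_hom σ.symm hF, rfl⟩
  let j : M ≃+ M' :=
    { toFun := fun x => ⟨trQ σ J x.1, h1 x.1 x.2⟩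
      invFun := fun y => ⟨(trQ σ J).symm y.1, h2 y.1 y.2⟩
      left_inv := fun x => Subtype.ext ((trQ σ J).symm_apply_apply x.1)
      right_inv := fun y => Subtype.ext ((trQ σ J).apply_symm_apply y.1)
      map_add' := fun x y => Subtype.ext (map_add (trQ σ J) x.1 y.1) }
  have h3 : Module.rank ℂ M = Module.rank ℂ M' :=
    rank_eq_of_equiv_equiv (fun z => σ z) j σ.bijective
      (fun r m => Subtype.ext (trQ_smul σ J r m.1))
  change Module.finrank ℂ M' = Module.finrank ℂ M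
  rw [Module.finrank, Module.finrank, h3]

/-- Proof. `trm σ` is an automorphism; it fixes the polynomials with coefficients in `K`, so by `hK`
it maps `I` onto `I`. The image of the radical is the radical of the image. -/
theorem map_radical {N : ℕ} {σ : ℂ ≃+* ℂ} {K : Subfield ℂ} (hσ : ∀ x ∈ K, σ x = x)
    {I : Ideal (Poly N)} (hK : DefinedOver K I) (G : Poly N) :
    (I ⊔ Ideal.span {G}).radical.map (trm σ) = (I ⊔ Ideal.span {trm σ G}).radical := by
  have h1 : I.map (trm σ) = I := by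
    have h2 : trm σ '' {F | F ∈ I ∧ ∀ α, coeff α F ∈ K} = {F | F ∈ I ∧ ∀ α, coeff α F ∈ K} := by
      have h3 : ∀ F : Poly N, (∀ α, coeff α F ∈ K) → trm σ F = F := by
        intro F hF
        ext α
        rw [trm, coeff_map]
        exact hσ _ (hF α)
      ext F
      constructor
      · rintro ⟨F', hF', rfl⟩
        rw [h3 F' hF'.2]
        exact hF'
      · intro hF
        exact ⟨F, hF, h3 F hF.2⟩
    calc I.map (trm σ) = (Ideal.span {F | F ∈ I ∧ ∀ α, coeff α F ∈ K}).map (trm σ) := by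
          rw [← hK]
      _ = Ideal.span {F | F ∈ I ∧ ∀ α, coeff α F ∈ K} := by rw [Ideal.map_span, h2]
      _ = I := hK.symm
  rw [Ideal.map_radical_of_surjective (trm_surj σ) (by
    rw [(RingHom.injective_iff_ker_eq_bot _).1 (trm_inj σ)]
    exact bot_le), Ideal.map_sup, h1, Ideal.map_span, Set.image_singleton]

end Pool.Agent.Lib.MP_ed661f_ag.V
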